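import Pool.Agent.Lib.DFE.Defs5

/-!
Row BADT: the number of the times whose site is outside the window.
-/

set_option autoImplicit false

namespace Pool.Agent.DFE

open Finset Pool.Agent.DCOL

namespace BADTAux

variable {d n : ℕ}

theorem Z_pos (β γ : ℝ) (hd : 0 < d) : 0 < partitionFunction d β γ n := by
  have : Nonempty (Step d) := ⟨(⟨0, hd⟩, true)⟩
  exact Finset.sum_pos (fun s _ => Real.exp_pos _) Finset.univ_nonempty

open Classical in
/-- The times at the bad sites. -/
theorem count (ρ δ : ℝ) (s : Fin n → Step d) :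
    (((Finset.range (n + 1)).filter fun i => Bad ρ δ (localTime s (pos s i))).card : ℝ) =
      nbad ρ δ (List.ofFn s) := by
  have h1 := Finset.card_eq_sum_card_fiberwise
    (s := (Finset.range (n + 1)).filter fun i => Bad ρ δ (localTime s (pos s i)))
    (t := (visited s).filter fun x => Bad ρ δ (localTime s x)) (f := pos s) (by
      intro i hi
      obtain ⟨hi1, hi2⟩ := Finset.mem_filter.mp (Finset.mem_coe.mp hi)
      exact Finset.mem_coe.mpr (Finset.mem_filter.mpr ⟨Finset.mem_image.mpr ⟨i, hi1, rfl⟩, hi2⟩))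
  rw [h1, nbad, ← visited_eq]
  push_cast
  have h2 : (visited s).filter (fun x => Bad ρ δ (locN (List.ofFn s) x)) =
      (visited s).filter fun x => Bad ρ δ (localTime s x) := by
    refine Finset.filter_congr fun x _ => ?_
    rw [localTime_eq]
  rw [h2]
  refine Finset.sum_congr rfl fun x hx => ?_
  have hx2 := (Finset.mem_filter.mp hx).2
  rw [← localTime_eq, localTime, Finset.filter_filter]
  congr 2
  refine Finset.filter_congr fun i _ => ?_
  constructor
  · exact fun h => h.2
  · intro h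
    refine ⟨?_, h⟩
    rw [h]
    exact hx2

open Classical in
/-- Markov. -/
theorem markov {β γ c K M : ℝ} {v : List (Step d) → ℝ} (hd : 0 < d) (hc : 0 ≤ c)
    (A : (Fin n → Step d) → Prop) (hA : ∀ s, A s → K ≤ v (List.ofFn s))
    (h : ∑ w ∈ allw d n, Real.exp (c * v w - En β γ (loc w)) ≤ M) :
    prob d β γ n A ≤ Real.exp (-(c * K)) * M / partitionFunction d β γ n := by
  unfold prob
  refine div_le_div_of_nonneg_right ?_ (Z_pos β γ hd).le
  have h0 : ∑ s with A s, Real.exp (-energy β γ s) ≤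
      ∑ s : Fin n → Step d, Real.exp (-(c * K)) *
        Real.exp (c * v (List.ofFn s) - En β γ (loc (List.ofFn s))) := by
    refine le_trans (Finset.sum_le_sum (g := fun s => Real.exp (-(c * K)) *
      Real.exp (c * v (List.ofFn s) - En β γ (loc (List.ofFn s))))
      fun s hs => ?_) (Finset.sum_le_sum_of_subset_of_nonneg (Finset.filter_subset _ _)
      fun s _ _ => by positivity)
    have h1 := hA s (Finset.mem_filter.mp hs).2
    rw [← Real.exp_add, energy_eq]
    refine Real.exp_le_exp.mpr ?_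
    have := mul_le_mul_of_nonneg_left h1 hc
    linarith
  refine h0.trans ?_
  rw [← Finset.mul_sum, sum_words fun w => Real.exp (c * v w - En β γ (loc w))]
  exact mul_le_mul_of_nonneg_left h (Real.exp_pos _).le

end BADTAux

open BADTAux

/-- BADT. -/
theorem badt : UPPG_stmt → LOWF_stmt → SSN_stmt → BADT_stmt := by
  classical
  intro hU hL hSN d hd β ε hβ hε
  set ρ : ℝ := min ε (1 / 2) with hρ
  have hρ0 : 0 < ρ := lt_min hε (by norm_num)
  have hρ1 : ρ < 1 := (min_le_right _ _).trans_lt (by norm_num)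
  have hρε : ρ ≤ ε := min_le_left _ _
  set e : ℝ := min (ρ ^ 2 * ε / 64) (1 / 2) with he
  have he0 : 0 < e := by positivity
  have he1 : e < 1 := (min_le_right _ _).trans_lt (by norm_num)
  have he2 : e ≤ ρ ^ 2 * ε / 64 := min_le_left _ _
  obtain ⟨δ₁, hδ₁, hL⟩ := hL d hd β e hβ he0
  obtain ⟨δ₂, hδ₂, _, hSN⟩ := hSN 1 1 one_pos one_pos
  obtain ⟨δ₃, hδ₃, hU⟩ := hU d hd (β / 2) ρ e (by linarith) hρ0 hρ1 he0 he1
  refine ⟨min (min δ₁ δ₂) (min δ₃ (β / 2)), ρ ^ 2 * ε / 32, by positivity, by positivity, ?_⟩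
  intro γ hγ hδ
  have e1 : β - γ ≤ δ₁ := hδ.trans ((min_le_left _ _).trans (min_le_left _ _))
  have e2 : β - γ ≤ δ₂ := hδ.trans ((min_le_left _ _).trans (min_le_right _ _))
  have e3 : β - γ ≤ δ₃ := hδ.trans ((min_le_right _ _).trans (min_le_left _ _))
  have e4 : β - γ ≤ β / 2 := hδ.trans ((min_le_right _ _).trans (min_le_right _ _))
  have hδ0 : 0 < β - γ := by linarith
  have hS : 0 < SS (β - γ) := (hSN (β - γ) hδ0 e2).1
  obtain ⟨n₁, hL⟩ := hL γ (by linarith) hγ e1
  obtain ⟨n₂, hU⟩ := hU β γ (by linarith) hγ e3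
  have haa : 0 < aa (β - γ) := by
    unfold aa
    positivity
  refine ⟨max n₁ n₂, fun n hn => ?_⟩
  have hLn := hL n (le_trans (le_max_left _ _) hn)
  have hUn := hU n (le_trans (le_max_right _ _) hn)
  have hZ := Z_pos β γ (n := n) hd
  rw [← partition_eq] at hLn
  set S := SS (β - γ) with hSdef
  have hp := markov (d := d) (n := n) (β := β) (γ := γ) (c := ρ ^ 2 / 16 * S) (K := ε * n)
    (v := nbad ρ (β - γ)) hd (by positivity)
    (fun s => ε * n ≤ (((Finset.range (n + 1)).filter fun i =>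
      ε * aa (β - γ) < |(localTime s (pos s i) : ℝ) - aa (β - γ)|).card : ℝ)) (by
      intro s hs
      refine hs.trans ?_
      rw [← count]
      have h1 : ((Finset.range (n + 1)).filter fun i =>
          ε * aa (β - γ) < |(localTime s (pos s i) : ℝ) - aa (β - γ)|) ⊆
          (Finset.range (n + 1)).filter fun i =>
            Bad ρ (β - γ) (localTime s (pos s i)) := by
        intro i hi
        obtain ⟨hi1, hi2⟩ := Finset.mem_filter.mp hi
        refine Finset.mem_filter.mpr ⟨hi1, ?_⟩
        exact (mul_le_mul_of_nonneg_right hρε haa.le).trans_lt hi2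
      exact_mod_cast Finset.card_le_card h1) hUn
  refine hp.trans ?_
  rw [div_le_iff₀ hZ]
  have h1 : Real.exp (-(ρ ^ 2 / 16 * S * (ε * n))) * ((2 * d) ^ n *
      Real.exp (-((1 - e) * S * n))) =
      Real.exp (-(ρ ^ 2 / 16 * S * (ε * n)) + 2 * e * S * n) *
        ((2 * d) ^ n * Real.exp (-((1 + e) * S * n))) := by
    have h2 : Real.exp (-((1 - e) * S * n)) =
        Real.exp (2 * e * S * n) * Real.exp (-((1 + e) * S * n)) := by
      rw [← Real.exp_add]
      congr 1
      ring
    rw [h2, Real.exp_add]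
    ring
  rw [h1]
  have hn0 : (0 : ℝ) ≤ n := Nat.cast_nonneg n
  have h3 : Real.exp (-(ρ ^ 2 / 16 * S * (ε * n)) + 2 * e * S * n) ≤
      Real.exp (-(ρ ^ 2 * ε / 32 * S * n)) := by
    refine Real.exp_le_exp.mpr ?_
    have h4 : e * (S * n) ≤ ρ ^ 2 * ε / 64 * (S * n) :=
      mul_le_mul_of_nonneg_right he2 (by positivity)
    nlinarith
  exact mul_le_mul h3 hLn (by positivity) (Real.exp_pos _).le

end Pool.Agent.DFE
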