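import Pool.Agent.Lib.DFE.Jensen

/-!
The number of the lists with given counts and given last element.
-/

set_option autoImplicit false

namespace Pool.Agent.DFE

open Finset Pool.Agent.DCOL

/-- The lists with the counts `m` and the last element `t`. -/
def lst {d : ℕ} (m : Step d → ℕ) (t : Step d) : Finset (List (Step d)) :=
  (allw d (∑ s, m s)).filter fun w => (∀ s, w.count s = m s) ∧ w.getLast? = some t

/-- LIST. First part: `(∑ m - 1)! * m t ≤ (number) * ∏ (m s)!` (induction on the length). Second part: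
Stirling, `n! ≥ sqrt n (n / e) ^ n` and `n! ≤ e sqrt n (n / e) ^ n`, `log x ≤ x - 1`. -/
def LIST_stmt : Prop :=
  (∀ (d : ℕ) (m : Step d → ℕ) (t : Step d), 1 ≤ m t →
    ((∑ s, m s) - 1).factorial * m t ≤ (lst m t).card * ∏ s, (m s).factorial) ∧
  (∀ d : ℕ, 0 < d → ∀ A : ℝ, 0 < A → ∃ c : ℝ, 0 < c ∧ ∀ a : ℕ, 1 ≤ a → ∀ m : Step d → ℕ,
    ∑ s, m s = 2 * d * a → (∀ s, ((m s : ℝ) - a) ^ 2 ≤ A * a) → (∀ s, a ≤ 2 * m s) →
    (∀ s, m s ≤ 2 * a) → ∀ t, c * ((2 * d) ^ (2 * d * a) * (Real.sqrt a / a ^ d)) ≤ (lst m t).card)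

end Pool.Agent.DFE
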