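import Pool.Agent.Lib.DFE.BoxDefs
import Pool.Agent.Lib.DFE.Defs3

/-!
Many closed words with flat local times in a box.
-/

set_option autoImplicit false

namespace Pool.Agent.DFE

open Finset Pool.Agent.DCOL

namespace BoxAux

variable {d : ℕ}

/-- The unit vector. -/
def ev (i : Fin d) : Site d := Pi.single i 1

theorem vec_t (i : Fin d) : vec (i, true) = ev i := by simp [vec, ev]

theorem vec_f (i : Fin d) : vec (i, false) = -ev i := by simp [vec, ev]

theorem ev_apply (i l : Fin d) : ev i l = if l = i then 1 else 0 := by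
  simp [ev, Pi.single_apply]

/-- The perturbation of the counts given by the amplitudes. -/
def uu (i₀ : Fin d) (α : Site d → Fin d → Bool → ℤ) (x : Site d) : Step d → ℤ
  | (i, true) => (if i = i₀ then ∑ j, (α x j false + α (x - ev j) j true) else 0) -
      (α x i false + α (x - ev i₀) i true)
  | (i, false) => (if i = i₀ then
      ∑ j, (α (x - ev i₀ - ev j) j false + α (x - ev i₀) j true) else 0) -
      (α (x - ev i₀ - ev i) i false + α (x - ev i) i true)

theorem sum_uu (i₀ : Fin d) (α : Site d → Fin d → Bool → ℤ) (x : Site d) :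
    ∑ s, uu i₀ α x s = 0 := by
  rw [Fintype.sum_prod_type]
  simp only [Fintype.sum_bool, uu, Finset.sum_add_distrib, Finset.sum_sub_distrib,
    Finset.sum_ite_eq', Finset.mem_univ, if_true]
  ring

theorem sum_uu' (i₀ : Fin d) (α : Site d → Fin d → Bool → ℤ) (y : Site d) :
    ∑ s, uu i₀ α (y - vec s) s = 0 := by
  rw [Fintype.sum_prod_type]
  simp only [Fintype.sum_bool, uu, vec_t, vec_f, Finset.sum_add_distrib, Finset.sum_sub_distrib,
    Finset.sum_ite_eq', Finset.mem_univ, if_true]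
  have e1 : ∀ i : Fin d, y - -ev i - ev i₀ - ev i = y - ev i₀ := fun i => by abel
  have e2 : ∀ i : Fin d, y - -ev i - ev i = y := fun i => by abel
  have e3 : ∀ i : Fin d, y - ev i - ev i₀ = y - ev i₀ - ev i := fun i => by abel
  simp only [e1, e2, e3]
  ring

/-- The amplitudes live on the plaquettes of the inner box. -/
structure Amp (N : ℕ) (i₀ : Fin d) (κ : ℤ) (α : Site d → Fin d → Bool → ℤ) : Prop where
  nn : ∀ x j b, 0 ≤ α x j b
  le : ∀ x j b, α x j b ≤ κ
  sp : ∀ x j b, α x j b ≠ 0 → j ≠ i₀ ∧ ∀ i, 1 ≤ x i ∧ x i + 3 ≤ N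

/-- The inner box. -/
noncomputable def inb (d N : ℕ) : Finset (Site d) :=
  Fintype.piFinset fun _ => Finset.Ico (1 : ℤ) ((N : ℤ) - 1)

theorem mem_inb {N : ℕ} {x : Site d} : x ∈ inb d N ↔ ∀ i, 1 ≤ x i ∧ x i + 2 ≤ N := by
  unfold inb
  rw [Fintype.mem_piFinset]
  refine forall_congr' fun i => ?_
  rw [Finset.mem_Ico]
  omega

theorem mem_box {N : ℕ} {x : Site d} : x ∈ box d N ↔ ∀ i, 0 ≤ x i ∧ x i < N := by
  unfold box
  rw [Fintype.mem_piFinset]
  refine forall_congr' fun i => ?_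
  rw [Finset.mem_Ico]

theorem inb_sub {N : ℕ} : inb d N ⊆ box d N := by
  intro x hx
  rw [mem_inb] at hx
  rw [mem_box]
  intro i
  have := hx i
  omega

theorem inb_step {N : ℕ} {x : Site d} (hx : x ∈ inb d N) (s : Step d) : x + vec s ∈ box d N := by
  rw [mem_inb] at hx
  rw [mem_box]
  intro i
  have h1 := hx i
  obtain ⟨j, b⟩ := s
  cases b
  · rw [vec_f, Pi.add_apply, Pi.neg_apply, ev_apply]
    split_ifs <;> omega
  · rw [vec_t, Pi.add_apply, ev_apply]
    split_ifs <;> omega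

theorem uu_zero {N : ℕ} {i₀ : Fin d} {κ : ℤ} {α : Site d → Fin d → Bool → ℤ} (h : Amp N i₀ κ α)
    {x : Site d} (hx : x ∉ inb d N) (s : Step d) : uu i₀ α x s = 0 := by
  have key : ∀ (v : Site d) (j : Fin d) (b : Bool), (j ≠ i₀ → ∀ i, 0 ≤ v i ∧ v i ≤ 1) →
      α (x - v) j b = 0 := by
    intro v j b hv
    by_contra hne
    obtain ⟨h1, h2⟩ := h.sp _ _ _ hne
    apply hx
    rw [mem_inb]
    intro i
    have h3 := hv h1 i
    have h4 := h2 i
    rw [Pi.sub_apply] at h4
    omega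
  have k0 : ∀ j b, α x j b = 0 := fun j b => by
    have := key 0 j b fun _ i => by simp
    rwa [sub_zero] at this
  have k1 : ∀ i j b, α (x - ev i) j b = 0 := fun i j b => key _ j b fun _ l => by
    rw [ev_apply]; split_ifs <;> simp
  have k2 : ∀ j b, α (x - ev i₀ - ev j) j b = 0 := fun j b => by
    rw [sub_sub]
    refine key _ j b fun hj l => ?_
    rw [Pi.add_apply, ev_apply, ev_apply]
    by_cases h1 : l = i₀
    · have h2 : l ≠ j := fun h' => hj (h' ▸ h1)
      rw [if_pos h1, if_neg h2]; simp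
    · rw [if_neg h1]; split_ifs <;> simp
  obtain ⟨i, b⟩ := s
  cases b <;> simp [uu, k0, k1, k2]

theorem uu_low {N : ℕ} {i₀ : Fin d} {κ : ℤ} {α : Site d → Fin d → Bool → ℤ} (h : Amp N i₀ κ α)
    (x : Site d) (s : Step d) : -(2 * κ) ≤ uu i₀ α x s := by
  obtain ⟨i, b⟩ := s
  have h1 : ∀ (p : Prop) [Decidable p] (A : ℤ), 0 ≤ A → 0 ≤ if p then A else 0 := by
    intro p _ A hA
    split_ifs <;> simp [hA]
  cases b
  · have e1 := h1 (i = i₀) (∑ j, (α (x - ev i₀ - ev j) j false + α (x - ev i₀) j true))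
      (Finset.sum_nonneg fun j _ => add_nonneg (h.nn _ _ _) (h.nn _ _ _))
    have e2 := h.le (x - ev i₀ - ev i) i false
    have e3 := h.le (x - ev i) i true
    simp only [uu]
    linarith
  · have e1 := h1 (i = i₀) (∑ j, (α x j false + α (x - ev j) j true))
      (Finset.sum_nonneg fun j _ => add_nonneg (h.nn _ _ _) (h.nn _ _ _))
    have e2 := h.le x i false
    have e3 := h.le (x - ev i₀) i true
    simp only [uu]
    linarith

theorem uu_up {N : ℕ} {i₀ : Fin d} {κ : ℤ} {α : Site d → Fin d → Bool → ℤ} (h : Amp N i₀ κ α)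
    (x : Site d) (s : Step d) : uu i₀ α x s ≤ 2 * d * κ := by
  obtain ⟨i, b⟩ := s
  have hκ : 0 ≤ κ := (h.nn 0 i₀ true).trans (h.le _ _ _)
  have h0 : ∀ f : Fin d → ℤ, (∀ j, f j ≤ 2 * κ) → ∑ j, f j ≤ 2 * d * κ := by
    intro f hf
    have := Finset.sum_le_card_nsmul univ f (2 * κ) fun j _ => hf j
    rw [Finset.card_univ, Fintype.card_fin, nsmul_eq_mul] at this
    linarith
  have h1 : ∀ (p : Prop) [Decidable p] (A : ℤ), A ≤ 2 * d * κ → (if p then A else 0) ≤ 2 * d * κ := by
    intro p _ A hA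
    split_ifs
    · exact hA
    · positivity
  cases b
  · have e1 := h1 (i = i₀) (∑ j, (α (x - ev i₀ - ev j) j false + α (x - ev i₀) j true))
      (h0 _ fun j => by linarith [h.le (x - ev i₀ - ev j) j false, h.le (x - ev i₀) j true])
    have e2 := h.nn (x - ev i₀ - ev i) i false
    have e3 := h.nn (x - ev i) i true
    simp only [uu]
    linarith
  · have e1 := h1 (i = i₀) (∑ j, (α x j false + α (x - ev j) j true))
      (h0 _ fun j => by linarith [h.le x j false, h.le (x - ev j) j true])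
    have e2 := h.nn x i false
    have e3 := h.nn (x - ev i₀) i true
    simp only [uu]
    linarith

/-- The amplitudes are determined by the perturbation. -/
theorem uu_inj {N : ℕ} {i₀ : Fin d} {κ : ℤ} {α α' : Site d → Fin d → Bool → ℤ}
    (h : Amp N i₀ κ α) (h' : Amp N i₀ κ α') (he : ∀ x s, uu i₀ α x s = uu i₀ α' x s) :
    α = α' := by
  have key : ∀ t : ℕ, ∀ x : Site d, x i₀ ≤ t → ∀ j b, α x j b = α' x j b := by
    intro t
    induction t with
    | zero =>
      intro x hx j b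
      have e1 : α x j b = 0 := by
        by_contra hne
        have := (h.sp _ _ _ hne).2 i₀
        simp only [Nat.cast_zero] at hx
        omega
      have e2 : α' x j b = 0 := by
        by_contra hne
        have := (h'.sp _ _ _ hne).2 i₀
        simp only [Nat.cast_zero] at hx
        omega
      rw [e1, e2]
    | succ t ih =>
      intro x hx j b
      by_cases hj : j = i₀
      · have e1 : α x j b = 0 := by
          by_contra hne
          exact (h.sp _ _ _ hne).1 hj
        have e2 : α' x j b = 0 := by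
          by_contra hne
          exact (h'.sp _ _ _ hne).1 hj
        rw [e1, e2]
      · have h1 : (x - ev i₀) i₀ ≤ t := by
          rw [Pi.sub_apply, ev_apply, if_pos rfl]
          push_cast at hx
          omega
        cases b
        · have e1 := he x (j, true)
          simp only [uu, if_neg hj] at e1
          have e2 := ih _ h1 j true
          omega
        · have e1 := he (x + ev j) (j, false)
          simp only [uu, if_neg hj] at e1
          have e2 := ih _ h1 j false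
          have e3 : x + ev j - ev i₀ - ev j = x - ev i₀ := by abel
          have e4 : x + ev j - ev j = x := by abel
          rw [e3, e4] at e1
          omega
  funext x j b
  exact key (x i₀).toNat x (Int.self_le_toNat _) j b

/-- The counts. -/
noncomputable def mm (N a : ℕ) (i₀ : Fin d) (α : Site d → Fin d → Bool → ℤ) (x : Site d)
    (s : Step d) : ℕ := if x + vec s ∈ box d N then ((a : ℤ) + uu i₀ α x s).toNat else 0

theorem sum_mm {N a : ℕ} {i₀ : Fin d} {κ : ℤ} {α : Site d → Fin d → Bool → ℤ}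
    (h : Amp N i₀ κ α) (ha : 2 * κ ≤ a) (x : Site d) :
    ∑ s, mm N a i₀ α x s = a * deg N x := by
  have h1 : ∀ s, ((mm N a i₀ α x s : ℕ) : ℤ) =
      (if x + vec s ∈ box d N then (a : ℤ) else 0) +
        (if x + vec s ∈ box d N then uu i₀ α x s else 0) := by
    intro s
    unfold mm
    have h2 := uu_low h x s
    split_ifs
    · rw [Int.toNat_of_nonneg (by linarith)]
    · simp
  have h3 : ∑ s, (if x + vec s ∈ box d N then uu i₀ α x s else 0) = 0 := by
    by_cases hx : x ∈ inb d N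
    · rw [← sum_uu i₀ α x]
      refine Finset.sum_congr rfl fun s _ => ?_
      rw [if_pos (inb_step hx s)]
    · refine Finset.sum_eq_zero fun s _ => ?_
      rw [uu_zero h hx]
      split_ifs <;> rfl
  have h4 : ((∑ s, mm N a i₀ α x s : ℕ) : ℤ) = ((a * deg N x : ℕ) : ℤ) := by
    rw [Nat.cast_sum, Finset.sum_congr rfl fun s _ => h1 s, Finset.sum_add_distrib, h3, add_zero,
      ← Finset.sum_filter, Finset.sum_const, nsmul_eq_mul, deg]
    push_cast
    ring
  exact_mod_cast h4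

theorem deg_opp (N : ℕ) (y : Site d) :
    (univ.filter fun s : Step d => y - vec s ∈ box d N).card = deg N y := by
  unfold deg
  refine Finset.card_bij (fun s _ => opp s) ?_ ?_ ?_
  · intro s hs
    rw [Finset.mem_filter] at hs ⊢
    refine ⟨Finset.mem_univ _, ?_⟩
    rw [vec_opp, ← sub_eq_add_neg]
    exact hs.2
  · intro s _ t _ hst
    obtain ⟨i, b⟩ := s
    obtain ⟨j, c⟩ := t
    simp only [opp, Prod.mk.injEq] at hst
    obtain ⟨h1, h2⟩ := hst
    subst h1
    cases b <;> cases c <;> simp_all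
  · intro s hs
    rw [Finset.mem_filter] at hs
    refine ⟨opp s, ?_, ?_⟩
    · rw [Finset.mem_filter]
      refine ⟨Finset.mem_univ _, ?_⟩
      rw [vec_opp, sub_neg_eq_add]
      exact hs.2
    · obtain ⟨i, b⟩ := s
      simp [opp]

theorem inn_mm {N a : ℕ} {i₀ : Fin d} {κ : ℤ} {α : Site d → Fin d → Bool → ℤ}
    (h : Amp N i₀ κ α) (ha : 2 * κ ≤ a) {y : Site d} (hy : y ∈ box d N) :
    ∑ s, (if y - vec s ∈ box d N then mm N a i₀ α (y - vec s) s else 0) = a * deg N y := by
  have h1 : ∀ s, (((if y - vec s ∈ box d N then mm N a i₀ α (y - vec s) s else 0) : ℕ) : ℤ) =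
      (if y - vec s ∈ box d N then (a : ℤ) else 0) + uu i₀ α (y - vec s) s := by
    intro s
    by_cases hs : y - vec s ∈ box d N
    · rw [if_pos hs, if_pos hs]
      unfold mm
      rw [sub_add_cancel, if_pos hy]
      have h2 := uu_low h (y - vec s) s
      rw [Int.toNat_of_nonneg (by linarith)]
    · rw [if_neg hs, if_neg hs, uu_zero h (fun h' => hs (inb_sub h'))]
      simp
  have h4 : ((∑ s, (if y - vec s ∈ box d N then mm N a i₀ α (y - vec s) s else 0) : ℕ) : ℤ) =
      ((a * deg N y : ℕ) : ℤ) := by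
    rw [Nat.cast_sum, Finset.sum_congr rfl fun s _ => h1 s, Finset.sum_add_distrib, sum_uu',
      add_zero, ← Finset.sum_filter, Finset.sum_const, nsmul_eq_mul, deg_opp]
    push_cast
    ring
  exact_mod_cast h4

theorem flow_mm {N a : ℕ} {i₀ : Fin d} {κ : ℤ} {α : Site d → Fin d → Bool → ℤ}
    (h : Amp N i₀ κ α) (ha : 2 * κ ≤ a) (par : Site d → Step d) (σ : Site d → List (Step d))
    (h1 : ∀ x ∈ box d N, σ x ∈ lst (mm N a i₀ α x) (par x)) (h2 : ∀ x, x ∉ box d N → σ x = [])
    (y : Site d) : inn σ y = (σ y).length := by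
  have h3 : ∀ s, (σ (y - vec s)).count s =
      if y - vec s ∈ box d N then mm N a i₀ α (y - vec s) s else 0 := by
    intro s
    by_cases hs : y - vec s ∈ box d N
    · rw [if_pos hs]
      exact (Finset.mem_filter.mp (h1 _ hs)).2.1 s
    · rw [if_neg hs, h2 _ hs]
      rfl
  unfold inn
  rw [Finset.sum_congr rfl fun s _ => h3 s]
  by_cases hy : y ∈ box d N
  · rw [inn_mm h ha hy, mem_allw.mp (Finset.mem_filter.mp (h1 _ hy)).1, sum_mm h ha]
  · rw [h2 _ hy, List.length_nil]
    refine Finset.sum_eq_zero fun s _ => ?_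
    unfold mm
    rw [sub_add_cancel, if_neg hy]
    split_ifs <;> rfl

/-- The parent of a site in the tree. -/
noncomputable def pr (i₀ : Fin d) (x : Site d) : Step d :=
  if h : ∃ i, 0 < x i then (h.choose, false) else (i₀, true)

theorem pr_box {N : ℕ} (hN : 2 ≤ N) (i₀ : Fin d) {x : Site d} (hx : x ∈ box d N) :
    x + vec (pr i₀ x) ∈ box d N := by
  rw [mem_box] at hx ⊢
  unfold pr
  intro l
  have h1 := hx l
  by_cases h : ∃ i, 0 < x i
  · rw [dif_pos h, vec_f, Pi.add_apply, Pi.neg_apply, ev_apply]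
    have h2 := h.choose_spec
    by_cases hl : l = h.choose
    · rw [if_pos hl]
      rw [← hl] at h2
      omega
    · rw [if_neg hl]
      omega
  · rw [dif_neg h, vec_t, Pi.add_apply, ev_apply]
    have h2 : ¬ 0 < x l := fun h' => h ⟨l, h'⟩
    split_ifs <;> omega

/-- The rank of a site in the tree. -/
def rk (x : Site d) : ℕ := ∑ i, (x i).toNat

theorem rk_lt {N : ℕ} (i₀ : Fin d) {x : Site d} (hx : x ∈ box d N) (h0 : x ≠ 0) :
    rk (x + vec (pr i₀ x)) < rk x := by
  rw [mem_box] at hx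
  have h : ∃ i, 0 < x i := by
    by_contra hcon
    apply h0
    funext i
    have h1 := hx i
    have h2 : ¬ 0 < x i := fun h' => hcon ⟨i, h'⟩
    rw [Pi.zero_apply]
    omega
  unfold pr rk
  rw [dif_pos h, vec_f]
  have h2 := h.choose_spec
  refine Finset.sum_lt_sum (fun l _ => ?_) ⟨h.choose, Finset.mem_univ _, ?_⟩
  · rw [Pi.add_apply, Pi.neg_apply, ev_apply]
    split_ifs <;> omega
  · rw [Pi.add_apply, Pi.neg_apply, ev_apply, if_pos rfl]
    omega

/-- The closed words of one system of amplitudes. -/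
theorem words {N a : ℕ} {i₀ : Fin d} {κ : ℤ} {α : Site d → Fin d → Bool → ℤ}
    (h : Amp N i₀ κ α) (ha : 2 * κ ≤ a) :
    ∃ W : Finset (List (Step d)),
      W.card = ∏ x ∈ box d N, (lst (mm N a i₀ α x) (pr i₀ x)).card ∧
      ∀ w ∈ W, w.length = ∑ x ∈ box d N, a * deg N x ∧ endp w = 0 ∧
        (∀ x, lt w x = if x ∈ box d N then a * deg N x else 0) ∧
        ∀ x ∈ box d N, stk 0 w x ∈ lst (mm N a i₀ α x) (pr i₀ x) := by
  refine card_run (box d N) (pr i₀) rk (fun y hy h0 => rk_lt i₀ hy h0)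
    (fun x => a * deg N x) (fun x => lst (mm N a i₀ α x) (pr i₀ x)) ?_ ?_
  · intro x _ l hl
    have h1 := Finset.mem_filter.mp hl
    exact ⟨by rw [mem_allw.mp h1.1, sum_mm h ha], fun _ => h1.2.2⟩
  · intro σ h1 h2 y
    exact flow_mm h ha (pr i₀) σ h1 h2 y

/-- The words determine the amplitudes. -/
theorem words_inj {N a : ℕ} {i₀ : Fin d} {κ : ℤ} {α α' : Site d → Fin d → Bool → ℤ}
    (h : Amp N i₀ κ α) (h' : Amp N i₀ κ α') (ha : 2 * κ ≤ a) (w : List (Step d))
    (h1 : ∀ x ∈ box d N, stk 0 w x ∈ lst (mm N a i₀ α x) (pr i₀ x))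
    (h2 : ∀ x ∈ box d N, stk 0 w x ∈ lst (mm N a i₀ α' x) (pr i₀ x)) : α = α' := by
  refine uu_inj h h' fun x s => ?_
  by_cases hx : x ∈ inb d N
  · have e1 := (Finset.mem_filter.mp (h1 x (inb_sub hx))).2.1 s
    have e2 := (Finset.mem_filter.mp (h2 x (inb_sub hx))).2.1 s
    rw [e1] at e2
    unfold mm at e2
    rw [if_pos (inb_step hx s), if_pos (inb_step hx s)] at e2
    have e3 := uu_low h x s
    have e4 := uu_low h' x s
    omega
  · rw [uu_zero h hx, uu_zero h' hx]

/-- The amplitudes given by a finite table. -/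
noncomputable def am (N K : ℕ) (i₀ : Fin d)
    (g : ({x // x ∈ (Fintype.piFinset fun _ : Fin d => Finset.Ico (1 : ℤ) ((N : ℤ) - 2))} ×
      {j : Fin d // j ≠ i₀} × Bool) → Fin K) (x : Site d) (j : Fin d) (b : Bool) : ℤ :=
  if h : x ∈ (Fintype.piFinset fun _ : Fin d => Finset.Ico (1 : ℤ) ((N : ℤ) - 2)) ∧ j ≠ i₀ then
    ((g (⟨x, h.1⟩, ⟨j, h.2⟩, b) : ℕ) : ℤ) else 0

theorem am_amp (N κ : ℕ) (i₀ : Fin d)
    (g : ({x // x ∈ (Fintype.piFinset fun _ : Fin d => Finset.Ico (1 : ℤ) ((N : ℤ) - 2))} ×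
      {j : Fin d // j ≠ i₀} × Bool) → Fin (κ + 1)) : Amp N i₀ κ (am N (κ + 1) i₀ g) where
  nn x j b := by
    unfold am
    split_ifs <;> positivity
  le x j b := by
    unfold am
    split_ifs with h
    · have := (g (⟨x, h.1⟩, ⟨j, h.2⟩, b)).isLt
      omega
    · positivity
  sp x j b hne := by
    unfold am at hne
    split_ifs at hne with h
    · refine ⟨h.2, fun i => ?_⟩
      have h1 := Fintype.mem_piFinset.mp h.1 i
      rw [Finset.mem_Ico] at h1
      omega
    · exact absurd rfl hne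

theorem am_inj {N K : ℕ} {i₀ : Fin d}
    {g g' : ({x // x ∈ (Fintype.piFinset fun _ : Fin d => Finset.Ico (1 : ℤ) ((N : ℤ) - 2))} ×
      {j : Fin d // j ≠ i₀} × Bool) → Fin K} (h : am N K i₀ g = am N K i₀ g') : g = g' := by
  funext ⟨⟨x, hx⟩, ⟨j, hj⟩, b⟩
  have h1 := congrFun (congrFun (congrFun h x) j) b
  unfold am at h1
  rw [dif_pos ⟨hx, hj⟩, dif_pos ⟨hx, hj⟩] at h1
  exact Fin.ext (by exact_mod_cast h1)

theorem pow_sub_le (k N : ℕ) : ∀ n : ℕ, N ^ n ≤ (N - k) ^ n + k * n * N ^ (n - 1)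
  | 0 => by simp
  | n + 1 => by
    have ih := pow_sub_le k N n
    have h1 : N ^ n * N ≤ ((N - k) ^ n + k * n * N ^ (n - 1)) * N := Nat.mul_le_mul_right _ ih
    have h2 : n * N ^ (n - 1) * N = n * N ^ n := by
      rcases n with _ | n
      · simp
      · rw [Nat.add_sub_cancel, mul_assoc, ← pow_succ]
    have h3 : (N - k) ^ n * N ≤ (N - k) ^ (n + 1) + k * N ^ n := by
      have e1 : N ≤ (N - k) + k := by omega
      calc (N - k) ^ n * N ≤ (N - k) ^ n * ((N - k) + k) := Nat.mul_le_mul_left _ e1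
        _ = (N - k) ^ (n + 1) + k * (N - k) ^ n := by ring
        _ ≤ (N - k) ^ (n + 1) + k * N ^ n := by
          have := Nat.pow_le_pow_left (Nat.sub_le N k) n
          have := Nat.mul_le_mul_left k this
          omega
    calc N ^ (n + 1) = N ^ n * N := pow_succ _ _
      _ ≤ ((N - k) ^ n + k * n * N ^ (n - 1)) * N := h1
      _ = (N - k) ^ n * N + k * (n * N ^ (n - 1) * N) := by ring
      _ ≤ ((N - k) ^ (n + 1) + k * N ^ n) + k * (n * N ^ n) := by rw [h2]; omega
      _ = (N - k) ^ (n + 1) + k * (n + 1) * N ^ (n + 1 - 1) := by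
        rw [Nat.add_sub_cancel]; ring

theorem card_inb (d N : ℕ) : (inb d N).card = (N - 2) ^ d := by
  unfold inb
  rw [Fintype.card_piFinset, Finset.prod_const, Int.card_Ico, Finset.card_univ, Fintype.card_fin]
  congr 1
  omega

theorem deg_inb {N : ℕ} {x : Site d} (hx : x ∈ inb d N) : deg N x = 2 * d := by
  unfold deg
  rw [Finset.filter_true_of_mem fun s _ => inb_step hx s, Finset.card_univ, Fintype.card_prod,
    Fintype.card_fin, Fintype.card_bool, mul_comm]

/-- The conditions on the size of the amplitudes. -/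
theorem kap (d a : ℕ) (hd : 0 < d) : ∃ κ : ℕ,
    (4 * d * κ) ^ 2 ≤ a ∧ 4 * d * κ ≤ a ∧ a ≤ (4 * d * (κ + 1)) ^ 2 := by
  refine ⟨Nat.sqrt a / (4 * d), ?_, ?_, ?_⟩
  · have h1 : 4 * d * (Nat.sqrt a / (4 * d)) ≤ Nat.sqrt a := Nat.mul_div_le _ _
    exact (Nat.pow_le_pow_left h1 2).trans (Nat.sqrt_le' a)
  · exact (Nat.mul_div_le _ _).trans (Nat.sqrt_le_self a)
  · have h1 : Nat.sqrt a < 4 * d * (Nat.sqrt a / (4 * d) + 1) :=
      Nat.lt_mul_div_succ _ (by omega)
    exact (Nat.lt_succ_sqrt' a).le.trans (Nat.pow_le_pow_left h1 2)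

theorem mm_pos {N a κ : ℕ} (hN : 2 ≤ N) (hd : 0 < d) {i₀ : Fin d}
    {α : Site d → Fin d → Bool → ℤ} (h : Amp N i₀ κ α) (ha : 1 ≤ a) (hk : 4 * d * κ ≤ a)
    {x : Site d} (hx : x ∈ box d N) : 1 ≤ mm N a i₀ α x (pr i₀ x) := by
  unfold mm
  rw [if_pos (pr_box hN i₀ hx)]
  have h1 := uu_low h x (pr i₀ x)
  have h2 : 4 * κ ≤ a := le_trans (by nlinarith) hk
  omega

theorem lst_pos (hL : LIST_stmt) {m : Step d → ℕ} {t : Step d} (h : 1 ≤ m t) :
    1 ≤ (lst m t).card := by
  have h1 := hL.1 d m t h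
  rw [Nat.one_le_iff_ne_zero]
  intro h0
  rw [h0, zero_mul] at h1
  have h2 : 0 < ((∑ s, m s) - 1).factorial * m t := Nat.mul_pos (Nat.factorial_pos _) h
  omega

/-- The number of the words of one system of amplitudes. -/
theorem prod_low (hL : LIST_stmt) {N a κ : ℕ} (hN : 2 ≤ N) (hd : 0 < d) {i₀ : Fin d}
    {α : Site d → Fin d → Bool → ℤ} (h : Amp N i₀ κ α) (ha : 1 ≤ a) (hk : 4 * d * κ ≤ a)
    (hk2 : (4 * d * κ) ^ 2 ≤ a) {q : ℝ} (hq : 0 < q)
    (hc : ∀ m : Step d → ℕ, ∑ s, m s = 2 * d * a → (∀ s, ((m s : ℝ) - a) ^ 2 ≤ 1 * a) →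
      (∀ s, a ≤ 2 * m s) → (∀ s, m s ≤ 2 * a) → ∀ t, q ≤ (lst m t).card) :
    q ^ (N - 2) ^ d ≤ ((∏ x ∈ box d N, (lst (mm N a i₀ α x) (pr i₀ x)).card : ℕ) : ℝ) := by
  have hk4 : κ ≤ d * κ := Nat.le_mul_of_pos_left _ hd
  have ha2 : 2 * (κ : ℤ) ≤ a := by
    have : 4 * κ ≤ a := le_trans (by nlinarith) hk
    omega
  have h1 : ∀ x ∈ inb d N, q ≤ ((lst (mm N a i₀ α x) (pr i₀ x)).card : ℝ) := by
    intro x hx
    have e0 : ∀ s, ((mm N a i₀ α x s : ℕ) : ℤ) = a + uu i₀ α x s := by
      intro s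
      unfold mm
      rw [if_pos (inb_step hx s), Int.toNat_of_nonneg]
      have := uu_low h x s
      linarith
    have hkz : 4 * (d : ℤ) * κ ≤ a := by exact_mod_cast hk
    have hk4z : (κ : ℤ) ≤ d * κ := by exact_mod_cast hk4
    refine hc _ ?_ ?_ ?_ ?_ _
    · rw [sum_mm h ha2, deg_inb hx]; ring
    · intro s
      have e1 : ((mm N a i₀ α x s : ℕ) : ℝ) - a = ((uu i₀ α x s : ℤ) : ℝ) := by
        have := e0 s
        have e2 : ((mm N a i₀ α x s : ℕ) : ℝ) = ((a + uu i₀ α x s : ℤ) : ℝ) := by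
          rw [← this]; push_cast; rfl
        rw [e2]; push_cast; ring
      rw [e1]
      have e3 : (uu i₀ α x s) ^ 2 ≤ a := by
        have l1 := uu_low h x s
        have l2 := uu_up h x s
        have l3 : (uu i₀ α x s) ^ 2 ≤ (4 * d * κ : ℤ) ^ 2 := by
          apply sq_le_sq'
          · nlinarith
          · nlinarith
        have l4 : ((4 * d * κ : ℤ)) ^ 2 ≤ a := by exact_mod_cast hk2
        linarith
      rw [one_mul]
      exact_mod_cast e3
    · intro s
      have l1 := uu_low h x s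
      have l2 := e0 s
      have l3 : (a : ℤ) ≤ 2 * (mm N a i₀ α x s : ℕ) := by rw [l2]; linarith
      exact_mod_cast l3
    · intro s
      have l1 := uu_up h x s
      have l2 := e0 s
      have l4 : (0 : ℤ) ≤ d * κ := by positivity
      have l3 : ((mm N a i₀ α x s : ℕ) : ℤ) ≤ 2 * a := by rw [l2]; linarith
      exact_mod_cast l3
  have h2 : ∏ x ∈ inb d N, (lst (mm N a i₀ α x) (pr i₀ x)).card ≤
      ∏ x ∈ box d N, (lst (mm N a i₀ α x) (pr i₀ x)).card :=
    Finset.prod_le_prod_of_subset_of_one_le' inb_sub fun x hx _ =>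
      lst_pos hL (mm_pos hN hd h ha hk hx)
  calc q ^ (N - 2) ^ d = ∏ x ∈ inb d N, q := by rw [Finset.prod_const, card_inb]
    _ ≤ ∏ x ∈ inb d N, ((lst (mm N a i₀ α x) (pr i₀ x)).card : ℝ) :=
      Finset.prod_le_prod (fun _ _ => hq.le) fun x hx => h1 x hx
    _ = ((∏ x ∈ inb d N, (lst (mm N a i₀ α x) (pr i₀ x)).card : ℕ) : ℝ) := by push_cast; rfl
    _ ≤ _ := by exact_mod_cast h2

/-- The words of all systems of amplitudes. -/
theorem all_words (hL : LIST_stmt) {N a κ : ℕ} (hN : 2 ≤ N) (hd : 0 < d) (ha : 1 ≤ a)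
    (hk : 4 * d * κ ≤ a) (hk2 : (4 * d * κ) ^ 2 ≤ a) {q : ℝ} (hq : 0 < q)
    (hc : ∀ m : Step d → ℕ, ∑ s, m s = 2 * d * a → (∀ s, ((m s : ℝ) - a) ^ 2 ≤ 1 * a) →
      (∀ s, a ≤ 2 * m s) → (∀ s, m s ≤ 2 * a) → ∀ t, q ≤ (lst m t).card) :
    ∃ W : Finset (List (Step d)),
      (∀ w ∈ W, w.length = ∑ x ∈ box d N, a * deg N x ∧ endp w = 0 ∧
        ∀ x, lt w x = if x ∈ box d N then a * deg N x else 0) ∧
      ((κ : ℝ) + 1) ^ ((N - 3) ^ d * ((d - 1) * 2)) * q ^ (N - 2) ^ d ≤ W.card := by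
  classical
  set i₀ : Fin d := ⟨0, hd⟩ with hi
  have ha2 : 2 * (κ : ℤ) ≤ a := by
    have : 4 * κ ≤ a := le_trans (by nlinarith) hk
    omega
  choose W hW1 hW2 using fun g => words (a := a) (am_amp N κ i₀ g) ha2
  refine ⟨univ.biUnion W, ?_, ?_⟩
  · intro w hw
    obtain ⟨g, -, hg⟩ := Finset.mem_biUnion.mp hw
    obtain ⟨e1, e2, e3, -⟩ := hW2 g w hg
    exact ⟨e1, e2, e3⟩
  · rw [Finset.card_biUnion]
    · push_cast
      have h1 : ∀ g, q ^ (N - 2) ^ d ≤ ((W g).card : ℝ) := by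
        intro g
        rw [hW1 g]
        exact prod_low hL hN hd (am_amp N κ i₀ g) ha hk hk2 hq hc
      refine le_trans (le_of_eq ?_) (Finset.sum_le_sum fun g _ => h1 g)
      rw [Finset.sum_const, nsmul_eq_mul, Finset.card_univ, Fintype.card_fun, Fintype.card_fin,
        Fintype.card_prod, Fintype.card_prod, Fintype.card_bool, Fintype.card_coe,
        Fintype.card_piFinset, Finset.prod_const, Int.card_Ico, Finset.card_univ,
        Fintype.card_fin, Fintype.card_subtype_compl, Fintype.card_subtype_eq, Fintype.card_fin]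
      have e1 : ((N : ℤ) - 2 - 1).toNat = N - 3 := by omega
      rw [e1]
      push_cast
      rfl
    · intro g _ g' _ hne
      rw [Function.onFun, Finset.disjoint_left]
      intro w hw hw'
      exact hne (am_inj (words_inj (am_amp N κ i₀ g) (am_amp N κ i₀ g') ha2 w
        (hW2 g w hw).2.2.2 (hW2 g' w hw').2.2.2))

end BoxAux

open BoxAux in
theorem box_thm : LIST_stmt → ∀ d : ℕ, 0 < d → BoxStmt d := by
  intro hL d hd
  obtain ⟨c, hc0, hc⟩ := hL.2 d hd 1 one_pos
  have hd1 : (1 : ℝ) ≤ d := by exact_mod_cast hd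
  set l2 := Real.log (2 * d) with hl2
  set l4 := Real.log (4 * d) with hl4
  have hl2p : 0 ≤ l2 := Real.log_nonneg (by linarith)
  have hl4p : 0 ≤ l4 := Real.log_nonneg (by linarith)
  refine ⟨2 * d * l4 + |Real.log c| + 3 * d ^ 2 + 4 * d ^ 2 * l2, by positivity, ?_⟩
  intro a N ha hN
  have haR : (1 : ℝ) ≤ a := by exact_mod_cast ha
  have hla : 0 ≤ Real.log a := Real.log_nonneg haR
  have hla2 : Real.log a ≤ a := (Real.log_le_sub_one_of_pos (by linarith)).trans (by linarith)
  rcases Nat.lt_or_ge N 2 with hN2 | hN2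
  · have hN1 : N = 1 := by omega
    subst hN1
    have hdeg : ∀ x ∈ box d 1, deg 1 x = 0 := by
      intro x hx
      unfold deg
      rw [Finset.card_eq_zero, Finset.filter_eq_empty_iff]
      rintro ⟨i, b⟩ - hs
      have h1 := mem_box.mp hx i
      have h2 := mem_box.mp hs i
      cases b
      · rw [vec_f, Pi.add_apply, Pi.neg_apply, ev_apply, if_pos rfl] at h2
        omega
      · rw [vec_t, Pi.add_apply, ev_apply, if_pos rfl] at h2
        omega
    refine ⟨{[]}, Finset.singleton_nonempty _, ?_, ?_⟩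
    · intro w hw
      rw [Finset.mem_singleton] at hw
      subst hw
      refine ⟨?_, rfl, ?_⟩
      · rw [List.length_nil, Finset.sum_eq_zero fun x hx => by rw [hdeg x hx, mul_zero]]
      · intro x
        rw [lt_nil]
        split_ifs with hx
        · rw [hdeg x hx, mul_zero]
        · rfl
    · rw [Finset.card_singleton, Nat.cast_one, Real.log_one, one_pow, one_pow, one_mul, mul_one]
      have e1 : 2 * d * a * l2 ≤ 4 * d ^ 2 * l2 * a := by
        have : (d : ℝ) ≤ d ^ 2 := by nlinarith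
        have h0 : 0 ≤ (a : ℝ) * l2 := by positivity
        nlinarith
      have e2 : 0 ≤ (2 * d * l4 + |Real.log c| + 3 * d ^ 2) * a := by positivity
      have e3 : 0 ≤ 2 * d * l4 + |Real.log c| + 3 * d ^ 2 + 4 * d ^ 2 * l2 := by positivity
      nlinarith
  · obtain ⟨κ, hk2, hk, hk3⟩ := kap d a hd
    have hq0 : 0 < c * ((2 * d) ^ (2 * d * a) * (Real.sqrt a / a ^ d)) := by positivity
    obtain ⟨W, hW1, hW2⟩ := all_words hL hN2 hd ha hk hk2 hq0 fun m h1 h2 h3 h4 t =>
      hc a ha m h1 h2 h3 h4 t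
    have hpos : 0 < ((κ : ℝ) + 1) ^ ((N - 3) ^ d * ((d - 1) * 2)) *
        (c * ((2 * d) ^ (2 * d * a) * (Real.sqrt a / a ^ d))) ^ (N - 2) ^ d := by positivity
    have hWp : (0 : ℝ) < W.card := hpos.trans_le hW2
    refine ⟨W, Finset.card_pos.mp (by exact_mod_cast hWp), hW1, ?_⟩
    refine le_trans ?_ (Real.log_le_log hpos hW2)
    have hlog : Real.log (((κ : ℝ) + 1) ^ ((N - 3) ^ d * ((d - 1) * 2)) *
        (c * ((2 * d) ^ (2 * d * a) * (Real.sqrt a / a ^ d))) ^ (N - 2) ^ d) =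
        (((N - 3) ^ d * ((d - 1) * 2) : ℕ) : ℝ) * Real.log ((κ : ℝ) + 1) +
        (((N - 2) ^ d : ℕ) : ℝ) * (Real.log c + (((2 * d * a : ℕ) : ℝ) * l2 +
          (Real.log a / 2 - d * Real.log a))) := by
      rw [Real.log_mul (by positivity) (by positivity), Real.log_pow, Real.log_pow,
        Real.log_mul hc0.ne' (by positivity), Real.log_mul (by positivity) (by positivity),
        Real.log_div (by positivity) (by positivity), Real.log_pow, Real.log_pow,
        Real.log_sqrt (by linarith)]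
    rw [hlog, ← hl2]
    have hK : 1 / 2 * Real.log a - l4 ≤ Real.log ((κ : ℝ) + 1) := by
      have e1 : (a : ℝ) ≤ (4 * d * (κ + 1)) ^ 2 := by exact_mod_cast hk3
      have e2 := Real.log_le_log (by linarith) e1
      rw [Real.log_pow, Real.log_mul (by positivity) (by positivity)] at e2
      push_cast at e2
      linarith
    have hK0 : 0 ≤ Real.log ((κ : ℝ) + 1) := Real.log_nonneg (by
      have : (0 : ℝ) ≤ κ := Nat.cast_nonneg _
      linarith)
    set P : ℝ := ((N - 3 : ℕ) : ℝ) ^ d with hP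
    set I : ℝ := ((N - 2 : ℕ) : ℝ) ^ d with hI
    set E : ℝ := (N : ℝ) ^ (d - 1) with hE
    set B : ℝ := (N : ℝ) ^ d with hB
    have hE0 : 0 ≤ E := by positivity
    have hP0 : 0 ≤ P := by positivity
    have hI0 : 0 ≤ I := by positivity
    have p1 : B ≤ P + 3 * d * E := by
      have := pow_sub_le 3 N d
      rw [hP, hE, hB]
      exact_mod_cast this
    have p2 : B ≤ I + 2 * d * E := by
      have := pow_sub_le 2 N d
      rw [hI, hE, hB]
      exact_mod_cast this
    have p3 : P ≤ B := by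
      rw [hP, hB]
      exact_mod_cast Nat.pow_le_pow_left (Nat.sub_le N 3) d
    have p4 : I ≤ B := by
      rw [hI, hB]
      exact_mod_cast Nat.pow_le_pow_left (Nat.sub_le N 2) d
    have hdm : ((d - 1 : ℕ) : ℝ) = d - 1 := by
      rw [Nat.cast_sub hd, Nat.cast_one]
    push_cast
    rw [hdm, ← hP, ← hI]
    set L := Real.log a with hL'
    set Λ := Real.log ((κ : ℝ) + 1) with hΛ
    have hc1 := neg_abs_le (Real.log c)
    set c1 := |Real.log c| with hc1'
    have hc10 : 0 ≤ c1 := abs_nonneg _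
    -- the four parts
    have q1 : P * ((d - 1) * 2) * (1 / 2 * L - l4) ≤ P * ((d - 1) * 2) * Λ :=
      mul_le_mul_of_nonneg_left hK (by
        have : (0 : ℝ) ≤ d - 1 := by linarith
        positivity)
    have hdm0 : (0 : ℝ) ≤ d - 1 := by linarith
    have q2 : (B - 3 * d * E) * ((d - 1) * L) ≤ P * ((d - 1) * L) :=
      mul_le_mul_of_nonneg_right (by linarith) (by positivity)
    have q3 : P * ((d - 1) * 2 * l4) ≤ B * (2 * d * l4) := by
      refine mul_le_mul p3 ?_ (by positivity) (by linarith)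
      nlinarith
    have q4 : (B - 2 * d * E) * (2 * d * a * l2) ≤ I * (2 * d * a * l2) :=
      mul_le_mul_of_nonneg_right (by linarith) (by positivity)
    have q5 : I * ((d - 1 / 2) * L) ≤ B * ((d - 1 / 2) * L) :=
      mul_le_mul_of_nonneg_right p4 (mul_nonneg (by linarith) hla)
    have q6 : -(B * c1) ≤ I * Real.log c := by
      have e1 : I * (-c1) ≤ I * Real.log c := mul_le_mul_of_nonneg_left hc1 hI0
      have e2 : I * c1 ≤ B * c1 := mul_le_mul_of_nonneg_right p4 hc10
      linarith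
    have q7 : 3 * d * E * ((d - 1) * L) ≤ 3 * d ^ 2 * a * E := by
      have e1 : (d - 1) * L ≤ d * a := by nlinarith
      have e2 : 0 ≤ 3 * d * E := by positivity
      have := mul_le_mul_of_nonneg_left e1 e2
      linarith
    have q8 : 0 ≤ (2 * d * l4 + c1) * (a * E) := by positivity
    have q9 : 0 ≤ (3 * d ^ 2 + 4 * d ^ 2 * l2) * B := by
      have : 0 ≤ B := by positivity
      positivity
    nlinarith [q1, q2, q3, q4, q5, q6, q7, q8, q9]

end Pool.Agent.DFE
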