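import Pool.Agent.Lib.DFE.Run

/-!
The box and the statement about the number of the closed words with flat local times.
-/

set_option autoImplicit false

namespace Pool.Agent.DFE

open Finset Pool.Agent.DCOL

/-- The box with the side `N`. -/
noncomputable def box (d N : ℕ) : Finset (Site d) := Fintype.piFinset fun _ => Finset.Ico (0 : ℤ) N

/-- The number of the neighbours of `x` in the box. -/
noncomputable def deg {d : ℕ} (N : ℕ) (x : Site d) : ℕ := (univ.filter fun s : Step d => x + vec s ∈ box d N).card

/-- Many closed words with the visit counts `a * deg` in the box. -/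
def BoxStmt (d : ℕ) : Prop := ∃ C : ℝ, 0 ≤ C ∧ ∀ a N : ℕ, 1 ≤ a → 1 ≤ N →
  ∃ W : Finset (List (Step d)), W.Nonempty ∧
    (∀ w ∈ W, w.length = ∑ x ∈ box d N, a * deg N x ∧ endp w = 0 ∧
      ∀ x, lt w x = if x ∈ box d N then a * deg N x else 0) ∧
    (N : ℝ) ^ d * (2 * d * a * Real.log (2 * d) - 1 / 2 * Real.log a - C) -
      C * a * (N : ℝ) ^ (d - 1) ≤ Real.log W.card

end Pool.Agent.DFE
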