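import Pool.Agent.Lib.DFE.Defs2

/-!
CLS: the total weight of the components that contain a given site.
-/

set_option autoImplicit false

namespace Pool.Agent.DFE

open Finset Pool.Agent.DCOL

namespace CLSAux

variable {d : ℕ}

theorem e4 (T : Finset ℕ) (a : ℕ) : ∑ b ∈ T, Real.exp (-|(b : ℝ) - a|) ≤ 4 := by
  classical
  set r : ℝ := Real.exp (-1) with hr
  have hr0 : 0 < r := Real.exp_pos _
  have hr2 : r ≤ 1 / 2 := by
    rw [hr, Real.exp_neg, inv_eq_one_div]
    have := Real.add_one_le_exp (1 : ℝ)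
    exact one_div_le_one_div_of_le (by norm_num) (by linarith)
  have he : r * Real.exp 1 = 1 := by rw [hr, ← Real.exp_add]; norm_num
  have key : ∀ m : ℕ, Real.exp (-(m : ℝ)) = Real.exp 1 * r ^ (m + 1) := by
    intro m
    rw [hr, ← Real.exp_nat_mul, ← Real.exp_add]
    congr 1; push_cast; ring
  have hgeo : Real.exp 1 * (r / (1 - r)) ≤ 2 := by
    rw [mul_div_assoc', mul_comm (Real.exp 1), he, div_le_iff₀ (by linarith)]
    linarith
  rw [← Finset.sum_filter_add_sum_filter_not T (fun b => a ≤ b)]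
  have p1 : ∑ b ∈ T.filter (fun b => a ≤ b), Real.exp (-|(b : ℝ) - a|) ≤ 2 := by
    refine le_trans ?_ hgeo
    calc _ = Real.exp 1 * ∑ b ∈ T.filter (fun b => a ≤ b), r ^ (b - a + 1) := by
          rw [Finset.mul_sum]
          refine Finset.sum_congr rfl fun b hb => ?_
          have hb' := (Finset.mem_filter.mp hb).2
          rw [← key, Nat.cast_sub hb', abs_of_nonneg]
          rw [sub_nonneg]; exact_mod_cast hb'
      _ ≤ _ := mul_le_mul_of_nonneg_left (sum_geo hr0.le (by linarith) _ (fun b => b - a) (by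
            intro b hb b' hb' h
            rw [Finset.mem_coe, Finset.mem_filter] at hb hb'
            simp only at h
            omega)) (Real.exp_pos _).le
  have p2 : ∑ b ∈ T.filter (fun b => ¬ a ≤ b), Real.exp (-|(b : ℝ) - a|) ≤ 2 := by
    refine le_trans ?_ hgeo
    calc _ = Real.exp 1 * ∑ b ∈ T.filter (fun b => ¬ a ≤ b), r ^ (a - b + 1) := by
          rw [Finset.mul_sum]
          refine Finset.sum_congr rfl fun b hb => ?_
          have hb' := (Finset.mem_filter.mp hb).2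
          have hb'' : b ≤ a := by omega
          rw [← key, Nat.cast_sub hb'', abs_sub_comm, abs_of_nonneg]
          rw [sub_nonneg]; exact_mod_cast hb''
      _ ≤ _ := mul_le_mul_of_nonneg_left (sum_geo hr0.le (by linarith) _ (fun b => a - b) (by
            intro b hb b' hb' h
            rw [Finset.mem_coe, Finset.mem_filter] at hb hb'
            simp only at h
            omega)) (Real.exp_pos _).le
  linarith

/-- The weight of a neighbour. -/
noncomputable def psi2 (c : ℝ) (a b : ℕ) : ℝ :=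
  if b = 0 then 1 else Real.exp (-(c * ((b : ℝ) - a) ^ 2) + |(b : ℝ) - a|)

theorem psi2_nonneg (c : ℝ) (a b : ℕ) : 0 ≤ psi2 c a b := by
  unfold psi2
  split_ifs
  · exact zero_le_one
  · exact (Real.exp_pos _).le

theorem psi2_sum {c : ℝ} (hc : 0 < c) (T : Finset ℕ) (a : ℕ) :
    ∑ b ∈ T, psi2 c a b ≤ 1 + 4 * Real.exp (1 / c) := by
  classical
  have h1 : ∀ b ∈ T, psi2 c a b ≤
      (if b = 0 then (1 : ℝ) else 0) + Real.exp (1 / c) * Real.exp (-|(b : ℝ) - a|) := by
    intro b _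
    unfold psi2
    split_ifs with hb
    · have : 0 < Real.exp (1 / c) * Real.exp (-|(b : ℝ) - a|) := by positivity
      linarith
    · rw [zero_add, ← Real.exp_add]
      refine Real.exp_le_exp.mpr ?_
      set D : ℝ := (b : ℝ) - a
      have h2 : D ^ 2 = |D| ^ 2 := (sq_abs D).symm
      have h3 : 0 ≤ c * (|D| - 1 / c) ^ 2 := by positivity
      have h4 : c * (|D| - 1 / c) ^ 2 = c * |D| ^ 2 - 2 * |D| + 1 / c := by
        field_simp
        ring
      rw [h2]
      linarith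
  refine (Finset.sum_le_sum h1).trans ?_
  rw [Finset.sum_add_distrib, ← Finset.mul_sum]
  have h2 : ∑ b ∈ T, (if b = 0 then (1 : ℝ) else 0) ≤ 1 := by
    rw [Finset.sum_ite_eq']
    split_ifs <;> norm_num
  have h3 := mul_le_mul_of_nonneg_left (e4 T a) (Real.exp_pos (1 / c)).le
  linarith

/-- The product of the weights of the neighbours. -/
theorem prod_psi2 (c : ℝ) (K : Finset (Site d)) (g : Site d → ℕ) (hg : ∀ x, g x ≠ 0 ↔ x ∈ K) :
    ∏ x ∈ K, ∏ s : Step d, psi2 c (g x) (g (x + vec s)) =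
      (∏ x ∈ K, ∏ s : Step d, if x + vec s ∈ K then
        Real.exp (-(c * (((g (x + vec s) - 1 : ℕ) : ℝ) - ((g x - 1 : ℕ) : ℝ)) ^ 2)) else 1) *
      Real.exp (∑ x ∈ K, ∑ s : Step d, if x + vec s ∈ K then
        |((g (x + vec s) - 1 : ℕ) : ℝ) - ((g x - 1 : ℕ) : ℝ)| else 0) := by
  rw [Real.exp_sum, ← Finset.prod_mul_distrib]
  refine Finset.prod_congr rfl fun x hx => ?_
  rw [Real.exp_sum, ← Finset.prod_mul_distrib]
  refine Finset.prod_congr rfl fun s _ => ?_
  have h1 := (hg x).mpr hx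
  unfold psi2
  by_cases hs : x + vec s ∈ K
  · have h2 := (hg _).mpr hs
    rw [if_neg h2, if_pos hs, if_pos hs, ← Real.exp_add]
    have e1 : ((g (x + vec s) - 1 : ℕ) : ℝ) - ((g x - 1 : ℕ) : ℝ) =
        (g (x + vec s) : ℝ) - g x := by
      rw [Nat.cast_sub (Nat.one_le_iff_ne_zero.mpr h2), Nat.cast_sub (Nat.one_le_iff_ne_zero.mpr h1)]
      push_cast; ring
    rw [e1]
  · have h2 : g (x + vec s) = 0 := by
      by_contra h
      exact hs ((hg _).mp h)
    rw [if_pos h2, if_neg hs, if_neg hs, Real.exp_zero, mul_one]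

open Classical in
/-- The field of the component of `p`. -/
noncomputable def hw (T : ℕ) (p : Site d) (w : List (Step d)) : Site d →₀ ℕ :=
  Finsupp.onFinset (clu T w p) (fun x => if x ∈ clu T w p then locN w x + 1 else 0) (by
    intro x hx
    by_contra h
    exact hx (if_neg h))

theorem hw_of_mem {T : ℕ} {p : Site d} {w : List (Step d)} {x : Site d} (h : x ∈ clu T w p) :
    hw T p w x = locN w x + 1 := by
  unfold hw
  rw [Finsupp.onFinset_apply, if_pos h]

theorem hw_of_notMem {T : ℕ} {p : Site d} {w : List (Step d)} {x : Site d}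
    (h : x ∉ clu T w p) : hw T p w x = 0 := by
  unfold hw
  rw [Finsupp.onFinset_apply, if_neg h]

theorem hw_support (T : ℕ) (p : Site d) (w : List (Step d)) :
    (hw T p w).support = clu T w p := by
  ext x
  rw [Finsupp.mem_support_iff]
  by_cases h : x ∈ clu T w p
  · rw [hw_of_mem h]; simp [h]
  · rw [hw_of_notMem h]; simp [h]

theorem sum_le_of_card {ι : Type*} (s : Finset ι) (ω : ι → ℝ) {A q V : ℝ} (hA : 0 < A)
    (hV : 0 ≤ V) (hω : ∀ i ∈ s, 0 ≤ ω i) (hc : (s.card : ℝ) ≤ A * q)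
    (h : ∀ i ∈ s, q * ω i ≤ V) : ∑ i ∈ s, A⁻¹ * ω i ≤ V := by
  rcases s.eq_empty_or_nonempty with rfl | hs
  · simpa using hV
  obtain ⟨j, hj, hmax⟩ := s.exists_max_image ω hs
  calc ∑ i ∈ s, A⁻¹ * ω i ≤ ∑ _i ∈ s, A⁻¹ * ω j :=
        Finset.sum_le_sum fun i hi => mul_le_mul_of_nonneg_left (hmax i hi) (inv_nonneg.mpr hA.le)
    _ = A⁻¹ * (s.card * ω j) := by rw [Finset.sum_const, nsmul_eq_mul]; ring
    _ ≤ A⁻¹ * (A * q * ω j) :=
        mul_le_mul_of_nonneg_left (mul_le_mul_of_nonneg_right hc (hω j hj)) (inv_nonneg.mpr hA.le)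
    _ = q * ω j := by field_simp
    _ ≤ V := h j hj

theorem om_nonneg (T R : ℕ) (i₀ : Fin d) (η δ lam c : ℝ) (w : List (Step d)) (x : Site d) :
    0 ≤ om T R i₀ η δ lam c w x := by
  unfold om
  refine mul_nonneg ?_ (Finset.prod_nonneg fun s _ => ?_)
  · split_ifs
    · exact (Real.exp_pos _).le
    · exact (Real.exp_pos _).le
    · exact zero_le_one
  · split_ifs
    · exact (Real.exp_pos _).le
    · exact zero_le_one

end CLSAux

open CLSAux

theorem cls (hSET : SET_stmt) (hPW : PW_stmt) (hCST : CST_stmt) (hEX : EXPL2_stmt)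
    (hLEV : LEV_stmt) : CLS_stmt := by
  classical
  intro d hd i₀ c ε Ξ hc hε hε1 hΞ
  have hd0 : (0 : ℝ) < d := by exact_mod_cast hd
  set G : ℝ := 1 + 4 * Real.exp (1 / c) with hG
  have hG1 : 1 ≤ G := by
    rw [hG]
    have := Real.exp_pos (1 / c)
    linarith
  set κ₃ : ℝ := (G ^ (2 * d))⁻¹ with hκ₃
  set κ₂ : ℝ := min 1 (Ξ / 4) with hκ₂
  have hGp : 0 < G ^ (2 * d) := pow_pos (by linarith) _
  have hκ₃0 : 0 < κ₃ := inv_pos.mpr hGp
  have hκ₃1 : κ₃ ≤ 1 := inv_le_one_of_one_le₀ (one_le_pow₀ hG1)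
  have hκ₂0 : 0 < κ₂ := lt_min one_pos (by linarith)
  have hκ₂1 : κ₂ ≤ 1 := min_le_left _ _
  have hκ₂4 : κ₂ * 4 ≤ Ξ := by
    have := min_le_right (1 : ℝ) (Ξ / 4)
    rw [← hκ₂] at this
    linarith
  obtain ⟨T₀, R, lam, hT₀, hR, hlam, h⟩ := hPW d hd i₀ c ε (κ₂ * κ₃) hc hε hε1
    (mul_pos hκ₂0 hκ₃0) (mul_le_one₀ hκ₂1 hκ₃0.le hκ₃1)
  refine ⟨T₀, R, lam, hT₀, hR, hlam, fun T₁ hT₁ => ?_⟩
  obtain ⟨δ₀, hδ₀, h⟩ := h T₁ hT₁
  refine ⟨δ₀, hδ₀, fun T δ hT hTT hδ hδδ n e p S hS hinj => ?_⟩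
  have hT2 : 2 ≤ T := hT₀.trans hT
  have hpw := h T δ hT hTT hδ hδδ
  set ω : List (Step d) → ℝ := fun w =>
    ∏ x ∈ clu T w p, om T R i₀ ((1 - ε) * SS δ) δ lam c w x with hω
  have hω0 : ∀ w, 0 ≤ ω w := fun w => Finset.prod_nonneg fun x _ => om_nonneg _ _ _ _ _ _ _ _ _
  set W : (Site d →₀ ℕ) → ℝ := fun g => κ₂ * Real.exp (-|(g p : ℝ) - (T + 1 : ℕ)|) *
    ∏ x ∈ g.support, wt2 κ₃ (psi2 c) g x with hW
  -- the sum over one field
  have hfib : ∀ g ∈ S.image (hw T p), ∑ w ∈ S.filter (fun w => hw T p w = g),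
      ((2 * d : ℝ) ^ (∑ x ∈ clu T w p, (stk 0 w x).length))⁻¹ * ω w ≤ W g := by
    intro g hg
    obtain ⟨w₀, hw₀, rfl⟩ := Finset.mem_image.mp hg
    have hfacts : ∀ w ∈ S.filter (fun w => hw T p w = hw T p w₀), w ∈ S ∧
        clu T w p = clu T w₀ p ∧ ∀ x ∈ clu T w₀ p, locN w x = hw T p w₀ x - 1 := by
      intro w hwf
      rw [Finset.mem_filter] at hwf
      have h1 : clu T w p = clu T w₀ p := by
        rw [← hw_support, ← hw_support, hwf.2]
      refine ⟨hwf.1, h1, fun x hx => ?_⟩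
      rw [← hwf.2, hw_of_mem (by rw [h1]; exact hx)]
      rfl
    set K : Finset (Site d) := clu T w₀ p with hK
    set F : Site d → ℕ := fun x => hw T p w₀ x - 1 with hF
    set A : ℝ := ∏ x ∈ K, (2 * d : ℝ) ^ (F x - if x = e then 1 else 0) with hA
    set q : ℝ := ∏ x ∈ K.filter (fun x => T ≤ F x ∧ T ≤ F (x + vec (i₀, true))),
      Qf d (F x - if x = e then 1 else 0) with hq
    have hA0 : 0 < A := Finset.prod_pos fun x _ => by positivity
    have hcard := hCST d T n i₀ e p K F (Qf d) hT2 (fun k => Qf_nonneg hd k)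
      (fun k j => cnt_le_Qf hd (i₀, true) k j) (S.filter fun w => hw T p w = hw T p w₀) (by
        intro w hwf
        obtain ⟨h1, h2, h3⟩ := hfacts w hwf
        exact ⟨(hS w h1).1, (hS w h1).2.1, (hS w h1).2.2, h2, h3⟩) (by
        intro w hwf w' hwf' hst
        obtain ⟨h1, h2, h3⟩ := hfacts w hwf
        obtain ⟨h1', h2', h3'⟩ := hfacts w' hwf'
        refine hinj w h1 w' h1' ⟨by rw [h2, h2'], fun x hx => hst x ?_⟩
        rw [h2] at hx
        exact hx)
    have hlen : ∀ w ∈ S.filter (fun w => hw T p w = hw T p w₀),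
        (2 * d : ℝ) ^ (∑ x ∈ clu T w p, (stk 0 w x).length) = A := by
      intro w hwf
      obtain ⟨h1, h2, h3⟩ := hfacts w hwf
      rw [h2, hA, Finset.prod_pow_eq_pow_sum]
      congr 1
      refine Finset.sum_congr rfl fun x hx => ?_
      have h4 := length_stk0 w x
      rw [(hS w h1).2.1, h3 x hx] at h4
      simp only [hF]
      omega
    -- PW for the words of the fibre
    set V : ℝ := (κ₂ * κ₃) ^ K.card * ∏ x ∈ K, ∏ s : Step d, if x + vec s ∈ K then
      Real.exp (-(c * ((F (x + vec s) : ℝ) - F x) ^ 2)) else 1 with hV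
    have hVw : ∀ w ∈ S.filter (fun w => hw T p w = hw T p w₀), q * ω w ≤ V := by
      intro w hwf
      obtain ⟨h1, h2, h3⟩ := hfacts w hwf
      have h4 := hpw w p (hS w h1).2.2
      have h5 : ∀ x ∈ K, T ≤ locN w x → ∀ s : Step d, x + vec s ∈ K := by
        have := ((hSET d T w p hd hT2).2 (hS w h1).2.2).2.2.2.2.1
        rw [h2] at this
        exact this
      rw [h2] at h4
      have h6 : K.filter (fun x => T ≤ locN w x ∧ T ≤ locN w (x + vec (i₀, true))) =
          K.filter (fun x => T ≤ F x ∧ T ≤ F (x + vec (i₀, true))) := by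
        ext x
        rw [Finset.mem_filter, Finset.mem_filter]
        refine and_congr_right fun hx => ?_
        rw [h3 x hx]
        refine and_congr_right fun hx2 => ?_
        rw [h3 _ (h5 x hx (by rw [h3 x hx]; exact hx2) _)]
      rw [h6] at h4
      have h7 : ∏ x ∈ K.filter (fun x => T ≤ F x ∧ T ≤ F (x + vec (i₀, true))),
          Qf d (locN w x - if x = endp w then 1 else 0) = q := by
        rw [hq]
        refine Finset.prod_congr rfl fun x hx => ?_
        rw [h3 x (Finset.mem_filter.mp hx).1, (hS w h1).2.1]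
      rw [h7] at h4
      have h8 : ∏ x ∈ K, ∏ s : Step d, (if x + vec s ∈ K then
          Real.exp (-(c * ((locN w (x + vec s) : ℝ) - locN w x) ^ 2)) else 1) =
          ∏ x ∈ K, ∏ s : Step d, (if x + vec s ∈ K then
          Real.exp (-(c * ((F (x + vec s) : ℝ) - F x) ^ 2)) else 1) := by
        refine Finset.prod_congr rfl fun x hx => Finset.prod_congr rfl fun s _ => ?_
        by_cases hs : x + vec s ∈ K
        · rw [if_pos hs, if_pos hs, h3 x hx, h3 _ hs]
        · rw [if_neg hs, if_neg hs]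
      rw [h8] at h4
      have h9 : ω w = ∏ x ∈ K, om T R i₀ ((1 - ε) * SS δ) δ lam c w x := by
        simp only [hω, h2]
      rw [h9]
      exact h4
    have hV0 : 0 ≤ V := by
      rw [hV]
      refine mul_nonneg (pow_nonneg (mul_pos hκ₂0 hκ₃0).le _)
        (Finset.prod_nonneg fun x _ => Finset.prod_nonneg fun s _ => ?_)
      split_ifs
      · exact (Real.exp_pos _).le
      · exact zero_le_one
    have hstep : ∑ w ∈ S.filter (fun w => hw T p w = hw T p w₀),
        ((2 * d : ℝ) ^ (∑ x ∈ clu T w p, (stk 0 w x).length))⁻¹ * ω w ≤ V := by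
      rw [Finset.sum_congr rfl fun w hwf => by rw [hlen w hwf]]
      exact sum_le_of_card _ ω hA0 hV0 (fun w _ => hω0 w) hcard hVw
    refine hstep.trans ?_
    -- V ≤ W g
    obtain ⟨hS1, hS2⟩ := hSET d T w₀ p hd hT2
    obtain ⟨s1, _, _, _, s5, s6, _, s8, s9⟩ := hS2 (hS w₀ hw₀).2.2
    have hgK : ∀ x, hw T p w₀ x ≠ 0 ↔ x ∈ K := by
      intro x
      rw [← Finsupp.mem_support_iff, hw_support]
    have hFloc : ∀ x ∈ K, locN w₀ x = F x := by
      intro x hx
      simp only [hF]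
      rw [hw_of_mem hx]
      rfl
    have hp : p ∈ K := s1
    have hlev : |(F p : ℝ) - T| ≤
        ∑ x ∈ K, ∑ s : Step d, if x + vec s ∈ K then |(F (x + vec s) : ℝ) - F x| else 0 := by
      by_cases hFp : F p < T
      · obtain ⟨z, hz, hzT, -⟩ := s8 p s1
        exact hLEV d T F K p z hp hz s6 (Or.inl ⟨hFp, by rw [← hFloc z hz]; exact hzT⟩)
      · obtain ⟨z, hz, hzT⟩ := s9
        exact hLEV d T F K p z hp hz s6 (Or.inr ⟨by rw [← hFloc z hz]; exact hzT, not_lt.mp hFp⟩)
    have hcardK : 1 ≤ K.card := Finset.card_pos.mpr ⟨p, hp⟩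
    have hprod : ∏ x ∈ (hw T p w₀).support, wt2 κ₃ (psi2 c) (hw T p w₀) x =
        κ₃ ^ K.card * ((∏ x ∈ K, ∏ s : Step d, if x + vec s ∈ K then
          Real.exp (-(c * ((F (x + vec s) : ℝ) - F x) ^ 2)) else 1) *
          Real.exp (∑ x ∈ K, ∑ s : Step d, if x + vec s ∈ K then
            |(F (x + vec s) : ℝ) - F x| else 0)) := by
      rw [hw_support, ← prod_psi2 c K (hw T p w₀) hgK, ← hK]
      unfold wt2
      rw [Finset.prod_mul_distrib, Finset.prod_const]
    have hgp : (hw T p w₀ p : ℝ) - (T + 1 : ℕ) = (F p : ℝ) - T := by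
      have : hw T p w₀ p = F p + 1 := by
        rw [hw_of_mem hp, hFloc p hp]
      rw [this]; push_cast; ring
    simp only [hW]
    rw [hprod, hgp]
    set Z : ℝ := ∑ x ∈ K, ∑ s : Step d, if x + vec s ∈ K then
      |(F (x + vec s) : ℝ) - F x| else 0 with hZ
    set Y : ℝ := ∏ x ∈ K, ∏ s : Step d, if x + vec s ∈ K then
      Real.exp (-(c * ((F (x + vec s) : ℝ) - F x) ^ 2)) else 1 with hY
    have hY0 : 0 ≤ Y := by
      rw [hY]
      refine Finset.prod_nonneg fun x _ => Finset.prod_nonneg fun s _ => ?_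
      split_ifs
      · exact (Real.exp_pos _).le
      · exact zero_le_one
    have hexp : 1 ≤ Real.exp (-|(F p : ℝ) - T|) * Real.exp Z := by
      rw [← Real.exp_add]
      exact Real.one_le_exp (by linarith)
    calc V = (κ₂ ^ K.card * κ₃ ^ K.card) * Y := by rw [hV, mul_pow]
      _ ≤ (κ₂ * κ₃ ^ K.card) * Y := by
          refine mul_le_mul_of_nonneg_right (mul_le_mul_of_nonneg_right ?_ (by positivity)) hY0
          exact pow_le_of_le_one hκ₂0.le hκ₂1 (by omega)
      _ = κ₂ * κ₃ ^ K.card * Y * 1 := by ring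
      _ ≤ κ₂ * κ₃ ^ K.card * Y * (Real.exp (-|(F p : ℝ) - T|) * Real.exp Z) :=
          mul_le_mul_of_nonneg_left hexp (by positivity)
      _ = _ := by ring
  -- the sum over the fields
  rw [← Finset.sum_fiberwise_of_maps_to (g := hw T p) (t := S.image (hw T p))
    (fun w hw' => Finset.mem_image_of_mem _ hw')]
  refine (Finset.sum_le_sum hfib).trans ?_
  rw [← Finset.sum_fiberwise_of_maps_to (g := fun g : Site d →₀ ℕ => g p)
    (t := (S.image (hw T p)).image fun g : Site d →₀ ℕ => g p)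
    (fun g hg => Finset.mem_image_of_mem _ hg)]
  have hin : ∀ a ∈ (S.image (hw T p)).image (fun g : Site d →₀ ℕ => g p),
      ∑ g ∈ (S.image (hw T p)).filter (fun g => g p = a), W g ≤
        κ₂ * Real.exp (-|(a : ℝ) - (T + 1 : ℕ)|) := by
    intro a ha
    have hmem : ∀ g ∈ S.image (hw T p), g p ≠ 0 ∧ Conn2 p g := by
      intro g hg
      obtain ⟨w, hwS, rfl⟩ := Finset.mem_image.mp hg
      obtain ⟨s1, _, _, _, _, s6, _, _, _⟩ := (hSET d T w p hd hT2).2 (hS w hwS).2.2
      refine ⟨by rw [hw_of_mem s1]; exact Nat.succ_ne_zero _, ?_⟩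
      intro P hpP hP
      rw [hw_support]
      refine s6 P hpP fun x hx s hs => hP x hx s ?_
      rw [hw_of_mem hs]
      exact Nat.succ_ne_zero _
    have ha0 : a ≠ 0 := by
      obtain ⟨g, hg, rfl⟩ := Finset.mem_image.mp ha
      exact (hmem g hg).1
    have hex := hEX d κ₃ G (psi2 c) hκ₃0.le (psi2_nonneg c)
      (fun T' a' => psi2_sum hc T' a') (by rw [hκ₃, inv_mul_cancel₀ hGp.ne']) p a
      ((S.image (hw T p)).filter fun g => g p = a) ha0 (by
        intro g hg
        rw [Finset.mem_filter] at hg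
        exact ⟨hg.2, (hmem g hg.1).2⟩)
    calc ∑ g ∈ (S.image (hw T p)).filter (fun g => g p = a), W g =
        κ₂ * Real.exp (-|(a : ℝ) - (T + 1 : ℕ)|) *
          ∑ g ∈ (S.image (hw T p)).filter (fun g => g p = a),
            ∏ x ∈ g.support, wt2 κ₃ (psi2 c) g x := by
          rw [Finset.mul_sum]
          refine Finset.sum_congr rfl fun g hg => ?_
          simp only [hW]
          rw [(Finset.mem_filter.mp hg).2]
      _ ≤ κ₂ * Real.exp (-|(a : ℝ) - (T + 1 : ℕ)|) * 1 :=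
          mul_le_mul_of_nonneg_left hex (by positivity)
      _ = _ := mul_one _
  refine (Finset.sum_le_sum hin).trans ?_
  rw [← Finset.mul_sum]
  exact (mul_le_mul_of_nonneg_left (e4 _ _) hκ₂0.le).trans hκ₂4

end Pool.Agent.DFE
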