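import Pool.Agent.Lib.DFE.Defs6
import Pool.Agent.Lib.DFE.Defs3
import Pool.Agent.Lib.DFE.BoxDefs

/-!
# Scaling up to and including the critical line, uniform in the length: statements of the rows
-/

set_option autoImplicit false

namespace Pool.Agent.DFE

open Finset Pool.Agent.DCOL

/-! ### Upper bound -/

/-- FKI (from ISO): `∑_{x ∈ U} (f x - k) = ∑_{j > k} |{f ≥ j}| ≤ C |U|^(1/d) ∑_j |bdr {f ≥ j}|`,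
`U = {k < f}`, and Cauchy-Schwarz. -/
def FKI_stmt : Prop := ∀ d : ℕ, 0 < d → ∃ C : ℝ, 0 < C ∧ ∀ (f : Site d →₀ ℕ) (k : ℕ) (G : ℝ),
  (∀ E : Finset (Site d), ∑ x ∈ E, ∑ s : Step d, ((f (x + vec s) : ℝ) - f x) ^ 2 ≤ G) →
  (∑ x ∈ f.support.filter (fun x => k < f x), ((f x : ℝ) - k)) ^ (2 * d) ≤
    C * ((f.support.filter fun x => k < f x).card : ℝ) ^ (d + 2) * G ^ d

/-- VISC (from VISW, by continuity in `β`): VISW also at `γ = β`. -/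
def VISC_stmt : Prop := ∀ d : ℕ, 0 < d → ∀ b : ℝ, 0 < b → ∃ c C : ℝ, 0 < c ∧ 0 < C ∧
  ∀ β γ : ℝ, b ≤ γ → γ ≤ β → ∀ n : ℕ,
    ∑ w ∈ allw d n, Real.exp (c * ((vis 0 w).card : ℝ) - En β γ (loc w)) ≤
      (2 * d) ^ n * (C * ((n : ℝ) + 1) ^ 2)

/-- The height from which the gain is constant. -/
noncomputable def kk (η : ℝ) : ℝ := Real.log (1 / η) / (4 * η)

open Classical in
/-- The gain of a site with `k` visits. -/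
noncomputable def gc (η : ℝ) (k : ℕ) : ℝ :=
  η * min (k : ℝ) (kk η) + if kk η < k then Real.log (1 / η) / 8 else 0

/-- SITEC. For `T ≤ k ≤ kk η`: `η k - (1/2) log k` is convex in `k`; for `k > kk η` the gain is
`3/8 log (1/η)` and `(1/2) log k ≥ (1/2) log (1/η)`. -/
def SITEC_stmt : Prop := ∀ d : ℕ, 0 < d → ∀ κ : ℝ, 0 < κ → ∃ (T : ℕ) (η₀ : ℝ), 2 ≤ T ∧ 0 < η₀ ∧
  ∀ η : ℝ, 0 < η → η ≤ η₀ → ∀ k o : ℕ, T ≤ k → k ≤ o + 1 →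
    Qf d o * Real.exp (gc η k) ≤ κ

/-- PWC (from SET, SITEC; as PWG, `gc η k ≤ 2 η k`). -/
def PWC_stmt : Prop := ∀ d : ℕ, 0 < d → ∀ (i₀ : Fin d) (c κ : ℝ), 0 < c → 0 < κ → κ ≤ 1 →
  ∃ (T₀ R : ℕ) (lam : ℝ), 2 ≤ T₀ ∧ 0 < R ∧ 0 ≤ lam ∧ ∀ T₁ : ℕ, T₀ ≤ T₁ → ∃ η₀ : ℝ, 0 < η₀ ∧
    ∀ (T : ℕ) (η : ℝ), T₀ ≤ T → T ≤ T₁ → 0 < η → η ≤ η₀ →
    ∀ (w : List (Step d)) (p : Site d), p ∈ exF T w →
      (∏ x ∈ (clu T w p).filter (fun x => T ≤ locN w x ∧ T ≤ locN w (x + vec (i₀, true))),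
        Qf d (locN w x - if x = endp w then 1 else 0)) *
        ∏ x ∈ clu T w p, omg T R i₀ (gc η) 0 lam c w x ≤
      κ ^ (clu T w p).card * ∏ x ∈ clu T w p, ∏ s : Step d,
        if x + vec s ∈ clu T w p then
          Real.exp (-(c * ((locN w (x + vec s) : ℝ) - locN w x) ^ 2)) else 1

/-- CLSC (from SET, PWC, CST, EXPL2, LEV; as CLSG). -/
def CLSC_stmt : Prop := ∀ d : ℕ, 0 < d → ∀ (i₀ : Fin d) (c Ξ : ℝ), 0 < c → 0 < Ξ →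
  ∃ (T₀ R : ℕ) (lam : ℝ), 2 ≤ T₀ ∧ 0 < R ∧ 0 ≤ lam ∧ ∀ T₁ : ℕ, T₀ ≤ T₁ → ∃ η₀ : ℝ, 0 < η₀ ∧
    ∀ (T : ℕ) (η : ℝ), T₀ ≤ T → T ≤ T₁ → 0 < η → η ≤ η₀ →
    ∀ (n : ℕ) (e p : Site d) (S : Finset (List (Step d))),
      (∀ w ∈ S, w.length = n ∧ endp w = e ∧ p ∈ exF T w) →
      (∀ w ∈ S, ∀ w' ∈ S, (clu T w p = clu T w' p ∧
        ∀ x ∈ clu T w p, stk 0 w x = stk 0 w' x) → w = w') →
      ∑ w ∈ S, ((2 * d : ℝ) ^ (∑ x ∈ clu T w p, (stk 0 w x).length))⁻¹ *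
        ∏ x ∈ clu T w p, omg T R i₀ (gc η) 0 lam c w x ≤ Ξ

/-- ENC (from FKI; ENBG at `(γ / 2, γ / 2)`, whose proof allows `γ = β`, and
`En β γ = En (γ / 2) (γ / 2) + En (β - γ / 2) (γ / 2)`). With `U = {kk η < locN}`: it remains
`η ∑_U (ℓ - kk) ≤ (1/8) log (1/η) |U| + (β - γ) ∑_U ℓ² + γ / (8 d) ∑ ∑ (∇ ℓ)²`, and
`kk η * |U| ≤ n + 1`. -/
def ENC_stmt : Prop := ∀ d : ℕ, 0 < d → ∀ b : ℝ, 0 < b → ∃ C₀ : ℝ, 0 < C₀ ∧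
  ∀ (T R : ℕ) (i₀ : Fin d) (β γ η lam c : ℝ), 2 ≤ T → 0 ≤ c → 32 * d * c ≤ γ → b ≤ γ → γ ≤ β →
  0 < η → η < 1 → (T : ℝ) ≤ kk η → ∀ w : List (Step d),
  (η ≤ (β - γ) * kk η ∨
    C₀ * η ^ (2 * d + 2) * ((w.length : ℝ) + 1) ^ 2 ≤ Real.log (1 / η) ^ (d + 2)) →
  Real.exp (-En β γ (loc w)) ≤
    Real.exp (-(η * ((w.length : ℝ) - T * (vis 0 w).card)) + lam * soft T R i₀ w) *
      ∏ x ∈ exF T w, omg T R i₀ (gc η) 0 lam c w x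

/-- UPC (from SET, VISC, RUN, ENC, CLSC; as UPP). -/
def UPC_stmt : Prop := ∀ d : ℕ, 0 < d → ∀ b : ℝ, 0 < b → ∃ C₀ η₀ : ℝ, 0 < C₀ ∧ 0 < η₀ ∧
  ∀ β γ η : ℝ, b ≤ γ → γ ≤ β → 0 < η → η ≤ η₀ → ∀ n : ℕ, C₀ * Real.log ((n : ℝ) + 2) ≤ η * n →
  (η ≤ (β - γ) * kk η ∨
    C₀ * η ^ (2 * d + 2) * ((n : ℝ) + 1) ^ 2 ≤ Real.log (1 / η) ^ (d + 2)) →
  Zw d β γ n ≤ (2 * d) ^ n * Real.exp (-(η * n / 2))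

/-- The scale. -/
noncomputable def MM (d : ℕ) (δ : ℝ) (n : ℕ) : ℝ :=
  max (SS δ * n) ((n : ℝ) ^ ((d : ℝ) / (d + 1)) * Real.log n ^ (((d : ℝ) + 2) / (2 * d + 2)))

/-- ZUP (from UPC). Let `D` be the second term of `MM`. If `D ≤ SS δ * n`: `η = c₁ SS δ`, otherwise
`η = c₂ D / n`. -/
def ZUP_stmt : Prop := ∀ d : ℕ, 0 < d → ∀ β : ℝ, 0 < β → ∃ (c δ₀ : ℝ) (n₀ : ℕ), 0 < c ∧ 0 < δ₀ ∧
  ∀ γ : ℝ, β - δ₀ ≤ γ → γ ≤ β → ∀ n : ℕ, n₀ ≤ n →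
    Zw d β γ n ≤ (2 * d) ^ n * Real.exp (-(c * MM d (β - γ) n))

/-! ### Lower bound -/

/-- LISTB (from `list_one`, `fact_ge`, `fact_le`): with `a = l / (2 d)`,
`∑ m log (m / a) ≤ ∑ (m - a)² / a`. -/
def LISTB_stmt : Prop := ∀ d : ℕ, 0 < d → ∃ C : ℝ, 0 ≤ C ∧
  ∀ (m : Step d → ℕ) (t : Step d) (l : ℕ), 1 ≤ m t → ∑ s, m s = l →
    l * Real.log (2 * d) - 2 * d / l * ∑ s, ((m s : ℝ) - l / (2 * d)) ^ 2 -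
      C * Real.log (l + 1) ≤ Real.log (lst m t).card

/-- The number of the layers `j < h` such that `x` and `x + vec s` lie in the box
`j ≤ x i < N - j`. -/
noncomputable def qq {d : ℕ} (h N : ℕ) (x : Site d) (s : Step d) : ℕ :=
  ((Finset.range h).filter fun j : ℕ => ∀ i, ((j : ℤ) ≤ x i ∧ x i + j < N) ∧
    (j : ℤ) ≤ (x + vec s) i ∧ (x + vec s) i + j < N).card

/-- The profile. -/
noncomputable def prf {d : ℕ} (A h N : ℕ) (x : Site d) : ℕ := A * ∑ s, qq h N x s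

/-- PYR (from LISTB, `card_run` with the counts `A * qq h N x s`; the tree of `BOX.lean`:
`BoxAux.rk_lt`, `BoxAux.pr_box`). The counts at a site differ by at most `A`. -/
def PYR_stmt : Prop := ∀ d : ℕ, 0 < d → ∃ C : ℝ, 0 ≤ C ∧ ∀ A h N : ℕ, 1 ≤ A → 1 ≤ h → 2 ≤ N →
  ∃ W : Finset (List (Step d)), W.Nonempty ∧
    (∀ w ∈ W, w.length = ∑ x ∈ box d N, prf A h N x ∧ endp w = 0 ∧
      ∀ x, lt w x = prf A h N x) ∧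
    ((∑ x ∈ box d N, prf A h N x : ℕ) : ℝ) * Real.log (2 * d) -
      C * (A + Real.log (A * h + 1)) * (N : ℝ) ^ d ≤ Real.log W.card

/-- PEN (as `LowAux.En_word`, `LowAux.En_box`): `prf A h N x ≤ 2 d A min h N`, and
`|prf A h N (x + vec s) - prf A h N x| ≤ 4 d A`. -/
def PEN_stmt : Prop := ∀ (d : ℕ) (hd : 0 < d), ∀ β : ℝ, 0 < β → ∃ C : ℝ, 0 < C ∧
  ∀ γ : ℝ, 0 ≤ γ → γ ≤ β → ∀ A h N r : ℕ, 1 ≤ A → 1 ≤ h → 2 ≤ N → ∀ w : List (Step d),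
  endp w = 0 → (∀ x, lt w x = prf A h N x) →
  En β γ (loc (w ++ List.replicate r (⟨0, hd⟩, false))) ≤
    C * (((β - γ) * ((A : ℝ) * min h N) ^ 2 + (A : ℝ) ^ 2) * (N : ℝ) ^ d + r)

/-- LEN: the length. `|{j ≤ x i < N - j}| ≥ (N / 2) ^ d` for `j < N / 4`. -/
def LEN_stmt : Prop := ∀ d : ℕ, 0 < d → ∃ C c : ℝ, 0 < C ∧ 0 < c ∧ ∀ A h N : ℕ, 1 ≤ A → 1 ≤ h →
  2 ≤ N → c * ((A : ℝ) * min h N * (N : ℝ) ^ d) ≤ ((∑ x ∈ box d N, prf A h N x : ℕ) : ℝ) ∧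
    ((∑ x ∈ box d N, prf A h N x : ℕ) : ℝ) ≤ C * ((A : ℝ) * min h N * (N : ℝ) ^ d) ∧
    ((∑ x ∈ box d (N + 1), prf A h (N + 1) x : ℕ) : ℝ) ≤
      ((∑ x ∈ box d N, prf A h N x : ℕ) : ℝ) + C * A * (N : ℝ) ^ d

/-- LOWC (from PYR, PEN, LEN; `N` is the largest side with length `≤ n`; then a straight line). -/
def LOWC_stmt : Prop := ∀ d : ℕ, 0 < d → ∀ β : ℝ, 0 < β → ∃ C c : ℝ, 0 < C ∧ 0 < c ∧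
  ∀ γ : ℝ, 0 ≤ γ → γ ≤ β → ∀ A h n : ℕ, 1 ≤ A → 1 ≤ h → C * A ≤ n →
  ∃ N : ℕ, 2 ≤ N ∧ c * ((A : ℝ) * min h N * (N : ℝ) ^ d) ≤ n ∧
    (n : ℝ) ≤ C * ((A : ℝ) * min h N * (N : ℝ) ^ d) ∧
    (2 * d) ^ n * Real.exp (-(C * (((β - γ) * ((A : ℝ) * min h N) ^ 2 + (A : ℝ) ^ 2 +
      Real.log (A * h + 1)) * (N : ℝ) ^ d))) ≤ Zw d β γ n

/-- ZLO (from LOWC). Let `D` be the second term of `MM`. If `SS δ * n < D`: `h = n`,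
`A = ⌈√(log n)⌉`; otherwise `h = ⌈1 / √δ⌉`, `A = ⌈√(log (1/δ))⌉`. -/
def ZLO_stmt : Prop := ∀ d : ℕ, 0 < d → ∀ β : ℝ, 0 < β → ∃ (C δ₀ : ℝ) (n₀ : ℕ), 0 < C ∧ 0 < δ₀ ∧
  ∀ γ : ℝ, β - δ₀ ≤ γ → γ ≤ β → ∀ n : ℕ, n₀ ≤ n →
    (2 * d) ^ n * Real.exp (-(C * MM d (β - γ) n)) ≤ Zw d β γ n

/-! ### Consequences -/

/-- CONV (from VISC, ZLO; as VIST). -/
def CONV_stmt : Prop := ∀ d : ℕ, 0 < d → ∀ β : ℝ, 0 < β → ∃ (C δ₀ : ℝ) (n₀ : ℕ), 0 < C ∧ 0 < δ₀ ∧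
  ∀ γ : ℝ, β - δ₀ ≤ γ → γ ≤ β → ∀ n : ℕ, n₀ ≤ n →
    prob d β γ n (fun s => C * MM d (β - γ) n ≤ ((visited s).card : ℝ)) ≤
      Real.exp (-MM d (β - γ) n) ∧
    meanSquare d β γ n ≤ (C * MM d (β - γ) n) ^ 2

/-- CONH (from ZLO): `exp (-H) ≤ exp (-C M / 2) exp (-H / 2)` if `H ≥ C M`, and `H ≥ 0`. -/
def CONH_stmt : Prop := ∀ d : ℕ, 0 < d → ∀ β : ℝ, 0 < β → ∃ (C δ₀ : ℝ) (n₀ : ℕ), 0 < C ∧ 0 < δ₀ ∧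
  ∀ γ : ℝ, β - δ₀ ≤ γ → γ ≤ β → ∀ n : ℕ, n₀ ≤ n →
    prob d β γ n (fun s => C * MM d (β - γ) n ≤ energy β γ s) ≤ Real.exp (-MM d (β - γ) n)

/-- CONL (from CONH, FKI with `k = 0`, VLO, `ENBAux.En_ge_all`). -/
def CONL_stmt : Prop := ∀ d : ℕ, 0 < d → ∀ β : ℝ, 0 < β → ∃ (c δ₀ : ℝ) (n₀ : ℕ), 0 < c ∧ 0 < δ₀ ∧
  ∀ γ : ℝ, β - δ₀ ≤ γ → γ ≤ β → ∀ n : ℕ, n₀ ≤ n →
    prob d β γ n (fun s => ((visited s).card : ℝ) ≤ c * max ((β - γ) * n ^ 2 / MM d (β - γ) n)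
      (((n : ℝ) ^ 2 / MM d (β - γ) n) ^ ((d : ℝ) / (d + 2)))) ≤ Real.exp (-MM d (β - γ) n)

end Pool.Agent.DFE
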