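import Pool.Agent.Lib.DFE.CLSCore
import Pool.Agent.Lib.DFE.Defs7

/-!
# The total weight of the components that contain a given site, critical line
-/

set_option autoImplicit false

namespace Pool.Agent.DFE

theorem clsc (hSET : SET_stmt) (hPW : PWC_stmt) (hCST : CST_stmt) (hEX : EXPL2_stmt)
    (hLEV : LEV_stmt) : CLSC_stmt := by
  intro d hd i₀ c Ξ hc hΞ
  obtain ⟨κ, hκ0, hκ1, core⟩ := cls_core hSET hCST hEX hLEV d hd i₀ c Ξ hc hΞ
  obtain ⟨T₀, R, lam, hT₀, hR, hlam, h⟩ := hPW d hd i₀ c κ hc hκ0 hκ1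
  refine ⟨T₀, R, lam, hT₀, hR, hlam, fun T₁ hT₁ => ?_⟩
  obtain ⟨η₀, hη₀, h⟩ := h T₁ hT₁
  refine ⟨η₀, hη₀, fun T η hT hTT hη hηη n e p S hS hinj => ?_⟩
  exact core T (fun w x => omg T R i₀ (gc η) 0 lam c w x) (hT₀.trans hT)
    (fun w x => omg_nonneg _ _ _ _ _ _ _ _ _) (h T η hT hTT hη hηη) n e p S hS hinj

end Pool.Agent.DFE
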