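import Pool.Agent.Lib.DFE.Defs4

/-!
# The local times are nearly constant: statements of the rows

The rows PW, CLS, ENB, UPP once more, with a general gain `g (locN w x)` of a big site instead of
`η * locN w x`. The gain `gn` gives an extra weight to the sites outside the window.
-/

set_option autoImplicit false

namespace Pool.Agent.DFE

open Finset Pool.Agent.DCOL

/-- The centre of the window: the expected local time in the dense phase. -/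
noncomputable def aa (δ : ℝ) : ℝ := SS δ / (2 * δ)

/-- `k` visits: outside the window `[(1 - ρ) a, (1 + ρ) a]`. -/
def Bad (ρ δ : ℝ) (k : ℕ) : Prop := ρ * aa δ < |(k : ℝ) - aa δ|

open Classical in
/-- The gain of a site with `k` visits. -/
noncomputable def gn (ρ ε δ : ℝ) (k : ℕ) : ℝ :=
  (1 - ε) * SS δ * k + if Bad ρ δ k then ρ ^ 2 / 16 * SS δ * k else 0

open Classical in
/-- The number of the monomers at sites outside the window. -/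
noncomputable def nbad {d : ℕ} (ρ δ : ℝ) (w : List (Step d)) : ℝ :=
  ∑ x ∈ (vis 0 w).filter (fun x => Bad ρ δ (locN w x)), (locN w x : ℝ)

/-- The weight of the site `x` of the word `w` (`om` with a general gain). -/
noncomputable def omg {d : ℕ} (T R : ℕ) (i₀ : Fin d) (g : ℕ → ℝ) (δ lam c : ℝ)
    (w : List (Step d)) (x : Site d) : ℝ :=
  (if T ≤ locN w x then Real.exp (g (locN w x) - δ * (locN w x : ℝ) ^ 2 -
    (if locN w x < T + R ∧ locN w (x + vec (i₀, true)) < T then lam else 0)) else 1) *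
  ∏ s : Step d, (open Classical in if Ex T (locN w) (x + vec s) then
    Real.exp (-(2 * c * ((locN w (x + vec s) : ℝ) - locN w x) ^ 2)) else 1)

/-- SITEG. With `y = k / aa δ`, `L = log (1/δ)`: for `k ≥ 1 / S` the exponent is at most
`L (-(1 - y)² / 4 + (ρ² / 16) y / 2 · 1_{|y - 1| > ρ} - ε y / 2) + (1/4) log L + (1/2) log d`;
for `T ≤ k < 1 / S` it is at most `2 - (1/2) log (k / d)`. -/
def SITEG_stmt : Prop := ∀ d : ℕ, 0 < d → ∀ ρ ε κ : ℝ, 0 < ρ → ρ < 1 → 0 < ε → ε < 1 → 0 < κ →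
  ∃ (T : ℕ) (δ₀ : ℝ), 2 ≤ T ∧ 0 < δ₀ ∧ ∀ δ : ℝ, 0 < δ → δ ≤ δ₀ → ∀ k o : ℕ, T ≤ k → k ≤ o + 1 →
    Qf d o * Real.exp (gn ρ ε δ k - δ * (k : ℝ) ^ 2) ≤ κ

/-- ENBG (as ENB; no `sum_big` here). -/
def ENBG_stmt : Prop := ∀ (d : ℕ), 0 < d → ∀ (T R : ℕ) (i₀ : Fin d) (β γ lam c : ℝ) (g : ℕ → ℝ),
  2 ≤ T → 0 ≤ c → 16 * d * c ≤ γ → γ < β → ∀ w : List (Step d),
  Real.exp (-En β γ (loc w)) ≤
    Real.exp (-(∑ x ∈ (vis 0 w).filter (fun x => T ≤ locN w x), g (locN w x)) +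
      lam * soft T R i₀ w) * ∏ x ∈ exF T w, omg T R i₀ g (β - γ) lam c w x

/-- PWG (from SET, SITEG; `gn ρ ε δ k ≤ 2 SS δ k` for the small `k`). -/
def PWG_stmt : Prop := ∀ d : ℕ, 0 < d → ∀ (i₀ : Fin d) (c ρ ε κ : ℝ), 0 < c → 0 < ρ → ρ < 1 →
  0 < ε → ε < 1 → 0 < κ → κ ≤ 1 →
  ∃ (T₀ R : ℕ) (lam : ℝ), 2 ≤ T₀ ∧ 0 < R ∧ 0 ≤ lam ∧ ∀ T₁ : ℕ, T₀ ≤ T₁ → ∃ δ₀ : ℝ, 0 < δ₀ ∧
    ∀ (T : ℕ) (δ : ℝ), T₀ ≤ T → T ≤ T₁ → 0 < δ → δ ≤ δ₀ →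
    ∀ (w : List (Step d)) (p : Site d), p ∈ exF T w →
      (∏ x ∈ (clu T w p).filter (fun x => T ≤ locN w x ∧ T ≤ locN w (x + vec (i₀, true))),
        Qf d (locN w x - if x = endp w then 1 else 0)) *
        ∏ x ∈ clu T w p, omg T R i₀ (gn ρ ε δ) δ lam c w x ≤
      κ ^ (clu T w p).card * ∏ x ∈ clu T w p, ∏ s : Step d,
        if x + vec s ∈ clu T w p then
          Real.exp (-(c * ((locN w (x + vec s) : ℝ) - locN w x) ^ 2)) else 1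

/-- CLSG (from SET, PWG, CST, EXPL2, LEV; as CLS). -/
def CLSG_stmt : Prop := ∀ d : ℕ, 0 < d → ∀ (i₀ : Fin d) (c ρ ε Ξ : ℝ), 0 < c → 0 < ρ → ρ < 1 →
  0 < ε → ε < 1 → 0 < Ξ →
  ∃ (T₀ R : ℕ) (lam : ℝ), 2 ≤ T₀ ∧ 0 < R ∧ 0 ≤ lam ∧ ∀ T₁ : ℕ, T₀ ≤ T₁ → ∃ δ₀ : ℝ, 0 < δ₀ ∧
    ∀ (T : ℕ) (δ : ℝ), T₀ ≤ T → T ≤ T₁ → 0 < δ → δ ≤ δ₀ →
    ∀ (n : ℕ) (e p : Site d) (S : Finset (List (Step d))),
      (∀ w ∈ S, w.length = n ∧ endp w = e ∧ p ∈ exF T w) →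
      (∀ w ∈ S, ∀ w' ∈ S, (clu T w p = clu T w' p ∧
        ∀ x ∈ clu T w p, stk 0 w x = stk 0 w' x) → w = w') →
      ∑ w ∈ S, ((2 * d : ℝ) ^ (∑ x ∈ clu T w p, (stk 0 w x).length))⁻¹ *
        ∏ x ∈ clu T w p, omg T R i₀ (gn ρ ε δ) δ lam c w x ≤ Ξ

/-- UPPG (from SET, VISW, RUN, ENBG, CLSG; as UPP). For the words with at most `v` sites:
`nbad ≤ ∑ (bad sites with ≥ T visits) + T v`, and `T₁ v SS ≤ ε n / 8`; for the others: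
`ρ² / 16 * SS * nbad ≤ SS (n + 1)`, against `exp (-3 SS n)`. -/
def UPPG_stmt : Prop := ∀ d : ℕ, 0 < d → ∀ b ρ ε : ℝ, 0 < b → 0 < ρ → ρ < 1 → 0 < ε → ε < 1 →
  ∃ δ₀ : ℝ, 0 < δ₀ ∧ ∀ β γ : ℝ, b ≤ γ → γ < β → β - γ ≤ δ₀ → ∃ n₀ : ℕ, ∀ n : ℕ, n₀ ≤ n →
    ∑ w ∈ allw d n, Real.exp (ρ ^ 2 / 16 * SS (β - γ) * nbad ρ (β - γ) w - En β γ (loc w)) ≤
      (2 * d) ^ n * Real.exp (-((1 - ε) * SS (β - γ) * n))

open Classical in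
/-- BADT (from UPPG, LOWF, SSN): the number of the `0 ≤ i ≤ n` whose site is outside the window. -/
def BADT_stmt : Prop := ∀ d : ℕ, 0 < d → ∀ β ε : ℝ, 0 < β → 0 < ε →
  ∃ δ₀ c : ℝ, 0 < δ₀ ∧ 0 < c ∧ ∀ γ : ℝ, γ < β → β - γ ≤ δ₀ → ∃ n₀ : ℕ, ∀ n : ℕ, n₀ ≤ n →
    prob d β γ n (fun s => ε * n ≤ (((Finset.range (n + 1)).filter fun i =>
      ε * aa (β - γ) < |(localTime s (pos s i) : ℝ) - aa (β - γ)|).card : ℝ)) ≤
        Real.exp (-(c * SS (β - γ) * n))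

end Pool.Agent.DFE
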