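import Pool.Agent.Lib.DFE.CLS
import Pool.Agent.Lib.DFE.Defs5

/-!
# The total weight of the components that contain a given site, for general weights

The proof of `cls` for an arbitrary nonnegative weight `ω w x` of the site `x` of the word `w`.
-/

set_option autoImplicit false

namespace Pool.Agent.DFE

open Finset Pool.Agent.DCOL

open CLSAux

theorem cls_core (hSET : SET_stmt) (hCST : CST_stmt) (hEX : EXPL2_stmt) (hLEV : LEV_stmt)
    (d : ℕ) (hd : 0 < d) (i₀ : Fin d) (c Ξ : ℝ) (hc : 0 < c) (hΞ : 0 < Ξ) :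
    ∃ κ : ℝ, 0 < κ ∧ κ ≤ 1 ∧ ∀ (T : ℕ) (u : List (Step d) → Site d → ℝ), 2 ≤ T →
      (∀ w x, 0 ≤ u w x) →
      (∀ (w : List (Step d)) (p : Site d), p ∈ exF T w →
        (∏ x ∈ (clu T w p).filter (fun x => T ≤ locN w x ∧ T ≤ locN w (x + vec (i₀, true))),
          Qf d (locN w x - if x = endp w then 1 else 0)) * ∏ x ∈ clu T w p, u w x ≤
        κ ^ (clu T w p).card * ∏ x ∈ clu T w p, ∏ s : Step d,
          if x + vec s ∈ clu T w p then
            Real.exp (-(c * ((locN w (x + vec s) : ℝ) - locN w x) ^ 2)) else 1) →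
      ∀ (n : ℕ) (e p : Site d) (S : Finset (List (Step d))),
        (∀ w ∈ S, w.length = n ∧ endp w = e ∧ p ∈ exF T w) →
        (∀ w ∈ S, ∀ w' ∈ S, (clu T w p = clu T w' p ∧
          ∀ x ∈ clu T w p, stk 0 w x = stk 0 w' x) → w = w') →
        ∑ w ∈ S, ((2 * d : ℝ) ^ (∑ x ∈ clu T w p, (stk 0 w x).length))⁻¹ *
          ∏ x ∈ clu T w p, u w x ≤ Ξ := by
  classical
  have hd0 : (0 : ℝ) < d := by exact_mod_cast hd
  set G : ℝ := 1 + 4 * Real.exp (1 / c) with hG
  have hG1 : 1 ≤ G := by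
    rw [hG]
    have := Real.exp_pos (1 / c)
    linarith
  set κ₃ : ℝ := (G ^ (2 * d))⁻¹ with hκ₃
  set κ₂ : ℝ := min 1 (Ξ / 4) with hκ₂
  have hGp : 0 < G ^ (2 * d) := pow_pos (by linarith) _
  have hκ₃0 : 0 < κ₃ := inv_pos.mpr hGp
  have hκ₃1 : κ₃ ≤ 1 := inv_le_one_of_one_le₀ (one_le_pow₀ hG1)
  have hκ₂0 : 0 < κ₂ := lt_min one_pos (by linarith)
  have hκ₂1 : κ₂ ≤ 1 := min_le_left _ _
  have hκ₂4 : κ₂ * 4 ≤ Ξ := by
    have := min_le_right (1 : ℝ) (Ξ / 4)
    rw [← hκ₂] at this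
    linarith
  refine ⟨κ₂ * κ₃, mul_pos hκ₂0 hκ₃0, mul_le_one₀ hκ₂1 hκ₃0.le hκ₃1, ?_⟩
  intro T u hT2 hu0 hpw n e p S hS hinj
  set ω : List (Step d) → ℝ := fun w =>
    ∏ x ∈ clu T w p, u w x with hω
  have hω0 : ∀ w, 0 ≤ ω w := fun w => Finset.prod_nonneg fun x _ => hu0 _ _
  set W : (Site d →₀ ℕ) → ℝ := fun g => κ₂ * Real.exp (-|(g p : ℝ) - (T + 1 : ℕ)|) *
    ∏ x ∈ g.support, wt2 κ₃ (psi2 c) g x with hW
  -- the sum over one field
  have hfib : ∀ g ∈ S.image (hw T p), ∑ w ∈ S.filter (fun w => hw T p w = g),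
      ((2 * d : ℝ) ^ (∑ x ∈ clu T w p, (stk 0 w x).length))⁻¹ * ω w ≤ W g := by
    intro g hg
    obtain ⟨w₀, hw₀, rfl⟩ := Finset.mem_image.mp hg
    have hfacts : ∀ w ∈ S.filter (fun w => hw T p w = hw T p w₀), w ∈ S ∧
        clu T w p = clu T w₀ p ∧ ∀ x ∈ clu T w₀ p, locN w x = hw T p w₀ x - 1 := by
      intro w hwf
      rw [Finset.mem_filter] at hwf
      have h1 : clu T w p = clu T w₀ p := by
        rw [← hw_support, ← hw_support, hwf.2]
      refine ⟨hwf.1, h1, fun x hx => ?_⟩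
      rw [← hwf.2, hw_of_mem (by rw [h1]; exact hx)]
      rfl
    set K : Finset (Site d) := clu T w₀ p with hK
    set F : Site d → ℕ := fun x => hw T p w₀ x - 1 with hF
    set A : ℝ := ∏ x ∈ K, (2 * d : ℝ) ^ (F x - if x = e then 1 else 0) with hA
    set q : ℝ := ∏ x ∈ K.filter (fun x => T ≤ F x ∧ T ≤ F (x + vec (i₀, true))),
      Qf d (F x - if x = e then 1 else 0) with hq
    have hA0 : 0 < A := Finset.prod_pos fun x _ => by positivity
    have hcard := hCST d T n i₀ e p K F (Qf d) hT2 (fun k => Qf_nonneg hd k)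
      (fun k j => cnt_le_Qf hd (i₀, true) k j) (S.filter fun w => hw T p w = hw T p w₀) (by
        intro w hwf
        obtain ⟨h1, h2, h3⟩ := hfacts w hwf
        exact ⟨(hS w h1).1, (hS w h1).2.1, (hS w h1).2.2, h2, h3⟩) (by
        intro w hwf w' hwf' hst
        obtain ⟨h1, h2, h3⟩ := hfacts w hwf
        obtain ⟨h1', h2', h3'⟩ := hfacts w' hwf'
        refine hinj w h1 w' h1' ⟨by rw [h2, h2'], fun x hx => hst x ?_⟩
        rw [h2] at hx
        exact hx)
    have hlen : ∀ w ∈ S.filter (fun w => hw T p w = hw T p w₀),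
        (2 * d : ℝ) ^ (∑ x ∈ clu T w p, (stk 0 w x).length) = A := by
      intro w hwf
      obtain ⟨h1, h2, h3⟩ := hfacts w hwf
      rw [h2, hA, Finset.prod_pow_eq_pow_sum]
      congr 1
      refine Finset.sum_congr rfl fun x hx => ?_
      have h4 := length_stk0 w x
      rw [(hS w h1).2.1, h3 x hx] at h4
      simp only [hF]
      omega
    -- PW for the words of the fibre
    set V : ℝ := (κ₂ * κ₃) ^ K.card * ∏ x ∈ K, ∏ s : Step d, if x + vec s ∈ K then
      Real.exp (-(c * ((F (x + vec s) : ℝ) - F x) ^ 2)) else 1 with hV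
    have hVw : ∀ w ∈ S.filter (fun w => hw T p w = hw T p w₀), q * ω w ≤ V := by
      intro w hwf
      obtain ⟨h1, h2, h3⟩ := hfacts w hwf
      have h4 := hpw w p (hS w h1).2.2
      have h5 : ∀ x ∈ K, T ≤ locN w x → ∀ s : Step d, x + vec s ∈ K := by
        have := ((hSET d T w p hd hT2).2 (hS w h1).2.2).2.2.2.2.1
        rw [h2] at this
        exact this
      rw [h2] at h4
      have h6 : K.filter (fun x => T ≤ locN w x ∧ T ≤ locN w (x + vec (i₀, true))) =
          K.filter (fun x => T ≤ F x ∧ T ≤ F (x + vec (i₀, true))) := by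
        ext x
        rw [Finset.mem_filter, Finset.mem_filter]
        refine and_congr_right fun hx => ?_
        rw [h3 x hx]
        refine and_congr_right fun hx2 => ?_
        rw [h3 _ (h5 x hx (by rw [h3 x hx]; exact hx2) _)]
      rw [h6] at h4
      have h7 : ∏ x ∈ K.filter (fun x => T ≤ F x ∧ T ≤ F (x + vec (i₀, true))),
          Qf d (locN w x - if x = endp w then 1 else 0) = q := by
        rw [hq]
        refine Finset.prod_congr rfl fun x hx => ?_
        rw [h3 x (Finset.mem_filter.mp hx).1, (hS w h1).2.1]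
      rw [h7] at h4
      have h8 : ∏ x ∈ K, ∏ s : Step d, (if x + vec s ∈ K then
          Real.exp (-(c * ((locN w (x + vec s) : ℝ) - locN w x) ^ 2)) else 1) =
          ∏ x ∈ K, ∏ s : Step d, (if x + vec s ∈ K then
          Real.exp (-(c * ((F (x + vec s) : ℝ) - F x) ^ 2)) else 1) := by
        refine Finset.prod_congr rfl fun x hx => Finset.prod_congr rfl fun s _ => ?_
        by_cases hs : x + vec s ∈ K
        · rw [if_pos hs, if_pos hs, h3 x hx, h3 _ hs]
        · rw [if_neg hs, if_neg hs]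
      rw [h8] at h4
      have h9 : ω w = ∏ x ∈ K, u w x := by
        simp only [hω, h2]
      rw [h9]
      exact h4
    have hV0 : 0 ≤ V := by
      rw [hV]
      refine mul_nonneg (pow_nonneg (mul_pos hκ₂0 hκ₃0).le _)
        (Finset.prod_nonneg fun x _ => Finset.prod_nonneg fun s _ => ?_)
      split_ifs
      · exact (Real.exp_pos _).le
      · exact zero_le_one
    have hstep : ∑ w ∈ S.filter (fun w => hw T p w = hw T p w₀),
        ((2 * d : ℝ) ^ (∑ x ∈ clu T w p, (stk 0 w x).length))⁻¹ * ω w ≤ V := by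
      rw [Finset.sum_congr rfl fun w hwf => by rw [hlen w hwf]]
      exact sum_le_of_card _ ω hA0 hV0 (fun w _ => hω0 w) hcard hVw
    refine hstep.trans ?_
    -- V ≤ W g
    obtain ⟨hS1, hS2⟩ := hSET d T w₀ p hd hT2
    obtain ⟨s1, _, _, _, s5, s6, _, s8, s9⟩ := hS2 (hS w₀ hw₀).2.2
    have hgK : ∀ x, hw T p w₀ x ≠ 0 ↔ x ∈ K := by
      intro x
      rw [← Finsupp.mem_support_iff, hw_support]
    have hFloc : ∀ x ∈ K, locN w₀ x = F x := by
      intro x hx
      simp only [hF]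
      rw [hw_of_mem hx]
      rfl
    have hp : p ∈ K := s1
    have hlev : |(F p : ℝ) - T| ≤
        ∑ x ∈ K, ∑ s : Step d, if x + vec s ∈ K then |(F (x + vec s) : ℝ) - F x| else 0 := by
      by_cases hFp : F p < T
      · obtain ⟨z, hz, hzT, -⟩ := s8 p s1
        exact hLEV d T F K p z hp hz s6 (Or.inl ⟨hFp, by rw [← hFloc z hz]; exact hzT⟩)
      · obtain ⟨z, hz, hzT⟩ := s9
        exact hLEV d T F K p z hp hz s6 (Or.inr ⟨by rw [← hFloc z hz]; exact hzT, not_lt.mp hFp⟩)
    have hcardK : 1 ≤ K.card := Finset.card_pos.mpr ⟨p, hp⟩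
    have hprod : ∏ x ∈ (hw T p w₀).support, wt2 κ₃ (psi2 c) (hw T p w₀) x =
        κ₃ ^ K.card * ((∏ x ∈ K, ∏ s : Step d, if x + vec s ∈ K then
          Real.exp (-(c * ((F (x + vec s) : ℝ) - F x) ^ 2)) else 1) *
          Real.exp (∑ x ∈ K, ∑ s : Step d, if x + vec s ∈ K then
            |(F (x + vec s) : ℝ) - F x| else 0)) := by
      rw [hw_support, ← prod_psi2 c K (hw T p w₀) hgK, ← hK]
      unfold wt2
      rw [Finset.prod_mul_distrib, Finset.prod_const]
    have hgp : (hw T p w₀ p : ℝ) - (T + 1 : ℕ) = (F p : ℝ) - T := by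
      have : hw T p w₀ p = F p + 1 := by
        rw [hw_of_mem hp, hFloc p hp]
      rw [this]; push_cast; ring
    simp only [hW]
    rw [hprod, hgp]
    set Z : ℝ := ∑ x ∈ K, ∑ s : Step d, if x + vec s ∈ K then
      |(F (x + vec s) : ℝ) - F x| else 0 with hZ
    set Y : ℝ := ∏ x ∈ K, ∏ s : Step d, if x + vec s ∈ K then
      Real.exp (-(c * ((F (x + vec s) : ℝ) - F x) ^ 2)) else 1 with hY
    have hY0 : 0 ≤ Y := by
      rw [hY]
      refine Finset.prod_nonneg fun x _ => Finset.prod_nonneg fun s _ => ?_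
      split_ifs
      · exact (Real.exp_pos _).le
      · exact zero_le_one
    have hexp : 1 ≤ Real.exp (-|(F p : ℝ) - T|) * Real.exp Z := by
      rw [← Real.exp_add]
      exact Real.one_le_exp (by linarith)
    calc V = (κ₂ ^ K.card * κ₃ ^ K.card) * Y := by rw [hV, mul_pow]
      _ ≤ (κ₂ * κ₃ ^ K.card) * Y := by
          refine mul_le_mul_of_nonneg_right (mul_le_mul_of_nonneg_right ?_ (by positivity)) hY0
          exact pow_le_of_le_one hκ₂0.le hκ₂1 (by omega)
      _ = κ₂ * κ₃ ^ K.card * Y * 1 := by ring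
      _ ≤ κ₂ * κ₃ ^ K.card * Y * (Real.exp (-|(F p : ℝ) - T|) * Real.exp Z) :=
          mul_le_mul_of_nonneg_left hexp (by positivity)
      _ = _ := by ring
  -- the sum over the fields
  rw [← Finset.sum_fiberwise_of_maps_to (g := hw T p) (t := S.image (hw T p))
    (fun w hw' => Finset.mem_image_of_mem _ hw')]
  refine (Finset.sum_le_sum hfib).trans ?_
  rw [← Finset.sum_fiberwise_of_maps_to (g := fun g : Site d →₀ ℕ => g p)
    (t := (S.image (hw T p)).image fun g : Site d →₀ ℕ => g p)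
    (fun g hg => Finset.mem_image_of_mem _ hg)]
  have hin : ∀ a ∈ (S.image (hw T p)).image (fun g : Site d →₀ ℕ => g p),
      ∑ g ∈ (S.image (hw T p)).filter (fun g => g p = a), W g ≤
        κ₂ * Real.exp (-|(a : ℝ) - (T + 1 : ℕ)|) := by
    intro a ha
    have hmem : ∀ g ∈ S.image (hw T p), g p ≠ 0 ∧ Conn2 p g := by
      intro g hg
      obtain ⟨w, hwS, rfl⟩ := Finset.mem_image.mp hg
      obtain ⟨s1, _, _, _, _, s6, _, _, _⟩ := (hSET d T w p hd hT2).2 (hS w hwS).2.2
      refine ⟨by rw [hw_of_mem s1]; exact Nat.succ_ne_zero _, ?_⟩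
      intro P hpP hP
      rw [hw_support]
      refine s6 P hpP fun x hx s hs => hP x hx s ?_
      rw [hw_of_mem hs]
      exact Nat.succ_ne_zero _
    have ha0 : a ≠ 0 := by
      obtain ⟨g, hg, rfl⟩ := Finset.mem_image.mp ha
      exact (hmem g hg).1
    have hex := hEX d κ₃ G (psi2 c) hκ₃0.le (psi2_nonneg c)
      (fun T' a' => psi2_sum hc T' a') (by rw [hκ₃, inv_mul_cancel₀ hGp.ne']) p a
      ((S.image (hw T p)).filter fun g => g p = a) ha0 (by
        intro g hg
        rw [Finset.mem_filter] at hg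
        exact ⟨hg.2, (hmem g hg.1).2⟩)
    calc ∑ g ∈ (S.image (hw T p)).filter (fun g => g p = a), W g =
        κ₂ * Real.exp (-|(a : ℝ) - (T + 1 : ℕ)|) *
          ∑ g ∈ (S.image (hw T p)).filter (fun g => g p = a),
            ∏ x ∈ g.support, wt2 κ₃ (psi2 c) g x := by
          rw [Finset.mul_sum]
          refine Finset.sum_congr rfl fun g hg => ?_
          simp only [hW]
          rw [(Finset.mem_filter.mp hg).2]
      _ ≤ κ₂ * Real.exp (-|(a : ℝ) - (T + 1 : ℕ)|) * 1 :=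
          mul_le_mul_of_nonneg_left hex (by positivity)
      _ = _ := mul_one _
  refine (Finset.sum_le_sum hin).trans ?_
  rw [← Finset.mul_sum]
  exact (mul_le_mul_of_nonneg_left (e4 _ _) hκ₂0.le).trans hκ₂4

theorem omg_nonneg {d : ℕ} (T R : ℕ) (i₀ : Fin d) (g : ℕ → ℝ) (δ lam c : ℝ) (w : List (Step d))
    (x : Site d) : 0 ≤ omg T R i₀ g δ lam c w x := by
  unfold omg
  refine mul_nonneg ?_ (Finset.prod_nonneg fun s _ => ?_)
  · split_ifs
    · exact (Real.exp_pos _).le
    · exact (Real.exp_pos _).le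
    · exact zero_le_one
  · split_ifs
    · exact (Real.exp_pos _).le
    · exact zero_le_one

end Pool.Agent.DFE
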