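import Pool.Agent.Lib.DFE.Defs7

/-!
# Two terms of the free energy and the exact order of the range: statements of the rows
-/

set_option autoImplicit false

namespace Pool.Agent.DFE

open Finset Pool.Agent.DCOL

/-- The rate. With `a = aa δ`, `L = log (1/δ)`: `a ^ 2 = L / (4 δ)`, `δ a = SS δ / 2`,
`1 / a = 2 SS δ / L`; so `et K δ = SS δ (1 + log L / (2 L) - (log 4 / 2 + 2 K) / L)`. -/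
noncomputable def et (K δ : ℝ) : ℝ := δ * aa δ + Real.log (aa δ) / (2 * aa δ) - K / aa δ

/-- SITH. With `y = k / a`: `(1/2) log k + δ k ^ 2 - et K δ * k =
(L / 4) (1 - y) ^ 2 + (1/4) log (L / 4) (1 - y) + (1/2) log y + K y`. For `y ≥ 1/2` this is at least
`K / 4` (for `K` large), for `exp (-L / 16) ≤ y ≤ 1/2` at least `L / 40`, for
`y ≤ exp (-L / 16)` at least `(1/2) log k - 1`. -/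
def SITH_stmt : Prop := ∀ d : ℕ, 0 < d → ∀ κ : ℝ, 0 < κ → ∃ K₀ : ℝ, 0 < K₀ ∧
  ∀ K : ℝ, K₀ ≤ K → ∃ (T : ℕ) (δ₀ : ℝ), 2 ≤ T ∧ 0 < δ₀ ∧ ∀ δ : ℝ, 0 < δ → δ ≤ δ₀ →
    0 < et K δ ∧ et K δ ≤ 2 * SS δ ∧ ∀ k o : ℕ, T ≤ k → k ≤ o + 1 →
      Qf d o * Real.exp (et K δ * k - δ * (k : ℝ) ^ 2) ≤ κ

/-- SITB (from SITH with small `κ` for `k ≥ T`; for `1 ≤ k < T`: `et K δ * k ≤ 1 / (8 d)` and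
`Qf d k ≤ exp (-(4 / (8 d)))` as in `site_bound`). -/
def SITB_stmt : Prop := ∀ d : ℕ, 0 < d → ∃ K₀ : ℝ, 0 < K₀ ∧
  ∀ K : ℝ, K₀ ≤ K → ∃ δ₀ : ℝ, 0 < δ₀ ∧ ∀ δ : ℝ, 0 < δ → δ ≤ δ₀ → 0 < et K δ ∧
    ∀ k : ℕ, 1 ≤ k → Qf d k * Real.exp (-(δ * (k : ℝ) ^ 2)) ≤
      Real.exp (-(3 * (1 / (8 * d))) - et K δ * k)

/-- UBH (from SITB; the proof of `upper_big`, which uses `hs` only through `site_bound`). -/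
def UBH_stmt : Prop := ∀ d : ℕ, 0 < d → ∃ K₀ : ℝ, 0 < K₀ ∧
  ∀ K : ℝ, K₀ ≤ K → ∃ δ₀ : ℝ, 0 < δ₀ ∧ ∀ β γ : ℝ, Gam d ≤ γ → γ < β → β - γ ≤ δ₀ → ∀ n : ℕ,
    ∑ w ∈ allw d n, Real.exp (1 / (8 * d) * ((vis 0 w).card : ℝ) - En β γ (loc w)) ≤
      (2 * d) ^ n * (((n : ℝ) + 1) ^ 2 * Real.exp (3 * (1 / (8 * d)) - et K (β - γ) * n))

/-- PWH (from SET, SITH; as PW). -/
def PWH_stmt : Prop := ∀ d : ℕ, 0 < d → ∀ (i₀ : Fin d) (c κ : ℝ), 0 < c → 0 < κ → κ ≤ 1 →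
  ∃ K₀ : ℝ, 0 < K₀ ∧ ∀ K : ℝ, K₀ ≤ K →
  ∃ (T₀ R : ℕ) (lam : ℝ), 2 ≤ T₀ ∧ 0 < R ∧ 0 ≤ lam ∧ ∀ T₁ : ℕ, T₀ ≤ T₁ → ∃ δ₀ : ℝ, 0 < δ₀ ∧
    ∀ (T : ℕ) (δ : ℝ), T₀ ≤ T → T ≤ T₁ → 0 < δ → δ ≤ δ₀ →
    ∀ (w : List (Step d)) (p : Site d), p ∈ exF T w →
      (∏ x ∈ (clu T w p).filter (fun x => T ≤ locN w x ∧ T ≤ locN w (x + vec (i₀, true))),
        Qf d (locN w x - if x = endp w then 1 else 0)) *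
        ∏ x ∈ clu T w p, om T R i₀ (et K δ) δ lam c w x ≤
      κ ^ (clu T w p).card * ∏ x ∈ clu T w p, ∏ s : Step d,
        if x + vec s ∈ clu T w p then
          Real.exp (-(c * ((locN w (x + vec s) : ℝ) - locN w x) ^ 2)) else 1

/-- CLSH (from SET, PWH, CST, EXPL2, LEV; `cls_core`). -/
def CLSH_stmt : Prop := ∀ d : ℕ, 0 < d → ∀ (i₀ : Fin d) (c Ξ : ℝ), 0 < c → 0 < Ξ →
  ∃ K₀ : ℝ, 0 < K₀ ∧ ∀ K : ℝ, K₀ ≤ K →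
  ∃ (T₀ R : ℕ) (lam : ℝ), 2 ≤ T₀ ∧ 0 < R ∧ 0 ≤ lam ∧ ∀ T₁ : ℕ, T₀ ≤ T₁ → ∃ δ₀ : ℝ, 0 < δ₀ ∧
    ∀ (T : ℕ) (δ : ℝ), T₀ ≤ T → T ≤ T₁ → 0 < δ → δ ≤ δ₀ →
    ∀ (n : ℕ) (e p : Site d) (S : Finset (List (Step d))),
      (∀ w ∈ S, w.length = n ∧ endp w = e ∧ p ∈ exF T w) →
      (∀ w ∈ S, ∀ w' ∈ S, (clu T w p = clu T w' p ∧
        ∀ x ∈ clu T w p, stk 0 w x = stk 0 w' x) → w = w') →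
      ∑ w ∈ S, ((2 * d : ℝ) ^ (∑ x ∈ clu T w p, (stk 0 w x).length))⁻¹ *
        ∏ x ∈ clu T w p, om T R i₀ (et K δ) δ lam c w x ≤ Ξ

/-- UPH (from SET, RUN, ENB, CLSH, SITH (for `0 < et K δ ≤ 2 SS δ`); `UPPAux.part_bound` for the
words with exactly `v` visited sites, `v = 0, .., n + 1`, with `Ξ, lam / K₂, et K δ * T₁ ≤ ε / 4`). -/
def UPH_stmt : Prop := ∀ d : ℕ, 0 < d → ∀ b ε : ℝ, 0 < b → 0 < ε → ∃ K₀ : ℝ, 0 < K₀ ∧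
  ∀ K : ℝ, K₀ ≤ K → ∃ C δ₀ : ℝ, 0 < C ∧ 0 < δ₀ ∧ ∀ β γ : ℝ, b ≤ γ → γ < β → β - γ ≤ δ₀ →
    ∀ n : ℕ, ∑ w ∈ allw d n, Real.exp (-(ε * ((vis 0 w).card : ℝ)) - En β γ (loc w)) ≤
      (2 * d) ^ n * (C * (2 * (n : ℝ) + 2) ^ (d + 1) * Real.exp (-(et K (β - γ) * n)))

/-- HOL (from UPH, UBH). `γ = (1 - θ) γ₁ + θ γ₂`, `γ₁ = b / 2`, `γ₂ ≥ Gam d`, `γ₂ > B`, the same
`δ = β - γ`; `En` is linear in `(β, γ)`; Hölder with the exponents `1 / (1 - θ)`, `1 / θ`. -/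
def HOL_stmt : Prop := ∀ d : ℕ, 0 < d → ∀ b B : ℝ, 0 < b → b ≤ B → ∃ c K C δ₀ : ℝ, 0 < c ∧ 0 < K ∧
  0 < C ∧ 0 < δ₀ ∧ ∀ β γ : ℝ, b ≤ γ → γ < β → β ≤ B → β - γ ≤ δ₀ → ∀ n : ℕ,
    ∑ w ∈ allw d n, Real.exp (c * ((vis 0 w).card : ℝ) - En β γ (loc w)) ≤
      (2 * d) ^ n * (C * (2 * (n : ℝ) + 2) ^ (d + 2) * Real.exp (-(et K (β - γ) * n)))

/-- LOH (as LOW; the height of the box is `2 d a'` with `a' = ⌈aa δ / (2 d)⌉`). -/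
def LOH_stmt : Prop := ∀ d : ℕ, 0 < d → ∀ B : ℝ, 0 < B → ∃ K δ₀ : ℝ, 0 < K ∧ 0 < δ₀ ∧
  ∀ β γ : ℝ, 0 ≤ γ → γ < β → β ≤ B → β - γ ≤ δ₀ → ∃ n₀ : ℕ, ∀ n : ℕ, n₀ ≤ n →
    (2 * d) ^ n * Real.exp (-(et (-K) (β - γ) * n)) ≤ Zw d β γ n

/-- RNG (from HOL, LOH). -/
def RNG_stmt : Prop := ∀ d : ℕ, 0 < d → ∀ b B : ℝ, 0 < b → b ≤ B → ∃ C δ₀ : ℝ, 0 < C ∧ 0 < δ₀ ∧
  ∀ β γ : ℝ, b ≤ β → β ≤ B → γ < β → β - γ ≤ δ₀ → ∃ n₀ : ℕ, ∀ n : ℕ, n₀ ≤ n →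
    (2 * d) ^ n * Real.exp (-(et (-C) (β - γ) * n)) ≤ Zw d β γ n ∧
    Zw d β γ n ≤ (2 * d) ^ n * Real.exp (-(et C (β - γ) * n)) ∧
    prob d β γ n (fun s => C * (n / aa (β - γ)) ≤ ((visited s).card : ℝ)) ≤
      Real.exp (-(n / aa (β - γ))) ∧
    meanSquare d β γ n ≤ (C * (n / aa (β - γ))) ^ 2

end Pool.Agent.DFE
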