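import Pool.Agent.Lib.DFE.Defs6

/-!
# Row CMP: the number of the sites in the small components
-/

set_option autoImplicit false

namespace Pool.Agent.DFE

open Finset Pool.Agent.DCOL

namespace CMPaux

/-- The step relation inside `D`. -/
def R {d : ℕ} (D : Set (Site d)) (p q : Site d) : Prop := q ∈ D ∧ ∃ s : Step d, q = p + vec s

theorem vec_neg {d : ℕ} (s : Step d) : ∃ t : Step d, vec t = - vec s := by
  obtain ⟨i, b⟩ := s
  refine ⟨(i, !b), ?_⟩
  cases b <;> simp [vec]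

theorem comp_def {d : ℕ} (D : Set (Site d)) (x y : Site d) :
    y ∈ Comp D x ↔ Relation.ReflTransGen (R D) x y := Iff.rfl

theorem comp_sub {d : ℕ} {D : Set (Site d)} {x y : Site d} (hx : x ∈ D) (h : y ∈ Comp D x) :
    y ∈ D := by
  rw [comp_def] at h
  cases h with
  | refl => exact hx
  | tail _ h2 => exact h2.1

theorem comp_symm {d : ℕ} {D : Set (Site d)} {x y : Site d} (hx : x ∈ D) (h : y ∈ Comp D x) :
    x ∈ Comp D y := by
  rw [comp_def] at h ⊢
  induction h with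
  | refl => exact Relation.ReflTransGen.refl
  | @tail b c h1 h2 ih =>
    obtain ⟨hc, s, hs⟩ := h2
    have hb : b ∈ D := comp_sub hx h1
    obtain ⟨t, ht⟩ := vec_neg s
    refine Relation.ReflTransGen.head ⟨hb, t, ?_⟩ ih
    rw [hs, ht]; abel

theorem comp_trans {d : ℕ} {D : Set (Site d)} {x y z : Site d} (h : y ∈ Comp D x)
    (h' : z ∈ Comp D y) : z ∈ Comp D x := by
  rw [comp_def] at *
  exact h.trans h'

open Classical in
/-- The component as a finite set. -/
noncomputable def K {d : ℕ} (D : Finset (Site d)) (x : Site d) : Finset (Site d) :=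
  D.filter fun y => y ∈ Comp (D : Set (Site d)) x

theorem mem_K {d : ℕ} {D : Finset (Site d)} {x y : Site d} :
    y ∈ K D x ↔ y ∈ D ∧ y ∈ Comp (D : Set (Site d)) x := by
  simp [K]

theorem self_K {d : ℕ} {D : Finset (Site d)} {x : Site d} (hx : x ∈ D) : x ∈ K D x :=
  mem_K.2 ⟨hx, Relation.ReflTransGen.refl⟩

theorem coe_K {d : ℕ} {D : Finset (Site d)} {x : Site d} (hx : x ∈ D) :
    ((K D x : Finset (Site d)) : Set (Site d)) = Comp (D : Set (Site d)) x := by
  ext y
  rw [mem_coe, mem_K]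
  exact ⟨fun h => h.2, fun h => ⟨mem_coe.1 (comp_sub (mem_coe.2 hx) h), h⟩⟩

theorem ncard_K {d : ℕ} {D : Finset (Site d)} {x : Site d} (hx : x ∈ D) :
    (Comp (D : Set (Site d)) x).ncard = (K D x).card := by
  rw [← coe_K hx, Set.ncard_coe_finset]

theorem K_eq {d : ℕ} {D : Finset (Site d)} {x y : Site d} (hx : x ∈ D) (h : y ∈ K D x) :
    K D y = K D x := by
  have h2 := (mem_K.1 h).2
  have h3 := comp_symm (mem_coe.2 hx) h2
  ext z
  rw [mem_K, mem_K]
  exact ⟨fun hz => ⟨hz.1, comp_trans h2 hz.2⟩, fun hz => ⟨hz.1, comp_trans h3 hz.2⟩⟩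

theorem mem_bdr {d : ℕ} {D : Finset (Site d)} {q : Site d × Step d} :
    q ∈ bdr D ↔ q.1 ∈ D ∧ q.1 + vec q.2 ∉ D := by
  simp [bdr]

open Classical in
theorem bdr_K {d : ℕ} {D : Finset (Site d)} {x : Site d} :
    bdr (K D x) = (bdr D).filter fun q => q.1 ∈ K D x := by
  ext q
  rw [mem_filter, mem_bdr, mem_bdr]
  constructor
  · rintro ⟨h1, h2⟩
    refine ⟨⟨(mem_K.1 h1).1, fun h3 => h2 (mem_K.2 ⟨h3, ?_⟩)⟩, h1⟩
    exact comp_trans (mem_K.1 h1).2 (Relation.ReflTransGen.single ⟨mem_coe.2 h3, q.2, rfl⟩)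
  · rintro ⟨⟨_, h2⟩, h3⟩
    exact ⟨h3, fun h4 => h2 (mem_K.1 h4).1⟩

end CMPaux

open CMPaux in
open Classical in
/-- Row CMP. -/
theorem cmp : ISO_stmt → CMP_stmt := by
  intro hiso d hd
  obtain ⟨c, hc, hI⟩ := hiso d hd
  refine ⟨1 / c, by positivity, fun D r hr => ?_⟩
  have hd0 : (0 : ℝ) < d := by exact_mod_cast hd
  set S := D.filter fun x => ((Comp (D : Set (Site d)) x).ncard : ℝ) < r ^ d with hS
  -- the boundary of a component is not empty, and the ratio is at most `r / c`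
  have hpos : ∀ x ∈ D, (0 : ℝ) < (bdr (K D x)).card := by
    intro x hx
    have hne : (K D x).Nonempty := ⟨x, self_K hx⟩
    refine lt_of_lt_of_le ?_ (hI _ hne)
    have : (0 : ℝ) < (K D x).card := by exact_mod_cast hne.card_pos
    positivity
  have hrat : ∀ x ∈ D, ((K D x).card : ℝ) < r ^ d →
      ((K D x).card : ℝ) / (bdr (K D x)).card ≤ r / c := by
    intro x hx hsm
    have hne : (K D x).Nonempty := ⟨x, self_K hx⟩
    have hk : (0 : ℝ) < (K D x).card := by exact_mod_cast hne.card_pos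
    have h1 := hI _ hne
    rw [div_le_div_iff₀ (hpos x hx) hc]
    have h2 : ((K D x).card : ℝ) = ((K D x).card : ℝ) ^ (1 - 1 / (d : ℝ)) *
        ((K D x).card : ℝ) ^ (1 / (d : ℝ)) := by
      rw [← Real.rpow_add hk]; simp
    have h3 : ((K D x).card : ℝ) ^ (1 / (d : ℝ)) ≤ r := by
      have h4 : ((K D x).card : ℝ) ^ (1 / (d : ℝ)) ≤ (r ^ d) ^ (1 / (d : ℝ)) :=
        Real.rpow_le_rpow hk.le hsm.le (by positivity)
      rw [one_div, Real.pow_rpow_inv_natCast hr.le hd.ne'] at h4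
      rwa [one_div]
    have hp : (0 : ℝ) < ((K D x).card : ℝ) ^ (1 - 1 / (d : ℝ)) := Real.rpow_pos_of_pos hk _
    calc ((K D x).card : ℝ) * c
        = (c * ((K D x).card : ℝ) ^ (1 - 1 / (d : ℝ))) * ((K D x).card : ℝ) ^ (1 / (d : ℝ)) := by
          conv_lhs => rw [h2]
          ring
      _ ≤ (c * ((K D x).card : ℝ) ^ (1 - 1 / (d : ℝ))) * r :=
          mul_le_mul_of_nonneg_left h3 (mul_pos hc hp).le
      _ ≤ (bdr (K D x)).card * r := mul_le_mul_of_nonneg_right h1 hr.le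
      _ = r * (bdr (K D x)).card := mul_comm _ _
  have hone : ∀ x ∈ S, (1 : ℝ) =
      ∑ q ∈ bdr D, if q.1 ∈ K D x then (1 : ℝ) / (bdr (K D q.1)).card else 0 := by
    intro x hx
    have hxD : x ∈ D := (mem_filter.1 hx).1
    rw [← sum_filter, ← bdr_K]
    have h1 : ∀ q ∈ bdr (K D x), (1 : ℝ) / (bdr (K D q.1)).card = 1 / (bdr (K D x)).card := by
      intro q hq
      rw [K_eq hxD (mem_bdr.1 hq).1]
    rw [sum_congr rfl h1, sum_const, nsmul_eq_mul, mul_one_div_cancel (hpos x hxD).ne']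
  have h0 : (S.card : ℝ) = ∑ x ∈ S, (1 : ℝ) := by simp
  rw [h0, sum_congr rfl hone, sum_comm]
  have hq : ∀ q ∈ bdr D,
      ∑ x ∈ S, (if q.1 ∈ K D x then (1 : ℝ) / (bdr (K D q.1)).card else 0) ≤ r / c := by
    intro q hq
    have hqD : q.1 ∈ D := (mem_bdr.1 hq).1
    rw [← sum_filter, sum_const, nsmul_eq_mul, mul_one_div]
    by_cases he : (S.filter fun x => q.1 ∈ K D x).Nonempty
    · obtain ⟨x, hx⟩ := he
      rw [mem_filter] at hx
      have hxD : x ∈ D := (mem_filter.1 hx.1).1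
      have hsm := (mem_filter.1 hx.1).2
      rw [ncard_K hxD, ← K_eq hxD hx.2] at hsm
      refine le_trans ?_ (hrat q.1 hqD hsm)
      have hsub : (S.filter fun x => q.1 ∈ K D x) ⊆ K D q.1 := by
        intro z hz
        rw [mem_filter] at hz
        have hzD : z ∈ D := (mem_filter.1 hz.1).1
        rw [K_eq hzD hz.2]
        exact self_K hzD
      have := hpos q.1 hqD
      gcongr
    · rw [not_nonempty_iff_eq_empty.1 he]
      simp only [card_empty, Nat.cast_zero, zero_div]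
      positivity
  refine (sum_le_sum hq).trans (le_of_eq ?_)
  rw [sum_const, nsmul_eq_mul]
  ring

end Pool.Agent.DFE
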