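import Pool.Agent.Lib.DFE.Defs6

/-!
Row COA: a level of the local times with small boundary.
-/

set_option autoImplicit false

namespace Pool.Agent.DFE

open Finset Pool.Agent.DCOL

namespace COAAux

variable {d : ℕ}

/-- The levels between `a / 3` and `2 a / 3`. -/
noncomputable def lev (a : ℝ) : Finset ℕ := Finset.Icc ⌈a / 3⌉₊ ⌊2 * a / 3⌋₊

theorem mem_lev {a : ℝ} (ha : 12 ≤ a) {u : ℕ} : u ∈ lev a ↔ a / 3 ≤ u ∧ (u : ℝ) ≤ 2 * a / 3 := by
  unfold lev
  rw [Finset.mem_Icc, Nat.ceil_le, Nat.le_floor_iff (by linarith)]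

theorem card_lev {a : ℝ} (ha : 12 ≤ a) : a / 4 ≤ (lev a).card := by
  unfold lev
  rw [Nat.card_Icc]
  have h1 := Nat.ceil_lt_add_one (show 0 ≤ a / 3 by linarith)
  have h2 := Nat.lt_floor_add_one (2 * a / 3)
  have h3 : ⌈a / 3⌉₊ ≤ ⌊2 * a / 3⌋₊ + 1 := by
    have : ((⌈a / 3⌉₊ : ℕ) : ℝ) < ((⌊2 * a / 3⌋₊ + 1 : ℕ) : ℝ) := by push_cast; linarith
    exact_mod_cast this.le
  rw [Nat.cast_sub h3]
  push_cast
  linarith

/-- The number of the levels crossed by one pair. -/
theorem cross {a : ℝ} (ha : 12 ≤ a) (p q : ℕ) :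
    (((lev a).filter fun u => q < u ∧ u ≤ p).card : ℝ) ≤
      (if (a / 3 ≤ (p : ℝ) ∧ (p : ℝ) ≤ 2 * a / 3) ∨ (a / 3 ≤ (q : ℝ) ∧ (q : ℝ) ≤ 2 * a / 3) then
        |(q : ℝ) - p| else 0) + 3 / a * ((q : ℝ) - p) ^ 2 := by
  have ha0 : 0 < a := by linarith
  have h0 : 0 ≤ 3 / a * ((q : ℝ) - p) ^ 2 := by positivity
  rcases Finset.eq_empty_or_nonempty ((lev a).filter fun u => q < u ∧ u ≤ p) with he | ⟨u, hu⟩
  · rw [he, Finset.card_empty, Nat.cast_zero]
    have : (0 : ℝ) ≤ if (a / 3 ≤ (p : ℝ) ∧ (p : ℝ) ≤ 2 * a / 3) ∨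
        (a / 3 ≤ (q : ℝ) ∧ (q : ℝ) ≤ 2 * a / 3) then |(q : ℝ) - p| else 0 := by
      split_ifs
      · exact abs_nonneg _
      · exact le_rfl
    linarith
  · obtain ⟨hul, hq, hp⟩ := Finset.mem_filter.mp hu
    obtain ⟨hu1, hu2⟩ := (mem_lev ha).mp hul
    have h1 : ((lev a).filter fun u => q < u ∧ u ≤ p).card ≤ p - q := by
      rw [← Nat.card_Ioc]
      refine Finset.card_le_card fun v hv => ?_
      rw [Finset.mem_Ioc]
      exact (Finset.mem_filter.mp hv).2
    have h2 : (((lev a).filter fun u => q < u ∧ u ≤ p).card : ℝ) ≤ (p : ℝ) - q := by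
      have : q ≤ p := by omega
      rw [← Nat.cast_sub this]
      exact_mod_cast h1
    have h3 : |(q : ℝ) - p| = (p : ℝ) - q := by
      rw [abs_of_nonpos]
      · ring
      · have : (q : ℝ) ≤ p := by exact_mod_cast (show q ≤ p by omega)
        linarith
    have hpu : (u : ℝ) ≤ p := by exact_mod_cast hp
    have hqu : (q : ℝ) ≤ u := by exact_mod_cast hq.le
    split_ifs with hc
    · rw [h3]; linarith
    · push Not at hc
      have h4 : 2 * a / 3 < p := hc.1 (by linarith)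
      have h5 : (q : ℝ) < a / 3 := by
        by_contra hcon
        have := hc.2 (not_lt.mp hcon)
        linarith
      have h6 : a / 3 ≤ (p : ℝ) - q := by linarith
      have h7 : (p : ℝ) - q ≤ 3 / a * ((q : ℝ) - p) ^ 2 := by
        have e1 : ((q : ℝ) - p) ^ 2 = ((p : ℝ) - q) ^ 2 := by ring
        rw [e1, div_mul_eq_mul_div, le_div_iff₀ ha0]
        nlinarith
      linarith

end COAAux

open COAAux

/-- COA. -/
theorem coa : COA_stmt := by
  classical
  intro d hd
  have hd1 : (1 : ℝ) ≤ d := by exact_mod_cast hd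
  refine ⟨8 * d + 12, by positivity, fun f a G N ha hG hN => ?_⟩
  have ha0 : 0 < a := by linarith
  have hN0 : 0 ≤ N := (Nat.cast_nonneg _).trans hN
  have hG0 : 0 ≤ G := by simpa using hG ∅
  set P : Site d → Prop := fun x => a / 3 ≤ (f x : ℝ) ∧ (f x : ℝ) ≤ 2 * a / 3 with hP
  set X : Finset (Site d × Step d) := f.support ×ˢ univ with hX
  have hsupp : ∀ x, 0 < f x → x ∈ f.support := fun x hx => Finsupp.mem_support_iff.mpr (by omega)
  have hPs : ∀ x, P x → x ∈ f.support := fun x hx => by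
    refine hsupp x ?_
    have h1 : (0 : ℝ) < f x := by have := hx.1; linarith
    exact_mod_cast h1
  set g : Site d × Step d → ℝ := fun q => (f (q.1 + vec q.2) : ℝ) - f q.1 with hg
  have hGX : ∑ q ∈ X, g q ^ 2 ≤ G := by
    rw [hX, Finset.sum_product]
    exact hG f.support
  -- the pairs near the levels
  set Q : Finset (Site d × Step d) := X.filter fun q => P q.1 ∨ P (q.1 + vec q.2) with hQ
  have hcardQ : (Q.card : ℝ) ≤ 4 * d * N := by
    have h1 : Q ⊆ ((f.support.filter P) ×ˢ (univ : Finset (Step d))) ∪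
        (((f.support.filter P) ×ˢ (univ : Finset (Step d))).image fun q => (q.1 - vec q.2, q.2)) := by
      intro q hq
      obtain ⟨-, h2⟩ := Finset.mem_filter.mp hq
      rw [Finset.mem_union]
      rcases h2 with h2 | h2
      · left
        exact Finset.mem_product.mpr ⟨Finset.mem_filter.mpr ⟨hPs _ h2, h2⟩, Finset.mem_univ _⟩
      · right
        refine Finset.mem_image.mpr ⟨(q.1 + vec q.2, q.2), Finset.mem_product.mpr
          ⟨Finset.mem_filter.mpr ⟨hPs _ h2, h2⟩, Finset.mem_univ _⟩, ?_⟩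
        simp
    have h2 := (Finset.card_le_card h1).trans ((Finset.card_union_le _ _).trans
      (Nat.add_le_add_left Finset.card_image_le _))
    rw [Finset.card_product, Finset.card_univ, Fintype.card_prod, Fintype.card_fin,
      Fintype.card_bool] at h2
    have h3 : (Q.card : ℝ) ≤ ((f.support.filter P).card : ℝ) * (d * 2) +
        ((f.support.filter P).card : ℝ) * (d * 2) := by exact_mod_cast h2
    have h4 : ((f.support.filter P).card : ℝ) ≤ N := hN
    nlinarith
  have hsumQ : ∑ q ∈ Q, |g q| ≤ 2 * d * Real.sqrt (N * G) := by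
    have h1 : (∑ q ∈ Q, |g q|) ^ 2 ≤ Q.card * ∑ q ∈ Q, |g q| ^ 2 := sq_sum_le_card_mul_sum_sq
    have h2 : ∑ q ∈ Q, |g q| ^ 2 ≤ G := by
      refine le_trans ?_ hGX
      simp_rw [sq_abs]
      exact Finset.sum_le_sum_of_subset_of_nonneg (Finset.filter_subset _ _)
        fun _ _ _ => sq_nonneg _
    have h3 : (∑ q ∈ Q, |g q|) ^ 2 ≤ (2 * d * Real.sqrt (N * G)) ^ 2 := by
      rw [mul_pow, Real.sq_sqrt (mul_nonneg hN0 hG0)]
      calc (∑ q ∈ Q, |g q|) ^ 2 ≤ Q.card * ∑ q ∈ Q, |g q| ^ 2 := h1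
        _ ≤ (4 * d * N) * G := by
          refine mul_le_mul hcardQ h2 (Finset.sum_nonneg fun _ _ => sq_nonneg _) (by positivity)
        _ ≤ (2 * d) ^ 2 * (N * G) := by
          have h4 : 0 ≤ N * G := mul_nonneg hN0 hG0
          have h5 : (d : ℝ) ≤ d ^ 2 := by nlinarith
          have h6 := mul_le_mul_of_nonneg_right h5 h4
          linarith
    exact (abs_le_of_sq_le_sq' h3 (by positivity)).2
  -- the sum of the boundaries
  have hbd : ∀ u ∈ lev a, (bdr (f.support.filter fun x => u ≤ f x)).card =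
      ∑ q ∈ X, if f (q.1 + vec q.2) < u ∧ u ≤ f q.1 then 1 else 0 := by
    intro u hu
    have hu1 := ((mem_lev ha).mp hu).1
    have hu0 : 0 < u := by
      have : (0 : ℝ) < u := by linarith
      exact_mod_cast this
    rw [← Finset.card_filter]
    congr 1
    ext q
    unfold bdr
    simp only [hX, Finset.mem_filter, Finset.mem_product, Finset.mem_univ, and_true]
    constructor
    · rintro ⟨⟨h1, h2⟩, h3⟩
      refine ⟨h1, ?_, h2⟩
      by_contra hcon
      exact h3 ⟨hsupp _ (by omega), by omega⟩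
    · rintro ⟨h1, h2, h3⟩
      exact ⟨⟨h1, h3⟩, fun h => by omega⟩
  have hsum : ((∑ u ∈ lev a, (bdr (f.support.filter fun x => u ≤ f x)).card : ℕ) : ℝ) ≤
      2 * d * Real.sqrt (N * G) + 3 * (G / a) := by
    rw [Finset.sum_congr rfl hbd, Finset.sum_comm]
    have h1 : ∀ q ∈ X, ((∑ u ∈ lev a, (if f (q.1 + vec q.2) < u ∧ u ≤ f q.1 then 1 else 0) : ℕ) : ℝ) ≤
        (if P q.1 ∨ P (q.1 + vec q.2) then |g q| else 0) + 3 / a * g q ^ 2 := by
      intro q _
      rw [← Finset.card_filter]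
      exact cross ha (f q.1) (f (q.1 + vec q.2))
    rw [Nat.cast_sum]
    refine (Finset.sum_le_sum h1).trans ?_
    rw [Finset.sum_add_distrib, ← Finset.sum_filter, ← Finset.mul_sum]
    have h2 : 3 / a * ∑ q ∈ X, g q ^ 2 ≤ 3 * (G / a) := by
      rw [show 3 * (G / a) = 3 / a * G by ring]
      exact mul_le_mul_of_nonneg_left hGX (by positivity)
    exact add_le_add hsumQ h2
  -- one level
  have hex : ∃ u ∈ lev a, (lev a).card * ((bdr (f.support.filter fun x => u ≤ f x)).card : ℝ) ≤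
      2 * d * Real.sqrt (N * G) + 3 * (G / a) := by
    by_contra hcon
    push Not at hcon
    have hne : (lev a).Nonempty := by
      rw [← Finset.card_pos]
      have h1 := card_lev ha
      have : (0 : ℝ) < (lev a).card := by linarith
      exact_mod_cast this
    have h2 := Finset.sum_lt_sum_of_nonempty hne hcon
    rw [Finset.sum_const, nsmul_eq_mul, ← Finset.mul_sum] at h2
    have h3 : (0 : ℝ) < (lev a).card := by exact_mod_cast Finset.card_pos.mpr hne
    have h4 := lt_of_mul_lt_mul_left h2 h3.le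
    rw [Nat.cast_sum] at hsum
    linarith
  obtain ⟨u, hu, hu2⟩ := hex
  refine ⟨u, ((mem_lev ha).mp hu).1, ((mem_lev ha).mp hu).2, ?_⟩
  have h1 := card_lev ha
  have h2 : a / 4 * ((bdr (f.support.filter fun x => u ≤ f x)).card : ℝ) ≤
      2 * d * Real.sqrt (N * G) + 3 * (G / a) :=
    (mul_le_mul_of_nonneg_right h1 (Nat.cast_nonneg _)).trans hu2
  have h3 : 0 ≤ Real.sqrt (N * G) := Real.sqrt_nonneg _
  have h4 : 0 ≤ G / a := by positivity
  have h5 : 0 ≤ (d : ℝ) * (G / a) := by positivity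
  nlinarith

end Pool.Agent.DFE
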