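import Pool.Agent.Lib.DFE.Defs2

/-!
Row ENB: the energy of the local times bounds the weights of the sites.
-/

set_option autoImplicit false

namespace Pool.Agent.DFE

open Finset Pool.Agent.DCOL

namespace ENBAux

variable {d : ℕ}

/-- `En_ge` with the sum of the squares of the differences over any finite set. -/
theorem En_ge_all (hd : 0 < d) {β γ : ℝ} (hγ : 0 ≤ γ) (f : Site d →₀ ℕ)
    (E : Finset (Site d)) :
    (β - γ) * ∑ x ∈ f.support, (f x : ℝ) ^ 2 +
      γ / (4 * d) * ∑ x ∈ E, ∑ s : Step d, ((f (x + vec s) : ℝ) - f x) ^ 2 ≤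
      En β γ (fun x => (f x : ℝ)) := by
  have hf : (Function.support fun x => (f x : ℝ)).Finite := by
    refine f.support.finite_toSet.subset fun x hx => ?_
    rw [Finset.mem_coe, Finsupp.mem_support_iff]
    intro h
    exact hx (by simp only [h, Nat.cast_zero])
  rw [En_eq hd hf]
  have h1 : ∑' x, (f x : ℝ) ^ 2 = ∑ x ∈ f.support, (f x : ℝ) ^ 2 := by
    refine tsum_eq_sum fun x hx => ?_
    rw [Finsupp.notMem_support_iff.mp hx]; norm_num
  rw [h1]
  have h2 : ∑ x ∈ E, ∑ s : Step d, ((f (x + vec s) : ℝ) - f x) ^ 2 ≤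
      2 * ∑ i : Fin d, ∑' x, ((f (x + vec (i, true)) : ℝ) - f x) ^ 2 := by
    rw [Finset.sum_comm, Fintype.sum_prod_type, Finset.mul_sum]
    refine Finset.sum_le_sum fun i _ => ?_
    rw [Fintype.sum_bool, two_mul]
    have e1 : Summable fun x => ((f (x + vec (i, true)) : ℝ) - f x) ^ 2 :=
      summable_fs (fs_sq (fs_sub (fs_shift hf _) hf))
    have e2 : Summable fun x => ((f (x + vec (i, false)) : ℝ) - f x) ^ 2 :=
      summable_fs (fs_sq (fs_sub (fs_shift hf _) hf))
    have e3 : ∑' x, ((f (x + vec (i, false)) : ℝ) - f x) ^ 2 =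
        ∑' x, ((f (x + vec (i, true)) : ℝ) - f x) ^ 2 := by
      rw [← tsum_shift' (fun x => ((f (x + vec (i, false)) : ℝ) - f x) ^ 2) (vec (i, true))]
      refine tsum_congr fun x => ?_
      have e4 : x + vec (i, true) + vec (i, false) = x := by
        have : (vec (i, false) : Site d) = -vec (i, true) := by simp [vec]
        rw [this]; abel
      rw [e4]; ring
    refine add_le_add (e1.sum_le_tsum _ fun x _ => sq_nonneg _) ?_
    rw [← e3]
    exact e2.sum_le_tsum _ fun x _ => sq_nonneg _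
  have hd0 : (0 : ℝ) < d := by exact_mod_cast hd
  have h3 : γ / (4 * d) * ∑ x ∈ E, ∑ s : Step d, ((f (x + vec s) : ℝ) - f x) ^ 2 ≤
      γ / (2 * d) * ∑ i : Fin d, ∑' x, ((f (x + vec (i, true)) : ℝ) - f x) ^ 2 := by
    calc _ ≤ γ / (4 * d) * (2 * ∑ i : Fin d, ∑' x, ((f (x + vec (i, true)) : ℝ) - f x) ^ 2) :=
          mul_le_mul_of_nonneg_left h2 (by positivity)
      _ = _ := by field_simp; ring
  linarith

theorem sum_locN (w : List (Step d)) : ∑ x ∈ vis 0 w, locN w x = w.length + 1 := by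
  rw [← sum_length_stk w 0 (vis 0 w) subset_rfl,
    Finset.sum_congr rfl fun x _ => (length_stk0 w x).symm, Finset.sum_add_distrib,
    Finset.sum_ite_eq', if_pos]
  have := endp_mem_vis w 0
  rwa [zero_add] at this

/-- The big sites contain all but `T` times the number of sites. -/
theorem sum_big (T : ℕ) (w : List (Step d)) :
    (w.length : ℝ) - T * (vis 0 w).card ≤
      ∑ x ∈ (vis 0 w).filter (fun x => T ≤ locN w x), (locN w x : ℝ) := by
  have h1 := sum_locN w
  rw [← Finset.sum_filter_add_sum_filter_not (vis 0 w) (fun x => T ≤ locN w x)] at h1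
  have h2 : ∑ x ∈ (vis 0 w).filter (fun x => ¬ T ≤ locN w x), locN w x ≤
      (vis 0 w).card * T := by
    calc _ ≤ ∑ _x ∈ (vis 0 w).filter (fun x => ¬ T ≤ locN w x), T :=
          Finset.sum_le_sum fun x hx => (not_le.mp (Finset.mem_filter.mp hx).2).le
      _ = ((vis 0 w).filter (fun x => ¬ T ≤ locN w x)).card * T := by
          rw [Finset.sum_const, smul_eq_mul]
      _ ≤ _ := Nat.mul_le_mul_right _ (Finset.card_le_card (Finset.filter_subset _ _))
  have h3 : w.length ≤ ∑ x ∈ (vis 0 w).filter (fun x => T ≤ locN w x), locN w x +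
      (vis 0 w).card * T := by omega
  have h4 : (w.length : ℝ) ≤ ((∑ x ∈ (vis 0 w).filter (fun x => T ≤ locN w x), locN w x +
      (vis 0 w).card * T : ℕ) : ℝ) := by exact_mod_cast h3
  push_cast at h4
  linarith

/-- The weight as an exponential. -/
theorem om_eq (T R : ℕ) (i₀ : Fin d) (η δ lam c : ℝ) (w : List (Step d)) (x : Site d) :
    om T R i₀ η δ lam c w x = Real.exp
      ((if T ≤ locN w x then η * locN w x - δ * (locN w x : ℝ) ^ 2 -
        (if locN w x < T + R ∧ locN w (x + vec (i₀, true)) < T then lam else 0) else 0) -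
        2 * c * ∑ s : Step d, (open Classical in if Ex T (locN w) (x + vec s) then
          ((locN w (x + vec s) : ℝ) - locN w x) ^ 2 else 0)) := by
  classical
  have key : ∀ A B : ℝ, Real.exp (A - B) = Real.exp A * Real.exp (-B) := fun A B => by
    rw [← Real.exp_add, sub_eq_add_neg]
  rw [om]
  refine Eq.trans ?_ (key _ _).symm
  refine congrArg₂ (fun a b : ℝ => a * b) ?_ ?_
  · by_cases h : T ≤ locN w x
    · rw [if_pos h, if_pos h]
    · rw [if_neg h, if_neg h, Real.exp_zero]
  · rw [Finset.mul_sum, ← Finset.sum_neg_distrib, Real.exp_sum]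
    refine Finset.prod_congr rfl fun s _ => ?_
    by_cases h : Ex T (locN w) (x + vec s)
    · rw [if_pos h, if_pos h]
    · rw [if_neg h, if_neg h, mul_zero, neg_zero, Real.exp_zero]

theorem filter_exF (T : ℕ) (hT : 0 < T) (w : List (Step d)) :
    (exF T w).filter (fun x => T ≤ locN w x) = (vis 0 w).filter (fun x => T ≤ locN w x) := by
  classical
  ext x
  rw [Finset.mem_filter, Finset.mem_filter]
  refine ⟨fun h => ⟨?_, h.2⟩, fun h => ⟨?_, h.2⟩⟩
  · rw [mem_vis0]; omega
  · rw [exF, Finset.mem_filter, Finset.mem_union]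
    exact ⟨Or.inl h.1, Or.inl h.2⟩

end ENBAux

open ENBAux

/-- ENB. -/
theorem enb : ENB_stmt := by
  intro d hd T R i₀ β γ η lam c hT hη hc hcγ hγβ w
  classical
  have hd0 : (0 : ℝ) < d := by exact_mod_cast hd
  have hγ : 0 ≤ γ := le_trans (by positivity) hcγ
  have hδ : 0 < β - γ := by linarith
  rw [Finset.prod_congr rfl fun x _ => om_eq T R i₀ η (β - γ) lam c w x, ← Real.exp_sum,
    ← Real.exp_add]
  refine Real.exp_le_exp.mpr ?_
  have hEn : En β γ (loc w) = En β γ (fun x => (fld w x : ℝ)) := by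
    congr 1
    funext x
    rw [loc_eq, fld_apply]
  have h1 := En_ge_all hd hγ (β := β) (fld w) (exF T w)
  rw [← hEn, fld_support] at h1
  simp only [fld_apply] at h1
  rw [Finset.sum_sub_distrib, ← Finset.sum_filter, filter_exF T (by omega) w,
    Finset.sum_sub_distrib, Finset.sum_sub_distrib, ← Finset.mul_sum, ← Finset.mul_sum,
    ← Finset.mul_sum, ← Finset.sum_filter, Finset.filter_filter, Finset.sum_const, nsmul_eq_mul]
  have h2 := mul_le_mul_of_nonneg_left (sum_big T w) hη
  have h3 : ∑ x ∈ (vis 0 w).filter (fun x => T ≤ locN w x), (locN w x : ℝ) ^ 2 ≤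
      ∑ x ∈ vis 0 w, (locN w x : ℝ) ^ 2 :=
    Finset.sum_le_sum_of_subset_of_nonneg (Finset.filter_subset _ _) fun x _ _ => sq_nonneg _
  have h4 := mul_le_mul_of_nonneg_left h3 hδ.le
  have h5 : 2 * c * ∑ x ∈ exF T w, ∑ s : Step d,
      (if Ex T (locN w) (x + vec s) then ((locN w (x + vec s) : ℝ) - locN w x) ^ 2 else 0) ≤
      γ / (4 * d) * ∑ x ∈ exF T w, ∑ s : Step d,
        ((locN w (x + vec s) : ℝ) - locN w x) ^ 2 := by
    refine mul_le_mul ?_ ?_ ?_ (by positivity)
    · rw [le_div_iff₀ (by positivity)]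
      nlinarith [mul_nonneg hc hd0.le]
    · refine Finset.sum_le_sum fun x _ => Finset.sum_le_sum fun s _ => ?_
      split_ifs
      · exact le_rfl
      · exact sq_nonneg _
    · refine Finset.sum_nonneg fun x _ => Finset.sum_nonneg fun s _ => ?_
      split_ifs
      · exact sq_nonneg _
      · exact le_rfl
  have h6 : (soft T R i₀ w : ℝ) = (((vis 0 w).filter fun x => T ≤ locN w x ∧
      (locN w x < T + R ∧ locN w (x + vec (i₀, true)) < T)).card : ℝ) := rfl
  rw [h6]
  linarith

end Pool.Agent.DFE
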