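import Pool.Agent.Lib.DFE.Defs4

/-!
Exponential concentration of `δ ∑ ℓ²` and of the energy near the critical line: the row TAIL.
-/

set_option autoImplicit false

namespace Pool.Agent.DFE.TAILAux

open Finset Pool.Agent.DCOL Pool.Agent.DFE

variable {d n : ℕ}

theorem Zw_pos (hd : 0 < d) (β γ : ℝ) (n : ℕ) : 0 < Zw d β γ n := by
  unfold Zw
  refine Finset.sum_pos (fun w _ => Real.exp_pos _) ?_
  rw [← Finset.card_pos, card_allw]
  positivity

open Classical in
/-- The exponential Chebyshev inequality. -/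
theorem weight_le {β γ β' γ' a : ℝ} (A : (Fin n → Step d) → Prop)
    (h : ∀ s, A s → a ≤ energy β γ s - energy β' γ' s) :
    ∑ s with A s, Real.exp (-energy β γ s) ≤ Real.exp (-a) * Zw d β' γ' n := by
  rw [← partition_eq, partitionFunction, Finset.mul_sum]
  calc ∑ s with A s, Real.exp (-energy β γ s)
      ≤ ∑ s with A s, Real.exp (-a) * Real.exp (-energy β' γ' s) := by
        refine Finset.sum_le_sum fun s hs => ?_
        rw [← Real.exp_add]
        refine Real.exp_le_exp.mpr ?_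
        have := h s (Finset.mem_filter.mp hs).2
        linarith
    _ ≤ _ := Finset.sum_le_sum_of_subset_of_nonneg (Finset.filter_subset _ _)
        fun s _ _ => by positivity

/-- The two tails of `X` around `S n / 2`. -/
theorem tails (hd : 0 < d) {β γ β₁ γ₁ β₂ γ₂ : ℝ} (X : (Fin n → Step d) → ℝ)
    {S ε h c z₀ z₁ z₂ M : ℝ} (hS : 0 < S) (hh : 0 ≤ h) (hM : 0 < M)
    (h1 : ∀ s, h * X s ≤ energy β γ s - energy β₁ γ₁ s)
    (h2 : ∀ s, -(h * X s) ≤ energy β γ s - energy β₂ γ₂ s)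
    (hZ1 : Zw d β₁ γ₁ n ≤ M * Real.exp (-(z₁ * S * n)))
    (hZ2 : Zw d β₂ γ₂ n ≤ M * Real.exp (-(z₂ * S * n)))
    (hZ0 : M * Real.exp (-(z₀ * S * n)) ≤ Zw d β γ n)
    (c1 : 2 * c ≤ h * (1 / 2 + ε) + z₁ - z₀) (c2 : 2 * c ≤ -(h * (1 / 2 - ε)) + z₂ - z₀)
    (hn : Real.log 2 ≤ c * S * n) :
    prob d β γ n (fun s => ε * S * n ≤ |X s - S * n / 2|) ≤ Real.exp (-(c * S * n)) := by
  classical
  have hn0 : (0 : ℝ) ≤ n := Nat.cast_nonneg _
  have hSn : 0 ≤ S * n := by positivity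
  have hZ : 0 < Zw d β γ n := Zw_pos hd β γ n
  have w1 := weight_le (β := β) (γ := γ) (β' := β₁) (γ' := γ₁) (a := h * (1 / 2 + ε) * (S * n))
    (fun s : Fin n → Step d => S * n / 2 + ε * S * n ≤ X s) (by
      intro s hs
      refine le_trans ?_ (h1 s)
      have := mul_le_mul_of_nonneg_left hs hh
      calc h * (1 / 2 + ε) * (S * n) = h * (S * n / 2 + ε * S * n) := by ring
        _ ≤ _ := this)
  have w2 := weight_le (β := β) (γ := γ) (β' := β₂) (γ' := γ₂)
    (a := -(h * (1 / 2 - ε)) * (S * n))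
    (fun s : Fin n → Step d => X s ≤ S * n / 2 - ε * S * n) (by
      intro s hs
      refine le_trans ?_ (h2 s)
      have := mul_le_mul_of_nonneg_left hs hh
      calc -(h * (1 / 2 - ε)) * (S * n) = -(h * (S * n / 2 - ε * S * n)) := by ring
        _ ≤ _ := neg_le_neg this)
  have b1 : ∑ s : Fin n → Step d with S * n / 2 + ε * S * n ≤ X s, Real.exp (-energy β γ s) ≤
      Real.exp (-(2 * c * (S * n))) * Zw d β γ n := by
    refine w1.trans ?_
    calc _ ≤ Real.exp (-(h * (1 / 2 + ε) * (S * n))) * (M * Real.exp (-(z₁ * S * n))) :=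
          mul_le_mul_of_nonneg_left hZ1 (Real.exp_pos _).le
      _ = M * Real.exp (-((h * (1 / 2 + ε) + z₁) * (S * n))) := by
          rw [mul_left_comm, ← Real.exp_add]; congr 2; ring
      _ ≤ M * Real.exp (-((2 * c + z₀) * (S * n))) := by
          refine mul_le_mul_of_nonneg_left (Real.exp_le_exp.mpr (neg_le_neg ?_)) hM.le
          exact mul_le_mul_of_nonneg_right (by linarith) hSn
      _ = Real.exp (-(2 * c * (S * n))) * (M * Real.exp (-(z₀ * S * n))) := by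
          rw [mul_left_comm (Real.exp (-(2 * c * (S * n)))) M, ← Real.exp_add]; congr 2; ring
      _ ≤ _ := mul_le_mul_of_nonneg_left hZ0 (Real.exp_pos _).le
  have b2 : ∑ s : Fin n → Step d with X s ≤ S * n / 2 - ε * S * n, Real.exp (-energy β γ s) ≤
      Real.exp (-(2 * c * (S * n))) * Zw d β γ n := by
    refine w2.trans ?_
    calc _ ≤ Real.exp (-(-(h * (1 / 2 - ε)) * (S * n))) * (M * Real.exp (-(z₂ * S * n))) :=
          mul_le_mul_of_nonneg_left hZ2 (Real.exp_pos _).le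
      _ = M * Real.exp (-((-(h * (1 / 2 - ε)) + z₂) * (S * n))) := by
          rw [mul_left_comm, ← Real.exp_add]; congr 2; ring
      _ ≤ M * Real.exp (-((2 * c + z₀) * (S * n))) := by
          refine mul_le_mul_of_nonneg_left (Real.exp_le_exp.mpr (neg_le_neg ?_)) hM.le
          exact mul_le_mul_of_nonneg_right (by linarith) hSn
      _ = Real.exp (-(2 * c * (S * n))) * (M * Real.exp (-(z₀ * S * n))) := by
          rw [mul_left_comm (Real.exp (-(2 * c * (S * n)))) M, ← Real.exp_add]; congr 2; ring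
      _ ≤ _ := mul_le_mul_of_nonneg_left hZ0 (Real.exp_pos _).le
  have hsub : ∑ s : Fin n → Step d with ε * S * n ≤ |X s - S * n / 2|, Real.exp (-energy β γ s) ≤
      ∑ s : Fin n → Step d with S * n / 2 + ε * S * n ≤ X s, Real.exp (-energy β γ s) +
      ∑ s : Fin n → Step d with X s ≤ S * n / 2 - ε * S * n, Real.exp (-energy β γ s) := by
    rw [Finset.sum_filter, Finset.sum_filter, Finset.sum_filter, ← Finset.sum_add_distrib]
    refine Finset.sum_le_sum fun s _ => ?_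
    have he := Real.exp_pos (-energy β γ s)
    by_cases hs : ε * S * n ≤ |X s - S * n / 2|
    · rw [if_pos hs]
      rcases le_abs.mp hs with h | h
      · rw [if_pos (by linarith : S * n / 2 + ε * S * n ≤ X s)]
        split_ifs <;> linarith
      · rw [if_pos (by linarith : X s ≤ S * n / 2 - ε * S * n)]
        split_ifs <;> linarith
    · rw [if_neg hs]
      split_ifs <;> linarith
  have htwo : 2 * Real.exp (-(2 * c * (S * n))) ≤ Real.exp (-(c * S * n)) := by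
    have h3 : (2 : ℝ) = Real.exp (Real.log 2) := (Real.exp_log two_pos).symm
    calc 2 * Real.exp (-(2 * c * (S * n))) = Real.exp (Real.log 2 - 2 * c * (S * n)) := by
          rw [sub_eq_add_neg, Real.exp_add, Real.exp_log two_pos]
      _ ≤ _ := by
          refine Real.exp_le_exp.mpr ?_
          have : 2 * c * (S * n) = c * S * n + c * S * n := by ring
          linarith
  unfold prob
  rw [partition_eq, div_le_iff₀ hZ]
  refine hsub.trans ((add_le_add b1 b2).trans ?_)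
  calc Real.exp (-(2 * c * (S * n))) * Zw d β γ n + Real.exp (-(2 * c * (S * n))) * Zw d β γ n
      = 2 * Real.exp (-(2 * c * (S * n))) * Zw d β γ n := by ring
    _ ≤ _ := mul_le_mul_of_nonneg_right htwo hZ.le

open Classical in
theorem prob_mono (hd : 0 < d) (β γ : ℝ) {A B : (Fin n → Step d) → Prop} (h : ∀ s, A s → B s) :
    prob d β γ n A ≤ prob d β γ n B := by
  unfold prob
  rw [partition_eq]
  refine div_le_div_of_nonneg_right ?_ (Zw_pos hd β γ n).le
  refine Finset.sum_le_sum_of_subset_of_nonneg ?_ fun s _ _ => (Real.exp_pos _).le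
  intro s hs
  rw [Finset.mem_filter] at hs ⊢
  exact ⟨hs.1, h s hs.2⟩

end Pool.Agent.DFE.TAILAux

namespace Pool.Agent.DFE

open Finset Pool.Agent.DCOL TAILAux

/-- **TAIL.** -/
theorem tail_thm (hU : UPP_stmt) (hL : LOWF_stmt) (hSSN : SSN_stmt) : TAIL_stmt := by
  intro d hd β ε₀ hβ hε₀
  set ε : ℝ := min ε₀ (1 / 2) with hεdef
  have hε : 0 < ε := lt_min hε₀ (by norm_num)
  have hε1 : ε ≤ 1 / 2 := min_le_right _ _
  have hεle : ε ≤ ε₀ := min_le_left _ _
  set h : ℝ := ε / 2 with hh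
  set e : ℝ := ε ^ 2 / 100 with he
  have hh0 : 0 < h := by positivity
  have he0 : 0 < e := by positivity
  have hε2 : ε ^ 2 ≤ 1 / 4 := by nlinarith
  have he1 : e < 1 := by rw [he]; linarith
  have hh1 : h ≤ 1 / 4 := by rw [hh]; linarith
  obtain ⟨δU, hδU, hUU⟩ := hU d hd (β / 4) e (by positivity) he0 he1
  obtain ⟨δL, hδL, hLL⟩ := hL d hd β e hβ he0
  obtain ⟨δ₁, hδ₁, -, hS₁⟩ := hSSN (1 - h) e (by linarith) he0
  obtain ⟨δ₂, hδ₂, -, hS₂⟩ := hSSN (1 + h) e (by linarith) he0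
  refine ⟨min (min (δU / 2) δL) (min (min δ₁ δ₂) (β / 2)), ε ^ 2 / 8, ?_, by positivity,
    fun γ hγβ hδ => ?_⟩
  · exact lt_min (lt_min (by positivity) hδL) (lt_min (lt_min hδ₁ hδ₂) (by positivity))
  have d1 : β - γ ≤ δU / 2 := hδ.trans ((min_le_left _ _).trans (min_le_left _ _))
  have d2 : β - γ ≤ δL := hδ.trans ((min_le_left _ _).trans (min_le_right _ _))
  have d3 : β - γ ≤ δ₁ :=
    hδ.trans ((min_le_right _ _).trans ((min_le_left _ _).trans (min_le_left _ _)))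
  have d4 : β - γ ≤ δ₂ :=
    hδ.trans ((min_le_right _ _).trans ((min_le_left _ _).trans (min_le_right _ _)))
  have d5 : β - γ ≤ β / 2 := hδ.trans ((min_le_right _ _).trans (min_le_right _ _))
  have hδ0 : 0 < β - γ := by linarith
  have hγ : β / 2 ≤ γ := by linarith
  obtain ⟨hS0, -, hSa⟩ := hS₁ (β - γ) hδ0 d3
  obtain ⟨-, -, hSb⟩ := hS₂ (β - γ) hδ0 d4
  set δ : ℝ := β - γ with hδdef
  set S : ℝ := SS δ with hSdef
  have hhδ : h * δ ≤ 1 / 4 * δ := mul_le_mul_of_nonneg_right hh1 hδ0.le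
  have hhδ0 : 0 < h * δ := by positivity
  -- the square roots
  have r1 : 1 - h / 2 - h ^ 2 / 2 ≤ Real.sqrt (1 - h) := by
    refine Real.le_sqrt_of_sq_le ?_
    have : (1 - h / 2 - h ^ 2 / 2) ^ 2 = 1 - h - h ^ 2 * (3 / 4 - h / 2 - h ^ 2 / 4) := by ring
    rw [this]
    have h3 : 0 ≤ h ^ 2 * (3 / 4 - h / 2 - h ^ 2 / 4) := by
      refine mul_nonneg (by positivity) ?_
      nlinarith
    linarith
  have r2 : 1 + h / 2 - h ^ 2 / 8 ≤ Real.sqrt (1 + h) := by
    refine Real.le_sqrt_of_sq_le ?_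
    have : (1 + h / 2 - h ^ 2 / 8) ^ 2 = 1 + h - h ^ 3 * (1 / 8 - h / 64) := by ring
    rw [this]
    have h3 : 0 ≤ h ^ 3 * (1 / 8 - h / 64) := by
      refine mul_nonneg (by positivity) ?_
      linarith
    linarith
  have c1 : 2 * (ε ^ 2 / 8) ≤ h * (1 / 2 + ε) + (1 - e) * (Real.sqrt (1 - h) - e) - (1 + e) := by
    have h3 : (1 - e) * (1 - h / 2 - h ^ 2 / 2 - e) ≤ (1 - e) * (Real.sqrt (1 - h) - e) :=
      mul_le_mul_of_nonneg_left (by linarith) (by linarith)
    have h4 : 1 - h / 2 - h ^ 2 / 2 - e - e ≤ (1 - e) * (1 - h / 2 - h ^ 2 / 2 - e) := by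
      have h5 : e * (1 - h / 2 - h ^ 2 / 2 - e) ≤ e * 1 :=
        mul_le_mul_of_nonneg_left (by nlinarith [sq_nonneg h]) he0.le
      nlinarith
    have h6 : h * (1 / 2 + ε) + (1 - h / 2 - h ^ 2 / 2 - e - e) - (1 + e) =
        ε ^ 2 / 2 - ε ^ 2 / 8 - 3 * (ε ^ 2 / 100) := by rw [hh, he]; ring
    have h7 : 0 ≤ ε ^ 2 := sq_nonneg _
    linarith
  have c2 : 2 * (ε ^ 2 / 8) ≤
      -(h * (1 / 2 - ε)) + (1 - e) * (Real.sqrt (1 + h) - e) - (1 + e) := by
    have h3 : (1 - e) * (1 + h / 2 - h ^ 2 / 8 - e) ≤ (1 - e) * (Real.sqrt (1 + h) - e) :=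
      mul_le_mul_of_nonneg_left (by linarith) (by linarith)
    have h4 : 1 + h / 2 - h ^ 2 / 8 - e - 2 * e ≤ (1 - e) * (1 + h / 2 - h ^ 2 / 8 - e) := by
      have h5 : e * (1 + h / 2 - h ^ 2 / 8 - e) ≤ e * 2 :=
        mul_le_mul_of_nonneg_left (by nlinarith [sq_nonneg h]) he0.le
      nlinarith
    have h6 : -(h * (1 / 2 - ε)) + (1 + h / 2 - h ^ 2 / 8 - e - 2 * e) - (1 + e) =
        ε ^ 2 / 2 - ε ^ 2 / 32 - 4 * (ε ^ 2 / 100) := by rw [hh, he]; ring
    have h7 : 0 ≤ ε ^ 2 := sq_nonneg _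
    linarith
  -- the partition functions
  obtain ⟨n₀, hn₀⟩ := hLL γ (by linarith) hγβ d2
  have up : ∀ β' γ' t : ℝ, β / 4 ≤ γ' → γ' < β' → β' - γ' = t * δ → t * δ ≤ δU →
      (Real.sqrt t - e) * S ≤ SS (t * δ) → ∃ m : ℕ, ∀ n : ℕ, m ≤ n →
      Zw d β' γ' n ≤ (2 * d) ^ n * Real.exp (-((1 - e) * (Real.sqrt t - e) * S * n)) := by
    intro β' γ' t h1 h2 h3 h4 h5
    obtain ⟨m, hm⟩ := hUU β' γ' h1 h2 (by rw [h3]; exact h4)
    refine ⟨m, fun n hn => (hm n hn).trans ?_⟩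
    refine mul_le_mul_of_nonneg_left (Real.exp_le_exp.mpr (neg_le_neg ?_)) (by positivity)
    rw [h3]
    refine mul_le_mul_of_nonneg_right ?_ (Nat.cast_nonneg _)
    calc (1 - e) * (Real.sqrt t - e) * S = (1 - e) * ((Real.sqrt t - e) * S) := by ring
      _ ≤ (1 - e) * SS (t * δ) := mul_le_mul_of_nonneg_left h5 (by linarith)
  have t1 : (1 - h) * δ ≤ δU := by
    have : (1 - h) * δ = δ - h * δ := by ring
    linarith
  have t2 : (1 + h) * δ ≤ δU := by
    have : (1 + h) * δ = δ + h * δ := by ring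
    linarith
  obtain ⟨m₁, hm₁⟩ := up (β - h * δ) γ (1 - h) (by linarith) (by linarith)
    (by rw [hδdef]; ring) t1 hSa
  obtain ⟨m₂, hm₂⟩ := up (β + h * δ) γ (1 + h) (by linarith) (by linarith)
    (by rw [hδdef]; ring) t2 hSb
  have hhγ : h * γ ≤ 1 / 4 * γ := mul_le_mul_of_nonneg_right hh1 (by linarith)
  have hhγ0 : 0 ≤ h * γ := mul_nonneg hh0.le (by linarith)
  obtain ⟨m₃, hm₃⟩ := up ((1 - h) * β) ((1 - h) * γ) (1 - h)
    (by
      have : (1 - h) * γ = γ - h * γ := by ring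
      linarith)
    (mul_lt_mul_of_pos_left hγβ (by linarith)) (by rw [hδdef]; ring) t1 hSa
  obtain ⟨m₄, hm₄⟩ := up ((1 + h) * β) ((1 + h) * γ) (1 + h)
    (by
      have : (1 + h) * γ = γ + h * γ := by ring
      linarith)
    (mul_lt_mul_of_pos_left hγβ (by linarith)) (by rw [hδdef]; ring) t2 hSb
  refine ⟨max (max (max n₀ m₁) (max m₂ m₃)) (max m₄ ⌈Real.log 2 / (ε ^ 2 / 8 * S)⌉₊),
    fun n hn => ?_⟩
  have hn1 : n₀ ≤ n := by omega
  have hn2 : m₁ ≤ n := by omega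
  have hn3 : m₂ ≤ n := by omega
  have hn4 : m₃ ≤ n := by omega
  have hn5 : m₄ ≤ n := by omega
  have hn6 : ⌈Real.log 2 / (ε ^ 2 / 8 * S)⌉₊ ≤ n := by omega
  have hlog : Real.log 2 ≤ ε ^ 2 / 8 * S * n := by
    have h3 : Real.log 2 / (ε ^ 2 / 8 * S) ≤ n := (Nat.le_ceil _).trans (by exact_mod_cast hn6)
    rw [div_le_iff₀ (by positivity)] at h3
    linarith
  have hM : (0 : ℝ) < (2 * d) ^ n := by
    have : (0 : ℝ) < d := by exact_mod_cast hd
    positivity
  have hn0' : (0 : ℝ) ≤ n := Nat.cast_nonneg _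
  have hmon : ε * S * n ≤ ε₀ * S * n := by gcongr
  constructor
  · refine le_trans (prob_mono hd β γ (fun s hs => hmon.trans hs)) ?_
    exact tails hd (β₁ := β - h * δ) (γ₁ := γ) (β₂ := β + h * δ) (γ₂ := γ)
      (fun s => δ * ∑' x, (localTime s x : ℝ) ^ 2) hS0 hh0.le hM
      (fun s => by unfold energy; exact le_of_eq (by ring))
      (fun s => by unfold energy; exact le_of_eq (by ring))
      (hm₁ n hn2) (hm₂ n hn3) (hn₀ n hn1) c1 c2 hlog
  · refine le_trans (prob_mono hd β γ (fun s hs => hmon.trans hs)) ?_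
    exact tails hd (β₁ := (1 - h) * β) (γ₁ := (1 - h) * γ) (β₂ := (1 + h) * β)
      (γ₂ := (1 + h) * γ) (fun s => energy β γ s) hS0 hh0.le hM
      (fun s => by unfold energy; exact le_of_eq (by ring))
      (fun s => by unfold energy; exact le_of_eq (by ring))
      (hm₃ n hn4) (hm₄ n hn5) (hn₀ n hn1) c1 c2 hlog

end Pool.Agent.DFE
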