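import Pool.Agent.Lib.DFE.Defs4

/-!
# VLO, VLT: the number of the visited sites from below
-/

set_option autoImplicit false

namespace Pool.Agent.DFE

open Finset Pool.Agent.DCOL

namespace VLTAux

theorem localTime_eq_zero {d n : ℕ} (s : Fin n → Step d) {x : Site d} (hx : x ∉ visited s) :
    localTime s x = 0 := by
  unfold localTime
  rw [card_eq_zero, filter_eq_empty_iff]
  intro i hi h
  exact hx (mem_image.mpr ⟨i, hi, h⟩)

theorem tsum_sq {d n : ℕ} (s : Fin n → Step d) :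
    ∑' x, (localTime s x : ℝ) ^ 2 = ∑ x ∈ visited s, (localTime s x : ℝ) ^ 2 := by
  apply tsum_eq_sum
  intro x hx
  rw [localTime_eq_zero s hx]
  simp

theorem sum_localTime {d n : ℕ} (s : Fin n → Step d) :
    ∑ x ∈ visited s, (localTime s x : ℝ) = n + 1 := by
  have h := card_eq_sum_card_fiberwise (f := pos s) (s := range (n + 1)) (t := visited s)
    (fun i hi => mem_image_of_mem _ hi)
  rw [card_range] at h
  unfold localTime
  exact_mod_cast h.symm

open Classical in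
theorem prob_mono {d n : ℕ} {β γ : ℝ} {A B : (Fin n → Step d) → Prop} (h : ∀ s, A s → B s) :
    prob d β γ n A ≤ prob d β γ n B := by
  unfold prob
  apply div_le_div_of_nonneg_right
  · apply sum_le_sum_of_subset_of_nonneg
    · intro s hs
      rw [mem_filter] at hs ⊢
      exact ⟨hs.1, h s hs.2⟩
    · intro s _ _
      exact (Real.exp_pos _).le
  · exact sum_nonneg fun s _ => (Real.exp_pos _).le

end VLTAux

open VLTAux

/-- VLO. -/
theorem vlo : VLO_stmt := by
  intro d n _ s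
  rw [tsum_sq, ← sum_localTime s]
  exact sq_sum_le_card_mul_sum_sq

/-- VLT. -/
theorem vlt (hT : TAIL_stmt) : VLT_stmt := by
  intro d hd β ε hβ hε
  obtain ⟨δ₀, c, hδ₀, hc, h⟩ := hT d hd β (ε / 4) hβ (by positivity)
  refine ⟨min δ₀ (1 / 2), c, lt_min hδ₀ (by norm_num), hc, fun γ hγ hγ1 => ?_⟩
  obtain ⟨n₀, h0⟩ := h γ hγ (hγ1.trans (min_le_left _ _))
  refine ⟨n₀, fun n hn => ?_⟩
  refine (prob_mono ?_).trans (h0 n hn).1
  intro s hs
  have hδ2 : β - γ ≤ 1 / 2 := hγ1.trans (min_le_right _ _)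
  have hδ : 0 < β - γ := sub_pos.mpr hγ
  set δ : ℝ := β - γ with hδdef
  have hS : 0 < SS δ := by
    apply Real.sqrt_pos.mpr
    apply mul_pos hδ
    apply Real.log_pos
    rw [lt_div_iff₀ hδ]
    linarith
  have hv := vlo d n hd s
  set V : ℝ := ((visited s).card : ℝ) with hV
  set Q : ℝ := ∑' x, (localTime s x : ℝ) ^ 2 with hQ
  have hn0 : (0 : ℝ) ≤ n := Nat.cast_nonneg _
  have hQ0 : 0 ≤ Q := tsum_nonneg fun x => sq_nonneg _
  have hV0 : 0 ≤ V := Nat.cast_nonneg _
  have hVpos : 0 < V := by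
    rcases hV0.eq_or_lt with h1 | h1
    · rw [← h1, zero_mul] at hv
      nlinarith
    · exact h1
  have hr : (2 - ε) * δ / SS δ * n = (2 - ε) * (δ / SS δ * n) := by ring
  rw [hr] at hs
  have hδS : 0 < δ / SS δ := div_pos hδ hS
  have hX0 : 0 ≤ δ / SS δ * n := mul_nonneg hδS.le hn0
  have h2ε : 0 < 2 - ε := by
    by_contra hcon
    push Not at hcon
    nlinarith
  have hnpos : (0 : ℝ) < n := by
    rcases hn0.eq_or_lt with h1 | h1
    · rw [← h1, mul_zero, mul_zero] at hs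
      linarith
    · exact h1
  have h1 : (n : ℝ) ^ 2 ≤ (2 - ε) * (δ / SS δ * n) * Q := by
    have h2 : (n : ℝ) ^ 2 ≤ ((n : ℝ) + 1) ^ 2 := by nlinarith
    exact h2.trans (hv.trans (mul_le_mul_of_nonneg_right hs hQ0))
  have h2 : (n : ℝ) ≤ (2 - ε) * (δ / SS δ) * Q := by
    have h3 : (n : ℝ) * n ≤ n * ((2 - ε) * (δ / SS δ) * Q) := by
      calc (n : ℝ) * n = (n : ℝ) ^ 2 := by ring
        _ ≤ _ := h1
        _ = _ := by ring
    exact le_of_mul_le_mul_left h3 hnpos
  have h3 : SS δ * n ≤ (2 - ε) * (δ * Q) := by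
    have h4 := mul_le_mul_of_nonneg_left h2 hS.le
    calc SS δ * n ≤ SS δ * ((2 - ε) * (δ / SS δ) * Q) := h4
      _ = (2 - ε) * (δ * Q) := by
          field_simp
  have hSn : 0 ≤ SS δ * n := mul_nonneg hS.le hn0
  have h4 : (1 / 2 + ε / 4) * (SS δ * n) ≤ δ * Q := by
    have h5 : (2 - ε) * ((1 / 2 + ε / 4) * (SS δ * n)) ≤ (2 - ε) * (δ * Q) := by
      refine le_trans ?_ h3
      have h6 : (2 - ε) * ((1 / 2 + ε / 4) * (SS δ * n))
          = SS δ * n - ε ^ 2 / 4 * (SS δ * n) := by ring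
      rw [h6]
      have h7 : 0 ≤ ε ^ 2 / 4 * (SS δ * n) := by positivity
      linarith
    exact le_of_mul_le_mul_left h5 h2ε
  refine le_trans ?_ (le_abs_self _)
  linarith

end Pool.Agent.DFE
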