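import Pool.Agent.Lib.DFE.Defs7
import Pool.Agent.Lib.DFE.TAIL
import Pool.Agent.Lib.DFE.VLT
import Pool.Agent.Lib.DFE.ENB

/-!
Rows CONH and CONL: the energy from above and the number of the visited sites from below.
-/

set_option autoImplicit false

namespace Pool.Agent.DFE

open Finset Pool.Agent.DCOL TAILAux

namespace CONAux

variable {d : ℕ}

theorem Zw_le (hd : 0 < d) {β γ : ℝ} (hγ : 0 ≤ γ) (hβ : γ ≤ β) (n : ℕ) :
    Zw d β γ n ≤ (2 * d) ^ n := by
  unfold Zw
  calc ∑ w ∈ allw d n, Real.exp (-En β γ (loc w)) ≤ ∑ _w ∈ allw d n, (1 : ℝ) := by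
        refine Finset.sum_le_sum fun w _ => ?_
        rw [Real.exp_le_one_iff]
        linarith [En_nonneg hd hγ hβ (fs_loc w)]
    _ = (2 * d) ^ n := by
        rw [Finset.sum_const, card_allw, nsmul_eq_mul, mul_one]
        push_cast
        rfl

theorem MM_pos (d : ℕ) (δ : ℝ) {n : ℕ} (hn : 2 ≤ n) : 0 < MM d δ n := by
  unfold MM
  refine lt_max_of_lt_right ?_
  have h1 : (1 : ℝ) < n := by exact_mod_cast hn
  have h2 : 0 < Real.log n := Real.log_pos h1
  positivity

end CONAux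

open CONAux

/-- **CONH.** -/
theorem conh (hL : ZLO_stmt) : CONH_stmt := by
  intro d hd β hβ
  obtain ⟨C, δ₀, n₀, hC, hδ₀, h⟩ := hL d hd β hβ
  refine ⟨2 * (C + 1), min δ₀ β, n₀, by positivity, lt_min hδ₀ hβ, fun γ hγ hγβ n hn => ?_⟩
  have h1 := h γ (by linarith [min_le_left δ₀ β]) hγβ n hn
  have hγ0 : 0 ≤ γ := by linarith [min_le_right δ₀ β]
  set M := MM d (β - γ) n with hM
  have hd0 : (0 : ℝ) < d := by exact_mod_cast hd
  have hw := weight_le (β := β) (γ := γ) (β' := β / 2) (γ' := γ / 2) (a := (C + 1) * M)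
    (fun s : Fin n → Step d => 2 * (C + 1) * M ≤ energy β γ s) (by
      intro s hs
      have h2 : energy (β / 2) (γ / 2) s = energy β γ s / 2 := by
        have h3 := En_scale (β := β / 2) (γ := γ / 2) (θ := 1 / 2) (by norm_num)
          (loc (List.ofFn s))
        rw [energy_eq, energy_eq, h3]
        have e1 : β / 2 / (1 / 2) = β := by ring
        have e2 : γ / 2 / (1 / 2) = γ := by ring
        rw [e1, e2]
        ring
      rw [h2]
      linarith)
  unfold prob
  rw [partition_eq, div_le_iff₀ (Zw_pos hd β γ n)]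
  refine hw.trans ?_
  calc Real.exp (-((C + 1) * M)) * Zw d (β / 2) (γ / 2) n
      ≤ Real.exp (-((C + 1) * M)) * (2 * d) ^ n :=
        mul_le_mul_of_nonneg_left (Zw_le hd (by linarith) (by linarith) n) (Real.exp_pos _).le
    _ = Real.exp (-M) * ((2 * d) ^ n * Real.exp (-(C * M))) := by
        rw [mul_left_comm, ← Real.exp_add, mul_comm]
        congr 2
        ring
    _ ≤ _ := mul_le_mul_of_nonneg_left h1 (Real.exp_pos _).le

/-- **CONL.** -/
theorem conl (hH : CONH_stmt) (hF : FKI_stmt) : CONL_stmt := by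
  classical
  intro d hd β hβ
  obtain ⟨C, δ₀, n₀, hC, hδ₀, h⟩ := hH d hd β hβ
  obtain ⟨C₁, hC₁, hfk⟩ := hF d hd
  have hd0 : (0 : ℝ) < d := by exact_mod_cast hd
  set C₂ : ℝ := C₁ * (8 * d * C / β) ^ d with hC₂
  have hC₂0 : 0 < C₂ := by positivity
  set c : ℝ := min 1 (min (1 / (2 * C)) (1 / (2 * C₂))) with hc
  have hc0 : 0 < c := by positivity
  have hc1 : c ≤ 1 := min_le_left _ _
  have hcC : c * C ≤ 1 / 2 := by
    have h1 : c ≤ 1 / (2 * C) := (min_le_right _ _).trans (min_le_left _ _)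
    rw [le_div_iff₀ (by positivity)] at h1
    linarith
  have hcC₂ : c * C₂ ≤ 1 / 2 := by
    have h1 : c ≤ 1 / (2 * C₂) := (min_le_right _ _).trans (min_le_right _ _)
    rw [le_div_iff₀ (by positivity)] at h1
    linarith
  refine ⟨c, min δ₀ (β / 2), max n₀ 2, hc0, lt_min hδ₀ (by positivity), fun γ hγ hγβ n hn => ?_⟩
  have e1 : min δ₀ (β / 2) ≤ δ₀ := min_le_left _ _
  have e2 : min δ₀ (β / 2) ≤ β / 2 := min_le_right _ _
  have hγ2 : β / 2 ≤ γ := by linarith
  have hγ0 : 0 < γ := by linarith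
  have hn2 : 2 ≤ n := (le_max_right _ _).trans hn
  have hn0 : (0 : ℝ) < n := by
    have : 0 < n := by omega
    exact_mod_cast this
  refine le_trans (prob_mono hd β γ fun s hs => ?_)
    (h γ (by linarith) hγβ n ((le_max_left _ _).trans hn))
  by_contra hE
  rw [not_le] at hE
  have hM : 0 < MM d (β - γ) n := MM_pos d (β - γ) hn2
  set M : ℝ := MM d (β - γ) n with hMdef
  set f : Site d →₀ ℕ := fld (List.ofFn s) with hf
  have hfs : f.support = visited s := by rw [hf, fld_support, visited_eq]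
  have hEn : En β γ (fun x => (f x : ℝ)) = energy β γ s := by
    rw [energy_eq]
    congr 1
    funext x
    rw [loc_eq]
    rfl
  have hge : ∀ E : Finset (Site d), (β - γ) * ∑ x ∈ f.support, (f x : ℝ) ^ 2 +
      γ / (4 * d) * ∑ x ∈ E, ∑ t : Step d, ((f (x + vec t) : ℝ) - f x) ^ 2 ≤ C * M := by
    intro E
    have h1 := ENBAux.En_ge_all hd (β := β) hγ0.le f E
    rw [hEn] at h1
    exact h1.trans hE.le
  have hsum : ∑ x ∈ f.support, (f x : ℝ) = n + 1 := by
    have h1 := ENBAux.sum_locN (List.ofFn s)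
    rw [List.length_ofFn] at h1
    rw [hf, fld_support]
    exact_mod_cast h1
  have hV1 : 0 < ((visited s).card : ℝ) := by
    rw [← hfs]
    have : f.support.Nonempty := by
      rw [Finset.nonempty_iff_ne_empty]
      intro h0
      rw [h0, Finset.sum_empty] at hsum
      linarith
    exact_mod_cast Finset.card_pos.mpr this
  set V : ℝ := ((visited s).card : ℝ) with hV
  have hVM : 0 < V * M := mul_pos hV1 hM
  have hδ : 0 ≤ β - γ := by linarith
  rcases le_max_iff.mp (show V / c ≤ max ((β - γ) * n ^ 2 / M)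
      (((n : ℝ) ^ 2 / M) ^ ((d : ℝ) / (d + 2))) by rw [div_le_iff₀ hc0]; linarith) with h1 | h1
  · -- the first bound
    have h2 := hge ∅
    rw [Finset.sum_empty, mul_zero, add_zero] at h2
    have h3 : ((n : ℝ) + 1) ^ 2 ≤ V * ∑ x ∈ f.support, (f x : ℝ) ^ 2 := by
      rw [← hsum, hV, ← hfs]
      exact sq_sum_le_card_mul_sum_sq
    have h4 : (β - γ) * (n : ℝ) ^ 2 ≤ C * (V * M) := by
      calc (β - γ) * (n : ℝ) ^ 2 ≤ (β - γ) * ((n : ℝ) + 1) ^ 2 := by gcongr; linarith
        _ ≤ (β - γ) * (V * ∑ x ∈ f.support, (f x : ℝ) ^ 2) := mul_le_mul_of_nonneg_left h3 hδ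
        _ = V * ((β - γ) * ∑ x ∈ f.support, (f x : ℝ) ^ 2) := by ring
        _ ≤ V * (C * M) := mul_le_mul_of_nonneg_left h2 hV1.le
        _ = _ := by ring
    rw [div_le_div_iff₀ hc0 hM] at h1
    have h5 : (β - γ) * (n : ℝ) ^ 2 * c ≤ 1 / 2 * (V * M) := by
      calc (β - γ) * (n : ℝ) ^ 2 * c ≤ C * (V * M) * c := mul_le_mul_of_nonneg_right h4 hc0.le
        _ = c * C * (V * M) := by ring
        _ ≤ _ := mul_le_mul_of_nonneg_right hcC hVM.le
    linarith
  · -- the second bound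
    have hG : ∀ E : Finset (Site d),
        ∑ x ∈ E, ∑ t : Step d, ((f (x + vec t) : ℝ) - f x) ^ 2 ≤ 8 * d * C / β * M := by
      intro E
      have h2 := hge E
      have h3 : 0 ≤ (β - γ) * ∑ x ∈ f.support, (f x : ℝ) ^ 2 :=
        mul_nonneg hδ (Finset.sum_nonneg fun x _ => sq_nonneg _)
      have h4 : 0 ≤ ∑ x ∈ E, ∑ t : Step d, ((f (x + vec t) : ℝ) - f x) ^ 2 :=
        Finset.sum_nonneg fun x _ => Finset.sum_nonneg fun t _ => sq_nonneg _
      set Q₀ : ℝ := ∑ x ∈ E, ∑ t : Step d, ((f (x + vec t) : ℝ) - f x) ^ 2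
      have h6 : β / (8 * d) * Q₀ ≤ γ / (4 * d) * Q₀ := by
        refine mul_le_mul_of_nonneg_right ?_ h4
        rw [div_le_div_iff₀ (by positivity) (by positivity)]
        nlinarith
      have h7 : β / (8 * d) * Q₀ ≤ C * M := by linarith
      have h8 : Q₀ = 8 * d / β * (β / (8 * d) * Q₀) := by field_simp
      rw [h8]
      calc 8 * d / β * (β / (8 * d) * Q₀) ≤ 8 * d / β * (C * M) :=
            mul_le_mul_of_nonneg_left h7 (by positivity)
        _ = _ := by ring
    have h2 := hfk f 0 (8 * d * C / β * M) hG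
    have h3 : (f.support.filter fun x => 0 < f x) = f.support := by
      refine Finset.filter_true_of_mem fun x hx => ?_
      exact Nat.pos_of_ne_zero (Finsupp.mem_support_iff.mp hx)
    rw [h3] at h2
    have h4 : ∑ x ∈ f.support, ((f x : ℝ) - ((0 : ℕ) : ℝ)) = n + 1 := by
      rw [← hsum]
      refine Finset.sum_congr rfl fun x _ => ?_
      rw [Nat.cast_zero, sub_zero]
    rw [h4, hfs, ← hV, mul_pow (8 * d * C / β) M d] at h2
    have h5 : ((n : ℝ) ^ 2 / M) ^ d ≤ C₂ * V ^ (d + 2) := by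
      rw [div_pow, div_le_iff₀ (by positivity)]
      calc ((n : ℝ) ^ 2) ^ d = (n : ℝ) ^ (2 * d) := (pow_mul _ _ _).symm
        _ ≤ ((n : ℝ) + 1) ^ (2 * d) := by gcongr; linarith
        _ ≤ _ := h2
        _ = _ := by rw [hC₂]; ring
    set y : ℝ := ((n : ℝ) ^ 2 / M) ^ ((d : ℝ) / (d + 2)) with hy
    have hy0 : 0 ≤ y := by positivity
    have hyp : y ^ (d + 2) = ((n : ℝ) ^ 2 / M) ^ d := by
      rw [hy, ← Real.rpow_natCast, ← Real.rpow_mul (by positivity), ← Real.rpow_natCast _ d]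
      congr 1
      push_cast
      field_simp
    have h6 : V ≤ c * y := by
      rw [div_le_iff₀ hc0] at h1
      linarith
    have h7 : V ^ (d + 2) ≤ c * (C₂ * V ^ (d + 2)) := by
      calc V ^ (d + 2) ≤ (c * y) ^ (d + 2) := pow_le_pow_left₀ hV1.le h6 _
        _ = c ^ (d + 2) * ((n : ℝ) ^ 2 / M) ^ d := by rw [mul_pow, hyp]
        _ ≤ c ^ 1 * (C₂ * V ^ (d + 2)) := by
            refine mul_le_mul ?_ h5 (by positivity) (by positivity)
            exact pow_le_pow_of_le_one hc0.le hc1 (by omega)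
        _ = _ := by rw [pow_one]
    have h8 : 0 < V ^ (d + 2) := by positivity
    have h9 : c * (C₂ * V ^ (d + 2)) ≤ 1 / 2 * V ^ (d + 2) := by
      rw [← mul_assoc]
      exact mul_le_mul_of_nonneg_right hcC₂ h8.le
    linarith

end Pool.Agent.DFE
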