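import Pool.Agent.Lib.DFE.Defs4

/-!
Row VIST: the number of the visited sites is at most `C S n`, and the mean square displacement at
most `C² S² n²`.
-/

set_option autoImplicit false

namespace Pool.Agent.DFE

open Finset Pool.Agent.DCOL

namespace VISTAux

theorem decay {S C : ℝ} (hS : 0 < S) (hC : 0 < C) : ∃ n₀ : ℕ, ∀ n : ℕ, n₀ ≤ n →
    1 ≤ n ∧ C * ((n : ℝ) + 1) ^ 4 * Real.exp (-(S * n)) ≤ min (S ^ 2) 1 := by
  have h1 : Filter.Tendsto (fun n : ℕ => S * ((n : ℝ) + 1)) Filter.atTop Filter.atTop :=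
    (Filter.tendsto_atTop_add_const_right _ _ tendsto_natCast_atTop_atTop).const_mul_atTop hS
  have h2 := (Real.tendsto_pow_mul_exp_neg_atTop_nhds_zero 4).comp h1
  have h0 : 0 < min (S ^ 2) 1 := lt_min (by positivity) one_pos
  have h3 : 0 < min (S ^ 2) 1 / (C * (Real.exp S / S ^ 4)) := by positivity
  obtain ⟨n₀, hn₀⟩ := Filter.eventually_atTop.mp (h2.eventually (gt_mem_nhds h3))
  refine ⟨max n₀ 1, fun n hn => ⟨le_trans (le_max_right _ _) hn, ?_⟩⟩
  have h4 := hn₀ n (le_trans (le_max_left _ _) hn)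
  simp only [Function.comp] at h4
  rw [lt_div_iff₀ (by positivity)] at h4
  refine le_trans (le_of_eq ?_) h4.le
  rw [mul_pow, show -(S * ((n : ℝ) + 1)) = -(S * n) - S by ring, Real.exp_sub]
  field_simp

theorem Z_pos {d : ℕ} (β γ : ℝ) {n : ℕ} (hd : 0 < d) : 0 < partitionFunction d β γ n := by
  have : Nonempty (Step d) := ⟨(⟨0, hd⟩, true)⟩
  exact Finset.sum_pos (fun s _ => Real.exp_pos _) Finset.univ_nonempty

/-- Markov. -/
theorem markov {d n : ℕ} {β γ c K M : ℝ} (hd : 0 < d) (hc : 0 ≤ c)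
    (h : ∑ w ∈ allw d n, Real.exp (c * ((vis 0 w).card : ℝ) - En β γ (loc w)) ≤ M) :
    prob d β γ n (fun s => K ≤ ((visited s).card : ℝ)) ≤
      Real.exp (-(c * K)) * M / partitionFunction d β γ n := by
  classical
  unfold prob
  refine div_le_div_of_nonneg_right ?_ (Z_pos β γ hd).le
  calc ∑ s with K ≤ ((visited s).card : ℝ), Real.exp (-energy β γ s) ≤
      ∑ s : Fin n → Step d, Real.exp (-(c * K)) *
        Real.exp (c * ((vis 0 (List.ofFn s)).card : ℝ) - En β γ (loc (List.ofFn s))) := by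
        refine le_trans (Finset.sum_le_sum (g := fun s => Real.exp (-(c * K)) *
          Real.exp (c * ((vis 0 (List.ofFn s)).card : ℝ) - En β γ (loc (List.ofFn s))))
          fun s hs => ?_) (Finset.sum_le_sum_of_subset_of_nonneg (Finset.filter_subset _ _)
          fun s _ _ => by positivity)
        have h1 := (Finset.mem_filter.mp hs).2
        rw [← Real.exp_add, energy_eq]
        refine Real.exp_le_exp.mpr ?_
        rw [visited_eq] at h1
        have := mul_le_mul_of_nonneg_left h1 hc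
        linarith
    _ = Real.exp (-(c * K)) * ∑ w ∈ allw d n,
        Real.exp (c * ((vis 0 w).card : ℝ) - En β γ (loc w)) := by
        rw [← Finset.mul_sum, sum_words fun w =>
          Real.exp (c * ((vis 0 w).card : ℝ) - En β γ (loc w))]
    _ ≤ _ := mul_le_mul_of_nonneg_left h (Real.exp_pos _).le

theorem sq_pos_le {d n : ℕ} (s : Fin n → Step d) :
    ∑ i, (pos s n i : ℝ) ^ 2 ≤ ((visited s).card : ℝ) ^ 2 := by
  refine (sq_le_norm1 _).trans ?_
  have h := norm1_lt_card (List.ofFn s)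
  rw [← pos_end, ← visited_eq] at h
  have h2 : norm1 (pos s n) ≤ (visited s).card := by omega
  have h3 : (norm1 (pos s n) : ℝ) ≤ ((visited s).card : ℝ) := by exact_mod_cast h2
  exact pow_le_pow_left₀ (Nat.cast_nonneg _) h3 2

theorem card_visited_le {d n : ℕ} (s : Fin n → Step d) : ((visited s).card : ℝ) ≤ n + 1 := by
  rw [visited_eq]
  have := card_vis_le 0 (List.ofFn s)
  rw [List.length_ofFn] at this
  exact_mod_cast this

theorem mean_le {d n : ℕ} {β γ K : ℝ} (hd : 0 < d) :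
    meanSquare d β γ n ≤ ((n : ℝ) + 1) ^ 2 *
      prob d β γ n (fun s => K ≤ ((visited s).card : ℝ)) + K ^ 2 := by
  classical
  have hZ := Z_pos β γ (n := n) hd
  unfold meanSquare prob
  rw [mul_div_assoc', div_add' _ _ _ hZ.ne']
  refine div_le_div_of_nonneg_right ?_ hZ.le
  rw [partitionFunction, Finset.mul_sum, Finset.mul_sum, Finset.sum_filter,
    ← Finset.sum_add_distrib]
  refine Finset.sum_le_sum fun s _ => ?_
  have h1 := sq_pos_le s
  have h2 : (0 : ℝ) ≤ ((visited s).card : ℝ) := Nat.cast_nonneg _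
  have hE := Real.exp_pos (-energy β γ s)
  split_ifs with h
  · have h3 := pow_le_pow_left₀ h2 (card_visited_le s) 2
    nlinarith [mul_le_mul_of_nonneg_right (h1.trans h3) hE.le,
      mul_nonneg (sq_nonneg K) hE.le]
  · push Not at h
    have h3 := pow_le_pow_left₀ h2 h.le 2
    rw [zero_add]
    exact mul_le_mul_of_nonneg_right (h1.trans h3) hE.le

theorem prob_mono {d n : ℕ} {β γ : ℝ} (hd : 0 < d) {A B : (Fin n → Step d) → Prop}
    (h : ∀ s, A s → B s) : prob d β γ n A ≤ prob d β γ n B := by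
  classical
  unfold prob
  refine div_le_div_of_nonneg_right ?_ (Z_pos β γ hd).le
  exact Finset.sum_le_sum_of_subset_of_nonneg
    (fun s hs => Finset.mem_filter.mpr ⟨(Finset.mem_filter.mp hs).1,
      h s (Finset.mem_filter.mp hs).2⟩) fun s _ _ => (Real.exp_pos _).le

end VISTAux

open VISTAux

/-- VIST. -/
theorem vist : VISW_stmt → LOWF_stmt → SSN_stmt → VIST_stmt := by
  intro hV hL hSN d hd β hβ
  obtain ⟨c, C, hc, hC, hV⟩ := hV d hd (β / 2) (by linarith)
  obtain ⟨δ₁, hδ₁, hL⟩ := hL d hd β 1 hβ one_pos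
  obtain ⟨δ₂, hδ₂, _, hSN⟩ := hSN 1 1 one_pos one_pos
  refine ⟨4 / c + 1, min (min δ₁ δ₂) (β / 2), by positivity, by positivity, ?_⟩
  intro γ hγ hδ
  have e1 : β - γ ≤ δ₁ := hδ.trans ((min_le_left _ _).trans (min_le_left _ _))
  have e2 : β - γ ≤ δ₂ := hδ.trans ((min_le_left _ _).trans (min_le_right _ _))
  have e3 : β - γ ≤ β / 2 := hδ.trans (min_le_right _ _)
  have hS : 0 < SS (β - γ) := (hSN (β - γ) (by linarith) e2).1
  set S := SS (β - γ) with hSdef
  obtain ⟨n₁, hL⟩ := hL γ (by linarith) hγ e1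
  obtain ⟨n₂, hn₂⟩ := decay hS hC
  refine ⟨max n₁ n₂, fun n hn => ?_⟩
  have hLn := hL n (le_trans (le_max_left _ _) hn)
  obtain ⟨hn1, hdec⟩ := hn₂ n (le_trans (le_max_right _ _) hn)
  have hn1' : (1 : ℝ) ≤ n := by exact_mod_cast hn1
  have hd0 : (0 : ℝ) < d := by exact_mod_cast hd
  have hZ := Z_pos β γ (n := n) hd
  rw [← partition_eq] at hLn
  -- the probability
  have hp := markov (K := 4 / c * (S * n)) hd hc.le (hV β γ (by linarith) hγ n)
  have hp2 : prob d β γ n (fun s => 4 / c * (S * n) ≤ ((visited s).card : ℝ)) ≤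
      C * ((n : ℝ) + 1) ^ 2 * Real.exp (-(S * n)) * Real.exp (-(S * n)) := by
    refine hp.trans ?_
    rw [div_le_iff₀ hZ]
    have h1 : c * (4 / c * (S * n)) = 4 * (S * n) := by field_simp
    rw [h1]
    have h2 : Real.exp (-(4 * (S * n))) = Real.exp (-(S * n)) * Real.exp (-(S * n)) *
        Real.exp (-((1 + 1) * S * n)) := by
      rw [← Real.exp_add, ← Real.exp_add]; congr 1; ring
    rw [h2]
    calc Real.exp (-(S * n)) * Real.exp (-(S * n)) * Real.exp (-((1 + 1) * S * n)) *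
        ((2 * d) ^ n * (C * ((n : ℝ) + 1) ^ 2)) =
        C * ((n : ℝ) + 1) ^ 2 * Real.exp (-(S * n)) * Real.exp (-(S * n)) *
          ((2 * d) ^ n * Real.exp (-((1 + 1) * S * n))) := by ring
      _ ≤ _ := mul_le_mul_of_nonneg_left hLn (by positivity)
  have hexp1 : Real.exp (-(S * n)) ≤ 1 := by
    rw [Real.exp_le_one_iff]
    have : 0 ≤ S * n := by positivity
    linarith
  have hSn : 0 ≤ S * n := by positivity
  have hn2 : (1 : ℝ) ≤ ((n : ℝ) + 1) ^ 2 := by nlinarith
  constructor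
  · refine (prob_mono hd (fun s hs => ?_)).trans (hp2.trans ?_)
    · refine le_trans ?_ hs
      have : (4 / c + 1) * S * n = 4 / c * (S * n) + S * n := by ring
      linarith
    · have h1 : C * ((n : ℝ) + 1) ^ 2 * Real.exp (-(S * n)) ≤ 1 := by
        refine le_trans ?_ (hdec.trans (min_le_right _ _))
        refine mul_le_mul_of_nonneg_right (mul_le_mul_of_nonneg_left ?_ hC.le)
          (Real.exp_pos _).le
        nlinarith
      calc _ ≤ 1 * Real.exp (-(S * n)) := mul_le_mul_of_nonneg_right h1 (Real.exp_pos _).le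
        _ = _ := by rw [one_mul]
  · refine (mean_le (K := 4 / c * (S * n)) hd).trans ?_
    have h1 : ((n : ℝ) + 1) ^ 2 *
        prob d β γ n (fun s => 4 / c * (S * n) ≤ ((visited s).card : ℝ)) ≤ S ^ 2 := by
      calc _ ≤ ((n : ℝ) + 1) ^ 2 *
          (C * ((n : ℝ) + 1) ^ 2 * Real.exp (-(S * n)) * Real.exp (-(S * n))) :=
            mul_le_mul_of_nonneg_left hp2 (by positivity)
        _ = (C * ((n : ℝ) + 1) ^ 4 * Real.exp (-(S * n))) * Real.exp (-(S * n)) := by ring
        _ ≤ (C * ((n : ℝ) + 1) ^ 4 * Real.exp (-(S * n))) * 1 :=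
            mul_le_mul_of_nonneg_left hexp1 (by positivity)
        _ ≤ _ := by rw [mul_one]; exact hdec.trans (min_le_left _ _)
    have h2 : (4 / c + 1) ^ 2 * S ^ 2 * (n : ℝ) ^ 2 =
        (4 / c * (S * n)) ^ 2 + (2 * (4 / c) * (S * n) ^ 2 + S ^ 2 * (n : ℝ) ^ 2) := by ring
    rw [h2]
    have h3 : S ^ 2 ≤ S ^ 2 * (n : ℝ) ^ 2 := by
      have : (1 : ℝ) ≤ (n : ℝ) ^ 2 := by nlinarith
      nlinarith [sq_nonneg S]
    have h4 : 0 ≤ 2 * (4 / c) * (S * n) ^ 2 := by positivity
    linarith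

end Pool.Agent.DFE
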