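import Pool.Agent.Lib.DFE.Defs7
import Pool.Agent.Lib.DFE.VIST

/-!
Row CONV: the number of the visited sites is at most `C M`, and the mean square displacement at
most `C² M²`, uniformly up to the critical line.
-/

set_option autoImplicit false

namespace Pool.Agent.DFE

open Finset Pool.Agent.DCOL VISTAux

namespace CONVAux

theorem MM_ge {d : ℕ} (hd : 0 < d) (δ : ℝ) {n : ℕ} (hn : 3 ≤ n) :
    Real.sqrt n ≤ MM d δ n := by
  have h1 : (1 : ℝ) ≤ n := by exact_mod_cast (by omega : 1 ≤ n)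
  have h3 : (3 : ℝ) ≤ n := by exact_mod_cast hn
  have hlog : 1 ≤ Real.log n := by
    rw [Real.le_log_iff_exp_le (by linarith)]
    exact le_trans Real.exp_one_lt_d9.le (by linarith)
  have hd1 : (1 : ℝ) ≤ d := by exact_mod_cast hd
  refine le_trans ?_ (le_max_right _ _)
  have e1 : Real.sqrt n ≤ (n : ℝ) ^ ((d : ℝ) / (d + 1)) := by
    rw [Real.sqrt_eq_rpow]
    refine Real.rpow_le_rpow_of_exponent_le h1 ?_
    rw [div_le_div_iff₀ (by norm_num) (by linarith)]
    linarith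
  have e2 : (1 : ℝ) ≤ Real.log n ^ (((d : ℝ) + 2) / (2 * d + 2)) :=
    Real.one_le_rpow hlog (by positivity)
  calc Real.sqrt n ≤ (n : ℝ) ^ ((d : ℝ) / (d + 1)) := e1
    _ ≤ _ := le_mul_of_one_le_right (by positivity) e2

theorem poly_le (C : ℝ) (hC : 0 < C) : ∃ n₀ : ℕ, ∀ n : ℕ, n₀ ≤ n →
    C * ((n : ℝ) + 1) ^ 4 * Real.exp (-Real.sqrt n) ≤ 1 := by
  have h1 : Filter.Tendsto (fun n : ℕ => Real.sqrt ((n : ℝ))) Filter.atTop Filter.atTop :=
    Real.tendsto_sqrt_atTop.comp tendsto_natCast_atTop_atTop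
  have h2 := (Real.tendsto_pow_mul_exp_neg_atTop_nhds_zero 8).comp h1
  have h3 : 0 < 1 / (C * 16) := by positivity
  obtain ⟨n₀, hn₀⟩ := Filter.eventually_atTop.mp (h2.eventually (gt_mem_nhds h3))
  refine ⟨max n₀ 1, fun n hn => ?_⟩
  have h4 := hn₀ n (le_trans (le_max_left _ _) hn)
  simp only [Function.comp] at h4
  have hn1 : (1 : ℝ) ≤ n := by exact_mod_cast le_trans (le_max_right _ _) hn
  have h5 : Real.sqrt (n : ℝ) ^ 8 = (n : ℝ) ^ 4 := by
    rw [show 8 = 2 * 4 by norm_num, pow_mul, Real.sq_sqrt (by linarith)]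
  rw [h5, lt_div_iff₀ (by positivity)] at h4
  have h6 : ((n : ℝ) + 1) ^ 4 ≤ 16 * (n : ℝ) ^ 4 := by
    have : ((n : ℝ) + 1) ^ 4 ≤ (2 * (n : ℝ)) ^ 4 :=
      pow_le_pow_left₀ (by linarith) (by linarith) 4
    calc _ ≤ (2 * (n : ℝ)) ^ 4 := this
      _ = _ := by ring
  have h7 := mul_le_mul_of_nonneg_right (mul_le_mul_of_nonneg_left h6 hC.le)
    (Real.exp_pos (-Real.sqrt n)).le
  calc _ ≤ C * (16 * (n : ℝ) ^ 4) * Real.exp (-Real.sqrt n) := h7
    _ = (n : ℝ) ^ 4 * Real.exp (-Real.sqrt n) * (C * 16) := by ring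
    _ ≤ 1 := h4.le

end CONVAux

open CONVAux

/-- CONV. -/
theorem conv : VISC_stmt → ZLO_stmt → CONV_stmt := by
  intro hV hL d hd β hβ
  obtain ⟨c, C, hc, hC, hV⟩ := hV d hd (β / 2) (by linarith)
  obtain ⟨C₁, δ₁, n₁, hC₁, hδ₁, hL⟩ := hL d hd β hβ
  obtain ⟨n₂, hn₂⟩ := poly_le C hC
  refine ⟨(C₁ + 2) / c + 1, min δ₁ (β / 2), max n₁ (max n₂ 3), by positivity, by positivity, ?_⟩
  intro γ hγδ hγ n hn
  have e1 : β - δ₁ ≤ γ := by
    have := min_le_left δ₁ (β / 2); linarith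
  have e2 : β / 2 ≤ γ := by
    have := min_le_right δ₁ (β / 2); linarith
  have hLn := hL γ e1 hγ n (le_trans (le_max_left _ _) hn)
  have hdec := hn₂ n (le_trans (le_trans (le_max_left _ _) (le_max_right _ _)) hn)
  have hn3 : 3 ≤ n := le_trans (le_trans (le_max_right _ _) (le_max_right _ _)) hn
  have hMn := MM_ge hd (β - γ) hn3
  set M := MM d (β - γ) n with hMdef
  have hn1' : (1 : ℝ) ≤ n := by exact_mod_cast (by omega : 1 ≤ n)
  have hM1 : 1 ≤ M := le_trans (by rw [Real.one_le_sqrt]; exact hn1') hMn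
  have hd0 : (0 : ℝ) < d := by exact_mod_cast hd
  have hZ := Z_pos β γ (n := n) hd
  rw [← partition_eq] at hLn
  have hpow : (0 : ℝ) < (2 * d) ^ n := by positivity
  -- the probability
  have hp := markov (K := (C₁ + 2) / c * M) hd hc.le (hV β γ e2 hγ n)
  have hdec2 : C * ((n : ℝ) + 1) ^ 4 * Real.exp (-M) ≤ 1 := by
    refine le_trans (mul_le_mul_of_nonneg_left ?_ (by positivity)) hdec
    exact Real.exp_le_exp.mpr (by linarith)
  have hp2 : prob d β γ n (fun s => (C₁ + 2) / c * M ≤ ((visited s).card : ℝ)) ≤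
      C * ((n : ℝ) + 1) ^ 2 * Real.exp (-M) * Real.exp (-M) := by
    refine hp.trans ?_
    rw [div_le_iff₀ hZ]
    have h1 : c * ((C₁ + 2) / c * M) = (C₁ + 2) * M := by field_simp
    rw [h1]
    have h2 : Real.exp (-((C₁ + 2) * M)) = Real.exp (-M) * Real.exp (-M) *
        Real.exp (-(C₁ * M)) := by
      rw [← Real.exp_add, ← Real.exp_add]; congr 1; ring
    rw [h2]
    calc Real.exp (-M) * Real.exp (-M) * Real.exp (-(C₁ * M)) *
        ((2 * d) ^ n * (C * ((n : ℝ) + 1) ^ 2)) =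
        C * ((n : ℝ) + 1) ^ 2 * Real.exp (-M) * Real.exp (-M) *
          ((2 * d) ^ n * Real.exp (-(C₁ * M))) := by ring
      _ ≤ _ := mul_le_mul_of_nonneg_left hLn (by positivity)
  have hexp1 : Real.exp (-M) ≤ 1 := by
    rw [Real.exp_le_one_iff]
    linarith
  constructor
  · refine (prob_mono hd (fun s hs => ?_)).trans (hp2.trans ?_)
    · refine le_trans ?_ hs
      have : ((C₁ + 2) / c + 1) * M = (C₁ + 2) / c * M + M := by ring
      linarith
    · have h1 : C * ((n : ℝ) + 1) ^ 2 * Real.exp (-M) ≤ 1 := by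
        refine le_trans ?_ hdec2
        refine mul_le_mul_of_nonneg_right (mul_le_mul_of_nonneg_left ?_ hC.le)
          (Real.exp_pos _).le
        exact pow_le_pow_right₀ (by linarith) (by norm_num)
      calc _ ≤ 1 * Real.exp (-M) := mul_le_mul_of_nonneg_right h1 (Real.exp_pos _).le
        _ = _ := by rw [one_mul]
  · refine (mean_le (K := (C₁ + 2) / c * M) hd).trans ?_
    have h1 : ((n : ℝ) + 1) ^ 2 *
        prob d β γ n (fun s => (C₁ + 2) / c * M ≤ ((visited s).card : ℝ)) ≤ 1 := by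
      calc _ ≤ ((n : ℝ) + 1) ^ 2 *
          (C * ((n : ℝ) + 1) ^ 2 * Real.exp (-M) * Real.exp (-M)) :=
            mul_le_mul_of_nonneg_left hp2 (by positivity)
        _ = (C * ((n : ℝ) + 1) ^ 4 * Real.exp (-M)) * Real.exp (-M) := by ring
        _ ≤ (C * ((n : ℝ) + 1) ^ 4 * Real.exp (-M)) * 1 :=
            mul_le_mul_of_nonneg_left hexp1 (by positivity)
        _ ≤ _ := by rw [mul_one]; exact hdec2
    have h2 : (((C₁ + 2) / c + 1) * M) ^ 2 =
        ((C₁ + 2) / c * M) ^ 2 + (2 * ((C₁ + 2) / c) * M ^ 2 + M ^ 2) := by ring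
    rw [h2]
    have h3 : 1 ≤ M ^ 2 := by nlinarith
    have h4 : 0 ≤ 2 * ((C₁ + 2) / c) * M ^ 2 := by positivity
    linarith

end Pool.Agent.DFE
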