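import Pool.Agent.Lib.DFE.Defs2

/-!
# The number of the stacks of a component

For given stacks at the sites of `K` whose successor in the direction `i₀` is small, `card_stacks`
bounds the number of the stacks at the other sites.
-/

set_option autoImplicit false

namespace Pool.Agent.DFE

open Finset Pool.Agent.DCOL

/-- CST -/
theorem cst (hS : SET_stmt) : CST_stmt := by
  classical
  intro d T n i₀ e p K F Q hT hQ0 hQ S h1 hinj
  have hd : 0 < d := Fin.pos i₀
  have hnb : ∀ w ∈ S, ∀ x ∈ K, T ≤ F x → ∀ s : Step d, x + vec s ∈ K := by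
    intro w hw x hx hTx s
    obtain ⟨_, _, h3, h4, h5⟩ := h1 w hw
    have h6 := ((hS d T w p hd hT).2 h3).2.2.2.2.1
    rw [h4] at h6
    exact h6 x hx (by rw [h5 x hx]; exact hTx) s
  set o : Site d → ℕ := fun x => F x - if x = e then 1 else 0 with ho
  set E : Finset (Site d) := K.filter fun x => T ≤ F x ∧ T ≤ F (x + vec (i₀, true)) with hE
  set R : List (Step d) → Site d → List (Step d) := fun w x => if x ∈ K then stk 0 w x else []
    with hR
  have hRK : ∀ w x, x ∈ K → R w x = stk 0 w x := fun w x hx => if_pos hx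
  have hRn : ∀ w x, x ∉ K → R w x = [] := fun w x hx => if_neg hx
  have hRinj : Set.InjOn R (S : Set (List (Step d))) := by
    intro w hw w' hw' h
    refine hinj w hw w' hw' fun x hx => ?_
    rw [← hRK w x hx, ← hRK w' x hx, h]
  have hlen : ∀ w ∈ S, ∀ x ∈ K, (R w x).length = o x := by
    intro w hw x hx
    obtain ⟨_, h2, _, _, h5⟩ := h1 w hw
    have h6 := length_stk0 w x
    rw [h2, h5 x hx] at h6
    rw [hRK w x hx, ho]
    simp only
    omega
  have hinn : ∀ w ∈ S, ∀ x ∈ E, inn (R w) (x + vec (i₀, true)) =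
      F (x + vec (i₀, true)) - if x + vec (i₀, true) = 0 then 1 else 0 := by
    intro w hw x hx
    rw [hE, mem_filter] at hx
    obtain ⟨hxK, hx1, hx2⟩ := hx
    have hy : x + vec (i₀, true) ∈ K := hnb w hw x hxK hx1 _
    have h3 : inn (R w) (x + vec (i₀, true)) = inn (stk 0 w) (x + vec (i₀, true)) := by
      unfold inn
      refine Finset.sum_congr rfl fun s _ => ?_
      have h4 := hnb w hw _ hy hx2 (opp s)
      rw [vec_opp, ← sub_eq_add_neg] at h4
      rw [hRK w _ h4]
    obtain ⟨_, _, _, _, h5⟩ := h1 w hw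
    rw [h3, inn_stk, sub_zero, ← h5 _ hy, locN]
    omega
  set V : (Site d → List (Step d)) → Site d → List (Step d) :=
    fun σ x => if x ∈ E then [] else σ x with hV
  have hfib : ∀ τ ∈ (S.image R).image V,
      (((S.image R).filter fun σ => V σ = τ).card : ℝ) ≤ ∏ x ∈ E, ((2 * d) ^ o x * Q (o x)) := by
    intro τ _
    refine card_stacks i₀ hQ0 hQ E _ o
      (fun x => F (x + vec (i₀, true)) - if x + vec (i₀, true) = 0 then 1 else 0) τ ?_ ?_ ?_
    · intro σ hσ x hx
      obtain ⟨w, hw, rfl⟩ := mem_image.mp (mem_filter.mp hσ).1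
      exact hlen w hw x (mem_filter.mp hx).1
    · intro σ hσ x hx
      have h3 := congrFun (mem_filter.mp hσ).2 x
      rw [hV] at h3
      simp only at h3
      rwa [if_neg hx] at h3
    · intro σ hσ x hx
      obtain ⟨w, hw, rfl⟩ := mem_image.mp (mem_filter.mp hσ).1
      exact hinn w hw x hx
  have himg : (((S.image R).image V).card : ℝ) ≤ ∏ x ∈ K \ E, (2 * (d : ℝ)) ^ o x := by
    have h3 : ((S.image R).image V).card ≤ ((K \ E).pi fun x => allw d (o x)).card := by
      refine Finset.card_le_card_of_injOn (fun τ x _ => τ x) ?_ ?_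
      · intro τ hτ
        rw [mem_coe, mem_image] at hτ
        obtain ⟨σ, hσ, rfl⟩ := hτ
        obtain ⟨w, hw, rfl⟩ := mem_image.mp hσ
        rw [mem_coe, Finset.mem_pi]
        intro x hx
        rw [mem_sdiff] at hx
        rw [mem_allw, hV]
        simp only
        rw [if_neg hx.2]
        exact hlen w hw x hx.1
      · intro τ hτ τ' hτ' h
        rw [mem_coe, mem_image] at hτ hτ'
        obtain ⟨σ, hσ, rfl⟩ := hτ
        obtain ⟨w, hw, rfl⟩ := mem_image.mp hσ
        obtain ⟨σ', hσ', rfl⟩ := hτ'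
        obtain ⟨w', hw', rfl⟩ := mem_image.mp hσ'
        funext x
        by_cases hxE : x ∈ E
        · rw [hV]
          simp only
          rw [if_pos hxE, if_pos hxE]
        · by_cases hxK : x ∈ K
          · exact congrFun (congrFun h x) (mem_sdiff.2 ⟨hxK, hxE⟩)
          · rw [hV]
            simp only
            rw [if_neg hxE, if_neg hxE, hRn w x hxK, hRn w' x hxK]
    rw [Finset.card_pi] at h3
    have h4 : ((∏ x ∈ K \ E, (allw d (o x)).card : ℕ) : ℝ) = ∏ x ∈ K \ E, (2 * (d : ℝ)) ^ o x := by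
      push_cast
      refine Finset.prod_congr rfl fun x _ => ?_
      rw [card_allw]
      push_cast
      rfl
    rw [← h4]
    exact_mod_cast h3
  have hsub : E ⊆ K := filter_subset _ _
  have hnn : 0 ≤ ∏ x ∈ E, ((2 * (d : ℝ)) ^ o x * Q (o x)) :=
    Finset.prod_nonneg fun x _ => mul_nonneg (by positivity) (hQ0 _)
  calc (S.card : ℝ) = ((S.image R).card : ℝ) := by rw [Finset.card_image_of_injOn hRinj]
    _ = ∑ τ ∈ (S.image R).image V, (((S.image R).filter fun σ => V σ = τ).card : ℝ) := by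
      rw [Finset.card_eq_sum_card_image V (S.image R)]
      push_cast
      rfl
    _ ≤ ∑ _τ ∈ (S.image R).image V, ∏ x ∈ E, ((2 * (d : ℝ)) ^ o x * Q (o x)) :=
      Finset.sum_le_sum hfib
    _ = (((S.image R).image V).card : ℝ) * ∏ x ∈ E, ((2 * (d : ℝ)) ^ o x * Q (o x)) := by
      rw [Finset.sum_const, nsmul_eq_mul]
    _ ≤ (∏ x ∈ K \ E, (2 * (d : ℝ)) ^ o x) * ∏ x ∈ E, ((2 * (d : ℝ)) ^ o x * Q (o x)) :=
      mul_le_mul_of_nonneg_right himg hnn
    _ = (∏ x ∈ K, (2 * (d : ℝ)) ^ o x) * ∏ x ∈ E, Q (o x) := by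
      rw [Finset.prod_mul_distrib, ← mul_assoc, Finset.prod_sdiff hsub]

end Pool.Agent.DFE
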