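import Pool.Agent.Lib.DFE.Stack

/-!
The number of the words with given local times.
-/

set_option autoImplicit false

namespace Pool.Agent.DFE

open Finset Pool.Agent.DCOL

variable {d : ℕ}

theorem sum_allw_succ {M : Type*} [AddCommMonoid M] (k : ℕ) (f : List (Step d) → M) :
    ∑ w ∈ allw d (k + 1), f w = ∑ s : Step d, ∑ w ∈ allw d k, f (s :: w) := by
  have h : ∑ g : Fin (k + 1) → Step d, f (List.ofFn g) =
      ∑ p : Step d × (Fin k → Step d), f (List.ofFn (Fin.cons p.1 p.2 : Fin (k + 1) → Step d)) := by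
    rw [← (Fin.consEquiv fun _ : Fin (k + 1) => Step d).sum_comp]
    rfl
  rw [allw, Finset.sum_map]
  refine h.trans ?_
  rw [Fintype.sum_prod_type]
  refine Finset.sum_congr rfl fun s _ => ?_
  rw [allw, Finset.sum_map]
  refine Finset.sum_congr rfl fun g _ => ?_
  simp only [List.ofFn_cons, Function.Embedding.coeFn_mk]

/-- The number of the words of length `k` with exactly `j` steps `s₀`. -/
def cnt (s₀ : Step d) (k j : ℕ) : ℕ := ((allw d k).filter fun w => w.count s₀ = j).card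

theorem cnt_eq_sum (s₀ : Step d) (k j : ℕ) :
    cnt s₀ k j = ∑ w ∈ allw d k, if w.count s₀ = j then 1 else 0 := by
  rw [cnt, Finset.card_filter]

theorem cnt_succ (s₀ : Step d) (k j : ℕ) :
    cnt s₀ (k + 1) j = (2 * d - 1) * cnt s₀ k j + if j = 0 then 0 else cnt s₀ k (j - 1) := by
  rw [cnt_eq_sum, sum_allw_succ, ← Finset.sum_erase_add _ _ (Finset.mem_univ s₀)]
  congr 1
  · rw [Finset.sum_congr rfl (g := fun _ => cnt s₀ k j) fun s hs => ?_, Finset.sum_const,
      Finset.card_erase_of_mem (Finset.mem_univ _), Finset.card_univ, Fintype.card_prod,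
      Fintype.card_fin, Fintype.card_bool, smul_eq_mul, mul_comm d 2]
    rw [cnt_eq_sum]
    refine Finset.sum_congr rfl fun w _ => ?_
    rw [List.count_cons_of_ne (Finset.ne_of_mem_erase hs)]
  · by_cases hj : j = 0
    · subst hj
      simp
    · rw [if_neg hj, cnt_eq_sum]
      refine Finset.sum_congr rfl fun w _ => ?_
      rw [List.count_cons_self]
      have : (List.count s₀ w + 1 = j) ↔ (List.count s₀ w = j - 1) := by omega
      simp only [this]

theorem cnt_eq (s₀ : Step d) : ∀ k j : ℕ, cnt s₀ k j = k.choose j * (2 * d - 1) ^ (k - j)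
  | 0, j => by
    have h0 : allw d 0 = {[]} := by
      ext w; rw [mem_allw, Finset.mem_singleton, List.length_eq_zero_iff]
    rw [cnt, h0]
    by_cases hj : j = 0
    · subst hj
      rw [Finset.filter_singleton, if_pos (by simp)]
      simp
    · have h1 : (Finset.filter (fun w : List (Step d) => List.count s₀ w = j) {[]}) = ∅ := by
        rw [Finset.filter_singleton, if_neg]
        simp only [List.count_nil]
        exact fun h => hj h.symm
      rw [h1, Nat.choose_eq_zero_of_lt (by omega)]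
      simp
  | k + 1, 0 => by
    rw [cnt_succ, cnt_eq s₀ k 0]
    simp only [Nat.choose_zero_right, one_mul, Nat.sub_zero, if_true, add_zero]
    rw [pow_succ, mul_comm]
  | k + 1, j + 1 => by
    rw [cnt_succ, cnt_eq s₀ k (j + 1), if_neg (by omega), Nat.add_sub_cancel, cnt_eq s₀ k j,
      Nat.add_sub_add_right, Nat.choose_succ_succ, add_mul, add_comm]
    congr 1
    by_cases h : j + 1 ≤ k
    · have : k - j = (k - (j + 1)) + 1 := by omega
      rw [this, pow_succ]; ring
    · rw [Nat.choose_eq_zero_of_lt (by omega : k < j + 1)]; simp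

/-! ### Central binomial coefficients -/

theorem cb_le : ∀ n : ℕ, n.centralBinom ^ 2 * (2 * n + 1) ≤ 16 ^ n
  | 0 => by simp
  | n + 1 => by
    have h1 := cb_le n
    have h2 := Nat.succ_mul_centralBinom_succ n
    have h3 : (n + 1) ^ 2 * ((n + 1).centralBinom ^ 2 * (2 * (n + 1) + 1)) ≤
        (n + 1) ^ 2 * 16 ^ (n + 1) := by
      calc (n + 1) ^ 2 * ((n + 1).centralBinom ^ 2 * (2 * (n + 1) + 1)) =
          ((n + 1) * (n + 1).centralBinom) ^ 2 * (2 * n + 3) := by ring
        _ = 4 * (2 * n + 1) * (2 * n + 3) * (n.centralBinom ^ 2 * (2 * n + 1)) := by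
          rw [h2]; ring
        _ ≤ 4 * (2 * n + 1) * (2 * n + 3) * 16 ^ n := Nat.mul_le_mul_left _ h1
        _ ≤ (16 * (n + 1) ^ 2) * 16 ^ n := Nat.mul_le_mul_right _ (by nlinarith)
        _ = _ := by ring
    exact Nat.le_of_mul_le_mul_left h3 (by positivity)

theorem choose_sq_le (m j : ℕ) : m.choose j ^ 2 * (m + 1) ≤ 4 ^ m := by
  refine (Nat.mul_le_mul_right _ (Nat.pow_le_pow_left (Nat.choose_le_middle j m) 2)).trans ?_
  rcases Nat.even_or_odd' m with ⟨n, h | h⟩
  · have h1 : m / 2 = n := by omega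
    have h2 := cb_le n
    rw [Nat.centralBinom_eq_two_mul_choose] at h2
    rw [h1, h, pow_mul]
    exact h2
  · have h1 : m / 2 = n := by omega
    have h2 := cb_le (n + 1)
    rw [Nat.centralBinom_eq_two_mul_choose] at h2
    have h3 : (2 * (n + 1)).choose (n + 1) = 2 * (2 * n + 1).choose n := by
      rw [show 2 * (n + 1) = (2 * n + 1) + 1 by ring, Nat.choose_succ_succ,
        Nat.choose_symm_half]; ring
    rw [h3] at h2
    rw [h1, h]
    have h4 : (4 : ℕ) ^ (2 * n + 1) = 4 * 16 ^ n := by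
      rw [pow_succ, pow_mul]; norm_num; ring
    rw [h4]
    have h5 : (16 : ℕ) ^ (n + 1) = 16 * 16 ^ n := by rw [pow_succ]; ring
    rw [h5] at h2
    nlinarith [Nat.zero_le ((2 * n + 1).choose n)]

/-- Thinning of binomial coefficients. -/
theorem thin (c : ℝ) (k j : ℕ) : (k.choose j : ℝ) * (1 + c) ^ (k - j) =
    ∑ m ∈ range (k + 1), (k.choose m : ℝ) * c ^ (k - m) * m.choose j := by
  by_cases hj : j ≤ k
  · have h1 : k + 1 = j + (k - j + 1) := by omega
    rw [h1, Finset.sum_range_add, Finset.sum_eq_zero (s := range j), zero_add, add_pow,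
      Finset.mul_sum]
    · refine Finset.sum_congr rfl fun i hi => ?_
      rw [Finset.mem_range] at hi
      have h2 := Nat.choose_mul (n := k) (k := j + i) (s := j) (by omega)
      have h3 : j + i - j = i := by omega
      rw [h3] at h2
      have h4 : (k.choose (j + i) : ℝ) * (j + i).choose j = k.choose j * (k - j).choose i := by
        exact_mod_cast h2
      have h5 : k - (j + i) = k - j - i := by omega
      rw [one_pow, one_mul, h5]
      linear_combination (-(c ^ (k - j - i))) * h4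
    · intro m hm
      rw [Finset.mem_range] at hm
      rw [Nat.choose_eq_zero_of_lt hm]; simp
  · rw [Nat.choose_eq_zero_of_lt (by omega : k < j), Finset.sum_eq_zero]
    · simp
    · intro m hm
      rw [Finset.mem_range] at hm
      rw [Nat.choose_eq_zero_of_lt (by omega : m < j)]; simp

/-- The local limit bound. -/
theorem cnt_sq_le (hd : 0 < d) (s₀ : Step d) (k j : ℕ) :
    ((k : ℝ) + 1) * (cnt s₀ k j : ℝ) ^ 2 ≤ d * ((2 * d) ^ k) ^ 2 := by
  have hd1 : (1 : ℝ) ≤ d := by exact_mod_cast hd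
  set c : ℝ := 2 * d - 2 with hc
  have hc0 : 0 ≤ c := by rw [hc]; linarith
  have h1 : (cnt s₀ k j : ℝ) = ∑ m ∈ range (k + 1), (k.choose m : ℝ) * c ^ (k - m) * m.choose j := by
    rw [← thin, cnt_eq]
    push_cast
    congr 2
    rw [Nat.cast_sub (by omega)]
    push_cast
    rw [hc]; ring
  have h2 : (cnt s₀ k j : ℝ) ^ 2 ≤ (∑ m ∈ range (k + 1), (k.choose m : ℝ) * c ^ (k - m) * 2 ^ m) *
      ∑ m ∈ range (k + 1), (k.choose m : ℝ) * c ^ (k - m) * ((m.choose j : ℝ) ^ 2 / 2 ^ m) := by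
    rw [h1]
    refine Finset.sum_sq_le_sum_mul_sum_of_sq_le_mul _ (fun m _ => by positivity)
      (fun m _ => by positivity) fun m _ => le_of_eq ?_
    field_simp
  have h3 : ∑ m ∈ range (k + 1), (k.choose m : ℝ) * c ^ (k - m) * 2 ^ m = (2 * d) ^ k := by
    rw [show (2 * (d : ℝ)) = 2 + c by rw [hc]; ring, add_pow]
    exact Finset.sum_congr rfl fun m _ => by ring
  have h4 : ((k : ℝ) + 1) * ∑ m ∈ range (k + 1), (k.choose m : ℝ) * c ^ (k - m) *
      ((m.choose j : ℝ) ^ 2 / 2 ^ m) ≤ d * (2 * d) ^ k := by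
    have h5 : ∀ m ∈ range (k + 1), ((k : ℝ) + 1) * ((k.choose m : ℝ) * c ^ (k - m) *
        ((m.choose j : ℝ) ^ 2 / 2 ^ m)) ≤
        ((k + 1).choose (m + 1) : ℝ) * c ^ (k + 1 - (m + 1)) * 2 ^ (m + 1) / 2 := by
      intro m hm
      have e1 : (m.choose j : ℝ) ^ 2 * (m + 1) ≤ 4 ^ m := by exact_mod_cast choose_sq_le m j
      have e2 : ((k : ℝ) + 1) * k.choose m = (k + 1).choose (m + 1) * (m + 1) := by
        exact_mod_cast Nat.add_one_mul_choose_eq k m
      have e3 : k + 1 - (m + 1) = k - m := by omega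
      have e4 : (m.choose j : ℝ) ^ 2 * (m + 1) / 2 ^ m ≤ 2 ^ m := by
        rw [div_le_iff₀ (by positivity), ← mul_pow]
        norm_num
        exact e1
      calc ((k : ℝ) + 1) * ((k.choose m : ℝ) * c ^ (k - m) * ((m.choose j : ℝ) ^ 2 / 2 ^ m)) =
          (((k : ℝ) + 1) * k.choose m) * c ^ (k - m) * ((m.choose j : ℝ) ^ 2 / 2 ^ m) := by ring
        _ = ((k + 1).choose (m + 1) : ℝ) * c ^ (k - m) *
            ((m.choose j : ℝ) ^ 2 * (m + 1) / 2 ^ m) := by rw [e2]; ring
        _ ≤ ((k + 1).choose (m + 1) : ℝ) * c ^ (k - m) * 2 ^ m := by gcongr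
        _ = _ := by rw [e3, pow_succ]; ring
    rw [Finset.mul_sum]
    refine (Finset.sum_le_sum h5).trans ?_
    have h6 : (2 * (d : ℝ)) ^ (k + 1) = ∑ m ∈ range (k + 1 + 1), ((k + 1).choose m : ℝ) *
        c ^ (k + 1 - m) * 2 ^ m := by
      rw [show (2 * (d : ℝ)) = 2 + c by rw [hc]; ring, add_pow]
      exact Finset.sum_congr rfl fun m _ => by ring
    rw [Finset.sum_range_succ'] at h6
    rw [← Finset.sum_div, div_le_iff₀ (by norm_num)]
    have h7 : (0 : ℝ) ≤ ((k + 1).choose 0 : ℝ) * c ^ (k + 1 - 0) * 2 ^ 0 := by positivity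
    calc _ ≤ (2 * (d : ℝ)) ^ (k + 1) := by rw [h6]; linarith
      _ = _ := by rw [pow_succ]; ring
  calc ((k : ℝ) + 1) * (cnt s₀ k j : ℝ) ^ 2 ≤ (k + 1) * ((∑ m ∈ range (k + 1),
        (k.choose m : ℝ) * c ^ (k - m) * 2 ^ m) *
      ∑ m ∈ range (k + 1), (k.choose m : ℝ) * c ^ (k - m) * ((m.choose j : ℝ) ^ 2 / 2 ^ m)) := by
        gcongr
    _ = (2 * d) ^ k * (((k : ℝ) + 1) * ∑ m ∈ range (k + 1), (k.choose m : ℝ) * c ^ (k - m) *
      ((m.choose j : ℝ) ^ 2 / 2 ^ m)) := by rw [h3]; ring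
    _ ≤ (2 * d) ^ k * (d * (2 * d) ^ k) := by gcongr
    _ = _ := by ring

theorem cnt_le_card (s₀ : Step d) (k j : ℕ) : (cnt s₀ k j : ℝ) ≤ (2 * d) ^ k := by
  have : cnt s₀ k j ≤ (2 * d) ^ k := by
    rw [← card_allw]; exact Finset.card_filter_le _ _
  exact_mod_cast this

/-- At least one position: the next step is `s₀` or not. -/
theorem cnt_succ_le (hd : 0 < d) (s₀ : Step d) (k j : ℕ) :
    (cnt s₀ (k + 1) j : ℝ) ≤ (2 * d - 1) * (2 * d) ^ k := by
  have hd1 : (1 : ℝ) ≤ d := by exact_mod_cast hd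
  rw [cnt_succ]
  have h1 : ((2 * d - 1 : ℕ) : ℝ) = 2 * d - 1 := by
    rw [Nat.cast_sub (by omega)]; push_cast; ring
  by_cases hj : j = 0
  · rw [if_pos hj, add_zero]
    push_cast
    rw [h1]
    exact mul_le_mul_of_nonneg_left (cnt_le_card _ _ _) (by linarith)
  · rw [if_neg hj]
    push_cast
    rw [h1]
    have h2 : (cnt s₀ k j : ℝ) + cnt s₀ k (j - 1) ≤ (2 * d) ^ k := by
      have : cnt s₀ k j + cnt s₀ k (j - 1) ≤ (2 * d) ^ k := by
        rw [cnt, cnt, ← card_allw, ← Finset.card_union_of_disjoint]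
        · exact Finset.card_le_card (Finset.union_subset (Finset.filter_subset _ _)
            (Finset.filter_subset _ _))
        · rw [Finset.disjoint_filter]
          intro w _ h1 h2
          omega
      exact_mod_cast this
    have h3 : (0 : ℝ) ≤ cnt s₀ k (j - 1) := Nat.cast_nonneg _
    nlinarith [Nat.cast_nonneg (α := ℝ) (cnt s₀ k j)]

end Pool.Agent.DFE
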