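import Pool.Agent.Lib.DFE.Defs5

/-!
# Large droplets: statements of the rows
-/

set_option autoImplicit false

namespace Pool.Agent.DFE

open Finset Pool.Agent.DCOL

open Classical in
/-- The boundary of a finite set: the pairs (site of `D`, step that leaves `D`). -/
noncomputable def bdr {d : ℕ} (D : Finset (Site d)) : Finset (Site d × Step d) :=
  (D ×ˢ univ).filter fun q => q.1 + vec q.2 ∉ D

/-- The component of `x` in `D` (for `x ∈ D`). -/
def Comp {d : ℕ} (D : Set (Site d)) (x : Site d) : Set (Site d) :=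
  {y | Relation.ReflTransGen (fun p q => q ∈ D ∧ ∃ s : Step d, q = p + vec s) x y}

/-- ISO (for `d ≥ 2` from `MeasureTheory.lintegral_prod_lintegral_pow_le` with the counting measure
on `ℤ` and `f = ` the number of the boundary pairs at `x`, or by Loomis-Whitney; for `d = 1` a
nonempty finite set has a boundary pair). -/
def ISO_stmt : Prop := ∀ d : ℕ, 0 < d → ∃ c : ℝ, 0 < c ∧ ∀ D : Finset (Site d), D.Nonempty →
  c * (D.card : ℝ) ^ (1 - 1 / (d : ℝ)) ≤ (bdr D).card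

open Classical in
/-- CMP (from ISO): `∑_{x small} 1 = ∑_{(y, s) ∈ bdr D, y small} |comp y| / |bdr (comp y)|`. -/
def CMP_stmt : Prop := ∀ d : ℕ, 0 < d → ∃ C : ℝ, 0 < C ∧ ∀ (D : Finset (Site d)) (r : ℝ), 0 < r →
  ((D.filter fun x => ((Comp (D : Set (Site d)) x).ncard : ℝ) < r ^ d).card : ℝ) ≤
    C * r * (bdr D).card

/-- COA (coarea and Cauchy-Schwarz): a level between `a / 3` and `2 a / 3` with small boundary. -/
def COA_stmt : Prop := ∀ d : ℕ, 0 < d → ∃ C : ℝ, 0 < C ∧ ∀ (f : Site d →₀ ℕ) (a G N : ℝ),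
  12 ≤ a → (∀ E : Finset (Site d), ∑ x ∈ E, ∑ s : Step d, ((f (x + vec s) : ℝ) - f x) ^ 2 ≤ G) →
  ((f.support.filter fun x => a / 3 ≤ (f x : ℝ) ∧ (f x : ℝ) ≤ 2 * a / 3).card : ℝ) ≤ N →
  ∃ u : ℕ, a / 3 ≤ u ∧ (u : ℝ) ≤ 2 * a / 3 ∧
    a * (bdr (f.support.filter fun x => u ≤ f x)).card ≤ C * (Real.sqrt (N * G) + G / a)

open Classical in
/-- DROP (from TAIL, BADT, COA, CMP; `ENBAux.En_ge_all`): all but `ε n` of the monomers lie in
components, with at least `(ε √δ)^(-d)` sites, of a level set of the local times. -/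
def DROP_stmt : Prop := ∀ d : ℕ, 0 < d → ∀ β ε : ℝ, 0 < β → 0 < ε →
  ∃ δ₀ c : ℝ, 0 < δ₀ ∧ 0 < c ∧ ∀ γ : ℝ, γ < β → β - γ ≤ δ₀ → ∃ n₀ : ℕ, ∀ n : ℕ, n₀ ≤ n →
    prob d β γ n (fun s => ¬ ∃ u : ℕ, aa (β - γ) / 3 ≤ u ∧ (u : ℝ) ≤ 2 * aa (β - γ) / 3 ∧
      (((Finset.range (n + 1)).filter fun i => ¬ (u ≤ localTime s (pos s i) ∧
        (1 / (ε * Real.sqrt (β - γ))) ^ d ≤
          ((Comp {x | u ≤ localTime s x} (pos s i)).ncard : ℝ))).card : ℝ) ≤ ε * n) ≤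
        Real.exp (-(c * SS (β - γ) * n))

end Pool.Agent.DFE
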