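import Pool.Agent.Lib.DFE.ENB
import Pool.Agent.Lib.DFE.Defs6

/-!
Row DROP: large droplets.
-/

set_option autoImplicit false

namespace Pool.Agent.DFE

open Finset Pool.Agent.DCOL

namespace DROPAux

variable {d n : ℕ}

theorem prob_le_add (β γ : ℝ) (A B₁ B₂ : (Fin n → Step d) → Prop)
    (h : ∀ s, A s → B₁ s ∨ B₂ s) :
    prob d β γ n A ≤ prob d β γ n B₁ + prob d β γ n B₂ := by
  classical
  unfold prob
  rw [← add_div]
  refine div_le_div_of_nonneg_right ?_ (Finset.sum_nonneg fun s _ => (Real.exp_pos _).le)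
  rw [Finset.sum_filter, Finset.sum_filter, Finset.sum_filter, ← Finset.sum_add_distrib]
  refine Finset.sum_le_sum fun s _ => ?_
  have he := (Real.exp_pos (-energy β γ s)).le
  by_cases hA : A s
  · rw [if_pos hA]
    rcases h s hA with h1 | h1
    · rw [if_pos h1]
      split_ifs <;> linarith
    · rw [if_pos h1]
      split_ifs <;> linarith
  · rw [if_neg hA]
    split_ifs <;> linarith

/-- The number of the times at which the walk is in a finite set. -/
theorem card_times (s : Fin n → Step d) (P : ℕ → Prop) [DecidablePred P] (E : Finset (Site d)) :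
    ((range (n + 1)).filter fun i => P i ∧ pos s i ∈ E).card =
      ∑ x ∈ E, ((range (n + 1)).filter fun i => P i ∧ pos s i = x).card := by
  classical
  rw [Finset.card_eq_sum_card_fiberwise (f := pos s) (t := E)]
  · refine Finset.sum_congr rfl fun x hx => ?_
    congr 1
    ext i
    simp only [mem_filter]
    constructor
    · rintro ⟨⟨h1, h2, h3⟩, h4⟩
      exact ⟨h1, h2, h4⟩
    · rintro ⟨h1, h2, h3⟩
      exact ⟨⟨h1, h2, h3 ▸ hx⟩, h3⟩
  · intro i hi
    exact (mem_filter.mp (mem_coe.mp hi)).2.2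

theorem sum_localTime_le (s : Fin n → Step d) (E : Finset (Site d)) (P : ℕ → Prop)
    [DecidablePred P] (h : ∀ x ∈ E, ∀ i, pos s i = x → P i) :
    ∑ x ∈ E, (localTime s x : ℝ) ≤ (((range (n + 1)).filter P).card : ℝ) := by
  classical
  have h1 := card_times s P E
  have h2 : ∑ x ∈ E, localTime s x =
      ∑ x ∈ E, ((range (n + 1)).filter fun i => P i ∧ pos s i = x).card := by
    refine Finset.sum_congr rfl fun x hx => ?_
    unfold localTime
    congr 1
    ext i
    simp only [mem_filter]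
    constructor
    · rintro ⟨h3, h4⟩
      exact ⟨h3, h x hx i h4, h4⟩
    · rintro ⟨h3, _, h4⟩
      exact ⟨h3, h4⟩
  have h3 : ((range (n + 1)).filter fun i => P i ∧ pos s i ∈ E).card ≤
      ((range (n + 1)).filter P).card :=
    card_le_card fun i hi => by
      rw [mem_filter] at hi ⊢
      exact ⟨hi.1, hi.2.1⟩
  rw [h1, ← h2] at h3
  exact_mod_cast h3

theorem two_exp {c₁ c₂ S : ℝ} (hc₁ : 0 < c₁) (hc₂ : 0 < c₂) (hS : 0 < S) :
    ∃ n₀ : ℕ, ∀ n : ℕ, n₀ ≤ n →
      Real.exp (-(c₁ * S * n)) + Real.exp (-(c₂ * S * n)) ≤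
        Real.exp (-(min c₁ c₂ / 2 * S * n)) := by
  set c := min c₁ c₂ with hc
  have hc0 : 0 < c := lt_min hc₁ hc₂
  obtain ⟨n₀, hn₀⟩ := exists_nat_ge (Real.log 2 / (c / 2 * S))
  refine ⟨n₀, fun n hn => ?_⟩
  have hn' : (n₀ : ℝ) ≤ n := by exact_mod_cast hn
  have h1 : Real.log 2 ≤ c / 2 * S * n := by
    have h2 : Real.log 2 / (c / 2 * S) ≤ n := hn₀.trans hn'
    rw [div_le_iff₀ (by positivity)] at h2
    linarith
  have hn0 : (0 : ℝ) ≤ S * n := by positivity
  have h2 : Real.exp (-(c₁ * S * n)) ≤ Real.exp (-(c * S * n)) := by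
    refine Real.exp_le_exp.mpr ?_
    have := mul_le_mul_of_nonneg_right (min_le_left c₁ c₂) hn0
    rw [← hc] at this
    linarith
  have h3 : Real.exp (-(c₂ * S * n)) ≤ Real.exp (-(c * S * n)) := by
    refine Real.exp_le_exp.mpr ?_
    have := mul_le_mul_of_nonneg_right (min_le_right c₁ c₂) hn0
    rw [← hc] at this
    linarith
  have h4 : 2 * Real.exp (-(c * S * n)) ≤ Real.exp (-(c / 2 * S * n)) := by
    calc 2 * Real.exp (-(c * S * n)) = Real.exp (Real.log 2 + -(c * S * n)) := by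
          rw [Real.exp_add, Real.exp_log two_pos]
      _ ≤ _ := Real.exp_le_exp.mpr (by linarith)
  linarith

theorem aa_ge {δ : ℝ} (hδ : 0 < δ) (hδ1 : δ ≤ 1 / 576) :
    0 < SS δ ∧ 12 ≤ aa δ ∧ SS δ = 2 * δ * aa δ := by
  have hL : 1 ≤ Real.log (1 / δ) := by
    rw [Real.le_log_iff_exp_le (by positivity)]
    have h1 : Real.exp 1 ≤ 576 := by
      have := Real.exp_one_lt_d9
      linarith
    refine h1.trans ?_
    rw [le_div_iff₀ hδ]
    linarith
  have hS : Real.sqrt δ ≤ SS δ := by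
    unfold SS
    refine Real.sqrt_le_sqrt ?_
    nlinarith
  have hs0 : 0 < Real.sqrt δ := Real.sqrt_pos.mpr hδ
  have hS0 : 0 < SS δ := hs0.trans_le hS
  refine ⟨hS0, ?_, ?_⟩
  · unfold aa
    rw [le_div_iff₀ (by positivity)]
    refine le_trans ?_ hS
    have h1 : Real.sqrt δ * Real.sqrt δ = δ := Real.mul_self_sqrt hδ.le
    have h2 : Real.sqrt δ ≤ 1 / 24 := by
      rw [Real.sqrt_le_left (by norm_num)]
      norm_num
      linarith
    nlinarith
  · unfold aa
    field_simp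

end DROPAux

open DROPAux in
open Classical in
theorem drop : TAIL_stmt → BADT_stmt → COA_stmt → CMP_stmt → DROP_stmt := by
  intro hT hB hCOA hCMP d hd β ε hβ hε
  obtain ⟨C₁, hC₁, hcmp⟩ := hCMP d hd
  obtain ⟨C₂, hC₂, hcoa⟩ := hCOA d hd
  have hd0 : (0 : ℝ) < d := by exact_mod_cast hd
  -- the parameters
  set θ : ℝ := ε ^ 2 / (8 * C₁ * C₂) with hθ
  have hθ0 : 0 < θ := by positivity
  set ε₁ : ℝ := min (1 / 4) (min (ε / 2) (β * θ ^ 2 / (72 * d))) with hε₁
  have hε₁0 : 0 < ε₁ := lt_min (by norm_num) (lt_min (by positivity) (by positivity))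
  have hε₁a : ε₁ ≤ 1 / 4 := min_le_left _ _
  have hε₁b : ε₁ ≤ ε / 2 := (min_le_right _ _).trans (min_le_left _ _)
  have hε₁c : ε₁ ≤ β * θ ^ 2 / (72 * d) := (min_le_right _ _).trans (min_le_right _ _)
  obtain ⟨δ₁, c₁, hδ₁, hc₁, hT1⟩ := hT d hd β 1 hβ one_pos
  obtain ⟨δ₂, c₂, hδ₂, hc₂, hB1⟩ := hB d hd β ε₁ hβ hε₁0
  set δ₀ : ℝ := min (min δ₁ δ₂) (min (min (1 / 576) (β / 2)) ((β * θ / (24 * d)) ^ 2)) with hδ₀
  have hδ₀0 : 0 < δ₀ := by
    refine lt_min (lt_min hδ₁ hδ₂) (lt_min (lt_min (by norm_num) (by positivity)) ?_)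
    positivity
  refine ⟨δ₀, min c₁ c₂ / 2, hδ₀0, by
    have := lt_min hc₁ hc₂
    positivity, fun γ hγβ hγ => ?_⟩
  have g1 : β - γ ≤ δ₁ := hγ.trans ((min_le_left _ _).trans (min_le_left _ _))
  have g2 : β - γ ≤ δ₂ := hγ.trans ((min_le_left _ _).trans (min_le_right _ _))
  have g3 : β - γ ≤ 1 / 576 := hγ.trans ((min_le_right _ _).trans
    ((min_le_left _ _).trans (min_le_left _ _)))
  have g4 : β - γ ≤ β / 2 := hγ.trans ((min_le_right _ _).trans
    ((min_le_left _ _).trans (min_le_right _ _)))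
  have g5 : β - γ ≤ (β * θ / (24 * d)) ^ 2 := hγ.trans ((min_le_right _ _).trans
    (min_le_right _ _))
  obtain ⟨n₁, hn₁⟩ := hT1 γ hγβ g1
  obtain ⟨n₂, hn₂⟩ := hB1 γ hγβ g2
  set δ : ℝ := β - γ with hδ
  have hδ0 : 0 < δ := by linarith
  obtain ⟨hS0, ha12, hSa⟩ := aa_ge hδ0 g3
  obtain ⟨n₃, hn₃⟩ := two_exp hc₁ hc₂ hS0
  set a : ℝ := aa δ with ha
  have ha0 : 0 < a := by linarith
  have hγ2 : β / 2 ≤ γ := by linarith
  have hγ0 : 0 < γ := by linarith
  set S : ℝ := SS δ with hS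
  refine ⟨max (max n₁ n₂) (max n₃ 1), fun n hn => ?_⟩
  have m1 : n₁ ≤ n := (le_max_left _ _).trans ((le_max_left _ _).trans hn)
  have m2 : n₂ ≤ n := (le_max_right _ _).trans ((le_max_left _ _).trans hn)
  have m3 : n₃ ≤ n := (le_max_left _ _).trans ((le_max_right _ _).trans hn)
  have m4 : 1 ≤ n := (le_max_right _ _).trans ((le_max_right _ _).trans hn)
  have hn0 : (0 : ℝ) < n := by exact_mod_cast m4
  refine le_trans (prob_le_add β γ _ _ _ fun s hs => ?_)
    ((add_le_add (hn₁ n m1).2 (hn₂ n m2)).trans (hn₃ n m3))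
  by_contra hcon
  rw [not_or, not_le, not_le] at hcon
  obtain ⟨hE, hBad⟩ := hcon
  apply hs
  -- the field of the local times
  set w : List (Step d) := List.ofFn s with hw
  set f : Site d →₀ ℕ := fld w with hf
  have hfx : ∀ x, f x = localTime s x := fun x => (localTime_eq s x).symm
  -- the energy
  have hEn : energy β γ s ≤ 3 / 2 * S * n := by
    have := (abs_lt.mp hE).2
    linarith
  set G : ℝ := 12 * d * S * n / β with hG
  have hgrad : ∀ E : Finset (Site d),
      ∑ x ∈ E, ∑ t : Step d, ((f (x + vec t) : ℝ) - f x) ^ 2 ≤ G := by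
    intro E
    have h1 := ENBAux.En_ge_all hd (β := β) hγ0.le f E
    have h2 : En β γ (fun x => (f x : ℝ)) = energy β γ s := by
      rw [energy_eq]
      congr 1
      funext x
      rw [loc_eq]
      rfl
    rw [h2] at h1
    have h3 : 0 ≤ (β - γ) * ∑ x ∈ f.support, (f x : ℝ) ^ 2 :=
      mul_nonneg (by linarith) (Finset.sum_nonneg fun x _ => sq_nonneg _)
    have h4 : 0 ≤ ∑ x ∈ E, ∑ t : Step d, ((f (x + vec t) : ℝ) - f x) ^ 2 :=
      Finset.sum_nonneg fun x _ => Finset.sum_nonneg fun t _ => sq_nonneg _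
    set Q₀ : ℝ := ∑ x ∈ E, ∑ t : Step d, ((f (x + vec t) : ℝ) - f x) ^ 2
    have h5 : γ / (4 * d) * Q₀ ≤ 3 / 2 * S * n := by linarith
    have h6 : β / (8 * d) * Q₀ ≤ γ / (4 * d) * Q₀ := by
      refine mul_le_mul_of_nonneg_right ?_ h4
      rw [div_le_div_iff₀ (by positivity) (by positivity)]
      nlinarith
    rw [hG, le_div_iff₀ hβ]
    have h7 : β / (8 * d) * Q₀ ≤ 3 / 2 * S * n := h6.trans h5
    have h8 : β / (8 * d) * Q₀ = (Q₀ * β) / (8 * d) := by ring
    rw [h8, div_le_iff₀ (by positivity)] at h7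
    linarith
  -- the bad times
  set Bd : Finset ℕ := (range (n + 1)).filter fun i =>
    ε₁ * a < |(localTime s (pos s i) : ℝ) - a| with hBd
  set M : Finset (Site d) := f.support.filter fun x => a / 3 ≤ (f x : ℝ) ∧ (f x : ℝ) ≤ 2 * a / 3
    with hM
  have hMs : a / 3 * (M.card : ℝ) ≤ ε₁ * n := by
    have h1 := sum_localTime_le s M (fun i => ε₁ * a < |(localTime s (pos s i) : ℝ) - a|) (by
      intro x hx i hi
      rw [hi, ← hfx]
      rw [hM, mem_filter] at hx
      have h2 := neg_abs_le ((f x : ℝ) - a)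
      have h3 : ε₁ * a ≤ 1 / 4 * a := mul_le_mul_of_nonneg_right hε₁a ha0.le
      linarith [hx.2.2])
    have h2 : ∑ x ∈ M, a / 3 ≤ ∑ x ∈ M, (localTime s x : ℝ) := by
      refine Finset.sum_le_sum fun x hx => ?_
      rw [← hfx]
      exact (mem_filter.mp hx).2.1
    rw [Finset.sum_const, nsmul_eq_mul] at h2
    have h3 : (Bd.card : ℝ) ≤ ε₁ * n := hBad.le
    linarith
  obtain ⟨u, hu1, hu2, hu3⟩ := hcoa f a G (3 * ε₁ * n / a) ha12 hgrad (by
    rw [le_div_iff₀ ha0]
    have : (M.card : ℝ) * a ≤ 3 * ε₁ * n := by linarith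
    exact this)
  refine ⟨u, hu1, hu2, ?_⟩
  set D : Finset (Site d) := f.support.filter fun x => u ≤ f x with hD
  have hu0 : 0 < u := by
    have : (0 : ℝ) < u := by linarith
    exact_mod_cast this
  have hDs : (D : Set (Site d)) = {x | u ≤ localTime s x} := by
    ext x
    rw [hD, Finset.mem_coe, mem_filter, Finsupp.mem_support_iff, Set.mem_ofPred_eq, hfx]
    constructor
    · exact fun h => h.2
    · intro h
      exact ⟨by omega, h⟩
  -- the boundary
  have hsq : 0 < Real.sqrt δ := Real.sqrt_pos.mpr hδ0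
  have hsq2 : Real.sqrt δ * Real.sqrt δ = δ := Real.mul_self_sqrt hδ0.le
  have hNG : Real.sqrt (3 * ε₁ * n / a * G) ≤ Real.sqrt δ * θ * n := by
    refine Real.sqrt_le_iff.mpr ⟨by positivity, ?_⟩
    have e1 : 3 * ε₁ * n / a * G = 72 * d * ε₁ / β * δ * n ^ 2 := by
      rw [hG, hSa]
      field_simp
      ring
    have e2 : (Real.sqrt δ * θ * n) ^ 2 = θ ^ 2 * δ * n ^ 2 := by
      calc (Real.sqrt δ * θ * n) ^ 2 = θ ^ 2 * (Real.sqrt δ * Real.sqrt δ) * n ^ 2 := by ring
        _ = _ := by rw [hsq2]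
    rw [e1, e2]
    refine mul_le_mul_of_nonneg_right (mul_le_mul_of_nonneg_right ?_ hδ0.le) (by positivity)
    rw [div_le_iff₀ hβ]
    rw [le_div_iff₀ (by positivity)] at hε₁c
    linarith
  have hGa : G / a ≤ Real.sqrt δ * θ * n := by
    have e1 : G / a = 24 * d / β * δ * n := by
      rw [hG, hSa]
      field_simp
      ring
    have e2 : Real.sqrt δ ≤ β * θ / (24 * d) := by
      rw [Real.sqrt_le_left (by positivity)]
      exact g5
    have e3 : 24 * d / β * Real.sqrt δ ≤ θ := by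
      rw [le_div_iff₀ (by positivity)] at e2
      rw [div_mul_eq_mul_div, div_le_iff₀ hβ]
      linarith
    calc G / a = 24 * d / β * Real.sqrt δ * Real.sqrt δ * n := by
          rw [e1, mul_assoc (24 * (d : ℝ) / β) (Real.sqrt δ), hsq2]
      _ ≤ θ * Real.sqrt δ * n := by
          refine mul_le_mul_of_nonneg_right (mul_le_mul_of_nonneg_right e3 hsq.le) hn0.le
      _ = _ := by ring
  have hbd : a * ((bdr D).card : ℝ) ≤ C₂ * (2 * (Real.sqrt δ * θ * n)) :=
    hu3.trans (mul_le_mul_of_nonneg_left (by linarith) hC₂.le)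
  -- the small components
  have hr : 0 < 1 / (ε * Real.sqrt δ) := by positivity
  have hsm := hcmp D (1 / (ε * Real.sqrt δ)) hr
  set Sm : Finset (Site d) := D.filter fun x =>
    ((Comp (D : Set (Site d)) x).ncard : ℝ) < (1 / (ε * Real.sqrt δ)) ^ d with hSm
  have hsm2 : a * (Sm.card : ℝ) ≤ ε / 4 * n := by
    have h1 : a * (Sm.card : ℝ) ≤ C₁ * (1 / (ε * Real.sqrt δ)) * (a * (bdr D).card) := by
      have := mul_le_mul_of_nonneg_left hsm ha0.le
      linarith
    refine h1.trans ((mul_le_mul_of_nonneg_left hbd (by positivity)).trans (le_of_eq ?_))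
    rw [hθ]
    field_simp
    ring
  -- the good times in small components
  have hcov : ((Finset.range (n + 1)).filter fun i => ¬ (u ≤ localTime s (pos s i) ∧
        (1 / (ε * Real.sqrt δ)) ^ d ≤
          ((Comp {x | u ≤ localTime s x} (pos s i)).ncard : ℝ))) ⊆
      Bd ∪ (Finset.range (n + 1)).filter fun i =>
        |(localTime s (pos s i) : ℝ) - a| ≤ ε₁ * a ∧ pos s i ∈ Sm := by
    intro i hi
    rw [mem_filter] at hi
    rw [mem_union, hBd, mem_filter, mem_filter]
    by_cases hb : ε₁ * a < |(localTime s (pos s i) : ℝ) - a|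
    · exact Or.inl ⟨hi.1, hb⟩
    · rw [not_lt] at hb
      refine Or.inr ⟨hi.1, hb, ?_⟩
      have h1 : (u : ℝ) ≤ localTime s (pos s i) := by
        have h2 := neg_abs_le ((localTime s (pos s i) : ℝ) - a)
        have h3 : ε₁ * a ≤ 1 / 4 * a := mul_le_mul_of_nonneg_right hε₁a ha0.le
        linarith
      have h1' : u ≤ localTime s (pos s i) := by exact_mod_cast h1
      have h2 : pos s i ∈ D := by
        have : pos s i ∈ (D : Set (Site d)) := by
          rw [hDs]
          exact h1'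
        exact this
      rw [hSm, mem_filter]
      refine ⟨h2, ?_⟩
      rw [hDs]
      by_contra h3
      exact hi.2 ⟨h1', not_lt.mp h3⟩
  have hlast : ((((Finset.range (n + 1)).filter fun i =>
      |(localTime s (pos s i) : ℝ) - a| ≤ ε₁ * a ∧ pos s i ∈ Sm).card : ℕ) : ℝ) ≤
      2 * (a * (Sm.card : ℝ)) := by
    rw [card_times]
    push_cast
    have h1 : ∀ x ∈ Sm, ((((range (n + 1)).filter fun i =>
        |(localTime s (pos s i) : ℝ) - a| ≤ ε₁ * a ∧ pos s i = x).card : ℕ) : ℝ) ≤ 2 * a := by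
      intro x _
      by_cases hx : |(localTime s x : ℝ) - a| ≤ ε₁ * a
      · have h2 : ((range (n + 1)).filter fun i =>
            |(localTime s (pos s i) : ℝ) - a| ≤ ε₁ * a ∧ pos s i = x).card ≤ localTime s x := by
          unfold localTime
          refine card_le_card fun i hi => ?_
          rw [mem_filter] at hi ⊢
          exact ⟨hi.1, hi.2.2⟩
        have h3 : ((((range (n + 1)).filter fun i =>
            |(localTime s (pos s i) : ℝ) - a| ≤ ε₁ * a ∧ pos s i = x).card : ℕ) : ℝ) ≤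
            (localTime s x : ℝ) := by exact_mod_cast h2
        have h4 := le_abs_self ((localTime s x : ℝ) - a)
        have h5 : ε₁ * a ≤ 1 / 4 * a := mul_le_mul_of_nonneg_right hε₁a ha0.le
        linarith
      · have h2 : ((range (n + 1)).filter fun i =>
            |(localTime s (pos s i) : ℝ) - a| ≤ ε₁ * a ∧ pos s i = x) = ∅ := by
          rw [filter_eq_empty_iff]
          rintro i _ ⟨h3, h4⟩
          rw [h4] at h3
          exact hx h3
        rw [h2, card_empty]
        push_cast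
        linarith
    refine (Finset.sum_le_sum h1).trans (le_of_eq ?_)
    rw [Finset.sum_const, nsmul_eq_mul]
    ring
  have hfin := (card_le_card hcov).trans (card_union_le _ _)
  have hfin' : ((((Finset.range (n + 1)).filter fun i => ¬ (u ≤ localTime s (pos s i) ∧
        (1 / (ε * Real.sqrt δ)) ^ d ≤
          ((Comp {x | u ≤ localTime s x} (pos s i)).ncard : ℝ))).card : ℕ) : ℝ) ≤
      (Bd.card : ℝ) + ((((Finset.range (n + 1)).filter fun i =>
        |(localTime s (pos s i) : ℝ) - a| ≤ ε₁ * a ∧ pos s i ∈ Sm).card : ℕ) : ℝ) := by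
    exact_mod_cast hfin
  have h3 : (Bd.card : ℝ) ≤ ε₁ * n := hBad.le
  have h4 : ε₁ * n ≤ ε / 2 * n := mul_le_mul_of_nonneg_right hε₁b hn0.le
  linarith

end Pool.Agent.DFE
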