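import Pool.Agent.Lib.DFE.Jensen

/-!
# The sharp free energy at the critical line for all `β`: statements of the rows

`Ex T f x`: `x` is big (`T ≤ f x`) or has a big neighbour. The components of these sites are
revealed together at the first visit; all other steps are free.
-/

set_option autoImplicit false

namespace Pool.Agent.DFE

open Finset Pool.Agent.DCOL

/-- `x` or one of its neighbours has at least `T` visits. -/
def Ex {d : ℕ} (T : ℕ) (f : Site d → ℕ) (x : Site d) : Prop :=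
  T ≤ f x ∨ ∃ s : Step d, T ≤ f (x + vec s)

open Classical in
/-- The sites `x` with `Ex T (locN w) x` (for `T ≥ 1`). -/
noncomputable def exF {d : ℕ} (T : ℕ) (w : List (Step d)) : Finset (Site d) :=
  ((vis 0 w) ∪ ((vis 0 w) ×ˢ (univ : Finset (Step d))).image fun q => q.1 - vec q.2).filter
    (Ex T (locN w))

/-- `x` and `y` are neighbours that satisfy `Ex`. -/
def Lk {d : ℕ} (T : ℕ) (f : Site d → ℕ) (x y : Site d) : Prop :=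
  Ex T f x ∧ Ex T f y ∧ ∃ s : Step d, y = x + vec s

open Classical in
/-- The component of `p` in `exF T w`. -/
noncomputable def clu {d : ℕ} (T : ℕ) (w : List (Step d)) (p : Site d) : Finset (Site d) :=
  (exF T w).filter fun y => Relation.ReflTransGen (Lk T (locN w)) p y

/-- The weight of the site `x` of the word `w`. -/
noncomputable def om {d : ℕ} (T R : ℕ) (i₀ : Fin d) (η δ lam c : ℝ) (w : List (Step d))
    (x : Site d) : ℝ :=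
  (if T ≤ locN w x then Real.exp (η * locN w x - δ * (locN w x : ℝ) ^ 2 -
    (if locN w x < T + R ∧ locN w (x + vec (i₀, true)) < T then lam else 0)) else 1) *
  ∏ s : Step d, (open Classical in if Ex T (locN w) (x + vec s) then
    Real.exp (-(2 * c * ((locN w (x + vec s) : ℝ) - locN w x) ^ 2)) else 1)

/-- The number of soft sites: between `T` and `T + R` visits, a small neighbour. -/
noncomputable def soft {d : ℕ} (T R : ℕ) (i₀ : Fin d) (w : List (Step d)) : ℕ :=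
  ((vis 0 w).filter fun x => T ≤ locN w x ∧ locN w x < T + R ∧
    locN w (x + vec (i₀, true)) < T).card

/-! ### SET: facts on the components -/

/-- SET. -/
def SET_stmt : Prop := ∀ (d T : ℕ) (w : List (Step d)) (p : Site d), 0 < d → 2 ≤ T →
  (p ∈ exF T w ↔ Ex T (locN w) p) ∧
  (p ∈ exF T w → p ∈ clu T w p ∧ clu T w p ⊆ exF T w ∧
    (∀ y ∈ clu T w p, clu T w y = clu T w p) ∧
    (∀ x ∈ clu T w p, ∀ s : Step d, x + vec s ∈ exF T w → x + vec s ∈ clu T w p) ∧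
    (∀ x ∈ clu T w p, T ≤ locN w x → ∀ s : Step d, x + vec s ∈ clu T w p) ∧
    (∀ P : Finset (Site d), p ∈ P →
      (∀ x ∈ P, ∀ s : Step d, x + vec s ∈ clu T w p → x + vec s ∈ P) → clu T w p ⊆ P) ∧
    (∃ y ∈ clu T w p, stk 0 w y ≠ []) ∧
    (∀ y ∈ clu T w p, ∃ z ∈ clu T w p, T ≤ locN w z ∧ (z = y ∨ ∃ s : Step d, z = y + vec s)) ∧
    (∃ z ∈ clu T w p, locN w z < T))

/-! ### VISW: few visited sites -/

/-- VISW (from `upper_big`, `En_scale`, `power_mean`; `θ = min 1 (b / Gam d)`, `c = θ / (8 d)`). -/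
def VISW_stmt : Prop := ∀ d : ℕ, 0 < d → ∀ b : ℝ, 0 < b → ∃ c C : ℝ, 0 < c ∧ 0 < C ∧
  ∀ β γ : ℝ, b ≤ γ → γ < β → ∀ n : ℕ,
    ∑ w ∈ allw d n, Real.exp (c * ((vis 0 w).card : ℝ) - En β γ (loc w)) ≤
      (2 * d) ^ n * (C * ((n : ℝ) + 1) ^ 2)

/-! ### SITE: the weight of one big site -/

/-- SITE. -/
def SITE_stmt : Prop := ∀ d : ℕ, 0 < d → ∀ ε κ : ℝ, 0 < ε → ε < 1 → 0 < κ →
  ∃ (T : ℕ) (δ₀ : ℝ), 2 ≤ T ∧ 0 < δ₀ ∧ ∀ δ : ℝ, 0 < δ → δ ≤ δ₀ → ∀ k o : ℕ, T ≤ k → k ≤ o + 1 →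
    Qf d o * Real.exp ((1 - ε) * SS δ * k - δ * (k : ℝ) ^ 2) ≤ κ

/-! ### EXPL2: exploration with general weights -/

/-- The weight of the site `x` of the field `h`; `ψ a b` is the factor of the neighbour value `b`
(`b = 0` outside the support). -/
noncomputable def wt2 {d : ℕ} (κ : ℝ) (ψ : ℕ → ℕ → ℝ) (h : Site d →₀ ℕ) (x : Site d) : ℝ :=
  κ * ∏ s : Step d, ψ (h x) (h (x + vec s))

/-- The support of `h` is contained in every set that contains `p` and is closed under steps inside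
the support. -/
def Conn2 {d : ℕ} (p : Site d) (h : Site d →₀ ℕ) : Prop := ∀ P : Finset (Site d), p ∈ P →
  (∀ x ∈ P, ∀ s : Step d, h (x + vec s) ≠ 0 → x + vec s ∈ P) → h.support ⊆ P

/-- EXPL2 (the proof of `expl` in `Explore.lean`, with `0` replaced by `p`). -/
def EXPL2_stmt : Prop := ∀ (d : ℕ) (κ G : ℝ) (ψ : ℕ → ℕ → ℝ), 0 ≤ κ → (∀ a b, 0 ≤ ψ a b) →
  (∀ (T : Finset ℕ) (a : ℕ), ∑ b ∈ T, ψ a b ≤ G) → κ * G ^ (2 * d) ≤ 1 →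
  ∀ (p : Site d) (a : ℕ) (F : Finset (Site d →₀ ℕ)), a ≠ 0 → (∀ h ∈ F, h p = a ∧ Conn2 p h) →
    ∑ h ∈ F, ∏ x ∈ h.support, wt2 κ ψ h x ≤ 1

/-! ### LEV: level crossings -/

/-- LEV: every level between `T` and `F p` is crossed by an edge of `K`. -/
def LEV_stmt : Prop := ∀ (d T : ℕ) (F : Site d → ℕ) (K : Finset (Site d)) (p q : Site d),
  p ∈ K → q ∈ K →
  (∀ P : Finset (Site d), p ∈ P → (∀ x ∈ P, ∀ s : Step d, x + vec s ∈ K → x + vec s ∈ P) →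
    K ⊆ P) →
  ((F p < T ∧ T ≤ F q) ∨ (F q < T ∧ T ≤ F p)) →
  |(F p : ℝ) - T| ≤
    ∑ x ∈ K, ∑ s : Step d, if x + vec s ∈ K then |(F (x + vec s) : ℝ) - F x| else 0

/-! ### CST: the number of the stacks of a component -/

/-- CST (from `card_stacks`, for each value of the stacks at the other sites of `K`). -/
def CST_stmt : Prop := ∀ (d T n : ℕ) (i₀ : Fin d) (e p : Site d) (K : Finset (Site d))
  (F : Site d → ℕ) (Q : ℕ → ℝ), 2 ≤ T → (∀ k, 0 ≤ Q k) →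
  (∀ k j, (cnt (i₀, true) k j : ℝ) ≤ (2 * d) ^ k * Q k) →
  ∀ S : Finset (List (Step d)),
    (∀ w ∈ S, w.length = n ∧ endp w = e ∧ p ∈ exF T w ∧ clu T w p = K ∧
      ∀ x ∈ K, locN w x = F x) →
    (∀ w ∈ S, ∀ w' ∈ S, (∀ x ∈ K, stk 0 w x = stk 0 w' x) → w = w') →
    (S.card : ℝ) ≤ (∏ x ∈ K, (2 * d : ℝ) ^ (F x - if x = e then 1 else 0)) *
      ∏ x ∈ K.filter (fun x => T ≤ F x ∧ T ≤ F (x + vec (i₀, true))),
        Q (F x - if x = e then 1 else 0)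

/-! ### RUN: the walk reveals the components -/

/-- RUN. -/
def RUN_stmt : Prop := ∀ (d : ℕ), 0 < d → ∀ (Good : List (Step d) → Prop)
  (E : List (Step d) → Finset (Site d)) (K : List (Step d) → Site d → Finset (Site d))
  (ω : List (Step d) → Site d → ℝ) (Ξ : ℝ) (n k : ℕ), 0 ≤ Ξ → (∀ w x, 0 ≤ ω w x) →
  (∀ w, Good w → ∀ x ∈ E w, x ∈ K w x ∧ K w x ⊆ E w ∧ (∃ y ∈ K w x, stk 0 w y ≠ []) ∧
    ∀ y ∈ K w x, K w y = K w x) →
  (∀ w w' p, Good w → Good w' → p ∈ E w → p ∈ E w' → K w p = K w' p →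
    (∀ x ∈ K w p, stk 0 w x = stk 0 w' x) → ∀ x ∈ K w p, ω w x = ω w' x) →
  (∀ (S : Finset (List (Step d))) (p : Site d), (∀ w ∈ S, Good w ∧ p ∈ E w) →
    (∀ w ∈ S, ∀ w' ∈ S, (K w p = K w' p ∧ ∀ x ∈ K w p, stk 0 w x = stk 0 w' x) → w = w') →
    ∑ w ∈ S, ((2 * d : ℝ) ^ (∑ x ∈ K w p, (stk 0 w x).length))⁻¹ * ∏ x ∈ K w p, ω w x ≤ Ξ) →
  ∀ S : Finset (List (Step d)), (∀ w ∈ S, Good w ∧ w.length = n ∧ (vis 0 w).card ≤ k) →
    ∑ w ∈ S, ((2 * d : ℝ) ^ n)⁻¹ * ∏ x ∈ E w, ω w x ≤ (1 + Ξ) ^ k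

/-! ### ENB: the energy bounds the weights -/

/-- ENB (from `En_ge`: an ordered pair of `exF` with different values has an end in the support). -/
def ENB_stmt : Prop := ∀ (d : ℕ), 0 < d → ∀ (T R : ℕ) (i₀ : Fin d) (β γ η lam c : ℝ), 2 ≤ T →
  0 ≤ η → 0 ≤ c → 16 * d * c ≤ γ → γ < β → ∀ w : List (Step d),
  Real.exp (-En β γ (loc w)) ≤
    Real.exp (-(η * ((w.length : ℝ) - T * (vis 0 w).card)) + lam * soft T R i₀ w) *
      ∏ x ∈ exF T w, om T R i₀ η (β - γ) lam c w x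

/-! ### PW and CLS: the total weight of the components that contain a given site -/

/-- PW (from SET, SITE). -/
def PW_stmt : Prop := ∀ d : ℕ, 0 < d → ∀ (i₀ : Fin d) (c ε κ : ℝ), 0 < c → 0 < ε → ε < 1 →
  0 < κ → κ ≤ 1 →
  ∃ (T₀ R : ℕ) (lam : ℝ), 2 ≤ T₀ ∧ 0 < R ∧ 0 ≤ lam ∧ ∀ T₁ : ℕ, T₀ ≤ T₁ → ∃ δ₀ : ℝ, 0 < δ₀ ∧
    ∀ (T : ℕ) (δ : ℝ), T₀ ≤ T → T ≤ T₁ → 0 < δ → δ ≤ δ₀ →
    ∀ (w : List (Step d)) (p : Site d), p ∈ exF T w →
      (∏ x ∈ (clu T w p).filter (fun x => T ≤ locN w x ∧ T ≤ locN w (x + vec (i₀, true))),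
        Qf d (locN w x - if x = endp w then 1 else 0)) *
        ∏ x ∈ clu T w p, om T R i₀ ((1 - ε) * SS δ) δ lam c w x ≤
      κ ^ (clu T w p).card * ∏ x ∈ clu T w p, ∏ s : Step d,
        if x + vec s ∈ clu T w p then
          Real.exp (-(c * ((locN w (x + vec s) : ℝ) - locN w x) ^ 2)) else 1

/-- CLS (from SET, PW, CST, EXPL2, LEV). -/
def CLS_stmt : Prop := ∀ d : ℕ, 0 < d → ∀ (i₀ : Fin d) (c ε Ξ : ℝ), 0 < c → 0 < ε → ε < 1 →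
  0 < Ξ →
  ∃ (T₀ R : ℕ) (lam : ℝ), 2 ≤ T₀ ∧ 0 < R ∧ 0 ≤ lam ∧ ∀ T₁ : ℕ, T₀ ≤ T₁ → ∃ δ₀ : ℝ, 0 < δ₀ ∧
    ∀ (T : ℕ) (δ : ℝ), T₀ ≤ T → T ≤ T₁ → 0 < δ → δ ≤ δ₀ →
    ∀ (n : ℕ) (e p : Site d) (S : Finset (List (Step d))),
      (∀ w ∈ S, w.length = n ∧ endp w = e ∧ p ∈ exF T w) →
      (∀ w ∈ S, ∀ w' ∈ S, (clu T w p = clu T w' p ∧
        ∀ x ∈ clu T w p, stk 0 w x = stk 0 w' x) → w = w') →
      ∑ w ∈ S, ((2 * d : ℝ) ^ (∑ x ∈ clu T w p, (stk 0 w x).length))⁻¹ *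
        ∏ x ∈ clu T w p, om T R i₀ ((1 - ε) * SS δ) δ lam c w x ≤ Ξ

/-! ### UPP and LOW -/

/-- UPP (from SET, VISW, RUN, ENB, CLS). -/
def UPP_stmt : Prop := ∀ d : ℕ, 0 < d → ∀ b ε : ℝ, 0 < b → 0 < ε → ε < 1 →
  ∃ δ₀ : ℝ, 0 < δ₀ ∧ ∀ β γ : ℝ, b ≤ γ → γ < β → β - γ ≤ δ₀ → ∃ n₀ : ℕ, ∀ n : ℕ, n₀ ≤ n →
    Zw d β γ n ≤ (2 * d) ^ n * Real.exp (-((1 - ε) * SS (β - γ) * n))

/-- LOW. -/
def LOW_stmt : Prop := ∀ d : ℕ, 0 < d → ∀ B ε : ℝ, 0 < B → 0 < ε →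
  ∃ δ₀ : ℝ, 0 < δ₀ ∧ ∀ β γ : ℝ, 0 ≤ γ → γ < β → β ≤ B → β - γ ≤ δ₀ → ∃ n₀ : ℕ, ∀ n : ℕ, n₀ ≤ n →
    (2 * d) ^ n * Real.exp (-((1 + ε) * SS (β - γ) * n)) ≤ Zw d β γ n

end Pool.Agent.DFE
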