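import Pool.Agent.Lib.DFE.Defs2

/-!
# The consequences of the sharp free energy: statements of the rows
-/

set_option autoImplicit false

namespace Pool.Agent.DFE

open Finset Pool.Agent.DCOL

/-- LOWF: the lower bound for fixed `β` (helper73). -/
def LOWF_stmt : Prop := ∀ d : ℕ, 0 < d → ∀ β ε : ℝ, 0 < β → 0 < ε →
  ∃ δ₀ : ℝ, 0 < δ₀ ∧ ∀ γ : ℝ, 0 ≤ γ → γ < β → β - γ ≤ δ₀ → ∃ n₀ : ℕ, ∀ n : ℕ, n₀ ≤ n →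
    (2 * d) ^ n * Real.exp (-((1 + ε) * SS (β - γ) * n)) ≤ Zw d β γ n

/-- SSN: `SS (t δ) ≈ √t SS δ`. -/
def SSN_stmt : Prop := ∀ t ε : ℝ, 0 < t → 0 < ε → ∃ δ₀ : ℝ, 0 < δ₀ ∧ δ₀ < 1 ∧
  ∀ δ : ℝ, 0 < δ → δ ≤ δ₀ → 0 < SS δ ∧ SS δ ≤ ε ∧ (Real.sqrt t - ε) * SS δ ≤ SS (t * δ)

/-- TAIL (from UPP, LOWF, SSN): exponential Chebyshev. Upper tail of `δ ∑ ℓ²`: compare with
`(β - h δ, γ)`; lower tail: `(β + h δ, γ)`; `energy`: `((1 ∓ h) β, (1 ∓ h) γ)`. The lower bound of the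
partition function is used only at `(β, γ)`, the upper bound (uniform) at the other point. -/
def TAIL_stmt : Prop := ∀ d : ℕ, 0 < d → ∀ β ε : ℝ, 0 < β → 0 < ε →
  ∃ δ₀ c : ℝ, 0 < δ₀ ∧ 0 < c ∧ ∀ γ : ℝ, γ < β → β - γ ≤ δ₀ → ∃ n₀ : ℕ, ∀ n : ℕ, n₀ ≤ n →
    prob d β γ n (fun s => ε * SS (β - γ) * n ≤
      |(β - γ) * ∑' x, (localTime s x : ℝ) ^ 2 - SS (β - γ) * n / 2|) ≤
        Real.exp (-(c * SS (β - γ) * n)) ∧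
    prob d β γ n (fun s => ε * SS (β - γ) * n ≤ |energy β γ s - SS (β - γ) * n / 2|) ≤
        Real.exp (-(c * SS (β - γ) * n))

/-- VIST (from VISW, LOWF, SSN): the number of the visited sites and the size. -/
def VIST_stmt : Prop := ∀ d : ℕ, 0 < d → ∀ β : ℝ, 0 < β →
  ∃ C δ₀ : ℝ, 0 < C ∧ 0 < δ₀ ∧ ∀ γ : ℝ, γ < β → β - γ ≤ δ₀ → ∃ n₀ : ℕ, ∀ n : ℕ, n₀ ≤ n →
    prob d β γ n (fun s => C * SS (β - γ) * n ≤ ((visited s).card : ℝ)) ≤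
      Real.exp (-(SS (β - γ) * n)) ∧
    meanSquare d β γ n ≤ C ^ 2 * SS (β - γ) ^ 2 * n ^ 2

/-- VLO (Cauchy-Schwarz): few returns need many sites. -/
def VLO_stmt : Prop := ∀ (d n : ℕ), 0 < d → ∀ s : Fin n → Step d,
  ((n : ℝ) + 1) ^ 2 ≤ ((visited s).card : ℝ) * ∑' x, (localTime s x : ℝ) ^ 2

/-- VLT (from TAIL, VLO): the number of the visited sites from below. -/
def VLT_stmt : Prop := ∀ d : ℕ, 0 < d → ∀ β ε : ℝ, 0 < β → 0 < ε →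
  ∃ δ₀ c : ℝ, 0 < δ₀ ∧ 0 < c ∧ ∀ γ : ℝ, γ < β → β - γ ≤ δ₀ → ∃ n₀ : ℕ, ∀ n : ℕ, n₀ ≤ n →
    prob d β γ n (fun s => ((visited s).card : ℝ) ≤ (2 - ε) * (β - γ) / SS (β - γ) * n) ≤
      Real.exp (-(c * SS (β - γ) * n))

end Pool.Agent.DFE
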