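import Pool.Agent.Lib.DFE.Defs5
import Pool.Agent.Lib.DFE.ENB

/-!
Row ENBG: the energy bounds the weights of the sites, with a general gain of the big sites.
-/

set_option autoImplicit false

namespace Pool.Agent.DFE

open Finset Pool.Agent.DCOL

namespace ENBGAux

variable {d : ℕ}

/-- The weight as an exponential. -/
theorem omg_eq (T R : ℕ) (i₀ : Fin d) (g : ℕ → ℝ) (δ lam c : ℝ) (w : List (Step d))
    (x : Site d) :
    omg T R i₀ g δ lam c w x = Real.exp
      ((if T ≤ locN w x then g (locN w x) - δ * (locN w x : ℝ) ^ 2 -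
        (if locN w x < T + R ∧ locN w (x + vec (i₀, true)) < T then lam else 0) else 0) -
        2 * c * ∑ s : Step d, (open Classical in if Ex T (locN w) (x + vec s) then
          ((locN w (x + vec s) : ℝ) - locN w x) ^ 2 else 0)) := by
  classical
  have key : ∀ A B : ℝ, Real.exp (A - B) = Real.exp A * Real.exp (-B) := fun A B => by
    rw [← Real.exp_add, sub_eq_add_neg]
  rw [omg]
  refine Eq.trans ?_ (key _ _).symm
  refine congrArg₂ (fun a b : ℝ => a * b) ?_ ?_
  · by_cases h : T ≤ locN w x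
    · rw [if_pos h, if_pos h]
    · rw [if_neg h, if_neg h, Real.exp_zero]
  · rw [Finset.mul_sum, ← Finset.sum_neg_distrib, Real.exp_sum]
    refine Finset.prod_congr rfl fun s _ => ?_
    by_cases h : Ex T (locN w) (x + vec s)
    · rw [if_pos h, if_pos h]
    · rw [if_neg h, if_neg h, mul_zero, neg_zero, Real.exp_zero]

end ENBGAux

open ENBAux ENBGAux

/-- ENBG. -/
theorem enbg : ENBG_stmt := by
  intro d hd T R i₀ β γ lam c g hT hc hcγ hγβ w
  classical
  have hd0 : (0 : ℝ) < d := by exact_mod_cast hd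
  have hγ : 0 ≤ γ := le_trans (by positivity) hcγ
  have hδ : 0 < β - γ := by linarith
  rw [Finset.prod_congr rfl fun x _ => omg_eq T R i₀ g (β - γ) lam c w x, ← Real.exp_sum,
    ← Real.exp_add]
  refine Real.exp_le_exp.mpr ?_
  have hEn : En β γ (loc w) = En β γ (fun x => (fld w x : ℝ)) := by
    congr 1
    funext x
    rw [loc_eq, fld_apply]
  have h1 := En_ge_all hd hγ (β := β) (fld w) (exF T w)
  rw [← hEn, fld_support] at h1
  simp only [fld_apply] at h1
  rw [Finset.sum_sub_distrib, ← Finset.sum_filter, filter_exF T (by omega) w,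
    Finset.sum_sub_distrib, Finset.sum_sub_distrib, ← Finset.mul_sum,
    ← Finset.mul_sum, ← Finset.sum_filter, Finset.filter_filter, Finset.sum_const, nsmul_eq_mul]
  have h3 : ∑ x ∈ (vis 0 w).filter (fun x => T ≤ locN w x), (locN w x : ℝ) ^ 2 ≤
      ∑ x ∈ vis 0 w, (locN w x : ℝ) ^ 2 :=
    Finset.sum_le_sum_of_subset_of_nonneg (Finset.filter_subset _ _) fun x _ _ => sq_nonneg _
  have h4 := mul_le_mul_of_nonneg_left h3 hδ.le
  have h5 : 2 * c * ∑ x ∈ exF T w, ∑ s : Step d,
      (if Ex T (locN w) (x + vec s) then ((locN w (x + vec s) : ℝ) - locN w x) ^ 2 else 0) ≤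
      γ / (4 * d) * ∑ x ∈ exF T w, ∑ s : Step d,
        ((locN w (x + vec s) : ℝ) - locN w x) ^ 2 := by
    refine mul_le_mul ?_ ?_ ?_ (by positivity)
    · rw [le_div_iff₀ (by positivity)]
      nlinarith [mul_nonneg hc hd0.le]
    · refine Finset.sum_le_sum fun x _ => Finset.sum_le_sum fun s _ => ?_
      split_ifs
      · exact le_rfl
      · exact sq_nonneg _
    · refine Finset.sum_nonneg fun x _ => Finset.sum_nonneg fun s _ => ?_
      split_ifs
      · exact sq_nonneg _
      · exact le_rfl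
  have h6 : (soft T R i₀ w : ℝ) = (((vis 0 w).filter fun x => T ≤ locN w x ∧
      (locN w x < T + R ∧ locN w (x + vec (i₀, true)) < T)).card : ℝ) := rfl
  rw [h6]
  linarith

end Pool.Agent.DFE
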