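import Pool.Agent.Lib.DFE.Defs7
import Pool.Agent.Lib.DFE.ENBG

/-!
Row ENC: the energy bounds the weights of the sites, up to and including the critical line.
-/

set_option autoImplicit false

namespace Pool.Agent.DFE

open Finset Pool.Agent.DCOL

namespace ENCAux

variable {d : ℕ}

/-- The sum of the squares of the differences. -/
noncomputable def DD (f : Site d →₀ ℕ) (E : Finset (Site d)) : ℝ :=
  ∑ x ∈ E, ∑ s : Step d, ((f (x + vec s) : ℝ) - f x) ^ 2

open Classical in
/-- The sites with a nonzero difference. -/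
noncomputable def E₀ (f : Site d →₀ ℕ) : Finset (Site d) :=
  f.support ∪ (f.support ×ˢ (univ : Finset (Step d))).image fun q => q.1 - vec q.2

theorem DD_le (f : Site d →₀ ℕ) (E : Finset (Site d)) : DD f E ≤ DD f (E₀ f) := by
  classical
  unfold DD
  have h0 : ∀ x, 0 ≤ ∑ s : Step d, ((f (x + vec s) : ℝ) - f x) ^ 2 :=
    fun x => Finset.sum_nonneg fun s _ => sq_nonneg _
  calc _ ≤ ∑ x ∈ E ∪ E₀ f, ∑ s : Step d, ((f (x + vec s) : ℝ) - f x) ^ 2 :=
        Finset.sum_le_sum_of_subset_of_nonneg Finset.subset_union_left fun x _ _ => h0 x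
    _ = _ := by
        symm
        apply Finset.sum_subset Finset.subset_union_right
        intro x _ hx
        apply Finset.sum_eq_zero
        intro s _
        have h1 : f x = 0 := by
          by_contra h
          apply hx
          unfold E₀
          exact Finset.mem_union_left _ (Finsupp.mem_support_iff.mpr h)
        have h2 : f (x + vec s) = 0 := by
          by_contra h
          apply hx
          unfold E₀
          apply Finset.mem_union_right
          refine Finset.mem_image.mpr ⟨(x + vec s, s), Finset.mem_product.mpr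
            ⟨Finsupp.mem_support_iff.mpr h, Finset.mem_univ _⟩, ?_⟩
          simp
        rw [h1, h2]
        simp

/-- The scalar inequality (AM-GM). -/
theorem scalar {d : ℕ} (hd : 0 < d) {C b η Λ u N S G : ℝ} (hC : 0 < C) (hb : 0 < b) (hη : 0 < η)
    (hΛ : 0 < Λ) (hu : 0 ≤ u) (hS : 0 ≤ S) (hG : 0 ≤ G)
    (h1 : S ^ (2 * d) ≤ C * u ^ (d + 2) * G ^ d)
    (h2 : Λ / (4 * η) * u ≤ N)
    (h3 : 16 * C * (16 * d / b) ^ d * η ^ (2 * d + 2) * N ^ 2 ≤ Λ ^ (d + 2)) :
    η * S ≤ Λ / 8 * u + b / (8 * d) * G := by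
  have hd0 : (0 : ℝ) < d := by exact_mod_cast hd
  have hdn : 2 * d ≠ 0 := by omega
  rw [← pow_le_pow_iff_left₀ (by positivity) (by positivity) hdn]
  have h4 : Λ * u ≤ 4 * η * N := by
    have : Λ / (4 * η) * u * (4 * η) ≤ N * (4 * η) :=
      mul_le_mul_of_nonneg_right h2 (by positivity)
    have e : Λ / (4 * η) * u * (4 * η) = Λ * u := by field_simp
    linarith
  have h5 : Λ ^ 2 * u ^ 2 ≤ 16 * η ^ 2 * N ^ 2 := by
    have := pow_le_pow_left₀ (by positivity) h4 2
    calc Λ ^ 2 * u ^ 2 = (Λ * u) ^ 2 := by ring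
      _ ≤ (4 * η * N) ^ 2 := this
      _ = _ := by ring
  -- `C η^(2d) u² ≤ (Λ b / (16 d))^d`
  have h6 : C * η ^ (2 * d) * u ^ 2 ≤ (Λ * (b / (16 * d))) ^ d := by
    have h7 : Λ ^ 2 * (16 * d / b) ^ d * (C * η ^ (2 * d) * u ^ 2) ≤
        Λ ^ 2 * (16 * d / b) ^ d * (Λ * (b / (16 * d))) ^ d := by
      calc Λ ^ 2 * (16 * d / b) ^ d * (C * η ^ (2 * d) * u ^ 2)
          = (C * η ^ (2 * d) * (16 * d / b) ^ d) * (Λ ^ 2 * u ^ 2) := by ring
        _ ≤ (C * η ^ (2 * d) * (16 * d / b) ^ d) * (16 * η ^ 2 * N ^ 2) :=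
            mul_le_mul_of_nonneg_left h5 (by positivity)
        _ = 16 * C * (16 * d / b) ^ d * η ^ (2 * d + 2) * N ^ 2 := by
            rw [pow_add η]
            ring
        _ ≤ Λ ^ (d + 2) := h3
        _ = Λ ^ 2 * (16 * d / b) ^ d * (Λ * (b / (16 * d))) ^ d := by
            rw [mul_assoc, ← mul_pow]
            have e : 16 * (d : ℝ) / b * (Λ * (b / (16 * d))) = Λ := by field_simp
            rw [e]
            ring
    exact le_of_mul_le_mul_left h7 (by positivity)
  have h8 : (Λ / 8 * u + b / (8 * d) * G) ^ 2 ≥ Λ * (b / (16 * d)) * u * G := by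
    have h9 := sq_nonneg (Λ / 8 * u - b / (8 * d) * G)
    have e : 4 * (Λ / 8 * u) * (b / (8 * d) * G) = Λ * (b / (16 * d)) * u * G := by
      field_simp
      ring
    nlinarith
  calc (η * S) ^ (2 * d) = η ^ (2 * d) * S ^ (2 * d) := by rw [mul_pow]
    _ ≤ η ^ (2 * d) * (C * u ^ (d + 2) * G ^ d) := mul_le_mul_of_nonneg_left h1 (by positivity)
    _ = C * η ^ (2 * d) * u ^ 2 * (u ^ d * G ^ d) := by rw [pow_add u]; ring
    _ ≤ (Λ * (b / (16 * d))) ^ d * (u ^ d * G ^ d) :=
        mul_le_mul_of_nonneg_right h6 (by positivity)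
    _ = (Λ * (b / (16 * d)) * u * G) ^ d := by rw [← mul_pow, ← mul_pow]; ring
    _ ≤ ((Λ / 8 * u + b / (8 * d) * G) ^ 2) ^ d := pow_le_pow_left₀ (by positivity) h8 _
    _ = _ := by rw [← pow_mul]

end ENCAux

open ENBAux ENBGAux ENCAux

/-- ENC. -/
theorem enc (hFKI : FKI_stmt) : ENC_stmt := by
  classical
  intro d hd b hb
  obtain ⟨C, hC, hfki⟩ := hFKI d hd
  have hd0 : (0 : ℝ) < d := by exact_mod_cast hd
  refine ⟨16 * C * (16 * d / b) ^ d, by positivity, ?_⟩
  intro T R i₀ β γ η lam c hT hc hcγ hbγ hγβ hη hη1 hTk w hcond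
  have hγ : 0 ≤ γ := by linarith
  have hδ : 0 ≤ β - γ := by linarith
  set Λ : ℝ := Real.log (1 / η) with hΛ
  have hΛ0 : 0 < Λ := by
    apply Real.log_pos
    rw [lt_div_iff₀ hη]
    linarith
  have hkk : kk η = Λ / (4 * η) := rfl
  have hK0 : 0 < kk η := by rw [hkk]; positivity
  set f : Site d →₀ ℕ := fld w with hf
  set V : Finset (Site d) := vis 0 w with hV
  set big : Finset (Site d) := V.filter (fun x => T ≤ locN w x) with hbig
  set U : Finset (Site d) := V.filter (fun x => kk η < (locN w x : ℝ)) with hU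
  set G : ℝ := DD f (E₀ f) with hG
  have hG0 : 0 ≤ G := Finset.sum_nonneg fun x _ => Finset.sum_nonneg fun s _ => sq_nonneg _
  -- the key inequality
  have key : ∑ x ∈ U, (η * ((locN w x : ℝ) - kk η) - Λ / 8) ≤
      (β - γ) * ∑ x ∈ V, (locN w x : ℝ) ^ 2 + γ / (8 * d) * G := by
    rcases hcond with hcond | hcond
    · have h1 : ∑ x ∈ U, (η * ((locN w x : ℝ) - kk η) - Λ / 8) ≤
          ∑ x ∈ U, (β - γ) * (locN w x : ℝ) ^ 2 := by
        refine Finset.sum_le_sum fun x hx => ?_
        have hx2 : kk η < (locN w x : ℝ) := (Finset.mem_filter.mp hx).2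
        have h2 : η * (locN w x : ℝ) ≤ (β - γ) * kk η * locN w x :=
          mul_le_mul_of_nonneg_right hcond (Nat.cast_nonneg _)
        have h3 : (β - γ) * kk η * locN w x ≤ (β - γ) * locN w x * locN w x :=
          mul_le_mul_of_nonneg_right (mul_le_mul_of_nonneg_left hx2.le hδ) (Nat.cast_nonneg _)
        have h4 : 0 < η * kk η := mul_pos hη hK0
        nlinarith
      have h2 : ∑ x ∈ U, (β - γ) * (locN w x : ℝ) ^ 2 ≤
          (β - γ) * ∑ x ∈ V, (locN w x : ℝ) ^ 2 := by
        rw [Finset.mul_sum]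
        exact Finset.sum_le_sum_of_subset_of_nonneg (Finset.filter_subset _ _)
          fun x _ _ => mul_nonneg hδ (sq_nonneg _)
      have h3 : 0 ≤ γ / (8 * d) * G := by positivity
      linarith
    · have h1 := hfki f ⌊kk η⌋₊ G (fun E => DD_le f E)
      have hUe : (f.support.filter fun x => ⌊kk η⌋₊ < f x) = U := by
        rw [hf, fld_support, hU]
        refine Finset.filter_congr fun x _ => ?_
        rw [fld_apply]
        exact Nat.floor_lt hK0.le
      rw [hUe] at h1
      set u : ℝ := (U.card : ℝ) with hu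
      set S : ℝ := ∑ x ∈ U, ((f x : ℝ) - ⌊kk η⌋₊) with hS
      have hfl : (⌊kk η⌋₊ : ℝ) ≤ kk η := Nat.floor_le hK0.le
      have hS0 : 0 ≤ S := by
        refine Finset.sum_nonneg fun x hx => ?_
        have hx2 : kk η < (locN w x : ℝ) := (Finset.mem_filter.mp hx).2
        rw [hf, fld_apply]
        linarith
      have h2 : Λ / (4 * η) * u ≤ (w.length : ℝ) + 1 := by
        have h3 : (∑ x ∈ V, (locN w x : ℝ)) = (w.length : ℝ) + 1 := by
          have := sum_locN w
          rw [hV]
          exact_mod_cast this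
        rw [← h3, ← hkk, hu, mul_comm, ← nsmul_eq_mul]
        calc U.card • kk η ≤ ∑ x ∈ U, (locN w x : ℝ) := by
              apply Finset.card_nsmul_le_sum
              intro x hx
              exact (Finset.mem_filter.mp hx).2.le
          _ ≤ _ := Finset.sum_le_sum_of_subset_of_nonneg (Finset.filter_subset _ _)
              fun x _ _ => Nat.cast_nonneg _
      have h4 := scalar hd hC hb hη hΛ0 (Nat.cast_nonneg _ : 0 ≤ u) hS0 hG0 h1 h2 hcond
      have h5 : ∑ x ∈ U, (η * ((locN w x : ℝ) - kk η) - Λ / 8) ≤ η * S - Λ / 8 * u := by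
        rw [Finset.sum_sub_distrib, ← Finset.mul_sum, Finset.sum_const, nsmul_eq_mul]
        have h6 : ∑ x ∈ U, ((locN w x : ℝ) - kk η) ≤ S := by
          rw [hS]
          refine Finset.sum_le_sum fun x _ => ?_
          rw [hf, fld_apply]
          linarith
        have h7 := mul_le_mul_of_nonneg_left h6 hη.le
        linarith
      have h6 : b / (8 * d) * G ≤ γ / (8 * d) * G := by
        apply mul_le_mul_of_nonneg_right _ hG0
        apply div_le_div_of_nonneg_right hbγ (by positivity)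
      have h7 : 0 ≤ (β - γ) * ∑ x ∈ V, (locN w x : ℝ) ^ 2 :=
        mul_nonneg hδ (Finset.sum_nonneg fun x _ => sq_nonneg _)
      linarith
  -- the gains
  have hgain : ∑ x ∈ big, gc η (locN w x) + ∑ x ∈ U, (η * ((locN w x : ℝ) - kk η) - Λ / 8) =
      ∑ x ∈ big, η * (locN w x : ℝ) := by
    have hUb : U = big.filter (fun x => kk η < (locN w x : ℝ)) := by
      rw [hU, hbig, Finset.filter_filter]
      refine Finset.filter_congr fun x _ => ?_
      constructor
      · intro h
        refine ⟨?_, h⟩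
        have : (T : ℝ) ≤ locN w x := hTk.trans h.le
        exact_mod_cast this
      · exact fun h => h.2
    rw [hUb, Finset.sum_filter (s := big) (fun x => kk η < (locN w x : ℝ)),
      ← Finset.sum_add_distrib]
    refine Finset.sum_congr rfl fun x _ => ?_
    unfold gc
    by_cases h : kk η < (locN w x : ℝ)
    · rw [if_pos h, if_pos h, min_eq_right h.le]
      ring
    · rw [if_neg h, if_neg h, min_eq_left (not_lt.mp h)]
      ring
  rw [Finset.prod_congr rfl fun x _ => omg_eq T R i₀ (gc η) 0 lam c w x, ← Real.exp_sum,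
    ← Real.exp_add]
  refine Real.exp_le_exp.mpr ?_
  have hEn : En β γ (loc w) = En β γ (fun x => (fld w x : ℝ)) := by
    congr 1
    funext x
    rw [loc_eq, fld_apply]
  have h1 := En_ge_all hd hγ (β := β) (fld w) (E₀ f)
  rw [← hEn, fld_support] at h1
  have h1' : (β - γ) * ∑ x ∈ V, (locN w x : ℝ) ^ 2 + γ / (4 * d) * G ≤ En β γ (loc w) := h1
  rw [Finset.sum_sub_distrib, ← Finset.sum_filter, filter_exF T (by omega) w,
    Finset.sum_sub_distrib, Finset.sum_sub_distrib, ← Finset.mul_sum,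
    ← Finset.mul_sum, ← Finset.sum_filter, Finset.filter_filter, Finset.sum_const, nsmul_eq_mul,
    zero_mul]
  have h5 : 2 * c * ∑ x ∈ exF T w, ∑ s : Step d,
      (if Ex T (locN w) (x + vec s) then ((locN w (x + vec s) : ℝ) - locN w x) ^ 2 else 0) ≤
      γ / (8 * d) * G := by
    refine mul_le_mul ?_ ?_ ?_ (by positivity)
    · rw [le_div_iff₀ (by positivity)]
      nlinarith [mul_nonneg hc hd0.le]
    · refine le_trans ?_ (DD_le f (exF T w))
      refine Finset.sum_le_sum fun x _ => Finset.sum_le_sum fun s _ => ?_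
      split_ifs
      · exact le_rfl
      · exact sq_nonneg _
    · refine Finset.sum_nonneg fun x _ => Finset.sum_nonneg fun s _ => ?_
      split_ifs
      · exact sq_nonneg _
      · exact le_rfl
  have h6 : (soft T R i₀ w : ℝ) = (((vis 0 w).filter fun x => T ≤ locN w x ∧
      (locN w x < T + R ∧ locN w (x + vec (i₀, true)) < T)).card : ℝ) := rfl
  rw [h6]
  have h7 := mul_le_mul_of_nonneg_left (sum_big T w) hη.le
  rw [Finset.mul_sum, ← hV, ← hbig, ← hgain] at h7
  have h8 : γ / (4 * d) * G = γ / (8 * d) * G + γ / (8 * d) * G := by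
    field_simp
    ring
  rw [← hV, ← hbig]
  linarith

end Pool.Agent.DFE
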