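import Pool.Agent.Lib.DFE.Defs2

/-!
# Row EXPL2: exploration with general weights
-/

set_option autoImplicit false

namespace Pool.Agent.DFE

open Finset Pool.Agent.DCOL

namespace EXPL2Aux

variable {d : ℕ}

theorem base {κ : ℝ} {ψ : ℕ → ℕ → ℝ} (F : Finset (Site d →₀ ℕ)) (P : Finset (Site d))
    (h : Site d → ℕ) (h1 : ∀ f ∈ F, ∀ x ∈ P, f x = h x) (h2 : ∀ f ∈ F, f.support = P) :
    ∑ f ∈ F, ∏ x ∈ f.support \ P, wt2 κ ψ f x ≤ 1 := by
  have h3 : F.card ≤ 1 := by
    rw [Finset.card_le_one]
    intro f hf g hg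
    ext x
    by_cases hx : x ∈ P
    · rw [h1 f hf x hx, h1 g hg x hx]
    · have e1 : x ∉ f.support := by rwa [h2 f hf]
      have e2 : x ∉ g.support := by rwa [h2 g hg]
      rw [Finsupp.notMem_support_iff.mp e1, Finsupp.notMem_support_iff.mp e2]
  calc ∑ f ∈ F, ∏ x ∈ f.support \ P, wt2 κ ψ f x = ∑ _f ∈ F, (1 : ℝ) := by
        refine Finset.sum_congr rfl fun f hf => ?_
        rw [h2 f hf, Finset.sdiff_self, Finset.prod_empty]
    _ = F.card := by rw [Finset.sum_const, nsmul_eq_mul, mul_one]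
    _ ≤ 1 := by exact_mod_cast h3

theorem main {κ G : ℝ} {ψ : ℕ → ℕ → ℝ} (hκ : 0 ≤ κ) (hψ : ∀ a b, 0 ≤ ψ a b)
    (hG : ∀ (T : Finset ℕ) (a : ℕ), ∑ b ∈ T, ψ a b ≤ G)
    (hκG : κ * G ^ (2 * d) ≤ 1) (p : Site d) (M : ℕ) :
    ∀ (F : Finset (Site d →₀ ℕ)) (P D : Finset (Site d)) (h : Site d → ℕ),
      (∀ f ∈ F, ∀ x ∈ D, f x = h x) → (∀ f ∈ F, P ⊆ f.support) →
      (∀ f ∈ F, f.support.card ≤ P.card + M) → p ∈ D → P ⊆ D →
      (∀ x ∈ P, ∀ s : Step d, x + vec s ∈ D) → (∀ f ∈ F, f p ≠ 0 ∧ Conn2 p f) →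
      ∑ f ∈ F, ∏ x ∈ f.support \ P, wt2 κ ψ f x ≤ 1 := by
  classical
  induction M with
  | zero =>
    intro F P D h h1 h2 h3 _ h5 _ _
    exact base F P h (fun f hf x hx => h1 f hf x (h5 hx)) fun f hf =>
      (Finset.eq_of_subset_of_card_le (h2 f hf) (h3 f hf)).symm
  | succ M ih =>
    intro F P D h h1 h2 h3 h4 h5 h6 h7
    by_cases hx : ∃ x, x ∈ D ∧ x ∉ P ∧ h x ≠ 0
    · obtain ⟨x, hxD, hxP, hxh⟩ := hx
      set Φ : (Site d →₀ ℕ) → Step d → ℕ := fun f s => f (x + vec s) with hΦ
      have hsplit : ∀ f ∈ F, ∏ y ∈ f.support \ P, wt2 κ ψ f y =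
          (κ * ∏ s : Step d, ψ (h x) (Φ f s)) *
            ∏ y ∈ f.support \ insert x P, wt2 κ ψ f y := by
        intro f hf
        have e1 : x ∈ f.support \ P := by
          rw [Finset.mem_sdiff, Finsupp.mem_support_iff, h1 f hf x hxD]
          exact ⟨hxh, hxP⟩
        rw [← Finset.mul_prod_erase _ _ e1, wt2, h1 f hf x hxD]
        congr 2
        ext y
        simp only [Finset.mem_erase, Finset.mem_sdiff, Finset.mem_insert]
        tauto
      have hin : ∀ g ∈ F.image Φ, ∑ f ∈ F.filter (fun f => Φ f = g),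
          ∏ y ∈ f.support \ P, wt2 κ ψ f y ≤ κ * ∏ s : Step d, ψ (h x) (g s) := by
        intro g hg
        obtain ⟨f₀, hf₀, rfl⟩ := Finset.mem_image.mp hg
        have e1 : ∀ f ∈ F.filter (fun f => Φ f = Φ f₀), ∏ y ∈ f.support \ P, wt2 κ ψ f y =
            (κ * ∏ s : Step d, ψ (h x) (Φ f₀ s)) *
              ∏ y ∈ f.support \ insert x P, wt2 κ ψ f y := by
          intro f hf
          rw [Finset.mem_filter] at hf
          rw [hsplit f hf.1, hf.2]
        rw [Finset.sum_congr rfl e1, ← Finset.mul_sum]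
        have e2 : 0 ≤ κ * ∏ s : Step d, ψ (h x) (Φ f₀ s) :=
          mul_nonneg hκ (Finset.prod_nonneg fun s _ => hψ _ _)
        refine mul_le_of_le_one_right e2 ?_
        refine ih (F.filter fun f => Φ f = Φ f₀) (insert x P)
          (D ∪ univ.image fun s : Step d => x + vec s) f₀ ?_ ?_ ?_ ?_ ?_ ?_ ?_
        · intro f hf y hy
          rw [Finset.mem_filter] at hf
          rcases Finset.mem_union.mp hy with hy | hy
          · rw [h1 f hf.1 y hy, h1 f₀ hf₀ y hy]
          · obtain ⟨s, -, rfl⟩ := Finset.mem_image.mp hy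
            exact congrFun hf.2 s
        · intro f hf
          rw [Finset.mem_filter] at hf
          rw [Finset.insert_subset_iff]
          refine ⟨?_, h2 f hf.1⟩
          rw [Finsupp.mem_support_iff, h1 f hf.1 x hxD]
          exact hxh
        · intro f hf
          rw [Finset.mem_filter] at hf
          rw [Finset.card_insert_of_notMem hxP]
          have := h3 f hf.1
          omega
        · exact Finset.mem_union_left _ h4
        · rw [Finset.insert_subset_iff]
          exact ⟨Finset.mem_union_left _ hxD, h5.trans Finset.subset_union_left⟩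
        · intro y hy s
          rcases Finset.mem_insert.mp hy with rfl | hy
          · exact Finset.mem_union_right _ (Finset.mem_image_of_mem _ (Finset.mem_univ s))
          · exact Finset.mem_union_left _ (h6 y hy s)
        · intro f hf
          exact h7 f (Finset.mem_filter.mp hf).1
      rw [← Finset.sum_fiberwise_of_maps_to (fun f hf => Finset.mem_image_of_mem Φ hf)]
      refine (Finset.sum_le_sum hin).trans ?_
      set T : Step d → Finset ℕ := fun s => F.image fun f => f (x + vec s) with hT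
      have hsub : F.image Φ ⊆ Fintype.piFinset T := by
        intro g hg
        obtain ⟨f, hf, rfl⟩ := Finset.mem_image.mp hg
        rw [Fintype.mem_piFinset]
        intro s
        exact Finset.mem_image_of_mem _ hf
      calc ∑ g ∈ F.image Φ, κ * ∏ s : Step d, ψ (h x) (g s) ≤
          ∑ g ∈ Fintype.piFinset T, κ * ∏ s : Step d, ψ (h x) (g s) :=
            Finset.sum_le_sum_of_subset_of_nonneg hsub fun g _ _ =>
              mul_nonneg hκ (Finset.prod_nonneg fun s _ => hψ _ _)
        _ = κ * ∏ s : Step d, ∑ b ∈ T s, ψ (h x) b := by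
            rw [Finset.prod_univ_sum, Finset.mul_sum]
        _ ≤ κ * ∏ _s : Step d, G := by
            refine mul_le_mul_of_nonneg_left (Finset.prod_le_prod (fun s _ =>
              Finset.sum_nonneg fun b _ => hψ _ _) fun s _ => hG _ _) hκ
        _ = κ * G ^ (2 * d) := by
            rw [Finset.prod_const, Finset.card_univ, Fintype.card_prod, Fintype.card_fin,
              Fintype.card_bool, mul_comm d 2]
        _ ≤ 1 := hκG
    · push Not at hx
      refine base F P h (fun f hf x hx => h1 f hf x (h5 hx)) fun f hf => ?_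
      refine Finset.Subset.antisymm ((h7 f hf).2 P ?_ ?_) (h2 f hf)
      · by_contra h0
        exact (h7 f hf).1 (by rw [h1 f hf p h4]; exact hx p h4 h0)
      · intro x hxP s hs
        by_contra h0
        exact hs (by rw [h1 f hf _ (h6 x hxP s)]; exact hx _ (h6 x hxP s) h0)

end EXPL2Aux

theorem expl2 : EXPL2_stmt := by
  classical
  intro d κ G ψ hκ hψ hG hκG p a F ha hF
  have := EXPL2Aux.main hκ hψ hG hκG p (F.sup fun f => f.support.card) F ∅ {p} (fun _ => a) (by
    intro f hf x hx
    rw [Finset.mem_singleton.mp hx]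
    exact (hF f hf).1) (fun f _ => Finset.empty_subset _) (by
    intro f hf
    rw [Finset.card_empty, zero_add]
    exact Finset.le_sup (f := fun f : Site d →₀ ℕ => f.support.card) hf)
    (Finset.mem_singleton_self _) (Finset.empty_subset _) (by simp)
    (fun f hf => ⟨by rw [(hF f hf).1]; exact ha, (hF f hf).2⟩)
  simpa only [Finset.sdiff_empty] using this

end Pool.Agent.DFE
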