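import Pool.Agent.Lib.DFE.Fam

/-!
The sum over all connected local time fields: exploration site by site.
-/

set_option autoImplicit false

namespace Pool.Agent.DFE

open Finset Pool.Agent.DCOL

variable {d : ℕ}

/-- The support of `f` is contained in every set that contains the origin and is closed under
steps inside the support. -/
def Conn (f : Site d →₀ ℕ) : Prop := ∀ P : Finset (Site d), 0 ∈ P →
  (∀ x ∈ P, ∀ s : Step d, f (x + vec s) ≠ 0 → x + vec s ∈ P) → f.support ⊆ P

theorem vis_subset {f : Site d → ℕ} {P : Finset (Site d)}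
    (hP : ∀ x ∈ P, ∀ s : Step d, f (x + vec s) ≠ 0 → x + vec s ∈ P) (w : List (Step d)) :
    ∀ p ∈ P, (∀ y ∈ vis p w, f y ≠ 0) → vis p w ⊆ P := by
  induction w with
  | nil => intro p hp _; rw [vis]; simpa using hp
  | cons s w ih =>
    intro p hp hy
    rw [vis] at hy ⊢
    rw [Finset.insert_subset_iff]
    refine ⟨hp, ih _ (hP p hp s ?_) fun y hy' => hy y (Finset.mem_insert_of_mem hy')⟩
    exact hy _ (Finset.mem_insert_of_mem (mem_vis_self _ _))

/-- The weight of the site `x`. -/
noncomputable def wt (κ : ℝ) (ψ : ℤ → ℝ) (f : Site d →₀ ℕ) (x : Site d) : ℝ :=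
  κ * ∏ s : Step d, ψ ((f (x + vec s) : ℤ) - f x)

theorem expl_base {κ : ℝ} {ψ : ℤ → ℝ} (F : Finset (Site d →₀ ℕ)) (P : Finset (Site d))
    (h : Site d → ℕ) (h1 : ∀ f ∈ F, ∀ x ∈ P, f x = h x) (h2 : ∀ f ∈ F, f.support = P) :
    ∑ f ∈ F, ∏ x ∈ f.support \ P, wt κ ψ f x ≤ 1 := by
  have h3 : F.card ≤ 1 := by
    rw [Finset.card_le_one]
    intro f hf g hg
    ext x
    by_cases hx : x ∈ P
    · rw [h1 f hf x hx, h1 g hg x hx]
    · have e1 : x ∉ f.support := by rwa [h2 f hf]
      have e2 : x ∉ g.support := by rwa [h2 g hg]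
      rw [Finsupp.notMem_support_iff.mp e1, Finsupp.notMem_support_iff.mp e2]
  calc ∑ f ∈ F, ∏ x ∈ f.support \ P, wt κ ψ f x = ∑ _f ∈ F, (1 : ℝ) := by
        refine Finset.sum_congr rfl fun f hf => ?_
        rw [h2 f hf, Finset.sdiff_self, Finset.prod_empty]
    _ = F.card := by rw [Finset.sum_const, nsmul_eq_mul, mul_one]
    _ ≤ 1 := by exact_mod_cast h3

theorem expl {κ G : ℝ} {ψ : ℤ → ℝ} (hκ : 0 ≤ κ) (hψ : ∀ g, 0 ≤ ψ g)
    (hG : ∀ (T : Finset ℕ) (a : ℕ), ∑ b ∈ T, ψ ((b : ℤ) - a) ≤ G)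
    (hκG : κ * G ^ (2 * d) ≤ 1) (M : ℕ) :
    ∀ (F : Finset (Site d →₀ ℕ)) (P D : Finset (Site d)) (h : Site d → ℕ),
      (∀ f ∈ F, ∀ x ∈ D, f x = h x) → (∀ f ∈ F, P ⊆ f.support) →
      (∀ f ∈ F, f.support.card ≤ P.card + M) → 0 ∈ D → P ⊆ D →
      (∀ x ∈ P, ∀ s : Step d, x + vec s ∈ D) → (∀ f ∈ F, f 0 ≠ 0 ∧ Conn f) →
      ∑ f ∈ F, ∏ x ∈ f.support \ P, wt κ ψ f x ≤ 1 := by
  classical
  induction M with
  | zero =>
    intro F P D h h1 h2 h3 _ h5 _ _
    exact expl_base F P h (fun f hf x hx => h1 f hf x (h5 hx)) fun f hf =>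
      (Finset.eq_of_subset_of_card_le (h2 f hf) (h3 f hf)).symm
  | succ M ih =>
    intro F P D h h1 h2 h3 h4 h5 h6 h7
    by_cases hx : ∃ x, x ∈ D ∧ x ∉ P ∧ h x ≠ 0
    · obtain ⟨x, hxD, hxP, hxh⟩ := hx
      set Φ : (Site d →₀ ℕ) → Step d → ℕ := fun f s => f (x + vec s) with hΦ
      have hsplit : ∀ f ∈ F, ∏ y ∈ f.support \ P, wt κ ψ f y =
          (κ * ∏ s : Step d, ψ ((Φ f s : ℤ) - h x)) *
            ∏ y ∈ f.support \ insert x P, wt κ ψ f y := by
        intro f hf
        have e1 : x ∈ f.support \ P := by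
          rw [Finset.mem_sdiff, Finsupp.mem_support_iff, h1 f hf x hxD]
          exact ⟨hxh, hxP⟩
        rw [← Finset.mul_prod_erase _ _ e1, wt, h1 f hf x hxD]
        congr 2
        ext y
        simp only [Finset.mem_erase, Finset.mem_sdiff, Finset.mem_insert]
        tauto
      have hin : ∀ g ∈ F.image Φ, ∑ f ∈ F.filter (fun f => Φ f = g),
          ∏ y ∈ f.support \ P, wt κ ψ f y ≤ κ * ∏ s : Step d, ψ ((g s : ℤ) - h x) := by
        intro g hg
        obtain ⟨f₀, hf₀, rfl⟩ := Finset.mem_image.mp hg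
        have e1 : ∀ f ∈ F.filter (fun f => Φ f = Φ f₀), ∏ y ∈ f.support \ P, wt κ ψ f y =
            (κ * ∏ s : Step d, ψ ((Φ f₀ s : ℤ) - h x)) *
              ∏ y ∈ f.support \ insert x P, wt κ ψ f y := by
          intro f hf
          rw [Finset.mem_filter] at hf
          rw [hsplit f hf.1, hf.2]
        rw [Finset.sum_congr rfl e1, ← Finset.mul_sum]
        have e2 : 0 ≤ κ * ∏ s : Step d, ψ ((Φ f₀ s : ℤ) - h x) :=
          mul_nonneg hκ (Finset.prod_nonneg fun s _ => hψ _)
        refine mul_le_of_le_one_right e2 ?_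
        refine ih (F.filter fun f => Φ f = Φ f₀) (insert x P)
          (D ∪ univ.image fun s : Step d => x + vec s) f₀ ?_ ?_ ?_ ?_ ?_ ?_ ?_
        · intro f hf y hy
          rw [Finset.mem_filter] at hf
          rcases Finset.mem_union.mp hy with hy | hy
          · rw [h1 f hf.1 y hy, h1 f₀ hf₀ y hy]
          · obtain ⟨s, -, rfl⟩ := Finset.mem_image.mp hy
            exact congrFun hf.2 s
        · intro f hf
          rw [Finset.mem_filter] at hf
          rw [Finset.insert_subset_iff]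
          refine ⟨?_, h2 f hf.1⟩
          rw [Finsupp.mem_support_iff, h1 f hf.1 x hxD]
          exact hxh
        · intro f hf
          rw [Finset.mem_filter] at hf
          rw [Finset.card_insert_of_notMem hxP]
          have := h3 f hf.1
          omega
        · exact Finset.mem_union_left _ h4
        · rw [Finset.insert_subset_iff]
          exact ⟨Finset.mem_union_left _ hxD, h5.trans Finset.subset_union_left⟩
        · intro y hy s
          rcases Finset.mem_insert.mp hy with rfl | hy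
          · exact Finset.mem_union_right _ (Finset.mem_image_of_mem _ (Finset.mem_univ s))
          · exact Finset.mem_union_left _ (h6 y hy s)
        · intro f hf
          exact h7 f (Finset.mem_filter.mp hf).1
      rw [← Finset.sum_fiberwise_of_maps_to (fun f hf => Finset.mem_image_of_mem Φ hf)]
      refine (Finset.sum_le_sum hin).trans ?_
      set T : Step d → Finset ℕ := fun s => F.image fun f => f (x + vec s) with hT
      have hsub : F.image Φ ⊆ Fintype.piFinset T := by
        intro g hg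
        obtain ⟨f, hf, rfl⟩ := Finset.mem_image.mp hg
        rw [Fintype.mem_piFinset]
        intro s
        exact Finset.mem_image_of_mem _ hf
      calc ∑ g ∈ F.image Φ, κ * ∏ s : Step d, ψ ((g s : ℤ) - h x) ≤
          ∑ g ∈ Fintype.piFinset T, κ * ∏ s : Step d, ψ ((g s : ℤ) - h x) :=
            Finset.sum_le_sum_of_subset_of_nonneg hsub fun g _ _ =>
              mul_nonneg hκ (Finset.prod_nonneg fun s _ => hψ _)
        _ = κ * ∏ s : Step d, ∑ b ∈ T s, ψ ((b : ℤ) - h x) := by
            rw [Finset.prod_univ_sum, Finset.mul_sum]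
        _ ≤ κ * ∏ _s : Step d, G := by
            refine mul_le_mul_of_nonneg_left (Finset.prod_le_prod (fun s _ =>
              Finset.sum_nonneg fun b _ => hψ _) fun s _ => hG _ _) hκ
        _ = κ * G ^ (2 * d) := by
            rw [Finset.prod_const, Finset.card_univ, Fintype.card_prod, Fintype.card_fin,
              Fintype.card_bool, mul_comm d 2]
        _ ≤ 1 := hκG
    · push Not at hx
      refine expl_base F P h (fun f hf x hx => h1 f hf x (h5 hx)) fun f hf => ?_
      refine Finset.Subset.antisymm ((h7 f hf).2 P ?_ ?_) (h2 f hf)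
      · by_contra h0
        exact (h7 f hf).1 (by rw [h1 f hf 0 h4]; exact hx 0 h4 h0)
      · intro x hxP s hs
        by_contra h0
        exact hs (by rw [h1 f hf _ (h6 x hxP s)]; exact hx _ (h6 x hxP s) h0)

/-- The sum over all fields with a given bound for the value at the origin. -/
theorem expl_all {κ G : ℝ} {ψ : ℤ → ℝ} (hκ : 0 ≤ κ) (hψ : ∀ g, 0 ≤ ψ g)
    (hG : ∀ (T : Finset ℕ) (a : ℕ), ∑ b ∈ T, ψ ((b : ℤ) - a) ≤ G)
    (hκG : κ * G ^ (2 * d) ≤ 1) (F : Finset (Site d →₀ ℕ)) (K : ℕ)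
    (hF : ∀ f ∈ F, f 0 ≠ 0 ∧ f 0 ≤ K ∧ Conn f) :
    ∑ f ∈ F, ∏ x ∈ f.support, wt κ ψ f x ≤ K := by
  classical
  rw [← Finset.sum_fiberwise_of_maps_to (g := fun f : Site d →₀ ℕ => f 0) (t := Finset.Icc 1 K)
    fun f hf => Finset.mem_Icc.mpr ⟨Nat.one_le_iff_ne_zero.mpr (hF f hf).1, (hF f hf).2.1⟩]
  calc ∑ a ∈ Finset.Icc 1 K, ∑ f ∈ F.filter (fun f => f 0 = a), ∏ x ∈ f.support, wt κ ψ f x ≤
      ∑ _a ∈ Finset.Icc 1 K, (1 : ℝ) := by
        refine Finset.sum_le_sum fun a _ => ?_
        have := expl hκ hψ hG hκG (F.sup fun f => f.support.card)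
          (F.filter fun f => f 0 = a) ∅ {0} (fun _ => a) (by
            intro f hf x hx
            rw [Finset.mem_singleton.mp hx]
            exact (Finset.mem_filter.mp hf).2) (fun f _ => Finset.empty_subset _) (by
            intro f hf
            rw [Finset.card_empty, zero_add]
            exact Finset.le_sup (f := fun f : Site d →₀ ℕ => f.support.card)
              (Finset.mem_filter.mp hf).1) (Finset.mem_singleton_self _)
          (Finset.empty_subset _) (by simp) (fun f hf => ⟨(hF f (Finset.mem_filter.mp hf).1).1,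
            (hF f (Finset.mem_filter.mp hf).1).2.2⟩)
        simpa only [Finset.sdiff_empty] using this
    _ = K := by
      rw [Finset.sum_const, Nat.card_Icc, Nat.add_sub_cancel, nsmul_eq_mul, mul_one]

end Pool.Agent.DFE
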