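import Pool.Agent.Lib.DFE.Defs7

/-!
Row FKI: the sum of the excess over a level (coarea, isoperimetry and Cauchy-Schwarz).
-/

set_option autoImplicit false

namespace Pool.Agent.DFE

open Finset Pool.Agent.DCOL

namespace FKIAux

variable {d : ℕ}

/-- The sites above the level `k`. -/
noncomputable def UU (f : Site d →₀ ℕ) (k : ℕ) : Finset (Site d) :=
  f.support.filter fun x => k < f x

theorem mem_UU (f : Site d →₀ ℕ) (k : ℕ) (x : Site d) : x ∈ UU f k ↔ k < f x := by
  unfold UU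
  rw [Finset.mem_filter, Finsupp.mem_support_iff]
  constructor
  · exact fun h => h.2
  · exact fun h => ⟨by omega, h⟩

/-- The largest value. -/
noncomputable def mx (f : Site d →₀ ℕ) : ℕ := f.support.sup fun x => f x

theorem le_mx (f : Site d →₀ ℕ) (x : Site d) : f x ≤ mx f := by
  by_cases h : x ∈ f.support
  · exact Finset.le_sup (f := fun x => f x) h
  · rw [Finsupp.notMem_support_iff.mp h]
    exact Nat.zero_le _

/-- The layers. -/
theorem layer (f : Site d →₀ ℕ) (k : ℕ) :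
    ∑ x ∈ UU f k, ((f x : ℝ) - k) =
      ∑ j ∈ Finset.Ioc k (mx f), (((UU f k).filter fun x => j ≤ f x).card : ℝ) := by
  have h1 : ∀ j, (((UU f k).filter fun x => j ≤ f x).card : ℝ) =
      ∑ x ∈ UU f k, if j ≤ f x then (1 : ℝ) else 0 := by
    intro j
    rw [Finset.sum_ite, Finset.sum_const_zero, add_zero, Finset.sum_const, nsmul_eq_mul, mul_one]
  rw [Finset.sum_congr rfl fun j _ => h1 j, Finset.sum_comm]
  refine Finset.sum_congr rfl fun x hx => ?_
  have hk : k < f x := (mem_UU f k x).mp hx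
  rw [Finset.sum_ite, Finset.sum_const_zero, add_zero, Finset.sum_const, nsmul_eq_mul, mul_one]
  have h2 : (Finset.Ioc k (mx f)).filter (fun j => j ≤ f x) = Finset.Ioc k (f x) := by
    ext j
    rw [Finset.mem_filter, Finset.mem_Ioc, Finset.mem_Ioc]
    have := le_mx f x
    omega
  rw [h2, Nat.card_Ioc, Nat.cast_sub hk.le]

/-- The boundaries of the layers. -/
theorem bdrs (f : Site d →₀ ℕ) (k : ℕ) :
    ∑ j ∈ Finset.Ioc k (mx f), ((bdr ((UU f k).filter fun x => j ≤ f x)).card : ℝ) ≤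
      ∑ q ∈ UU f k ×ˢ (univ : Finset (Step d)), |(f (q.1 + vec q.2) : ℝ) - f q.1| := by
  classical
  have h1 : ∀ j ∈ Finset.Ioc k (mx f), ((bdr ((UU f k).filter fun x => j ≤ f x)).card : ℝ) ≤
      ∑ q ∈ UU f k ×ˢ (univ : Finset (Step d)),
        if f (q.1 + vec q.2) < j ∧ j ≤ f q.1 then (1 : ℝ) else 0 := by
    intro j hj
    rw [Finset.mem_Ioc] at hj
    rw [Finset.sum_ite, Finset.sum_const_zero, add_zero, Finset.sum_const, nsmul_eq_mul, mul_one]
    have h2 : bdr ((UU f k).filter fun x => j ≤ f x) ⊆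
        (UU f k ×ˢ (univ : Finset (Step d))).filter
          fun q => f (q.1 + vec q.2) < j ∧ j ≤ f q.1 := by
      intro q hq
      unfold bdr at hq
      obtain ⟨hq1, hq2⟩ := Finset.mem_filter.mp hq
      obtain ⟨hq3, -⟩ := Finset.mem_product.mp hq1
      obtain ⟨hq4, hq5⟩ := Finset.mem_filter.mp hq3
      refine Finset.mem_filter.mpr ⟨Finset.mem_product.mpr ⟨hq4, Finset.mem_univ _⟩, ?_, hq5⟩
      by_contra hn
      rw [not_lt] at hn
      apply hq2
      refine Finset.mem_filter.mpr ⟨(mem_UU f k _).mpr (by omega), hn⟩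
    exact_mod_cast Finset.card_le_card h2
  refine (Finset.sum_le_sum h1).trans ?_
  rw [Finset.sum_comm]
  refine Finset.sum_le_sum fun q _ => ?_
  rw [Finset.sum_ite, Finset.sum_const_zero, add_zero, Finset.sum_const, nsmul_eq_mul, mul_one]
  have h3 : (Finset.Ioc k (mx f)).filter (fun j => f (q.1 + vec q.2) < j ∧ j ≤ f q.1) ⊆
      Finset.Ioc (f (q.1 + vec q.2)) (f q.1) := by
    intro j hj
    exact Finset.mem_Ioc.mpr (Finset.mem_filter.mp hj).2
  have h4 := Finset.card_le_card h3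
  rw [Nat.card_Ioc] at h4
  rcases le_total (f (q.1 + vec q.2)) (f q.1) with h | h
  · have h5 : (((Finset.Ioc k (mx f)).filter
        (fun j => f (q.1 + vec q.2) < j ∧ j ≤ f q.1)).card : ℝ) ≤
        (f q.1 : ℝ) - f (q.1 + vec q.2) := by
      rw [← Nat.cast_sub h]
      exact_mod_cast h4
    refine h5.trans ?_
    rw [abs_sub_comm]
    exact le_abs_self _
  · have h5 : ((Finset.Ioc k (mx f)).filter
        (fun j => f (q.1 + vec q.2) < j ∧ j ≤ f q.1)).card = 0 := by omega
    rw [h5, Nat.cast_zero]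
    exact abs_nonneg _

end FKIAux

open FKIAux

/-- FKI. -/
theorem fki (hISO : ISO_stmt) : FKI_stmt := by
  classical
  intro d hd
  obtain ⟨c, hc, hiso⟩ := hISO d hd
  have hd1 : (1 : ℝ) ≤ d := by exact_mod_cast hd
  have hd0 : d ≠ 0 := by omega
  refine ⟨(2 * d) ^ d / c ^ (2 * d), by positivity, fun f k G hG => ?_⟩
  have hU : (f.support.filter fun x => k < f x) = UU f k := rfl
  rw [hU, layer]
  have hG0 : 0 ≤ G := by simpa using hG ∅
  set u : ℝ := ((UU f k).card : ℝ) with hu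
  have hu0 : 0 ≤ u := Nat.cast_nonneg _
  set A : ℝ := u ^ ((d : ℝ)⁻¹) / c with hA
  have hA0 : 0 ≤ A := by positivity
  set B : ℝ := ∑ q ∈ UU f k ×ˢ (univ : Finset (Step d)), |(f (q.1 + vec q.2) : ℝ) - f q.1| with hB
  have hB0 : 0 ≤ B := Finset.sum_nonneg fun _ _ => abs_nonneg _
  -- isoperimetry for one layer
  have h1 : ∀ j ∈ Finset.Ioc k (mx f), (((UU f k).filter fun x => j ≤ f x).card : ℝ) ≤
      A * ((bdr ((UU f k).filter fun x => j ≤ f x)).card : ℝ) := by
    intro j _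
    rcases Finset.eq_empty_or_nonempty ((UU f k).filter fun x => j ≤ f x) with he | hne
    · rw [he, Finset.card_empty, Nat.cast_zero]
      positivity
    · have h2 := hiso _ hne
      set L : ℝ := (((UU f k).filter fun x => j ≤ f x).card : ℝ) with hL
      have hL0 : 0 < L := by
        rw [hL]
        exact_mod_cast Finset.card_pos.mpr hne
      have hLu : L ≤ u := by
        rw [hL, hu]
        exact_mod_cast Finset.card_le_card (Finset.filter_subset _ _)
      have h3 : L = L ^ ((d : ℝ)⁻¹) * L ^ (1 - 1 / (d : ℝ)) := by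
        rw [← Real.rpow_add hL0]
        have : (d : ℝ)⁻¹ + (1 - 1 / (d : ℝ)) = 1 := by rw [one_div]; ring
        rw [this, Real.rpow_one]
      have h4 : L ^ ((d : ℝ)⁻¹) ≤ u ^ ((d : ℝ)⁻¹) :=
        Real.rpow_le_rpow hL0.le hLu (by positivity)
      have h5 : L ^ (1 - 1 / (d : ℝ)) ≤
          ((bdr ((UU f k).filter fun x => j ≤ f x)).card : ℝ) / c := by
        rw [le_div_iff₀ hc, mul_comm]
        exact h2
      calc L = L ^ ((d : ℝ)⁻¹) * L ^ (1 - 1 / (d : ℝ)) := h3
        _ ≤ u ^ ((d : ℝ)⁻¹) * (((bdr ((UU f k).filter fun x => j ≤ f x)).card : ℝ) / c) :=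
            mul_le_mul h4 h5 (Real.rpow_nonneg hL0.le _) (Real.rpow_nonneg hu0 _)
        _ = _ := by rw [hA]; ring
  have h6 : ∑ j ∈ Finset.Ioc k (mx f), (((UU f k).filter fun x => j ≤ f x).card : ℝ) ≤ A * B := by
    refine (Finset.sum_le_sum h1).trans ?_
    rw [← Finset.mul_sum]
    exact mul_le_mul_of_nonneg_left (bdrs f k) hA0
  have h7 : (0 : ℝ) ≤ ∑ j ∈ Finset.Ioc k (mx f), (((UU f k).filter fun x => j ≤ f x).card : ℝ) :=
    Finset.sum_nonneg fun _ _ => Nat.cast_nonneg _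
  -- Cauchy-Schwarz
  have h8 : B ^ 2 ≤ 2 * d * u * G := by
    have h9 : B ^ 2 ≤ (UU f k ×ˢ (univ : Finset (Step d))).card *
        ∑ q ∈ UU f k ×ˢ (univ : Finset (Step d)), |(f (q.1 + vec q.2) : ℝ) - f q.1| ^ 2 :=
      sq_sum_le_card_mul_sum_sq
    have h10 : ∑ q ∈ UU f k ×ˢ (univ : Finset (Step d)), |(f (q.1 + vec q.2) : ℝ) - f q.1| ^ 2 ≤
        G := by
      simp_rw [sq_abs]
      rw [Finset.sum_product]
      exact hG (UU f k)
    have h11 : ((UU f k ×ˢ (univ : Finset (Step d))).card : ℝ) = 2 * d * u := by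
      rw [Finset.card_product, Finset.card_univ, Fintype.card_prod, Fintype.card_fin,
        Fintype.card_bool]
      push_cast
      ring
    rw [h11] at h9
    exact h9.trans (mul_le_mul_of_nonneg_left h10 (by positivity))
  have h12 : A ^ (2 * d) = u ^ 2 / c ^ (2 * d) := by
    rw [hA, div_pow]
    congr 1
    rw [mul_comm 2 d, pow_mul, Real.rpow_inv_natCast_pow hu0 hd0]
  calc (∑ j ∈ Finset.Ioc k (mx f), (((UU f k).filter fun x => j ≤ f x).card : ℝ)) ^ (2 * d)
      ≤ (A * B) ^ (2 * d) := pow_le_pow_left₀ h7 h6 _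
    _ = A ^ (2 * d) * (B ^ 2) ^ d := by rw [mul_pow, pow_mul B 2 d]
    _ ≤ A ^ (2 * d) * (2 * d * u * G) ^ d := by
        apply mul_le_mul_of_nonneg_left _ (by positivity)
        exact pow_le_pow_left₀ (by positivity) h8 _
    _ = (2 * d) ^ d / c ^ (2 * d) * u ^ (d + 2) * G ^ d := by
        rw [h12, mul_pow, mul_pow (2 * (d : ℝ)) u d, pow_add]
        ring

end Pool.Agent.DFE
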