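import Pool.Agent.Lib.DFE.Count

/-!
Few words have given local times: the product bound.
-/

set_option autoImplicit false

namespace Pool.Agent.DFE

open Finset Pool.Agent.DCOL

variable {d : ℕ}

theorem vec_apply_le (s : Step d) (i : Fin d) : vec s i ≤ 1 := (abs_le.mp (abs_vec s i)).2

theorem vec_eq_one {s : Step d} {i : Fin d} (h : vec s i = 1) : s = (i, true) := by
  rcases s with ⟨j, b⟩
  by_cases hij : i = j
  · subst hij
    cases b
    · simp [vec] at h
    · rfl
  · exfalso
    cases b <;> simp [vec, hij] at h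

/-- Stacks with given lengths and given sums of the entering steps. -/
theorem card_stacks (i₀ : Fin d) {Q : ℕ → ℝ} (hQ0 : ∀ k, 0 ≤ Q k)
    (hQ : ∀ k j, (cnt (i₀, true) k j : ℝ) ≤ (2 * d) ^ k * Q k) (E : Finset (Site d)) :
    ∀ (S : Finset (Site d → List (Step d))) (o : Site d → ℕ) (g : Site d → ℕ)
      (off : Site d → List (Step d)), (∀ σ ∈ S, ∀ x ∈ E, (σ x).length = o x) →
      (∀ σ ∈ S, ∀ x, x ∉ E → σ x = off x) →
      (∀ σ ∈ S, ∀ x ∈ E, inn σ (x + vec (i₀, true)) = g x) →
      (S.card : ℝ) ≤ ∏ x ∈ E, ((2 * d) ^ o x * Q (o x)) := by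
  classical
  refine Finset.induction_on_min_value (fun x : Site d => x i₀) E ?_ ?_
  · intro S o g off _ h2 _
    rw [Finset.prod_empty]
    have : S.card ≤ 1 := by
      rw [Finset.card_le_one]
      intro σ hσ τ hτ
      funext x
      rw [h2 σ hσ x (by simp), h2 τ hτ x (by simp)]
    exact_mod_cast this
  · intro a s ha hmin ih S o g off h1 h2 h3
    rw [Finset.prod_insert ha]
    set R : (Site d → List (Step d)) → (Site d → List (Step d)) := fun σ => Function.update σ a []
      with hR
    have hne : ∀ x, x ∈ s → ∀ t : Step d, x + vec (i₀, true) - vec t ≠ a := by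
      intro x hx t h
      have e1 := congrFun h i₀
      rw [Pi.sub_apply, Pi.add_apply, vec_true, if_pos rfl] at e1
      have e2 := hmin x hx
      have e3 := vec_apply_le t i₀
      have e4 : vec t i₀ = 1 := by omega
      have e5 := vec_eq_one e4
      rw [e5, add_sub_cancel_right] at h
      exact ha (h ▸ hx)
    have hinn : ∀ σ : Site d → List (Step d), ∀ x ∈ s,
        inn (R σ) (x + vec (i₀, true)) = inn σ (x + vec (i₀, true)) := by
      intro σ x hx
      unfold inn
      refine Finset.sum_congr rfl fun t _ => ?_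
      rw [hR]
      simp only
      rw [Function.update_of_ne (hne x hx t)]
    have hfib : ∀ τ ∈ S.image R, ((S.filter fun σ => R σ = τ).card : ℝ) ≤
        (2 * d) ^ o a * Q (o a) := by
      intro τ hτ
      obtain ⟨σ₀, hσ₀, rfl⟩ := Finset.mem_image.mp hτ
      refine le_trans ?_ (hQ (o a) ((σ₀ a).count (i₀, true)))
      rw [cnt]
      norm_cast
      refine Finset.card_le_card_of_injOn (fun σ => σ a) ?_ ?_
      · intro σ hσ
        rw [Finset.mem_coe, Finset.mem_filter] at hσ
        rw [Finset.mem_coe, Finset.mem_filter, mem_allw]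
        refine ⟨h1 σ hσ.1 a (Finset.mem_insert_self _ _), ?_⟩
        have e1 := h3 σ hσ.1 a (Finset.mem_insert_self _ _)
        rw [← h3 σ₀ hσ₀ a (Finset.mem_insert_self _ _)] at e1
        have key : ∀ τ : Site d → List (Step d), inn τ (a + vec (i₀, true)) =
            ∑ t ∈ univ.erase (i₀, true), (τ (a + vec (i₀, true) - vec t)).count t +
              (τ (a + vec (i₀, true) - vec (i₀, true))).count (i₀, true) := fun τ =>
          (Finset.sum_erase_add univ (fun t => (τ (a + vec (i₀, true) - vec t)).count t)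
            (Finset.mem_univ (i₀, true))).symm
        rw [key, key] at e1
        have e2 : ∑ t ∈ univ.erase (i₀, true), (σ (a + vec (i₀, true) - vec t)).count t =
            ∑ t ∈ univ.erase (i₀, true), (σ₀ (a + vec (i₀, true) - vec t)).count t := by
          refine Finset.sum_congr rfl fun t ht => ?_
          have e3 : a + vec (i₀, true) - vec t ≠ a := by
            intro h
            have e4 := congrFun h i₀
            rw [Pi.sub_apply, Pi.add_apply, vec_true, if_pos rfl] at e4
            exact Finset.ne_of_mem_erase ht (vec_eq_one (by omega))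
          have e5 := congrFun hσ.2 (a + vec (i₀, true) - vec t)
          rw [hR] at e5
          simp only at e5
          rw [Function.update_of_ne e3, Function.update_of_ne e3] at e5
          rw [e5]
        rw [e2, add_sub_cancel_right] at e1
        exact Nat.add_left_cancel e1
      · intro σ hσ σ' hσ' he
        rw [Finset.mem_coe, Finset.mem_filter] at hσ hσ'
        have e1 := hσ.2.trans hσ'.2.symm
        funext x
        by_cases hx : x = a
        · subst hx; exact he
        · have e2 := congrFun e1 x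
          rw [hR] at e2
          simp only at e2
          rwa [Function.update_of_ne hx, Function.update_of_ne hx] at e2
    have hS' := ih (S.image R) o g (Function.update off a []) (by
      intro τ hτ x hx
      obtain ⟨σ, hσ, rfl⟩ := Finset.mem_image.mp hτ
      have : x ≠ a := fun h => ha (h ▸ hx)
      rw [hR]
      simp only
      rw [Function.update_of_ne this]
      exact h1 σ hσ x (Finset.mem_insert_of_mem hx)) (by
      intro τ hτ x hx
      obtain ⟨σ, hσ, rfl⟩ := Finset.mem_image.mp hτ
      rw [hR]
      simp only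
      by_cases hxa : x = a
      · subst hxa; rw [Function.update_self, Function.update_self]
      · rw [Function.update_of_ne hxa, Function.update_of_ne hxa]
        exact h2 σ hσ x (by rw [Finset.mem_insert]; tauto)) (by
      intro τ hτ x hx
      obtain ⟨σ, hσ, rfl⟩ := Finset.mem_image.mp hτ
      rw [hinn σ x hx]
      exact h3 σ hσ x (Finset.mem_insert_of_mem hx))
    calc (S.card : ℝ) = ∑ τ ∈ S.image R, ((S.filter fun σ => R σ = τ).card : ℝ) := by
          rw [Finset.card_eq_sum_card_image R S]; push_cast; rfl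
      _ ≤ ∑ _τ ∈ S.image R, (2 * (d : ℝ)) ^ o a * Q (o a) := Finset.sum_le_sum hfib
      _ = ((S.image R).card : ℝ) * ((2 * d) ^ o a * Q (o a)) := by
          rw [Finset.sum_const, nsmul_eq_mul]
      _ ≤ (∏ x ∈ s, ((2 * d) ^ o x * Q (o x))) * ((2 * d) ^ o a * Q (o a)) :=
          mul_le_mul_of_nonneg_right hS' (mul_nonneg (by positivity) (hQ0 _))
      _ = _ := by rw [mul_comm]

/-- The words with given local times and given end point. -/
theorem card_words (i₀ : Fin d) {Q : ℕ → ℝ} (hQ0 : ∀ k, 0 ≤ Q k)
    (hQ : ∀ k j, (cnt (i₀, true) k j : ℝ) ≤ (2 * d) ^ k * Q k) {n : ℕ} (f : Site d → ℕ)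
    (e : Site d) (E : Finset (Site d)) (hE : ∀ x, x ∈ E ↔ f x ≠ 0)
    (W : Finset (List (Step d))) (hW : ∀ w ∈ W, w.length = n ∧ (∀ x, locN w x = f x) ∧ endp w = e) :
    (W.card : ℝ) ≤ (2 * d) ^ n * ∏ x ∈ E, Q (f x - if x = e then 1 else 0) := by
  classical
  rcases W.eq_empty_or_nonempty with hWe | ⟨w₀, hw₀⟩
  · rw [hWe, Finset.card_empty, Nat.cast_zero]
    exact mul_nonneg (by positivity) (Finset.prod_nonneg fun x _ => hQ0 _)
  have hlen : ∀ w ∈ W, ∀ x, (stk 0 w x).length = f x - if x = e then 1 else 0 := by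
    intro w hw x
    obtain ⟨_, h2, h3⟩ := hW w hw
    have := length_stk0 w x
    rw [h2, h3] at this
    omega
  have hvis : ∀ w ∈ W, vis 0 w = E := by
    intro w hw
    ext x
    rw [mem_vis0, hE, (hW w hw).2.1]
  have h1 := card_stacks i₀ hQ0 hQ E (W.image (stk 0)) (fun x => f x - if x = e then 1 else 0)
    (fun x => f (x + vec (i₀, true)) - if x + vec (i₀, true) = 0 then 1 else 0) (fun _ => []) (by
      intro σ hσ x _
      obtain ⟨w, hw, rfl⟩ := Finset.mem_image.mp hσ
      exact hlen w hw x) (by
      intro σ hσ x hx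
      obtain ⟨w, hw, rfl⟩ := Finset.mem_image.mp hσ
      exact stk_nil_of_notMem w 0 x (by rwa [hvis w hw])) (by
      intro σ hσ x _
      obtain ⟨w, hw, rfl⟩ := Finset.mem_image.mp hσ
      rw [inn_stk, sub_zero, ← (hW w hw).2.1 (x + vec (i₀, true)), locN]
      omega)
  rw [Finset.card_image_of_injective _ fun w w' h => stk_inj w w' 0 h, Finset.prod_mul_distrib,
    Finset.prod_pow_eq_pow_sum] at h1
  have h2 : ∑ x ∈ E, (f x - if x = e then 1 else 0) = n := by
    rw [← (hW w₀ hw₀).1, ← sum_length_stk w₀ 0 E (hvis w₀ hw₀).le]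
    exact Finset.sum_congr rfl fun x _ => (hlen w₀ hw₀ x).symm
  rwa [h2] at h1

end Pool.Agent.DFE
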