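import Pool.Agent.Lib.DFE.Defs2

/-!
# Row LEV: level crossings
-/

set_option autoImplicit false

namespace Pool.Agent.DFE

open Finset Pool.Agent.DCOL

namespace LEVAux

theorem key {d : ℕ} (F : Site d → ℕ) (K : Finset (Site d)) (I : Finset ℕ)
    (hI : ∀ t ∈ I, ∃ x ∈ K, ∃ s : Step d, x + vec s ∈ K ∧
      ((F x < t ∧ t ≤ F (x + vec s)) ∨ (F (x + vec s) < t ∧ t ≤ F x))) :
    (I.card : ℝ) ≤
      ∑ x ∈ K, ∑ s : Step d, if x + vec s ∈ K then |(F (x + vec s) : ℝ) - F x| else 0 := by
  classical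
  set J : Site d → Step d → Finset ℕ := fun x s =>
    if x + vec s ∈ K then Finset.Ioc (min (F x) (F (x + vec s))) (max (F x) (F (x + vec s)))
      else ∅ with hJ
  have h1 : I ⊆ K.biUnion fun x => (univ : Finset (Step d)).biUnion fun s => J x s := by
    intro t ht
    obtain ⟨x, hx, s, hs, h⟩ := hI t ht
    rw [Finset.mem_biUnion]
    refine ⟨x, hx, ?_⟩
    rw [Finset.mem_biUnion]
    refine ⟨s, Finset.mem_univ _, ?_⟩
    rw [hJ]
    simp only [if_pos hs, Finset.mem_Ioc]
    rcases h with ⟨h, h'⟩ | ⟨h, h'⟩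
    · exact ⟨lt_of_le_of_lt (min_le_left _ _) h, h'.trans (le_max_right _ _)⟩
    · exact ⟨lt_of_le_of_lt (min_le_right _ _) h, h'.trans (le_max_left _ _)⟩
  have h2 : ∀ x s, ((J x s).card : ℝ) =
      if x + vec s ∈ K then |(F (x + vec s) : ℝ) - F x| else 0 := by
    intro x s
    rw [hJ]
    by_cases hs : x + vec s ∈ K
    · simp only [if_pos hs, Nat.card_Ioc]
      rcases le_total (F x) (F (x + vec s)) with h | h
      · rw [max_eq_right h, min_eq_left h, Nat.cast_sub h, abs_of_nonneg]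
        rw [sub_nonneg]
        exact_mod_cast h
      · rw [max_eq_left h, min_eq_right h, Nat.cast_sub h, abs_of_nonpos, neg_sub]
        rw [sub_nonpos]
        exact_mod_cast h
    · simp only [if_neg hs, Finset.card_empty, Nat.cast_zero]
  have h3 : I.card ≤ ∑ x ∈ K, ∑ s : Step d, (J x s).card :=
    (Finset.card_le_card h1).trans (Finset.card_biUnion_le.trans
      (Finset.sum_le_sum fun x _ => Finset.card_biUnion_le))
  calc (I.card : ℝ) ≤ ((∑ x ∈ K, ∑ s : Step d, (J x s).card : ℕ) : ℝ) := by exact_mod_cast h3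
    _ = ∑ x ∈ K, ∑ s : Step d, ((J x s).card : ℝ) := by push_cast; rfl
    _ = _ := Finset.sum_congr rfl fun x _ => Finset.sum_congr rfl fun s _ => h2 x s

end LEVAux

theorem lev : LEV_stmt := by
  intro d T F K p q hp hq hK hpq
  classical
  rcases hpq with ⟨h1, h2⟩ | ⟨h1, h2⟩
  · have e : |(F p : ℝ) - T| = ((Finset.Ioc (F p) T).card : ℝ) := by
      rw [Nat.card_Ioc, Nat.cast_sub h1.le, abs_of_nonpos, neg_sub]
      rw [sub_nonpos]
      exact_mod_cast h1.le
    rw [e]
    refine LEVAux.key F K _ fun t ht => ?_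
    rw [Finset.mem_Ioc] at ht
    by_contra hno
    push Not at hno
    have h3 := hK (K.filter fun x => F x < t) (Finset.mem_filter.mpr ⟨hp, ht.1⟩) (by
      intro x hx s hs
      rw [Finset.mem_filter] at hx ⊢
      refine ⟨hs, ?_⟩
      by_contra h4
      rw [not_lt] at h4
      exact absurd h4 (not_le.mpr ((hno x hx.1 s hs).1 hx.2)))
    have h4 := (Finset.mem_filter.mp (h3 hq)).2
    omega
  · have e : |(F p : ℝ) - T| = ((Finset.Ioc T (F p)).card : ℝ) := by
      rw [Nat.card_Ioc, Nat.cast_sub h2, abs_of_nonneg]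
      rw [sub_nonneg]
      exact_mod_cast h2
    rw [e]
    refine LEVAux.key F K _ fun t ht => ?_
    rw [Finset.mem_Ioc] at ht
    by_contra hno
    push Not at hno
    have h3 := hK (K.filter fun x => t ≤ F x) (Finset.mem_filter.mpr ⟨hp, ht.2⟩) (by
      intro x hx s hs
      rw [Finset.mem_filter] at hx ⊢
      refine ⟨hs, ?_⟩
      by_contra h4
      rw [not_le] at h4
      exact absurd hx.2 (not_le.mpr ((hno x hx.1 s hs).2 h4)))
    have h4 := (Finset.mem_filter.mp (h3 hq)).2
    omega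

end Pool.Agent.DFE
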