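import Pool.Agent.Lib.DFE.Defs3
import Mathlib.Analysis.SpecialFunctions.Stirling

/-!
The number of the lists with given counts and given last element: `LIST_stmt`.
-/

set_option autoImplicit false

namespace Pool.Agent.DFE

open Finset Pool.Agent.DCOL

/-- The lists with the counts `m`. -/
def cl {d : ℕ} (m : Step d → ℕ) : Finset (List (Step d)) :=
  (allw d (∑ s, m s)).filter fun w => ∀ s, w.count s = m s

theorem sum_count {d : ℕ} (w : List (Step d)) : ∑ s, w.count s = w.length := by
  induction w with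
  | nil => simp
  | cons a w ih =>
    simp only [List.count_cons, List.length_cons, Finset.sum_add_distrib, ih]
    simp

theorem mem_cl {d : ℕ} {m : Step d → ℕ} {w : List (Step d)} :
    w ∈ cl m ↔ ∀ s, w.count s = m s := by
  rw [cl, Finset.mem_filter, mem_allw]
  constructor
  · exact fun h => h.2
  · intro h
    refine ⟨?_, h⟩
    rw [← sum_count]
    exact Finset.sum_congr rfl fun s _ => h s

theorem mem_lst {d : ℕ} {m : Step d → ℕ} {t : Step d} {w : List (Step d)} :
    w ∈ lst m t ↔ (∀ s, w.count s = m s) ∧ w.getLast? = some t := by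
  rw [lst, Finset.mem_filter, mem_allw]
  constructor
  · exact fun h => h.2
  · intro h
    refine ⟨?_, h⟩
    rw [← sum_count]
    exact Finset.sum_congr rfl fun s _ => h.1 s

/-- `m` with one `t` less. -/
def dec {d : ℕ} (m : Step d → ℕ) (t : Step d) : Step d → ℕ := Function.update m t (m t - 1)

theorem sum_dec {d : ℕ} {m : Step d → ℕ} {t : Step d} (h : 1 ≤ m t) :
    ∑ s, dec m t s + 1 = ∑ s, m s := by
  rw [dec, Finset.sum_update_of_mem (Finset.mem_univ t),
    ← Finset.add_sum_erase Finset.univ m (Finset.mem_univ t), Finset.sdiff_singleton_eq_erase]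
  omega

theorem prod_dec {d : ℕ} {m : Step d → ℕ} {t : Step d} (h : 1 ≤ m t) :
    m t * ∏ s, (dec m t s).factorial = ∏ s, (m s).factorial := by
  have h1 : ∀ s, (dec m t s).factorial =
      Function.update (fun s => (m s).factorial) t (m t - 1).factorial s := by
    intro s
    unfold dec
    by_cases hs : s = t
    · subst hs; simp
    · simp [Function.update_of_ne hs]
  rw [Finset.prod_congr rfl fun s _ => h1 s,
    Finset.prod_update_of_mem (Finset.mem_univ t), ← mul_assoc,
    Nat.mul_factorial_pred (by omega), ← Finset.mul_prod_erase Finset.univ _ (Finset.mem_univ t),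
    Finset.sdiff_singleton_eq_erase]

theorem card_cl_dec {d : ℕ} {m : Step d → ℕ} {t : Step d} (h : 1 ≤ m t) :
    (cl (dec m t)).card ≤ (lst m t).card := by
  refine Finset.card_le_card_of_injOn (fun w => w ++ [t]) ?_ ?_
  · intro w hw
    rw [Finset.mem_coe, mem_cl] at hw
    rw [Finset.mem_coe, mem_lst]
    refine ⟨fun s => ?_, by simp⟩
    rw [List.count_append, hw s, dec]
    by_cases hs : s = t
    · subst hs
      simp
      omega
    · rw [Function.update_of_ne hs, List.count_eq_zero_of_not_mem (by simpa using hs)]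
      omega
  · intro w _ w' _ hww
    exact List.append_cancel_right hww

theorem card_cl {d : ℕ} (n : ℕ) : ∀ m : Step d → ℕ, ∑ s, m s = n →
    n.factorial ≤ (cl m).card * ∏ s, (m s).factorial := by
  induction n with
  | zero =>
    intro m hm
    have h0 : ∀ s, m s = 0 := fun s => by
      have := Finset.sum_eq_zero_iff.mp hm s (Finset.mem_univ s)
      exact this
    have h1 : ([] : List (Step d)) ∈ cl m := by
      rw [mem_cl]; intro s; rw [h0 s]; simp
    have h2 : 1 ≤ (cl m).card := Finset.card_pos.mpr ⟨_, h1⟩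
    simp only [h0, Nat.factorial_zero, Finset.prod_const_one, mul_one]
    exact h2
  | succ n ih =>
    intro m hm
    have hdisj : ∑ t, (lst m t).card ≤ (cl m).card := by
      rw [← Finset.card_biUnion]
      · refine Finset.card_le_card ?_
        intro w hw
        rw [Finset.mem_biUnion] at hw
        obtain ⟨t, -, hw⟩ := hw
        exact mem_cl.mpr (mem_lst.mp hw).1
      · intro t _ t' _ htt
        rw [Function.onFun, Finset.disjoint_left]
        intro w hw hw'
        have h1 := (mem_lst.mp hw).2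
        have h2 := (mem_lst.mp hw').2
        rw [h1] at h2
        exact htt (Option.some.inj h2)
    have hterm : ∀ t, n.factorial * m t ≤ (lst m t).card * ∏ s, (m s).factorial := by
      intro t
      rcases Nat.eq_zero_or_pos (m t) with h | h
      · rw [h, mul_zero]; exact Nat.zero_le _
      · have h1 := ih (dec m t) (by have := sum_dec h; omega)
        calc n.factorial * m t ≤ ((cl (dec m t)).card * ∏ s, (dec m t s).factorial) * m t :=
              Nat.mul_le_mul_right _ h1
          _ = (cl (dec m t)).card * (m t * ∏ s, (dec m t s).factorial) := by ring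
          _ = (cl (dec m t)).card * ∏ s, (m s).factorial := by rw [prod_dec h]
          _ ≤ _ := Nat.mul_le_mul_right _ (card_cl_dec h)
    calc (n + 1).factorial = n.factorial * ∑ t, m t := by rw [hm, Nat.factorial_succ]; ring
      _ = ∑ t, n.factorial * m t := Finset.mul_sum _ _ _
      _ ≤ ∑ t, (lst m t).card * ∏ s, (m s).factorial := Finset.sum_le_sum fun t _ => hterm t
      _ = (∑ t, (lst m t).card) * ∏ s, (m s).factorial := by rw [Finset.sum_mul]
      _ ≤ _ := Nat.mul_le_mul_right _ hdisj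

theorem list_one {d : ℕ} (m : Step d → ℕ) (t : Step d) (h : 1 ≤ m t) :
    ((∑ s, m s) - 1).factorial * m t ≤ (lst m t).card * ∏ s, (m s).factorial := by
  have h1 := card_cl ((∑ s, m s) - 1) (dec m t) (by have := sum_dec h; omega)
  calc ((∑ s, m s) - 1).factorial * m t
      ≤ ((cl (dec m t)).card * ∏ s, (dec m t s).factorial) * m t := Nat.mul_le_mul_right _ h1
    _ = (cl (dec m t)).card * (m t * ∏ s, (dec m t s).factorial) := by ring
    _ = (cl (dec m t)).card * ∏ s, (m s).factorial := by rw [prod_dec h]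
    _ ≤ _ := Nat.mul_le_mul_right _ (card_cl_dec h)

/-- Stirling, lower bound. -/
theorem fact_ge (n : ℕ) : Real.sqrt n * (n / Real.exp 1) ^ n ≤ (n.factorial : ℝ) := by
  refine le_trans ?_ (Stirling.le_factorial_stirling n)
  refine mul_le_mul_of_nonneg_right (Real.sqrt_le_sqrt ?_) (by positivity)
  have h0 : (0 : ℝ) ≤ n := Nat.cast_nonneg n
  have hpi : (1 : ℝ) ≤ 2 * Real.pi := by have := Real.pi_gt_three; linarith
  calc (n : ℝ) = 1 * n := by ring
    _ ≤ 2 * Real.pi * n := mul_le_mul_of_nonneg_right hpi h0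

/-- Stirling, upper bound. -/
theorem fact_le (n : ℕ) (hn : 1 ≤ n) :
    (n.factorial : ℝ) ≤ Real.exp 1 * Real.sqrt n * (n / Real.exp 1) ^ n := by
  obtain ⟨k, rfl⟩ : ∃ k, n = k + 1 := ⟨n - 1, by omega⟩
  have h1 := Stirling.stirlingSeq'_antitone (Nat.zero_le k)
  simp only [Function.comp_apply, Nat.succ_eq_add_one, zero_add, Stirling.stirlingSeq_one] at h1
  rw [Stirling.stirlingSeq] at h1
  have hpos : 0 < Real.sqrt (2 * ((k + 1 : ℕ) : ℝ)) * (((k + 1 : ℕ) : ℝ) / Real.exp 1) ^ (k + 1) := by
    have : (0 : ℝ) < ((k + 1 : ℕ) : ℝ) := by positivity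
    positivity
  rw [div_le_iff₀ hpos] at h1
  refine h1.trans (le_of_eq ?_)
  rw [Real.sqrt_mul (by norm_num : (0:ℝ) ≤ 2)]
  have h2 : Real.sqrt 2 ≠ 0 := by positivity
  field_simp

theorem list_two (d : ℕ) (hd : 0 < d) (A : ℝ) (_hA : 0 < A) : ∃ c : ℝ, 0 < c ∧
    ∀ a : ℕ, 1 ≤ a → ∀ m : Step d → ℕ,
    ∑ s, m s = 2 * d * a → (∀ s, ((m s : ℝ) - a) ^ 2 ≤ A * a) → (∀ s, a ≤ 2 * m s) →
    (∀ s, m s ≤ 2 * a) → ∀ t, c * ((2 * d) ^ (2 * d * a) * (Real.sqrt a / a ^ d)) ≤
      (lst m t).card := by
  have hcardS : Fintype.card (Step d) = 2 * d := by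
    rw [Fintype.card_prod, Fintype.card_fin, Fintype.card_bool, mul_comm]
  refine ⟨(4 * d * (Real.exp 1) ^ (2 * d) * 2 ^ d * Real.exp (2 * d * A))⁻¹, by positivity, ?_⟩
  intro a ha m hsum hvar hlow hup t
  have ha0 : (0 : ℝ) < a := by exact_mod_cast ha
  have hd0 : (0 : ℝ) < d := by exact_mod_cast hd
  have hm1 : ∀ s, 1 ≤ m s := fun s => by have := hlow s; omega
  set n : ℕ := 2 * d * a with hn
  have hn1 : 1 ≤ n := by rw [hn]; exact Nat.mul_pos (by omega) ha
  have hn0 : (0 : ℝ) < n := by exact_mod_cast hn1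
  -- from the first part
  have h1 := list_one m t (hm1 t)
  rw [hsum] at h1
  have h2 : n.factorial * m t ≤ n * ((lst m t).card * ∏ s, (m s).factorial) := by
    calc n.factorial * m t = n * ((n - 1).factorial * m t) := by
          rw [← Nat.mul_factorial_pred (by omega : n ≠ 0)]; ring
      _ ≤ _ := Nat.mul_le_mul_left _ h1
  have h3 : (n.factorial : ℝ) * m t ≤ n * ((lst m t).card * ∏ s, ((m s).factorial : ℝ)) := by
    exact_mod_cast h2
  -- the product of the factorials
  have h4 : ∏ s, ((m s).factorial : ℝ) ≤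
      Real.exp 1 ^ (2 * d) * ((2 : ℝ) ^ d * a ^ d) * (((a : ℝ) ^ n) / Real.exp 1 ^ n *
        Real.exp (2 * d * A)) := by
    have h5 : ∀ s, ((m s).factorial : ℝ) ≤ Real.exp 1 * Real.sqrt (2 * a) *
        (((a : ℝ) / Real.exp 1) ^ (m s) * Real.exp (((m s : ℝ) - a) + ((m s : ℝ) - a) ^ 2 / a)) := by
      intro s
      have hms : (0 : ℝ) < m s := by exact_mod_cast hm1 s
      refine (fact_le (m s) (hm1 s)).trans ?_
      have h6 : Real.sqrt (m s) ≤ Real.sqrt (2 * a) := Real.sqrt_le_sqrt (by exact_mod_cast hup s)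
      have h7 : ((m s : ℝ) / Real.exp 1) ^ (m s) ≤ ((a : ℝ) / Real.exp 1) ^ (m s) *
          Real.exp (((m s : ℝ) - a) + ((m s : ℝ) - a) ^ 2 / a) := by
        have h8 : (m s : ℝ) / Real.exp 1 = (a / Real.exp 1) * (m s / a) := by
          field_simp
        rw [h8, mul_pow]
        refine mul_le_mul_of_nonneg_left ?_ (by positivity)
        have h9 : (m s : ℝ) / a ≤ Real.exp ((m s : ℝ) / a - 1) := by
          have := Real.add_one_le_exp ((m s : ℝ) / a - 1)
          linarith
        calc ((m s : ℝ) / a) ^ (m s) ≤ (Real.exp ((m s : ℝ) / a - 1)) ^ (m s) :=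
              pow_le_pow_left₀ (by positivity) h9 _
          _ = Real.exp (m s * ((m s : ℝ) / a - 1)) := by rw [← Real.exp_nat_mul]
          _ = _ := by
              congr 1
              field_simp
              ring
      exact mul_le_mul (mul_le_mul_of_nonneg_left h6 (Real.exp_pos _).le) h7 (by positivity)
        (by positivity)
    calc ∏ s, ((m s).factorial : ℝ) ≤ ∏ s, (Real.exp 1 * Real.sqrt (2 * a) *
        (((a : ℝ) / Real.exp 1) ^ (m s) *
          Real.exp (((m s : ℝ) - a) + ((m s : ℝ) - a) ^ 2 / a))) :=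
          Finset.prod_le_prod (fun s _ => by positivity) fun s _ => h5 s
      _ = (Real.exp 1 * Real.sqrt (2 * a)) ^ (2 * d) * (((a : ℝ) / Real.exp 1) ^ n *
          Real.exp (∑ s, (((m s : ℝ) - a) + ((m s : ℝ) - a) ^ 2 / a))) := by
          rw [Finset.prod_mul_distrib (f := fun _ : Step d => Real.exp 1 * Real.sqrt (2 * a)),
            Finset.prod_const, Finset.card_univ, hcardS, Finset.prod_mul_distrib,
            Finset.prod_pow_eq_pow_sum, hsum, Real.exp_sum]
      _ ≤ _ := by
          have h10 : ∑ s : Step d, (((m s : ℝ) - a) + ((m s : ℝ) - a) ^ 2 / a) ≤ 2 * d * A := by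
            rw [Finset.sum_add_distrib, Finset.sum_sub_distrib, Finset.sum_const,
              Finset.card_univ, hcardS, ← Nat.cast_sum, hsum]
            have h11 : ∑ s : Step d, ((m s : ℝ) - a) ^ 2 / a ≤ ∑ _s : Step d, A :=
              Finset.sum_le_sum fun s _ => by
                rw [div_le_iff₀ ha0]; exact hvar s
            rw [Finset.sum_const, Finset.card_univ, hcardS, nsmul_eq_mul] at h11
            rw [nsmul_eq_mul, hn]
            push_cast at h11 ⊢
            linarith
          have h12 : (Real.exp 1 * Real.sqrt (2 * a)) ^ (2 * d) =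
              Real.exp 1 ^ (2 * d) * ((2 : ℝ) ^ d * a ^ d) := by
            rw [mul_pow, pow_mul (Real.sqrt _), Real.sq_sqrt (by positivity), mul_pow]
          rw [h12, div_pow]
          refine mul_le_mul_of_nonneg_left ?_ (by positivity)
          exact mul_le_mul_of_nonneg_left (Real.exp_le_exp.mpr h10) (by positivity)
  -- the lower bound for `n!`
  have h13 : Real.sqrt a * ((2 * d) ^ n * (a ^ n / Real.exp 1 ^ n)) ≤ (n.factorial : ℝ) := by
    refine le_trans ?_ (fact_ge n)
    have h14 : (n : ℝ) = 2 * d * a := by rw [hn]; push_cast; ring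
    have h15 : ((n : ℝ) / Real.exp 1) ^ n = (2 * d) ^ n * (a ^ n / Real.exp 1 ^ n) := by
      rw [h14, div_pow, mul_pow, mul_div_assoc]
    rw [h15]
    refine mul_le_mul_of_nonneg_right (Real.sqrt_le_sqrt ?_) (by positivity)
    rw [h14]
    have : (1 : ℝ) ≤ d := by exact_mod_cast hd
    nlinarith
  have hmt : (a : ℝ) / 2 ≤ m t := by
    have : (a : ℝ) ≤ 2 * m t := by exact_mod_cast hlow t
    linarith
  set P : ℝ := ∏ s, ((m s).factorial : ℝ) with hP
  have hP0 : 0 < P := Finset.prod_pos fun s _ => by exact_mod_cast Nat.factorial_pos _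
  set E : ℝ := Real.exp 1 with hE
  have hE0 : 0 < E := Real.exp_pos _
  set X : ℝ := Real.exp (2 * d * A) with hX
  have hX0 : 0 < X := Real.exp_pos _
  set L : ℝ := ((lst m t).card : ℝ) with hL
  have hL0 : 0 ≤ L := Nat.cast_nonneg _
  set Y : ℝ := a ^ n / E ^ n with hY
  have hY0 : 0 < Y := by positivity
  -- combine
  have h16 : Real.sqrt a * ((2 * d) ^ n * Y) * (a / 2) ≤
      n * (L * (E ^ (2 * d) * ((2 : ℝ) ^ d * a ^ d) * (Y * X))) := by
    calc Real.sqrt a * ((2 * d) ^ n * Y) * (a / 2) ≤ (n.factorial : ℝ) * m t :=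
          mul_le_mul h13 hmt (by positivity) (by positivity)
      _ ≤ n * (L * P) := h3
      _ ≤ _ := mul_le_mul_of_nonneg_left (mul_le_mul_of_nonneg_left h4 hL0) hn0.le
  have h17 : (n : ℝ) = 2 * d * a := by rw [hn]; push_cast; ring
  rw [h17] at h16
  have h18 : (Real.sqrt a * (2 * d) ^ n) * (Y * a / 2) ≤
      (L * (4 * d * E ^ (2 * d) * 2 ^ d * X) * a ^ d) * (Y * a / 2) := by
    calc (Real.sqrt a * (2 * d) ^ n) * (Y * a / 2) = Real.sqrt a * ((2 * d) ^ n * Y) * (a / 2) := by
          ring
      _ ≤ _ := h16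
      _ = _ := by ring
  have h19 := le_of_mul_le_mul_right h18 (by positivity)
  rw [inv_mul_le_iff₀ (by positivity)]
  have h20 : (2 * (d : ℝ)) ^ n * (Real.sqrt a / a ^ d) = (Real.sqrt a * (2 * d) ^ n) / a ^ d := by
    ring
  rw [h20, div_le_iff₀ (by positivity)]
  calc _ ≤ _ := h19
    _ = _ := by ring

theorem list_thm : LIST_stmt :=
  ⟨fun _ m t h => list_one m t h, fun d hd A hA => list_two d hd A hA⟩

end Pool.Agent.DFE
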