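import Pool.Agent.Lib.DFE.Defs2

/-!
The walk reveals the components one by one.
-/

set_option autoImplicit false

namespace Pool.Agent.DFE

open Finset Pool.Agent.DCOL

namespace RunAux

variable {d : ℕ}

/-- The number of the steps made at sites outside `D`. -/
def nf (D : Finset (Site d)) : Site d → List (Step d) → ℕ
  | _, [] => 0
  | p, s :: w => (if p ∈ D then 0 else 1) + nf D (p + vec s) w

theorem nf_cons (D : Finset (Site d)) (p : Site d) (s : Step d) (w : List (Step d)) :
    nf D p (s :: w) = (if p ∈ D then 0 else 1) + nf D (p + vec s) w := rfl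

theorem nf_empty (w : List (Step d)) : ∀ p : Site d, nf ∅ p w = w.length := by
  induction w with
  | nil => intro p; rfl
  | cons s w ih => intro p; rw [nf_cons, ih, List.length_cons, if_neg (by simp), add_comm]

theorem stk_append (v : List (Step d)) : ∀ (u : List (Step d)) (p x : Site d),
    stk p (u ++ v) x = stk p u x ++ stk (p + endp u) v x
  | [], p, x => by simp [stk]
  | s :: u, p, x => by
    rw [List.cons_append, stk_cons, stk_cons, stk_append v u, endp_cons, add_assoc]
    split_ifs
    · rfl
    · rfl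

theorem length_stk_cons (p : Site d) (s : Step d) (w : List (Step d)) (x : Site d) :
    (stk p (s :: w) x).length = (if x = p then 1 else 0) + (stk (p + vec s) w x).length := by
  rw [stk_cons]
  split_ifs
  · rw [List.length_cons]; ring
  · ring

theorem nf_union {D K : Finset (Site d)} (h : Disjoint D K) (w : List (Step d)) : ∀ p : Site d,
    nf D p w = nf (D ∪ K) p w + ∑ x ∈ K, (stk p w x).length := by
  induction w with
  | nil => intro p; simp [nf, stk]
  | cons s w ih =>
    intro p
    rw [nf_cons, nf_cons, ih, Finset.sum_congr rfl fun x _ => length_stk_cons p s w x,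
      Finset.sum_add_distrib, Finset.sum_ite_eq']
    by_cases hD : p ∈ D
    · have hK : p ∉ K := Finset.disjoint_left.mp h hD
      rw [if_pos hD, if_pos (Finset.mem_union_left _ hD), if_neg hK]
      ring
    · by_cases hK : p ∈ K
      · rw [if_neg hD, if_pos (Finset.mem_union_right _ hK), if_pos hK]
        ring
      · rw [if_neg hD, if_neg (by rw [Finset.mem_union]; tauto), if_neg hK]
        ring

/-- The sites with a first exit after `pre`. -/
noncomputable def newx (pre u : List (Step d)) : Finset (Site d) :=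
  (vis (endp pre) u).filter fun x => stk 0 pre x = [] ∧ stk (endp pre) u x ≠ []

theorem endp_snoc (pre : List (Step d)) (s : Step d) : endp (pre ++ [s]) = endp pre + vec s := by
  rw [endp_append, endp_cons, endp_nil, add_zero]

theorem stk_snoc (pre : List (Step d)) (s : Step d) (x : Site d) :
    stk 0 (pre ++ [s]) x = stk 0 pre x ++ if x = endp pre then [s] else [] := by
  rw [stk_append, zero_add, stk_cons]
  rfl

theorem newx_subset (pre : List (Step d)) (s : Step d) (u : List (Step d)) :
    newx (pre ++ [s]) u ⊆ (newx pre (s :: u)).erase (endp pre) := by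
  intro x hx
  unfold newx at hx
  rw [Finset.mem_filter, stk_snoc, endp_snoc] at hx
  obtain ⟨h1, h2, h3⟩ := hx
  have h4 : stk 0 pre x = [] := (List.append_eq_nil_iff.mp h2).1
  have h5 : x ≠ endp pre := by
    intro h
    have := (List.append_eq_nil_iff.mp h2).2
    rw [if_pos h] at this
    simp at this
  rw [Finset.mem_erase]
  refine ⟨h5, ?_⟩
  unfold newx
  rw [Finset.mem_filter, vis, stk_cons, if_neg h5]
  exact ⟨Finset.mem_insert_of_mem h1, h4, h3⟩

theorem card_newx_le (pre : List (Step d)) (s : Step d) (u : List (Step d)) :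
    (newx (pre ++ [s]) u).card ≤ (newx pre (s :: u)).card :=
  Finset.card_le_card ((newx_subset pre s u).trans (Finset.erase_subset _ _))

theorem card_newx_lt {pre : List (Step d)} (s : Step d) (u : List (Step d))
    (h : stk 0 pre (endp pre) = []) :
    (newx (pre ++ [s]) u).card + 1 ≤ (newx pre (s :: u)).card := by
  have h1 : endp pre ∈ newx pre (s :: u) := by
    unfold newx
    rw [Finset.mem_filter, stk_cons, if_pos rfl]
    exact ⟨mem_vis_self _ _, h, by simp⟩
  have h2 := Finset.card_le_card (newx_subset pre s u)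
  rw [Finset.card_erase_of_mem h1] at h2
  have h3 : 0 < (newx pre (s :: u)).card := Finset.card_pos.mpr ⟨_, h1⟩
  omega

section

variable (Good : List (Step d) → Prop) (E : List (Step d) → Finset (Site d))
  (K : List (Step d) → Site d → Finset (Site d)) (ω : List (Step d) → Site d → ℝ) (Ξ : ℝ)

/-- The state of the run. -/
structure St (m : ℕ) (pre : List (Step d)) (S : Finset (List (Step d))) (D : Finset (Site d)) :
    Prop where
  len : ∀ u ∈ S, u.length = m
  good : ∀ u ∈ S, Good (pre ++ u)
  same : ∀ u ∈ S, ∀ u' ∈ S, ∀ x ∈ D, stk 0 (pre ++ u) x = stk 0 (pre ++ u') x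
  sub : ∀ u ∈ S, D ⊆ E (pre ++ u)
  clo : ∀ u ∈ S, ∀ x ∈ D, K (pre ++ u) x ⊆ D
  old : ∀ u ∈ S, ∀ x, stk 0 pre x ≠ [] → x ∈ E (pre ++ u) → x ∈ D

/-- The sum of a state. -/
noncomputable def Sm (pre : List (Step d)) (S : Finset (List (Step d))) (D : Finset (Site d)) : ℝ :=
  ∑ u ∈ S, ((2 * d : ℝ) ^ nf D (endp pre) u)⁻¹ * ∏ x ∈ E (pre ++ u) \ D, ω (pre ++ u) x

/-- The claim for suffixes of length `m`. -/
def Cl (m : ℕ) : Prop := ∀ (pre : List (Step d)) (S : Finset (List (Step d)))
  (D : Finset (Site d)) (k : ℕ), St Good E K m pre S D → (∀ u ∈ S, (newx pre u).card ≤ k) →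
  Sm E ω pre S D ≤ (1 + Ξ) ^ k

variable {Good E K ω Ξ}

theorem St.mono {m : ℕ} {pre : List (Step d)} {S S' : Finset (List (Step d))}
    {D : Finset (Site d)} (h : St Good E K m pre S D) (hS : S' ⊆ S) : St Good E K m pre S' D :=
  ⟨fun u hu => h.len u (hS hu), fun u hu => h.good u (hS hu),
    fun u hu u' hu' => h.same u (hS hu) u' (hS hu'), fun u hu => h.sub u (hS hu),
    fun u hu => h.clo u (hS hu), fun u hu => h.old u (hS hu)⟩

/-- One step with a given first letter. -/
theorem step_head {m : ℕ} (ih : Cl Good E K ω Ξ m) {pre : List (Step d)}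
    {S : Finset (List (Step d))} {D : Finset (Site d)} (h : St Good E K (m + 1) pre S D)
    (s : Step d) (hs : ∀ u ∈ S, u.head? = some s)
    (hp : endp pre ∈ D ∨ ∀ u ∈ S, endp pre ∉ E (pre ++ u)) {k : ℕ}
    (hk : ∀ u, s :: u ∈ S → (newx (pre ++ [s]) u).card ≤ k) :
    Sm E ω pre S D ≤ ((2 * d : ℝ) ^ (if endp pre ∈ D then 0 else 1))⁻¹ * (1 + Ξ) ^ k := by
  classical
  have hcons : ∀ u ∈ S, u = s :: u.tail := by
    intro u hu
    have := hs u hu
    cases u with
    | nil => simp at this
    | cons a l => simp at this; rw [this]; rfl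
  have happ : ∀ u : List (Step d), (pre ++ [s]) ++ u = pre ++ (s :: u) := fun u => by simp
  have hmem : ∀ u, u ∈ S.image List.tail → s :: u ∈ S := by
    intro u hu
    obtain ⟨v, hv, rfl⟩ := Finset.mem_image.mp hu
    rw [← hcons v hv]; exact hv
  have hst : St Good E K m (pre ++ [s]) (S.image List.tail) D := by
    refine ⟨?_, ?_, ?_, ?_, ?_, ?_⟩
    · intro u hu
      have := h.len _ (hmem u hu)
      rw [List.length_cons] at this
      omega
    · intro u hu
      rw [happ]; exact h.good _ (hmem u hu)
    · intro u hu u' hu' x hx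
      rw [happ, happ]; exact h.same _ (hmem u hu) _ (hmem u' hu') x hx
    · intro u hu
      rw [happ]; exact h.sub _ (hmem u hu)
    · intro u hu
      rw [happ]; exact h.clo _ (hmem u hu)
    · intro u hu x hx hxE
      rw [happ] at hxE
      rw [stk_snoc] at hx
      by_cases hxp : x = endp pre
      · subst hxp
        rcases hp with hp | hp
        · exact hp
        · exact absurd hxE (hp _ (hmem u hu))
      · rw [if_neg hxp, List.append_nil] at hx
        exact h.old _ (hmem u hu) x hx hxE
  have h1 := ih (pre ++ [s]) (S.image List.tail) D k hst fun u hu => hk u (hmem u hu)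
  have h2 : Sm E ω pre S D = ((2 * d : ℝ) ^ (if endp pre ∈ D then 0 else 1))⁻¹ *
      Sm E ω (pre ++ [s]) (S.image List.tail) D := by
    unfold Sm
    rw [Finset.sum_image, Finset.mul_sum]
    · refine Finset.sum_congr rfl fun u hu => ?_
      rw [happ, ← hcons u hu, endp_snoc]
      conv_lhs => rw [hcons u hu]
      rw [nf_cons, pow_add, mul_inv, ← hcons u hu]
      ring
    · intro u hu v hv huv
      rw [hcons u hu, hcons v hv, huv]
  rw [h2]
  exact mul_le_mul_of_nonneg_left h1 (by positivity)

/-- A step from a known component. -/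
theorem step_known {m : ℕ} (hΞ : 0 ≤ Ξ) (ih : Cl Good E K ω Ξ m) {pre : List (Step d)}
    {S : Finset (List (Step d))} {D : Finset (Site d)} (h : St Good E K (m + 1) pre S D)
    (hp : endp pre ∈ D) {k : ℕ}
    (hk : ∀ s u, s :: u ∈ S → (newx (pre ++ [s]) u).card ≤ k) :
    Sm E ω pre S D ≤ (1 + Ξ) ^ k := by
  classical
  rcases S.eq_empty_or_nonempty with hS | ⟨u₀, hu₀⟩
  · unfold Sm
    rw [hS, Finset.sum_empty]
    positivity
  obtain ⟨s, v₀, hv₀⟩ : ∃ s v₀, u₀ = s :: v₀ := by
    cases u₀ with
    | nil => have := h.len _ hu₀; simp at this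
    | cons a l => exact ⟨a, l, rfl⟩
  have hs : ∀ u ∈ S, u.head? = some s := by
    intro u hu
    have h1 := h.same u hu u₀ hu₀ _ hp
    rw [stk_append, stk_append, zero_add, List.append_cancel_left_eq, hv₀, stk_cons,
      if_pos rfl] at h1
    cases u with
    | nil => simp [stk] at h1
    | cons a l =>
      rw [stk_cons, if_pos rfl, List.cons.injEq] at h1
      rw [List.head?_cons, h1.1]
  have h2 := step_head ih h s hs (Or.inl hp) (k := k) fun u hu => hk s u hu
  rwa [if_pos hp, pow_zero, inv_one, one_mul] at h2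

/-- A free step. -/
theorem step_free (hd : 0 < d) {m : ℕ} (ih : Cl Good E K ω Ξ m) {pre : List (Step d)}
    {S : Finset (List (Step d))} {D : Finset (Site d)} (h : St Good E K (m + 1) pre S D)
    (hpD : endp pre ∉ D) (hp : ∀ u ∈ S, endp pre ∉ E (pre ++ u)) {k : ℕ}
    (hk : ∀ s u, s :: u ∈ S → (newx (pre ++ [s]) u).card ≤ k) :
    Sm E ω pre S D ≤ (1 + Ξ) ^ k := by
  classical
  have hd0 : (0 : ℝ) < 2 * d := by
    have : (0 : ℝ) < d := by exact_mod_cast hd
    linarith
  have h1 : Sm E ω pre S D = ∑ s : Step d, Sm E ω pre (S.filter fun u => u.head? = some s) D := by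
    unfold Sm
    rw [Finset.sum_comm' (t' := S) (s' := fun u => univ.filter fun s : Step d => u.head? = some s)]
    · refine Finset.sum_congr rfl fun u hu => ?_
      have hu1 : ∃ s v, u = s :: v := by
        cases u with
        | nil => have := h.len _ hu; simp at this
        | cons a l => exact ⟨a, l, rfl⟩
      obtain ⟨s, v, rfl⟩ := hu1
      have h2 : (univ.filter fun t : Step d => (s :: v).head? = some t) = {s} := by
        ext t
        simp [eq_comm]
      rw [h2, Finset.sum_singleton]
    · intro s u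
      simp only [Finset.mem_univ, true_and, Finset.mem_filter]
      tauto
  have h2 : ∀ s : Step d, Sm E ω pre (S.filter fun u => u.head? = some s) D ≤
      (2 * d : ℝ)⁻¹ * (1 + Ξ) ^ k := by
    intro s
    have h3 := step_head ih (h.mono (Finset.filter_subset (fun u => u.head? = some s) S)) s
      (fun u hu => (Finset.mem_filter.mp hu).2)
      (Or.inr fun u hu => hp u (Finset.mem_filter.mp hu).1) (k := k)
      fun u hu => hk s u (Finset.mem_filter.mp hu).1
    rwa [if_neg hpD, pow_one] at h3
  rw [h1]
  calc ∑ s : Step d, Sm E ω pre (S.filter fun u => u.head? = some s) D ≤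
      ∑ _s : Step d, (2 * d : ℝ)⁻¹ * (1 + Ξ) ^ k := Finset.sum_le_sum fun s _ => h2 s
    _ = (1 + Ξ) ^ k := by
      rw [Finset.sum_const, Finset.card_univ, Fintype.card_prod, Fintype.card_fin,
        Fintype.card_bool, nsmul_eq_mul]
      push_cast
      field_simp

theorem claim (hd : 0 < d) (hΞ : 0 ≤ Ξ) (hω : ∀ w x, 0 ≤ ω w x)
    (hK : ∀ w, Good w → ∀ x ∈ E w, x ∈ K w x ∧ K w x ⊆ E w ∧ (∃ y ∈ K w x, stk 0 w y ≠ []) ∧
      ∀ y ∈ K w x, K w y = K w x)
    (hωK : ∀ w w' p, Good w → Good w' → p ∈ E w → p ∈ E w' → K w p = K w' p →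
      (∀ x ∈ K w p, stk 0 w x = stk 0 w' x) → ∀ x ∈ K w p, ω w x = ω w' x)
    (hcl : ∀ (S : Finset (List (Step d))) (p : Site d), (∀ w ∈ S, Good w ∧ p ∈ E w) →
      (∀ w ∈ S, ∀ w' ∈ S, (K w p = K w' p ∧ ∀ x ∈ K w p, stk 0 w x = stk 0 w' x) → w = w') →
      ∑ w ∈ S, ((2 * d : ℝ) ^ (∑ x ∈ K w p, (stk 0 w x).length))⁻¹ * ∏ x ∈ K w p, ω w x ≤ Ξ) :
    ∀ m, Cl Good E K ω Ξ m := by
  classical
  intro m
  induction m with
  | zero =>
    intro pre S D k hS _
    have hle : ∀ u ∈ S, ((2 * d : ℝ) ^ nf D (endp pre) u)⁻¹ *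
        ∏ x ∈ E (pre ++ u) \ D, ω (pre ++ u) x = 1 := by
      intro u hu
      have hu0 : u = [] := List.length_eq_zero_iff.mp (hS.len u hu)
      subst hu0
      have hE : E (pre ++ []) \ D = ∅ := by
        rw [Finset.sdiff_eq_empty_iff_subset]
        intro x hx
        obtain ⟨h1, h2, ⟨y, hy, hy'⟩, h3⟩ := hK _ (hS.good _ hu) x hx
        have hyD : y ∈ D := by
          refine hS.old _ hu y ?_ (h2 hy)
          rwa [List.append_nil] at hy'
        have h4 := hS.clo _ hu y hyD
        rw [h3 y hy] at h4
        exact h4 h1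
      rw [hE, Finset.prod_empty, nf, pow_zero, inv_one, one_mul]
    have hcard : S.card ≤ 1 := by
      rw [Finset.card_le_one]
      intro u hu v hv
      rw [List.length_eq_zero_iff.mp (hS.len u hu), List.length_eq_zero_iff.mp (hS.len v hv)]
    unfold Sm
    rw [Finset.sum_congr rfl hle, Finset.sum_const, nsmul_eq_mul, mul_one]
    calc (S.card : ℝ) ≤ 1 := by exact_mod_cast hcard
      _ ≤ (1 + Ξ) ^ k := one_le_pow₀ (by linarith)
  | succ m ih =>
    intro pre S D k hS hk
    by_cases hpD : endp pre ∈ D
    · exact step_known hΞ ih hS hpD fun s u hu => (card_newx_le pre s u).trans (hk _ hu)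
    by_cases hpx : stk 0 pre (endp pre) = []
    swap
    · exact step_free hd ih hS hpD (fun u hu hE => hpD (hS.old u hu _ hpx hE))
        fun s u hu => (card_newx_le pre s u).trans (hk _ hu)
    rcases S.eq_empty_or_nonempty with hSe | ⟨u₀, hu₀⟩
    · unfold Sm
      rw [hSe, Finset.sum_empty]
      positivity
    -- a new site
    have hcons : ∀ u ∈ S, ∃ s v, u = s :: v := by
      intro u hu
      cases u with
      | nil => have := hS.len _ hu; simp at this
      | cons a l => exact ⟨a, l, rfl⟩
    obtain ⟨k', rfl⟩ : ∃ k', k = k' + 1 := by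
      obtain ⟨s, v, rfl⟩ := hcons u₀ hu₀
      have h1 := card_newx_lt s v hpx
      have h2 := hk _ hu₀
      exact ⟨k - 1, by omega⟩
    have hk' : ∀ s u, s :: u ∈ S → (newx (pre ++ [s]) u).card ≤ k' := by
      intro s u hu
      have h1 := card_newx_lt s u hpx
      have h2 := hk _ hu
      omega
    set p := endp pre with hp
    set S0 := S.filter fun u => p ∉ E (pre ++ u) with hS0
    set S1 := S.filter fun u => ¬ p ∉ E (pre ++ u) with hS1
    have hsum : Sm E ω pre S D = Sm E ω pre S0 D + Sm E ω pre S1 D := by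
      unfold Sm
      rw [hS0, hS1, Finset.sum_filter_add_sum_filter_not]
    have hst0 : St Good E K (m + 1) pre S0 D := hS.mono (Finset.filter_subset _ _)
    have hst1 : St Good E K (m + 1) pre S1 D := hS.mono (Finset.filter_subset _ _)
    have hb0 : Sm E ω pre S0 D ≤ (1 + Ξ) ^ k' :=
      step_free hd ih hst0 hpD (fun u hu => (Finset.mem_filter.mp hu).2)
        fun s u hu => hk' s u (Finset.mem_filter.mp hu).1
    have hpE : ∀ u ∈ S1, p ∈ E (pre ++ u) := fun u hu => not_not.mp (Finset.mem_filter.mp hu).2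
    -- the data of the component of `p`
    set Dt : List (Step d) → Finset (Site d) × (Site d → List (Step d)) := fun u =>
      (K (pre ++ u) p, fun x => if x ∈ K (pre ++ u) p then stk 0 (pre ++ u) x else []) with hDt
    have hDt1 : ∀ u u', Dt u = Dt u' → K (pre ++ u) p = K (pre ++ u') p ∧
        ∀ x ∈ K (pre ++ u) p, stk 0 (pre ++ u) x = stk 0 (pre ++ u') x := by
      intro u u' h
      rw [hDt] at h
      simp only [Prod.mk.injEq] at h
      refine ⟨h.1, fun x hx => ?_⟩
      have h2 := congrFun h.2 x
      rw [if_pos hx, if_pos (h.1 ▸ hx)] at h2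
      exact h2
    have hDt2 : ∀ u u', K (pre ++ u) p = K (pre ++ u') p →
        (∀ x ∈ K (pre ++ u) p, stk 0 (pre ++ u) x = stk 0 (pre ++ u') x) → Dt u = Dt u' := by
      intro u u' h1 h2
      rw [hDt]
      simp only [Prod.mk.injEq]
      refine ⟨h1, ?_⟩
      funext x
      by_cases hx : x ∈ K (pre ++ u) p
      · rw [if_pos hx, if_pos (h1 ▸ hx), h2 x hx]
      · rw [if_neg hx, if_neg (h1 ▸ hx)]
    -- the bound for one value of the data
    have hfib : ∀ v ∈ S1, Sm E ω pre (S1.filter fun u => Dt u = Dt v) D ≤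
        (((2 * d : ℝ) ^ (∑ x ∈ K (pre ++ v) p, (stk 0 (pre ++ v) x).length))⁻¹ *
          ∏ x ∈ K (pre ++ v) p, ω (pre ++ v) x) * (1 + Ξ) ^ k' := by
      intro v hv
      set Kv := K (pre ++ v) p with hKv
      obtain ⟨g1, g2, g3, g4⟩ := hK _ (hst1.good v hv) p (hpE v hv)
      have hdisj : Disjoint D Kv := by
        rw [Finset.disjoint_left]
        intro x hxD hxK
        have h1 := hst1.clo v hv x hxD
        rw [g4 x hxK] at h1
        exact hpD (h1 g1)
      have hpre : ∀ x ∈ Kv, stk 0 pre x = [] := by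
        intro x hx
        by_contra hne
        exact (Finset.disjoint_left.mp hdisj) (hst1.old v hv x hne (g2 hx)) hx
      have hst : St Good E K (m + 1) pre (S1.filter fun u => Dt u = Dt v) (D ∪ Kv) := by
        have h0 := hst1.mono (Finset.filter_subset (fun u => Dt u = Dt v) S1)
        refine ⟨h0.len, h0.good, ?_, ?_, ?_, ?_⟩
        · intro u hu u' hu' x hx
          rcases Finset.mem_union.mp hx with hx | hx
          · exact h0.same u hu u' hu' x hx
          · have e1 := hDt1 v u (Finset.mem_filter.mp hu).2.symm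
            have e2 := hDt1 v u' (Finset.mem_filter.mp hu').2.symm
            rw [← e1.2 x hx, ← e2.2 x hx]
        · intro u hu
          rw [Finset.union_subset_iff]
          refine ⟨h0.sub u hu, ?_⟩
          have e1 := hDt1 v u (Finset.mem_filter.mp hu).2.symm
          have e2 := (hK _ (h0.good u hu) p (hpE u (Finset.mem_filter.mp hu).1)).2.1
          rw [hKv, e1.1]
          exact e2
        · intro u hu x hx
          rcases Finset.mem_union.mp hx with hx | hx
          · exact (h0.clo u hu x hx).trans Finset.subset_union_left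
          · have e1 := hDt1 v u (Finset.mem_filter.mp hu).2.symm
            have e2 := (hK _ (h0.good u hu) p (hpE u (Finset.mem_filter.mp hu).1)).2.2.2
            rw [hKv, e1.1] at hx
            rw [e2 x hx, hKv, e1.1]
            exact Finset.subset_union_right
        · intro u hu x h1 h2
          exact Finset.mem_union_left _ (h0.old u hu x h1 h2)
      have hb := step_known hΞ ih hst (Finset.mem_union_right _ g1) (k := k')
        fun s u hu => hk' s u (Finset.mem_filter.mp (Finset.mem_filter.mp hu).1).1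
      have heq : Sm E ω pre (S1.filter fun u => Dt u = Dt v) D =
          (((2 * d : ℝ) ^ (∑ x ∈ Kv, (stk 0 (pre ++ v) x).length))⁻¹ *
          ∏ x ∈ Kv, ω (pre ++ v) x) *
            Sm E ω pre (S1.filter fun u => Dt u = Dt v) (D ∪ Kv) := by
        unfold Sm
        rw [Finset.mul_sum]
        refine Finset.sum_congr rfl fun u hu => ?_
        rw [Finset.mem_filter] at hu
        have e1 := hDt1 v u hu.2.symm
        have e2 := (hK _ (hst1.good u hu.1) p (hpE u hu.1)).2.1
        have e3 : ∑ x ∈ Kv, (stk (endp pre) u x).length =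
            ∑ x ∈ Kv, (stk 0 (pre ++ v) x).length := by
          refine Finset.sum_congr rfl fun x hx => ?_
          rw [e1.2 x hx, stk_append, hpre x hx, List.nil_append, zero_add]
        have e4 : ∏ x ∈ E (pre ++ u) \ D, ω (pre ++ u) x =
            (∏ x ∈ Kv, ω (pre ++ v) x) * ∏ x ∈ E (pre ++ u) \ (D ∪ Kv), ω (pre ++ u) x := by
          have e5 : E (pre ++ u) \ D = Kv ∪ (E (pre ++ u) \ (D ∪ Kv)) := by
            ext x
            rw [Finset.mem_sdiff, Finset.mem_union, Finset.mem_sdiff, Finset.mem_union]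
            constructor
            · rintro ⟨h1, h2⟩
              by_cases hx : x ∈ Kv
              · exact Or.inl hx
              · exact Or.inr ⟨h1, by tauto⟩
            · rintro (h1 | ⟨h1, h2⟩)
              · refine ⟨e2 ?_, fun hxD => (Finset.disjoint_left.mp hdisj) hxD h1⟩
                rw [← e1.1]; exact h1
              · exact ⟨h1, by tauto⟩
          rw [e5, Finset.prod_union]
          · congr 1
            refine Finset.prod_congr rfl fun x hx => ?_
            exact (hωK _ _ p (hst1.good v hv) (hst1.good u hu.1) (hpE v hv) (hpE u hu.1) e1.1 e1.2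
              x hx).symm
          · rw [Finset.disjoint_left]
            intro x hx hx'
            rw [Finset.mem_sdiff, Finset.mem_union] at hx'
            exact hx'.2 (Or.inr hx)
        rw [e4, nf_union hdisj u, e3, pow_add, mul_inv]
        ring
      rw [heq]
      refine mul_le_mul_of_nonneg_left hb ?_
      exact mul_nonneg (by positivity) (Finset.prod_nonneg fun x _ => hω _ _)
    -- the sum over the data
    have hrep : ∀ g ∈ S1.image Dt, ∃ v ∈ S1, Dt v = g := fun g hg => by
      obtain ⟨v, hv, h⟩ := Finset.mem_image.mp hg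
      exact ⟨v, hv, h⟩
    choose! rep hrep1 hrep2 using hrep
    have hb1 : Sm E ω pre S1 D ≤ Ξ * (1 + Ξ) ^ k' := by
      have e1 : Sm E ω pre S1 D = ∑ g ∈ S1.image Dt, Sm E ω pre (S1.filter fun u => Dt u = g) D := by
        unfold Sm
        rw [Finset.sum_fiberwise_of_maps_to fun u hu => Finset.mem_image_of_mem Dt hu]
      have e2 : ∀ g ∈ S1.image Dt, Sm E ω pre (S1.filter fun u => Dt u = g) D ≤
          (((2 * d : ℝ) ^ (∑ x ∈ K (pre ++ rep g) p, (stk 0 (pre ++ rep g) x).length))⁻¹ *
            ∏ x ∈ K (pre ++ rep g) p, ω (pre ++ rep g) x) * (1 + Ξ) ^ k' := by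
        intro g hg
        have := hfib (rep g) (hrep1 g hg)
        rwa [hrep2 g hg] at this
      have e3 := hcl ((S1.image Dt).image fun g => pre ++ rep g) p (by
        intro w hw
        obtain ⟨g, hg, rfl⟩ := Finset.mem_image.mp hw
        exact ⟨hst1.good _ (hrep1 g hg), hpE _ (hrep1 g hg)⟩) (by
        intro w hw w' hw' h
        obtain ⟨g, hg, rfl⟩ := Finset.mem_image.mp hw
        obtain ⟨g', hg', rfl⟩ := Finset.mem_image.mp hw'
        have h1 := hDt2 _ _ h.1 h.2
        rw [hrep2 g hg, hrep2 g' hg'] at h1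
        rw [h1])
      rw [Finset.sum_image] at e3
      · rw [e1]
        calc _ ≤ ∑ g ∈ S1.image Dt,
              (((2 * d : ℝ) ^ (∑ x ∈ K (pre ++ rep g) p, (stk 0 (pre ++ rep g) x).length))⁻¹ *
                ∏ x ∈ K (pre ++ rep g) p, ω (pre ++ rep g) x) * (1 + Ξ) ^ k' :=
              Finset.sum_le_sum e2
          _ = (∑ g ∈ S1.image Dt,
              ((2 * d : ℝ) ^ (∑ x ∈ K (pre ++ rep g) p, (stk 0 (pre ++ rep g) x).length))⁻¹ *
                ∏ x ∈ K (pre ++ rep g) p, ω (pre ++ rep g) x) * (1 + Ξ) ^ k' := by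
              rw [Finset.sum_mul]
          _ ≤ Ξ * (1 + Ξ) ^ k' := mul_le_mul_of_nonneg_right e3 (by positivity)
      · intro g hg g' hg' h
        have h1 : rep g = rep g' := List.append_cancel_left h
        rw [← hrep2 g hg, ← hrep2 g' hg', h1]
    rw [hsum, pow_succ]
    nlinarith [hb0, hb1]

end

end RunAux

open RunAux in
theorem run_thm : RUN_stmt := by
  intro d hd Good E K ω Ξ n k hΞ hω hK hωK hcl S hS
  have h := claim hd hΞ hω hK hωK hcl n [] S ∅ k
    ⟨fun w hw => (hS w hw).2.1, fun w hw => by simpa using (hS w hw).1, by simp, by simp, by simp,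
      fun w _ x hx => by simp [stk] at hx⟩ (by
    intro w hw
    refine le_trans (Finset.card_le_card ?_) (hS w hw).2.2
    unfold newx
    rw [endp_nil]
    exact Finset.filter_subset _ _)
  unfold Sm at h
  refine le_trans (le_of_eq (Finset.sum_congr rfl fun w hw => ?_)) h
  rw [nf_empty, (hS w hw).2.1, Finset.sdiff_empty, List.nil_append]

end Pool.Agent.DFE
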