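import Pool.Agent.Lib.DFE.Defs2

/-!
# Facts on the components of the sites that are big or have a big neighbour
-/

set_option autoImplicit false

namespace Pool.Agent.DFE

open Finset Pool.Agent.DCOL

namespace SETAux

variable {d T : ℕ} {w : List (Step d)} {p x y : Site d}

theorem mem_exF (hT : 2 ≤ T) : p ∈ exF T w ↔ Ex T (locN w) p := by
  classical
  unfold exF
  rw [mem_filter]
  refine ⟨fun h => h.2, fun h => ⟨?_, h⟩⟩
  rw [mem_union]
  rcases h with h | ⟨s, hs⟩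
  · left
    rw [mem_vis0]
    omega
  · right
    rw [mem_image]
    refine ⟨(p + vec s, s), ?_, by simp⟩
    rw [mem_product]
    refine ⟨?_, mem_univ _⟩
    rw [mem_vis0]
    show locN w (p + vec s) ≠ 0
    omega

theorem add_vec_opp (x : Site d) (s : Step d) : x + vec s + vec (opp s) = x := by
  rw [vec_opp, add_neg_cancel_right]

theorem lk_symm {f : Site d → ℕ} (h : Lk T f x y) : Lk T f y x := by
  obtain ⟨h1, h2, s, rfl⟩ := h
  exact ⟨h2, h1, opp s, (add_vec_opp x s).symm⟩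

theorem reach_symm {f : Site d → ℕ} (h : Relation.ReflTransGen (Lk T f) x y) :
    Relation.ReflTransGen (Lk T f) y x := by
  induction h with
  | refl => exact Relation.ReflTransGen.refl
  | tail _ hbc ih => exact Relation.ReflTransGen.head (lk_symm hbc) ih

theorem mem_clu : y ∈ clu T w p ↔ y ∈ exF T w ∧ Relation.ReflTransGen (Lk T (locN w)) p y := by
  classical
  unfold clu
  rw [mem_filter]

theorem self_mem (hp : p ∈ exF T w) : p ∈ clu T w p :=
  mem_clu.mpr ⟨hp, Relation.ReflTransGen.refl⟩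

theorem clu_eq (hy : y ∈ clu T w p) : clu T w y = clu T w p := by
  have h := (mem_clu.mp hy).2
  ext z
  rw [mem_clu, mem_clu]
  exact ⟨fun hz => ⟨hz.1, h.trans hz.2⟩, fun hz => ⟨hz.1, (reach_symm h).trans hz.2⟩⟩

theorem step_mem (hT : 2 ≤ T) (hx : x ∈ clu T w p) (s : Step d) (hs : x + vec s ∈ exF T w) :
    x + vec s ∈ clu T w p := by
  rw [mem_clu] at hx ⊢
  exact ⟨hs, hx.2.tail ⟨(mem_exF hT).mp hx.1, (mem_exF hT).mp hs, s, rfl⟩⟩

theorem big_step (hT : 2 ≤ T) (hx : x ∈ clu T w p) (hb : T ≤ locN w x) (s : Step d) :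
    x + vec s ∈ clu T w p := by
  refine step_mem hT hx s ((mem_exF hT).mpr (Or.inr ⟨opp s, ?_⟩))
  rw [add_vec_opp]
  exact hb

theorem conn (P : Finset (Site d)) (hp : p ∈ P)
    (hP : ∀ x ∈ P, ∀ s : Step d, x + vec s ∈ clu T w p → x + vec s ∈ P) (hT : 2 ≤ T) :
    clu T w p ⊆ P := by
  intro y hy
  have hy2 := (mem_clu.mp hy).2
  clear hy
  induction hy2 with
  | refl => exact hp
  | tail hab hbc ih =>
    obtain ⟨h1, h2, s, rfl⟩ := hbc
    exact hP _ ih s (mem_clu.mpr ⟨(mem_exF hT).mpr h2, hab.tail ⟨h1, h2, s, rfl⟩⟩)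

theorem big_near (hT : 2 ≤ T) (hy : y ∈ clu T w p) :
    ∃ z ∈ clu T w p, T ≤ locN w z ∧ (z = y ∨ ∃ s : Step d, z = y + vec s) := by
  rcases (mem_exF hT).mp (mem_clu.mp hy).1 with h | ⟨s, hs⟩
  · exact ⟨y, hy, h, Or.inl rfl⟩
  · exact ⟨y + vec s, step_mem hT hy s ((mem_exF hT).mpr (Or.inl hs)), hs, Or.inr ⟨s, rfl⟩⟩

theorem small (hd : 0 < d) (hT : 2 ≤ T) (hp : p ∈ exF T w) :
    ∃ z ∈ clu T w p, locN w z < T := by
  classical
  obtain ⟨z₀, hz₀, hb₀, -⟩ := big_near hT (self_mem hp)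
  set Bg := (clu T w p).filter fun z => T ≤ locN w z with hBg
  have hne : Bg.Nonempty := ⟨z₀, mem_filter.mpr ⟨hz₀, hb₀⟩⟩
  obtain ⟨z, hz, hmax⟩ := exists_max_image Bg (fun z : Site d => z ⟨0, hd⟩) hne
  rw [mem_filter] at hz
  refine ⟨z + vec (⟨0, hd⟩, true), big_step hT hz.1 hz.2 _, ?_⟩
  by_contra hcon
  rw [not_lt] at hcon
  have h := hmax _ (mem_filter.mpr ⟨big_step hT hz.1 hz.2 (⟨0, hd⟩, true), hcon⟩)
  have h2 : (z + vec ((⟨0, hd⟩, true) : Step d)) ⟨0, hd⟩ = z ⟨0, hd⟩ + 1 := by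
    rw [Pi.add_apply]
    simp [vec]
  rw [h2] at h
  linarith

end SETAux

open SETAux in
theorem set_thm : SET_stmt := by
  intro d T w p hd hT
  refine ⟨mem_exF hT, fun hp => ⟨self_mem hp, fun y hy => (mem_clu.mp hy).1,
    fun y hy => clu_eq hy, fun x hx s hs => step_mem hT hx s hs,
    fun x hx hb s => big_step hT hx hb s, fun P hpP hP => conn P hpP hP hT, ?_,
    fun y hy => big_near hT hy, small hd hT hp⟩⟩
  obtain ⟨z, hz, hb, -⟩ := big_near hT (self_mem hp)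
  refine ⟨z, hz, fun h => ?_⟩
  have h1 := length_stk0 w z
  rw [h, List.length_nil, zero_add] at h1
  split_ifs at h1 <;> omega

end Pool.Agent.DFE
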