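import Pool.Agent.Lib.DFE.Defs2

/-!
# The weight of one big site
-/

set_option autoImplicit false

namespace Pool.Agent.DFE

open Finset Pool.Agent.DCOL

theorem site : SITE_stmt := by
  intro d hd ε κ hε hε1 hκ
  have hd1 : (1 : ℝ) ≤ d := by exact_mod_cast hd
  have hd0 : (0 : ℝ) < d := by linarith
  set M : ℝ := 1 / 2 * Real.log d + 1 / 4 * Real.log (2 / ε) - Real.log κ with hM
  refine ⟨max 2 ⌈(d : ℝ) * Real.exp 2 / κ ^ 2⌉₊, Real.exp (-(max 1 (8 * M / ε))), le_max_left _ _,
    Real.exp_pos _, fun δ hδ hδ1 k o hTk hko => ?_⟩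
  have hk2 : 2 ≤ k := (le_max_left _ _).trans hTk
  have hkT : (d : ℝ) * Real.exp 2 / κ ^ 2 ≤ k :=
    (Nat.le_ceil _).trans (by exact_mod_cast (le_max_right _ _).trans hTk)
  have hk0 : (0 : ℝ) < k := by
    have : 0 < k := by omega
    exact_mod_cast this
  -- the scale
  set L : ℝ := Real.log (1 / δ) with hL
  have hL1 : max 1 (8 * M / ε) ≤ L := by
    rw [hL, Real.log_div one_ne_zero hδ.ne', Real.log_one, zero_sub, le_neg]
    have := Real.log_le_log hδ hδ1
    rwa [Real.log_exp] at this
  have hL2 : 1 ≤ L := (le_max_left _ _).trans hL1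
  have hL3 : 8 * M / ε ≤ L := (le_max_right _ _).trans hL1
  have hL0 : 0 < L := by linarith
  have hS : 0 < SS δ := Real.sqrt_pos.mpr (mul_pos hδ hL0)
  have hSsq : SS δ ^ 2 = δ * L := Real.sq_sqrt (mul_pos hδ hL0).le
  set S : ℝ := SS δ with hSdef
  -- the factor `Qf`
  have hQ : Qf d o ≤ Real.exp (1 / 2 * Real.log (d / k)) := by
    have ho : o ≠ 0 := by omega
    unfold Qf
    rw [if_neg ho]
    refine (min_le_right _ _).trans ?_
    have h1 : Real.sqrt ((d : ℝ) / (o + 1)) ≤ Real.sqrt (d / k) := by
      refine Real.sqrt_le_sqrt ?_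
      refine div_le_div_of_nonneg_left hd0.le hk0 ?_
      exact_mod_cast hko
    refine h1.trans (le_of_eq ?_)
    rw [Real.sqrt_eq_rpow, Real.rpow_def_of_pos (by positivity), mul_comm]
  have key : 1 / 2 * Real.log (d / k) + ((1 - ε) * S * k - δ * (k : ℝ) ^ 2) ≤ Real.log κ := by
    rcases le_or_gt (S * k) 1 with hSk | hSk
    · have h1 : (1 - ε) * S * k - δ * (k : ℝ) ^ 2 ≤ 1 := by
        have h2 : 0 ≤ δ * (k : ℝ) ^ 2 := by positivity
        have h3 : 0 ≤ ε * (S * k) := by positivity
        nlinarith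
      have h2 : Real.log (d / k) ≤ 2 * Real.log κ - 2 := by
        have h3 : (d : ℝ) / k ≤ κ ^ 2 * Real.exp (-2) := by
          rw [div_le_iff₀ (by positivity)] at hkT
          rw [div_le_iff₀ hk0, Real.exp_neg]
          have h4 : 0 < Real.exp 2 := Real.exp_pos 2
          rw [mul_assoc, inv_mul_eq_div, mul_div_assoc', le_div_iff₀ h4]
          linarith
        have h5 := Real.log_le_log (by positivity) h3
        rw [Real.log_mul (by positivity) (Real.exp_pos _).ne', Real.log_exp, Real.log_pow] at h5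
        push_cast at h5
        linarith
      linarith
    · have h1 : (1 - ε) * S * k - δ * (k : ℝ) ^ 2 ≤ (1 - ε) * L / 4 := by
        have h2 : ((1 - ε) * S) ^ 2 ≤ (1 - ε) * (δ * L) := by
          rw [mul_pow, hSsq]
          refine mul_le_mul_of_nonneg_right ?_ (by positivity)
          nlinarith
        have h3 := sq_nonneg ((1 - ε) * S - 2 * δ * k)
        have h4 : 4 * δ * ((1 - ε) * S * k - δ * (k : ℝ) ^ 2) ≤ 4 * δ * ((1 - ε) * L / 4) := by
          nlinarith
        exact le_of_mul_le_mul_left h4 (by positivity)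
      have h2 : Real.log (d / k) ≤ Real.log d + Real.log S := by
        rw [Real.log_div hd0.ne' hk0.ne']
        have h3 := Real.log_lt_log one_pos hSk
        rw [Real.log_one, Real.log_mul hS.ne' hk0.ne'] at h3
        linarith
      have h3 : Real.log S = 1 / 2 * (-L + Real.log L) := by
        have h4 : 2 * Real.log S = Real.log δ + Real.log L := by
          rw [← Real.log_mul hδ.ne' hL0.ne', ← hSsq, Real.log_pow]; push_cast; ring
        have h5 : Real.log δ = -L := by
          rw [hL, Real.log_div one_ne_zero hδ.ne', Real.log_one]; ring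
        rw [h5] at h4
        linarith
      have h4 : Real.log L ≤ ε * L / 2 + Real.log (2 / ε) := by
        have h5 : L = (ε * L / 2) * (2 / ε) := by field_simp
        have h6 : Real.log L = Real.log (ε * L / 2) + Real.log (2 / ε) := by
          conv_lhs => rw [h5]
          exact Real.log_mul (by positivity) (by positivity)
        have h7 := Real.log_le_sub_one_of_pos (show 0 < ε * L / 2 by positivity)
        linarith
      have h5 : M ≤ ε * L / 8 := by
        rw [div_le_iff₀ hε] at hL3
        linarith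
      rw [h3] at h2
      linarith
  calc Qf d o * Real.exp ((1 - ε) * S * k - δ * (k : ℝ) ^ 2)
      ≤ Real.exp (1 / 2 * Real.log (d / k)) * Real.exp ((1 - ε) * S * k - δ * (k : ℝ) ^ 2) :=
        mul_le_mul_of_nonneg_right hQ (Real.exp_pos _).le
    _ = Real.exp (1 / 2 * Real.log (d / k) + ((1 - ε) * S * k - δ * (k : ℝ) ^ 2)) := by
        rw [Real.exp_add]
    _ ≤ Real.exp (Real.log κ) := Real.exp_le_exp.mpr key
    _ = κ := Real.exp_log hκ

end Pool.Agent.DFE
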