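import Pool.Agent.Lib.DFE.Defs2

/-!
The upper bound for the partition function near the critical line: the row UPP.
-/

set_option autoImplicit false

namespace Pool.Agent.DFE.UPPAux

open Finset Pool.Agent.DCOL Pool.Agent.DFE

variable {d : ℕ}

/-- The weights of a component are determined by its stacks and by the end point. -/
theorem om_congr (hSET : SET_stmt) (hd : 0 < d) {T R : ℕ} (hT : 2 ≤ T) (i₀ : Fin d)
    (η δ lam c : ℝ) {w w' : List (Step d)} {p : Site d} (he : endp w = endp w')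
    (hp : p ∈ exF T w) (hp' : p ∈ exF T w') (hK : clu T w p = clu T w' p)
    (hs : ∀ x ∈ clu T w p, stk 0 w x = stk 0 w' x) :
    ∀ x ∈ clu T w p, om T R i₀ η δ lam c w x = om T R i₀ η δ lam c w' x := by
  intro x hx
  have hx' : x ∈ clu T w' p := hK ▸ hx
  obtain ⟨-, h2⟩ := hSET d T w p hd hT
  obtain ⟨-, hsub, -, hcl, hbig, -, -, -, -⟩ := h2 hp
  obtain ⟨-, h2'⟩ := hSET d T w' p hd hT
  obtain ⟨-, hsub', -, hcl', hbig', -, -, -, -⟩ := h2' hp'
  have hloc : ∀ y ∈ clu T w p, locN w y = locN w' y := by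
    intro y hy
    rw [← length_stk0, ← length_stk0, hs y hy, he]
  have hEx : ∀ s : Step d, Ex T (locN w) (x + vec s) ↔ x + vec s ∈ clu T w p := by
    intro s
    rw [← (hSET d T w (x + vec s) hd hT).1]
    exact ⟨fun h => hcl x hx s h, fun h => hsub h⟩
  have hEx' : ∀ s : Step d, Ex T (locN w') (x + vec s) ↔ x + vec s ∈ clu T w p := by
    intro s
    rw [← (hSET d T w' (x + vec s) hd hT).1, hK]
    exact ⟨fun h => hcl' x hx' s h, fun h => hsub' h⟩
  unfold om
  congr 1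
  · by_cases hTx : T ≤ locN w x
    · have hTx' : T ≤ locN w' x := by rw [← hloc x hx]; exact hTx
      rw [if_pos hTx, if_pos hTx', hloc x hx, hloc _ (hbig x hx hTx (i₀, true))]
    · have hTx' : ¬ T ≤ locN w' x := by rw [← hloc x hx]; exact hTx
      rw [if_neg hTx, if_neg hTx']
  · refine Finset.prod_congr rfl fun s _ => ?_
    by_cases h : x + vec s ∈ clu T w p
    · rw [if_pos ((hEx s).mpr h), if_pos ((hEx' s).mpr h), hloc _ h, hloc x hx]
    · rw [if_neg (fun h' => h ((hEx s).mp h')), if_neg (fun h' => h ((hEx' s).mp h'))]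

theorem om_nonneg (T R : ℕ) (i₀ : Fin d) (η δ lam c : ℝ) (w : List (Step d)) (x : Site d) :
    0 ≤ om T R i₀ η δ lam c w x := by
  unfold om
  refine mul_nonneg ?_ (Finset.prod_nonneg fun s _ => ?_)
  · split_ifs <;> positivity
  · split_ifs <;> positivity

/-- One of the windows has few soft sites. -/
theorem exists_soft (T₀ R K : ℕ) (hK : 0 < K) (i₀ : Fin d) (w : List (Step d)) :
    ∃ j ∈ range K, K * soft (T₀ + j * R) R i₀ w ≤ (vis 0 w).card := by
  classical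
  by_contra hcon
  push Not at hcon
  have hsum : ∑ j ∈ range K, soft (T₀ + j * R) R i₀ w ≤ (vis 0 w).card := by
    unfold soft
    rw [← Finset.card_biUnion]
    · refine Finset.card_le_card ?_
      intro x hx
      obtain ⟨j, -, hj⟩ := Finset.mem_biUnion.mp hx
      exact (Finset.mem_filter.mp hj).1
    · intro i _ j _ hij
      rw [Function.onFun, Finset.disjoint_left]
      intro x hx hx'
      obtain ⟨-, h1, h2, -⟩ := Finset.mem_filter.mp hx
      obtain ⟨-, h3, h4, -⟩ := Finset.mem_filter.mp hx'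
      rcases lt_or_gt_of_ne hij with h | h
      · have : (i + 1) * R ≤ j * R := Nat.mul_le_mul_right R h
        rw [Nat.add_mul, Nat.one_mul] at this
        omega
      · have : (j + 1) * R ≤ i * R := Nat.mul_le_mul_right R h
        rw [Nat.add_mul, Nat.one_mul] at this
        omega
  have h1 : ∑ j ∈ range K, (vis 0 w).card < ∑ j ∈ range K, K * soft (T₀ + j * R) R i₀ w :=
    Finset.sum_lt_sum_of_nonempty ⟨0, Finset.mem_range.mpr hK⟩ hcon
  rw [Finset.sum_const, Finset.card_range, ← Finset.mul_sum, smul_eq_mul] at h1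
  exact absurd (Nat.lt_of_mul_lt_mul_left h1) (not_lt.mpr hsum)

/-- The scale is small for small `δ`. -/
theorem SS_small {x : ℝ} (hx : 0 < x) : ∃ δ₁ : ℝ, 0 < δ₁ ∧ ∀ δ, 0 < δ → δ ≤ δ₁ →
    0 < SS δ ∧ SS δ ≤ x := by
  refine ⟨min (Real.exp (-1)) ((x ^ 2 / 2) ^ 2), lt_min (Real.exp_pos _) (by positivity),
    fun δ hδ hδ1 => ?_⟩
  have h1 : 1 ≤ Real.log (1 / δ) := by
    rw [Real.log_div one_ne_zero hδ.ne', Real.log_one, zero_sub, le_neg]
    have := Real.log_le_log hδ (hδ1.trans (min_le_left _ _))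
    rwa [Real.log_exp] at this
  have h2 : Real.sqrt δ ≤ x ^ 2 / 2 := by
    rw [Real.sqrt_le_left (by positivity)]
    exact hδ1.trans (min_le_right _ _)
  have hs : 0 < Real.sqrt δ := Real.sqrt_pos.mpr hδ
  have h3 : Real.log (1 / δ) ≤ 2 / Real.sqrt δ := by
    have h4 : (1 : ℝ) / δ = (1 / Real.sqrt δ) ^ 2 := by
      rw [div_pow, one_pow, Real.sq_sqrt hδ.le]
    rw [h4, Real.log_pow]
    have h5 := Real.log_le_sub_one_of_pos (show 0 < 1 / Real.sqrt δ by positivity)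
    push_cast
    have h6 : 2 / Real.sqrt δ = 2 * (1 / Real.sqrt δ) := by ring
    rw [h6]
    linarith
  refine ⟨Real.sqrt_pos.mpr (mul_pos hδ (by linarith)), ?_⟩
  unfold SS
  rw [Real.sqrt_le_left hx.le]
  calc δ * Real.log (1 / δ) ≤ δ * (2 / Real.sqrt δ) := mul_le_mul_of_nonneg_left h3 hδ.le
    _ = 2 * Real.sqrt δ := by
        have : δ = Real.sqrt δ * Real.sqrt δ := (Real.mul_self_sqrt hδ.le).symm
        field_simp
        linarith
    _ ≤ x ^ 2 := by linarith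

/-- Exponential growth beats polynomial growth. -/
theorem poly_exp {a A B : ℝ} (ha : 0 < a) (hA : 0 ≤ A) (hB : 0 ≤ B) (d : ℕ) :
    ∃ n₀ : ℕ, ∀ n : ℕ, n₀ ≤ n →
      A * (2 * (n : ℝ) + 1) ^ d + B * ((n : ℝ) + 1) ^ 2 ≤ Real.exp (a * n) := by
  have h := isLittleO_pow_exp_pos_mul_atTop (k := d + 2) (b := a / 2) (by positivity)
  have hc : 0 < Real.exp (-(a / 2)) / (A + B + 1) := by positivity
  have h1 := h.def hc
  obtain ⟨X, hX⟩ := Filter.eventually_atTop.mp h1
  refine ⟨⌈X⌉₊, fun n hn => ?_⟩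
  have hn0 : (0 : ℝ) ≤ n := Nat.cast_nonneg _
  have hXn : X ≤ 2 * (n : ℝ) + 1 := by
    have h2 : X ≤ (n : ℝ) := (Nat.le_ceil X).trans (by exact_mod_cast hn)
    linarith
  have h2 := hX _ hXn
  rw [Real.norm_of_nonneg (by positivity), Real.norm_of_nonneg (Real.exp_pos _).le] at h2
  have hb : (1 : ℝ) ≤ 2 * (n : ℝ) + 1 := by linarith
  have h3 : (2 * (n : ℝ) + 1) ^ d ≤ (2 * (n : ℝ) + 1) ^ (d + 2) :=
    pow_le_pow_right₀ hb (by omega)
  have h4 : ((n : ℝ) + 1) ^ 2 ≤ (2 * (n : ℝ) + 1) ^ (d + 2) :=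
    (pow_le_pow_left₀ (by positivity) (by linarith) 2).trans (pow_le_pow_right₀ hb (by omega))
  have h5 : 0 ≤ (2 * (n : ℝ) + 1) ^ (d + 2) := by positivity
  calc A * (2 * (n : ℝ) + 1) ^ d + B * ((n : ℝ) + 1) ^ 2
      ≤ A * (2 * (n : ℝ) + 1) ^ (d + 2) + B * (2 * (n : ℝ) + 1) ^ (d + 2) := by gcongr
    _ ≤ (A + B + 1) * (2 * (n : ℝ) + 1) ^ (d + 2) := by linarith
    _ ≤ (A + B + 1) * (Real.exp (-(a / 2)) / (A + B + 1) *
          Real.exp (a / 2 * (2 * (n : ℝ) + 1))) := by gcongr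
    _ = Real.exp (-(a / 2)) * Real.exp (a / 2 * (2 * (n : ℝ) + 1)) := by
        field_simp
    _ = Real.exp (a * n) := by rw [← Real.exp_add]; congr 1; ring

/-- The words with a given end point and few soft sites. -/
theorem part_bound (hSET : SET_stmt) (hRUN : RUN_stmt) (hENB : ENB_stmt) (hd : 0 < d)
    {T R K v n : ℕ} (hT : 2 ≤ T) (hK : 0 < K) (i₀ : Fin d) {β γ η lam c Ξ A : ℝ}
    (hη : 0 ≤ η) (hlam : 0 ≤ lam) (hc : 0 ≤ c) (hcγ : 16 * d * c ≤ γ) (hγβ : γ < β) (hΞ : 0 ≤ Ξ)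
    (e : Site d)
    (hcls : ∀ (p : Site d) (S : Finset (List (Step d))),
      (∀ w ∈ S, w.length = n ∧ endp w = e ∧ p ∈ exF T w) →
      (∀ w ∈ S, ∀ w' ∈ S, (clu T w p = clu T w' p ∧
        ∀ x ∈ clu T w p, stk 0 w x = stk 0 w' x) → w = w') →
      ∑ w ∈ S, ((2 * d : ℝ) ^ (∑ x ∈ clu T w p, (stk 0 w x).length))⁻¹ *
        ∏ x ∈ clu T w p, om T R i₀ η (β - γ) lam c w x ≤ Ξ)
    (hA : A ≤ η * ((n : ℝ) - T * v) - lam * v / K)
    (S : Finset (List (Step d))) (hS : ∀ w ∈ S, w.length = n ∧ endp w = e ∧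
      (vis 0 w).card ≤ v ∧ K * soft T R i₀ w ≤ (vis 0 w).card) :
    ∑ w ∈ S, Real.exp (-En β γ (loc w)) ≤ (2 * d) ^ n * (Real.exp (-A) * (1 + Ξ) ^ v) := by
  have hd0 : (0 : ℝ) < d := by exact_mod_cast hd
  have hK0 : (0 : ℝ) < K := by exact_mod_cast hK
  have hrun := hRUN d hd (fun w => w.length = n ∧ endp w = e) (exF T) (clu T)
    (fun w x => om T R i₀ η (β - γ) lam c w x) Ξ n v hΞ
    (fun w x => om_nonneg T R i₀ η (β - γ) lam c w x)
    (by
      intro w _ x hx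
      obtain ⟨-, h2⟩ := hSET d T w x hd hT
      obtain ⟨h3, h4, h5, -, -, -, h6, -, -⟩ := h2 hx
      exact ⟨h3, h4, h6, h5⟩)
    (by
      intro w w' p hw hw' hp hp' hK' hs
      exact om_congr hSET hd hT i₀ η (β - γ) lam c (hw.2.trans hw'.2.symm) hp hp' hK' hs)
    (by
      intro S' p h1 h2
      exact hcls p S' (fun w hw => ⟨(h1 w hw).1.1, (h1 w hw).1.2, (h1 w hw).2⟩) h2)
    S (fun w hw => ⟨⟨(hS w hw).1, (hS w hw).2.1⟩, (hS w hw).1, (hS w hw).2.2.1⟩)
  have hterm : ∀ w ∈ S, Real.exp (-En β γ (loc w)) ≤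
      (2 * d) ^ n * Real.exp (-A) * (((2 * d : ℝ) ^ n)⁻¹ *
        ∏ x ∈ exF T w, om T R i₀ η (β - γ) lam c w x) := by
    intro w hw
    obtain ⟨h1, -, h3, h4⟩ := hS w hw
    have hE := hENB d hd T R i₀ β γ η lam c hT hη hc hcγ hγβ w
    have hprod : 0 ≤ ∏ x ∈ exF T w, om T R i₀ η (β - γ) lam c w x :=
      Finset.prod_nonneg fun x _ => om_nonneg T R i₀ η (β - γ) lam c w x
    have hv : ((vis 0 w).card : ℝ) ≤ v := by exact_mod_cast h3
    have hsoft : (K : ℝ) * soft T R i₀ w ≤ v := by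
      have : ((K * soft T R i₀ w : ℕ) : ℝ) ≤ ((vis 0 w).card : ℝ) := by exact_mod_cast h4
      push_cast at this
      linarith
    have hexp : -(η * ((w.length : ℝ) - T * (vis 0 w).card)) + lam * soft T R i₀ w ≤ -A := by
      have a1 : lam * soft T R i₀ w ≤ lam * v / K := by
        rw [le_div_iff₀ hK0]
        calc lam * soft T R i₀ w * K = lam * (K * soft T R i₀ w) := by ring
          _ ≤ lam * v := mul_le_mul_of_nonneg_left hsoft hlam
      have a2 : η * ((n : ℝ) - T * v) ≤ η * ((w.length : ℝ) - T * (vis 0 w).card) := by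
        refine mul_le_mul_of_nonneg_left ?_ hη
        rw [h1]
        have : (T : ℝ) * (vis 0 w).card ≤ T * v := by gcongr
        linarith
      linarith
    calc Real.exp (-En β γ (loc w)) ≤ _ := hE
      _ ≤ Real.exp (-A) * ∏ x ∈ exF T w, om T R i₀ η (β - γ) lam c w x :=
          mul_le_mul_of_nonneg_right (Real.exp_le_exp.mpr hexp) hprod
      _ = _ := by
          have : ((2 * d : ℝ) ^ n) ≠ 0 := by positivity
          field_simp
  calc ∑ w ∈ S, Real.exp (-En β γ (loc w)) ≤ ∑ w ∈ S, (2 * d) ^ n * Real.exp (-A) *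
        (((2 * d : ℝ) ^ n)⁻¹ * ∏ x ∈ exF T w, om T R i₀ η (β - γ) lam c w x) :=
        Finset.sum_le_sum hterm
    _ = (2 * d) ^ n * Real.exp (-A) * ∑ w ∈ S, (((2 * d : ℝ) ^ n)⁻¹ *
        ∏ x ∈ exF T w, om T R i₀ η (β - γ) lam c w x) := by rw [Finset.mul_sum]
    _ ≤ (2 * d) ^ n * Real.exp (-A) * (1 + Ξ) ^ v := by
        refine mul_le_mul_of_nonneg_left hrun (by positivity)
    _ = _ := by ring

/-- A sum over a union. -/
theorem sum_cover {ι α : Type*} [DecidableEq α] (I : Finset ι) (A : Finset α) (S : ι → Finset α)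
    (f : α → ℝ) (hf : ∀ a, 0 ≤ f a) (h : ∀ a ∈ A, ∃ i ∈ I, a ∈ S i) :
    ∑ a ∈ A, f a ≤ ∑ i ∈ I, ∑ a ∈ S i, f a := by
  calc ∑ a ∈ A, f a ≤ ∑ a ∈ A, ∑ i ∈ I, (if a ∈ S i then f a else 0) := by
        refine Finset.sum_le_sum fun a ha => ?_
        obtain ⟨i, hi, hai⟩ := h a ha
        have h1 := Finset.single_le_sum (f := fun i => if a ∈ S i then f a else 0)
          (fun i _ => by
            split_ifs
            · exact hf a
            · exact le_rfl) hi
        calc f a = (if a ∈ S i then f a else 0) := (if_pos hai).symm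
          _ ≤ _ := h1
    _ = ∑ i ∈ I, ∑ a ∈ A, (if a ∈ S i then f a else 0) := Finset.sum_comm
    _ ≤ ∑ i ∈ I, ∑ a ∈ S i, f a := by
        refine Finset.sum_le_sum fun i _ => ?_
        rw [← Finset.sum_filter]
        refine Finset.sum_le_sum_of_subset_of_nonneg ?_ fun a _ _ => hf a
        intro a ha
        exact (Finset.mem_filter.mp ha).2

end Pool.Agent.DFE.UPPAux

namespace Pool.Agent.DFE

open Finset Pool.Agent.DCOL UPPAux

/-- **UPP.** -/
theorem upp (hSET : SET_stmt) (hVISW : VISW_stmt) (hRUN : RUN_stmt) (hENB : ENB_stmt)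
    (hCLS : CLS_stmt) : UPP_stmt := by
  classical
  intro d hd b ε hb hε hε1
  have hd0 : (0 : ℝ) < d := by exact_mod_cast hd
  obtain ⟨c₁, CV, hc₁, hCV, hV⟩ := hVISW d hd b hb
  set K1 : ℝ := 3 / c₁ with hK1
  have hK1p : 0 < K1 := by positivity
  set Ξ : ℝ := ε / (8 * K1 + 8) with hΞ
  have hΞ0 : 0 < Ξ := by positivity
  have hΞK : Ξ * K1 ≤ ε / 8 := by
    rw [hΞ, div_mul_eq_mul_div, div_le_div_iff₀ (by positivity) (by norm_num)]
    nlinarith
  set c : ℝ := b / (16 * d) with hc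
  have hc0 : 0 < c := by positivity
  have hcb : 16 * d * c = b := by rw [hc]; field_simp
  set i₀ : Fin d := ⟨0, hd⟩ with hi₀
  obtain ⟨T₀, R, lam, hT₀, hR, hlam, hCL⟩ := hCLS d hd i₀ c (ε / 4) Ξ hc0 (by positivity)
    (by linarith) hΞ0
  set K2 : ℕ := ⌈8 * lam * K1 / ε⌉₊ + 1 with hK2
  have hK2p : 0 < K2 := Nat.succ_pos _
  have hK2r : (0 : ℝ) < K2 := by exact_mod_cast hK2p
  have hK2l : lam * K1 / K2 ≤ ε / 8 := by
    rw [div_le_iff₀ hK2r]
    have h1 : 8 * lam * K1 / ε ≤ K2 := by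
      rw [hK2]; push_cast
      have := Nat.le_ceil (8 * lam * K1 / ε)
      linarith
    rw [div_le_iff₀ hε] at h1
    linarith
  obtain ⟨δ₀', hδ₀', hCL2⟩ := hCL (T₀ + K2 * R) (by omega)
  set T₁ : ℕ := T₀ + K2 * R with hT₁
  have hT₁p : (0 : ℝ) < T₁ := by
    have : 0 < T₁ := by omega
    exact_mod_cast this
  obtain ⟨δ₁, hδ₁, hSS⟩ := SS_small (x := ε / (8 * (T₁ * K1))) (by positivity)
  refine ⟨min δ₀' δ₁, lt_min hδ₀' hδ₁, fun β γ hbγ hγβ hδ => ?_⟩
  have hδ0 : 0 < β - γ := by linarith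
  obtain ⟨hS0, hS1⟩ := hSS (β - γ) hδ0 (hδ.trans (min_le_right _ _))
  set S : ℝ := SS (β - γ) with hSdef
  have hS2 : T₁ * K1 * S ≤ ε / 8 := by
    rw [le_div_iff₀ (by positivity)] at hS1
    linarith
  obtain ⟨n₀, hn₀⟩ := poly_exp (a := 3 * ε / 8 * S) (A := K2) (B := CV) (by positivity)
    (by positivity) hCV.le d
  refine ⟨n₀, fun n hn => ?_⟩
  have hn0 : (0 : ℝ) ≤ n := Nat.cast_nonneg _
  set v : ℕ := ⌊K1 * S * n⌋₊ with hv
  have hKSn : 0 ≤ K1 * S * n := by positivity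
  have hv1 : (v : ℝ) ≤ K1 * S * n := Nat.floor_le hKSn
  have hv2 : K1 * S * n < v + 1 := Nat.lt_floor_add_one _
  -- the words with many visited sites
  have hbig : ∑ w ∈ (allw d n).filter (fun w => ¬ (vis 0 w).card ≤ v),
      Real.exp (-En β γ (loc w)) ≤ (2 * d) ^ n * (Real.exp (-(3 * S * n)) *
        (CV * ((n : ℝ) + 1) ^ 2)) := by
    have h1 : ∀ w ∈ (allw d n).filter (fun w => ¬ (vis 0 w).card ≤ v),
        Real.exp (-En β γ (loc w)) ≤ Real.exp (-(3 * S * n)) *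
          Real.exp (c₁ * ((vis 0 w).card : ℝ) - En β γ (loc w)) := by
      intro w hw
      have h2 := (Finset.mem_filter.mp hw).2
      have h3 : (v : ℝ) + 1 ≤ (vis 0 w).card := by
        have : v + 1 ≤ (vis 0 w).card := by omega
        exact_mod_cast this
      rw [← Real.exp_add]
      refine Real.exp_le_exp.mpr ?_
      have h4 : 3 * S * n ≤ c₁ * ((vis 0 w).card : ℝ) := by
        have h5 : c₁ * (K1 * S * n) = 3 * S * n := by rw [hK1]; field_simp
        have h6 := mul_le_mul_of_nonneg_left (hv2.le.trans h3) hc₁.le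
        linarith
      linarith
    calc _ ≤ ∑ w ∈ (allw d n).filter (fun w => ¬ (vis 0 w).card ≤ v),
          Real.exp (-(3 * S * n)) * Real.exp (c₁ * ((vis 0 w).card : ℝ) - En β γ (loc w)) :=
          Finset.sum_le_sum h1
      _ ≤ ∑ w ∈ allw d n,
          Real.exp (-(3 * S * n)) * Real.exp (c₁ * ((vis 0 w).card : ℝ) - En β γ (loc w)) :=
          Finset.sum_le_sum_of_subset_of_nonneg (Finset.filter_subset _ _)
            fun w _ _ => by positivity
      _ = Real.exp (-(3 * S * n)) * ∑ w ∈ allw d n,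
          Real.exp (c₁ * ((vis 0 w).card : ℝ) - En β γ (loc w)) := by rw [Finset.mul_sum]
      _ ≤ Real.exp (-(3 * S * n)) * ((2 * d) ^ n * (CV * ((n : ℝ) + 1) ^ 2)) :=
          mul_le_mul_of_nonneg_left (hV β γ hbγ hγβ n) (Real.exp_pos _).le
      _ = _ := by ring
  -- the words with few visited sites
  set A : ℝ := (1 - ε / 2) * S * n with hAdef
  have hpart : ∀ i ∈ (range K2) ×ˢ (Fintype.piFinset fun _ : Fin d => Finset.Icc (-(n : ℤ)) n),
      ∑ w ∈ (allw d n).filter (fun w => (vis 0 w).card ≤ v ∧ endp w = i.2 ∧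
        K2 * soft (T₀ + i.1 * R) R i₀ w ≤ (vis 0 w).card), Real.exp (-En β γ (loc w)) ≤
      (2 * d) ^ n * (Real.exp (-A) * (1 + Ξ) ^ v) := by
    intro i hi
    have hj : i.1 < K2 := Finset.mem_range.mp (Finset.mem_product.mp hi).1
    have hTj : T₀ + i.1 * R ≤ T₁ := by
      have : i.1 * R ≤ K2 * R := Nat.mul_le_mul_right R hj.le
      omega
    have hTjr : ((T₀ + i.1 * R : ℕ) : ℝ) ≤ T₁ := by exact_mod_cast hTj
    refine part_bound hSET hRUN hENB hd (T := T₀ + i.1 * R) (R := R) (K := K2) (v := v)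
      (η := (1 - ε / 4) * S) (lam := lam) (c := c) (by omega) hK2p i₀
      (mul_nonneg (by linarith) hS0.le) hlam hc0.le (by rw [hcb]; exact hbγ) hγβ hΞ0.le i.2
      ?_ ?_ _ ?_
    · intro p S' h1 h2
      exact hCL2 (T₀ + i.1 * R) (β - γ) (by omega) hTj hδ0 (hδ.trans (min_le_left _ _)) n i.2 p S'
        h1 h2
    · have a1 : lam * v / K2 ≤ ε / 8 * S * n := by
        calc lam * v / K2 ≤ lam * (K1 * S * n) / K2 := by gcongr
          _ = lam * K1 / K2 * (S * n) := by ring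
          _ ≤ ε / 8 * (S * n) := mul_le_mul_of_nonneg_right hK2l (by positivity)
          _ = _ := by ring
      have a2 : ((T₀ + i.1 * R : ℕ) : ℝ) * v ≤ ε / 8 * n := by
        calc ((T₀ + i.1 * R : ℕ) : ℝ) * v ≤ T₁ * (K1 * S * n) := by gcongr
          _ = T₁ * K1 * S * n := by ring
          _ ≤ _ := mul_le_mul_of_nonneg_right hS2 hn0
      have a3 : (1 - ε / 4) * S * (ε / 8 * n) ≤ ε / 8 * (S * n) := by
        have : (1 - ε / 4) * S * (ε / 8 * n) = (1 - ε / 4) * (ε / 8 * (S * n)) := by ring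
        rw [this]
        have h0 : 0 ≤ ε / 8 * (S * n) := by positivity
        nlinarith
      have a4 : (1 - ε / 4) * S * (((T₀ + i.1 * R : ℕ) : ℝ) * v) ≤
          (1 - ε / 4) * S * (ε / 8 * n) :=
        mul_le_mul_of_nonneg_left a2 (mul_nonneg (by linarith) hS0.le)
      rw [hAdef, mul_sub]
      linarith
    · intro w hw
      obtain ⟨h1, h2, h3, h4⟩ := Finset.mem_filter.mp hw
      exact ⟨mem_allw.mp h1, h3, h2, h4⟩
  have hcover := sum_cover ((range K2) ×ˢ (Fintype.piFinset fun _ : Fin d =>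
    Finset.Icc (-(n : ℤ)) n)) ((allw d n).filter (fun w => (vis 0 w).card ≤ v))
    (fun i => (allw d n).filter (fun w => (vis 0 w).card ≤ v ∧ endp w = i.2 ∧
        K2 * soft (T₀ + i.1 * R) R i₀ w ≤ (vis 0 w).card))
    (fun w => Real.exp (-En β γ (loc w))) (fun w => (Real.exp_pos _).le)
    (by
      intro w hw
      obtain ⟨h1, h2⟩ := Finset.mem_filter.mp hw
      obtain ⟨j, hj, hj2⟩ := exists_soft T₀ R K2 hK2p i₀ w
      refine ⟨(j, endp w), Finset.mem_product.mpr ⟨hj, ?_⟩, Finset.mem_filter.mpr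
        ⟨h1, h2, rfl, hj2⟩⟩
      rw [Fintype.mem_piFinset]
      intro i
      have h3 := abs_endp w i
      rw [mem_allw.mp h1, abs_le] at h3
      exact Finset.mem_Icc.mpr h3)
  have hcard : (((range K2) ×ˢ (Fintype.piFinset fun _ : Fin d =>
      Finset.Icc (-(n : ℤ)) n)).card : ℝ) = K2 * (2 * (n : ℝ) + 1) ^ d := by
    rw [Finset.card_product, Finset.card_range, Fintype.card_piFinset, Finset.prod_const,
      Finset.card_univ, Fintype.card_fin, Int.card_Icc]
    have h1 : ((n : ℤ) + 1 - -(n : ℤ)).toNat = 2 * n + 1 := by omega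
    rw [h1]
    push_cast
    ring
  have hsmall : ∑ w ∈ (allw d n).filter (fun w => (vis 0 w).card ≤ v),
      Real.exp (-En β γ (loc w)) ≤ (2 * d) ^ n * (K2 * (2 * (n : ℝ) + 1) ^ d *
        (Real.exp (-A) * (1 + Ξ) ^ v)) := by
    refine hcover.trans ((Finset.sum_le_sum hpart).trans (le_of_eq ?_))
    rw [Finset.sum_const, nsmul_eq_mul, hcard]
    ring
  -- the end
  have hXi : (1 + Ξ) ^ v ≤ Real.exp (ε / 8 * S * n) := by
    calc (1 + Ξ) ^ v ≤ (Real.exp Ξ) ^ v := by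
          refine pow_le_pow_left₀ (by positivity) ?_ v
          have := Real.add_one_le_exp Ξ
          linarith
      _ = Real.exp (v * Ξ) := (Real.exp_nat_mul Ξ v).symm
      _ ≤ _ := by
          refine Real.exp_le_exp.mpr ?_
          calc (v : ℝ) * Ξ ≤ K1 * S * n * Ξ := by gcongr
            _ = Ξ * K1 * (S * n) := by ring
            _ ≤ ε / 8 * (S * n) := mul_le_mul_of_nonneg_right hΞK (by positivity)
            _ = _ := by ring
  have hZ : Zw d β γ n = ∑ w ∈ (allw d n).filter (fun w => (vis 0 w).card ≤ v),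
      Real.exp (-En β γ (loc w)) + ∑ w ∈ (allw d n).filter (fun w => ¬ (vis 0 w).card ≤ v),
      Real.exp (-En β γ (loc w)) := by
    unfold Zw
    rw [Finset.sum_filter_add_sum_filter_not]
  have hSn : 0 ≤ S * n := by positivity
  have hεSn : 0 ≤ ε * (S * n) := by positivity
  have e1 : Real.exp (-A) * (1 + Ξ) ^ v ≤ Real.exp (-((1 - 5 * ε / 8) * S * n)) := by
    calc Real.exp (-A) * (1 + Ξ) ^ v ≤ Real.exp (-A) * Real.exp (ε / 8 * S * n) :=
          mul_le_mul_of_nonneg_left hXi (Real.exp_pos _).le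
      _ = Real.exp (-((1 - 5 * ε / 8) * S * n)) := by
          rw [← Real.exp_add]
          congr 1
          rw [hAdef]; ring
  have e2 : Real.exp (-(3 * S * n)) ≤ Real.exp (-((1 - 5 * ε / 8) * S * n)) := by
    refine Real.exp_le_exp.mpr ?_
    have : 3 * S * n - (1 - 5 * ε / 8) * S * n = 2 * (S * n) + 5 / 8 * (ε * (S * n)) := by ring
    linarith
  rw [hZ]
  calc _ ≤ (2 * d) ^ n * (K2 * (2 * (n : ℝ) + 1) ^ d * (Real.exp (-A) * (1 + Ξ) ^ v)) +
        (2 * d) ^ n * (Real.exp (-(3 * S * n)) * (CV * ((n : ℝ) + 1) ^ 2)) :=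
        add_le_add hsmall hbig
    _ ≤ (2 * d) ^ n * (K2 * (2 * (n : ℝ) + 1) ^ d * Real.exp (-((1 - 5 * ε / 8) * S * n))) +
        (2 * d) ^ n * (Real.exp (-((1 - 5 * ε / 8) * S * n)) * (CV * ((n : ℝ) + 1) ^ 2)) := by
        gcongr
    _ = (2 * d) ^ n * ((K2 * (2 * (n : ℝ) + 1) ^ d + CV * ((n : ℝ) + 1) ^ 2) *
        Real.exp (-((1 - 5 * ε / 8) * S * n))) := by ring
    _ ≤ (2 * d) ^ n * (Real.exp (3 * ε / 8 * S * n) *
        Real.exp (-((1 - 5 * ε / 8) * S * n))) := by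
        have := hn₀ n hn
        gcongr
    _ = (2 * d) ^ n * Real.exp (-((1 - ε) * S * n)) := by
        rw [← Real.exp_add]
        congr 2
        ring

end Pool.Agent.DFE
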