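import Pool.Agent.Lib.DFE.Defs2

/-!
VISW: few visited sites (exponential moment of the number of visited sites).
-/

set_option autoImplicit false

namespace Pool.Agent.DFE

open Finset Pool.Agent.DCOL

/-- **VISW.** -/
theorem visw : VISW_stmt := by
  intro d hd b hb
  have hd0 : (0 : ℝ) < d := by exact_mod_cast hd
  have hG := Gam_pos hd
  set c : ℝ := 1 / (8 * d) with hc
  have hc0 : 0 < c := by positivity
  set θ : ℝ := min 1 (b / Gam d) with hθ
  have hθ0 : 0 < θ := lt_min one_pos (by positivity)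
  have hθ1 : θ ≤ 1 := min_le_left _ _
  refine ⟨θ * c, Real.exp (3 * c), by positivity, Real.exp_pos _, fun β γ hγ hγβ n => ?_⟩
  set δ : ℝ := β / θ - γ / θ with hδ
  have hβθ : γ / θ < β / θ := by gcongr
  have hδ0 : 0 < δ := by rw [hδ]; linarith
  have hγθ : Gam d ≤ γ / θ := by
    rw [le_div_iff₀ hθ0]
    have h1 : θ ≤ b / Gam d := min_le_right _ _
    rw [le_div_iff₀ hG] at h1
    linarith
  -- the choice of the rate
  set K : ℝ := 1 / 4 + 3 * c + 1 / 2 * Real.log d with hK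
  set η : ℝ := min (Real.sqrt δ) (c * Real.exp (-(2 * K))) with hη
  have hη0 : 0 < η := lt_min (Real.sqrt_pos.mpr hδ0) (by positivity)
  have hη1 : η ^ 2 / (4 * δ) ≤ 1 / 4 := by
    have h1 : η ^ 2 ≤ δ := by
      calc η ^ 2 ≤ Real.sqrt δ ^ 2 := pow_le_pow_left₀ hη0.le (min_le_left _ _) 2
        _ = δ := Real.sq_sqrt hδ0.le
    rw [div_le_iff₀ (by positivity)]
    linarith
  have hη2 : K ≤ 1 / 2 * Real.log (c / η) := by
    have h1 : Real.exp (2 * K) ≤ c / η := by
      rw [le_div_iff₀ hη0]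
      calc Real.exp (2 * K) * η ≤ Real.exp (2 * K) * (c * Real.exp (-(2 * K))) :=
            mul_le_mul_of_nonneg_left (min_le_right _ _) (Real.exp_pos _).le
        _ = c * (Real.exp (2 * K) * Real.exp (-(2 * K))) := by ring
        _ = c := by rw [← Real.exp_add, add_neg_cancel, Real.exp_zero, mul_one]
    have h2 := Real.log_le_log (Real.exp_pos _) h1
    rw [Real.log_exp] at h2
    linarith
  have hU := upper_big hd hγθ hβθ hη0 (by
    rw [← hδ, ← hc]
    linarith) n
  rw [← hc] at hU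
  -- the power mean inequality
  have hne : (allw d n).Nonempty := by
    rw [← Finset.card_pos, card_allw]; positivity
  have hcard : ((allw d n).card : ℝ) = (2 * d) ^ n := by rw [card_allw]; push_cast; rfl
  have hPM := power_mean (allw d n)
    (fun w => Real.exp (c * ((vis 0 w).card : ℝ) - En (β / θ) (γ / θ) (loc w)))
    (fun w _ => Real.exp_pos _) hθ0 hθ1 hne (B := (n + 1) ^ 2 * Real.exp (3 * c - η * n)) (by
      rw [hcard]; exact hU)
  rw [hcard] at hPM
  have hterm : ∀ w ∈ allw d n,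
      Real.exp (c * ((vis 0 w).card : ℝ) - En (β / θ) (γ / θ) (loc w)) ^ θ =
      Real.exp (θ * c * ((vis 0 w).card : ℝ) - En β γ (loc w)) := by
    intro w _
    rw [← Real.exp_mul, En_scale hθ0.ne' (β := β) (γ := γ)]
    congr 1; ring
  rw [Finset.sum_congr rfl hterm] at hPM
  refine hPM.trans ?_
  refine mul_le_mul_of_nonneg_left ?_ (by positivity)
  have hn0 : (0 : ℝ) ≤ n := Nat.cast_nonneg _
  have hn1 : (1 : ℝ) ≤ (n : ℝ) + 1 := by linarith
  rw [Real.mul_rpow (by positivity) (Real.exp_pos _).le, ← Real.exp_mul, mul_comm]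
  have hq1 : (((n : ℝ) + 1) ^ 2) ^ θ ≤ ((n : ℝ) + 1) ^ 2 := by
    have h1 : (1 : ℝ) ≤ ((n : ℝ) + 1) ^ 2 := one_le_pow₀ hn1
    calc (((n : ℝ) + 1) ^ 2) ^ θ ≤ (((n : ℝ) + 1) ^ 2) ^ (1 : ℝ) :=
          Real.rpow_le_rpow_of_exponent_le h1 hθ1
      _ = _ := Real.rpow_one _
  have hq2 : Real.exp ((3 * c - η * n) * θ) ≤ Real.exp (3 * c) := by
    refine Real.exp_le_exp.mpr ?_
    have h1 : 3 * c * θ ≤ 3 * c * 1 := mul_le_mul_of_nonneg_left hθ1 (by positivity)
    have h2 : 0 ≤ η * n * θ := by positivity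
    linarith
  exact mul_le_mul hq2 hq1 (by positivity) (Real.exp_pos _).le

end Pool.Agent.DFE
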