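import Pool.Agent.Lib.DFE.LOWF
import Pool.Agent.Lib.DFE.BOX
import Pool.Agent.Lib.DFE.LIST
import Pool.Agent.Lib.DFE.UPP
import Pool.Agent.Lib.DFE.SET
import Pool.Agent.Lib.DFE.SITE
import Pool.Agent.Lib.DFE.VISW
import Pool.Agent.Lib.DFE.RUN
import Pool.Agent.Lib.DFE.ENB
import Pool.Agent.Lib.DFE.CLS
import Pool.Agent.Lib.DFE.PW
import Pool.Agent.Lib.DFE.CST
import Pool.Agent.Lib.DFE.EXPL2
import Pool.Agent.Lib.DFE.LEV

/-!
The sharp free energy of the polymer just below the critical line.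
-/

set_option autoImplicit false

namespace Pool.Agent.DFE

open Pool.Agent.DCOL

theorem low_all : LOW_stmt := low (box_thm list_thm)

theorem lowf_all : LOWF_stmt := lowf (box_thm list_thm)

theorem upp_all : UPP_stmt :=
  upp set_thm visw run_thm enb (cls set_thm (pw set_thm site) (cst set_thm) expl2 lev)

/-- Both bounds of the partition function. -/
theorem free_energy {d : ℕ} (hd : 1 ≤ d) {b B ε : ℝ} (hb : 0 < b) (hε : 0 < ε) :
    ∃ δ₀ : ℝ, 0 < δ₀ ∧ ∀ β γ : ℝ, b ≤ β → β ≤ B → β - δ₀ ≤ γ → γ < β →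
      ∃ n₀ : ℕ, ∀ n : ℕ, n₀ ≤ n →
        (2 * d) ^ n * Real.exp (-((1 + ε) * SS (β - γ) * n)) ≤ partitionFunction d β γ n ∧
        partitionFunction d β γ n ≤ (2 * d) ^ n * Real.exp (-((1 - ε) * SS (β - γ) * n)) := by
  rcases lt_or_ge B b with hBb | hbB
  · exact ⟨1, one_pos, fun β γ h1 h2 => absurd (h1.trans h2) (not_le.mpr hBb)⟩
  have hB : 0 < B := lt_of_lt_of_le hb hbB
  obtain ⟨δ₁, hδ₁, h1⟩ := low_all d hd B ε hB hε
  obtain ⟨δ₂, hδ₂, h2⟩ := upp_all d hd (b / 2) (min ε (1 / 2)) (by positivity) (by positivity)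
    ((min_le_right _ _).trans_lt (by norm_num))
  refine ⟨min (min δ₁ δ₂) (b / 2), by positivity, fun β γ hbβ hβB hγ hγβ => ?_⟩
  have e1 : min (min δ₁ δ₂) (b / 2) ≤ δ₁ := (min_le_left _ _).trans (min_le_left _ _)
  have e2 : min (min δ₁ δ₂) (b / 2) ≤ δ₂ := (min_le_left _ _).trans (min_le_right _ _)
  have e3 : min (min δ₁ δ₂) (b / 2) ≤ b / 2 := min_le_right _ _
  obtain ⟨n₁, hn₁⟩ := h1 β γ (by linarith) hγβ hβB (by linarith)
  obtain ⟨n₂, hn₂⟩ := h2 β γ (by linarith) hγβ (by linarith)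
  refine ⟨max n₁ n₂, fun n hn => ?_⟩
  rw [partition_eq]
  refine ⟨hn₁ n ((le_max_left _ _).trans hn), (hn₂ n ((le_max_right _ _).trans hn)).trans ?_⟩
  refine mul_le_mul_of_nonneg_left (Real.exp_le_exp.mpr ?_) (by positivity)
  have h3 : 0 ≤ SS (β - γ) * n := mul_nonneg (Real.sqrt_nonneg _) (Nat.cast_nonneg _)
  have h4 : min ε (1 / 2) ≤ ε := min_le_left _ _
  nlinarith

end Pool.Agent.DFE
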