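import Mathlib.Analysis.FunctionalSpaces.SobolevInequality
import Pool.Agent.Lib.DFE.Defs6

/-!
ISO: the isoperimetric inequality in `ℤ^d` (from the grid lines lemma of Mathlib).
-/

set_option autoImplicit false

namespace Pool.Agent.DFE

open Finset Pool.Agent.DCOL

namespace ISOAux

open Classical in
/-- The number of the boundary pairs at `x`. -/
noncomputable def nb {d : ℕ} (D : Finset (Site d)) (x : Site d) : ℕ :=
  ((bdr D).filter fun q => q.1 = x).card

theorem sum_nb {d : ℕ} (D : Finset (Site d)) : ∑ x ∈ D, nb D x = (bdr D).card := by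
  classical
  unfold nb
  refine (Finset.card_eq_sum_card_fiberwise (f := fun q : Site d × Step d => q.1) ?_).symm
  intro q hq
  unfold bdr at hq
  rw [Finset.mem_coe, Finset.mem_filter, Finset.mem_product] at hq
  exact hq.1.1

theorem nb_zero {d : ℕ} (D : Finset (Site d)) {x : Site d} (hx : x ∉ D) : nb D x = 0 := by
  classical
  unfold nb
  rw [Finset.card_eq_zero, Finset.filter_eq_empty_iff]
  intro q hq he
  unfold bdr at hq
  rw [Finset.mem_filter, Finset.mem_product] at hq
  rw [he] at hq
  exact hx hq.1.1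

/-- Each line through a point of `D` contains a boundary pair. -/
theorem line {d : ℕ} (D : Finset (Site d)) {x : Site d} (hx : x ∈ D) (i : Fin d) :
    ∃ t : ℤ, 1 ≤ nb D (Function.update x i t) := by
  classical
  set T : Finset ℤ := (D.filter fun y => ∀ j, j ≠ i → y j = x j).image (fun y => y i) with hT
  have hmem : ∀ t : ℤ, t ∈ T ↔ Function.update x i t ∈ D := by
    intro t
    rw [hT, Finset.mem_image]
    constructor
    · rintro ⟨y, hy, rfl⟩
      rw [Finset.mem_filter] at hy
      have h1 : Function.update x i (y i) = y := by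
        funext j
        by_cases hj : j = i
        · subst hj; rw [Function.update_self]
        · rw [Function.update_of_ne hj, hy.2 j hj]
      rw [h1]; exact hy.1
    · intro h
      refine ⟨Function.update x i t, ?_, Function.update_self i t x⟩
      rw [Finset.mem_filter]
      exact ⟨h, fun j hj => Function.update_of_ne hj t x⟩
  have hne : T.Nonempty := ⟨x i, by rw [hmem, Function.update_eq_self]; exact hx⟩
  refine ⟨T.max' hne, ?_⟩
  have h1 : Function.update x i (T.max' hne) ∈ D := (hmem _).mp (T.max'_mem hne)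
  have h2 : Function.update x i (T.max' hne) + vec (i, true) ∉ D := by
    intro h
    have h3 : Function.update x i (T.max' hne) + vec (i, true) =
        Function.update x i (T.max' hne + 1) := by
      funext j
      unfold vec
      rw [if_pos rfl, Pi.add_apply]
      by_cases hj : j = i
      · subst hj
        rw [Function.update_self, Function.update_self, Pi.single_eq_same]
      · rw [Function.update_of_ne hj, Function.update_of_ne hj, Pi.single_eq_of_ne hj, add_zero]
    rw [h3, ← hmem] at h
    have := T.le_max' _ h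
    omega
  unfold nb
  rw [Nat.one_le_iff_ne_zero, ← Nat.pos_iff_ne_zero, Finset.card_pos]
  refine ⟨(Function.update x i (T.max' hne), (i, true)), ?_⟩
  unfold bdr
  rw [Finset.mem_filter, Finset.mem_filter, Finset.mem_product]
  exact ⟨⟨⟨h1, Finset.mem_univ _⟩, h2⟩, rfl⟩

open MeasureTheory in
/-- The grid lines lemma for the number of boundary pairs. -/
theorem grid {d : ℕ} (hd : 2 ≤ d) (D : Finset (Site d)) {p : ℝ}
    (hp : Real.HolderConjugate (Fintype.card (Fin d)) p) :
    (D.card : ENNReal) ≤ ((bdr D).card : ENNReal) ^ p := by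
  classical
  set μ : Fin d → Measure ℤ := fun _ => Measure.count with hμ
  have hone : ∀ x : Fin d → ℤ, Measure.pi μ {x} = 1 := by
    intro x
    rw [Measure.pi_singleton]
    refine Finset.prod_eq_one fun i _ => ?_
    rw [hμ]
    exact Measure.count_singleton _
  have key := lintegral_prod_lintegral_pow_le (μ := μ) hp
    (f := fun x : Fin d → ℤ => ((nb D x : ℕ) : ENNReal)) (measurable_of_countable _)
  have hR : ∫⁻ x, ((nb D x : ℕ) : ENNReal) ∂(Measure.pi μ) = ((bdr D).card : ENNReal) := by
    rw [lintegral_countable']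
    rw [tsum_eq_sum (s := D) fun x hx => by rw [nb_zero D hx]; simp]
    rw [← sum_nb D, Nat.cast_sum]
    exact Finset.sum_congr rfl fun x _ => by rw [hone, mul_one]
  rw [hR] at key
  refine le_trans ?_ key
  rw [lintegral_countable']
  refine le_trans ?_ (ENNReal.sum_le_tsum D)
  have hcard : (D.card : ENNReal) = ∑ _x ∈ D, (1 : ENNReal) := by
    rw [Finset.sum_const, nsmul_eq_mul, mul_one]
  rw [hcard]
  refine Finset.sum_le_sum fun x hx => ?_
  rw [hone, mul_one]
  refine Finset.one_le_prod' fun i _ => ?_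
  have h1 : (1 : ENNReal) ≤ ∫⁻ t, ((nb D (Function.update x i t) : ℕ) : ENNReal) ∂(μ i) := by
    rw [hμ]
    simp only
    rw [lintegral_count]
    obtain ⟨t, ht⟩ := line D hx i
    refine le_trans ?_ (ENNReal.le_tsum t)
    exact_mod_cast ht
  have h2 : (0 : ℝ) ≤ 1 / ((Fintype.card (Fin d) : ℝ) - 1) := by
    rw [Fintype.card_fin]
    have : (2 : ℝ) ≤ d := by exact_mod_cast hd
    have : (0 : ℝ) ≤ (d : ℝ) - 1 := by linarith
    positivity
  calc (1 : ENNReal) = 1 ^ (1 / ((Fintype.card (Fin d) : ℝ) - 1)) := (ENNReal.one_rpow _).symm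
    _ ≤ _ := ENNReal.rpow_le_rpow h1 h2

end ISOAux

/-- **ISO.** -/
theorem iso : ISO_stmt := by
  intro d hd
  refine ⟨1, one_pos, fun D hD => ?_⟩
  rw [one_mul]
  rcases Nat.lt_or_ge d 2 with h1 | h1
  · have hd1 : d = 1 := by omega
    subst hd1
    obtain ⟨x, hx⟩ := hD
    obtain ⟨t, ht⟩ := ISOAux.line D hx 0
    have h2 : 1 ≤ (bdr D).card := by
      refine ht.trans ?_
      unfold ISOAux.nb
      exact Finset.card_filter_le _ _
    have h3 : (1 - 1 / ((1 : ℕ) : ℝ)) = 0 := by norm_num
    rw [h3, Real.rpow_zero]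
    exact_mod_cast h2
  · have hdr : (2 : ℝ) ≤ d := by exact_mod_cast h1
    have hc : (1 : ℝ) < (Fintype.card (Fin d) : ℝ) := by
      rw [Fintype.card_fin]; linarith
    have hp := Real.HolderConjugate.conjExponent hc
    have key := ISOAux.grid h1 D hp
    have hpe : Real.conjExponent (Fintype.card (Fin d) : ℝ) = d / (d - 1) := by
      rw [Fintype.card_fin]; rfl
    rw [hpe] at key
    have hp0 : (0 : ℝ) < d / (d - 1) := div_pos (by linarith) (by linarith)
    have h3 : (D.card : ℝ) ≤ ((bdr D).card : ℝ) ^ ((d : ℝ) / (d - 1)) := by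
      have h4 := ENNReal.toReal_mono
        (ENNReal.rpow_ne_top_of_nonneg hp0.le (ENNReal.natCast_ne_top _)) key
      rwa [← ENNReal.toReal_rpow, ENNReal.toReal_natCast, ENNReal.toReal_natCast] at h4
    have h5 : (1 - 1 / (d : ℝ)) * (d / (d - 1)) = 1 := by
      have : (d : ℝ) ≠ 0 := by linarith
      have : (d : ℝ) - 1 ≠ 0 := by linarith
      field_simp
    have h6 : 0 ≤ 1 - 1 / (d : ℝ) := by
      rw [sub_nonneg, div_le_one (by linarith)]; linarith
    calc (D.card : ℝ) ^ (1 - 1 / (d : ℝ)) ≤
        (((bdr D).card : ℝ) ^ ((d : ℝ) / (d - 1))) ^ (1 - 1 / (d : ℝ)) :=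
          Real.rpow_le_rpow (Nat.cast_nonneg _) h3 h6
      _ = _ := by
          rw [← Real.rpow_mul (Nat.cast_nonneg _), mul_comm, h5, Real.rpow_one]

end Pool.Agent.DFE
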