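import Pool.Agent.Lib.DFE.Fin1
import Pool.Agent.Lib.DFE.DROP
import Pool.Agent.Lib.DFE.TAIL
import Pool.Agent.Lib.DFE.VIST
import Pool.Agent.Lib.DFE.VLT
import Pool.Agent.Lib.DFE.ISO
import Pool.Agent.Lib.DFE.CMP
import Pool.Agent.Lib.DFE.COA

/-!
The final forms of the consequences.
-/

set_option autoImplicit false

namespace Pool.Agent.DFE

open Finset Pool.Agent.DCOL

namespace FinAux

variable {d n : ℕ}

theorem Z_pos (hd : 0 < d) (β γ : ℝ) : 0 < partitionFunction d β γ n := by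
  unfold partitionFunction
  have : Nonempty (Fin d) := ⟨⟨0, hd⟩⟩
  exact Finset.sum_pos (fun s _ => Real.exp_pos _) Finset.univ_nonempty

theorem prob_mono (hd : 0 < d) (β γ : ℝ) {A B : (Fin n → Step d) → Prop} (h : ∀ s, A s → B s) :
    prob d β γ n A ≤ prob d β γ n B := by
  classical
  unfold prob
  refine div_le_div_of_nonneg_right ?_ (Z_pos hd β γ).le
  refine Finset.sum_le_sum_of_subset_of_nonneg ?_ fun _ _ _ => (Real.exp_pos _).le
  intro s hs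
  rw [Finset.mem_filter] at hs ⊢
  exact ⟨hs.1, h s hs.2⟩

theorem prob_or (hd : 0 < d) (β γ : ℝ) (A B : (Fin n → Step d) → Prop) :
    prob d β γ n (fun s => A s ∨ B s) ≤ prob d β γ n A + prob d β γ n B := by
  unfold prob
  rw [← add_div]
  refine div_le_div_of_nonneg_right ?_ (Z_pos hd β γ).le
  rw [Finset.sum_filter, Finset.sum_filter, Finset.sum_filter, ← Finset.sum_add_distrib]
  refine Finset.sum_le_sum fun s _ => ?_
  have h0 := (Real.exp_pos (-energy β γ s)).le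
  by_cases hA : A s
  · rw [if_pos (Or.inl hA), if_pos hA]
    split_ifs <;> linarith
  · by_cases hB : B s
    · rw [if_pos (Or.inr hB), if_neg hA, if_pos hB]; linarith
    · rw [if_neg (fun h => h.elim hA hB), if_neg hA, if_neg hB]; linarith

theorem ncard_range (n : ℕ) (P : ℕ → Prop) [DecidablePred P] :
    {i : ℕ | i ≤ n ∧ P i}.ncard = ((Finset.range (n + 1)).filter P).card := by
  rw [← Set.ncard_coe_finset]
  congr 1
  ext i
  rw [Finset.mem_coe, Finset.mem_filter, Finset.mem_range, Nat.lt_succ_iff, Set.mem_ofPred_eq]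

/-- Two small exponentials. -/
theorem two_exp {c S : ℝ} (hc : 0 < c) (hS : 0 < S) : ∃ n₀ : ℕ, ∀ n : ℕ, n₀ ≤ n →
    Real.exp (-(c * S * n)) + Real.exp (-(c * S * n)) ≤ Real.exp (-(c / 2 * S * n)) := by
  have hcS : 0 < c * S := mul_pos hc hS
  refine ⟨⌈2 / (c * S)⌉₊, fun n hn => ?_⟩
  have h1 : 2 / (c * S) ≤ n := (Nat.le_ceil _).trans (by exact_mod_cast hn)
  rw [div_le_iff₀ hcS] at h1
  have h2 : Real.exp (-(c * S * n)) = Real.exp (-(c / 2 * S * n)) * Real.exp (-(c / 2 * S * n)) := by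
    rw [← Real.exp_add]; congr 1; ring
  have h3 : Real.exp (-(c / 2 * S * n)) ≤ 1 / 2 := by
    have h4 : Real.exp (-(c / 2 * S * n)) ≤ Real.exp (-1) := Real.exp_le_exp.mpr (by linarith)
    have h5 : Real.exp (-1) ≤ 1 / 2 := by
      rw [Real.exp_neg, inv_eq_one_div]
      refine one_div_le_one_div_of_le (by norm_num) ?_
      have := Real.add_one_le_exp (1 : ℝ)
      linarith
    linarith
  have h6 := Real.exp_pos (-(c / 2 * S * n))
  rw [h2]
  nlinarith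

end FinAux

open FinAux

/-- The local times and the energies. -/
theorem local_times (hT : TAIL_stmt) (hB : BADT_stmt) {d : ℕ} (hd : 1 ≤ d) {β ε : ℝ}
    (hβ : 0 < β) (hε : 0 < ε) :
    ∃ δ₀ c : ℝ, 0 < δ₀ ∧ 0 < c ∧ ∀ γ S a : ℝ, β - δ₀ ≤ γ → γ < β →
      S = Real.sqrt ((β - γ) * Real.log (1 / (β - γ))) → a = S / (2 * (β - γ)) →
      ∃ n₀ : ℕ, ∀ n : ℕ, n₀ ≤ n →
        prob d β γ n (fun s => ε * n ≤
          ({i : ℕ | i ≤ n ∧ ε * a < |(localTime s (pos s i) : ℝ) - a|}.ncard : ℝ)) ≤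
            Real.exp (-(c * S * n)) ∧
        prob d β γ n (fun s => ε * (a * n) ≤ |∑' x, (localTime s x : ℝ) ^ 2 - a * n|) ≤
            Real.exp (-(c * S * n)) ∧
        prob d β γ n (fun s => ε * (S * n) ≤ |energy β γ s - S * n / 2|) ≤
            Real.exp (-(c * S * n)) := by
  classical
  obtain ⟨δ₁, c₁, hδ₁, hc₁, h1⟩ := hT d hd β (ε / 2) hβ (by positivity)
  obtain ⟨δ₂, c₂, hδ₂, hc₂, h2⟩ := hB d hd β ε hβ hε
  obtain ⟨δ₃, c₃, hδ₃, hc₃, h3⟩ := hT d hd β ε hβ hε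
  refine ⟨min δ₁ (min δ₂ δ₃), min c₁ (min c₂ c₃), by positivity, by positivity,
    fun γ S a hγ hγβ hS ha => ?_⟩
  have hS' : S = SS (β - γ) := hS
  have ha' : a = aa (β - γ) := by rw [ha, hS']; rfl
  have e1 : min δ₁ (min δ₂ δ₃) ≤ δ₁ := min_le_left _ _
  have e2 : min δ₁ (min δ₂ δ₃) ≤ δ₂ := (min_le_right _ _).trans (min_le_left _ _)
  have e3 : min δ₁ (min δ₂ δ₃) ≤ δ₃ := (min_le_right _ _).trans (min_le_right _ _)
  have f1 : min c₁ (min c₂ c₃) ≤ c₁ := min_le_left _ _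
  have f2 : min c₁ (min c₂ c₃) ≤ c₂ := (min_le_right _ _).trans (min_le_left _ _)
  have f3 : min c₁ (min c₂ c₃) ≤ c₃ := (min_le_right _ _).trans (min_le_right _ _)
  obtain ⟨n₁, hn₁⟩ := h1 γ hγβ (by linarith)
  obtain ⟨n₂, hn₂⟩ := h2 γ hγβ (by linarith)
  obtain ⟨n₃, hn₃⟩ := h3 γ hγβ (by linarith)
  have hS0 : 0 ≤ S := by rw [hS]; exact Real.sqrt_nonneg _
  have hδ : 0 < β - γ := by linarith
  refine ⟨max n₁ (max n₂ n₃), fun n hn => ?_⟩
  have g1 : n₁ ≤ n := (le_max_left _ _).trans hn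
  have g2 : n₂ ≤ n := (le_max_left _ _).trans ((le_max_right _ _).trans hn)
  have g3 : n₃ ≤ n := (le_max_right _ _).trans ((le_max_right _ _).trans hn)
  have hSn : 0 ≤ S * n := mul_nonneg hS0 (Nat.cast_nonneg _)
  have hexp : ∀ c', min c₁ (min c₂ c₃) ≤ c' →
      Real.exp (-(c' * S * n)) ≤ Real.exp (-(min c₁ (min c₂ c₃) * S * n)) := by
    intro c' hc'
    refine Real.exp_le_exp.mpr (neg_le_neg ?_)
    rw [mul_assoc, mul_assoc]
    exact mul_le_mul_of_nonneg_right hc' hSn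
  have k1 := hn₁ n g1
  have k2 := hn₂ n g2
  have k3 := hn₃ n g3
  rw [← hS'] at k1 k3
  rw [← hS', ← ha'] at k2
  refine ⟨?_, ?_, ?_⟩
  · refine le_trans (prob_mono hd β γ fun s hs => ?_) (k2.trans (hexp c₂ f2))
    rw [ncard_range] at hs
    exact hs
  · refine le_trans (prob_mono hd β γ fun s hs => ?_) (k1.1.trans (hexp c₁ f1))
    have h4 : (β - γ) * |∑' x, (localTime s x : ℝ) ^ 2 - a * n| =
        |(β - γ) * ∑' x, (localTime s x : ℝ) ^ 2 - S * n / 2| := by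
      rw [← abs_of_pos hδ, ← abs_mul, abs_of_pos hδ]
      congr 1
      rw [ha]
      field_simp
    rw [← h4]
    have h5 := mul_le_mul_of_nonneg_left hs hδ.le
    refine le_trans (le_of_eq ?_) h5
    rw [ha]
    field_simp
  · refine le_trans (prob_mono hd β γ fun s hs => ?_) (k3.2.trans (hexp c₃ f3))
    rw [mul_assoc]
    exact hs

/-- The number of the visited sites and the end-to-end distance. -/
theorem size (hV : VIST_stmt) (hL : VLT_stmt) {d : ℕ} (hd : 1 ≤ d) {β : ℝ} (hβ : 0 < β) :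
    ∃ C : ℝ, 0 < C ∧ ∀ ε : ℝ, 0 < ε → ∃ δ₀ c : ℝ, 0 < δ₀ ∧ 0 < c ∧
      ∀ γ S a : ℝ, β - δ₀ ≤ γ → γ < β →
      S = Real.sqrt ((β - γ) * Real.log (1 / (β - γ))) → a = S / (2 * (β - γ)) →
      ∃ n₀ : ℕ, ∀ n : ℕ, n₀ ≤ n →
        prob d β γ n (fun s => ((visited s).card : ℝ) ≤ (1 - ε) * (n / a)) ≤
          Real.exp (-(c * S * n)) ∧
        prob d β γ n (fun s => C * (S * n) ≤ ((visited s).card : ℝ)) ≤ Real.exp (-(c * S * n)) ∧
        meanSquare d β γ n ≤ (C * (S * n)) ^ 2 := by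
  obtain ⟨C, δ₁, hC, hδ₁, h1⟩ := hV d hd β hβ
  refine ⟨C, hC, fun ε hε => ?_⟩
  obtain ⟨δ₂, c₂, hδ₂, hc₂, h2⟩ := hL d hd β (2 * ε) hβ (by positivity)
  refine ⟨min δ₁ δ₂, min 1 c₂, by positivity, by positivity, fun γ S a hγ hγβ hS ha => ?_⟩
  have hS' : S = SS (β - γ) := hS
  have e1 : min δ₁ δ₂ ≤ δ₁ := min_le_left _ _
  have e2 : min δ₁ δ₂ ≤ δ₂ := min_le_right _ _
  obtain ⟨n₁, hn₁⟩ := h1 γ hγβ (by linarith)
  obtain ⟨n₂, hn₂⟩ := h2 γ hγβ (by linarith)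
  have hS0 : 0 ≤ S := by rw [hS]; exact Real.sqrt_nonneg _
  have hδ : 0 < β - γ := by linarith
  refine ⟨max n₁ n₂, fun n hn => ?_⟩
  have hSn : 0 ≤ S * n := mul_nonneg hS0 (Nat.cast_nonneg _)
  obtain ⟨k1, k1'⟩ := hn₁ n ((le_max_left _ _).trans hn)
  have k2 := hn₂ n ((le_max_right _ _).trans hn)
  rw [← hS'] at k1 k1' k2
  have hexp : ∀ c', min 1 c₂ ≤ c' →
      Real.exp (-(c' * (S * n))) ≤ Real.exp (-(min 1 c₂ * S * n)) := by
    intro c' hc'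
    refine Real.exp_le_exp.mpr (neg_le_neg ?_)
    rw [mul_assoc]
    exact mul_le_mul_of_nonneg_right hc' hSn
  refine ⟨?_, ?_, ?_⟩
  · refine le_trans (prob_mono hd β γ fun s hs => ?_) (k2.trans ?_)
    · refine hs.trans (le_of_eq ?_)
      rw [ha, div_div_eq_mul_div]
      ring
    · rw [mul_assoc]; exact hexp c₂ (min_le_right _ _)
  · refine le_trans (prob_mono hd β γ fun s hs => ?_) (k1.trans ?_)
    · rw [mul_assoc]; exact hs
    · have := hexp 1 (min_le_left _ _)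
      rwa [one_mul] at this
  · refine k1'.trans (le_of_eq ?_)
    ring

/-- The droplets. -/
theorem droplets (hD : DROP_stmt) {d : ℕ} (hd : 1 ≤ d) {β ε : ℝ} (hβ : 0 < β) (hε : 0 < ε) :
    ∃ δ₀ c : ℝ, 0 < δ₀ ∧ 0 < c ∧ ∀ γ S a : ℝ, β - δ₀ ≤ γ → γ < β →
      S = Real.sqrt ((β - γ) * Real.log (1 / (β - γ))) → a = S / (2 * (β - γ)) →
      ∃ n₀ : ℕ, ∀ n : ℕ, n₀ ≤ n →
        prob d β γ n (fun s => ¬ ∃ u : ℕ, a / 3 ≤ u ∧ (u : ℝ) ≤ 2 * a / 3 ∧
          ({i : ℕ | i ≤ n ∧ ¬ (u ≤ localTime s (pos s i) ∧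
            (1 / (ε * Real.sqrt (β - γ))) ^ d ≤
              ({y : Site d | Relation.ReflTransGen (fun p q : Site d => u ≤ localTime s q ∧
                ∃ t : Step d, q = p + vec t) (pos s i) y}.ncard : ℝ))}.ncard : ℝ) ≤ ε * n) ≤
            Real.exp (-(c * S * n)) := by
  classical
  obtain ⟨δ₁, c₁, hδ₁, hc₁, h1⟩ := hD d hd β ε hβ hε
  refine ⟨δ₁, c₁, hδ₁, hc₁, fun γ S a hγ hγβ hS ha => ?_⟩
  have hS' : S = SS (β - γ) := hS
  have ha' : a = aa (β - γ) := by rw [ha, hS']; rfl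
  obtain ⟨n₁, hn₁⟩ := h1 γ hγβ (by linarith)
  refine ⟨n₁, fun n hn => ?_⟩
  have k1 := hn₁ n hn
  rw [← hS', ← ha'] at k1
  refine le_trans (prob_mono hd β γ fun s hs => ?_) k1
  rintro ⟨u, h2, h3, h4⟩
  apply hs
  refine ⟨u, h2, h3, ?_⟩
  rw [ncard_range]
  exact h4

end Pool.Agent.DFE
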