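import Pool.Agent.Lib.DFE.Defs5
import Pool.Agent.Lib.DFE.PW

/-!
# PWG: the total weight of one component, general gain
-/

set_option autoImplicit false

namespace Pool.Agent.DFE

open Finset Pool.Agent.DCOL

namespace PWGAux

theorem gn_le {ρ ε δ : ℝ} (hρ : 0 < ρ) (hρ1 : ρ < 1) (hε : 0 < ε) (k : ℕ) :
    gn ρ ε δ k ≤ 2 * SS δ * k := by
  have hS := PWAux.SS_nonneg δ
  have hk : (0 : ℝ) ≤ k := Nat.cast_nonneg _
  have hSk : 0 ≤ SS δ * k := mul_nonneg hS hk
  have h1 : (1 - ε) * SS δ * k ≤ SS δ * k := by
    have : (1 - ε) * (SS δ * k) ≤ 1 * (SS δ * k) :=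
      mul_le_mul_of_nonneg_right (by linarith) hSk
    linarith
  have h2 : ρ ^ 2 / 16 * SS δ * k ≤ SS δ * k := by
    have h3 : ρ ^ 2 ≤ 1 := by nlinarith
    have : ρ ^ 2 / 16 * (SS δ * k) ≤ 1 * (SS δ * k) :=
      mul_le_mul_of_nonneg_right (by linarith) hSk
    linarith
  unfold gn
  split_ifs
  · linarith
  · linarith

end PWGAux

open PWAux PWGAux

open Classical in
/-- PWG. -/
theorem pwg (hSET : SET_stmt) (hSITE : SITEG_stmt) : PWG_stmt := by
  intro d hd i₀ c ρ ε κ hc hρ hρ1 hε hε1 hκ hκ1
  set κ₀ : ℝ := κ ^ (2 * d + 1) with hκ₀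
  have hκ₀0 : 0 < κ₀ := pow_pos hκ _
  have hκ₀1 : κ₀ ≤ 1 := pow_le_one₀ hκ.le hκ1
  set Λ : ℝ := Real.log (2 / κ₀) with hΛ
  have h2κ : 1 ≤ 2 / κ₀ := by
    rw [le_div_iff₀ hκ₀0]
    linarith
  have hΛ0 : 0 ≤ Λ := Real.log_nonneg h2κ
  have hexpΛ : 2 * Real.exp (-Λ) = κ₀ := by
    rw [Real.exp_neg, hΛ, Real.exp_log (by positivity)]
    field_simp
  obtain ⟨T₀, δs, hT₀, hδs, hs⟩ := hSITE d hd ρ ε κ₀ hρ hρ1 hε hε1 hκ₀0
  obtain ⟨R, hR⟩ := exists_nat_ge ((1 + Λ) / c)
  have hR1 : 1 + Λ ≤ c * R := by
    rw [div_le_iff₀ hc] at hR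
    linarith
  have hRpos : 0 < R := by
    rcases Nat.eq_zero_or_pos R with h | h
    · rw [h] at hR1
      simp at hR1
      linarith
    · exact h
  have hRr : (1 : ℝ) ≤ R := by exact_mod_cast hRpos
  refine ⟨T₀, R, Λ, hT₀, hRpos, hΛ0, fun T₁ hT₁ => ?_⟩
  have hlog2 : 0 < Real.log 2 := Real.log_pos (by norm_num)
  have hden : (0 : ℝ) < (T₁ : ℝ) + R := by
    have : (0 : ℝ) ≤ T₁ := Nat.cast_nonneg _
    linarith
  obtain ⟨δa, hδa, ha⟩ := SS_small (τ := min (1 / 2) (Real.log 2 / (T₁ + R) / 2))
    (lt_min (by norm_num) (half_pos (div_pos hlog2 hden)))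
  refine ⟨min δs δa, lt_min hδs hδa, fun T δ hT0 hT1 hδ hδ1 w p hp => ?_⟩
  have hT2 : 2 ≤ T := hT₀.trans hT0
  have hset := hSET d T w
  have hmem : ∀ q, q ∈ exF T w ↔ Ex T (locN w) q := fun q => (hset q hd hT2).1
  obtain ⟨-, hclu⟩ := hset p hd hT2
  obtain ⟨hpK, hKE, -, hcl, hbig, -, -, hnb, -⟩ := hclu hp
  set K := clu T w p with hK
  set η : ℝ := 2 * SS δ with hη
  set g : ℕ → ℝ := gn ρ ε δ with hgdef
  have hη0 : 0 ≤ η := mul_nonneg (by norm_num) (SS_nonneg _)
  have hgle : ∀ k : ℕ, g k ≤ η * k := fun k => gn_le hρ hρ1 hε k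
  have hSS := ha δ hδ (hδ1.trans (min_le_right _ _))
  have hη1 : η ≤ 1 := by
    have := hSS.trans (min_le_left _ _)
    rw [hη]
    linarith
  have hη2 : η * (T₁ + R) ≤ Real.log 2 := by
    have h1 := hSS.trans (min_le_right _ _)
    have h2 : η ≤ Real.log 2 / (T₁ + R) := by
      rw [hη]
      linarith
    rwa [le_div_iff₀ hden] at h2
  have hsite := hs δ hδ (hδ1.trans (min_le_left _ _))
  -- membership of neighbours
  have hEx : ∀ x ∈ K, ∀ s : Step d, (Ex T (locN w) (x + vec s) ↔ x + vec s ∈ K) := by
    intro x hx s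
    constructor
    · intro h
      exact hcl x hx s ((hmem _).mpr h)
    · intro h
      exact (hmem _).mp (hKE h)
  -- the two halves of the gradient factor
  set N : Site d → ℝ := fun x => ∏ s : Step d, if x + vec s ∈ K then
    Real.exp (-(c * ((locN w (x + vec s) : ℝ) - locN w x) ^ 2)) else 1 with hN
  have hNf0 : ∀ x, ∀ s : Step d, (0 : ℝ) ≤ (if x + vec s ∈ K then
      Real.exp (-(c * ((locN w (x + vec s) : ℝ) - locN w x) ^ 2)) else 1) := by
    intro x s
    split_ifs
    · exact (Real.exp_pos _).le
    · norm_num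
  have hNf1 : ∀ x, ∀ s : Step d, (if x + vec s ∈ K then
      Real.exp (-(c * ((locN w (x + vec s) : ℝ) - locN w x) ^ 2)) else 1) ≤ 1 := by
    intro x s
    split_ifs
    · rw [Real.exp_le_one_iff]
      have : 0 ≤ c * ((locN w (x + vec s) : ℝ) - locN w x) ^ 2 := by positivity
      linarith
    · exact le_rfl
  have hN0 : ∀ x, 0 ≤ N x := fun x => prod_nonneg fun s _ => hNf0 x s
  have hN1 : ∀ x, N x ≤ 1 := fun x => prod_le_one (fun s _ => hNf0 x s) (fun s _ => hNf1 x s)
  have hgrad : ∀ x ∈ K, (∏ s : Step d, if Ex T (locN w) (x + vec s) then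
      Real.exp (-(2 * c * ((locN w (x + vec s) : ℝ) - locN w x) ^ 2)) else 1) = N x * N x := by
    intro x hx
    rw [hN]
    simp only
    rw [← prod_mul_distrib]
    apply prod_congr rfl
    intro s _
    rw [if_congr (hEx x hx s) rfl rfl]
    split_ifs
    · rw [← Real.exp_add]
      congr 1
      ring
    · norm_num
  set bg : Site d → ℝ := fun x => if T ≤ locN w x then
    Real.exp (g (locN w x) - δ * (locN w x : ℝ) ^ 2 -
      (if locN w x < T + R ∧ locN w (x + vec (i₀, true)) < T then Λ else 0)) else 1 with hbg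
  set qf : Site d → ℝ := fun x => if T ≤ locN w x ∧ T ≤ locN w (x + vec (i₀, true)) then
    Qf d (locN w x - if x = endp w then 1 else 0) else 1 with hqf
  have hom : ∀ x ∈ K, omg T R i₀ g δ Λ c w x = bg x * (N x * N x) := by
    intro x hx
    unfold omg
    rw [← hgrad x hx]
  -- one site
  have hbg0 : ∀ x, 0 ≤ bg x := by
    intro x
    simp only [hbg]
    split_ifs <;> positivity
  have hone : ∀ x ∈ K, qf x * bg x * N x ≤ if T ≤ locN w x then κ₀ else 1 := by
    intro x hx
    by_cases hbx : T ≤ locN w x
    · rw [if_pos hbx]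
      by_cases hbe : T ≤ locN w (x + vec (i₀, true))
      · -- both big
        have e1 : qf x = Qf d (locN w x - if x = endp w then 1 else 0) := by
          simp only [hqf]
          rw [if_pos ⟨hbx, hbe⟩]
        have e2 : bg x = Real.exp (g (locN w x) - δ * (locN w x : ℝ) ^ 2) := by
          simp only [hbg]
          rw [if_pos hbx, if_neg (by omega), sub_zero]
        rw [e1, e2]
        have h1 := hsite (locN w x) (locN w x - if x = endp w then 1 else 0) (hT0.trans hbx)
          (by split_ifs <;> omega)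
        have h2 : 0 ≤ Qf d (locN w x - if x = endp w then 1 else 0) *
            Real.exp (g (locN w x) - δ * (locN w x : ℝ) ^ 2) := by
          exact mul_nonneg (Qf_nonneg hd _) (Real.exp_pos _).le
        calc _ ≤ Qf d (locN w x - if x = endp w then 1 else 0) *
            Real.exp (g (locN w x) - δ * (locN w x : ℝ) ^ 2) * 1 :=
              mul_le_mul_of_nonneg_left (hN1 x) h2
          _ ≤ κ₀ := by rw [mul_one]; exact h1
      · -- the neighbour is small
        have e1 : qf x = 1 := by
          simp only [hqf]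
          rw [if_neg (fun h => hbe h.2)]
        rw [e1, one_mul]
        push Not at hbe
        have hl0 : (0 : ℝ) ≤ (locN w x : ℝ) := Nat.cast_nonneg _
        by_cases hsoft : locN w x < T + R
        · have e2 : bg x = Real.exp (g (locN w x) - δ * (locN w x : ℝ) ^ 2 - Λ) := by
            simp only [hbg]
            rw [if_pos hbx, if_pos ⟨hsoft, hbe⟩]
          have h1 : bg x ≤ κ₀ := by
            rw [e2, ← hexpΛ]
            have h2 : (2 : ℝ) = Real.exp (Real.log 2) := (Real.exp_log (by norm_num)).symm
            rw [h2, ← Real.exp_add, Real.exp_le_exp]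
            have h3 : (locN w x : ℝ) ≤ T₁ + R := by
              have : locN w x ≤ T₁ + R := by omega
              exact_mod_cast this
            have h4 : η * locN w x ≤ η * (T₁ + R) := mul_le_mul_of_nonneg_left h3 hη0
            have hg1 := hgle (locN w x)
            have h5 : 0 ≤ δ * (locN w x : ℝ) ^ 2 := by positivity
            linarith
          calc bg x * N x ≤ bg x * 1 := mul_le_mul_of_nonneg_left (hN1 x) (hbg0 x)
            _ ≤ κ₀ := by rw [mul_one]; exact h1
        · have e2 : bg x = Real.exp (g (locN w x) - δ * (locN w x : ℝ) ^ 2) := by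
            simp only [hbg]
            rw [if_pos hbx, if_neg (fun h => hsoft h.1), sub_zero]
          have hxe : x + vec (i₀, true) ∈ K := hbig x hx hbx _
          have hNle : N x ≤ Real.exp (-(c * ((locN w (x + vec (i₀, true)) : ℝ) - locN w x) ^ 2)) := by
            have h1 : N x ≤ (if x + vec (i₀, true) ∈ K then
                Real.exp (-(c * ((locN w (x + vec (i₀, true)) : ℝ) - locN w x) ^ 2)) else 1) := by
              rw [hN]
              simp only
              rw [← mul_prod_erase univ _ (mem_univ (i₀, true))]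
              calc _ ≤ (if x + vec (i₀, true) ∈ K then
                Real.exp (-(c * ((locN w (x + vec (i₀, true)) : ℝ) - locN w x) ^ 2)) else 1) * 1 := by
                    apply mul_le_mul_of_nonneg_left _ (hNf0 x _)
                    exact prod_le_one (fun s _ => hNf0 x s) (fun s _ => hNf1 x s)
                _ = _ := mul_one _
            rwa [if_pos hxe] at h1
          rw [e2]
          have htt : (R : ℝ) ≤ (locN w x : ℝ) - T := by
            have : T + R ≤ locN w x := by omega
            have h3 : ((T + R : ℕ) : ℝ) ≤ (locN w x : ℝ) := by exact_mod_cast this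
            push_cast at h3
            linarith
          set t : ℝ := (locN w x : ℝ) - T with ht
          have hg : t ^ 2 ≤ ((locN w (x + vec (i₀, true)) : ℝ) - locN w x) ^ 2 := by
            have h3 : (locN w (x + vec (i₀, true)) : ℝ) ≤ T := by exact_mod_cast hbe.le
            have h4 : t ≤ (locN w x : ℝ) - locN w (x + vec (i₀, true)) := by linarith
            have h5 : 0 ≤ t := by linarith
            have h6 : ((locN w (x + vec (i₀, true)) : ℝ) - locN w x) ^ 2
                = ((locN w x : ℝ) - locN w (x + vec (i₀, true))) ^ 2 := by ring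
            rw [h6]
            exact pow_le_pow_left₀ h5 h4 2
          calc Real.exp (g (locN w x) - δ * (locN w x : ℝ) ^ 2) * N x
              ≤ Real.exp (g (locN w x) - δ * (locN w x : ℝ) ^ 2) *
                Real.exp (-(c * ((locN w (x + vec (i₀, true)) : ℝ) - locN w x) ^ 2)) :=
                mul_le_mul_of_nonneg_left hNle (Real.exp_pos _).le
            _ ≤ κ₀ := by
                rw [← hexpΛ]
                have h2 : (2 : ℝ) = Real.exp (Real.log 2) := (Real.exp_log (by norm_num)).symm
                rw [h2, ← Real.exp_add, ← Real.exp_add, Real.exp_le_exp]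
                have h3 : (T : ℝ) ≤ T₁ + R := by
                  have : T ≤ T₁ + R := by omega
                  exact_mod_cast this
                have h4 : η * T ≤ η * (T₁ + R) := mul_le_mul_of_nonneg_left h3 hη0
                have hg1 := hgle (locN w x)
                have h5 : 0 ≤ δ * (locN w x : ℝ) ^ 2 := by positivity
                have h6 : η * locN w x = η * T + η * t := by rw [ht]; ring
                have ht0 : 0 ≤ t := by linarith
                have h7 : η * t ≤ t := by nlinarith
                have h8 : c * t ^ 2 ≤ c * ((locN w (x + vec (i₀, true)) : ℝ) - locN w x) ^ 2 :=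
                  mul_le_mul_of_nonneg_left hg hc.le
                have h9 : t + Λ ≤ c * t ^ 2 := by
                  have h10 : 1 + Λ ≤ c * t := hR1.trans (mul_le_mul_of_nonneg_left htt hc.le)
                  have h11 : 1 ≤ t := hRr.trans htt
                  nlinarith
                linarith
    · rw [if_neg hbx]
      have e1 : qf x = 1 := by
        simp only [hqf]
        rw [if_neg (fun h => hbx h.1)]
      have e2 : bg x = 1 := by
        simp only [hbg]
        rw [if_neg hbx]
      rw [e1, e2, one_mul, one_mul]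
      exact hN1 x
  have hqf0 : ∀ x, 0 ≤ qf x := by
    intro x
    simp only [hqf]
    split_ifs
    all_goals first | exact Qf_nonneg hd _ | exact zero_le_one
  have hcard := card_le K (fun x => T ≤ locN w x) hnb
  calc (∏ x ∈ K.filter (fun x => T ≤ locN w x ∧ T ≤ locN w (x + vec (i₀, true))),
        Qf d (locN w x - if x = endp w then 1 else 0)) *
        ∏ x ∈ K, omg T R i₀ g δ Λ c w x
      = ∏ x ∈ K, (qf x * bg x * N x) * N x := by
        rw [prod_filter, ← prod_mul_distrib]
        apply prod_congr rfl
        intro x hx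
        rw [hom x hx]
        simp only [hqf]
        ring
    _ = (∏ x ∈ K, qf x * bg x * N x) * ∏ x ∈ K, N x := prod_mul_distrib
    _ ≤ κ ^ K.card * ∏ x ∈ K, N x := by
        apply mul_le_mul_of_nonneg_right _ (prod_nonneg fun x _ => hN0 x)
        calc ∏ x ∈ K, qf x * bg x * N x ≤ ∏ x ∈ K, (if T ≤ locN w x then κ₀ else 1) := by
              apply prod_le_prod
              · intro x _
                exact mul_nonneg (mul_nonneg (hqf0 x) (hbg0 x)) (hN0 x)
              · exact hone
          _ = κ₀ ^ (K.filter (fun x => T ≤ locN w x)).card := by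
              rw [← prod_filter, prod_const]
          _ = κ ^ ((2 * d + 1) * (K.filter (fun x => T ≤ locN w x)).card) := by
              rw [hκ₀, ← pow_mul]
          _ ≤ κ ^ K.card := pow_le_pow_of_le_one hκ.le hκ1 hcard

end Pool.Agent.DFE
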