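import Pool.Agent.Lib.DFE.Defs5

/-!
# The weight of one big site, with the extra gain outside the window
-/

set_option autoImplicit false

namespace Pool.Agent.DFE

open Finset Pool.Agent.DCOL

namespace SITEGAux

theorem bad_ineq {ρ y : ℝ} (hρ : 0 < ρ) (hρ1 : ρ < 1) (hz : ρ ^ 2 ≤ (1 - y) ^ 2) :
    3 * ρ ^ 2 / 16 ≤ (1 - y) ^ 2 / 4 - ρ ^ 2 * y / 32 := by
  have hy2 : y ≤ 3 / 2 + (1 - y) ^ 2 / 2 := by
    have h := sq_nonneg (y - 2)
    have e : 3 / 2 + (1 - y) ^ 2 / 2 - y = (y - 2) ^ 2 / 2 := by ring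
    linarith
  have h11 : ρ ^ 2 * y ≤ ρ ^ 2 * (3 / 2 + (1 - y) ^ 2 / 2) :=
    mul_le_mul_of_nonneg_left hy2 (sq_nonneg _)
  have h1 : ρ ^ 2 ≤ 1 := pow_le_one₀ hρ.le hρ1.le
  have h12 : ρ ^ 2 * (1 - y) ^ 2 ≤ 1 * (1 - y) ^ 2 :=
    mul_le_mul_of_nonneg_right h1 (sq_nonneg _)
  have h13 : ρ ^ 2 * (3 / 2 + (1 - y) ^ 2 / 2) = 3 / 2 * ρ ^ 2 + ρ ^ 2 * (1 - y) ^ 2 / 2 := by ring
  linarith

theorem good_ineq {ε y : ℝ} (hε : 0 < ε) (hε1 : ε < 1) :
    ε / 4 ≤ (1 - y) ^ 2 / 4 + ε * y / 2 := by
  have h := sq_nonneg (1 - y - ε)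
  have e : (1 - y) ^ 2 / 4 + ε * y / 2 = (1 - y - ε) ^ 2 / 4 + ε / 2 - ε ^ 2 / 4 := by ring
  have h2 : ε ^ 2 ≤ ε := by
    have := mul_le_mul_of_nonneg_left hε1.le hε.le
    rw [mul_one] at this
    rw [sq]
    exact this
  linarith

end SITEGAux

open SITEGAux in
theorem siteg : SITEG_stmt := by
  classical
  intro d hd ρ ε κ hρ hρ1 hε hε1 hκ
  have hd1 : (1 : ℝ) ≤ d := by exact_mod_cast hd
  have hd0 : (0 : ℝ) < d := by linarith
  set μ : ℝ := min (ε / 4) (3 * ρ ^ 2 / 16) with hμdef
  have hμ : 0 < μ := lt_min (by positivity) (by positivity)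
  have hμε : μ ≤ ε / 4 := min_le_left _ _
  have hμρ : μ ≤ 3 * ρ ^ 2 / 16 := min_le_right _ _
  set M : ℝ := 1 / 2 * Real.log d + 1 / 4 * Real.log (1 / (2 * μ)) - Real.log κ with hM
  refine ⟨max 2 ⌈(d : ℝ) * Real.exp 4 / κ ^ 2⌉₊, Real.exp (-(max 1 (2 * M / μ))), le_max_left _ _,
    Real.exp_pos _, fun δ hδ hδ1 k o hTk hko => ?_⟩
  have hk2 : 2 ≤ k := (le_max_left _ _).trans hTk
  have hkT : (d : ℝ) * Real.exp 4 / κ ^ 2 ≤ k :=
    (Nat.le_ceil _).trans (by exact_mod_cast (le_max_right _ _).trans hTk)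
  have hk0 : (0 : ℝ) < k := by
    have : 0 < k := by omega
    exact_mod_cast this
  -- the scale
  set L : ℝ := Real.log (1 / δ) with hL
  have hL1 : max 1 (2 * M / μ) ≤ L := by
    rw [hL, Real.log_div one_ne_zero hδ.ne', Real.log_one, zero_sub, le_neg]
    have := Real.log_le_log hδ hδ1
    rwa [Real.log_exp] at this
  have hL2 : 1 ≤ L := (le_max_left _ _).trans hL1
  have hL3 : 2 * M / μ ≤ L := (le_max_right _ _).trans hL1
  have hL0 : 0 < L := by linarith
  have hS : 0 < SS δ := Real.sqrt_pos.mpr (mul_pos hδ hL0)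
  have hSsq : SS δ ^ 2 = δ * L := Real.sq_sqrt (mul_pos hδ hL0).le
  have ha : 0 < aa δ := by unfold aa; positivity
  -- the factor `Qf`
  have hQ : Qf d o ≤ Real.exp (1 / 2 * Real.log (d / k)) := by
    have ho : o ≠ 0 := by omega
    unfold Qf
    rw [if_neg ho]
    refine (min_le_right _ _).trans ?_
    have h1 : Real.sqrt ((d : ℝ) / (o + 1)) ≤ Real.sqrt (d / k) := by
      refine Real.sqrt_le_sqrt ?_
      refine div_le_div_of_nonneg_left hd0.le hk0 ?_
      exact_mod_cast hko
    refine h1.trans (le_of_eq ?_)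
    rw [Real.sqrt_eq_rpow, Real.rpow_def_of_pos (by positivity), mul_comm]
  -- the gain
  have hgn : gn ρ ε δ k ≤ (1 - ε) * SS δ * k +
      (if Bad ρ δ k then ρ ^ 2 / 16 * SS δ * k else 0) := le_rfl
  have key : 1 / 2 * Real.log (d / k) + (gn ρ ε δ k - δ * (k : ℝ) ^ 2) ≤ Real.log κ := by
    rcases le_or_gt (SS δ * k) 1 with hSk | hSk
    · have h0 : 0 < SS δ * k := by positivity
      have h1 : gn ρ ε δ k - δ * (k : ℝ) ^ 2 ≤ 2 := by
        have h2 : 0 ≤ δ * (k : ℝ) ^ 2 := by positivity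
        have h3 : (1 - ε) * SS δ * k ≤ 1 := by
          rw [mul_assoc]
          have h3' : (1 - ε) * (SS δ * k) ≤ 1 * (SS δ * k) :=
            mul_le_mul_of_nonneg_right (by linarith) h0.le
          linarith
        have h4 : (if Bad ρ δ k then ρ ^ 2 / 16 * SS δ * k else 0) ≤ (1 : ℝ) := by
          split_ifs
          · have h5 : ρ ^ 2 / 16 ≤ 1 := by
              have : ρ ^ 2 ≤ 1 := pow_le_one₀ hρ.le hρ1.le
              linarith
            calc ρ ^ 2 / 16 * SS δ * k = ρ ^ 2 / 16 * (SS δ * k) := by ring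
              _ ≤ 1 * 1 := mul_le_mul h5 hSk h0.le zero_le_one
              _ = 1 := by ring
          · exact zero_le_one
        linarith
      have h2 : Real.log (d / k) ≤ 2 * Real.log κ - 4 := by
        have h3 : (d : ℝ) / k ≤ κ ^ 2 * Real.exp (-4) := by
          rw [div_le_iff₀ (by positivity)] at hkT
          rw [div_le_iff₀ hk0, Real.exp_neg]
          have h4 : 0 < Real.exp 4 := Real.exp_pos 4
          rw [mul_assoc, inv_mul_eq_div, mul_div_assoc', le_div_iff₀ h4]
          linarith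
        have h5 := Real.log_le_log (by positivity) h3
        rw [Real.log_mul (by positivity) (Real.exp_pos _).ne', Real.log_exp, Real.log_pow] at h5
        push_cast at h5
        linarith
      linarith
    · -- the scaled number of visits
      set y : ℝ := k / aa δ with hy
      have hy0 : 0 < y := div_pos hk0 ha
      have hka : (k : ℝ) = y * aa δ := by rw [hy]; field_simp
      have hSk2 : SS δ * k = y * L / 2 := by
        rw [hka]
        unfold aa
        have : SS δ * (y * (SS δ / (2 * δ))) = y * (SS δ ^ 2) / (2 * δ) := by ring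
        rw [this, hSsq]
        field_simp
      have hdk2 : δ * (k : ℝ) ^ 2 = y ^ 2 * L / 4 := by
        rw [hka]
        unfold aa
        have : δ * (y * (SS δ / (2 * δ))) ^ 2 = y ^ 2 * (SS δ ^ 2) / (4 * δ) := by
          field_simp
          ring
        rw [this, hSsq]
        field_simp
      have h2 : Real.log (d / k) ≤ Real.log d + Real.log (SS δ) := by
        rw [Real.log_div hd0.ne' hk0.ne']
        have h3 := Real.log_lt_log one_pos hSk
        rw [Real.log_one, Real.log_mul hS.ne' hk0.ne'] at h3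
        linarith
      have h3 : Real.log (SS δ) = 1 / 2 * (-L + Real.log L) := by
        have h4 : 2 * Real.log (SS δ) = Real.log δ + Real.log L := by
          rw [← Real.log_mul hδ.ne' hL0.ne', ← hSsq, Real.log_pow]; push_cast; ring
        have h5 : Real.log δ = -L := by
          rw [hL, Real.log_div one_ne_zero hδ.ne', Real.log_one]; ring
        rw [h5] at h4
        linarith
      have h4 : Real.log L ≤ 2 * μ * L + Real.log (1 / (2 * μ)) := by
        have h5 : L = (2 * μ * L) * (1 / (2 * μ)) := by field_simp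
        have h6 : Real.log L = Real.log (2 * μ * L) + Real.log (1 / (2 * μ)) := by
          conv_lhs => rw [h5]
          exact Real.log_mul (by positivity) (by positivity)
        have h7 := Real.log_le_sub_one_of_pos (show 0 < 2 * μ * L by positivity)
        linarith
      have h5 : M ≤ μ * L / 2 := by
        rw [div_le_iff₀ hμ] at hL3
        linarith
      -- the exponent
      have h6 : -L / 4 + (gn ρ ε δ k - δ * (k : ℝ) ^ 2) ≤ -(μ * L) := by
        have hg : gn ρ ε δ k = (1 - ε) * (SS δ * k) +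
            (if Bad ρ δ k then ρ ^ 2 / 16 * (SS δ * k) else 0) := by
          unfold gn
          split_ifs <;> ring
        rw [hg, hSk2, hdk2]
        split_ifs with hB
        · have hz : ρ ^ 2 ≤ (1 - y) ^ 2 := by
            unfold Bad at hB
            have h7 : ρ < |y - 1| := by
              have h8 : |(k : ℝ) - aa δ| = |y - 1| * aa δ := by
                rw [hka, ← sub_one_mul, abs_mul, abs_of_pos ha]
              rw [h8] at hB
              exact lt_of_mul_lt_mul_right hB ha.le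
            have h9 : (1 - y) ^ 2 = |y - 1| ^ 2 := by rw [sq_abs]; ring
            rw [h9]
            exact pow_le_pow_left₀ hρ.le h7.le 2
          have h10 := bad_ineq hρ hρ1 hz
          have h13 : 0 ≤ ε * y := by positivity
          have h14 : -L / 4 + ((1 - ε) * (y * L / 2) + ρ ^ 2 / 16 * (y * L / 2) - y ^ 2 * L / 4)
              = -(((1 - y) ^ 2 / 4 - ρ ^ 2 * y / 32 + ε * y / 2) * L) := by ring
          rw [h14]
          refine neg_le_neg (mul_le_mul_of_nonneg_right ?_ hL0.le)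
          linarith
        · have h10 : (1 - y) ^ 2 / 4 + ε * y / 2 ≥ ε / 4 := by
            nlinarith [sq_nonneg (1 - y - ε)]
          have h14 : -L / 4 + ((1 - ε) * (y * L / 2) + 0 - y ^ 2 * L / 4)
              = -(((1 - y) ^ 2 / 4 + ε * y / 2) * L) := by ring
          rw [h14]
          refine neg_le_neg (mul_le_mul_of_nonneg_right ?_ hL0.le)
          linarith
      rw [h3] at h2
      linarith
  calc Qf d o * Real.exp (gn ρ ε δ k - δ * (k : ℝ) ^ 2)
      ≤ Real.exp (1 / 2 * Real.log (d / k)) * Real.exp (gn ρ ε δ k - δ * (k : ℝ) ^ 2) :=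
        mul_le_mul_of_nonneg_right hQ (Real.exp_pos _).le
    _ = Real.exp (1 / 2 * Real.log (d / k) + (gn ρ ε δ k - δ * (k : ℝ) ^ 2)) := by
        rw [Real.exp_add]
    _ ≤ Real.exp (Real.log κ) := Real.exp_le_exp.mpr key
    _ = κ := Real.exp_log hκ

end Pool.Agent.DFE
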