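import Pool.Agent.Lib.DFE.Defs4
import Pool.Agent.Lib.DFE.UPP

/-!
The scale at `t δ`.
-/

set_option autoImplicit false

namespace Pool.Agent.DFE

theorem ssn : SSN_stmt := by
  intro t ε ht hε
  obtain ⟨δ₁, hδ₁, h1⟩ := UPPAux.SS_small hε
  have hst : 0 < Real.sqrt t := Real.sqrt_pos.mpr ht
  set η : ℝ := min (1 / 2) (ε / Real.sqrt t) with hη
  have hη0 : 0 < η := by positivity
  have hη1 : η ≤ 1 / 2 := min_le_left _ _
  have hη2 : η * Real.sqrt t ≤ ε := by
    have : η ≤ ε / Real.sqrt t := min_le_right _ _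
    rwa [le_div_iff₀ hst] at this
  refine ⟨min δ₁ (Real.exp (-(1 + |Real.log t| / η))), by positivity, ?_, fun δ hδ hδ0 => ?_⟩
  · refine (min_le_right _ _).trans_lt ?_
    rw [Real.exp_lt_one_iff]
    have : 0 ≤ |Real.log t| / η := by positivity
    linarith
  · obtain ⟨h2, h3⟩ := h1 δ hδ (hδ0.trans (min_le_left _ _))
    refine ⟨h2, h3, ?_⟩
    have hL : 1 + |Real.log t| / η ≤ Real.log (1 / δ) := by
      rw [Real.log_div one_ne_zero hδ.ne', Real.log_one, zero_sub, le_neg]
      have := Real.log_le_log hδ (hδ0.trans (min_le_right _ _))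
      rwa [Real.log_exp] at this
    have hL1 : |Real.log t| ≤ η * Real.log (1 / δ) := by
      have h4 : |Real.log t| / η ≤ Real.log (1 / δ) := by linarith
      rw [div_le_iff₀ hη0] at h4
      linarith
    have hL0 : 0 < Real.log (1 / δ) := by
      have : 0 ≤ |Real.log t| / η := by positivity
      linarith
    have h5 : (1 - η) * Real.log (1 / δ) ≤ Real.log (1 / (t * δ)) := by
      have e1 : Real.log (1 / (t * δ)) = -(Real.log t + Real.log δ) := by
        rw [Real.log_div one_ne_zero (by positivity), Real.log_one, Real.log_mul ht.ne' hδ.ne']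
        ring
      have e2 : Real.log (1 / δ) = -Real.log δ := by
        rw [Real.log_div one_ne_zero hδ.ne', Real.log_one]; ring
      rw [e1, e2]
      rw [e2] at hL1
      have := le_abs_self (Real.log t)
      linarith
    have h6 : (Real.sqrt t * (1 - η)) * SS δ ≤ SS (t * δ) := by
      unfold SS
      refine Real.le_sqrt_of_sq_le ?_
      rw [mul_pow, mul_pow, Real.sq_sqrt ht.le, Real.sq_sqrt (by positivity)]
      have h7 : (1 - η) ^ 2 ≤ 1 - η := by nlinarith
      calc t * (1 - η) ^ 2 * (δ * Real.log (1 / δ)) ≤ t * (1 - η) * (δ * Real.log (1 / δ)) := by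
            have : 0 ≤ t * (δ * Real.log (1 / δ)) := by positivity
            nlinarith
        _ = t * δ * ((1 - η) * Real.log (1 / δ)) := by ring
        _ ≤ t * δ * Real.log (1 / (t * δ)) := mul_le_mul_of_nonneg_left h5 (by positivity)
    refine le_trans (mul_le_mul_of_nonneg_right ?_ h2.le) h6
    linarith

end Pool.Agent.DFE
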