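import Pool.Agent.Lib.DFE.Fin2
import Pool.Agent.Lib.DFE.SSN
import Pool.Agent.Lib.DFE.UPPG
import Pool.Agent.Lib.DFE.ENBG
import Pool.Agent.Lib.DFE.CLSG
import Pool.Agent.Lib.DFE.PWG
import Pool.Agent.Lib.DFE.SITEG
import Pool.Agent.Lib.DFE.BADT

/-!
The consequences without hypotheses.
-/

set_option autoImplicit false

namespace Pool.Agent.DFE

theorem tail_all : TAIL_stmt := tail_thm upp_all lowf_all ssn

theorem vist_all : VIST_stmt := vist visw lowf_all ssn

theorem vlt_all : VLT_stmt := vlt tail_all

theorem uppg_all : UPPG_stmt :=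
  uppg set_thm visw run_thm enbg (clsg set_thm (pwg set_thm siteg) (cst set_thm) expl2 lev)

theorem badt_all : BADT_stmt := badt uppg_all lowf_all ssn

theorem drop_all : DROP_stmt := drop tail_all badt_all coa (cmp iso)

end Pool.Agent.DFE
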