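import Pool.Agent.Lib.DFE.Defs7
import Pool.Agent.Lib.DFE.Fin2
import Pool.Agent.Lib.DFE.CONH

/-!
The scaling up to and including the critical line, from the rows.
-/

set_option autoImplicit false

namespace Pool.Agent.DFE

open Finset Pool.Agent.DCOL FinAux

/-- The scaling. -/
theorem scaling (hU : ZUP_stmt) (hL : ZLO_stmt) (hV : CONV_stmt) (hH : CONH_stmt)
    (hN : CONL_stmt) {d : ℕ} (hd : 1 ≤ d) {β : ℝ} (hβ : 0 < β) :
    ∃ (γ₀ c C : ℝ) (n₀ : ℕ), γ₀ < β ∧ 0 < c ∧ 0 < C ∧ ∀ γ : ℝ, γ₀ ≤ γ → γ ≤ β →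
      ∀ n : ℕ, n₀ ≤ n → ∀ M : ℝ,
      M = max (Real.sqrt ((β - γ) * Real.log (1 / (β - γ))) * n)
        ((n : ℝ) ^ ((d : ℝ) / (d + 1)) * Real.log n ^ (((d : ℝ) + 2) / (2 * d + 2))) →
      ((2 * d) ^ n * Real.exp (-(C * M)) ≤ partitionFunction d β γ n ∧
        partitionFunction d β γ n ≤ (2 * d) ^ n * Real.exp (-(c * M))) ∧
      prob d β γ n (fun s => C * M ≤ energy β γ s) ≤ Real.exp (-M) ∧
      prob d β γ n (fun s => C * M ≤ ((visited s).card : ℝ)) ≤ Real.exp (-M) ∧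
      prob d β γ n (fun s => ((visited s).card : ℝ) ≤ c * max ((β - γ) * n ^ 2 / M)
        (((n : ℝ) ^ 2 / M) ^ ((d : ℝ) / (d + 2)))) ≤ Real.exp (-M) ∧
      meanSquare d β γ n ≤ (C * M) ^ 2 := by
  obtain ⟨c₁, δ₁, n₁, hc₁, hδ₁, h1⟩ := hU d hd β hβ
  obtain ⟨C₂, δ₂, n₂, hC₂, hδ₂, h2⟩ := hL d hd β hβ
  obtain ⟨C₃, δ₃, n₃, hC₃, hδ₃, h3⟩ := hV d hd β hβ
  obtain ⟨C₄, δ₄, n₄, hC₄, hδ₄, h4⟩ := hH d hd β hβ
  obtain ⟨c₅, δ₅, n₅, hc₅, hδ₅, h5⟩ := hN d hd β hβ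
  set δ₀ : ℝ := min (min δ₁ δ₂) (min δ₃ (min δ₄ δ₅)) with hδ₀
  have hδ₀0 : 0 < δ₀ := by positivity
  have g1 : δ₀ ≤ δ₁ := (min_le_left _ _).trans (min_le_left _ _)
  have g2 : δ₀ ≤ δ₂ := (min_le_left _ _).trans (min_le_right _ _)
  have g3 : δ₀ ≤ δ₃ := (min_le_right _ _).trans (min_le_left _ _)
  have g4 : δ₀ ≤ δ₄ := (min_le_right _ _).trans ((min_le_right _ _).trans (min_le_left _ _))
  have g5 : δ₀ ≤ δ₅ := (min_le_right _ _).trans ((min_le_right _ _).trans (min_le_right _ _))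
  set c : ℝ := min c₁ c₅ with hc
  set C : ℝ := max C₂ (max C₃ C₄) with hC
  have f1 : c ≤ c₁ := min_le_left _ _
  have f5 : c ≤ c₅ := min_le_right _ _
  have f2 : C₂ ≤ C := le_max_left _ _
  have f3 : C₃ ≤ C := (le_max_left _ _).trans (le_max_right _ _)
  have f4 : C₄ ≤ C := (le_max_right _ _).trans (le_max_right _ _)
  refine ⟨β - δ₀, c, C, max (max n₁ n₂) (max (max n₃ n₄) (max n₅ 2)), by linarith,
    lt_min hc₁ hc₅, lt_of_lt_of_le hC₂ f2, fun γ hγ hγβ n hn M hM => ?_⟩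
  have k1 : n₁ ≤ n := (le_max_left _ _).trans ((le_max_left _ _).trans hn)
  have k2 : n₂ ≤ n := (le_max_right _ _).trans ((le_max_left _ _).trans hn)
  have k3 : n₃ ≤ n :=
    (le_max_left _ _).trans ((le_max_left _ _).trans ((le_max_right _ _).trans hn))
  have k4 : n₄ ≤ n :=
    (le_max_right _ _).trans ((le_max_left _ _).trans ((le_max_right _ _).trans hn))
  have k5 : n₅ ≤ n :=
    (le_max_left _ _).trans ((le_max_right _ _).trans ((le_max_right _ _).trans hn))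
  have k6 : 2 ≤ n :=
    (le_max_right _ _).trans ((le_max_right _ _).trans ((le_max_right _ _).trans hn))
  have hMM : M = MM d (β - γ) n := hM
  have hM0 : 0 < M := by rw [hMM]; exact CONAux.MM_pos d (β - γ) k6
  have m1 := h1 γ (by linarith) hγβ n k1
  have m2 := h2 γ (by linarith) hγβ n k2
  obtain ⟨m3, m3'⟩ := h3 γ (by linarith) hγβ n k3
  have m4 := h4 γ (by linarith) hγβ n k4
  have m5 := h5 γ (by linarith) hγβ n k5
  rw [← hMM] at m1 m2 m3 m3' m4 m5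
  rw [partition_eq]
  refine ⟨⟨le_trans ?_ m2, m1.trans ?_⟩, le_trans (prob_mono hd β γ fun s hs => ?_) m4,
    le_trans (prob_mono hd β γ fun s hs => ?_) m3,
    le_trans (prob_mono hd β γ fun s hs => ?_) m5, m3'.trans ?_⟩
  · refine mul_le_mul_of_nonneg_left (Real.exp_le_exp.mpr (neg_le_neg ?_)) (by positivity)
    exact mul_le_mul_of_nonneg_right f2 hM0.le
  · refine mul_le_mul_of_nonneg_left (Real.exp_le_exp.mpr (neg_le_neg ?_)) (by positivity)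
    exact mul_le_mul_of_nonneg_right f1 hM0.le
  · exact (mul_le_mul_of_nonneg_right f4 hM0.le).trans hs
  · exact (mul_le_mul_of_nonneg_right f3 hM0.le).trans hs
  · refine hs.trans (mul_le_mul_of_nonneg_right f5 ?_)
    exact le_max_of_le_right (by positivity)
  · refine pow_le_pow_left₀ (by positivity) ?_ 2
    exact mul_le_mul_of_nonneg_right f3 hM0.le

end Pool.Agent.DFE
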