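import Pool.Agent.Lib.DFE.Defs7

/-!
# The length of the closed words with the pyramid profile
-/

set_option autoImplicit false

namespace Pool.Agent.DFE

open Finset Pool.Agent.DCOL

/-- The number of the directed edges of the box. -/
noncomputable def EE (d n : ℕ) : ℕ := ∑ x ∈ box d n, deg n x

theorem mem_boxL {d n : ℕ} {x : Site d} : x ∈ box d n ↔ ∀ i, 0 ≤ x i ∧ x i < n := by
  simp [box]

theorem card_boxL (d n : ℕ) : (box d n).card = n ^ d := by
  rw [box, Fintype.card_piFinset]
  simp

theorem EE_le (d n : ℕ) : EE d n ≤ 2 * d * n ^ d := by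
  have h1 : ∀ x ∈ box d n, deg n x ≤ 2 * d := by
    intro x _
    refine (Finset.card_filter_le _ _).trans (le_of_eq ?_)
    rw [Finset.card_univ, Fintype.card_prod, Fintype.card_fin, Fintype.card_bool, mul_comm]
  calc EE d n ≤ ∑ _x ∈ box d n, 2 * d := Finset.sum_le_sum h1
    _ = 2 * d * n ^ d := by
      rw [Finset.sum_const, card_boxL, smul_eq_mul, mul_comm]

theorem EE_zero (d : ℕ) (hd : 0 < d) : EE d 0 = 0 := by
  have h := EE_le d 0
  rw [zero_pow hd.ne', mul_zero] at h
  omega

theorem EE_mono (d : ℕ) {n n' : ℕ} (h : n ≤ n') : EE d n ≤ EE d n' := by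
  have hb : box d n ⊆ box d n' := by
    intro x hx
    rw [mem_boxL] at hx ⊢
    intro i
    obtain ⟨h1, h2⟩ := hx i
    refine ⟨h1, h2.trans_le ?_⟩
    exact_mod_cast h
  calc EE d n ≤ ∑ x ∈ box d n, deg n' x := by
        refine Finset.sum_le_sum fun x _ => Finset.card_le_card ?_
        intro s hs
        rw [Finset.mem_filter] at hs ⊢
        exact ⟨hs.1, hb hs.2⟩
    _ ≤ EE d n' := Finset.sum_le_sum_of_subset hb

theorem deg_ge {d n : ℕ} (hn : 2 ≤ n) {x : Site d} (hx : x ∈ box d n) : d ≤ deg n x := by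
  classical
  rw [mem_boxL] at hx
  have h := Finset.card_le_card_of_injOn (s := (univ : Finset (Fin d)))
    (t := univ.filter fun s : Step d => x + vec s ∈ box d n)
    (fun i => ((i, decide (x i + 1 < n)) : Step d)) ?_ ?_
  · rwa [Finset.card_univ, Fintype.card_fin] at h
  · intro i _
    simp only [Finset.coe_filter, Finset.mem_univ, true_and, Set.mem_ofPred_eq]
    rw [mem_boxL]
    intro k
    by_cases hi : x i + 1 < n
    · have h1 : vec ((i, decide (x i + 1 < n)) : Step d) = Pi.single i 1 := by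
        simp [vec, hi]
      rw [h1, Pi.add_apply]
      by_cases hk : k = i
      · subst hk
        rw [Pi.single_eq_same]
        have := (hx k).1
        omega
      · rw [Pi.single_eq_of_ne hk, add_zero]
        exact hx k
    · have h1 : vec ((i, decide (x i + 1 < n)) : Step d) = -Pi.single i 1 := by
        simp [vec, hi]
      rw [h1, Pi.add_apply, Pi.neg_apply]
      by_cases hk : k = i
      · subst hk
        rw [Pi.single_eq_same]
        have := (hx k).1
        have := (hx k).2
        omega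
      · rw [Pi.single_eq_of_ne hk, neg_zero, add_zero]
        exact hx k
  · intro i _ k _ hik
    exact (Prod.mk.inj hik).1

theorem EE_ge (d n : ℕ) (hn : 2 ≤ n) : d * n ^ d ≤ EE d n := by
  calc d * n ^ d = ∑ _x ∈ box d n, d := by
        rw [Finset.sum_const, card_boxL, smul_eq_mul, mul_comm]
    _ ≤ EE d n := Finset.sum_le_sum fun x hx => deg_ge hn hx

/-- `x` and `x + vec s` lie in the layer `j`. -/
def InL {d : ℕ} (N j : ℕ) (x : Site d) (s : Step d) : Prop :=
  ∀ i, ((j : ℤ) ≤ x i ∧ x i + (j : ℤ) < (N : ℤ)) ∧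
    (j : ℤ) ≤ (x + vec s) i ∧ (x + vec s) i + (j : ℤ) < (N : ℤ)

theorem layer_iff (N j : ℕ) (z : ℤ) :
    ((j : ℤ) ≤ z ∧ z + (j : ℤ) < (N : ℤ)) ↔ 0 ≤ z - j ∧ z - j < ((N - 2 * j : ℕ) : ℤ) := by
  omega

open Classical in
/-- A layer is a translate of a box. -/
theorem sum_layer {d : ℕ} (N j : ℕ) :
    ((box d N ×ˢ (univ : Finset (Step d))).filter fun p : Site d × Step d =>
      InL N j p.1 p.2).card = EE d (N - 2 * j) := by
  have h1 : EE d (N - 2 * j) = ((box d (N - 2 * j) ×ˢ (univ : Finset (Step d))).filter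
      fun p : Site d × Step d => p.1 + vec p.2 ∈ box d (N - 2 * j)).card := by
    rw [Finset.card_filter, Finset.sum_product]
    refine Finset.sum_congr rfl fun x _ => ?_
    rw [deg, Finset.card_filter]
  rw [h1]
  refine Finset.card_bij (fun (p : Site d × Step d) _ =>
    (((fun k => p.1 k - (j : ℤ)), p.2) : Site d × Step d)) ?_ ?_ ?_
  · intro p hp
    rw [Finset.mem_filter, Finset.mem_product] at hp ⊢
    obtain ⟨-, h2⟩ := hp
    refine ⟨⟨?_, Finset.mem_univ _⟩, ?_⟩
    · rw [mem_boxL]
      exact fun i => (layer_iff N j (p.1 i)).1 (h2 i).1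
    · rw [mem_boxL]
      intro i
      have h3 := (layer_iff N j ((p.1 + vec p.2) i)).1 (h2 i).2
      have h4 : ((fun k => p.1 k - (j : ℤ) : Site d) + vec p.2) i =
          (p.1 + vec p.2) i - j := by
        rw [Pi.add_apply, Pi.add_apply]
        ring
      rw [h4]
      exact h3
  · intro p _ p' _ h
    have h2 := (Prod.mk.inj h).1
    have h3 := (Prod.mk.inj h).2
    refine Prod.ext (funext fun k => ?_) h3
    have h4 := congrFun h2 k
    exact sub_left_injective h4
  · intro p hp
    rw [Finset.mem_filter, Finset.mem_product] at hp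
    obtain ⟨⟨h2, -⟩, h3⟩ := hp
    rw [mem_boxL] at h2 h3
    refine ⟨((fun k => p.1 k + (j : ℤ)), p.2), ?_, ?_⟩
    · have h4 : InL N j (fun k => p.1 k + (j : ℤ)) p.2 := by
        intro i
        refine ⟨(layer_iff N j (p.1 i + j)).2 ?_, ?_⟩
        · rw [add_sub_cancel_right]
          exact h2 i
        · have h5 : ((fun k => p.1 k + (j : ℤ) : Site d) + vec p.2) i =
              (p.1 + vec p.2) i + j := by
            rw [Pi.add_apply, Pi.add_apply]
            ring
          rw [h5]
          refine (layer_iff N j ((p.1 + vec p.2) i + j)).2 ?_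
          rw [add_sub_cancel_right]
          exact h3 i
      rw [Finset.mem_filter, Finset.mem_product]
      refine ⟨⟨?_, Finset.mem_univ _⟩, h4⟩
      rw [mem_boxL]
      intro i
      have h5 := (h4 i).1
      have h6 : (0 : ℤ) ≤ j := Int.natCast_nonneg j
      exact ⟨h6.trans h5.1, by linarith [h5.2]⟩
    · exact Prod.ext (funext fun k => add_sub_cancel_right _ _) rfl

open Classical in
/-- The length. -/
theorem sum_prf (d A h N : ℕ) :
    ∑ x ∈ box d N, prf A h N x = A * ∑ j ∈ range h, EE d (N - 2 * j) := by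
  have h0 : ∀ (x : Site d) (s : Step d), qq h N x s =
      ∑ j ∈ range h, if InL N j x s then 1 else 0 := by
    intro x s
    rw [qq, Finset.card_filter]
    refine Finset.sum_congr rfl fun j _ => ?_
    exact if_congr Iff.rfl rfl rfl
  have h1 : ∀ x : Site d, prf A h N x = A * ∑ s, ∑ j ∈ range h,
      if InL N j x s then 1 else 0 := by
    intro x
    rw [prf, Finset.sum_congr rfl fun s _ => h0 x s]
  rw [Finset.sum_congr rfl fun x _ => h1 x, ← Finset.mul_sum]
  congr 1
  have h2 : ∀ j ∈ range h, EE d (N - 2 * j) = ∑ x ∈ box d N, ∑ s : Step d,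
      if InL N j x s then 1 else 0 := by
    intro j _
    rw [← sum_layer N j, Finset.card_filter, Finset.sum_product]
  rw [Finset.sum_congr rfl h2]
  refine Eq.trans (Finset.sum_congr rfl fun x _ => Finset.sum_comm) Finset.sum_comm

theorem len : LEN_stmt := by
  intro d hd
  have hd0 : (0 : ℝ) < d := by exact_mod_cast hd
  have h2d : (1 : ℝ) ≤ 2 ^ d := one_le_pow₀ (by norm_num)
  refine ⟨2 * d * 2 ^ d, d / (4 * 2 ^ d), by positivity, by positivity, ?_⟩
  intro A h N hA hh hN
  have hA0 : (0 : ℝ) ≤ A := Nat.cast_nonneg A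
  have hN0 : (0 : ℝ) < N := by exact_mod_cast (by omega : 0 < N)
  have hND : (0 : ℝ) ≤ (N : ℝ) ^ d := by positivity
  have hmin : (0 : ℝ) ≤ min (h : ℝ) N := le_min (Nat.cast_nonneg h) hN0.le
  refine ⟨?_, ?_, ?_⟩
  · rw [sum_prf]
    push_cast
    have h1 : (min (h : ℝ) N) / 4 * (d * (N / 2) ^ d) ≤ ∑ j ∈ range h, (EE d (N - 2 * j) : ℝ) := by
      have h2 : ((min h (N / 4 + 1) : ℕ) : ℝ) * (d * (N / 2) ^ d) ≤
          ∑ j ∈ range (min h (N / 4 + 1)), (EE d (N - 2 * j) : ℝ) := by
        have h3 : ∑ _j ∈ range (min h (N / 4 + 1)), (d * (N / 2) ^ d : ℝ) ≤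
            ∑ j ∈ range (min h (N / 4 + 1)), (EE d (N - 2 * j) : ℝ) := by
          refine Finset.sum_le_sum fun j hj => ?_
          have hj1 : j < N / 4 + 1 := (Finset.mem_range.1 hj).trans_le (min_le_right _ _)
          have hj2 : 4 * j ≤ N := by omega
          have hj3 : 2 ≤ N - 2 * j := by omega
          have h4 := EE_ge d (N - 2 * j) hj3
          have h5 : (d : ℝ) * ((N - 2 * j : ℕ) : ℝ) ^ d ≤ (EE d (N - 2 * j) : ℝ) := by
            exact_mod_cast h4
          refine le_trans (mul_le_mul_of_nonneg_left ?_ hd0.le) h5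
          refine pow_le_pow_left₀ (by positivity) ?_ d
          rw [Nat.cast_sub (by omega)]
          have h6 : (4 : ℝ) * j ≤ N := by exact_mod_cast hj2
          push_cast
          linarith
        rwa [Finset.sum_const, Finset.card_range, nsmul_eq_mul] at h3
      have h7 : min (h : ℝ) N / 4 ≤ ((min h (N / 4 + 1) : ℕ) : ℝ) := by
        rw [Nat.cast_min]
        refine le_min ?_ ?_
        · have := min_le_left (h : ℝ) N
          have h8 : (0 : ℝ) ≤ h := Nat.cast_nonneg h
          linarith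
        · have := min_le_right (h : ℝ) N
          have h8 : (N : ℝ) ≤ 4 * ((N / 4 + 1 : ℕ) : ℝ) := by
            exact_mod_cast (by omega : N ≤ 4 * (N / 4 + 1))
          linarith
      refine (mul_le_mul_of_nonneg_right h7 (by positivity)).trans (h2.trans ?_)
      refine Finset.sum_le_sum_of_subset_of_nonneg ?_ fun _ _ _ => Nat.cast_nonneg _
      exact Finset.range_subset_range.2 (min_le_left _ _)
    have h9 : (d : ℝ) / (4 * 2 ^ d) * (A * min (h : ℝ) N * N ^ d) =
        A * ((min (h : ℝ) N) / 4 * (d * (N / 2) ^ d)) := by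
      rw [div_pow]
      field_simp
    rw [h9]
    exact mul_le_mul_of_nonneg_left h1 hA0
  · rw [sum_prf]
    push_cast
    have h1 : ∑ j ∈ range h, (EE d (N - 2 * j) : ℝ) ≤ min (h : ℝ) N * (2 * d * N ^ d) := by
      have h2 : ∑ j ∈ range (min h N), (EE d (N - 2 * j) : ℝ) =
          ∑ j ∈ range h, (EE d (N - 2 * j) : ℝ) := by
        refine Finset.sum_subset (Finset.range_subset_range.2 (min_le_left _ _)) ?_
        intro j hj hj'
        rw [Finset.mem_range] at hj hj'
        have h3 : N - 2 * j = 0 := by omega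
        rw [h3, EE_zero d hd, Nat.cast_zero]
      rw [← h2]
      have h3 : ∑ j ∈ range (min h N), (EE d (N - 2 * j) : ℝ) ≤
          ∑ _j ∈ range (min h N), (2 * d * N ^ d : ℝ) := by
        refine Finset.sum_le_sum fun j _ => ?_
        have h4 := (EE_mono d (Nat.sub_le N (2 * j))).trans (EE_le d N)
        exact_mod_cast h4
      rw [Finset.sum_const, Finset.card_range, nsmul_eq_mul, Nat.cast_min] at h3
      exact h3
    calc (A : ℝ) * ∑ j ∈ range h, (EE d (N - 2 * j) : ℝ)
        ≤ A * (min (h : ℝ) N * (2 * d * N ^ d)) := mul_le_mul_of_nonneg_left h1 hA0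
      _ = 2 * d * 1 * (A * min (h : ℝ) N * N ^ d) := by ring
      _ ≤ 2 * d * 2 ^ d * (A * min (h : ℝ) N * N ^ d) :=
        mul_le_mul_of_nonneg_right (mul_le_mul_of_nonneg_left h2d (by positivity)) (by positivity)
  · rw [sum_prf, sum_prf]
    obtain ⟨k, rfl⟩ : ∃ k, h = k + 1 := ⟨h - 1, by omega⟩
    have h1 : ∑ j ∈ range (k + 1), EE d (N + 1 - 2 * j) ≤
        ∑ j ∈ range (k + 1), EE d (N - 2 * j) + 2 * d * (N + 1) ^ d := by
      rw [Finset.sum_range_succ' (fun j => EE d (N + 1 - 2 * j))]
      have h2 : ∑ j ∈ range k, EE d (N + 1 - 2 * (j + 1)) ≤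
          ∑ j ∈ range (k + 1), EE d (N - 2 * j) := by
        rw [Finset.sum_range_succ]
        refine le_trans (Finset.sum_le_sum fun j _ => EE_mono d ?_) (Nat.le_add_right _ _)
        omega
      exact Nat.add_le_add h2 (EE_le d (N + 1))
    have h2 : (∑ j ∈ range (k + 1), (EE d (N + 1 - 2 * j) : ℝ)) ≤
        ∑ j ∈ range (k + 1), (EE d (N - 2 * j) : ℝ) + 2 * d * (N + 1) ^ d := by
      exact_mod_cast h1
    have h3 : ((N : ℝ) + 1) ^ d ≤ 2 ^ d * N ^ d := by
      rw [← mul_pow]
      refine pow_le_pow_left₀ (by positivity) ?_ d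
      have : (2 : ℝ) ≤ N := by exact_mod_cast hN
      linarith
    push_cast
    have h4 : (∑ j ∈ range (k + 1), (EE d (N + 1 - 2 * j) : ℝ)) ≤
        ∑ j ∈ range (k + 1), (EE d (N - 2 * j) : ℝ) + 2 * d * 2 ^ d * N ^ d := by
      refine h2.trans ?_
      have h5 := mul_le_mul_of_nonneg_left h3 (by positivity : (0 : ℝ) ≤ 2 * d)
      linarith
    have h6 := mul_le_mul_of_nonneg_left h4 hA0
    calc _ ≤ _ := h6
      _ = _ := by ring

end Pool.Agent.DFE
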