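import Pool.Agent.Lib.DFE.Defs7
import Pool.Agent.Lib.DFE.LIST

/-!
# The number of the lists with given counts: logarithmic lower bound
-/

set_option autoImplicit false

namespace Pool.Agent.DFE

open Finset Pool.Agent.DCOL

/-- The bound for the factorials. -/
theorem fact_le_exp (m l : ℕ) (hml : m ≤ l) (hl : 1 ≤ l) (a : ℝ) (ha : 0 < a) :
    (m.factorial : ℝ) ≤ Real.exp 1 * Real.sqrt l *
      ((a / Real.exp 1) ^ m * Real.exp (((m : ℝ) - a) + ((m : ℝ) - a) ^ 2 / a)) := by
  rcases Nat.eq_zero_or_pos m with h | h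
  · subst h
    have h1 : ((0 : ℕ) : ℝ) - a + (((0 : ℕ) : ℝ) - a) ^ 2 / a = 0 := by
      field_simp
      push_cast
      ring
    rw [h1, Real.exp_zero, pow_zero, Nat.factorial_zero, Nat.cast_one, mul_one, mul_one]
    have h2 : (1 : ℝ) ≤ Real.exp 1 := Real.one_le_exp (by norm_num)
    have h3 : (1 : ℝ) ≤ Real.sqrt l := Real.one_le_sqrt.2 (by exact_mod_cast hl)
    nlinarith
  · have hms : (0 : ℝ) < m := by exact_mod_cast h
    refine (fact_le m h).trans ?_
    have h6 : Real.sqrt m ≤ Real.sqrt l := Real.sqrt_le_sqrt (by exact_mod_cast hml)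
    have h7 : ((m : ℝ) / Real.exp 1) ^ m ≤ (a / Real.exp 1) ^ m *
        Real.exp (((m : ℝ) - a) + ((m : ℝ) - a) ^ 2 / a) := by
      have h8 : (m : ℝ) / Real.exp 1 = (a / Real.exp 1) * (m / a) := by
        field_simp
      rw [h8, mul_pow]
      refine mul_le_mul_of_nonneg_left ?_ (by positivity)
      have h9 : (m : ℝ) / a ≤ Real.exp ((m : ℝ) / a - 1) := by
        have := Real.add_one_le_exp ((m : ℝ) / a - 1)
        linarith
      calc ((m : ℝ) / a) ^ m ≤ (Real.exp ((m : ℝ) / a - 1)) ^ m :=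
            pow_le_pow_left₀ (by positivity) h9 _
        _ = Real.exp (m * ((m : ℝ) / a - 1)) := by rw [← Real.exp_nat_mul]
        _ = _ := by
            congr 1
            field_simp
            ring
    exact mul_le_mul (mul_le_mul_of_nonneg_left h6 (Real.exp_pos _).le) h7 (by positivity)
      (by positivity)

theorem listb : LISTB_stmt := by
  intro d hd
  have hcardS : Fintype.card (Step d) = 2 * d := by
    rw [Fintype.card_prod, Fintype.card_fin, Fintype.card_bool, mul_comm]
  have hd0 : (0 : ℝ) < d := by exact_mod_cast hd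
  have hlog2 : 0 < Real.log 2 := Real.log_pos (by norm_num)
  refine ⟨(1 + d) + 2 * d / Real.log 2, by positivity, ?_⟩
  intro m t l hmt hsum
  have hl1 : 1 ≤ l := by
    rw [← hsum]
    exact hmt.trans (Finset.single_le_sum (fun _ _ => Nat.zero_le _) (Finset.mem_univ t))
  have hl0 : (0 : ℝ) < l := by exact_mod_cast hl1
  set a : ℝ := (l : ℝ) / (2 * d) with ha
  have ha0 : 0 < a := by positivity
  have hle : ∀ s, m s ≤ l := fun s => by
    rw [← hsum]
    exact Finset.single_le_sum (fun _ _ => Nat.zero_le _) (Finset.mem_univ s)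
  -- the combinatorial bound
  have h1 := list_one m t hmt
  rw [hsum] at h1
  have h2 : l.factorial ≤ l * ((lst m t).card * ∏ s, (m s).factorial) := by
    calc l.factorial = l * (l - 1).factorial := (Nat.mul_factorial_pred (by omega)).symm
      _ ≤ l * ((l - 1).factorial * m t) := Nat.mul_le_mul_left _ (Nat.le_mul_of_pos_right _ hmt)
      _ ≤ _ := Nat.mul_le_mul_left _ h1
  have h3 : (l.factorial : ℝ) ≤ l * ((lst m t).card * ∏ s, ((m s).factorial : ℝ)) := by
    exact_mod_cast h2
  -- the product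
  have h4 : ∏ s, ((m s).factorial : ℝ) ≤ (Real.exp 1 * Real.sqrt l) ^ (2 * d) *
      ((a / Real.exp 1) ^ l * Real.exp (∑ s, ((m s : ℝ) - a) ^ 2 / a)) := by
    calc ∏ s, ((m s).factorial : ℝ) ≤ ∏ s, (Real.exp 1 * Real.sqrt l *
        ((a / Real.exp 1) ^ (m s) *
          Real.exp (((m s : ℝ) - a) + ((m s : ℝ) - a) ^ 2 / a))) :=
          Finset.prod_le_prod (fun s _ => by positivity) fun s _ =>
            fact_le_exp (m s) l (hle s) hl1 a ha0
      _ = (Real.exp 1 * Real.sqrt l) ^ (2 * d) * ((a / Real.exp 1) ^ l *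
          Real.exp (∑ s, (((m s : ℝ) - a) + ((m s : ℝ) - a) ^ 2 / a))) := by
          rw [Finset.prod_mul_distrib (f := fun _ : Step d => Real.exp 1 * Real.sqrt l),
            Finset.prod_const, Finset.card_univ, hcardS, Finset.prod_mul_distrib,
            Finset.prod_pow_eq_pow_sum, hsum, Real.exp_sum]
      _ = _ := by
          have h10 : ∑ s : Step d, (((m s : ℝ) - a) + ((m s : ℝ) - a) ^ 2 / a) =
              ∑ s : Step d, ((m s : ℝ) - a) ^ 2 / a := by
            rw [Finset.sum_add_distrib, Finset.sum_sub_distrib, Finset.sum_const,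
              Finset.card_univ, hcardS, ← Nat.cast_sum, hsum, nsmul_eq_mul, ha]
            push_cast
            field_simp
            ring
          rw [h10]
  have hLpos : 0 < (lst m t).card := by
    rcases Nat.eq_zero_or_pos (lst m t).card with h | h
    · rw [h, Nat.zero_mul, Nat.mul_zero] at h2
      exact absurd h2 (by have := Nat.factorial_pos l; omega)
    · exact h
  have hL0 : (0 : ℝ) < (lst m t).card := by exact_mod_cast hLpos
  have h5 : ((l : ℝ) / Real.exp 1) ^ l ≤ (l.factorial : ℝ) := by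
    refine le_trans ?_ (fact_ge l)
    have h6 : (1 : ℝ) ≤ Real.sqrt l := Real.one_le_sqrt.2 (by exact_mod_cast hl1)
    exact le_mul_of_one_le_left (by positivity) h6
  have h6 : ((l : ℝ) / Real.exp 1) ^ l ≤ l * ((lst m t).card *
      ((Real.exp 1 * Real.sqrt l) ^ (2 * d) *
      ((a / Real.exp 1) ^ l * Real.exp (∑ s, ((m s : ℝ) - a) ^ 2 / a)))) :=
    h5.trans (h3.trans (mul_le_mul_of_nonneg_left (mul_le_mul_of_nonneg_left h4 hL0.le) hl0.le))
  have h7 := Real.log_le_log (by positivity) h6
  have hsq : (0 : ℝ) < Real.sqrt l := Real.sqrt_pos.2 hl0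
  have hE : (0 : ℝ) < Real.exp 1 := Real.exp_pos 1
  rw [Real.log_pow, Real.log_div hl0.ne' hE.ne', Real.log_exp,
    Real.log_mul hl0.ne' (by positivity), Real.log_mul hL0.ne' (by positivity),
    Real.log_mul (by positivity) (by positivity), Real.log_pow,
    Real.log_mul hE.ne' hsq.ne', Real.log_exp, Real.log_sqrt hl0.le,
    Real.log_mul (by positivity) (by positivity), Real.log_pow,
    Real.log_div ha0.ne' hE.ne', Real.log_exp, Real.log_exp] at h7
  have h8 : Real.log a = Real.log l - Real.log (2 * d) := by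
    rw [ha, Real.log_div hl0.ne' (by positivity)]
  have h9 : ∑ s, ((m s : ℝ) - a) ^ 2 / a = 2 * d / l * ∑ s, ((m s : ℝ) - a) ^ 2 := by
    rw [← Finset.sum_div]
    have h14 : 2 * (d : ℝ) / l = a⁻¹ := by rw [ha, inv_div]
    rw [h14, div_eq_inv_mul]
  rw [h8, h9] at h7
  have h10 : Real.log l ≤ Real.log (l + 1) := Real.log_le_log hl0 (by linarith)
  have h11 : Real.log 2 ≤ Real.log (l + 1) :=
    Real.log_le_log (by norm_num) (by
      have : (1 : ℝ) ≤ l := by exact_mod_cast hl1
      linarith)
  have h12 : 2 * (d : ℝ) ≤ 2 * d / Real.log 2 * Real.log (l + 1) := by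
    rw [div_mul_eq_mul_div, le_div_iff₀ hlog2]
    exact mul_le_mul_of_nonneg_left h11 (by positivity)
  have h13 : (1 + (d : ℝ)) * Real.log l ≤ (1 + d) * Real.log (l + 1) :=
    mul_le_mul_of_nonneg_left h10 (by positivity)
  push_cast at h7
  nlinarith
end Pool.Agent.DFE
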