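import Pool.Agent.Lib.DFE.BoxDefs
import Pool.Agent.Lib.DFE.Defs2

/-!
The lower bound for the partition function, from the closed words with flat local times in a box.
-/

set_option autoImplicit false

namespace Pool.Agent.DFE

open Finset Pool.Agent.DCOL

namespace LowAux

variable {d : ℕ}

/-- The energy of a sum of two functions with disjoint supports. -/
theorem En_split {β γ : ℝ} (hγ : 0 ≤ γ) {u v : Site d → ℝ}
    (hu : (Function.support u).Finite) (hv : (Function.support v).Finite) (hu0 : ∀ x, 0 ≤ u x)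
    (hv0 : ∀ x, 0 ≤ v x) (huv : ∀ x, u x * v x = 0) :
    En β γ (fun x => u x + v x) ≤ En β γ u + β * ∑' x, v x ^ 2 := by
  unfold En
  have h1 : ∑' x, (u x + v x) ^ 2 = ∑' x, u x ^ 2 + ∑' x, v x ^ 2 := by
    rw [← (summable_fs (fs_sq hu)).tsum_add (summable_fs (fs_sq hv))]
    refine tsum_congr fun x => ?_
    linear_combination 2 * huv x
  have hs : ∀ {w : Site d → ℝ}, (Function.support w).Finite →
      Summable fun x => ∑ s : Step d, w x * w (x + vec s) := by
    intro w hw
    exact summable_sum fun s _ => summable_fs (fs_mul_right hw)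
  have h2 : ∑' x, ∑ s : Step d, u x * u (x + vec s) ≤
      ∑' x, ∑ s : Step d, (u x + v x) * (u (x + vec s) + v (x + vec s)) := by
    refine Summable.tsum_le_tsum (fun x => Finset.sum_le_sum fun s _ => ?_) (hs hu)
      (hs (fs_add hu hv))
    nlinarith [mul_nonneg (hu0 x) (hv0 (x + vec s)), mul_nonneg (hv0 x) (hu0 (x + vec s)),
      mul_nonneg (hv0 x) (hv0 (x + vec s))]
  have h3 : 0 ≤ γ / (2 * d) := by positivity
  rw [h1]
  nlinarith [mul_le_mul_of_nonneg_left h2 h3]

theorem mem_box {N : ℕ} {x : Site d} : x ∈ box d N ↔ ∀ i, 0 ≤ x i ∧ x i < N := by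
  rw [box, Fintype.mem_piFinset]
  simp only [Finset.mem_Ico]

theorem card_box (N : ℕ) : (box d N).card = N ^ d := by
  rw [box, Fintype.card_piFinset]
  simp

theorem card_face {N : ℕ} (i : Fin d) (c : ℤ) :
    ((box d N).filter fun x => x i = c).card ≤ N ^ (d - 1) := by
  classical
  have h1 : ((box d N).filter fun x => x i = c) ⊆
      Fintype.piFinset fun j => if j = i then {c} else Finset.Ico (0 : ℤ) N := by
    intro x hx
    rw [Finset.mem_filter, mem_box] at hx
    rw [Fintype.mem_piFinset]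
    intro j
    split_ifs with hj
    · subst hj
      exact Finset.mem_singleton.mpr hx.2
    · exact Finset.mem_Ico.mpr (hx.1 j)
  refine (Finset.card_le_card h1).trans (le_of_eq ?_)
  rw [Fintype.card_piFinset]
  have h2 : ∀ j : Fin d, (if j = i then ({c} : Finset ℤ) else Finset.Ico (0 : ℤ) N).card =
      if j = i then 1 else N := by
    intro j
    split_ifs <;> simp
  rw [Finset.prod_congr rfl fun j _ => h2 j, Finset.prod_ite, Finset.prod_const_one, one_mul,
    Finset.prod_const, Finset.filter_ne', Finset.card_erase_of_mem (Finset.mem_univ i),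
    Finset.card_univ, Fintype.card_fin]

theorem card_bd {N : ℕ} (s : Step d) :
    ((box d N).filter fun x => x + vec s ∉ box d N).card ≤ N ^ (d - 1) := by
  refine le_trans (Finset.card_le_card ?_) (card_face s.1 (if s.2 then (N : ℤ) - 1 else 0))
  intro x hx
  rw [Finset.mem_filter] at hx ⊢
  refine ⟨hx.1, ?_⟩
  have h1 := mem_box.mp hx.1
  by_contra hne
  refine hx.2 (mem_box.mpr fun j => ?_)
  obtain ⟨i, b⟩ := s
  have h2 := h1 j
  have h3 := h1 i
  rw [Pi.add_apply]
  cases b
  · have e : (vec (i, false) : Site d) j = if j = i then -1 else 0 := by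
      simp only [vec, Bool.false_eq_true, if_false, Pi.neg_apply, Pi.single_apply]
      split_ifs <;> simp
    rw [e]
    simp only [Bool.false_eq_true, if_false] at hne
    split_ifs with hj
    · subst hj
      omega
    · omega
  · rw [vec_true]
    simp only [if_true] at hne
    split_ifs with hj
    · subst hj
      omega
    · omega

theorem deg_add {N : ℕ} (x : Site d) :
    deg N x + (univ.filter fun s : Step d => x + vec s ∉ box d N).card = 2 * d := by
  rw [deg, Finset.card_filter_add_card_filter_not, Finset.card_univ, Fintype.card_prod,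
    Fintype.card_fin, Fintype.card_bool, mul_comm]

theorem deg_le {N : ℕ} (x : Site d) : deg N x ≤ 2 * d := by
  have := deg_add (N := N) x
  omega

theorem sum_deg (N : ℕ) : 2 * d * N ^ d ≤ ∑ x ∈ box d N, deg N x + 2 * d * N ^ (d - 1) := by
  have h1 : ∑ x ∈ box d N, deg N x +
      ∑ x ∈ box d N, (univ.filter fun s : Step d => x + vec s ∉ box d N).card =
      2 * d * N ^ d := by
    rw [← Finset.sum_add_distrib, Finset.sum_congr rfl fun x _ => deg_add x, Finset.sum_const,
      card_box, smul_eq_mul, mul_comm]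
  have h2 : ∑ x ∈ box d N, (univ.filter fun s : Step d => x + vec s ∉ box d N).card ≤
      2 * d * N ^ (d - 1) := by
    have e1 : ∑ x ∈ box d N, (univ.filter fun s : Step d => x + vec s ∉ box d N).card =
        ∑ s : Step d, ((box d N).filter fun x => x + vec s ∉ box d N).card := by
      simp only [Finset.card_filter]
      exact Finset.sum_comm
    rw [e1]
    refine (Finset.sum_le_sum fun s _ => card_bd s).trans (le_of_eq ?_)
    rw [Finset.sum_const, Finset.card_univ, Fintype.card_prod, Fintype.card_fin,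
      Fintype.card_bool, smul_eq_mul, mul_comm d 2]
  omega

/-- The energy of the flat local times in the box. -/
theorem En_box (hd : 0 < d) {β γ : ℝ} (hγ : 0 ≤ γ) (hβ : γ ≤ β) {a N : ℕ} (ha : 1 ≤ a)
    (hN : 1 ≤ N) {f : Site d → ℝ} (hf : ∀ x, f x = (if x = 0 then 1 else 0) +
      if x ∈ box d N then (a : ℝ) * deg N x else 0) :
    En β γ f ≤ (β - γ) * ((2 * d * a + 1) ^ 2 * N ^ d) +
      γ * ((2 * d * a + 1) ^ 2 * (2 * d * N ^ (d - 1))) := by
  classical
  set D : ℝ := 2 * d * a + 1 with hD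
  have h0box : (0 : Site d) ∈ box d N := mem_box.mpr fun i => by
    rw [Pi.zero_apply]
    exact ⟨le_rfl, by exact_mod_cast hN⟩
  have hout : ∀ x, x ∉ box d N → f x = 0 := by
    intro x hx
    rw [hf, if_neg hx, if_neg, add_zero]
    rintro rfl
    exact hx h0box
  have hf0 : ∀ x, 0 ≤ f x := by
    intro x
    rw [hf]
    split_ifs <;> positivity
  have hfD : ∀ x, f x ≤ D := by
    intro x
    rw [hf, hD]
    have h1 : (deg N x : ℝ) ≤ 2 * d := by exact_mod_cast deg_le x
    have h2 : (a : ℝ) * deg N x ≤ a * (2 * d) := mul_le_mul_of_nonneg_left h1 (Nat.cast_nonneg _)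
    have h3 : (0 : ℝ) ≤ 2 * d * a := by positivity
    split_ifs <;> linarith
  have hfs : (Function.support f).Finite := (box d N).finite_toSet.subset fun x hx => by
    by_contra h
    exact hx (hout x h)
  rw [En_eq hd hfs]
  have hD0 : 0 ≤ D := by rw [hD]; positivity
  have e1 : ∑' x, f x ^ 2 ≤ D ^ 2 * N ^ d := by
    rw [tsum_eq_sum (s := box d N) fun x hx => by rw [hout x hx]; norm_num]
    calc ∑ x ∈ box d N, f x ^ 2 ≤ ∑ _x ∈ box d N, D ^ 2 :=
          Finset.sum_le_sum fun x _ => pow_le_pow_left₀ (hf0 x) (hfD x) 2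
      _ = D ^ 2 * N ^ d := by
          rw [Finset.sum_const, card_box, nsmul_eq_mul, mul_comm]
          push_cast
          rfl
  set Bd : Finset (Site d) := (univ : Finset (Step d)).biUnion fun s =>
    (box d N).filter fun x => x + vec s ∉ box d N with hBd
  have hBc : (Bd.card : ℝ) ≤ 2 * d * N ^ (d - 1) := by
    have h1 : Bd.card ≤ 2 * d * N ^ (d - 1) := by
      refine Finset.card_biUnion_le.trans ?_
      refine (Finset.sum_le_sum fun s _ => card_bd s).trans (le_of_eq ?_)
      rw [Finset.sum_const, Finset.card_univ, Fintype.card_prod, Fintype.card_fin,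
        Fintype.card_bool, smul_eq_mul, mul_comm d 2]
    exact_mod_cast h1
  have h0Bd : (0 : Site d) ∈ Bd := by
    rw [hBd, Finset.mem_biUnion]
    refine ⟨(⟨0, hd⟩, false), Finset.mem_univ _, Finset.mem_filter.mpr ⟨h0box, ?_⟩⟩
    intro h
    have h1 := (mem_box.mp h ⟨0, hd⟩).1
    simp [vec] at h1
  have hint : ∀ x ∈ box d N, x ∉ Bd → f x = 2 * d * a ∧ ∀ s : Step d, x + vec s ∈ box d N := by
    intro x hx hxB
    have h1 : ∀ s : Step d, x + vec s ∈ box d N := by
      intro s
      by_contra h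
      exact hxB (Finset.mem_biUnion.mpr ⟨s, Finset.mem_univ _, Finset.mem_filter.mpr ⟨hx, h⟩⟩)
    refine ⟨?_, h1⟩
    have h2 : deg N x = 2 * d := by
      rw [deg, Finset.filter_true_of_mem fun s _ => h1 s, Finset.card_univ, Fintype.card_prod,
        Fintype.card_fin, Fintype.card_bool, mul_comm]
    rw [hf, if_pos hx, if_neg, h2]
    · push_cast
      ring
    · rintro rfl
      exact hxB h0Bd
  have e2 : ∀ i : Fin d, ∑' x, (f (x + vec (i, true)) - f x) ^ 2 ≤
      2 * (2 * d * N ^ (d - 1)) * D ^ 2 := by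
    intro i
    set U : Finset (Site d) := Bd ∪ Bd.image fun x => x - vec (i, true) with hU
    have hUc : (U.card : ℝ) ≤ 2 * (2 * d * N ^ (d - 1)) := by
      have h1 : U.card ≤ Bd.card + Bd.card :=
        (Finset.card_union_le _ _).trans (Nat.add_le_add_left Finset.card_image_le _)
      have h2 : (U.card : ℝ) ≤ Bd.card + Bd.card := by exact_mod_cast h1
      linarith
    have hz : ∀ x, x ∉ U → (f (x + vec (i, true)) - f x) ^ 2 = 0 := by
      intro x hx
      rw [hU, Finset.mem_union, not_or] at hx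
      have hx2 : x + vec (i, true) ∉ Bd := fun h =>
        hx.2 (Finset.mem_image.mpr ⟨_, h, add_sub_cancel_right _ _⟩)
      by_cases h1 : x ∈ box d N
      · obtain ⟨h2, h3⟩ := hint x h1 hx.1
        obtain ⟨h4, _⟩ := hint _ (h3 (i, true)) hx2
        rw [h2, h4, sub_self]
        norm_num
      · by_cases h2 : x + vec (i, true) ∈ box d N
        · exfalso
          obtain ⟨_, h4⟩ := hint _ h2 hx2
          have h5 := h4 (i, false)
          have : x + vec (i, true) + vec (i, false) = x := by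
            have : (vec (i, false) : Site d) = -vec (i, true) := by simp [vec]
            rw [this]
            abel
          rw [this] at h5
          exact h1 h5
        · rw [hout _ h1, hout _ h2]
          norm_num
    rw [tsum_eq_sum (s := U) fun x hx => hz x hx]
    calc ∑ x ∈ U, (f (x + vec (i, true)) - f x) ^ 2 ≤ ∑ _x ∈ U, D ^ 2 := by
          refine Finset.sum_le_sum fun x _ => ?_
          have h1 := hf0 x
          have h2 := hf0 (x + vec (i, true))
          have h3 := hfD x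
          have h4 := hfD (x + vec (i, true))
          exact sq_le_sq' (by linarith) (by linarith)
      _ = U.card * D ^ 2 := by rw [Finset.sum_const, nsmul_eq_mul]
      _ ≤ _ := mul_le_mul_of_nonneg_right hUc (sq_nonneg _)
  have e3 : ∑ i : Fin d, ∑' x, (f (x + vec (i, true)) - f x) ^ 2 ≤
      d * (2 * (2 * d * N ^ (d - 1)) * D ^ 2) := by
    refine (Finset.sum_le_sum fun i _ => e2 i).trans (le_of_eq ?_)
    rw [Finset.sum_const, Finset.card_univ, Fintype.card_fin, nsmul_eq_mul]
  have hd0 : (0 : ℝ) < d := by exact_mod_cast hd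
  have e4 : γ / (2 * d) * ∑ i : Fin d, ∑' x, (f (x + vec (i, true)) - f x) ^ 2 ≤
      γ * (D ^ 2 * (2 * d * N ^ (d - 1))) := by
    calc _ ≤ γ / (2 * d) * (d * (2 * (2 * d * N ^ (d - 1)) * D ^ 2)) :=
          mul_le_mul_of_nonneg_left e3 (by positivity)
      _ = _ := by field_simp
  have e5 : (β - γ) * ∑' x, f x ^ 2 ≤ (β - γ) * (D ^ 2 * N ^ d) :=
    mul_le_mul_of_nonneg_left e1 (by linarith)
  linarith

/-- The choice of the height. -/
theorem height (hd : 0 < d) {C ε : ℝ} (hC : 0 ≤ C) (hε : 0 < ε) : ∃ δ₀ : ℝ, 0 < δ₀ ∧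
    ∀ δ : ℝ, 0 < δ → δ ≤ δ₀ → 0 < SS δ ∧ ∃ a : ℕ, 1 ≤ a ∧
      1 / 2 * Real.log a + C + δ * (2 * d * a + 1) ^ 2 ≤ (1 + ε) * (2 * d * a) * SS δ := by
  have hd1 : (1 : ℝ) ≤ d := by exact_mod_cast hd
  set C' : ℝ := C + (2 * d + 1) + (2 * d + 1) ^ 2 with hC'
  have hC'0 : 0 ≤ C' := by positivity
  set L₀ : ℝ := 4 + 4 / ε ^ 2 + 4 * C' / ε with hL₀
  refine ⟨Real.exp (-L₀), Real.exp_pos _, fun δ hδ hδ0 => ?_⟩
  set L : ℝ := Real.log (1 / δ) with hL
  have hLL : L₀ ≤ L := by
    rw [hL, one_div, Real.log_inv]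
    have := Real.log_le_log hδ hδ0
    rw [Real.log_exp] at this
    linarith
  have h4 : 4 ≤ L := by
    have : 0 ≤ 4 / ε ^ 2 + 4 * C' / ε := by positivity
    linarith
  have hL0 : 0 < L := by linarith
  have hδ1 : δ ≤ 1 := hδ0.trans (Real.exp_le_one_iff.mpr (by
    have : 0 ≤ L₀ := by positivity
    linarith))
  have hδL : δ * L ≤ 1 := by
    have h1 : L ≤ 1 / δ := by
      rw [hL]
      exact (Real.log_le_sub_one_of_pos (by positivity)).trans (by linarith)
    calc δ * L ≤ δ * (1 / δ) := mul_le_mul_of_nonneg_left h1 hδ.le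
      _ = 1 := by field_simp
  set u : ℝ := Real.sqrt (L / δ) with hu
  have hu0 : 0 < u := Real.sqrt_pos.mpr (by positivity)
  have husq : u ^ 2 = L / δ := Real.sq_sqrt (by positivity)
  have hδu2 : δ * u ^ 2 = L := by
    rw [husq]
    field_simp
  have hS : SS δ = δ * u := by
    unfold SS
    rw [← hL, Real.sqrt_eq_iff_mul_self_eq (by positivity) (by positivity)]
    calc δ * L = δ * (δ * u ^ 2) := by rw [hδu2]
      _ = δ * u * (δ * u) := by ring
  have hS1 : SS δ ≤ 1 := by
    unfold SS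
    rw [← hL]
    calc Real.sqrt (δ * L) ≤ Real.sqrt 1 := Real.sqrt_le_sqrt hδL
      _ = 1 := Real.sqrt_one
  have hu2 : 2 ≤ u := by
    have h1 : (2 : ℝ) ^ 2 ≤ u ^ 2 := by
      rw [husq, le_div_iff₀ hδ]
      nlinarith
    exact le_of_sq_le_sq h1 hu0.le
  refine ⟨by rw [hS]; positivity, ⌈u / (4 * d)⌉₊, ?_, ?_⟩
  · exact Nat.one_le_iff_ne_zero.mpr (Nat.ceil_pos.mpr (by positivity)).ne'
  set a : ℕ := ⌈u / (4 * d)⌉₊ with ha
  have ha1 : u / (4 * d) ≤ a := Nat.le_ceil _
  have ha2 : (a : ℝ) < u / (4 * d) + 1 := Nat.ceil_lt_add_one (by positivity)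
  have hd4 : (0 : ℝ) < 4 * d := by positivity
  have ha3 : u / 2 ≤ 2 * d * a := by
    rw [div_le_iff₀ hd4] at ha1
    linarith
  have ha4 : 2 * d * (a : ℝ) ≤ u / 2 + 2 * d := by
    have h1 : 2 * d * (a : ℝ) ≤ 2 * d * (u / (4 * d) + 1) :=
      mul_le_mul_of_nonneg_left ha2.le (by positivity)
    have h2 : 2 * (d : ℝ) * (u / (4 * d) + 1) = u / 2 + 2 * d := by
      field_simp
      ring
    linarith
  have ha0 : (0 : ℝ) < a := lt_of_lt_of_le (by positivity) ha1
  have hau : (a : ℝ) ≤ u := by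
    have h1 : u / (4 * d) ≤ u / 4 := by
      apply div_le_div_of_nonneg_left hu0.le (by norm_num)
      linarith
    linarith
  have hlog : Real.log a ≤ (Real.log L + L) / 2 := by
    have h1 : Real.log a ≤ Real.log u := Real.log_le_log ha0 hau
    have h2 : Real.log u = (Real.log L + L) / 2 := by
      have h3 : 2 * Real.log u = Real.log (L / δ) := by
        rw [← husq, Real.log_pow]
        norm_num
      rw [div_eq_mul_one_div L δ, Real.log_mul hL0.ne' (by positivity), ← hL] at h3
      linarith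
    linarith
  have hlogL : Real.log L ≤ ε * L := by
    have h1 : Real.log L ≤ 2 * Real.sqrt L := by
      have h2 : Real.log L = 2 * Real.log (Real.sqrt L) := by
        rw [Real.log_sqrt hL0.le]
        ring
      have h3 : Real.log (Real.sqrt L) ≤ Real.sqrt L :=
        (Real.log_le_sub_one_of_pos (Real.sqrt_pos.mpr hL0)).trans (by linarith)
      linarith
    have h2 : 2 / ε ≤ Real.sqrt L := by
      apply Real.le_sqrt_of_sq_le
      have h3 : (2 / ε) ^ 2 = 4 / ε ^ 2 := by
        rw [div_pow]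
        norm_num
      rw [h3]
      have : 0 ≤ 4 * C' / ε := by positivity
      linarith
    have h3 : Real.sqrt L * Real.sqrt L = L := Real.mul_self_sqrt hL0.le
    have h4 : 2 ≤ ε * Real.sqrt L := by
      rw [div_le_iff₀ hε] at h2
      linarith
    have h5 : 2 * Real.sqrt L ≤ ε * L := by
      nlinarith [Real.sqrt_nonneg L]
    linarith
  have hC'L : C' ≤ ε * L / 4 := by
    have h1 : 4 * C' / ε ≤ L := by
      have : 0 ≤ 4 / ε ^ 2 := by positivity
      linarith
    rw [div_le_iff₀ hε] at h1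
    linarith
  have hq : δ * (2 * d * a + 1) ^ 2 ≤ L / 4 + (2 * d + 1) + (2 * d + 1) ^ 2 := by
    have h1 : (2 * d * (a : ℝ) + 1) ^ 2 ≤ (u / 2 + (2 * d + 1)) ^ 2 :=
      pow_le_pow_left₀ (by positivity) (by linarith) 2
    have h2 : δ * (u / 2 + (2 * d + 1)) ^ 2 =
        δ * u ^ 2 / 4 + SS δ * (2 * d + 1) + δ * (2 * d + 1) ^ 2 := by
      rw [hS]
      ring
    have h3 : SS δ * (2 * d + 1) ≤ 1 * (2 * d + 1) :=
      mul_le_mul_of_nonneg_right hS1 (by positivity)
    have h4 : δ * (2 * (d : ℝ) + 1) ^ 2 ≤ 1 * (2 * d + 1) ^ 2 :=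
      mul_le_mul_of_nonneg_right hδ1 (by positivity)
    have h5 := mul_le_mul_of_nonneg_left h1 hδ.le
    rw [h2, hδu2] at h5
    linarith
  have hr : (1 + ε) * (L / 2) ≤ (1 + ε) * (2 * d * a) * SS δ := by
    rw [mul_assoc]
    refine mul_le_mul_of_nonneg_left ?_ (by linarith)
    rw [hS]
    calc L / 2 = u / 2 * (δ * u) := by
          rw [← hδu2]
          ring
      _ ≤ 2 * d * a * (δ * u) := mul_le_mul_of_nonneg_right ha3 (by positivity)
  rw [hC'] at hC'L
  linarith

theorem pow_succ_le {N : ℕ} (hN : 1 ≤ N) : ∀ k : ℕ,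
    (N + 1) ^ (k + 1) ≤ N ^ (k + 1) + (k + 1) * 2 ^ k * N ^ k := by
  intro k
  induction k with
  | zero => simp
  | succ k ih =>
    have h1 : (N + 1) ^ (k + 1) ≤ (2 * N) ^ (k + 1) := Nat.pow_le_pow_left (by omega) _
    calc (N + 1) ^ (k + 1 + 1) = (N + 1) ^ (k + 1) * N + (N + 1) ^ (k + 1) := by ring
      _ ≤ (N ^ (k + 1) + (k + 1) * 2 ^ k * N ^ k) * N + (2 * N) ^ (k + 1) :=
          Nat.add_le_add (Nat.mul_le_mul_right _ ih) h1
      _ = N ^ (k + 1 + 1) + ((k + 1) * 2 ^ k + 2 ^ (k + 1)) * N ^ (k + 1) := by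
          rw [mul_pow]
          ring
      _ ≤ _ := by
          refine Nat.add_le_add_left (Nat.mul_le_mul_right _ ?_) _
          have : (k + 1 + 1) * 2 ^ (k + 1) = (k + 1) * 2 ^ k + (k + 1) * 2 ^ k + 2 ^ (k + 1) := by
            ring
          omega

theorem lineU_le_one' (r : ℕ) (i : Fin d) (x : Site d) : lineU r (i, false) x ≤ 1 := by
  refine sum_range_le_one r _ _ (fun i => by split_ifs <;> simp) fun t t' ht ht' => ?_
  have e1 : x = (t + 1) • vec (i, false) := by
    by_contra hh; exact ht (if_neg hh)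
  have e2 : x = (t' + 1) • vec (i, false) := by
    by_contra hh; exact ht' (if_neg hh)
  have e3 := congrFun (e1.symm.trans e2) i
  simp only [Pi.smul_apply, vec, Bool.false_eq_true, if_false, Pi.neg_apply, Pi.single_eq_same,
    nsmul_eq_mul] at e3
  push_cast at e3
  omega

/-- The energy of a word of the box, followed by a straight line. -/
theorem En_word (hd : 0 < d) {β γ : ℝ} (hγ : 0 ≤ γ) (hβ : γ ≤ β) {a N : ℕ} (ha : 1 ≤ a)
    (hN : 1 ≤ N) {w : List (Step d)} (hw0 : endp w = 0)
    (hw : ∀ x, lt w x = if x ∈ box d N then a * deg N x else 0) (r : ℕ) :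
    En β γ (loc (w ++ List.replicate r (⟨0, hd⟩, false))) ≤
      (β - γ) * ((2 * d * a + 1) ^ 2 * N ^ d) +
      γ * ((2 * d * a + 1) ^ 2 * (2 * d * N ^ (d - 1))) + β * r := by
  classical
  set s : Step d := (⟨0, hd⟩, false) with hs
  set v : Site d → ℝ := fun x => (lt (List.replicate r s) x : ℝ) with hv
  have h1 : loc (w ++ List.replicate r s) = fun x => loc w x + v x := by
    funext x
    rw [loc, loc, lt_append, hw0, sub_zero, hv]
    push_cast
    ring
  have h0box : (0 : Site d) ∈ box d N := mem_box.mpr fun i => by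
    rw [Pi.zero_apply]
    exact ⟨le_rfl, by exact_mod_cast hN⟩
  have hv0 : ∀ x, 0 ≤ v x := fun x => Nat.cast_nonneg _
  have hvs : (Function.support v).Finite := fs_cast (lt_support _)
  have hv1 : ∀ x, v x ≤ 1 := by
    intro x
    rw [hv]
    simp only
    rw [lt_replicate]
    exact_mod_cast lineU_le_one' r ⟨0, hd⟩ x
  have hu0 : ∀ x, 0 ≤ loc w x := by
    intro x
    rw [loc]
    split_ifs <;> positivity
  have huv : ∀ x, loc w x * v x = 0 := by
    intro x
    by_cases hx : x ∈ box d N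
    · have h2 : v x = 0 := by
        rw [hv]
        simp only
        rw [lt_replicate, lineU]
        norm_cast
        refine Finset.sum_eq_zero fun i _ => if_neg ?_
        rintro rfl
        have h3 := (mem_box.mp hx ⟨0, hd⟩).1
        simp only [hs, Pi.smul_apply, vec, Bool.false_eq_true, if_false, Pi.neg_apply,
          Pi.single_eq_same, nsmul_eq_mul] at h3
        push_cast at h3
        omega
      rw [h2, mul_zero]
    · rw [loc, hw, if_neg hx, if_neg (by rintro rfl; exact hx h0box)]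
      simp
  rw [h1]
  refine (En_split hγ (fs_loc w) hvs hu0 hv0 huv).trans (add_le_add ?_ ?_)
  · refine En_box hd hγ hβ ha hN fun x => ?_
    rw [loc, hw]
    split_ifs <;> push_cast <;> rfl
  · refine mul_le_mul_of_nonneg_left ?_ (hγ.trans hβ)
    calc ∑' x, v x ^ 2 ≤ ∑' x, v x := by
          refine Summable.tsum_le_tsum (fun x => ?_) (summable_fs (fs_sq hvs)) (summable_fs hvs)
          rw [sq]
          calc v x * v x ≤ 1 * v x := mul_le_mul_of_nonneg_right (hv1 x) (hv0 x)
            _ = v x := one_mul _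
      _ = r := by
          rw [hv, tsum_lt, List.length_replicate]

end LowAux

open LowAux

theorem low (h : ∀ d : ℕ, 0 < d → BoxStmt d) : LOW_stmt := by
  classical
  intro d hd B ε hB hε
  obtain ⟨C, hC, hbox⟩ := h d hd
  obtain ⟨δ₀, hδ₀, hheight⟩ := height hd hC (half_pos hε)
  refine ⟨δ₀, hδ₀, fun β γ hγ hγβ hβB hδ => ?_⟩
  obtain ⟨hS, a, ha, hha⟩ := hheight (β - γ) (by linarith) hδ
  set δ : ℝ := β - γ with hδd
  set S : ℝ := SS δ with hSd
  set D : ℝ := (2 * d * a + 1) ^ 2 with hD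
  set c : ℝ := Real.log (2 * d) with hc
  have hd1 : (1 : ℝ) ≤ d := by exact_mod_cast hd
  have hc0 : 0 ≤ c := Real.log_nonneg (by linarith)
  have ha1 : (1 : ℝ) ≤ a := by exact_mod_cast ha
  set C₁ : ℝ := 2 * d * (d * 2 ^ (d - 1) + 1) with hC₁
  set Q : ℝ := C * a + B * D * (2 * d) + (B + c) * (a * C₁) with hQ
  have hQ0 : 0 ≤ Q := by positivity
  obtain ⟨N₀, hN₀⟩ := exists_nat_ge (2 * Q / (ε * S) + 1)
  have hN₀1 : 1 ≤ N₀ := by
    have h1 : (1 : ℝ) ≤ N₀ := by
      have : 0 ≤ 2 * Q / (ε * S) := by positivity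
      linarith
    exact_mod_cast h1
  have hQN : Q ≤ ε / 2 * S * N₀ := by
    have h1 : 2 * Q / (ε * S) ≤ N₀ := by linarith
    rw [div_le_iff₀ (by positivity)] at h1
    linarith
  refine ⟨2 * d * a * N₀ ^ d, fun n hn => ?_⟩
  -- the side of the box
  have hda : 1 ≤ 2 * d * a := Nat.one_le_iff_ne_zero.mpr (by positivity)
  have hN₀n : N₀ ≤ n := by
    calc N₀ = 1 * N₀ ^ 1 := by ring
      _ ≤ 2 * d * a * N₀ ^ d :=
        Nat.mul_le_mul hda (Nat.pow_le_pow_right hN₀1 hd)
      _ ≤ n := hn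
  set N := Nat.findGreatest (fun N => 2 * d * a * N ^ d ≤ n) n with hN
  have hNN₀ : N₀ ≤ N := Nat.le_findGreatest hN₀n hn
  have hN1 : 1 ≤ N := hN₀1.trans hNN₀
  have hNn : 2 * d * a * N ^ d ≤ n :=
    Nat.findGreatest_spec (P := fun N => 2 * d * a * N ^ d ≤ n) hN₀n hn
  have hNn' : n < 2 * d * a * (N + 1) ^ d := by
    by_contra hcon
    rw [not_lt] at hcon
    by_cases hlt : N + 1 ≤ n
    · have := Nat.le_findGreatest (P := fun N => 2 * d * a * N ^ d ≤ n) hlt hcon
      rw [← hN] at this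
      omega
    · have h1 : N + 1 ≤ 2 * d * a * (N + 1) ^ d := by
        calc N + 1 = 1 * (N + 1) ^ 1 := by ring
          _ ≤ 2 * d * a * (N + 1) ^ d :=
            Nat.mul_le_mul hda (Nat.pow_le_pow_right (by omega) hd)
      omega
  obtain ⟨W, hWne, hW, hWc⟩ := hbox a N ha hN1
  set T : ℕ := ∑ x ∈ box d N, a * deg N x with hT
  have hT1 : T ≤ 2 * d * a * N ^ d := by
    rw [hT]
    calc ∑ x ∈ box d N, a * deg N x ≤ ∑ _x ∈ box d N, a * (2 * d) :=
          Finset.sum_le_sum fun x _ => Nat.mul_le_mul_left _ (deg_le x)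
      _ = 2 * d * a * N ^ d := by
          rw [Finset.sum_const, card_box, smul_eq_mul]
          ring
  have hT2 : 2 * d * a * N ^ d ≤ T + 2 * d * a * N ^ (d - 1) := by
    have h1 := Nat.mul_le_mul_left a (sum_deg (d := d) N)
    rw [mul_add, Finset.mul_sum, ← hT] at h1
    calc 2 * d * a * N ^ d = a * (2 * d * N ^ d) := by ring
      _ ≤ T + a * (2 * d * N ^ (d - 1)) := h1
      _ = _ := by ring
  have hTn : T ≤ n := hT1.trans hNn
  set r : ℕ := n - T with hr
  have hrT : (n : ℝ) = T + r := by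
    have : n = T + r := by omega
    exact_mod_cast this
  have hrle : (r : ℝ) ≤ a * C₁ * N ^ (d - 1) := by
    have h1 : r ≤ 2 * d * a * ((d * 2 ^ (d - 1) + 1) * N ^ (d - 1)) := by
      have h2 := pow_succ_le hN1 (d - 1)
      rw [show d - 1 + 1 = d by omega] at h2
      have h3 := Nat.mul_le_mul_left (2 * d * a) h2
      rw [mul_add] at h3
      have h4 : 2 * d * a * ((d * 2 ^ (d - 1) + 1) * N ^ (d - 1)) =
          2 * d * a * (d * 2 ^ (d - 1) * N ^ (d - 1)) + 2 * d * a * N ^ (d - 1) := by ring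
      rw [h4]
      omega
    have h2 : (r : ℝ) ≤ 2 * d * a * ((d * 2 ^ (d - 1) + 1) * N ^ (d - 1)) := by exact_mod_cast h1
    rw [hC₁]
    calc (r : ℝ) ≤ _ := h2
      _ = _ := by ring
  -- the words
  set s : Step d := (⟨0, hd⟩, false) with hs
  set E : ℝ := δ * (D * N ^ d) + γ * (D * (2 * d * N ^ (d - 1))) + β * r with hE
  set W' := W.image fun w => w ++ List.replicate r s with hW'
  have hW'c : W'.card = W.card := Finset.card_image_of_injective _ (List.append_left_injective _)
  have hsub : W' ⊆ allw d n := by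
    intro w hw
    obtain ⟨w', hw', rfl⟩ := Finset.mem_image.mp hw
    rw [mem_allw, List.length_append, List.length_replicate, (hW w' hw').1]
    omega
  have hZ : (W.card : ℝ) * Real.exp (-E) ≤ Zw d β γ n := by
    calc (W.card : ℝ) * Real.exp (-E) = ∑ _w ∈ W', Real.exp (-E) := by
          rw [Finset.sum_const, nsmul_eq_mul, hW'c]
      _ ≤ ∑ w ∈ W', Real.exp (-En β γ (loc w)) := by
        refine Finset.sum_le_sum fun w hw => ?_
        obtain ⟨w', hw', rfl⟩ := Finset.mem_image.mp hw
        refine Real.exp_le_exp.mpr (neg_le_neg ?_)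
        exact En_word hd hγ hγβ.le ha hN1 (hW w' hw').2.1 (hW w' hw').2.2 r
      _ ≤ _ := Finset.sum_le_sum_of_subset_of_nonneg hsub fun w _ _ => (Real.exp_pos _).le
  refine le_trans ?_ hZ
  have hWc0 : (0 : ℝ) < W.card := by exact_mod_cast Finset.card_pos.mpr hWne
  have hpow : ((2 : ℝ) * d) ^ n = Real.exp (n * c) := by
    rw [hc, Real.exp_nat_mul, Real.exp_log (by positivity)]
  rw [hpow, ← Real.exp_add]
  rw [show (W.card : ℝ) * Real.exp (-E) = Real.exp (Real.log W.card + -E) by
    rw [Real.exp_add, Real.exp_log hWc0]]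
  refine Real.exp_le_exp.mpr ?_
  -- the final count
  have hN0 : (0 : ℝ) ≤ (N : ℝ) ^ d := by positivity
  have hN0' : (0 : ℝ) ≤ (N : ℝ) ^ (d - 1) := by positivity
  have f1 : (T : ℝ) ≤ 2 * d * a * N ^ d := by exact_mod_cast hT1
  have f2 : 2 * d * a * (N : ℝ) ^ d ≤ n := by exact_mod_cast hNn
  have f3 : (n : ℝ) * c ≤ 2 * d * a * N ^ d * c + r * c := by
    rw [hrT, add_mul]
    have := mul_le_mul_of_nonneg_right f1 hc0
    linarith
  have f4 : (N : ℝ) ^ d * (1 / 2 * Real.log a + C + δ * D) ≤ (1 + ε / 2) * S * n := by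
    calc (N : ℝ) ^ d * (1 / 2 * Real.log a + C + δ * D) ≤
          (N : ℝ) ^ d * ((1 + ε / 2) * (2 * d * a) * S) := mul_le_mul_of_nonneg_left hha hN0
      _ = (1 + ε / 2) * S * (2 * d * a * N ^ d) := by ring
      _ ≤ _ := mul_le_mul_of_nonneg_left f2 (by positivity)
  have f5 : (N : ℝ) ^ (d - 1) * (C * a + γ * D * (2 * d)) + r * (c + β) ≤ ε / 2 * S * n := by
    have g1 : r * (c + β) ≤ N ^ (d - 1) * ((B + c) * (a * C₁)) := by
      calc r * (c + β) ≤ (a * C₁ * N ^ (d - 1)) * (c + B) := by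
            refine mul_le_mul hrle (by linarith) (by linarith) (by positivity)
        _ = _ := by ring
    have g2 : γ * D * (2 * d) ≤ B * D * (2 * d) := by
      have : γ ≤ B := by linarith
      have hD0 : 0 ≤ D := by positivity
      gcongr
    have g3 : (N : ℝ) ^ (d - 1) * (C * a + γ * D * (2 * d)) ≤
        N ^ (d - 1) * (C * a + B * D * (2 * d)) :=
      mul_le_mul_of_nonneg_left (by linarith) hN0'
    have g4 : (N : ℝ) ^ (d - 1) * Q ≤ N ^ (d - 1) * (ε / 2 * S * N) := by
      refine mul_le_mul_of_nonneg_left (hQN.trans ?_) hN0'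
      refine mul_le_mul_of_nonneg_left ?_ (by positivity)
      exact_mod_cast hNN₀
    have g5 : (N : ℝ) ^ (d - 1) * (ε / 2 * S * N) ≤ ε / 2 * S * n := by
      have e1 : (N : ℝ) ^ (d - 1) * N = N ^ d := by
        rw [← pow_succ, show d - 1 + 1 = d by omega]
      have e2 : (N : ℝ) ^ d ≤ n := by
        refine le_trans ?_ f2
        have : (1 : ℝ) ≤ 2 * d * a := by exact_mod_cast hda
        calc (N : ℝ) ^ d = 1 * N ^ d := (one_mul _).symm
          _ ≤ _ := mul_le_mul_of_nonneg_right this hN0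
      calc (N : ℝ) ^ (d - 1) * (ε / 2 * S * N) = ε / 2 * S * (N ^ (d - 1) * N) := by ring
        _ = ε / 2 * S * N ^ d := by rw [e1]
        _ ≤ _ := mul_le_mul_of_nonneg_left e2 (by positivity)
    rw [hQ, mul_add] at g4
    linarith
  rw [hE]
  linarith

end Pool.Agent.DFE
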