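import Pool.Agent.Lib.DFE.Defs7
import Pool.Agent.Lib.DFE.LOW

/-!
# Row PEN: the energy of the pyramid
-/

set_option autoImplicit false

namespace Pool.Agent.DFE

open Finset Pool.Agent.DCOL

namespace PenAux

open LowAux

variable {d : ℕ}

theorem qq_le (hd : 0 < d) (h N : ℕ) (x : Site d) (s : Step d) : qq h N x s ≤ min h N := by
  unfold qq
  have h1 : ((Finset.range h).filter fun j : ℕ => ∀ i, ((j : ℤ) ≤ x i ∧ x i + j < N) ∧
      (j : ℤ) ≤ (x + vec s) i ∧ (x + vec s) i + j < N) ⊆ Finset.range (min h N) := by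
    intro j hj
    rw [Finset.mem_filter, Finset.mem_range] at hj
    have h2 := (hj.2 ⟨0, hd⟩).1
    rw [Finset.mem_range]
    omega
  refine (Finset.card_le_card h1).trans ?_
  rw [Finset.card_range]

theorem qq_out {h N : ℕ} {x : Site d} (hx : x ∉ box d N) (s : Step d) : qq h N x s = 0 := by
  unfold qq
  rw [Finset.card_eq_zero, Finset.filter_eq_empty_iff]
  intro j _ hj
  apply hx
  rw [mem_box]
  intro i
  have h1 := (hj i).1
  omega

theorem vec_abs (s : Step d) (i : Fin d) : (vec s : Site d) i ≤ 1 ∧ -1 ≤ (vec s : Site d) i := by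
  unfold vec
  split_ifs
  · rw [Pi.single_apply]
    split_ifs <;> omega
  · rw [Pi.neg_apply, Pi.single_apply]
    split_ifs <;> omega

theorem qq_near (h N : ℕ) {x y : Site d} (hxy : ∀ i, y i ≤ x i + 1 ∧ x i ≤ y i + 1) (s : Step d) :
    qq h N x s ≤ qq h N y s + 1 := by
  unfold qq
  have h1 : (((Finset.range h).filter fun j : ℕ => ∀ i, ((j : ℤ) ≤ x i ∧ x i + j < N) ∧
      (j : ℤ) ≤ (x + vec s) i ∧ (x + vec s) i + j < N)) ⊆
      insert 0 ((((Finset.range h).filter fun j : ℕ => ∀ i, ((j : ℤ) ≤ y i ∧ y i + j < N) ∧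
      (j : ℤ) ≤ (y + vec s) i ∧ (y + vec s) i + j < N)).image Nat.succ) := by
    intro j hj
    rw [Finset.mem_filter, Finset.mem_range] at hj
    rw [Finset.mem_insert, Finset.mem_image]
    rcases Nat.eq_zero_or_pos j with h0 | h0
    · exact Or.inl h0
    · right
      refine ⟨j - 1, ?_, by omega⟩
      rw [Finset.mem_filter, Finset.mem_range]
      refine ⟨by omega, fun i => ?_⟩
      have h2 := hj.2 i
      have h3 := hxy i
      simp only [Pi.add_apply] at h2 ⊢
      push_cast [h0]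
      refine ⟨⟨by omega, by omega⟩, by omega, by omega⟩
  refine (Finset.card_le_card h1).trans ((Finset.card_insert_le _ _).trans ?_)
  exact Nat.add_le_add_right Finset.card_image_le _

theorem prf_le (hd : 0 < d) (A h N : ℕ) (x : Site d) :
    prf A h N x ≤ 2 * d * A * min h N := by
  unfold prf
  have h1 : ∑ s : Step d, qq h N x s ≤ ∑ _s : Step d, min h N :=
    Finset.sum_le_sum fun s _ => qq_le hd h N x s
  rw [Finset.sum_const, Finset.card_univ, Fintype.card_prod, Fintype.card_fin, Fintype.card_bool,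
    smul_eq_mul] at h1
  calc A * ∑ s : Step d, qq h N x s ≤ A * (d * 2 * min h N) := Nat.mul_le_mul_left _ h1
    _ = 2 * d * A * min h N := by ring

theorem prf_out {A h N : ℕ} {x : Site d} (hx : x ∉ box d N) : prf A h N x = 0 := by
  unfold prf
  rw [Finset.sum_eq_zero fun s _ => qq_out hx s, mul_zero]

theorem prf_near (A h N : ℕ) {x y : Site d} (hxy : ∀ i, y i ≤ x i + 1 ∧ x i ≤ y i + 1) :
    prf A h N x ≤ prf A h N y + 2 * d * A := by
  unfold prf
  have h1 : ∑ s : Step d, qq h N x s ≤ ∑ s : Step d, (qq h N y s + 1) :=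
    Finset.sum_le_sum fun s _ => qq_near h N hxy s
  rw [Finset.sum_add_distrib, Finset.sum_const, Finset.card_univ, Fintype.card_prod,
    Fintype.card_fin, Fintype.card_bool, smul_eq_mul, mul_one] at h1
  calc A * ∑ s : Step d, qq h N x s ≤ A * (∑ s : Step d, qq h N y s + d * 2) :=
        Nat.mul_le_mul_left _ h1
    _ = A * ∑ s : Step d, qq h N y s + 2 * d * A := by ring

/-- The energy of the pyramid. -/
theorem En_prf (hd : 0 < d) {β γ : ℝ} (hγ : 0 ≤ γ) (hβ : γ ≤ β) {A h N : ℕ} (hA : 1 ≤ A)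
    (hh : 1 ≤ h) (hN : 2 ≤ N) {f : Site d → ℝ}
    (hf : ∀ x, f x = (if x = 0 then 1 else 0) + (prf A h N x : ℝ)) :
    En β γ f ≤ (β - γ) * (9 * d ^ 2 * ((A : ℝ) * min h N) ^ 2 * N ^ d) +
      γ * (9 * d ^ 2 * (A : ℝ) ^ 2 * N ^ d) := by
  classical
  have hd1 : (1 : ℝ) ≤ d := by exact_mod_cast hd
  have hd0 : (0 : ℝ) < d := by linarith
  have hA1 : (1 : ℝ) ≤ A := by exact_mod_cast hA
  obtain ⟨m, hm⟩ : ∃ m : ℕ, m = min h N := ⟨_, rfl⟩
  have hm1 : 1 ≤ m := by rw [hm]; exact le_min hh (by omega)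
  have hm1' : (1 : ℝ) ≤ m := by exact_mod_cast hm1
  rw [← hm]
  have h0box : (0 : Site d) ∈ box d N := mem_box.mpr fun i => by
    rw [Pi.zero_apply]
    exact ⟨le_rfl, by exact_mod_cast (by omega : 0 < N)⟩
  have hout : ∀ x, x ∉ box d N → f x = 0 := by
    intro x hx
    rw [hf, prf_out hx, if_neg, Nat.cast_zero, add_zero]
    rintro rfl
    exact hx h0box
  have hf0 : ∀ x, 0 ≤ f x := by
    intro x
    rw [hf]
    split_ifs <;> positivity
  have hAm : (1 : ℝ) ≤ (A : ℝ) * m := by nlinarith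
  have hdA : (1 : ℝ) ≤ d * A := by nlinarith
  have hdAm : (1 : ℝ) ≤ d * (A * m) := by nlinarith
  have hfD : ∀ x, f x ≤ 3 * d * (A * m) := by
    intro x
    rw [hf]
    have h1 : (prf A h N x : ℝ) ≤ 2 * d * A * m := by
      have := prf_le hd A h N x
      rw [← hm] at this
      exact_mod_cast this
    split_ifs <;> nlinarith
  have hfs : (Function.support f).Finite := (box d N).finite_toSet.subset fun x hx => by
    by_contra h
    exact hx (hout x h)
  rw [En_eq hd hfs]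
  have e1 : ∑' x, f x ^ 2 ≤ 9 * d ^ 2 * ((A : ℝ) * m) ^ 2 * N ^ d := by
    rw [tsum_eq_sum (s := box d N) fun x hx => by rw [hout x hx]; norm_num]
    calc ∑ x ∈ box d N, f x ^ 2 ≤ ∑ _x ∈ box d N, (3 * d * ((A : ℝ) * m)) ^ 2 :=
          Finset.sum_le_sum fun x _ => pow_le_pow_left₀ (hf0 x) (hfD x) 2
      _ = 9 * d ^ 2 * ((A : ℝ) * m) ^ 2 * N ^ d := by
          rw [Finset.sum_const, card_box, nsmul_eq_mul]
          push_cast
          ring
  have e2 : ∀ i : Fin d, ∑' x, (f (x + vec (i, true)) - f x) ^ 2 ≤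
      18 * d ^ 2 * (A : ℝ) ^ 2 * N ^ d := by
    intro i
    obtain ⟨U, hU⟩ : ∃ U : Finset (Site d),
      U = box d N ∪ (box d N).image fun x => x - vec (i, true) := ⟨_, rfl⟩
    have hUc : (U.card : ℝ) ≤ 2 * N ^ d := by
      have h1 : U.card ≤ (box d N).card + (box d N).card := by
        rw [hU]
        exact (Finset.card_union_le _ _).trans (Nat.add_le_add_left Finset.card_image_le _)
      rw [card_box] at h1
      have h2 : (U.card : ℝ) ≤ (N : ℝ) ^ d + (N : ℝ) ^ d := by exact_mod_cast h1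
      linarith
    have hz : ∀ x, x ∉ U → (f (x + vec (i, true)) - f x) ^ 2 = 0 := by
      intro x hx
      rw [hU, Finset.mem_union, not_or] at hx
      have hx2 : x + vec (i, true) ∉ box d N := fun h =>
        hx.2 (Finset.mem_image.mpr ⟨_, h, add_sub_cancel_right _ _⟩)
      rw [hout _ hx.1, hout _ hx2]
      norm_num
    have hdiff : ∀ x, |f (x + vec (i, true)) - f x| ≤ 3 * (d * A) := by
      intro x
      have hnear : ∀ j, x j ≤ (x + vec (i, true)) j + 1 ∧ (x + vec (i, true)) j ≤ x j + 1 := by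
        intro j
        have := vec_abs (i, true) j
        rw [Pi.add_apply]
        omega
      have h1 : (prf A h N (x + vec (i, true)) : ℝ) ≤ prf A h N x + 2 * d * A := by
        exact_mod_cast prf_near A h N (fun j => hnear j)
      have h2 : (prf A h N x : ℝ) ≤ prf A h N (x + vec (i, true)) + 2 * d * A := by
        exact_mod_cast prf_near A h N (fun j => (hnear j).symm)
      rw [hf, hf, abs_le]
      constructor <;> split_ifs <;> nlinarith
    rw [tsum_eq_sum (s := U) fun x hx => hz x hx]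
    calc ∑ x ∈ U, (f (x + vec (i, true)) - f x) ^ 2 ≤ ∑ _x ∈ U, (3 * (d * (A : ℝ))) ^ 2 := by
          refine Finset.sum_le_sum fun x _ => ?_
          rw [← sq_abs]
          exact pow_le_pow_left₀ (abs_nonneg _) (hdiff x) 2
      _ = U.card * (3 * (d * (A : ℝ))) ^ 2 := by rw [Finset.sum_const, nsmul_eq_mul]
      _ ≤ (2 * N ^ d) * (3 * (d * (A : ℝ))) ^ 2 :=
          mul_le_mul_of_nonneg_right hUc (sq_nonneg _)
      _ = _ := by ring
  have e3 : ∑ i : Fin d, ∑' x, (f (x + vec (i, true)) - f x) ^ 2 ≤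
      d * (18 * d ^ 2 * (A : ℝ) ^ 2 * N ^ d) := by
    refine (Finset.sum_le_sum fun i _ => e2 i).trans (le_of_eq ?_)
    rw [Finset.sum_const, Finset.card_univ, Fintype.card_fin, nsmul_eq_mul]
  have e4 : γ / (2 * d) * ∑ i : Fin d, ∑' x, (f (x + vec (i, true)) - f x) ^ 2 ≤
      γ * (9 * d ^ 2 * (A : ℝ) ^ 2 * N ^ d) := by
    calc _ ≤ γ / (2 * d) * (d * (18 * d ^ 2 * (A : ℝ) ^ 2 * N ^ d)) :=
          mul_le_mul_of_nonneg_left e3 (by positivity)
      _ = _ := by
          field_simp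
          ring
  have e5 : (β - γ) * ∑' x, f x ^ 2 ≤ (β - γ) * (9 * d ^ 2 * ((A : ℝ) * m) ^ 2 * N ^ d) :=
    mul_le_mul_of_nonneg_left e1 (by linarith)
  linarith

end PenAux

open LowAux PenAux

theorem pen : PEN_stmt := by
  classical
  intro d hd β hβ0
  have hd1 : (1 : ℝ) ≤ d := by exact_mod_cast hd
  refine ⟨9 * d ^ 2 * (1 + β) + β, by positivity, ?_⟩
  intro γ hγ hγβ A h N r hA hh hN w hw0 hw
  obtain ⟨s, hs⟩ : ∃ s : Step d, s = (⟨0, hd⟩, false) := ⟨_, rfl⟩
  rw [← hs]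
  obtain ⟨v, hv⟩ : ∃ v : Site d → ℝ, v = fun x => (lt (List.replicate r s) x : ℝ) := ⟨_, rfl⟩
  have h1 : loc (w ++ List.replicate r s) = fun x => loc w x + v x := by
    funext x
    rw [loc, loc, lt_append, hw0, sub_zero, hv]
    push_cast
    ring
  have h0box : (0 : Site d) ∈ box d N := mem_box.mpr fun i => by
    rw [Pi.zero_apply]
    exact ⟨le_rfl, by exact_mod_cast (by omega : 0 < N)⟩
  have hv0 : ∀ x, 0 ≤ v x := fun x => by rw [hv]; exact Nat.cast_nonneg _
  have hvs : (Function.support v).Finite := by rw [hv]; exact fs_cast (lt_support _)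
  have hv1 : ∀ x, v x ≤ 1 := by
    intro x
    rw [hv]
    simp only
    rw [lt_replicate, hs]
    exact_mod_cast lineU_le_one' r ⟨0, hd⟩ x
  have hu0 : ∀ x, 0 ≤ loc w x := by
    intro x
    rw [loc]
    split_ifs <;> positivity
  have huv : ∀ x, loc w x * v x = 0 := by
    intro x
    by_cases hx : x ∈ box d N
    · have h2 : v x = 0 := by
        rw [hv]
        simp only
        rw [lt_replicate, lineU]
        norm_cast
        refine Finset.sum_eq_zero fun i _ => if_neg ?_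
        rintro rfl
        have h3 := (mem_box.mp hx ⟨0, hd⟩).1
        simp only [hs, Pi.smul_apply, vec, Bool.false_eq_true, if_false, Pi.neg_apply,
          Pi.single_eq_same, nsmul_eq_mul] at h3
        push_cast at h3
        omega
      rw [h2, mul_zero]
    · rw [loc, hw, prf_out hx, if_neg (by rintro rfl; exact hx h0box)]
      simp
  rw [h1]
  have h2 : En β γ (fun x => loc w x + v x) ≤ En β γ (loc w) + β * ∑' x, v x ^ 2 :=
    En_split hγ (fs_loc w) hvs hu0 hv0 huv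
  have h3 : ∑' x, v x ^ 2 ≤ r := by
    calc ∑' x, v x ^ 2 ≤ ∑' x, v x := by
          refine Summable.tsum_le_tsum (fun x => ?_) (summable_fs (fs_sq hvs)) (summable_fs hvs)
          rw [sq]
          calc v x * v x ≤ 1 * v x := mul_le_mul_of_nonneg_right (hv1 x) (hv0 x)
            _ = v x := one_mul _
      _ = r := by
          rw [hv, tsum_lt, List.length_replicate]
  have h4 := En_prf hd hγ hγβ hA hh hN (f := loc w) fun x => by rw [loc, hw]
  obtain ⟨P, hP⟩ : ∃ P : ℝ, P = ((A : ℝ) * min h N) ^ 2 * N ^ d := ⟨_, rfl⟩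
  obtain ⟨R, hR⟩ : ∃ R : ℝ, R = (A : ℝ) ^ 2 * N ^ d := ⟨_, rfl⟩
  have hP0 : 0 ≤ P := by rw [hP]; positivity
  have hR0 : 0 ≤ R := by rw [hR]; positivity
  have h5 : En β γ (loc w) ≤ (β - γ) * (9 * d ^ 2 * P) + γ * (9 * d ^ 2 * R) := by
    rw [hP, hR]
    refine h4.trans (le_of_eq ?_)
    ring
  have h6 : β * ∑' x, v x ^ 2 ≤ β * r := mul_le_mul_of_nonneg_left h3 hβ0.le
  have h7 : γ * (9 * d ^ 2 * R) ≤ β * (9 * d ^ 2 * R) :=
    mul_le_mul_of_nonneg_right hγβ (by positivity)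
  have h8 : (9 * (d : ℝ) ^ 2 * (1 + β) + β) * ((((β - γ) * ((A : ℝ) * min h N) ^ 2 + (A : ℝ) ^ 2) *
      (N : ℝ) ^ d) + r) = (9 * (d : ℝ) ^ 2 * (1 + β) + β) * ((β - γ) * P + R + r) := by
    rw [hP, hR]
    ring
  rw [h8]
  have hD0 : 0 ≤ 9 * (d : ℝ) ^ 2 := by positivity
  have g1 : 0 ≤ (β - γ) * P := mul_nonneg (by linarith) hP0
  have g2 : (0 : ℝ) ≤ r := Nat.cast_nonneg _
  have k1 : 0 ≤ 9 * (d : ℝ) ^ 2 * β * ((β - γ) * P) := by positivity
  have k2 : 0 ≤ β * ((β - γ) * P) := by positivity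
  have k3 : 0 ≤ 9 * (d : ℝ) ^ 2 * R := by positivity
  have k4 : 0 ≤ β * R := by positivity
  have k5 : 0 ≤ 9 * (d : ℝ) ^ 2 * (1 + β) * r := by positivity
  nlinarith

end Pool.Agent.DFE
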