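import Pool.Agent.Lib.DFE.Defs7
import Pool.Agent.Lib.DFE.BOX
import Pool.Agent.Lib.DFE.LIST
import Pool.Agent.Lib.DFE.LOW

/-!
Row PYR: many closed words with pyramidal local times.
-/

set_option autoImplicit false

namespace Pool.Agent.DFE

open Finset Pool.Agent.DCOL BoxAux

namespace PYRAux

variable {d : ℕ}

/-- The number of the layers that contain `x`. -/
noncomputable def tt {d : ℕ} (h N : ℕ) (x : Site d) : ℕ :=
  ((Finset.range h).filter fun j : ℕ => ∀ i, (j : ℤ) ≤ x i ∧ x i + j < N).card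

theorem tt_le (h N : ℕ) (x : Site d) : tt h N x ≤ h :=
  (Finset.card_filter_le _ _).trans (Finset.card_range h).le

theorem qq_le (h N : ℕ) (x : Site d) (s : Step d) : qq h N x s ≤ tt h N x := by
  refine Finset.card_le_card fun j hj => ?_
  rw [Finset.mem_filter] at hj ⊢
  exact ⟨hj.1, fun i => (hj.2 i).1⟩

theorem tt_le_qq (h N : ℕ) (x : Site d) (s : Step d) : tt h N x ≤ qq h N x s + 1 := by
  classical
  unfold tt qq
  set Q := (Finset.range h).filter fun j : ℕ => ∀ i, ((j : ℤ) ≤ x i ∧ x i + j < N) ∧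
    (j : ℤ) ≤ (x + vec s) i ∧ (x + vec s) i + j < N with hQ
  have h1 : ((Finset.range h).filter fun j : ℕ => ∀ i, (j : ℤ) ≤ x i ∧ x i + j < N) ⊆
      insert 0 (Q.image fun j => j + 1) := by
    intro j hj
    rw [Finset.mem_filter, Finset.mem_range] at hj
    rw [Finset.mem_insert]
    rcases Nat.eq_zero_or_pos j with h0 | h0
    · exact Or.inl h0
    · refine Or.inr (Finset.mem_image.mpr ⟨j - 1, ?_, by omega⟩)
      rw [hQ, Finset.mem_filter, Finset.mem_range]
      refine ⟨by omega, fun i => ?_⟩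
      have h2 := hj.2 i
      have h3 := abs_le.mp (abs_vec s i)
      rw [Pi.add_apply]
      push_cast [Nat.cast_sub h0]
      constructor
      · constructor <;> linarith [h2.1, h2.2]
      · constructor <;> linarith [h2.1, h2.2, h3.1, h3.2]
  calc _ ≤ (insert 0 (Q.image fun j => j + 1)).card := Finset.card_le_card h1
    _ ≤ (Q.image fun j => j + 1).card + 1 := Finset.card_insert_le _ _
    _ ≤ Q.card + 1 := Nat.add_le_add_right Finset.card_image_le 1

theorem qq_out {h N : ℕ} {x : Site d} (hx : x ∉ box d N) (s : Step d) : qq h N x s = 0 := by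
  unfold qq
  rw [Finset.card_eq_zero, Finset.filter_eq_empty_iff]
  intro j _ hj
  apply hx
  rw [BoxAux.mem_box]
  intro i
  have := (hj i).1
  omega

theorem qq_opp (h N : ℕ) (y : Site d) (s : Step d) :
    qq h N (y - vec s) s = qq h N y (opp s) := by
  unfold qq
  congr 1
  refine Finset.filter_congr fun j _ => forall_congr' fun i => ?_
  rw [sub_add_cancel, vec_opp, ← sub_eq_add_neg]
  exact and_comm

theorem qq_pr {h N : ℕ} (hh : 1 ≤ h) (hN : 2 ≤ N) (i₀ : Fin d) {x : Site d}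
    (hx : x ∈ box d N) : 1 ≤ qq h N x (pr i₀ x) := by
  unfold qq
  rw [Nat.one_le_iff_ne_zero, Finset.card_ne_zero]
  refine ⟨0, ?_⟩
  rw [Finset.mem_filter, Finset.mem_range]
  refine ⟨hh, fun i => ?_⟩
  have h1 := BoxAux.mem_box.mp hx i
  have h2 := BoxAux.mem_box.mp (pr_box hN i₀ hx) i
  simp only [Nat.cast_zero, add_zero]
  exact ⟨h1, h2⟩

theorem prf_out {A h N : ℕ} {x : Site d} (hx : x ∉ box d N) : prf A h N x = 0 := by
  unfold prf
  rw [Finset.sum_eq_zero fun s _ => qq_out hx s, mul_zero]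

theorem prf_eq (A h N : ℕ) (x : Site d) : ∑ s, A * qq h N x s = prf A h N x := by
  unfold prf
  rw [Finset.mul_sum]

/-- The opposite step. -/
def oppE : Step d ≃ Step d where
  toFun := opp
  invFun := opp
  left_inv s := by obtain ⟨i, b⟩ := s; simp [opp]
  right_inv s := by obtain ⟨i, b⟩ := s; simp [opp]

theorem flow {A h N : ℕ} (par : Site d → Step d) (σ : Site d → List (Step d))
    (h1 : ∀ x ∈ box d N, σ x ∈ lst (fun s => A * qq h N x s) (par x))
    (h2 : ∀ x, x ∉ box d N → σ x = []) (y : Site d) : inn σ y = (σ y).length := by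
  have h3 : ∀ s, (σ (y - vec s)).count s = A * qq h N y (opp s) := by
    intro s
    rw [← qq_opp]
    by_cases hs : y - vec s ∈ box d N
    · exact (Finset.mem_filter.mp (h1 _ hs)).2.1 s
    · rw [h2 _ hs, qq_out hs, mul_zero]
      rfl
  unfold inn
  rw [Finset.sum_congr rfl fun s _ => h3 s]
  have h4 : ∑ s : Step d, A * qq h N y (opp s) = ∑ s, A * qq h N y s :=
    Equiv.sum_comp oppE fun s => A * qq h N y s
  rw [h4]
  by_cases hy : y ∈ box d N
  · rw [mem_allw.mp (Finset.mem_filter.mp (h1 _ hy)).1]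
  · rw [h2 _ hy, List.length_nil]
    refine Finset.sum_eq_zero fun s _ => ?_
    rw [qq_out hy, mul_zero]

/-- The number of the lists at one site. -/
theorem site_low {C₁ : ℝ} (hC₁ : 0 ≤ C₁) (hd : 0 < d)
    (hL : ∀ (m : Step d → ℕ) (t : Step d) (l : ℕ), 1 ≤ m t → ∑ s, m s = l →
      l * Real.log (2 * d) - 2 * d / l * ∑ s, ((m s : ℝ) - l / (2 * d)) ^ 2 -
        C₁ * Real.log (l + 1) ≤ Real.log (lst m t).card)
    {A h N : ℕ} (hA : 1 ≤ A) (hh : 1 ≤ h) (hN : 2 ≤ N) (i₀ : Fin d) {x : Site d}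
    (hx : x ∈ box d N) :
    (prf A h N x : ℝ) * Real.log (2 * d) -
      (4 * d ^ 2 + C₁ * Real.log (2 * d) + C₁) * (A + Real.log (A * h + 1)) ≤
      Real.log (lst (fun s => A * qq h N x s) (pr i₀ x)).card := by
  have hd0 : (0 : ℝ) < d := by exact_mod_cast hd
  have hd1 : (1 : ℝ) ≤ d := by exact_mod_cast hd
  have hA1 : (1 : ℝ) ≤ A := by exact_mod_cast hA
  have hh1 : (1 : ℝ) ≤ h := by exact_mod_cast hh
  have hqp := qq_pr hh hN i₀ hx
  have hm1 : 1 ≤ A * qq h N x (pr i₀ x) := Nat.mul_le_mul hA hqp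
  have h1 := hL (fun s => A * qq h N x s) (pr i₀ x) (prf A h N x) hm1 (prf_eq A h N x)
  set l : ℝ := (prf A h N x : ℝ) with hl
  have hlA : (A : ℝ) ≤ l := by
    have h2 : A * qq h N x (pr i₀ x) ≤ prf A h N x := by
      rw [← prf_eq]
      exact Finset.single_le_sum (f := fun s => A * qq h N x s) (fun s _ => Nat.zero_le _)
        (Finset.mem_univ _)
    have h3 : A * 1 ≤ prf A h N x := (Nat.mul_le_mul_left A hqp).trans h2
    rw [mul_one] at h3
    rw [hl]
    exact_mod_cast h3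
  have hl0 : 0 < l := by linarith
  -- the counts
  set t : ℝ := (tt h N x : ℝ) with ht
  have hq1 : ∀ s, (A : ℝ) * (t - 1) ≤ ((A * qq h N x s : ℕ) : ℝ) := by
    intro s
    have h2 : (tt h N x : ℝ) ≤ (qq h N x s : ℝ) + 1 := by exact_mod_cast tt_le_qq h N x s
    push_cast
    exact mul_le_mul_of_nonneg_left (by linarith) (by linarith)
  have hq2 : ∀ s, ((A * qq h N x s : ℕ) : ℝ) ≤ A * t := by
    intro s
    have h2 : (qq h N x s : ℝ) ≤ (tt h N x : ℝ) := by exact_mod_cast qq_le h N x s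
    push_cast
    exact mul_le_mul_of_nonneg_left h2 (by linarith)
  have hcard : ((Finset.univ : Finset (Step d)).card : ℝ) = 2 * d := by
    rw [Finset.card_univ, Fintype.card_prod, Fintype.card_fin, Fintype.card_bool]
    push_cast
    ring
  have hls : l = ∑ s : Step d, ((A * qq h N x s : ℕ) : ℝ) := by
    rw [hl, ← prf_eq]
    push_cast
    rfl
  have hl1 : 2 * d * (A * (t - 1)) ≤ l := by
    have h2 := Finset.sum_le_sum fun (s : Step d) (_ : s ∈ Finset.univ) => hq1 s
    rw [Finset.sum_const, nsmul_eq_mul, hcard, ← hls] at h2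
    exact h2
  have hl2 : l ≤ 2 * d * (A * t) := by
    have h2 := Finset.sum_le_sum fun (s : Step d) (_ : s ∈ Finset.univ) => hq2 s
    rw [Finset.sum_const, nsmul_eq_mul, hcard, ← hls] at h2
    exact h2
  have hm1' : A * (t - 1) ≤ l / (2 * d) := by
    rw [le_div_iff₀ (by positivity)]
    linarith
  have hm2' : l / (2 * d) ≤ A * t := by
    rw [div_le_iff₀ (by positivity)]
    linarith
  have hsq : ∑ s : Step d, (((A * qq h N x s : ℕ) : ℝ) - l / (2 * d)) ^ 2 ≤ 2 * d * (A : ℝ) ^ 2 := by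
    have h2 : ∀ s ∈ (Finset.univ : Finset (Step d)),
        (((A * qq h N x s : ℕ) : ℝ) - l / (2 * d)) ^ 2 ≤ (A : ℝ) ^ 2 := by
      intro s _
      refine sq_le_sq' ?_ ?_
      · linarith [hq1 s]
      · linarith [hq2 s]
    have h3 := Finset.sum_le_sum h2
    rw [Finset.sum_const, nsmul_eq_mul, hcard] at h3
    exact h3
  have hpen : 2 * d / l * ∑ s : Step d, (((A * qq h N x s : ℕ) : ℝ) - l / (2 * d)) ^ 2 ≤
      4 * d ^ 2 * A := by
    calc _ ≤ 2 * d / l * (2 * d * (A : ℝ) ^ 2) := mul_le_mul_of_nonneg_left hsq (by positivity)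
      _ ≤ 2 * d / A * (2 * d * (A : ℝ) ^ 2) := by gcongr
      _ = _ := by field_simp; ring
  -- the logarithm
  have hlog : Real.log (l + 1) ≤ Real.log (2 * d) + Real.log (A * h + 1) := by
    rw [← Real.log_mul (by positivity) (by positivity)]
    refine Real.log_le_log (by positivity) ?_
    have h2 : t ≤ h := by rw [ht]; exact_mod_cast tt_le h N x
    have h3 : l ≤ 2 * d * (A * h) := hl2.trans (by gcongr)
    nlinarith
  have hL2 : 0 ≤ Real.log (2 * d) := Real.log_nonneg (by linarith)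
  have hL3 : 0 ≤ Real.log (A * h + 1) := Real.log_nonneg (by
    have : (0 : ℝ) ≤ A * h := by positivity
    linarith)
  refine le_trans ?_ h1
  have h4 : C₁ * Real.log (l + 1) ≤ C₁ * (Real.log (2 * d) + Real.log (A * h + 1)) :=
    mul_le_mul_of_nonneg_left hlog hC₁
  have h5 : C₁ * Real.log (2 * d) ≤ C₁ * Real.log (2 * d) * A := by
    have : 0 ≤ C₁ * Real.log (2 * d) := mul_nonneg hC₁ hL2
    nlinarith
  have h6 : 0 ≤ (4 * d ^ 2 + C₁ * Real.log (2 * d)) * Real.log (A * h + 1) :=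
    mul_nonneg (add_nonneg (by positivity) (mul_nonneg hC₁ hL2)) hL3
  have h7 : 0 ≤ C₁ * A := mul_nonneg hC₁ (by linarith)
  nlinarith

end PYRAux

open PYRAux

/-- **PYR.** -/
theorem pyr (hLB : LISTB_stmt) : PYR_stmt := by
  classical
  intro d hd
  obtain ⟨C₁, hC₁, hL⟩ := hLB d hd
  have hd1 : (1 : ℝ) ≤ d := by exact_mod_cast hd
  have hL2 : 0 ≤ Real.log (2 * d) := Real.log_nonneg (by linarith)
  refine ⟨4 * d ^ 2 + C₁ * Real.log (2 * d) + C₁,
    add_nonneg (add_nonneg (by positivity) (mul_nonneg hC₁ hL2)) hC₁, ?_⟩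
  intro A h N hA hh hN
  set i₀ : Fin d := ⟨0, hd⟩ with hi₀
  obtain ⟨W, hW1, hW2⟩ := card_run (box d N) (pr i₀) rk (fun y hy h0 => rk_lt i₀ hy h0)
    (prf A h N) (fun x => lst (fun s => A * qq h N x s) (pr i₀ x)) (by
      intro x _ l hl
      have h1 := Finset.mem_filter.mp hl
      exact ⟨by rw [mem_allw.mp h1.1, prf_eq], fun _ => h1.2.2⟩)
    (fun σ h1 h2 y => flow (pr i₀) σ h1 h2 y)
  have hpos : ∀ x ∈ box d N, 0 < (lst (fun s => A * qq h N x s) (pr i₀ x)).card := by
    intro x hx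
    have h1 := list_one (fun s => A * qq h N x s) (pr i₀ x) (Nat.mul_le_mul hA (qq_pr hh hN i₀ hx))
    rw [Nat.pos_iff_ne_zero]
    intro h0
    rw [h0, zero_mul] at h1
    have h2 : 0 < ((∑ s, A * qq h N x s) - 1).factorial * (A * qq h N x (pr i₀ x)) :=
      Nat.mul_pos (Nat.factorial_pos _) (Nat.mul_le_mul hA (qq_pr hh hN i₀ hx))
    omega
  have hWpos : 0 < W.card := by
    rw [hW1]
    exact Finset.prod_pos hpos
  refine ⟨W, Finset.card_pos.mp hWpos, ?_, ?_⟩
  · intro w hw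
    obtain ⟨e1, e2, e3, -⟩ := hW2 w hw
    refine ⟨e1, e2, fun x => ?_⟩
    rw [e3]
    split_ifs with hx
    · rfl
    · exact (prf_out hx).symm
  · rw [hW1]
    push_cast
    rw [Real.log_prod (fun x hx => by
      have := hpos x hx
      have h2 : (0 : ℝ) < (lst (fun s => A * qq h N x s) (pr i₀ x)).card := by exact_mod_cast this
      exact h2.ne')]
    have h1 := Finset.sum_le_sum fun x hx => site_low hC₁ hd hL hA hh hN i₀ (x := x) hx
    refine le_trans (le_of_eq ?_) h1
    rw [Finset.sum_sub_distrib, Finset.sum_const, nsmul_eq_mul, LowAux.card_box,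
      ← Finset.sum_mul]
    push_cast
    ring

end Pool.Agent.DFE
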