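import Pool.Agent.Lib.DFE.Defs7

/-!
# The weight of one big site, with the gain cut off at `kk η`
-/

set_option autoImplicit false

namespace Pool.Agent.DFE

open Finset Pool.Agent.DCOL

theorem sitec : SITEC_stmt := by
  classical
  intro d hd κ hκ
  have hd1 : (1 : ℝ) ≤ d := by exact_mod_cast hd
  have hd0 : (0 : ℝ) < d := by linarith
  set M : ℝ := 1 / 2 * Real.log d - Real.log κ with hM
  refine ⟨max 2 ⌈(d : ℝ) * Real.exp 2 / κ ^ 2⌉₊, Real.exp (-(max 4 (8 * M))), le_max_left _ _,
    Real.exp_pos _, fun η hη hη1 k o hTk hko => ?_⟩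
  have hk2 : 2 ≤ k := (le_max_left _ _).trans hTk
  have hkT : (d : ℝ) * Real.exp 2 / κ ^ 2 ≤ k :=
    (Nat.le_ceil _).trans (by exact_mod_cast (le_max_right _ _).trans hTk)
  have hk0 : (0 : ℝ) < k := by
    have : 0 < k := by omega
    exact_mod_cast this
  -- the scale
  set L : ℝ := Real.log (1 / η) with hL
  have hlη : Real.log η = -L := by
    rw [hL, Real.log_div one_ne_zero hη.ne', Real.log_one]; ring
  have hL1 : max 4 (8 * M) ≤ L := by
    have := Real.log_le_log hη hη1
    rw [Real.log_exp, hlη] at this
    linarith
  have hL2 : 4 ≤ L := (le_max_left _ _).trans hL1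
  have hL3 : 8 * M ≤ L := (le_max_right _ _).trans hL1
  have hkk : kk η = L / (4 * η) := rfl
  have hkk1 : η * kk η = L / 4 := by
    rw [hkk]; field_simp
  -- the factor `Qf`
  have hQ : Qf d o ≤ Real.exp (1 / 2 * Real.log (d / k)) := by
    have ho : o ≠ 0 := by omega
    unfold Qf
    rw [if_neg ho]
    refine (min_le_right _ _).trans ?_
    have h1 : Real.sqrt ((d : ℝ) / (o + 1)) ≤ Real.sqrt (d / k) := by
      refine Real.sqrt_le_sqrt ?_
      refine div_le_div_of_nonneg_left hd0.le hk0 ?_
      exact_mod_cast hko
    refine h1.trans (le_of_eq ?_)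
    rw [Real.sqrt_eq_rpow, Real.rpow_def_of_pos (by positivity), mul_comm]
  have key : 1 / 2 * Real.log (d / k) + gc η k ≤ Real.log κ := by
    rcases lt_or_ge (kk η) k with hbig | hsmall
    · -- above the height `kk η`
      have hg : gc η k = 3 * L / 8 := by
        unfold gc
        rw [min_eq_right hbig.le, hkk1, if_pos hbig]
        ring
      have h2 : Real.log (d / k) ≤ Real.log d - L := by
        rw [Real.log_div hd0.ne' hk0.ne']
        have h3 : 1 / η ≤ (k : ℝ) := by
          refine le_trans ?_ hbig.le
          rw [hkk, div_le_div_iff₀ hη (by positivity)]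
          nlinarith
        have h4 := Real.log_le_log (by positivity) h3
        linarith
      rw [hg]
      linarith
    · have hg : gc η k = η * k := by
        unfold gc
        rw [min_eq_left hsmall, if_neg (not_lt.mpr hsmall), add_zero]
      rw [hg]
      rcases le_or_gt (η * k) 1 with hSk | hSk
      · have h2 : Real.log (d / k) ≤ 2 * Real.log κ - 2 := by
          have h3 : (d : ℝ) / k ≤ κ ^ 2 * Real.exp (-2) := by
            rw [div_le_iff₀ (by positivity)] at hkT
            rw [div_le_iff₀ hk0, Real.exp_neg]
            have h4 : 0 < Real.exp 2 := Real.exp_pos 2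
            rw [mul_assoc, inv_mul_eq_div, mul_div_assoc', le_div_iff₀ h4]
            linarith
          have h5 := Real.log_le_log (by positivity) h3
          rw [Real.log_mul (by positivity) (Real.exp_pos _).ne', Real.log_exp, Real.log_pow] at h5
          push_cast at h5
          linarith
        linarith
      · have h1 : η * k ≤ L / 4 := by
          rw [← hkk1]
          exact mul_le_mul_of_nonneg_left hsmall hη.le
        have h2 : Real.log (d / k) ≤ Real.log d - L := by
          rw [Real.log_div hd0.ne' hk0.ne']
          have h3 := Real.log_lt_log one_pos hSk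
          rw [Real.log_one, Real.log_mul hη.ne' hk0.ne', hlη] at h3
          linarith
        linarith
  calc Qf d o * Real.exp (gc η k)
      ≤ Real.exp (1 / 2 * Real.log (d / k)) * Real.exp (gc η k) :=
        mul_le_mul_of_nonneg_right hQ (Real.exp_pos _).le
    _ = Real.exp (1 / 2 * Real.log (d / k) + gc η k) := by
        rw [Real.exp_add]
    _ ≤ Real.exp (Real.log κ) := Real.exp_le_exp.mpr key
    _ = κ := Real.exp_log hκ

end Pool.Agent.DFE
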