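import Pool.Agent.Lib.DFE.Defs7
import Pool.Agent.Lib.DFE.UPPG

/-!
The upper bound for the partition function, uniform in the length: the row UPC.
-/

set_option autoImplicit false

namespace Pool.Agent.DFE.UPCAux

open Finset Pool.Agent.DCOL Pool.Agent.DFE

variable {d : ℕ}

/-- The height is large for small `η`. -/
theorem kk_large {x : ℝ} (hx : 0 < x) : ∃ η₁ : ℝ, 0 < η₁ ∧ ∀ η, 0 < η → η ≤ η₁ → x ≤ kk η := by
  refine ⟨min (Real.exp (-1)) (1 / (4 * x)), lt_min (Real.exp_pos _) (by positivity),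
    fun η hη hη1 => ?_⟩
  have h1 : 1 ≤ Real.log (1 / η) := by
    rw [Real.log_div one_ne_zero hη.ne', Real.log_one, zero_sub, le_neg]
    have := Real.log_le_log hη (hη1.trans (min_le_left _ _))
    rwa [Real.log_exp] at this
  have h2 := hη1.trans (min_le_right _ _)
  rw [le_div_iff₀ (by positivity)] at h2
  unfold kk
  rw [le_div_iff₀ (by positivity)]
  calc x * (4 * η) = η * (4 * x) := by ring
    _ ≤ 1 := h2
    _ ≤ _ := h1

/-- The polynomial factors. -/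
theorem poly_le {A B : ℝ} (hA : 0 ≤ A) (hB : 0 ≤ B) (d m : ℕ) (hm : A * 2 ^ d + B ≤ 2 ^ m) (n : ℕ)
    {x : ℝ} (hx : ((d : ℝ) + 2 + m) * Real.log ((n : ℝ) + 2) ≤ x) :
    A * (2 * (n : ℝ) + 1) ^ d + B * ((n : ℝ) + 1) ^ 2 ≤ Real.exp x := by
  have hn0 : (0 : ℝ) ≤ n := Nat.cast_nonneg _
  set y : ℝ := (n : ℝ) + 2 with hy
  have hy2 : (2 : ℝ) ≤ y := by linarith
  have h1 : (2 * (n : ℝ) + 1) ^ d ≤ 2 ^ d * y ^ (d + 2) := by
    calc (2 * (n : ℝ) + 1) ^ d ≤ (2 * y) ^ d := pow_le_pow_left₀ (by positivity) (by linarith) d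
      _ = 2 ^ d * y ^ d := mul_pow _ _ _
      _ ≤ 2 ^ d * y ^ (d + 2) := by
          refine mul_le_mul_of_nonneg_left (pow_le_pow_right₀ (by linarith) (by omega))
            (by positivity)
  have h2 : ((n : ℝ) + 1) ^ 2 ≤ y ^ (d + 2) :=
    (pow_le_pow_left₀ (by positivity) (by linarith) 2).trans
      (pow_le_pow_right₀ (by linarith) (by omega))
  calc A * (2 * (n : ℝ) + 1) ^ d + B * ((n : ℝ) + 1) ^ 2
      ≤ A * (2 ^ d * y ^ (d + 2)) + B * y ^ (d + 2) := by gcongr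
    _ = (A * 2 ^ d + B) * y ^ (d + 2) := by ring
    _ ≤ 2 ^ m * y ^ (d + 2) := mul_le_mul_of_nonneg_right hm (by positivity)
    _ ≤ y ^ m * y ^ (d + 2) := by
        refine mul_le_mul_of_nonneg_right (pow_le_pow_left₀ (by norm_num) hy2 m) (by positivity)
    _ = y ^ (d + 2 + m) := by rw [← pow_add]; congr 1; omega
    _ = Real.exp (((d + 2 + m : ℕ) : ℝ) * Real.log y) := by
        rw [Real.exp_nat_mul, Real.exp_log (by linarith)]
    _ ≤ Real.exp x := by
        refine Real.exp_le_exp.mpr (le_trans (le_of_eq ?_) hx)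
        push_cast
        ring

/-- The words with a given end point and few soft sites. -/
theorem part_bound (hSET : SET_stmt) (hRUN : RUN_stmt) (hd : 0 < d)
    {T R K v n : ℕ} (hT : 2 ≤ T) (hK : 0 < K) (i₀ : Fin d) {β γ η lam c Ξ A : ℝ}
    (hη : 0 ≤ η) (hlam : 0 ≤ lam) (hΞ : 0 ≤ Ξ) (e : Site d)
    (hE : ∀ w : List (Step d), w.length = n → Real.exp (-En β γ (loc w)) ≤
      Real.exp (-(η * ((w.length : ℝ) - T * (vis 0 w).card)) + lam * soft T R i₀ w) *
        ∏ x ∈ exF T w, omg T R i₀ (gc η) 0 lam c w x)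
    (hcls : ∀ (p : Site d) (S : Finset (List (Step d))),
      (∀ w ∈ S, w.length = n ∧ endp w = e ∧ p ∈ exF T w) →
      (∀ w ∈ S, ∀ w' ∈ S, (clu T w p = clu T w' p ∧
        ∀ x ∈ clu T w p, stk 0 w x = stk 0 w' x) → w = w') →
      ∑ w ∈ S, ((2 * d : ℝ) ^ (∑ x ∈ clu T w p, (stk 0 w x).length))⁻¹ *
        ∏ x ∈ clu T w p, omg T R i₀ (gc η) 0 lam c w x ≤ Ξ)
    (hA : A ≤ η * ((n : ℝ) - T * v) - lam * v / K)
    (S : Finset (List (Step d))) (hS : ∀ w ∈ S, w.length = n ∧ endp w = e ∧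
      (vis 0 w).card ≤ v ∧ K * soft T R i₀ w ≤ (vis 0 w).card) :
    ∑ w ∈ S, Real.exp (-En β γ (loc w)) ≤ (2 * d) ^ n * (Real.exp (-A) * (1 + Ξ) ^ v) := by
  have hd0 : (0 : ℝ) < d := by exact_mod_cast hd
  have hK0 : (0 : ℝ) < K := by exact_mod_cast hK
  have hrun := hRUN d hd (fun w => w.length = n ∧ endp w = e) (exF T) (clu T)
    (fun w x => omg T R i₀ (gc η) 0 lam c w x) Ξ n v hΞ
    (fun w x => UPPGAux.omg_nonneg T R i₀ _ 0 lam c w x)
    (by
      intro w _ x hx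
      obtain ⟨-, h2⟩ := hSET d T w x hd hT
      obtain ⟨h3, h4, h5, -, -, -, h6, -, -⟩ := h2 hx
      exact ⟨h3, h4, h6, h5⟩)
    (by
      intro w w' p hw hw' hp hp' hK' hs
      exact UPPGAux.omg_congr hSET hd hT i₀ _ 0 lam c (hw.2.trans hw'.2.symm) hp hp' hK' hs)
    (by
      intro S' p h1 h2
      exact hcls p S' (fun w hw => ⟨(h1 w hw).1.1, (h1 w hw).1.2, (h1 w hw).2⟩) h2)
    S (fun w hw => ⟨⟨(hS w hw).1, (hS w hw).2.1⟩, (hS w hw).1, (hS w hw).2.2.1⟩)
  have hterm : ∀ w ∈ S, Real.exp (-En β γ (loc w)) ≤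
      (2 * d) ^ n * Real.exp (-A) * (((2 * d : ℝ) ^ n)⁻¹ *
        ∏ x ∈ exF T w, omg T R i₀ (gc η) 0 lam c w x) := by
    intro w hw
    obtain ⟨h1, -, h3, h4⟩ := hS w hw
    have hprod : 0 ≤ ∏ x ∈ exF T w, omg T R i₀ (gc η) 0 lam c w x :=
      Finset.prod_nonneg fun x _ => UPPGAux.omg_nonneg T R i₀ _ 0 lam c w x
    have hv : ((vis 0 w).card : ℝ) ≤ v := by exact_mod_cast h3
    have hsoft : (K : ℝ) * soft T R i₀ w ≤ v := by
      have : ((K * soft T R i₀ w : ℕ) : ℝ) ≤ ((vis 0 w).card : ℝ) := by exact_mod_cast h4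
      push_cast at this
      linarith
    have hexp : -(η * ((w.length : ℝ) - T * (vis 0 w).card)) + lam * soft T R i₀ w ≤ -A := by
      have a1 : lam * soft T R i₀ w ≤ lam * v / K := by
        rw [le_div_iff₀ hK0]
        calc lam * soft T R i₀ w * K = lam * (K * soft T R i₀ w) := by ring
          _ ≤ lam * v := mul_le_mul_of_nonneg_left hsoft hlam
      have a2 : η * ((n : ℝ) - T * v) ≤ η * ((w.length : ℝ) - T * (vis 0 w).card) := by
        refine mul_le_mul_of_nonneg_left ?_ hη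
        rw [h1]
        have : (T : ℝ) * (vis 0 w).card ≤ T * v := by gcongr
        linarith
      linarith
    calc Real.exp (-En β γ (loc w)) ≤ _ := hE w h1
      _ ≤ Real.exp (-A) * ∏ x ∈ exF T w, omg T R i₀ (gc η) 0 lam c w x :=
          mul_le_mul_of_nonneg_right (Real.exp_le_exp.mpr hexp) hprod
      _ = _ := by
          have : ((2 * d : ℝ) ^ n) ≠ 0 := by positivity
          field_simp
  calc ∑ w ∈ S, Real.exp (-En β γ (loc w)) ≤ ∑ w ∈ S, (2 * d) ^ n * Real.exp (-A) *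
        (((2 * d : ℝ) ^ n)⁻¹ * ∏ x ∈ exF T w, omg T R i₀ (gc η) 0 lam c w x) :=
        Finset.sum_le_sum hterm
    _ = (2 * d) ^ n * Real.exp (-A) * ∑ w ∈ S, (((2 * d : ℝ) ^ n)⁻¹ *
        ∏ x ∈ exF T w, omg T R i₀ (gc η) 0 lam c w x) := by rw [Finset.mul_sum]
    _ ≤ (2 * d) ^ n * Real.exp (-A) * (1 + Ξ) ^ v := by
        refine mul_le_mul_of_nonneg_left hrun (by positivity)
    _ = _ := by ring

end Pool.Agent.DFE.UPCAux

namespace Pool.Agent.DFE

open Finset Pool.Agent.DCOL UPPAux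

/-- **UPC.** -/
theorem upc : SET_stmt → VISC_stmt → RUN_stmt → ENC_stmt → CLSC_stmt → UPC_stmt := by
  intro hSET hVISC hRUN hENC hCLS
  classical
  intro d hd b hb
  have hd0 : (0 : ℝ) < d := by exact_mod_cast hd
  obtain ⟨c₁, CV, hc₁, hCV, hV⟩ := hVISC d hd b hb
  obtain ⟨CE, hCE, hE⟩ := hENC d hd b hb
  set K1 : ℝ := 3 / c₁ with hK1
  have hK1p : 0 < K1 := by positivity
  set Ξ : ℝ := 1 / (16 * K1 + 16) with hΞ
  have hΞ0 : 0 < Ξ := by positivity
  have hΞK : Ξ * K1 ≤ 1 / 16 := by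
    rw [hΞ, div_mul_eq_mul_div, div_le_div_iff₀ (by positivity) (by norm_num)]
    nlinarith
  set c : ℝ := b / (32 * d) with hc
  have hc0 : 0 < c := by positivity
  have hcb : 32 * d * c = b := by rw [hc]; field_simp
  set i₀ : Fin d := ⟨0, hd⟩ with hi₀
  obtain ⟨T₀, R, lam, hT₀, hR, hlam, hCL⟩ := hCLS d hd i₀ c Ξ hc0 hΞ0
  set K2 : ℕ := ⌈16 * lam * K1⌉₊ + 1 with hK2
  have hK2p : 0 < K2 := Nat.succ_pos _
  have hK2r : (0 : ℝ) < K2 := by exact_mod_cast hK2p
  have hK2l : lam * K1 / K2 ≤ 1 / 16 := by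
    rw [div_le_iff₀ hK2r]
    have h1 : 16 * lam * K1 ≤ K2 := by
      rw [hK2]; push_cast
      have := Nat.le_ceil (16 * lam * K1)
      linarith
    linarith
  obtain ⟨η₀', hη₀', hCL2⟩ := hCL (T₀ + K2 * R) (by omega)
  set T₁ : ℕ := T₀ + K2 * R with hT₁
  have hT₁p : (0 : ℝ) < T₁ := by
    have : 0 < T₁ := by omega
    exact_mod_cast this
  obtain ⟨η₁, hη₁, hkk⟩ := UPCAux.kk_large hT₁p
  obtain ⟨m, hm⟩ := pow_unbounded_of_one_lt ((K2 : ℝ) * 2 ^ d + CV) (one_lt_two)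
  refine ⟨CE + 4 * ((d : ℝ) + 2 + m),
    min (min η₀' η₁) (min (1 / (16 * (T₁ * K1))) (1 / 2)), by positivity,
    lt_min (lt_min hη₀' hη₁) (lt_min (by positivity) (by norm_num)), ?_⟩
  intro β γ η hbγ hγβ hη0 hη n hn hcase
  have hn0 : (0 : ℝ) ≤ n := Nat.cast_nonneg _
  have hηa : η ≤ η₀' := hη.trans ((min_le_left _ _).trans (min_le_left _ _))
  have hηb : η ≤ η₁ := hη.trans ((min_le_left _ _).trans (min_le_right _ _))
  have hηc : η ≤ 1 / (16 * (T₁ * K1)) := hη.trans ((min_le_right _ _).trans (min_le_left _ _))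
  have hηd : η < 1 := (hη.trans ((min_le_right _ _).trans (min_le_right _ _))).trans_lt
    (by norm_num)
  have hS2 : T₁ * K1 * η ≤ 1 / 16 := by
    rw [le_div_iff₀ (by positivity)] at hηc
    linarith
  have hL0 : 0 ≤ Real.log ((n : ℝ) + 2) := Real.log_nonneg (by linarith)
  have hcaseE : η ≤ (β - γ) * kk η ∨
      CE * η ^ (2 * d + 2) * ((n : ℝ) + 1) ^ 2 ≤ Real.log (1 / η) ^ (d + 2) := by
    refine hcase.imp id fun h => le_trans ?_ h
    have h1 : 0 ≤ 4 * ((d : ℝ) + 2 + m) := by positivity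
    have h2 : CE ≤ CE + 4 * ((d : ℝ) + 2 + m) := by linarith
    gcongr
  have hpoly : ((d : ℝ) + 2 + m) * Real.log ((n : ℝ) + 2) ≤ 5 / 16 * (η * n) := by
    have h1 : 4 * ((d : ℝ) + 2 + m) * Real.log ((n : ℝ) + 2) ≤ η * n := by
      refine le_trans ?_ hn
      exact mul_le_mul_of_nonneg_right (by linarith) hL0
    have h2 : 0 ≤ ((d : ℝ) + 2 + m) * Real.log ((n : ℝ) + 2) := by positivity
    linarith
  set v : ℕ := ⌊K1 * η * n⌋₊ with hv
  have hKSn : 0 ≤ K1 * η * n := by positivity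
  have hv1 : (v : ℝ) ≤ K1 * η * n := Nat.floor_le hKSn
  have hv2 : K1 * η * n < v + 1 := Nat.lt_floor_add_one _
  -- the words with many visited sites
  have hbig : ∑ w ∈ (allw d n).filter (fun w => ¬ (vis 0 w).card ≤ v),
      Real.exp (-En β γ (loc w)) ≤
      (2 * d) ^ n * (Real.exp (-(3 * η * n)) * (CV * ((n : ℝ) + 1) ^ 2)) := by
    have h1 : ∀ w ∈ (allw d n).filter (fun w => ¬ (vis 0 w).card ≤ v),
        Real.exp (-En β γ (loc w)) ≤ Real.exp (-(3 * η * n)) *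
          Real.exp (c₁ * ((vis 0 w).card : ℝ) - En β γ (loc w)) := by
      intro w hw
      have h2 := (Finset.mem_filter.mp hw).2
      have h3 : (v : ℝ) + 1 ≤ (vis 0 w).card := by
        have : v + 1 ≤ (vis 0 w).card := by omega
        exact_mod_cast this
      rw [← Real.exp_add]
      refine Real.exp_le_exp.mpr ?_
      have h4 : 3 * η * n ≤ c₁ * ((vis 0 w).card : ℝ) := by
        have h5 : c₁ * (K1 * η * n) = 3 * η * n := by rw [hK1]; field_simp
        have h6 := mul_le_mul_of_nonneg_left (hv2.le.trans h3) hc₁.le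
        linarith
      linarith
    calc _ ≤ ∑ w ∈ (allw d n).filter (fun w => ¬ (vis 0 w).card ≤ v),
          Real.exp (-(3 * η * n)) * Real.exp (c₁ * ((vis 0 w).card : ℝ) - En β γ (loc w)) :=
          Finset.sum_le_sum h1
      _ ≤ ∑ w ∈ allw d n,
          Real.exp (-(3 * η * n)) * Real.exp (c₁ * ((vis 0 w).card : ℝ) - En β γ (loc w)) :=
          Finset.sum_le_sum_of_subset_of_nonneg (Finset.filter_subset _ _)
            fun w _ _ => by positivity
      _ = Real.exp (-(3 * η * n)) * ∑ w ∈ allw d n,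
          Real.exp (c₁ * ((vis 0 w).card : ℝ) - En β γ (loc w)) := by rw [Finset.mul_sum]
      _ ≤ Real.exp (-(3 * η * n)) * ((2 * d) ^ n * (CV * ((n : ℝ) + 1) ^ 2)) :=
          mul_le_mul_of_nonneg_left (hV β γ hbγ hγβ n) (Real.exp_pos _).le
      _ = _ := by ring
  -- the words with few visited sites
  set A : ℝ := 7 / 8 * (η * n) with hAdef
  have hηn : 0 ≤ η * n := by positivity
  have hpart : ∀ i ∈ (range K2) ×ˢ (Fintype.piFinset fun _ : Fin d => Finset.Icc (-(n : ℤ)) n),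
      ∑ w ∈ (allw d n).filter (fun w => (vis 0 w).card ≤ v ∧ endp w = i.2 ∧
        K2 * soft (T₀ + i.1 * R) R i₀ w ≤ (vis 0 w).card), Real.exp (-En β γ (loc w)) ≤
      (2 * d) ^ n * (Real.exp (-A) * (1 + Ξ) ^ v) := by
    intro i hi
    have hj : i.1 < K2 := Finset.mem_range.mp (Finset.mem_product.mp hi).1
    have hTj : T₀ + i.1 * R ≤ T₁ := by
      have : i.1 * R ≤ K2 * R := Nat.mul_le_mul_right R hj.le
      omega
    have hTjr : ((T₀ + i.1 * R : ℕ) : ℝ) ≤ T₁ := by exact_mod_cast hTj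
    refine UPCAux.part_bound hSET hRUN hd (T := T₀ + i.1 * R) (R := R) (K := K2) (v := v)
      (η := η) (lam := lam) (c := c) (by omega) hK2p i₀ hη0.le hlam hΞ0.le i.2
      ?_ ?_ ?_ _ ?_
    · intro w hw
      refine hE (T₀ + i.1 * R) R i₀ β γ η lam c (by omega) hc0.le (by rw [hcb]; exact hbγ) hbγ hγβ
        hη0 hηd (hTjr.trans (hkk η hη0 hηb)) w ?_
      rw [hw]
      exact hcaseE
    · intro p S' h1 h2
      exact hCL2 (T₀ + i.1 * R) η (by omega) hTj hη0 hηa n i.2 p S' h1 h2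
    · have a1 : lam * v / K2 ≤ 1 / 16 * (η * n) := by
        calc lam * v / K2 ≤ lam * (K1 * η * n) / K2 := by gcongr
          _ = lam * K1 / K2 * (η * n) := by ring
          _ ≤ 1 / 16 * (η * n) := mul_le_mul_of_nonneg_right hK2l (by positivity)
      have a2 : ((T₀ + i.1 * R : ℕ) : ℝ) * v ≤ 1 / 16 * n := by
        calc ((T₀ + i.1 * R : ℕ) : ℝ) * v ≤ T₁ * (K1 * η * n) := by gcongr
          _ = T₁ * K1 * η * n := by ring
          _ ≤ _ := mul_le_mul_of_nonneg_right hS2 hn0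
      have a4 : η * (((T₀ + i.1 * R : ℕ) : ℝ) * v) ≤ η * (1 / 16 * n) :=
        mul_le_mul_of_nonneg_left a2 hη0.le
      rw [hAdef, mul_sub]
      linarith
    · intro w hw
      obtain ⟨h1, h2, h3, h4⟩ := Finset.mem_filter.mp hw
      exact ⟨mem_allw.mp h1, h3, h2, h4⟩
  have hcover := sum_cover ((range K2) ×ˢ (Fintype.piFinset fun _ : Fin d =>
    Finset.Icc (-(n : ℤ)) n)) ((allw d n).filter (fun w => (vis 0 w).card ≤ v))
    (fun i => (allw d n).filter (fun w => (vis 0 w).card ≤ v ∧ endp w = i.2 ∧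
        K2 * soft (T₀ + i.1 * R) R i₀ w ≤ (vis 0 w).card))
    (fun w => Real.exp (-En β γ (loc w))) (fun w => (Real.exp_pos _).le)
    (by
      intro w hw
      obtain ⟨h1, h2⟩ := Finset.mem_filter.mp hw
      obtain ⟨j, hj, hj2⟩ := exists_soft T₀ R K2 hK2p i₀ w
      refine ⟨(j, endp w), Finset.mem_product.mpr ⟨hj, ?_⟩, Finset.mem_filter.mpr
        ⟨h1, h2, rfl, hj2⟩⟩
      rw [Fintype.mem_piFinset]
      intro i
      have h3 := abs_endp w i
      rw [mem_allw.mp h1, abs_le] at h3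
      exact Finset.mem_Icc.mpr h3)
  have hcard : (((range K2) ×ˢ (Fintype.piFinset fun _ : Fin d =>
      Finset.Icc (-(n : ℤ)) n)).card : ℝ) = K2 * (2 * (n : ℝ) + 1) ^ d := by
    rw [Finset.card_product, Finset.card_range, Fintype.card_piFinset, Finset.prod_const,
      Finset.card_univ, Fintype.card_fin, Int.card_Icc]
    have h1 : ((n : ℤ) + 1 - -(n : ℤ)).toNat = 2 * n + 1 := by omega
    rw [h1]
    push_cast
    ring
  have hsmall : ∑ w ∈ (allw d n).filter (fun w => (vis 0 w).card ≤ v),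
      Real.exp (-En β γ (loc w)) ≤ (2 * d) ^ n * (K2 * (2 * (n : ℝ) + 1) ^ d *
        (Real.exp (-A) * (1 + Ξ) ^ v)) := by
    refine hcover.trans ((Finset.sum_le_sum hpart).trans (le_of_eq ?_))
    rw [Finset.sum_const, nsmul_eq_mul, hcard]
    ring
  -- the end
  have hXi : (1 + Ξ) ^ v ≤ Real.exp (1 / 16 * (η * n)) := by
    calc (1 + Ξ) ^ v ≤ (Real.exp Ξ) ^ v := by
          refine pow_le_pow_left₀ (by positivity) ?_ v
          have := Real.add_one_le_exp Ξ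
          linarith
      _ = Real.exp (v * Ξ) := (Real.exp_nat_mul Ξ v).symm
      _ ≤ _ := by
          refine Real.exp_le_exp.mpr ?_
          calc (v : ℝ) * Ξ ≤ K1 * η * n * Ξ := by gcongr
            _ = Ξ * K1 * (η * n) := by ring
            _ ≤ 1 / 16 * (η * n) := mul_le_mul_of_nonneg_right hΞK (by positivity)
  have hZ : Zw d β γ n = ∑ w ∈ (allw d n).filter (fun w => (vis 0 w).card ≤ v),
      Real.exp (-En β γ (loc w)) + ∑ w ∈ (allw d n).filter (fun w => ¬ (vis 0 w).card ≤ v),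
      Real.exp (-En β γ (loc w)) := by
    unfold Zw
    rw [Finset.sum_filter_add_sum_filter_not]
  have e1 : Real.exp (-A) * (1 + Ξ) ^ v ≤ Real.exp (-(13 / 16 * (η * n))) := by
    calc Real.exp (-A) * (1 + Ξ) ^ v ≤ Real.exp (-A) * Real.exp (1 / 16 * (η * n)) :=
          mul_le_mul_of_nonneg_left hXi (Real.exp_pos _).le
      _ = Real.exp (-(13 / 16 * (η * n))) := by
          rw [← Real.exp_add]
          congr 1
          rw [hAdef]; ring
  have e2 : Real.exp (-(3 * η * n)) ≤ Real.exp (-(13 / 16 * (η * n))) := by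
    refine Real.exp_le_exp.mpr ?_
    have : 3 * η * n = 3 * (η * n) := by ring
    linarith
  have e3 := UPCAux.poly_le (A := (K2 : ℝ)) (B := CV) hK2r.le hCV.le d m hm.le n hpoly
  rw [hZ]
  calc _ ≤ (2 * d) ^ n * (K2 * (2 * (n : ℝ) + 1) ^ d * (Real.exp (-A) * (1 + Ξ) ^ v)) +
        (2 * d) ^ n * (Real.exp (-(3 * η * n)) * (CV * ((n : ℝ) + 1) ^ 2)) :=
        add_le_add hsmall hbig
    _ ≤ (2 * d) ^ n * (K2 * (2 * (n : ℝ) + 1) ^ d * Real.exp (-(13 / 16 * (η * n)))) +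
        (2 * d) ^ n * (Real.exp (-(13 / 16 * (η * n))) * (CV * ((n : ℝ) + 1) ^ 2)) := by
        gcongr
    _ = (2 * d) ^ n * ((K2 * (2 * (n : ℝ) + 1) ^ d + CV * ((n : ℝ) + 1) ^ 2) *
        Real.exp (-(13 / 16 * (η * n)))) := by ring
    _ ≤ (2 * d) ^ n * (Real.exp (5 / 16 * (η * n)) * Real.exp (-(13 / 16 * (η * n)))) := by
        gcongr
    _ = (2 * d) ^ n * Real.exp (-(η * n / 2)) := by
        rw [← Real.exp_add]
        congr 2
        ring

end Pool.Agent.DFE
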