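import Pool.Agent.Lib.DFE.Defs7

/-!
Row VISC: the exponential moment of the number of the visited sites, also at `γ = β`.
-/

set_option autoImplicit false

namespace Pool.Agent.DFE

open Finset Pool.Agent.DCOL

/-- VISC. -/
theorem visc : VISW_stmt → VISC_stmt := by
  intro hV d hd b hb
  obtain ⟨c, C, hc, hC, hV⟩ := hV d hd b hb
  refine ⟨c, C, hc, hC, fun β γ hbγ hγβ n => ?_⟩
  rcases lt_or_eq_of_le hγβ with h | h
  · exact hV β γ hbγ h n
  · subst h
    have hcont : Continuous fun β : ℝ =>
        ∑ w ∈ allw d n, Real.exp (c * ((vis 0 w).card : ℝ) - En β γ (loc w)) := by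
      unfold En
      fun_prop
    have ht := (hcont.tendsto γ).mono_left (nhdsWithin_le_nhds (s := Set.Ioi γ))
    refine le_of_tendsto ht ?_
    filter_upwards [self_mem_nhdsWithin] with β hβ
    exact hV β γ hbγ hβ n

end Pool.Agent.DFE
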