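import Pool.Agent.Lib.DFE.Defs7

/-!
Row ZLO: the lower bound of the partition function up to the critical line.
-/

set_option autoImplicit false

namespace Pool.Agent.DFE

open Finset Pool.Agent.DCOL

namespace ZLOAux

theorem large (d : ℕ) (K : ℝ) : ∃ n₀ : ℕ, ∀ n : ℕ, n₀ ≤ n →
    3 ≤ n ∧ Real.log n ^ (d + 2) ≤ n ∧ K * Real.log n ≤ n ∧ K ≤ n := by
  have h1 : ∀ᶠ n : ℕ in Filter.atTop, Real.log (n : ℝ) ^ (d + 2) ≤ n := by
    have h := (Real.isLittleO_pow_log_id_atTop (n := d + 2)).bound one_pos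
    have h' := tendsto_natCast_atTop_atTop.eventually h
    filter_upwards [h'] with n hn
    simp only [id, one_mul, Real.norm_eq_abs] at hn
    exact (le_abs_self _).trans (hn.trans (abs_of_nonneg (Nat.cast_nonneg n)).le)
  have h2 : ∀ᶠ n : ℕ in Filter.atTop, K * Real.log (n : ℝ) ≤ n := by
    have h := (Real.isLittleO_log_id_atTop).bound (show (0 : ℝ) < 1 / (|K| + 1) by positivity)
    have h' := tendsto_natCast_atTop_atTop.eventually h
    filter_upwards [h'] with n hn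
    simp only [id, Real.norm_eq_abs] at hn
    rw [abs_of_nonneg (show (0 : ℝ) ≤ n from Nat.cast_nonneg n)] at hn
    have h3 : |K| * |Real.log (n : ℝ)| ≤ (|K| + 1) * (1 / (|K| + 1) * n) :=
      mul_le_mul (by linarith) hn (abs_nonneg _) (by positivity)
    have h4 : (|K| + 1) * (1 / (|K| + 1) * (n : ℝ)) = n := by
      field_simp
    rw [h4, ← abs_mul] at h3
    exact (le_abs_self _).trans h3
  have h3 : ∀ᶠ n : ℕ in Filter.atTop, K ≤ n :=
    tendsto_natCast_atTop_atTop.eventually (Filter.eventually_ge_atTop K)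
  obtain ⟨n₀, h⟩ := Filter.eventually_atTop.mp
    (((Filter.eventually_ge_atTop 3).and h1).and (h2.and h3))
  exact ⟨n₀, fun n hn => ⟨(h n hn).1.1, (h n hn).1.2, (h n hn).2.1, (h n hn).2.2⟩⟩

theorem D_pow {d : ℕ} {x l : ℝ} (hx : 0 ≤ x) (hl : 0 ≤ l) :
    (x ^ ((d : ℝ) / (d + 1)) * l ^ (((d : ℝ) + 2) / (2 * d + 2))) ^ (2 * (d + 1)) =
      x ^ (2 * d) * l ^ (d + 2) := by
  have hd : (d : ℝ) + 1 ≠ 0 := by positivity
  have hd2 : 2 * (d : ℝ) + 2 ≠ 0 := by positivity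
  rw [mul_pow]
  congr 1
  · rw [← Real.rpow_natCast, ← Real.rpow_mul hx, ← Real.rpow_natCast]
    congr 1
    push_cast
    field_simp
  · rw [← Real.rpow_natCast, ← Real.rpow_mul hl, ← Real.rpow_natCast]
    congr 1
    push_cast
    field_simp

/-- the box of the first case -/
theorem case1 {d : ℕ} {c x l N A D : ℝ} (hl : 1 ≤ l) (hc : 0 < c)
    (hc1 : c ≤ 1) (hN : 0 < N) (hA : Real.sqrt l ≤ A) (hNx : c * (A * N ^ (d + 1)) ≤ x)
    (hD : 0 ≤ D) (hDp : D ^ (2 * (d + 1)) = x ^ (2 * d) * l ^ (d + 2)) :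
    c * (N ^ d * l) ≤ D := by
  have hs : Real.sqrt l ^ 2 = l := Real.sq_sqrt (by linarith)
  have h1 : c * (Real.sqrt l * N ^ (d + 1)) ≤ x := by
    refine le_trans ?_ hNx
    gcongr
  have h2 : (c * (Real.sqrt l * N ^ (d + 1))) ^ (2 * d) ≤ x ^ (2 * d) :=
    pow_le_pow_left₀ (by positivity) h1 _
  refine le_of_pow_le_pow_left₀ (n := 2 * (d + 1)) (by omega) hD ?_
  rw [hDp]
  have h3 : (c * (N ^ d * l)) ^ (2 * (d + 1)) =
      c ^ 2 * ((c * (Real.sqrt l * N ^ (d + 1))) ^ (2 * d) * l ^ (d + 2)) := by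
    have h4 : (Real.sqrt l) ^ (2 * d) = l ^ d := by rw [pow_mul, hs]
    have h5 : (c * (Real.sqrt l * N ^ (d + 1))) ^ (2 * d) =
        c ^ (2 * d) * (l ^ d * N ^ ((d + 1) * (2 * d))) := by
      rw [mul_pow, mul_pow, h4, ← pow_mul]
    rw [h5]
    rw [mul_pow, mul_pow, ← pow_mul]
    rw [show d * (2 * (d + 1)) = (d + 1) * (2 * d) by ring]
    ring
  rw [h3]
  calc c ^ 2 * ((c * (Real.sqrt l * N ^ (d + 1))) ^ (2 * d) * l ^ (d + 2)) ≤
      1 * (x ^ (2 * d) * l ^ (d + 2)) := by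
        refine mul_le_mul (pow_le_one₀ hc.le hc1) ?_ (by positivity) one_pos.le
        exact mul_le_mul_of_nonneg_right h2 (by positivity)
    _ = _ := one_mul _

theorem case1b {d : ℕ} {c x l N A δ L : ℝ} (hx : 0 < x) (hl : 1 ≤ l) (hc : 0 < c)
    (hc1 : c ≤ 1) (hN : 0 < N) (hA : Real.sqrt l ≤ A) (hNx : c * (A * N ^ (d + 1)) ≤ x)
    (hδ : 0 ≤ δ) (hL : l ≤ (d + 1) * L) (hs : (δ * L) ^ (d + 1) * x ^ 2 ≤ l ^ (d + 2)) :
    c ^ 2 * (δ * N ^ 2) ≤ d + 1 := by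
  have hsq : Real.sqrt l ^ 2 = l := Real.sq_sqrt (by linarith)
  have h1 : c * (Real.sqrt l * N ^ (d + 1)) ≤ x := by
    refine le_trans ?_ hNx
    gcongr
  have h2 : (c * (Real.sqrt l * N ^ (d + 1))) ^ 2 ≤ x ^ 2 :=
    pow_le_pow_left₀ (by positivity) h1 _
  have h2' : l * (c ^ 2 * (N ^ (d + 1)) ^ 2) ≤ x ^ 2 := by
    calc _ = (c * (Real.sqrt l * N ^ (d + 1))) ^ 2 := by
          rw [mul_pow, mul_pow, hsq]; ring
      _ ≤ _ := h2
  have h3 : (δ * l) ^ (d + 1) * x ^ 2 ≤ ((d : ℝ) + 1) ^ (d + 1) * l ^ (d + 2) := by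
    calc (δ * l) ^ (d + 1) * x ^ 2 ≤ (δ * ((d + 1) * L)) ^ (d + 1) * x ^ 2 := by
          refine mul_le_mul_of_nonneg_right ?_ (by positivity)
          exact pow_le_pow_left₀ (by positivity) (mul_le_mul_of_nonneg_left hL hδ) _
      _ = ((d : ℝ) + 1) ^ (d + 1) * ((δ * L) ^ (d + 1) * x ^ 2) := by
          rw [show δ * (((d : ℝ) + 1) * L) = ((d : ℝ) + 1) * (δ * L) by ring, mul_pow]; ring
      _ ≤ _ := mul_le_mul_of_nonneg_left hs (by positivity)
  have h4 : δ ^ (d + 1) * x ^ 2 ≤ ((d : ℝ) + 1) ^ (d + 1) * l := by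
    have h5 : l ^ (d + 1) * (δ ^ (d + 1) * x ^ 2) ≤
        l ^ (d + 1) * (((d : ℝ) + 1) ^ (d + 1) * l) := by
      calc _ = (δ * l) ^ (d + 1) * x ^ 2 := by rw [mul_pow]; ring
        _ ≤ _ := h3
        _ = _ := by ring
    exact le_of_mul_le_mul_left h5 (by positivity)
  refine le_of_pow_le_pow_left₀ (n := d + 1) (by omega) (by positivity) ?_
  have h6 : l * (δ ^ (d + 1) * (c ^ 2 * (N ^ (d + 1)) ^ 2)) ≤ l * ((d : ℝ) + 1) ^ (d + 1) := by
    calc _ = δ ^ (d + 1) * (l * (c ^ 2 * (N ^ (d + 1)) ^ 2)) := by ring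
      _ ≤ δ ^ (d + 1) * x ^ 2 := mul_le_mul_of_nonneg_left h2' (by positivity)
      _ ≤ _ := h4
      _ = _ := by ring
  have h7 := le_of_mul_le_mul_left h6 (by linarith)
  refine le_trans ?_ h7
  have h8 : (c ^ 2 * (δ * N ^ 2)) ^ (d + 1) =
      (c ^ 2) ^ d * (δ ^ (d + 1) * (c ^ 2 * (N ^ (d + 1)) ^ 2)) := by
    rw [mul_pow, mul_pow, ← pow_mul N 2 (d + 1), ← pow_mul N (d + 1) 2]
    ring
  rw [h8]
  refine mul_le_of_le_one_left (by positivity) ?_
  exact pow_le_one₀ (by positivity) (pow_le_one₀ hc.le hc1)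

/-- the small box of the second case -/
theorem case2 {d : ℕ} {C x l N A δ L : ℝ} (hx : 0 < x) (hC : 1 ≤ C)
    (hN : 0 < N) (hA : A ≤ 2 * Real.sqrt L) (hNx : x ≤ C * (A * N ^ (d + 1)))
    (hδ : 0 < δ) (hL0 : 0 < L) (hL : L ≤ 2 * l) (hs : l ^ (d + 2) ≤ (δ * L) ^ (d + 1) * x ^ 2) :
    1 / (2 ^ (d + 2) * (4 * C ^ 2)) ≤ δ * N ^ 2 := by
  have hsq : Real.sqrt L ^ 2 = L := Real.sq_sqrt hL0.le
  have h1 : x ≤ C * (2 * Real.sqrt L * N ^ (d + 1)) := by
    refine le_trans hNx ?_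
    gcongr
  have h2 : x ^ 2 ≤ 4 * C ^ 2 * L * (N ^ (d + 1)) ^ 2 := by
    calc x ^ 2 ≤ (C * (2 * Real.sqrt L * N ^ (d + 1))) ^ 2 := pow_le_pow_left₀ hx.le h1 _
      _ = _ := by rw [mul_pow, mul_pow, mul_pow, hsq]; ring
  have h3 : L ^ (d + 2) ≤ 2 ^ (d + 2) * (4 * C ^ 2) * (δ * N ^ 2) ^ (d + 1) * L ^ (d + 2) := by
    calc L ^ (d + 2) ≤ (2 * l) ^ (d + 2) := pow_le_pow_left₀ hL0.le hL _
      _ = 2 ^ (d + 2) * l ^ (d + 2) := mul_pow _ _ _
      _ ≤ 2 ^ (d + 2) * ((δ * L) ^ (d + 1) * (4 * C ^ 2 * L * (N ^ (d + 1)) ^ 2)) := by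
          refine mul_le_mul_of_nonneg_left (hs.trans ?_) (by positivity)
          exact mul_le_mul_of_nonneg_left h2 (by positivity)
      _ = _ := by
          rw [mul_pow, mul_pow, ← pow_mul N 2 (d + 1), ← pow_mul N (d + 1) 2]; ring
  have h4 : 1 ≤ 2 ^ (d + 2) * (4 * C ^ 2) * (δ * N ^ 2) ^ (d + 1) := by
    have h5 : 1 * L ^ (d + 2) ≤
        2 ^ (d + 2) * (4 * C ^ 2) * (δ * N ^ 2) ^ (d + 1) * L ^ (d + 2) := by rw [one_mul]; exact h3
    exact le_of_mul_le_mul_right h5 (by positivity)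
  have h6 : 1 / (2 ^ (d + 2) * (4 * C ^ 2)) ≤ (δ * N ^ 2) ^ (d + 1) := by
    rw [div_le_iff₀ (by positivity)]; linarith
  refine le_of_pow_le_pow_left₀ (n := d + 1) (by omega) (by positivity) (le_trans ?_ h6)
  refine pow_le_of_le_one (by positivity) ?_ (by omega)
  rw [div_le_one (by positivity)]
  have : (1 : ℝ) ≤ 2 ^ (d + 2) := one_le_pow₀ (by norm_num)
  nlinarith [one_le_pow₀ (n := 2) hC]

theorem star_le {d : ℕ} {δ L x l D S : ℝ} (hx : 0 < x) (hS : S ^ 2 = δ * L) (hS0 : 0 ≤ S)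
    (hDp : D ^ (2 * (d + 1)) = x ^ (2 * d) * l ^ (d + 2)) (h : S * x ≤ D) :
    (δ * L) ^ (d + 1) * x ^ 2 ≤ l ^ (d + 2) := by
  have h1 : (S * x) ^ (2 * (d + 1)) ≤ D ^ (2 * (d + 1)) :=
    pow_le_pow_left₀ (by positivity) h _
  rw [hDp, mul_pow, pow_mul S, hS] at h1
  have h2 : x ^ (2 * d) * ((δ * L) ^ (d + 1) * x ^ 2) ≤ x ^ (2 * d) * l ^ (d + 2) := by
    calc _ = (δ * L) ^ (d + 1) * x ^ (2 * (d + 1)) := by ring
      _ ≤ _ := h1
  exact le_of_mul_le_mul_left h2 (by positivity)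

theorem star_ge {d : ℕ} {δ L x l D S : ℝ} (hx : 0 < x) (hS : S ^ 2 = δ * L)
    (hD : 0 ≤ D) (hDp : D ^ (2 * (d + 1)) = x ^ (2 * d) * l ^ (d + 2)) (h : D ≤ S * x) :
    l ^ (d + 2) ≤ (δ * L) ^ (d + 1) * x ^ 2 := by
  have h1 : D ^ (2 * (d + 1)) ≤ (S * x) ^ (2 * (d + 1)) :=
    pow_le_pow_left₀ hD h _
  rw [hDp, mul_pow, pow_mul S, hS] at h1
  have h2 : x ^ (2 * d) * l ^ (d + 2) ≤ x ^ (2 * d) * ((δ * L) ^ (d + 1) * x ^ 2) := by
    calc _ ≤ (δ * L) ^ (d + 1) * x ^ (2 * (d + 1)) := h1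
      _ = _ := by ring
  exact le_of_mul_le_mul_left h2 (by positivity)

end ZLOAux

open ZLOAux

/-- ZLO. -/
theorem zlo : LOWC_stmt → ZLO_stmt := by
  intro hLow d hd β hβ
  obtain ⟨C₀, c₀, hC₀, hc₀, hLow⟩ := hLow d hd β hβ
  obtain ⟨C₁, hC₁⟩ : ∃ C₁ : ℝ, C₁ = max C₀ 1 := ⟨_, rfl⟩
  obtain ⟨c, hcdef⟩ : ∃ c : ℝ, c = min c₀ 1 := ⟨_, rfl⟩
  have hC0 : C₀ ≤ C₁ := hC₁ ▸ le_max_left _ _
  have hC1 : 1 ≤ C₁ := hC₁ ▸ le_max_right _ _
  have hcc : c ≤ c₀ := hcdef ▸ min_le_left _ _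
  have hc1 : c ≤ 1 := hcdef ▸ min_le_right _ _
  have hc : 0 < c := hcdef ▸ lt_min hc₀ one_pos
  have hd1 : (1 : ℝ) ≤ d := by exact_mod_cast hd
  obtain ⟨n₀, hn₀⟩ := large d (6 * C₁ + 6 / c)
  obtain ⟨κ, hκdef⟩ : ∃ κ : ℝ, κ = 1 / (2 ^ (d + 2) * (4 * C₁ ^ 2)) := ⟨_, rfl⟩
  have hκ : 0 < κ := by rw [hκdef]; positivity
  have hκ1 : κ ≤ 1 := by
    rw [hκdef, div_le_one (by positivity)]
    have : (1 : ℝ) ≤ 2 ^ (d + 2) := one_le_pow₀ (by norm_num)
    nlinarith [one_le_pow₀ (n := 2) hC1]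
  obtain ⟨K₁, hK₁⟩ : ∃ K₁ : ℝ, K₁ = C₁ * ((4 * ((d + 1) / c ^ 2) + 7) / c) := ⟨_, rfl⟩
  obtain ⟨K₂, hK₂⟩ : ∃ K₂ : ℝ, K₂ = C₁ * (22 / (c * Real.sqrt κ)) := ⟨_, rfl⟩
  have hK₁0 : 0 < K₁ := by rw [hK₁]; positivity
  have hK₂0 : 0 < K₂ := by rw [hK₂]; positivity
  refine ⟨max K₁ K₂, min (Real.exp (-2)) β, n₀, lt_max_of_lt_left hK₁0,
    lt_min (Real.exp_pos _) hβ, ?_⟩
  intro γ hγδ hγ n hn
  have hγ0 : 0 ≤ γ := by have := min_le_right (Real.exp (-2)) β; linarith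
  have hδ2 : β - γ ≤ Real.exp (-2) := by have := min_le_left (Real.exp (-2)) β; linarith
  obtain ⟨hn3, hl4, hKl, hKn⟩ := hn₀ n hn
  obtain ⟨x, hxdef⟩ : ∃ x : ℝ, x = n := ⟨_, rfl⟩
  have hx3 : (3 : ℝ) ≤ x := by rw [hxdef]; exact_mod_cast hn3
  have hx0 : 0 < x := by linarith
  obtain ⟨l, hldef⟩ : ∃ l : ℝ, l = Real.log n := ⟨_, rfl⟩
  have hl1 : 1 ≤ l := by
    rw [hldef, ← hxdef, Real.le_log_iff_exp_le (by linarith)]
    exact le_trans Real.exp_one_lt_d9.le (by linarith)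
  rw [← hldef, ← hxdef] at hl4 hKl
  rw [← hxdef] at hKn
  have hC₁l : 6 * C₁ * l ≤ x := by
    have h1 : 0 ≤ 6 / c * l := by positivity
    have h2 : (6 * C₁ + 6 / c) * l = 6 * C₁ * l + 6 / c * l := by ring
    linarith
  have hCl : l ≤ C₁ * l := le_mul_of_one_le_left (by linarith) hC1
  have hcx : 6 ≤ c * x := by
    have h1 : 6 / c ≤ x := by linarith
    have h2 := (div_le_iff₀ hc).mp h1
    linarith
  obtain ⟨δ, hδdef⟩ : ∃ δ : ℝ, δ = β - γ := ⟨_, rfl⟩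
  have hδ0 : 0 ≤ δ := by rw [hδdef]; linarith
  rw [← hδdef] at hδ2 ⊢
  obtain ⟨D, hDdef⟩ : ∃ D : ℝ, D = x ^ ((d : ℝ) / (d + 1)) * l ^ (((d : ℝ) + 2) / (2 * d + 2)) :=
    ⟨_, rfl⟩
  have hD0 : 0 < D := by rw [hDdef]; positivity
  have hDp : D ^ (2 * (d + 1)) = x ^ (2 * d) * l ^ (d + 2) := by
    rw [hDdef]; exact D_pow hx0.le (by linarith)
  have hMM : MM d δ n = max (SS δ * x) D := by rw [MM, hDdef, hxdef, hldef]
  rw [hMM]
  have hsl : Real.sqrt l ^ 2 = l := Real.sq_sqrt (by linarith)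
  have hsl1 : 1 ≤ Real.sqrt l := by rw [Real.one_le_sqrt]; exact hl1
  have hsll : Real.sqrt l ≤ l := by
    calc Real.sqrt l ≤ Real.sqrt l * Real.sqrt l := le_mul_of_one_le_left (by linarith) hsl1
      _ = l := Real.mul_self_sqrt (by linarith)
  have hSS0 : 0 ≤ SS δ := Real.sqrt_nonneg _
  -- it suffices to bound the loss
  suffices hsuff : ∃ loss : ℝ, loss ≤ max K₁ K₂ * max (SS δ * x) D ∧
      (2 * d) ^ n * Real.exp (-loss) ≤ Zw d β γ n by
    obtain ⟨loss, h1, h2⟩ := hsuff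
    refine le_trans (mul_le_mul_of_nonneg_left (Real.exp_le_exp.mpr (by linarith))
      (by positivity)) h2
  rcases lt_or_ge (SS δ * x) D with hcase | hcase
  · -- first case
    obtain ⟨A, hAdef⟩ : ∃ A : ℕ, A = ⌈Real.sqrt l⌉₊ := ⟨_, rfl⟩
    have hA1 : Real.sqrt l ≤ A := hAdef ▸ Nat.le_ceil _
    have hA2 : (A : ℝ) ≤ 2 * Real.sqrt l := by
      have := Nat.ceil_lt_add_one (Real.sqrt_nonneg l)
      rw [← hAdef] at this
      linarith
    have hA3 : 1 ≤ A := by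
      have : (1 : ℝ) ≤ A := by linarith
      exact_mod_cast this
    have hA3' : (1 : ℝ) ≤ A := by exact_mod_cast hA3
    have hCA : C₀ * A ≤ n := by
      rw [← hxdef]
      have : C₀ * A ≤ C₁ * (2 * l) := mul_le_mul hC0 (by linarith) (by linarith) (by linarith)
      linarith
    obtain ⟨N, hN2, hlow, -, hZ⟩ := hLow γ hγ0 hγ A n n hA3 (by omega) hCA
    rw [← hxdef] at hlow
    have hN2' : (2 : ℝ) ≤ N := by exact_mod_cast hN2
    have hNn : N ≤ n := by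
      by_contra hcon
      push Not at hcon
      have hm : min n N = n := min_eq_left hcon.le
      rw [hm, ← hxdef] at hlow
      have hcon' : x < N := by rw [hxdef]; exact_mod_cast hcon
      have h1 : c * (A * (N : ℝ) ^ d) ≤ 1 := by
        have h2 : c * (A * (N : ℝ) ^ d) * x ≤ 1 * x := by
          calc c * (A * (N : ℝ) ^ d) * x ≤ c₀ * (A * (N : ℝ) ^ d) * x := by gcongr
            _ = c₀ * (A * x * (N : ℝ) ^ d) := by ring
            _ ≤ _ := by linarith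
        exact le_of_mul_le_mul_right h2 hx0
      have h3 : (N : ℝ) ≤ (N : ℝ) ^ d := le_self_pow₀ (by linarith) (by omega)
      have h4 : c * x ≤ c * (A * (N : ℝ) ^ d) := by
        refine mul_le_mul_of_nonneg_left ?_ hc.le
        have h5 : (N : ℝ) ^ d ≤ A * (N : ℝ) ^ d := le_mul_of_one_le_left (by positivity) hA3'
        linarith
      linarith
    have hm : min n N = N := min_eq_right hNn
    rw [hm] at hlow hZ
    have hlow' : c * ((A : ℝ) * (N : ℝ) ^ (d + 1)) ≤ x := by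
      calc c * ((A : ℝ) * (N : ℝ) ^ (d + 1)) ≤ c₀ * ((A : ℝ) * (N : ℝ) ^ (d + 1)) := by gcongr
        _ = c₀ * (A * N * (N : ℝ) ^ d) := by ring
        _ ≤ x := hlow
    have k1 := case1 (d := d) hl1 hc hc1 (by linarith : (0 : ℝ) < N) hA1 hlow' hD0.le hDp
    have k2 : c ^ 2 * (δ * (N : ℝ) ^ 2) ≤ d + 1 := by
      rcases hδ0.lt_or_eq with hδ | hδ
      · have hL2 : 2 ≤ Real.log (1 / δ) := by
          rw [one_div, Real.log_inv]
          have := Real.log_le_log hδ hδ2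
          rw [Real.log_exp] at this
          linarith
        have hS2 : SS δ ^ 2 = δ * Real.log (1 / δ) := Real.sq_sqrt (by positivity)
        have hstar := star_le (d := d) hx0 hS2 hSS0 hDp hcase.le
        refine case1b (d := d) hx0 hl1 hc hc1 (by linarith : (0 : ℝ) < N) hA1 hlow' hδ0 ?_ hstar
        have h1 : δ ^ (d + 1) * x ≤ 1 := by
          have h2 : δ ^ (d + 1) * x * x ≤ 1 * x := by
            calc δ ^ (d + 1) * x * x = (δ * 1) ^ (d + 1) * x ^ 2 := by ring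
              _ ≤ (δ * Real.log (1 / δ)) ^ (d + 1) * x ^ 2 := by gcongr; linarith
              _ ≤ l ^ (d + 2) := hstar
              _ ≤ x := hl4
              _ = _ := (one_mul _).symm
          exact le_of_mul_le_mul_right h2 hx0
        have h3 := Real.log_le_log (by positivity) h1
        rw [Real.log_one, Real.log_mul (by positivity) hx0.ne', Real.log_pow, hxdef, ← hldef] at h3
        rw [one_div, Real.log_inv]
        push_cast at h3
        linarith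
      · rw [← hδ]; simp; positivity
    refine ⟨_, ?_, hZ⟩
    have hlog : Real.log ((A : ℝ) * n + 1) ≤ 3 * l := by
      rw [hldef, ← hxdef]
      have h1 : (A : ℝ) * x + 1 ≤ x ^ 3 := by
        have h2 : (A : ℝ) ≤ x := by linarith
        have h3 : (A : ℝ) * x ≤ x * x := mul_le_mul_of_nonneg_right h2 hx0.le
        have h5 : x * x * 3 ≤ x * x * x := mul_le_mul_of_nonneg_left hx3 (by positivity)
        have h6 : 3 * 3 ≤ x * x := mul_le_mul hx3 hx3 (by norm_num) (by linarith)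
        have h7 : x ^ 3 = x * x * x := by ring
        linarith
      have h4 := Real.log_le_log (by positivity) h1
      rw [Real.log_pow] at h4
      push_cast at h4
      exact h4
    rw [← hδdef]
    have hA4 : (A : ℝ) ^ 2 ≤ 4 * l := by
      calc (A : ℝ) ^ 2 ≤ (2 * Real.sqrt l) ^ 2 := by gcongr
        _ = 4 * l := by rw [mul_pow, hsl]; ring
    have k3 : δ * (N : ℝ) ^ 2 ≤ (d + 1) / c ^ 2 := by
      rw [le_div_iff₀ (by positivity)]; linarith
    have k4 : δ * ((A : ℝ) * N) ^ 2 ≤ 4 * l * ((d + 1) / c ^ 2) := by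
      calc δ * ((A : ℝ) * N) ^ 2 = (A : ℝ) ^ 2 * (δ * (N : ℝ) ^ 2) := by ring
        _ ≤ _ := mul_le_mul hA4 k3 (by positivity) (by positivity)
    have k5 : δ * ((A : ℝ) * N) ^ 2 + (A : ℝ) ^ 2 + Real.log ((A : ℝ) * n + 1) ≤
        (4 * ((d + 1) / c ^ 2) + 7) * l := by
      linarith
    have k6 : (N : ℝ) ^ d * l ≤ D / c := by
      rw [le_div_iff₀ hc]; linarith
    have k7 : 0 ≤ Real.log ((A : ℝ) * n + 1) := Real.log_nonneg (by
      have : (0 : ℝ) ≤ (A : ℝ) * n := by positivity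
      linarith)
    calc C₀ * ((δ * ((A : ℝ) * N) ^ 2 + (A : ℝ) ^ 2 + Real.log ((A : ℝ) * n + 1)) * (N : ℝ) ^ d) ≤
        C₁ * ((4 * ((d + 1) / c ^ 2) + 7) * l * (N : ℝ) ^ d) := by gcongr
      _ = C₁ * ((4 * ((d + 1) / c ^ 2) + 7) * ((N : ℝ) ^ d * l)) := by ring
      _ ≤ C₁ * ((4 * ((d + 1) / c ^ 2) + 7) * (D / c)) := by gcongr
      _ = K₁ * D := by rw [hK₁]; ring
      _ ≤ max K₁ K₂ * max (SS δ * x) D :=
        mul_le_mul (le_max_left _ _) (le_max_right _ _) hD0.le (le_max_of_le_left hK₁0.le)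
  · -- second case
    have hδ : 0 < δ := by
      rcases hδ0.lt_or_eq with hδ | hδ
      · exact hδ
      · rw [← hδ] at hcase
        simp only [SS, zero_mul, Real.sqrt_zero] at hcase
        linarith
    obtain ⟨L, hLdef⟩ : ∃ L : ℝ, L = Real.log (1 / δ) := ⟨_, rfl⟩
    have hL2 : 2 ≤ L := by
      rw [hLdef, one_div, Real.log_inv]
      have := Real.log_le_log hδ hδ2
      rw [Real.log_exp] at this
      linarith
    have hS2 : SS δ ^ 2 = δ * L := by rw [hLdef] at hL2 ⊢; exact Real.sq_sqrt (by positivity)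
    have hstar := star_ge (d := d) hx0 hS2 hD0.le hDp hcase
    have hlogL : Real.log L ≤ L / 2 := by
      have h1 := Real.log_le_sub_one_of_pos (show 0 < L / 2 by linarith)
      rw [Real.log_div (by linarith) (by norm_num)] at h1
      have h2 := Real.log_two_lt_d9
      linarith
    have hLl : L ≤ 2 * l := by
      have h1 : 1 ≤ (δ * L) ^ (d + 1) * x ^ 2 :=
        le_trans (one_le_pow₀ hl1) hstar
      have h2 := Real.log_nonneg h1
      rw [Real.log_mul (by positivity) (by positivity), Real.log_pow, Real.log_pow,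
        Real.log_mul hδ.ne' (by linarith), hxdef, ← hldef] at h2
      have h3 : Real.log δ = -L := by rw [hLdef, one_div, Real.log_inv, neg_neg]
      rw [h3] at h2
      push_cast at h2
      have h4 : ((d : ℝ) + 1) * (-L + Real.log L) ≤ 2 * (-(L / 2)) := by
        have h5 : -L + Real.log L ≤ -(L / 2) := by linarith
        have h6 : ((d : ℝ) + 1) * (-L + Real.log L) ≤ ((d : ℝ) + 1) * (-(L / 2)) :=
          mul_le_mul_of_nonneg_left h5 (by positivity)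
        have h7 : 2 * (L / 2) ≤ ((d : ℝ) + 1) * (L / 2) :=
          mul_le_mul_of_nonneg_right (by linarith) (by linarith)
        linarith
      linarith
    have hsL : Real.sqrt L ^ 2 = L := Real.sq_sqrt (by linarith)
    have hsL1 : 1 ≤ Real.sqrt L := by rw [Real.one_le_sqrt]; linarith
    have hsδ : Real.sqrt δ ^ 2 = δ := Real.sq_sqrt hδ.le
    have hsδ0 : 0 < Real.sqrt δ := Real.sqrt_pos.mpr hδ
    have hδ1 : δ ≤ 1 := hδ2.trans (by rw [Real.exp_le_one_iff]; norm_num)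
    have hsδ1 : Real.sqrt δ ≤ 1 := Real.sqrt_le_one.mpr hδ1
    obtain ⟨A, hAdef⟩ : ∃ A : ℕ, A = ⌈Real.sqrt L⌉₊ := ⟨_, rfl⟩
    have hA1 : Real.sqrt L ≤ A := hAdef ▸ Nat.le_ceil _
    have hA2 : (A : ℝ) ≤ 2 * Real.sqrt L := by
      have := Nat.ceil_lt_add_one (Real.sqrt_nonneg L)
      rw [← hAdef] at this
      linarith
    have hA3' : (1 : ℝ) ≤ A := by linarith
    have hA3 : 1 ≤ A := by exact_mod_cast hA3'
    obtain ⟨h, hhdef⟩ : ∃ h : ℕ, h = ⌈1 / Real.sqrt δ⌉₊ := ⟨_, rfl⟩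
    have hi1 : 1 ≤ 1 / Real.sqrt δ := by rw [le_div_iff₀ hsδ0]; linarith
    have hh1 : 1 / Real.sqrt δ ≤ h := hhdef ▸ Nat.le_ceil _
    have hh2 : (h : ℝ) ≤ 2 / Real.sqrt δ := by
      have := Nat.ceil_lt_add_one (show 0 ≤ 1 / Real.sqrt δ by positivity)
      rw [← hhdef] at this
      have h2 : 2 / Real.sqrt δ = 1 / Real.sqrt δ + 1 / Real.sqrt δ := by ring
      linarith
    have hh3' : (1 : ℝ) ≤ h := by linarith
    have hh3 : 1 ≤ h := by exact_mod_cast hh3'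
    have hCA : C₀ * A ≤ n := by
      rw [← hxdef]
      have h1 : Real.sqrt L ≤ L := by
        calc Real.sqrt L ≤ Real.sqrt L * Real.sqrt L := le_mul_of_one_le_left (by linarith) hsL1
          _ = L := Real.mul_self_sqrt (by linarith)
      have : C₀ * A ≤ C₁ * (4 * l) := mul_le_mul hC0 (by linarith) (by linarith) (by linarith)
      linarith
    obtain ⟨N, hN2, hlow, hup, hZ⟩ := hLow γ hγ0 hγ A h n hA3 hh3 hCA
    rw [← hxdef] at hlow hup
    have hN2' : (2 : ℝ) ≤ N := by exact_mod_cast hN2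
    obtain ⟨m, hmdef⟩ : ∃ m : ℝ, m = ((min h N : ℕ) : ℝ) := ⟨_, rfl⟩
    rw [← hmdef] at hlow hup hZ
    have hm0 : 0 < m := by
      have : 0 < min h N := lt_min (by omega) (by omega)
      rw [hmdef]; exact_mod_cast this
    have hmh : m ≤ h := by rw [hmdef]; exact_mod_cast min_le_left h N
    have hmδ : Real.sqrt κ / Real.sqrt δ ≤ m := by
      have hsκ : Real.sqrt κ ≤ 1 := Real.sqrt_le_one.mpr hκ1
      rcases le_total h N with hhN | hhN
      · have : m = h := by rw [hmdef, min_eq_left hhN]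
        rw [this]
        refine le_trans ?_ hh1
        gcongr
      · have : m = N := by rw [hmdef, min_eq_right hhN]
        rw [this] at hup ⊢
        have hup' : x ≤ C₁ * ((A : ℝ) * (N : ℝ) ^ (d + 1)) := by
          calc x ≤ C₀ * ((A : ℝ) * N * (N : ℝ) ^ d) := hup
            _ = C₀ * ((A : ℝ) * (N : ℝ) ^ (d + 1)) := by ring
            _ ≤ _ := by gcongr
        have h1 := case2 (d := d) hx0 hC1 (by linarith : (0 : ℝ) < N) hA2 hup' hδ
          (by linarith) hLl hstar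
        rw [← hκdef] at h1
        rw [div_le_iff₀ hsδ0, Real.sqrt_le_left (by positivity), mul_pow, hsδ]
        linarith
    refine ⟨_, ?_, hZ⟩
    rw [← hδdef]
    have hA4 : (A : ℝ) ^ 2 ≤ 4 * L := by
      calc (A : ℝ) ^ 2 ≤ (2 * Real.sqrt L) ^ 2 := by gcongr
        _ = 4 * L := by rw [mul_pow, hsL]; ring
    have k4 : δ * ((A : ℝ) * m) ^ 2 ≤ 16 * L := by
      have h1 : m ^ 2 ≤ 4 / δ := by
        calc m ^ 2 ≤ (2 / Real.sqrt δ) ^ 2 := by
              have := hmh.trans hh2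
              gcongr
          _ = 4 / δ := by rw [div_pow, hsδ]; norm_num
      calc δ * ((A : ℝ) * m) ^ 2 = (A : ℝ) ^ 2 * (δ * m ^ 2) := by ring
        _ ≤ (4 * L) * (δ * (4 / δ)) := by gcongr
        _ = 16 * L := by field_simp; ring
    have hlog : Real.log ((A : ℝ) * h + 1) ≤ 2 * L := by
      have h1 : (A : ℝ) * h + 1 ≤ 5 * (Real.sqrt L / Real.sqrt δ) := by
        have h2 : (A : ℝ) * h ≤ (2 * Real.sqrt L) * (2 / Real.sqrt δ) := by gcongr
        have h3 : 1 ≤ Real.sqrt L / Real.sqrt δ := by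
          rw [le_div_iff₀ hsδ0]; linarith
        have h4 : (2 * Real.sqrt L) * (2 / Real.sqrt δ) = 4 * (Real.sqrt L / Real.sqrt δ) := by
          ring
        linarith
      have h5 := Real.log_le_log (by positivity) h1
      rw [Real.log_mul (by norm_num) (by positivity), Real.log_div (by positivity) (by positivity),
        Real.log_sqrt (by linarith), Real.log_sqrt hδ.le] at h5
      have h6 : Real.log δ = -L := by rw [hLdef, one_div, Real.log_inv, neg_neg]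
      rw [h6] at h5
      have h7 : Real.log 5 ≤ 2 := by
        rw [Real.log_le_iff_le_exp (by norm_num)]
        have h9 : Real.exp 2 = Real.exp 1 * Real.exp 1 := by rw [← Real.exp_add]; norm_num
        have h10 := Real.exp_one_gt_d9
        have h11 : 2.7 * 2.7 ≤ Real.exp 1 * Real.exp 1 :=
          mul_le_mul (by linarith) (by linarith) (by norm_num) (Real.exp_pos 1).le
        rw [h9]; norm_num at h11; linarith
      linarith
    have k5 : δ * ((A : ℝ) * m) ^ 2 + (A : ℝ) ^ 2 + Real.log ((A : ℝ) * h + 1) ≤ 22 * L := by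
      linarith
    have k7 : 0 ≤ Real.log ((A : ℝ) * h + 1) := Real.log_nonneg (by
      have : (0 : ℝ) ≤ (A : ℝ) * h := by positivity
      linarith)
    have hNd : (N : ℝ) ^ d * Real.sqrt L * m ≤ x / c := by
      rw [le_div_iff₀ hc]
      calc (N : ℝ) ^ d * Real.sqrt L * m * c ≤ (N : ℝ) ^ d * A * m * c₀ := by gcongr
        _ = c₀ * (A * m * (N : ℝ) ^ d) := by ring
        _ ≤ x := hlow
    have hSSe : SS δ = Real.sqrt δ * Real.sqrt L := by
      rw [SS, ← hLdef, Real.sqrt_mul hδ.le]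
    have k8 : (N : ℝ) ^ d * L ≤ SS δ * x / (c * Real.sqrt κ) := by
      have h1 : (N : ℝ) ^ d * Real.sqrt L * (Real.sqrt κ / Real.sqrt δ) ≤ x / c :=
        le_trans (mul_le_mul_of_nonneg_left hmδ (by positivity)) hNd
      rw [le_div_iff₀ (by positivity), hSSe]
      have h2 : (N : ℝ) ^ d * Real.sqrt L * Real.sqrt κ * c ≤ x * Real.sqrt δ := by
        have h3 : (N : ℝ) ^ d * Real.sqrt L * (Real.sqrt κ / Real.sqrt δ) * (Real.sqrt δ * c) ≤
            x / c * (Real.sqrt δ * c) := mul_le_mul_of_nonneg_right h1 (by positivity)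
        calc _ = (N : ℝ) ^ d * Real.sqrt L * (Real.sqrt κ / Real.sqrt δ) * (Real.sqrt δ * c) := by
              field_simp
          _ ≤ _ := h3
          _ = _ := by field_simp
      calc (N : ℝ) ^ d * L * (c * Real.sqrt κ) =
          Real.sqrt L * ((N : ℝ) ^ d * Real.sqrt L * Real.sqrt κ * c) := by
            nth_rewrite 1 [← hsL]; ring
        _ ≤ Real.sqrt L * (x * Real.sqrt δ) := by gcongr
        _ = _ := by ring
    calc C₀ * ((δ * ((A : ℝ) * m) ^ 2 + (A : ℝ) ^ 2 + Real.log ((A : ℝ) * h + 1)) * (N : ℝ) ^ d) ≤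
        C₁ * ((22 * L) * (N : ℝ) ^ d) := by gcongr
      _ = C₁ * (22 * ((N : ℝ) ^ d * L)) := by ring
      _ ≤ C₁ * (22 * (SS δ * x / (c * Real.sqrt κ))) := by gcongr
      _ = K₂ * (SS δ * x) := by rw [hK₂]; ring
      _ ≤ max K₁ K₂ * max (SS δ * x) D :=
        mul_le_mul (le_max_right _ _) (le_max_left _ _) (by positivity)
          (le_max_of_le_left hK₁0.le)

end Pool.Agent.DFE
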