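import Pool.Agent.Lib.DFE.Defs7
import Pool.Agent.Lib.DFE.PW

/-!
Row ZUP: the upper bound of the partition function up to and including the critical line.
-/

set_option autoImplicit false

namespace Pool.Agent.DFE

open Finset Pool.Agent.DCOL

namespace ZUPAux

/-- The second term of `MM`. -/
noncomputable def DD (d n : ℕ) : ℝ :=
  (n : ℝ) ^ ((d : ℝ) / (d + 1)) * Real.log n ^ (((d : ℝ) + 2) / (2 * d + 2))

theorem ev_log {p τ : ℝ} (hp : 0 < p) (hτ : 0 < τ) :
    ∀ᶠ n : ℕ in Filter.atTop, Real.log n ≤ τ * (n : ℝ) ^ p := by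
  have h := (isLittleO_log_rpow_atTop hp).bound hτ
  have h2 := (tendsto_natCast_atTop_atTop (R := ℝ)).eventually h
  filter_upwards [h2, Filter.eventually_ge_atTop 1] with n hn h1
  have h3 : (0 : ℝ) ≤ (n : ℝ) ^ p := by positivity
  rw [Real.norm_eq_abs, Real.norm_eq_abs, abs_of_nonneg h3] at hn
  exact (le_abs_self _).trans hn

theorem ev_K {K : ℝ} (hK : 0 < K) :
    ∀ᶠ n : ℕ in Filter.atTop, K * Real.log ((n : ℝ) + 2) ≤ (n : ℝ) ^ ((1 : ℝ) / 2) := by
  filter_upwards [ev_log (p := 1 / 2) (τ := 1 / (2 * K)) (by norm_num) (by positivity),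
    Filter.eventually_ge_atTop 2] with n hn h2
  have h2' : (2 : ℝ) ≤ n := by exact_mod_cast h2
  have h3 : Real.log ((n : ℝ) + 2) ≤ 2 * Real.log n := by
    rw [← Real.log_rpow (by linarith)]
    refine Real.log_le_log (by linarith) ?_
    rw [show ((2 : ℝ)) = ((2 : ℕ) : ℝ) by norm_num, Real.rpow_natCast]
    push_cast
    nlinarith
  calc K * Real.log ((n : ℝ) + 2) ≤ K * (2 * Real.log n) := mul_le_mul_of_nonneg_left h3 hK.le
    _ ≤ K * (2 * (1 / (2 * K) * (n : ℝ) ^ ((1 : ℝ) / 2))) := by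
        refine mul_le_mul_of_nonneg_left ?_ hK.le
        linarith
    _ = (n : ℝ) ^ ((1 : ℝ) / 2) := by field_simp

theorem ev_small {p τ : ℝ} (hp : 0 < p) (hτ : 0 < τ) :
    ∀ᶠ n : ℕ in Filter.atTop, (n : ℝ) ^ (-p) ≤ τ := by
  have h := ((tendsto_rpow_neg_atTop hp).comp (tendsto_natCast_atTop_atTop (R := ℝ))).eventually
    (gt_mem_nhds hτ)
  filter_upwards [h] with n hn
  exact le_of_lt hn

theorem log_ge {n : ℕ} (hn : 3 ≤ n) : 1 ≤ Real.log n := by
  have h3 : (3 : ℝ) ≤ n := by exact_mod_cast hn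
  rw [Real.le_log_iff_exp_le (by linarith)]
  exact le_trans Real.exp_one_lt_d9.le (by linarith)

theorem DD_pow {d n : ℕ} (hn : 3 ≤ n) :
    DD d n ^ (2 * d + 2) = (n : ℝ) ^ (2 * d) * Real.log n ^ (d + 2) := by
  have hl := log_ge hn
  have hd1 : (d : ℝ) + 1 ≠ 0 := by positivity
  have hd2 : 2 * (d : ℝ) + 2 ≠ 0 := by positivity
  have e1 : (d : ℝ) / (d + 1) * ((2 * d + 2 : ℕ) : ℝ) = ((2 * d : ℕ) : ℝ) := by
    push_cast
    field_simp
  have e2 : ((d : ℝ) + 2) / (2 * d + 2) * ((2 * d + 2 : ℕ) : ℝ) = ((d + 2 : ℕ) : ℝ) := by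
    push_cast
    field_simp
  unfold DD
  rw [mul_pow, ← Real.rpow_natCast, ← Real.rpow_natCast (Real.log n ^ _),
    ← Real.rpow_mul (by positivity), ← Real.rpow_mul (by linarith), e1, e2,
    Real.rpow_natCast, Real.rpow_natCast]

theorem DD_ge {d n : ℕ} (hd : 0 < d) (hn : 3 ≤ n) : (n : ℝ) ^ ((1 : ℝ) / 2) ≤ DD d n := by
  have hl := log_ge hn
  have h1 : (1 : ℝ) ≤ n := by exact_mod_cast (by omega : 1 ≤ n)
  have hd1 : (1 : ℝ) ≤ d := by exact_mod_cast hd
  have e1 : (n : ℝ) ^ ((1 : ℝ) / 2) ≤ (n : ℝ) ^ ((d : ℝ) / (d + 1)) := by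
    refine Real.rpow_le_rpow_of_exponent_le h1 ?_
    rw [div_le_div_iff₀ (by norm_num) (by linarith)]
    linarith
  have e2 : (1 : ℝ) ≤ Real.log n ^ (((d : ℝ) + 2) / (2 * d + 2)) :=
    Real.one_le_rpow hl (by positivity)
  exact e1.trans (le_mul_of_one_le_right (by positivity) e2)

theorem DD_le {d n : ℕ} (hn : 3 ≤ n)
    (hl : Real.log n ≤ 1 * (n : ℝ) ^ (1 / (2 * ((d : ℝ) + 1)))) :
    DD d n / n ≤ (n : ℝ) ^ (-(1 / (2 * ((d : ℝ) + 1)))) := by
  have hl1 := log_ge hn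
  have h1 : (1 : ℝ) ≤ n := by exact_mod_cast (by omega : 1 ≤ n)
  have h0 : (0 : ℝ) < n := by linarith
  have e1 : Real.log n ^ (((d : ℝ) + 2) / (2 * d + 2)) ≤ Real.log n := by
    have h2 : ((d : ℝ) + 2) / (2 * d + 2) ≤ 1 := by
      rw [div_le_one (by positivity)]
      have : (0 : ℝ) ≤ d := by positivity
      linarith
    calc _ ≤ Real.log n ^ (1 : ℝ) := Real.rpow_le_rpow_of_exponent_le hl1 h2
      _ = _ := Real.rpow_one _
  rw [div_le_iff₀ h0]
  calc DD d n ≤ (n : ℝ) ^ ((d : ℝ) / (d + 1)) * (n : ℝ) ^ (1 / (2 * ((d : ℝ) + 1))) := by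
        refine mul_le_mul_of_nonneg_left (e1.trans (hl.trans (by rw [one_mul]))) (by positivity)
    _ = (n : ℝ) ^ (-(1 / (2 * ((d : ℝ) + 1)))) * n := by
        rw [← Real.rpow_add h0]
        conv_rhs => rw [← Real.rpow_one (n : ℝ), ← Real.rpow_mul h0.le, one_mul,
          Real.rpow_one, ← Real.rpow_add_one h0.ne']
        congr 1
        field_simp
        ring

end ZUPAux

open ZUPAux

/-- ZUP. -/
theorem zup : UPC_stmt → ZUP_stmt := by
  intro hU d hd β hβ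
  obtain ⟨C₀, η₀, hC₀, hη₀, hU⟩ := hU d hd (β / 2) (by linarith)
  obtain ⟨δ₁, hδ₁, hSS⟩ := PWAux.SS_small (τ := η₀) hη₀
  have hp0 : (0 : ℝ) < 1 / (2 * ((d : ℝ) + 1)) := by positivity
  have hq0 : (0 : ℝ) < (1 / (2 * ((d : ℝ) + 1))) ^ (d + 2) := by positivity
  set p : ℝ := 1 / (2 * ((d : ℝ) + 1)) with hp
  obtain ⟨c₂, hc₂0, hc₂1, hc₂q⟩ : ∃ c₂ : ℝ, 0 < c₂ ∧ c₂ ≤ 1 ∧ 4 * C₀ * c₂ ≤ p ^ (d + 2) := by
    refine ⟨min 1 (p ^ (d + 2) / (4 * C₀)), lt_min one_pos (by positivity), min_le_left _ _, ?_⟩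
    calc 4 * C₀ * min 1 (p ^ (d + 2) / (4 * C₀)) ≤ 4 * C₀ * (p ^ (d + 2) / (4 * C₀)) :=
          mul_le_mul_of_nonneg_left (min_le_right _ _) (by positivity)
      _ = p ^ (d + 2) := by field_simp
  obtain ⟨n₁, h₁⟩ := Filter.eventually_atTop.mp (ev_log hp0 one_pos)
  obtain ⟨n₂, h₂⟩ := Filter.eventually_atTop.mp (ev_K (K := 4 * C₀ / c₂) (by positivity))
  obtain ⟨n₃, h₃⟩ := Filter.eventually_atTop.mp (ev_small hp0 hη₀)
  refine ⟨min (1 / 8) (c₂ / 2), min δ₁ (β / 2), max (max n₁ n₂) (max n₃ 3),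
    lt_min (by norm_num) (by linarith), lt_min hδ₁ (by linarith), fun γ hγ hγβ n hn => ?_⟩
  have k1 := h₁ n ((le_max_left _ _).trans ((le_max_left _ _).trans hn))
  have k2 := h₂ n ((le_max_right _ _).trans ((le_max_left _ _).trans hn))
  have k3 := h₃ n ((le_max_left _ _).trans ((le_max_right _ _).trans hn))
  have k4 : 3 ≤ n := (le_max_right _ _).trans ((le_max_right _ _).trans hn)
  have g1 : β / 2 ≤ γ := by
    have := min_le_right δ₁ (β / 2); linarith
  have g2 : β - γ ≤ δ₁ := by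
    have := min_le_left δ₁ (β / 2); linarith
  have hn1 : (1 : ℝ) ≤ n := by exact_mod_cast (by omega : 1 ≤ n)
  have hn0 : (0 : ℝ) < n := by linarith
  have hDge := DD_ge hd k4
  have hsq : (0 : ℝ) < (n : ℝ) ^ ((1 : ℝ) / 2) := by positivity
  have hD0 : 0 < DD d n := lt_of_lt_of_le hsq hDge
  have hMM : MM d (β - γ) n = max (SS (β - γ) * n) (DD d n) := rfl
  set δ : ℝ := β - γ with hδ
  have hlogC : C₀ * Real.log ((n : ℝ) + 2) ≤ c₂ / 4 * (n : ℝ) ^ ((1 : ℝ) / 2) := by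
    have h := mul_le_mul_of_nonneg_left k2 (show 0 ≤ c₂ / 4 by positivity)
    calc C₀ * Real.log ((n : ℝ) + 2) = c₂ / 4 * (4 * C₀ / c₂ * Real.log ((n : ℝ) + 2)) := by
          field_simp
      _ ≤ _ := h
  have hpow : (0 : ℝ) ≤ (2 * d) ^ n := by positivity
  rcases le_or_gt (DD d n) (SS δ * n) with hc | hc
  · -- the first term is larger
    have hS0 : 0 < SS δ := by
      by_contra h
      have h2 : SS δ * n ≤ 0 := mul_nonpos_of_nonpos_of_nonneg (not_lt.mp h) hn0.le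
      linarith
    have hin : 0 < δ * Real.log (1 / δ) := by
      by_contra h
      have h2 : SS δ = 0 := Real.sqrt_eq_zero_of_nonpos (not_lt.mp h)
      linarith
    have hδ0 : 0 < δ := by
      rcases lt_or_eq_of_le (show (0 : ℝ) ≤ δ by rw [hδ]; linarith) with h | h
      · exact h
      · rw [← h] at hin
        simp at hin
    have hL0 : 0 < Real.log (1 / δ) := (mul_pos_iff_of_pos_left hδ0).mp hin
    have hSsq : SS δ ^ 2 = δ * Real.log (1 / δ) := Real.sq_sqrt hin.le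
    have hη1 : SS δ / 4 ≤ η₀ := by
      have := hSS δ hδ0 g2
      linarith
    have hlogη : Real.log (1 / δ) / 4 ≤ Real.log (1 / (SS δ / 4)) := by
      have e1 : Real.log (1 / (SS δ / 4)) = Real.log 4 - Real.log (SS δ) := by
        rw [one_div_div, Real.log_div (by norm_num) hS0.ne']
      have e2 : Real.log (SS δ) = (Real.log δ + Real.log (Real.log (1 / δ))) / 2 := by
        have h := congrArg Real.log hSsq
        rw [Real.log_pow, Real.log_mul hδ0.ne' hL0.ne'] at h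
        push_cast at h
        linarith
      have e3 : Real.log (1 / δ) = -Real.log δ := by rw [one_div, Real.log_inv]
      have e4 : Real.log (Real.log (1 / δ)) ≤ Real.log (1 / δ) / 2 := by
        have h := Real.log_le_sub_one_of_pos (show 0 < Real.log (1 / δ) / 2 by positivity)
        rw [Real.log_div hL0.ne' (by norm_num)] at h
        have h2 := Real.log_two_lt_d9
        linarith
      have e5 : 0 ≤ Real.log 4 := Real.log_nonneg (by norm_num)
      rw [e1, e2]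
      linarith
    have hz := hU β γ (SS δ / 4) g1 hγβ (by positivity) hη1 n (by
      refine hlogC.trans ?_
      have h1 : (n : ℝ) ^ ((1 : ℝ) / 2) ≤ SS δ * n := hDge.trans hc
      calc c₂ / 4 * (n : ℝ) ^ ((1 : ℝ) / 2) ≤ 1 / 4 * (n : ℝ) ^ ((1 : ℝ) / 2) :=
            mul_le_mul_of_nonneg_right (by linarith) hsq.le
        _ ≤ 1 / 4 * (SS δ * n) := mul_le_mul_of_nonneg_left h1 (by norm_num)
        _ = SS δ / 4 * n := by ring) (by
      left
      unfold kk
      rw [← mul_div_assoc, le_div_iff₀ (by positivity)]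
      calc SS δ / 4 * (4 * (SS δ / 4)) = SS δ ^ 2 / 4 := by ring
        _ = δ * (Real.log (1 / δ) / 4) := by rw [hSsq]; ring
        _ ≤ _ := mul_le_mul_of_nonneg_left hlogη hδ0.le)
    refine hz.trans (mul_le_mul_of_nonneg_left (Real.exp_le_exp.mpr (neg_le_neg ?_)) hpow)
    rw [hMM, max_eq_left hc]
    have h1 : min (1 / 8) (c₂ / 2) ≤ 1 / 8 := min_le_left _ _
    have h2 : 0 ≤ SS δ * n := by positivity
    calc min (1 / 8) (c₂ / 2) * (SS δ * n) ≤ 1 / 8 * (SS δ * n) :=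
          mul_le_mul_of_nonneg_right h1 h2
      _ = SS δ / 4 * n / 2 := by ring
  · -- the second term is larger
    have hDn := DD_le k4 k1
    have hη : 0 < c₂ * (DD d n / n) := by positivity
    have hηp : c₂ * (DD d n / n) ≤ (n : ℝ) ^ (-p) := by
      have h1 : 0 ≤ DD d n / n := by positivity
      calc c₂ * (DD d n / n) ≤ 1 * (DD d n / n) := mul_le_mul_of_nonneg_right hc₂1 h1
        _ ≤ _ := by rw [one_mul]; exact hDn
    have hl1 := log_ge k4
    have hz := hU β γ (c₂ * (DD d n / n)) g1 hγβ hη (hηp.trans k3) n (by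
      refine hlogC.trans ?_
      calc c₂ / 4 * (n : ℝ) ^ ((1 : ℝ) / 2) ≤ c₂ * (n : ℝ) ^ ((1 : ℝ) / 2) :=
            mul_le_mul_of_nonneg_right (by linarith) hsq.le
        _ ≤ c₂ * DD d n := mul_le_mul_of_nonneg_left hDge hc₂0.le
        _ = c₂ * (DD d n / n) * n := by field_simp) (by
      right
      have e1 : p * Real.log n ≤ Real.log (1 / (c₂ * (DD d n / n))) := by
        rw [one_div, Real.log_inv, le_neg]
        have h := Real.log_le_log hη hηp
        rw [Real.log_rpow hn0] at h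
        linarith
      have e2 : (p * Real.log n) ^ (d + 2) ≤ Real.log (1 / (c₂ * (DD d n / n))) ^ (d + 2) :=
        pow_le_pow_left₀ (by positivity) e1 _
      refine le_trans ?_ e2
      have e3 : (c₂ * (DD d n / n)) ^ (2 * d + 2) * (n : ℝ) ^ 2 =
          c₂ ^ (2 * d + 2) * Real.log n ^ (d + 2) := by
        rw [mul_pow, div_pow, DD_pow k4, pow_add (n : ℝ) (2 * d) 2]
        field_simp
      have e4 : ((n : ℝ) + 1) ^ 2 ≤ 4 * (n : ℝ) ^ 2 := by nlinarith
      have e5 : c₂ ^ (2 * d + 2) ≤ c₂ := by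
        calc c₂ ^ (2 * d + 2) ≤ c₂ ^ 1 := pow_le_pow_of_le_one hc₂0.le hc₂1 (by omega)
          _ = c₂ := pow_one _
      have e6 : 0 ≤ Real.log n ^ (d + 2) := by positivity
      calc C₀ * (c₂ * (DD d n / n)) ^ (2 * d + 2) * ((n : ℝ) + 1) ^ 2
          ≤ C₀ * (c₂ * (DD d n / n)) ^ (2 * d + 2) * (4 * (n : ℝ) ^ 2) :=
            mul_le_mul_of_nonneg_left e4 (by positivity)
        _ = 4 * C₀ * ((c₂ * (DD d n / n)) ^ (2 * d + 2) * (n : ℝ) ^ 2) := by ring
        _ = 4 * C₀ * c₂ ^ (2 * d + 2) * Real.log n ^ (d + 2) := by rw [e3]; ring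
        _ ≤ 4 * C₀ * c₂ * Real.log n ^ (d + 2) :=
            mul_le_mul_of_nonneg_right (mul_le_mul_of_nonneg_left e5 (by positivity)) e6
        _ ≤ p ^ (d + 2) * Real.log n ^ (d + 2) := mul_le_mul_of_nonneg_right hc₂q e6
        _ = (p * Real.log n) ^ (d + 2) := by rw [mul_pow])
    refine hz.trans (mul_le_mul_of_nonneg_left (Real.exp_le_exp.mpr (neg_le_neg ?_)) hpow)
    rw [hMM, max_eq_right hc.le]
    have h1 : min (1 / 8) (c₂ / 2) ≤ c₂ / 2 := min_le_right _ _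
    calc min (1 / 8) (c₂ / 2) * DD d n ≤ c₂ / 2 * DD d n :=
          mul_le_mul_of_nonneg_right h1 hD0.le
      _ = c₂ * (DD d n / n) * n / 2 := by field_simp

end Pool.Agent.DFE
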