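import Pool.Agent.Lib.DFE.Fin5
import Pool.Agent.Lib.DFE.Fin3
import Pool.Agent.Lib.DFE.FKI
import Pool.Agent.Lib.DFE.VISC
import Pool.Agent.Lib.DFE.SITEC
import Pool.Agent.Lib.DFE.PWC
import Pool.Agent.Lib.DFE.CLSC
import Pool.Agent.Lib.DFE.ENC
import Pool.Agent.Lib.DFE.UPC
import Pool.Agent.Lib.DFE.ZUP
import Pool.Agent.Lib.DFE.LISTB
import Pool.Agent.Lib.DFE.PYR
import Pool.Agent.Lib.DFE.PEN
import Pool.Agent.Lib.DFE.LEN
import Pool.Agent.Lib.DFE.LOWC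
import Pool.Agent.Lib.DFE.ZLO
import Pool.Agent.Lib.DFE.CONV
import Pool.Agent.Lib.DFE.CONH

/-!
The scaling up to and including the critical line.
-/

set_option autoImplicit false

namespace Pool.Agent.DFE

open Pool.Agent.DCOL

theorem visc_all : VISC_stmt := visc visw

theorem fki_all : FKI_stmt := fki iso

theorem clsc_all : CLSC_stmt := clsc set_thm (pwc set_thm sitec) (cst set_thm) expl2 lev

theorem zup_all : ZUP_stmt := zup (upc set_thm visc_all run_thm (enc fki_all) clsc_all)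

theorem zlo_all : ZLO_stmt := zlo (lowc (pyr listb) pen len)

/-- The scaling. -/
theorem scaling_all {d : ℕ} (hd : 1 ≤ d) {β : ℝ} (hβ : 0 < β) :
    ∃ (γ₀ c C : ℝ) (n₀ : ℕ), γ₀ < β ∧ 0 < c ∧ 0 < C ∧ ∀ γ : ℝ, γ₀ ≤ γ → γ ≤ β →
      ∀ n : ℕ, n₀ ≤ n → ∀ M : ℝ,
      M = max (Real.sqrt ((β - γ) * Real.log (1 / (β - γ))) * n)
        ((n : ℝ) ^ ((d : ℝ) / (d + 1)) * Real.log n ^ (((d : ℝ) + 2) / (2 * d + 2))) →
      ((2 * d) ^ n * Real.exp (-(C * M)) ≤ partitionFunction d β γ n ∧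
        partitionFunction d β γ n ≤ (2 * d) ^ n * Real.exp (-(c * M))) ∧
      prob d β γ n (fun s => C * M ≤ energy β γ s) ≤ Real.exp (-M) ∧
      prob d β γ n (fun s => C * M ≤ ((visited s).card : ℝ)) ≤ Real.exp (-M) ∧
      prob d β γ n (fun s => ((visited s).card : ℝ) ≤ c * max ((β - γ) * n ^ 2 / M)
        (((n : ℝ) ^ 2 / M) ^ ((d : ℝ) / (d + 2)))) ≤ Real.exp (-M) ∧
      meanSquare d β γ n ≤ (C * M) ^ 2 :=
  scaling zup_all zlo_all (conv visc_all zlo_all) (conh zlo_all) (conl (conh zlo_all) fki_all)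
    hd hβ

end Pool.Agent.DFE
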