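import Pool.Agent.Lib.DFE.RNG
import Pool.Agent.Lib.DFE.CONH
import Pool.Agent.Lib.DFE.Fin2

/-!
Two terms of the free energy and the exact order of the range, from the row RNG.
-/

set_option autoImplicit false

namespace Pool.Agent.DFE

open Finset Pool.Agent.DCOL FinAux

/-- The rate in terms of `L = log (1/δ)`. -/
theorem et_eq {K δ : ℝ} (hδ : 0 < δ) (hL : 0 < Real.log (1 / δ)) :
    et K δ = SS δ * (1 + Real.log (Real.log (1 / δ)) / (2 * Real.log (1 / δ)) -
      (Real.log 4 / 2 + 2 * K) / Real.log (1 / δ)) := by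
  set L : ℝ := Real.log (1 / δ) with hLd
  have hS : 0 < SS δ := by unfold SS; positivity
  have hSS : SS δ ^ 2 = δ * L := by unfold SS; rw [Real.sq_sqrt (by positivity)]
  set S : ℝ := SS δ with hSd
  have ha : aa δ = S / (2 * δ) := rfl
  have ha0 : 0 < aa δ := by rw [ha]; positivity
  have ha2 : aa δ ^ 2 = L / (4 * δ) := by
    rw [ha, div_pow, hSS]
    field_simp
    norm_num
  have hlog : Real.log (aa δ) = (Real.log L - Real.log 4 + L) / 2 := by
    have h1 : Real.log (aa δ ^ 2) = 2 * Real.log (aa δ) := by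
      rw [Real.log_pow]; norm_num
    have h2 : Real.log (L / (4 * δ)) = Real.log L - Real.log 4 + L := by
      have h3 : L / (4 * δ) = L / 4 * (1 / δ) := by ring
      rw [h3, Real.log_mul (by positivity) (by positivity), Real.log_div hL.ne' (by norm_num)]
    rw [← h2, ← ha2, h1]
    ring
  have hinv : 1 / aa δ = 2 * S / L := by
    rw [ha, one_div_div, div_eq_div_iff hS.ne' hL.ne']
    linear_combination (-2) * hSS
  have h1 : δ * aa δ = S / 2 := by rw [ha]; field_simp
  have h2 : Real.log (aa δ) / (2 * aa δ) = Real.log (aa δ) * (1 / aa δ) / 2 := by ring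
  have h3 : K / aa δ = K * (1 / aa δ) := by ring
  unfold et
  rw [h1, h2, h3, hinv, hlog]
  field_simp
  ring

/-- Two terms of the free energy and the exact order of the range. -/
theorem expansion (hR : RNG_stmt) {d : ℕ} (hd : 1 ≤ d) {b B : ℝ} (hb : 0 < b) :
    ∃ C δ₀ : ℝ, 0 < C ∧ 0 < δ₀ ∧ ∀ β γ δ L S a : ℝ, b ≤ β → β ≤ B → β - δ₀ ≤ γ → γ < β →
      δ = β - γ → L = Real.log (1 / δ) → S = Real.sqrt (δ * L) → a = S / (2 * δ) →
      ∃ n₀ : ℕ, ∀ n : ℕ, n₀ ≤ n →
        ((2 * d) ^ n * Real.exp (-(S * (1 + Real.log L / (2 * L) + C / L) * n)) ≤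
            partitionFunction d β γ n ∧
          partitionFunction d β γ n ≤
            (2 * d) ^ n * Real.exp (-(S * (1 + Real.log L / (2 * L) - C / L) * n))) ∧
        prob d β γ n (fun s => ((visited s).card : ℝ) ≤ n / (C * a)) ≤ Real.exp (-(n / a)) ∧
        prob d β γ n (fun s => C * (n / a) ≤ ((visited s).card : ℝ)) ≤ Real.exp (-(n / a)) ∧
        meanSquare d β γ n ≤ (C * (n / a)) ^ 2 := by
  rcases lt_or_ge B b with hBb | hbB
  · exact ⟨1, 1, one_pos, one_pos, fun β γ δ L S a h1 h2 => absurd (h1.trans h2) (not_le.mpr hBb)⟩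
  obtain ⟨C₀, δ₁, hC₀, hδ₁, h1⟩ := hR d hd b B hb hbB
  have hl4 : 0 < Real.log 4 := Real.log_pos (by norm_num)
  have hd0 : (0 : ℝ) < d := by exact_mod_cast hd
  set C : ℝ := C₀ * 2 + Real.log 4 / 2 + 64 with hC
  -- a small distance such that `L ≥ 1` and the rate is at most `3 S`
  set δ₂ : ℝ := Real.exp (-(4 * C + 4)) with hδ₂
  have hδ₂0 : 0 < δ₂ := Real.exp_pos _
  refine ⟨C, min (min δ₁ δ₂) (b / 2), by positivity, by positivity,
    fun β γ δ L S a hbβ hβB hγ hγβ hδ hL hS ha => ?_⟩
  have e1 : min (min δ₁ δ₂) (b / 2) ≤ δ₁ := (min_le_left _ _).trans (min_le_left _ _)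
  have e2 : min (min δ₁ δ₂) (b / 2) ≤ δ₂ := (min_le_left _ _).trans (min_le_right _ _)
  have e3 : min (min δ₁ δ₂) (b / 2) ≤ b / 2 := min_le_right _ _
  have hδ0 : 0 < δ := by rw [hδ]; linarith
  have hδ2 : δ ≤ δ₂ := by rw [hδ]; linarith
  have hγ0 : 0 ≤ γ := by linarith
  have hL1 : 4 * C + 4 ≤ L := by
    rw [hL, Real.log_div one_ne_zero hδ0.ne', Real.log_one, zero_sub, le_neg]
    have h2 := Real.log_le_log hδ0 hδ2
    rwa [hδ₂, Real.log_exp] at h2
  have hC0 : 0 < C := by positivity
  have hL0 : 0 < L := by linarith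
  have hSS : S = SS δ := by rw [hS, hL]; rfl
  have haa : a = aa δ := by rw [ha, hSS]; rfl
  have hS0 : 0 < S := by rw [hS]; positivity
  have ha0 : 0 < a := by rw [ha]; positivity
  have hS2 : S ^ 2 = δ * L := by rw [hS, Real.sq_sqrt (by positivity)]
  have hinv : 1 / a = 2 * S / L := by
    rw [ha, one_div_div, div_eq_div_iff hS0.ne' hL0.ne']
    nlinarith
  have hetK : ∀ K : ℝ, et K δ = S * (1 + Real.log L / (2 * L) -
      (Real.log 4 / 2 + 2 * K) / L) := by
    intro K
    rw [et_eq hδ0 (by rw [← hL]; exact hL0), ← hL, ← hSS]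
  obtain ⟨n₁, hn₁⟩ := h1 β γ hbβ hβB hγβ (by linarith)
  rw [← hδ, ← haa] at hn₁
  refine ⟨max n₁ 1, fun n hn => ?_⟩
  obtain ⟨m1, m2, m3, m4⟩ := hn₁ n ((le_max_left _ _).trans hn)
  have hn1 : (1 : ℝ) ≤ n := by exact_mod_cast (le_max_right _ _).trans hn
  have hn0 : (0 : ℝ) < n := by linarith
  have hd2 : (0 : ℝ) < (2 * d) ^ n := by positivity
  have hna : 0 < (n : ℝ) / a := by positivity
  have hCC : C₀ * (n / a) ≤ C * (n / a) := mul_le_mul_of_nonneg_right (by rw [hC]; linarith) hna.le
  have hZlow : (2 * d) ^ n * Real.exp (-(S * (1 + Real.log L / (2 * L) + C / L) * n)) ≤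
      Zw d β γ n := by
    refine le_trans (mul_le_mul_of_nonneg_left (Real.exp_le_exp.mpr (neg_le_neg ?_)) hd2.le) m1
    refine mul_le_mul_of_nonneg_right ?_ hn0.le
    rw [hetK]
    refine mul_le_mul_of_nonneg_left ?_ hS0.le
    have : -((Real.log 4 / 2 + 2 * -C₀) / L) ≤ C / L := by
      rw [← neg_div]
      gcongr
      rw [hC]; linarith
    linarith
  rw [partition_eq]
  refine ⟨⟨hZlow, ?_⟩, ?_, ?_, ?_⟩
  · refine m2.trans (mul_le_mul_of_nonneg_left (Real.exp_le_exp.mpr (neg_le_neg ?_)) hd2.le)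
    refine mul_le_mul_of_nonneg_right ?_ hn0.le
    rw [hetK]
    refine mul_le_mul_of_nonneg_left ?_ hS0.le
    have : (Real.log 4 / 2 + 2 * C₀) / L ≤ C / L := by
      gcongr
      rw [hC]; linarith
    linarith
  · -- the energy is at most `8 S n`
    have hlogL : Real.log L / (2 * L) ≤ 1 / 2 := by
      rw [div_le_iff₀ (by positivity)]
      have := Real.log_le_sub_one_of_pos hL0
      linarith
    have hCL : C / L ≤ 1 / 4 := by
      rw [div_le_iff₀ hL0]
      linarith
    have hz : (2 * d) ^ n * Real.exp (-(2 * S * n)) ≤ Zw d β γ n := by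
      refine le_trans (mul_le_mul_of_nonneg_left (Real.exp_le_exp.mpr (neg_le_neg ?_)) hd2.le) hZlow
      refine mul_le_mul_of_nonneg_right ?_ hn0.le
      nlinarith
    have hw := TAILAux.weight_le (β := β) (γ := γ) (β' := β / 2) (γ' := γ / 2) (a := 4 * S * n)
      (fun s : Fin n → Step d => 8 * S * n ≤ energy β γ s) (by
        intro s hs
        have h3 := En_scale (β := β / 2) (γ := γ / 2) (θ := 1 / 2) (by norm_num)
          (loc (List.ofFn s))
        rw [energy_eq, energy_eq, h3]
        have e1 : β / 2 / (1 / 2) = β := by ring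
        have e2 : γ / 2 / (1 / 2) = γ := by ring
        rw [e1, e2]
        rw [energy_eq] at hs
        linarith)
    have hP : prob d β γ n (fun s => 8 * S * n ≤ energy β γ s) ≤ Real.exp (-(n / a)) := by
      unfold prob
      rw [partition_eq, div_le_iff₀ (TAILAux.Zw_pos hd β γ n)]
      refine hw.trans ?_
      have h3 := CONAux.Zw_le hd (β := β / 2) (γ := γ / 2) (by linarith) (by linarith) n
      have h4 : (n : ℝ) / a ≤ 2 * S * n := by
        have : (n : ℝ) / a = n * (1 / a) := by ring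
        rw [this, hinv]
        have h5 : 2 * S / L ≤ 2 * S := div_le_self (by positivity) (by linarith)
        nlinarith
      calc Real.exp (-(4 * S * n)) * Zw d (β / 2) (γ / 2) n
          ≤ Real.exp (-(4 * S * n)) * (2 * d) ^ n :=
            mul_le_mul_of_nonneg_left h3 (Real.exp_pos _).le
        _ = Real.exp (-(2 * S * n)) * ((2 * d) ^ n * Real.exp (-(2 * S * n))) := by
            rw [mul_left_comm, ← Real.exp_add, mul_comm]
            congr 2
            ring
        _ ≤ Real.exp (-(n / a)) * Zw d β γ n := by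
            refine mul_le_mul (Real.exp_le_exp.mpr (by linarith)) hz (by positivity)
              (Real.exp_pos _).le
    refine le_trans (prob_mono hd β γ fun s hs => ?_) hP
    by_contra hE
    rw [not_le] at hE
    have hv := vlo d n hd s
    set V : ℝ := ((visited s).card : ℝ) with hV
    have hV0 : 0 ≤ V := Nat.cast_nonneg _
    have hen : δ * ∑' x, (localTime s x : ℝ) ^ 2 ≤ energy β γ s := by
      set f : Site d →₀ ℕ := fld (List.ofFn s) with hf
      have h2 : En β γ (fun x => (f x : ℝ)) = energy β γ s := by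
        rw [energy_eq]
        congr 1
        funext x
        rw [loc_eq]
        rfl
      have h3 := ENBAux.En_ge_all hd (β := β) hγ0 f ∅
      rw [Finset.sum_empty, mul_zero, add_zero, h2, ← hδ] at h3
      refine le_trans (le_of_eq ?_) h3
      congr 1
      rw [VLTAux.tsum_sq, hf, fld_support, visited_eq]
      refine Finset.sum_congr rfl fun x _ => ?_
      rw [localTime_eq]
      rfl
    have h5 : δ * (n : ℝ) ^ 2 ≤ V * (8 * S * n) := by
      calc δ * (n : ℝ) ^ 2 ≤ δ * ((n : ℝ) + 1) ^ 2 := by gcongr; linarith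
        _ ≤ δ * (V * ∑' x, (localTime s x : ℝ) ^ 2) := mul_le_mul_of_nonneg_left hv hδ0.le
        _ = V * (δ * ∑' x, (localTime s x : ℝ) ^ 2) := by ring
        _ ≤ V * (8 * S * n) := mul_le_mul_of_nonneg_left (hen.trans hE.le) hV0
    have h6 : V * (C * a) ≤ n := by
      rw [le_div_iff₀ (by positivity)] at hs
      exact hs
    -- `δ = S / (2 a)`
    have h7 : δ = S / (2 * a) := by rw [ha]; field_simp
    have h8 : δ * (n : ℝ) ^ 2 * (C * a) ≤ n * (8 * S * n) := by
      calc δ * (n : ℝ) ^ 2 * (C * a) ≤ V * (8 * S * n) * (C * a) :=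
            mul_le_mul_of_nonneg_right h5 (by positivity)
        _ = V * (C * a) * (8 * S * n) := by ring
        _ ≤ n * (8 * S * n) := mul_le_mul_of_nonneg_right h6 (by positivity)
    have h9 : δ * (n : ℝ) ^ 2 * (C * a) = C / 16 * (n * (8 * S * n)) := by
      rw [h7]; field_simp; norm_num
    have h10 : 0 < (n : ℝ) * (8 * S * n) := by positivity
    have h11 : 4 ≤ C / 16 := by rw [hC]; linarith
    nlinarith
  · exact le_trans (prob_mono hd β γ fun s hs => hCC.trans hs) m3
  · exact m4.trans (pow_le_pow_left₀ (by positivity) hCC 2)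

end Pool.Agent.DFE
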