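import Pool.Agent.Lib.DFE.Defs8

/-!
Row HOL: interpolation in `γ` at fixed `δ = β - γ` (convexity of the exponential function).
-/

set_option autoImplicit false

namespace Pool.Agent.DFE

open Finset Pool.Agent.DCOL

/-- The convexity of the exponential function. -/
theorem exp_convex_two {θ X Y : ℝ} (h0 : 0 ≤ θ) (h1 : θ ≤ 1) :
    Real.exp ((1 - θ) * X + θ * Y) ≤ (1 - θ) * Real.exp X + θ * Real.exp Y := by
  have h := convexOn_exp.2 (Set.mem_univ X) (Set.mem_univ Y) (by linarith : 0 ≤ 1 - θ) h0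
    (by ring)
  simpa only [smul_eq_mul] using h

/-- **HOL.** -/
theorem hol (hU : UPH_stmt) (hB : UBH_stmt) : HOL_stmt := by
  intro d hd b B hb hbB
  have hd0 : (0 : ℝ) < d := by exact_mod_cast hd
  have hB0 : 0 < B := by linarith
  set γ₁ : ℝ := b / 2 with hγ₁
  set γ₂ : ℝ := max (Gam d) (B + 1) with hγ₂
  have hγ₂G : Gam d ≤ γ₂ := le_max_left _ _
  have hγ₂B : B + 1 ≤ γ₂ := le_max_right _ _
  have hD : 0 < γ₂ - γ₁ := by rw [hγ₁]; linarith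
  set θ₀ : ℝ := b / 2 / (γ₂ - γ₁) with hθ₀
  have hθ₀0 : 0 < θ₀ := by positivity
  set c : ℝ := θ₀ / (16 * d) with hc
  have hc0 : 0 < c := by positivity
  obtain ⟨K₁, hK₁, h1⟩ := hU d hd γ₁ c (by positivity) hc0
  obtain ⟨K₂, hK₂, h2⟩ := hB d hd
  obtain ⟨C, δ₁, hC, hδ₁, h1⟩ := h1 (max K₁ K₂) (le_max_left _ _)
  obtain ⟨δ₂, hδ₂, h2⟩ := h2 (max K₁ K₂) (le_max_right _ _)
  set K : ℝ := max K₁ K₂ with hK
  set C' : ℝ := max C (Real.exp (3 * (1 / (8 * d)))) with hC'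
  have hC'0 : 0 < C' := lt_max_of_lt_left hC
  refine ⟨c, K, C', min δ₁ δ₂, hc0, lt_max_of_lt_left hK₁, hC'0, lt_min hδ₁ hδ₂,
    fun β γ hbγ hγβ hβB hδ n => ?_⟩
  set δ : ℝ := β - γ with hδd
  have hδ0 : 0 < δ := by rw [hδd]; linarith
  have g1 := h1 (γ₁ + δ) γ₁ le_rfl (by linarith)
    (by rw [add_sub_cancel_left]; exact hδ.trans (min_le_left _ _)) n
  have g2 := h2 (γ₂ + δ) γ₂ hγ₂G (by linarith)
    (by rw [add_sub_cancel_left]; exact hδ.trans (min_le_right _ _)) n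
  rw [add_sub_cancel_left] at g1 g2
  have hn0 : (0 : ℝ) ≤ n := Nat.cast_nonneg _
  have hn2 : (1 : ℝ) ≤ 2 * (n : ℝ) + 2 := by linarith
  set E : ℝ := Real.exp (-(et K δ * n)) with hE
  have hE0 : 0 < E := Real.exp_pos _
  set M : ℝ := (2 * d) ^ n * (C' * (2 * (n : ℝ) + 2) ^ (d + 2) * E) with hM
  have hM1 : ∑ w ∈ allw d n, Real.exp (-(c * ((vis 0 w).card : ℝ)) - En (γ₁ + δ) γ₁ (loc w)) ≤
      M := by
    refine g1.trans ?_
    rw [hM]
    have e1 : (2 * (n : ℝ) + 2) ^ (d + 1) ≤ (2 * (n : ℝ) + 2) ^ (d + 2) :=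
      pow_le_pow_right₀ hn2 (by omega)
    have e2 : C ≤ C' := le_max_left _ _
    gcongr
  have hM2 : ∑ w ∈ allw d n, Real.exp (1 / (8 * d) * ((vis 0 w).card : ℝ) -
      En (γ₂ + δ) γ₂ (loc w)) ≤ M := by
    refine g2.trans ?_
    rw [hM]
    refine mul_le_mul_of_nonneg_left ?_ (by positivity)
    rw [sub_eq_add_neg, Real.exp_add, ← hE]
    have e1 : ((n : ℝ) + 1) ^ 2 ≤ (2 * (n : ℝ) + 2) ^ (d + 2) :=
      (pow_le_pow_left₀ (by positivity) (by linarith) 2).trans (pow_le_pow_right₀ hn2 (by omega))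
    have e2 : Real.exp (3 * (1 / (8 * (d : ℝ)))) ≤ C' := le_max_right _ _
    calc ((n : ℝ) + 1) ^ 2 * (Real.exp (3 * (1 / (8 * d))) * E) =
        Real.exp (3 * (1 / (8 * d))) * ((n : ℝ) + 1) ^ 2 * E := by ring
      _ ≤ _ := by gcongr
  -- the interpolation
  set θ : ℝ := (γ - γ₁) / (γ₂ - γ₁) with hθ
  have hθD : θ * (γ₂ - γ₁) = γ - γ₁ := by rw [hθ]; field_simp
  have hθ1 : θ ≤ 1 := by
    rw [hθ, div_le_one hD]
    linarith
  have hθθ : θ₀ ≤ θ := by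
    rw [hθ₀, hθ]
    refine div_le_div_of_nonneg_right ?_ hD.le
    rw [hγ₁]; linarith
  have hθ0 : 0 ≤ θ := hθ₀0.le.trans hθθ
  have hterm : ∀ w ∈ allw d n, Real.exp (c * ((vis 0 w).card : ℝ) - En β γ (loc w)) ≤
      (1 - θ) * Real.exp (-(c * ((vis 0 w).card : ℝ)) - En (γ₁ + δ) γ₁ (loc w)) +
      θ * Real.exp (1 / (8 * d) * ((vis 0 w).card : ℝ) - En (γ₂ + δ) γ₂ (loc w)) := by
    intro w _
    refine le_trans (Real.exp_le_exp.mpr ?_) (exp_convex_two hθ0 hθ1)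
    have hV : (0 : ℝ) ≤ ((vis 0 w).card : ℝ) := Nat.cast_nonneg _
    set V : ℝ := ((vis 0 w).card : ℝ)
    have e1 : En β γ (loc w) = (1 - θ) * En (γ₁ + δ) γ₁ (loc w) + θ * En (γ₂ + δ) γ₂ (loc w) := by
      unfold En
      have e2 : β = (1 - θ) * (γ₁ + δ) + θ * (γ₂ + δ) := by
        rw [hδd]; linear_combination -hθD
      have e3 : γ = (1 - θ) * γ₁ + θ * γ₂ := by linear_combination -hθD
      set A := ∑' x, loc w x ^ 2
      set A' := ∑' x, ∑ s : Step d, loc w x * loc w (x + vec s)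
      calc β * A - γ / (2 * d) * A' = ((1 - θ) * (γ₁ + δ) + θ * (γ₂ + δ)) * A -
            ((1 - θ) * γ₁ + θ * γ₂) / (2 * d) * A' := by rw [← e2, ← e3]
        _ = _ := by ring
    have e4 : 1 / (8 * (d : ℝ)) * θ₀ = 2 * c := by rw [hc]; field_simp; norm_num
    have e5 : 2 * c * V ≤ 1 / (8 * (d : ℝ)) * θ * V := by
      rw [← e4]
      gcongr
    have e6 : c * V * (1 - θ) ≤ c * V := by
      have : 0 ≤ c * V * θ := by positivity
      linarith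
    rw [e1]
    linarith
  calc ∑ w ∈ allw d n, Real.exp (c * ((vis 0 w).card : ℝ) - En β γ (loc w)) ≤
      ∑ w ∈ allw d n, ((1 - θ) * Real.exp (-(c * ((vis 0 w).card : ℝ)) -
        En (γ₁ + δ) γ₁ (loc w)) +
      θ * Real.exp (1 / (8 * d) * ((vis 0 w).card : ℝ) - En (γ₂ + δ) γ₂ (loc w))) :=
        Finset.sum_le_sum hterm
    _ = (1 - θ) * ∑ w ∈ allw d n, Real.exp (-(c * ((vis 0 w).card : ℝ)) -
        En (γ₁ + δ) γ₁ (loc w)) + θ * ∑ w ∈ allw d n,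
        Real.exp (1 / (8 * d) * ((vis 0 w).card : ℝ) - En (γ₂ + δ) γ₂ (loc w)) := by
        rw [Finset.sum_add_distrib, Finset.mul_sum, Finset.mul_sum]
    _ ≤ (1 - θ) * M + θ * M :=
        add_le_add (mul_le_mul_of_nonneg_left hM1 (by linarith))
          (mul_le_mul_of_nonneg_left hM2 hθ0)
    _ = M := by ring

end Pool.Agent.DFE
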