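import Pool.Agent.Lib.DFE.Defs8
import Pool.Agent.Lib.DFE.LOW

/-!
Row LOH: the lower bound of the partition function with two terms of the rate.
-/

set_option autoImplicit false

namespace Pool.Agent.DFE

open Finset Pool.Agent.DCOL LowAux

namespace LOHAux

theorem core {d : ℕ} (hd : 0 < d) {C : ℝ} (hC : 0 ≤ C) (hbox : ∀ a N : ℕ, 1 ≤ a → 1 ≤ N →
    ∃ W : Finset (List (Step d)), W.Nonempty ∧
    (∀ w ∈ W, w.length = ∑ x ∈ box d N, a * deg N x ∧ endp w = 0 ∧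
      ∀ x, lt w x = if x ∈ box d N then a * deg N x else 0) ∧
    (N : ℝ) ^ d * (2 * d * a * Real.log (2 * d) - 1 / 2 * Real.log a - C) -
      C * a * (N : ℝ) ^ (d - 1) ≤ Real.log W.card) {B β γ R ε : ℝ} (hγ : 0 ≤ γ) (hγβ : γ < β)
    (hβB : β ≤ B) (hε : 0 < ε) (hR : 0 ≤ R) {a : ℕ} (ha : 1 ≤ a)
    (hha : 1 / 2 * Real.log a + C + (β - γ) * (2 * d * a + 1) ^ 2 ≤ R * (2 * d * a)) :
    ∃ n₀ : ℕ, ∀ n : ℕ, n₀ ≤ n →
      (2 * d) ^ n * Real.exp (-((R + ε) * n)) ≤ Zw d β γ n := by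
  classical
  have hB : 0 < B := by linarith
  set δ : ℝ := β - γ with hδd
  set D : ℝ := (2 * d * a + 1) ^ 2 with hD
  set c : ℝ := Real.log (2 * d) with hc
  have hd1 : (1 : ℝ) ≤ d := by exact_mod_cast hd
  have hc0 : 0 ≤ c := Real.log_nonneg (by linarith)
  have ha1 : (1 : ℝ) ≤ a := by exact_mod_cast ha
  set C₁ : ℝ := 2 * d * (d * 2 ^ (d - 1) + 1) with hC₁
  set Q : ℝ := C * a + B * D * (2 * d) + (B + c) * (a * C₁) with hQ
  have hQ0 : 0 ≤ Q := by positivity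
  obtain ⟨N₀, hN₀⟩ := exists_nat_ge (Q / ε + 1)
  have hN₀1 : 1 ≤ N₀ := by
    have h1 : (1 : ℝ) ≤ N₀ := by
      have : 0 ≤ Q / ε := by positivity
      linarith
    exact_mod_cast h1
  have hQN : Q ≤ ε * N₀ := by
    have h1 : Q / ε ≤ N₀ := by linarith
    rw [div_le_iff₀ (by positivity)] at h1
    linarith
  refine ⟨2 * d * a * N₀ ^ d, fun n hn => ?_⟩
  -- the side of the box
  have hda : 1 ≤ 2 * d * a := Nat.one_le_iff_ne_zero.mpr (by positivity)
  have hN₀n : N₀ ≤ n := by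
    calc N₀ = 1 * N₀ ^ 1 := by ring
      _ ≤ 2 * d * a * N₀ ^ d :=
        Nat.mul_le_mul hda (Nat.pow_le_pow_right hN₀1 hd)
      _ ≤ n := hn
  set N := Nat.findGreatest (fun N => 2 * d * a * N ^ d ≤ n) n with hN
  have hNN₀ : N₀ ≤ N := Nat.le_findGreatest hN₀n hn
  have hN1 : 1 ≤ N := hN₀1.trans hNN₀
  have hNn : 2 * d * a * N ^ d ≤ n :=
    Nat.findGreatest_spec (P := fun N => 2 * d * a * N ^ d ≤ n) hN₀n hn
  have hNn' : n < 2 * d * a * (N + 1) ^ d := by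
    by_contra hcon
    rw [not_lt] at hcon
    by_cases hlt : N + 1 ≤ n
    · have := Nat.le_findGreatest (P := fun N => 2 * d * a * N ^ d ≤ n) hlt hcon
      rw [← hN] at this
      omega
    · have h1 : N + 1 ≤ 2 * d * a * (N + 1) ^ d := by
        calc N + 1 = 1 * (N + 1) ^ 1 := by ring
          _ ≤ 2 * d * a * (N + 1) ^ d :=
            Nat.mul_le_mul hda (Nat.pow_le_pow_right (by omega) hd)
      omega
  obtain ⟨W, hWne, hW, hWc⟩ := hbox a N ha hN1
  set T : ℕ := ∑ x ∈ box d N, a * deg N x with hT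
  have hT1 : T ≤ 2 * d * a * N ^ d := by
    rw [hT]
    calc ∑ x ∈ box d N, a * deg N x ≤ ∑ _x ∈ box d N, a * (2 * d) :=
          Finset.sum_le_sum fun x _ => Nat.mul_le_mul_left _ (deg_le x)
      _ = 2 * d * a * N ^ d := by
          rw [Finset.sum_const, card_box, smul_eq_mul]
          ring
  have hT2 : 2 * d * a * N ^ d ≤ T + 2 * d * a * N ^ (d - 1) := by
    have h1 := Nat.mul_le_mul_left a (sum_deg (d := d) N)
    rw [mul_add, Finset.mul_sum, ← hT] at h1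
    calc 2 * d * a * N ^ d = a * (2 * d * N ^ d) := by ring
      _ ≤ T + a * (2 * d * N ^ (d - 1)) := h1
      _ = _ := by ring
  have hTn : T ≤ n := hT1.trans hNn
  set r : ℕ := n - T with hr
  have hrT : (n : ℝ) = T + r := by
    have : n = T + r := by omega
    exact_mod_cast this
  have hrle : (r : ℝ) ≤ a * C₁ * N ^ (d - 1) := by
    have h1 : r ≤ 2 * d * a * ((d * 2 ^ (d - 1) + 1) * N ^ (d - 1)) := by
      have h2 := pow_succ_le hN1 (d - 1)
      rw [show d - 1 + 1 = d by omega] at h2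
      have h3 := Nat.mul_le_mul_left (2 * d * a) h2
      rw [mul_add] at h3
      have h4 : 2 * d * a * ((d * 2 ^ (d - 1) + 1) * N ^ (d - 1)) =
          2 * d * a * (d * 2 ^ (d - 1) * N ^ (d - 1)) + 2 * d * a * N ^ (d - 1) := by ring
      rw [h4]
      omega
    have h2 : (r : ℝ) ≤ 2 * d * a * ((d * 2 ^ (d - 1) + 1) * N ^ (d - 1)) := by exact_mod_cast h1
    rw [hC₁]
    calc (r : ℝ) ≤ _ := h2
      _ = _ := by ring
  -- the words
  set s : Step d := (⟨0, hd⟩, false) with hs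
  set E : ℝ := δ * (D * N ^ d) + γ * (D * (2 * d * N ^ (d - 1))) + β * r with hE
  set W' := W.image fun w => w ++ List.replicate r s with hW'
  have hW'c : W'.card = W.card := Finset.card_image_of_injective _ (List.append_left_injective _)
  have hsub : W' ⊆ allw d n := by
    intro w hw
    obtain ⟨w', hw', rfl⟩ := Finset.mem_image.mp hw
    rw [mem_allw, List.length_append, List.length_replicate, (hW w' hw').1]
    omega
  have hZ : (W.card : ℝ) * Real.exp (-E) ≤ Zw d β γ n := by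
    calc (W.card : ℝ) * Real.exp (-E) = ∑ _w ∈ W', Real.exp (-E) := by
          rw [Finset.sum_const, nsmul_eq_mul, hW'c]
      _ ≤ ∑ w ∈ W', Real.exp (-En β γ (loc w)) := by
        refine Finset.sum_le_sum fun w hw => ?_
        obtain ⟨w', hw', rfl⟩ := Finset.mem_image.mp hw
        refine Real.exp_le_exp.mpr (neg_le_neg ?_)
        exact En_word hd hγ hγβ.le ha hN1 (hW w' hw').2.1 (hW w' hw').2.2 r
      _ ≤ _ := Finset.sum_le_sum_of_subset_of_nonneg hsub fun w _ _ => (Real.exp_pos _).le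
  refine le_trans ?_ hZ
  have hWc0 : (0 : ℝ) < W.card := by exact_mod_cast Finset.card_pos.mpr hWne
  have hpow : ((2 : ℝ) * d) ^ n = Real.exp (n * c) := by
    rw [hc, Real.exp_nat_mul, Real.exp_log (by positivity)]
  rw [hpow, ← Real.exp_add]
  rw [show (W.card : ℝ) * Real.exp (-E) = Real.exp (Real.log W.card + -E) by
    rw [Real.exp_add, Real.exp_log hWc0]]
  refine Real.exp_le_exp.mpr ?_
  -- the final count
  have hN0 : (0 : ℝ) ≤ (N : ℝ) ^ d := by positivity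
  have hN0' : (0 : ℝ) ≤ (N : ℝ) ^ (d - 1) := by positivity
  have f1 : (T : ℝ) ≤ 2 * d * a * N ^ d := by exact_mod_cast hT1
  have f2 : 2 * d * a * (N : ℝ) ^ d ≤ n := by exact_mod_cast hNn
  have f3 : (n : ℝ) * c ≤ 2 * d * a * N ^ d * c + r * c := by
    rw [hrT, add_mul]
    have := mul_le_mul_of_nonneg_right f1 hc0
    linarith
  have f4 : (N : ℝ) ^ d * (1 / 2 * Real.log a + C + δ * D) ≤ R * n := by
    calc (N : ℝ) ^ d * (1 / 2 * Real.log a + C + δ * D) ≤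
          (N : ℝ) ^ d * (R * (2 * d * a)) := mul_le_mul_of_nonneg_left hha hN0
      _ = R * (2 * d * a * N ^ d) := by ring
      _ ≤ _ := mul_le_mul_of_nonneg_left f2 hR
  have f5 : (N : ℝ) ^ (d - 1) * (C * a + γ * D * (2 * d)) + r * (c + β) ≤ ε * n := by
    have g1 : r * (c + β) ≤ N ^ (d - 1) * ((B + c) * (a * C₁)) := by
      calc r * (c + β) ≤ (a * C₁ * N ^ (d - 1)) * (c + B) := by
            refine mul_le_mul hrle (by linarith) (by linarith) (by positivity)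
        _ = _ := by ring
    have g2 : γ * D * (2 * d) ≤ B * D * (2 * d) := by
      have : γ ≤ B := by linarith
      have hD0 : 0 ≤ D := by positivity
      gcongr
    have g3 : (N : ℝ) ^ (d - 1) * (C * a + γ * D * (2 * d)) ≤
        N ^ (d - 1) * (C * a + B * D * (2 * d)) :=
      mul_le_mul_of_nonneg_left (by linarith) hN0'
    have g4 : (N : ℝ) ^ (d - 1) * Q ≤ N ^ (d - 1) * (ε * N) := by
      refine mul_le_mul_of_nonneg_left (hQN.trans ?_) hN0'
      refine mul_le_mul_of_nonneg_left ?_ (by positivity)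
      exact_mod_cast hNN₀
    have g5 : (N : ℝ) ^ (d - 1) * (ε * N) ≤ ε * n := by
      have e1 : (N : ℝ) ^ (d - 1) * N = N ^ d := by
        rw [← pow_succ, show d - 1 + 1 = d by omega]
      have e2 : (N : ℝ) ^ d ≤ n := by
        refine le_trans ?_ f2
        have : (1 : ℝ) ≤ 2 * d * a := by exact_mod_cast hda
        calc (N : ℝ) ^ d = 1 * N ^ d := (one_mul _).symm
          _ ≤ _ := mul_le_mul_of_nonneg_right this hN0
      calc (N : ℝ) ^ (d - 1) * (ε * N) = ε * (N ^ (d - 1) * N) := by ring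
        _ = ε * N ^ d := by rw [e1]
        _ ≤ _ := mul_le_mul_of_nonneg_left e2 (by positivity)
    rw [hQ, mul_add] at g4
    linarith
  rw [hE]
  linarith

/-- The choice of the height. -/
theorem height2 {d : ℕ} (hd : 0 < d) {C : ℝ} (hC : 0 ≤ C) : ∃ δ₀ : ℝ, 0 < δ₀ ∧
    ∀ δ : ℝ, 0 < δ → δ ≤ δ₀ → 0 < aa δ ∧
      0 ≤ δ * aa δ + Real.log (aa δ) / (2 * aa δ) + (C + (2 * d + 2) + (2 * d + 1) ^ 2) / aa δ ∧
      ∃ a : ℕ, 1 ≤ a ∧ 1 / 2 * Real.log a + C + δ * (2 * d * a + 1) ^ 2 ≤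
        (δ * aa δ + Real.log (aa δ) / (2 * aa δ) +
          (C + (2 * d + 2) + (2 * d + 1) ^ 2) / aa δ) * (2 * d * a) := by
  have hd1 : (1 : ℝ) ≤ d := by exact_mod_cast hd
  refine ⟨Real.exp (-16), Real.exp_pos _, fun δ hδ hδ0 => ?_⟩
  obtain ⟨L, hL⟩ : ∃ L : ℝ, L = Real.log (1 / δ) := ⟨_, rfl⟩
  have hL16 : 16 ≤ L := by
    rw [hL, one_div, Real.log_inv]
    have := Real.log_le_log hδ hδ0
    rw [Real.log_exp] at this
    linarith
  have hδ1 : δ ≤ 1 := hδ0.trans (Real.exp_le_one_iff.mpr (by norm_num))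
  have hδL : δ * L ≤ 1 := by
    have h1 : L ≤ 1 / δ := by
      rw [hL]
      exact (Real.log_le_sub_one_of_pos (by positivity)).trans (by linarith)
    calc δ * L ≤ δ * (1 / δ) := mul_le_mul_of_nonneg_left h1 hδ.le
      _ = 1 := by field_simp
  obtain ⟨S, hS⟩ : ∃ S : ℝ, S = SS δ := ⟨_, rfl⟩
  have hS0 : 0 ≤ S := hS ▸ Real.sqrt_nonneg _
  have hS2 : S ^ 2 = δ * L := by rw [hS, hL]; exact Real.sq_sqrt (by rw [← hL]; positivity)
  have hS1 : S ≤ 1 := by
    refine le_of_sq_le_sq ?_ (by norm_num)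
    rw [hS2]; linarith
  obtain ⟨A, hA⟩ : ∃ A : ℝ, A = aa δ := ⟨_, rfl⟩
  have hAS : A = S / (2 * δ) := by rw [hA, aa, hS]
  have hδA : δ * A = S / 2 := by rw [hAS]; field_simp
  have hA0 : 0 ≤ A := by rw [hAS]; positivity
  have hA2 : 2 ≤ A := by
    refine le_of_sq_le_sq ?_ hA0
    have h1 : A ^ 2 = L / (4 * δ) := by
      rw [hAS, div_pow, hS2]; field_simp; norm_num
    rw [h1, le_div_iff₀ (by positivity)]
    linarith
  have hApos : 0 < A := by linarith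
  have hlogA : 0 ≤ Real.log A := Real.log_nonneg (by linarith)
  rw [← hA]
  obtain ⟨K, hK⟩ : ∃ K : ℝ, K = C + (2 * d + 2) + (2 * (d : ℝ) + 1) ^ 2 := ⟨_, rfl⟩
  have hK0 : 0 ≤ K := by rw [hK]; positivity
  rw [← hK]
  refine ⟨hApos, by positivity, ⌈A / (2 * d)⌉₊,
    Nat.one_le_iff_ne_zero.mpr (Nat.ceil_pos.mpr (by positivity)).ne', ?_⟩
  obtain ⟨a, ha⟩ : ∃ a : ℕ, a = ⌈A / (2 * d)⌉₊ := ⟨_, rfl⟩
  have ha1 : A / (2 * d) ≤ a := ha ▸ Nat.le_ceil _
  have ha2 : (a : ℝ) < A / (2 * d) + 1 := ha ▸ Nat.ceil_lt_add_one (by positivity)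
  rw [← ha]
  have hd2 : (0 : ℝ) < 2 * d := by positivity
  have ha3 : A ≤ 2 * d * a := by
    have := (div_le_iff₀ hd2).mp ha1
    linarith
  have ha4 : 2 * d * (a : ℝ) ≤ A + 2 * d := by
    have h1 : 2 * d * (a : ℝ) ≤ 2 * d * (A / (2 * d) + 1) :=
      mul_le_mul_of_nonneg_left ha2.le (by positivity)
    have h2 : 2 * (d : ℝ) * (A / (2 * d) + 1) = A + 2 * d := by field_simp
    linarith
  have ha0 : (0 : ℝ) < a := lt_of_lt_of_le (by positivity) ha1
  have haA : (a : ℝ) ≤ A := by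
    have h1 : A / (2 * d) ≤ A / 2 := by
      apply div_le_div_of_nonneg_left hA0 (by norm_num)
      linarith
    linarith
  have hlog : Real.log a ≤ Real.log A := Real.log_le_log ha0 haA
  obtain ⟨m, hm⟩ : ∃ m : ℝ, m = 2 * d * a := ⟨_, rfl⟩
  rw [← hm] at ha3 ha4 ⊢
  have e1 : Real.log A / 2 ≤ Real.log A / (2 * A) * m := by
    calc Real.log A / 2 = Real.log A / (2 * A) * A := by field_simp
      _ ≤ _ := mul_le_mul_of_nonneg_left ha3 (by positivity)
  have e2 : K ≤ K / A * m := by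
    calc K = K / A * A := by field_simp
      _ ≤ _ := mul_le_mul_of_nonneg_left ha3 (by positivity)
  have e3 : δ * (m + 1) ^ 2 ≤ δ * A * m + ((2 * d + 2) + (2 * (d : ℝ) + 1) ^ 2) := by
    have h1 : m * (m - A) ≤ (A + 2 * d) * (2 * d) :=
      mul_le_mul ha4 (by linarith) (by linarith) (by linarith)
    have h2 : (m + 1) ^ 2 ≤ A * m + A * (2 * d + 2) + (2 * (d : ℝ) + 1) ^ 2 := by
      have h3 : (m + 1) ^ 2 = A * m + m * (m - A) + 2 * m + 1 := by ring
      have h4 : A * (2 * d + 2) + (2 * (d : ℝ) + 1) ^ 2 =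
        (A + 2 * d) * (2 * d) + 2 * (A + 2 * d) + 1 := by ring
      linarith
    have h5 : δ * (m + 1) ^ 2 ≤ δ * (A * m + A * (2 * d + 2) + (2 * (d : ℝ) + 1) ^ 2) :=
      mul_le_mul_of_nonneg_left h2 hδ.le
    have h6 : δ * A * (2 * d + 2) ≤ 1 * (2 * d + 2) :=
      mul_le_mul_of_nonneg_right (by linarith) (by positivity)
    have h7 : δ * (2 * (d : ℝ) + 1) ^ 2 ≤ 1 * (2 * d + 1) ^ 2 :=
      mul_le_mul_of_nonneg_right hδ1 (by positivity)
    have h8 : δ * (A * m + A * (2 * d + 2) + (2 * (d : ℝ) + 1) ^ 2) =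
      δ * A * m + δ * A * (2 * d + 2) + δ * (2 * (d : ℝ) + 1) ^ 2 := by ring
    linarith
  have e4 : (δ * A + Real.log A / (2 * A) + K / A) * m =
      δ * A * m + Real.log A / (2 * A) * m + K / A * m := by ring
  rw [e4]
  rw [hK] at e2 ⊢
  linarith

end LOHAux

open LOHAux

/-- LOH. -/
theorem loh (h : ∀ d : ℕ, 0 < d → BoxStmt d) : LOH_stmt := by
  intro d hd B hB
  obtain ⟨C, hC, hbox⟩ := h d hd
  obtain ⟨δ₀, hδ₀, hheight⟩ := height2 hd hC
  obtain ⟨K, hK⟩ : ∃ K : ℝ, K = C + (2 * d + 2) + (2 * (d : ℝ) + 1) ^ 2 := ⟨_, rfl⟩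
  have hK0 : 0 ≤ K := by rw [hK]; positivity
  refine ⟨K + 1, δ₀, by linarith, hδ₀, fun β γ hγ hγβ hβB hδ => ?_⟩
  obtain ⟨hA, hR, a, ha, hha⟩ := hheight (β - γ) (by linarith) hδ
  obtain ⟨n₀, hn₀⟩ := core hd hC hbox (B := B) (ε := 1 / aa (β - γ)) hγ hγβ hβB (by positivity)
    hR ha hha
  refine ⟨n₀, fun n hn => ?_⟩
  have h1 := hn₀ n hn
  have h2 : β - γ = β - γ := rfl
  have h3 : et (-(K + 1)) (β - γ) = (β - γ) * aa (β - γ) +
      Real.log (aa (β - γ)) / (2 * aa (β - γ)) +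
        (C + (2 * d + 2) + (2 * (d : ℝ) + 1) ^ 2) / aa (β - γ) + 1 / aa (β - γ) := by
    rw [et, ← hK]
    ring
  rw [h3]
  exact h1

end Pool.Agent.DFE
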