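import Pool.Agent.Lib.DFE.Defs8
import Pool.Agent.Lib.DFE.UPP

/-!
# Row SITB: the bound for one site, for all numbers of visits
-/

set_option autoImplicit false

namespace Pool.Agent.DFE

open Finset Pool.Agent.DCOL

theorem sitb (hS : SITH_stmt) : SITB_stmt := by
  intro d hd
  have hd1 : (1 : ℝ) ≤ d := by exact_mod_cast hd
  have hd0 : (0 : ℝ) < d := by linarith
  set c : ℝ := 1 / (8 * d) with hc
  have hc0 : 0 < c := by positivity
  have h4 : 1 / (2 * (d : ℝ)) = 4 * c := by rw [hc]; field_simp; norm_num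
  obtain ⟨K₀, hK₀, h⟩ := hS d hd (Real.exp (-(3 * c))) (Real.exp_pos _)
  refine ⟨K₀, hK₀, fun K hK => ?_⟩
  obtain ⟨T, δ₁, hT, hδ₁, h1⟩ := h K hK
  have hT0 : (0 : ℝ) < T := by
    have : 0 < T := by omega
    exact_mod_cast this
  obtain ⟨δ₂, hδ₂, h2⟩ := UPPAux.SS_small (x := c / (2 * T)) (by positivity)
  refine ⟨min δ₁ δ₂, lt_min hδ₁ hδ₂, fun δ hδ hδ0 => ?_⟩
  obtain ⟨he0, he1, h3⟩ := h1 δ hδ (hδ0.trans (min_le_left _ _))
  obtain ⟨hs0, hs1⟩ := h2 δ hδ (hδ0.trans (min_le_right _ _))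
  refine ⟨he0, fun k hk => ?_⟩
  rcases le_or_gt T k with hTk | hTk
  · have h5 := h3 k k hTk (Nat.le_succ k)
    calc Qf d k * Real.exp (-(δ * (k : ℝ) ^ 2))
        = Qf d k * Real.exp (et K δ * k - δ * (k : ℝ) ^ 2) * Real.exp (-(et K δ * k)) := by
          rw [mul_assoc, ← Real.exp_add]
          congr 2
          ring
      _ ≤ Real.exp (-(3 * c)) * Real.exp (-(et K δ * k)) :=
          mul_le_mul_of_nonneg_right h5 (Real.exp_pos _).le
      _ = Real.exp (-(3 * c) - et K δ * k) := by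
          rw [← Real.exp_add]
          congr 1
  · have hkT : (k : ℝ) ≤ T := by exact_mod_cast hTk.le
    have hk0 : (0 : ℝ) ≤ k := Nat.cast_nonneg _
    have h6 : et K δ * k ≤ c := by
      calc et K δ * k ≤ (2 * SS δ) * T := mul_le_mul he1 hkT hk0 (he0.le.trans he1)
        _ ≤ (2 * (c / (2 * T))) * T := by
            refine mul_le_mul_of_nonneg_right ?_ hT0.le
            linarith
        _ = c := by field_simp
    have hQ : Qf d k = min (1 - 1 / (2 * (d : ℝ))) (Real.sqrt ((d : ℝ) / ((k : ℝ) + 1))) := by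
      unfold Qf; rw [if_neg (by omega)]
    have h7 : Qf d k ≤ Real.exp (-(4 * c)) := by
      rw [hQ]
      refine (min_le_left _ _).trans ?_
      rw [h4]
      have := Real.add_one_le_exp (-(4 * c))
      linarith
    have h8 : Real.exp (-(δ * (k : ℝ) ^ 2)) ≤ 1 := by
      rw [Real.exp_le_one_iff]
      have : 0 ≤ δ * (k : ℝ) ^ 2 := by positivity
      linarith
    calc Qf d k * Real.exp (-(δ * (k : ℝ) ^ 2)) ≤ Real.exp (-(4 * c)) * 1 :=
          mul_le_mul h7 h8 (Real.exp_pos _).le (Real.exp_pos _).le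
      _ ≤ _ := by
          rw [mul_one]
          exact Real.exp_le_exp.mpr (by linarith)

end Pool.Agent.DFE
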