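import Pool.Agent.Lib.DFE.Defs8

/-!
# The weight of one big site, at the rate `et K δ`
-/

set_option autoImplicit false

namespace Pool.Agent.DFE

open Finset Pool.Agent.DCOL

theorem sith : SITH_stmt := by
  intro d hd κ hκ
  have hd1 : (1 : ℝ) ≤ d := by exact_mod_cast hd
  have hd0 : (0 : ℝ) < d := by linarith
  set M : ℝ := 1 / 2 * Real.log d - Real.log κ with hM
  refine ⟨max 1 (2 * (M + 1)), lt_of_lt_of_le one_pos (le_max_left _ _), fun K hK => ?_⟩
  have hK1 : 1 ≤ K := (le_max_left _ _).trans hK
  have hK2 : 2 * (M + 1) ≤ K := (le_max_right _ _).trans hK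
  refine ⟨max 2 ⌈(d : ℝ) * Real.exp 32 / κ ^ 2⌉₊, Real.exp (-(max (4 * K + 4) (32 * M))),
    le_max_left _ _, Real.exp_pos _, fun δ hδ hδ1 => ?_⟩
  -- the scale
  set L : ℝ := Real.log (1 / δ) with hL
  have hlδ : Real.log δ = -L := by
    rw [hL, Real.log_div one_ne_zero hδ.ne', Real.log_one]; ring
  have hL1 : max (4 * K + 4) (32 * M) ≤ L := by
    have := Real.log_le_log hδ hδ1
    rw [Real.log_exp, hlδ] at this
    linarith
  have hL2 : 4 * K + 4 ≤ L := (le_max_left _ _).trans hL1
  have hL3 : 32 * M ≤ L := (le_max_right _ _).trans hL1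
  have hL8 : 8 ≤ L := by linarith
  have hL0 : 0 < L := by linarith
  have hS : 0 < SS δ := Real.sqrt_pos.mpr (mul_pos hδ hL0)
  have hSsq : SS δ ^ 2 = δ * L := Real.sq_sqrt (mul_pos hδ hL0).le
  set a : ℝ := aa δ with ha'
  have haS : SS δ = 2 * δ * a := by
    rw [ha']; unfold aa; field_simp
  have ha : 0 < a := by rw [ha']; unfold aa; positivity
  have ha2 : δ * a ^ 2 = L / 4 := by
    rw [haS] at hSsq
    have h1 : δ * (4 * (δ * a ^ 2)) = δ * L := by rw [← hSsq]; ring
    have h2 := mul_left_cancel₀ hδ.ne' h1
    linarith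
  set lam : ℝ := Real.log (L / 4) with hlam
  have hlam0 : 0 ≤ lam := Real.log_nonneg (by linarith)
  have hlamL : lam ≤ L / 4 - 1 := Real.log_le_sub_one_of_pos (by linarith)
  have hla : 2 * Real.log a = L + lam := by
    have h1 : Real.log (δ * a ^ 2) = lam := by rw [ha2]
    rw [Real.log_mul hδ.ne' (by positivity), Real.log_pow, hlδ] at h1
    push_cast at h1
    linarith
  have het : et K δ * a = L / 4 + Real.log a / 2 - K := by
    have h1 : et K δ * a = δ * a ^ 2 + Real.log a / 2 - K := by
      unfold et
      rw [← ha']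
      field_simp
    rw [h1, ha2]
  refine ⟨?_, ?_, fun k o hTk hko => ?_⟩
  · have h1 : 0 < et K δ * a := by rw [het]; linarith
    exact pos_of_mul_pos_left h1 ha.le
  · have h1 : et K δ * a ≤ 2 * SS δ * a := by
      have h2 : 2 * SS δ * a = L := by
        rw [haS]
        have : 2 * (2 * δ * a) * a = 4 * (δ * a ^ 2) := by ring
        rw [this, ha2]; ring
      rw [h2, het]
      linarith
    exact le_of_mul_le_mul_right h1 ha
  · have hk2 : 2 ≤ k := (le_max_left _ _).trans hTk
    have hkT : (d : ℝ) * Real.exp 32 / κ ^ 2 ≤ k :=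
      (Nat.le_ceil _).trans (by exact_mod_cast (le_max_right _ _).trans hTk)
    have hk0 : (0 : ℝ) < k := by
      have : 0 < k := by omega
      exact_mod_cast this
    -- the factor `Qf`
    have hQ : Qf d o ≤ Real.exp (1 / 2 * Real.log (d / k)) := by
      have ho : o ≠ 0 := by omega
      unfold Qf
      rw [if_neg ho]
      refine (min_le_right _ _).trans ?_
      have h1 : Real.sqrt ((d : ℝ) / (o + 1)) ≤ Real.sqrt (d / k) := by
        refine Real.sqrt_le_sqrt ?_
        refine div_le_div_of_nonneg_left hd0.le hk0 ?_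
        exact_mod_cast hko
      refine h1.trans (le_of_eq ?_)
      rw [Real.sqrt_eq_rpow, Real.rpow_def_of_pos (by positivity), mul_comm]
    -- `y = k / a`
    set y : ℝ := k / a with hy
    have hy0 : 0 < y := by positivity
    have hka : (k : ℝ) = y * a := by rw [hy]; field_simp
    have hek : et K δ * k = (L / 4 + Real.log a / 2 - K) * y := by
      rw [← het, hka]; ring
    have hdk : δ * (k : ℝ) ^ 2 = L / 4 * y ^ 2 := by
      rw [← ha2, hka]; ring
    have hlk : Real.log (d / k) = Real.log d - Real.log y - Real.log a := by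
      rw [Real.log_div hd0.ne' hk0.ne', hka, Real.log_mul hy0.ne' ha.ne']; ring
    have key : 1 / 2 * Real.log (d / k) + (et K δ * k - δ * (k : ℝ) ^ 2) ≤ Real.log κ := by
      have hla2 : Real.log a = L / 2 + lam / 2 := by linarith
      have hE : 1 / 2 * Real.log (d / k) + (et K δ * k - δ * (k : ℝ) ^ 2) =
          1 / 2 * Real.log d - 1 / 2 * Real.log y - L / 4 * (1 - y) ^ 2 - lam / 4 * (1 - y)
            - K * y := by
        rw [hek, hdk, hlk, hla2]; ring
      rcases le_or_gt (1 / 2) y with hy1 | hy1
      · rw [hE]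
        have h1 : -(1 / 2 * Real.log y) ≤ 1 / 2 := by
          have h2 : Real.log (1 / 2) ≤ Real.log y := Real.log_le_log (by norm_num) hy1
          have h3 : Real.log (1 / 2) = - Real.log 2 := by
            rw [one_div, Real.log_inv]
          have h4 : Real.log 2 ≤ 2 - 1 := Real.log_le_sub_one_of_pos (by norm_num)
          linarith
        have h2 : - (L / 4 * (1 - y) ^ 2) - lam / 4 * (1 - y) ≤ 1 / 2 := by
          -- `lam ^ 2 ≤ L`
          have h3 : lam ^ 2 ≤ L := by
            have h4 : lam = 2 * Real.log (Real.sqrt (L / 4)) := by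
              rw [hlam, Real.log_sqrt (by linarith)]; ring
            have h5 : Real.log (Real.sqrt (L / 4)) ≤ Real.sqrt (L / 4) - 1 :=
              Real.log_le_sub_one_of_pos (Real.sqrt_pos.mpr (by linarith))
            have h6 : Real.sqrt (L / 4) ^ 2 = L / 4 := Real.sq_sqrt (by linarith)
            have h7 : lam ≤ 2 * Real.sqrt (L / 4) := by linarith
            have h8 : lam ^ 2 ≤ (2 * Real.sqrt (L / 4)) ^ 2 :=
              pow_le_pow_left₀ hlam0 h7 2
            rw [mul_pow, h6] at h8
            linarith
          -- `lam u / 4 ≤ L u ^ 2 / 4 + 1 / 16`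
          have h4 : 0 ≤ (lam + 2 * L * (1 - y)) ^ 2 := sq_nonneg _
          have h5 : -(L * (1 - y)) * (lam + L * (1 - y)) * 4 ≤ L := by nlinarith
          have h6 : L * (-(1 - y) * (lam + L * (1 - y)) * 4) ≤ L * 1 := by linarith
          have h7 := le_of_mul_le_mul_left h6 hL0
          linarith
        have h3 : K * (1 / 2) ≤ K * y := mul_le_mul_of_nonneg_left hy1 (by linarith)
        linarith
      · rcases le_or_gt (-(L / 16)) (Real.log y) with hy2 | hy2
        · rw [hE]
          have h1 : 0 ≤ lam / 4 * (1 - y) := by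
            have : 0 ≤ 1 - y := by linarith
            positivity
          have h2 : 0 ≤ K * y := by positivity
          have h3 : L / 4 * (1 / 4) ≤ L / 4 * (1 - y) ^ 2 := by
            refine mul_le_mul_of_nonneg_left ?_ (by linarith)
            nlinarith
          linarith
        · have h1 : y ≤ Real.exp (-(L / 16)) := by
            rw [← Real.log_le_iff_le_exp hy0]
            exact hy2.le
          have h2 : L * y ≤ 16 := by
            have h3 : L / 16 ≤ Real.exp (L / 16) := by
              have := Real.add_one_le_exp (L / 16)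
              linarith
            calc L * y ≤ L * Real.exp (-(L / 16)) := mul_le_mul_of_nonneg_left h1 hL0.le
              _ = 16 * (L / 16 * Real.exp (-(L / 16))) := by ring
              _ ≤ 16 * (Real.exp (L / 16) * Real.exp (-(L / 16))) := by
                  refine mul_le_mul_of_nonneg_left ?_ (by norm_num)
                  exact mul_le_mul_of_nonneg_right h3 (Real.exp_pos _).le
              _ = 16 := by rw [← Real.exp_add]; simp
          have h3 : et K δ * k ≤ 16 := by
            rw [hek]
            refine le_trans ?_ h2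
            refine mul_le_mul_of_nonneg_right ?_ hy0.le
            linarith
          have h4 : 0 ≤ δ * (k : ℝ) ^ 2 := by positivity
          have h5 : Real.log (d / k) ≤ 2 * Real.log κ - 32 := by
            have h6 : (d : ℝ) / k ≤ κ ^ 2 * Real.exp (-32) := by
              rw [div_le_iff₀ (by positivity)] at hkT
              rw [div_le_iff₀ hk0, Real.exp_neg]
              have h7 : 0 < Real.exp 32 := Real.exp_pos 32
              rw [mul_assoc, inv_mul_eq_div, mul_div_assoc', le_div_iff₀ h7]
              linarith
            have h8 := Real.log_le_log (by positivity) h6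
            rw [Real.log_mul (by positivity) (Real.exp_pos _).ne', Real.log_exp,
              Real.log_pow] at h8
            push_cast at h8
            linarith
          linarith
    calc Qf d o * Real.exp (et K δ * k - δ * (k : ℝ) ^ 2)
        ≤ Real.exp (1 / 2 * Real.log (d / k)) * Real.exp (et K δ * k - δ * (k : ℝ) ^ 2) :=
          mul_le_mul_of_nonneg_right hQ (Real.exp_pos _).le
      _ = Real.exp (1 / 2 * Real.log (d / k) + (et K δ * k - δ * (k : ℝ) ^ 2)) := by
          rw [Real.exp_add]
      _ ≤ Real.exp (Real.log κ) := Real.exp_le_exp.mpr key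
      _ = κ := Real.exp_log hκ

end Pool.Agent.DFE
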