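import Pool.Agent.Lib.DFE.Defs8

/-!
# The upper bound for large `γ` with the rate `et`: the row UBH
-/

set_option autoImplicit false

namespace Pool.Agent.DFE

open Finset Pool.Agent.DCOL

variable {d : ℕ}

/-- The upper bound for large `γ` with a bound for one site as the hypothesis (the proof of
`upper_big`). -/
theorem UBHAux.upper_gen (hd : 0 < d) {β γ η : ℝ} (hγ : Gam d ≤ γ) (hβ : γ < β)
    (hs : ∀ k : ℕ, 1 ≤ k → Qf d k * Real.exp (-((β - γ) * (k : ℝ) ^ 2)) ≤
      Real.exp (-(3 * (1 / (8 * d))) - η * k)) (n : ℕ) :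
    ∑ w ∈ allw d n, Real.exp (1 / (8 * d) * ((vis 0 w).card : ℝ) - En β γ (loc w)) ≤
      (2 * d) ^ n * ((n + 1) ^ 2 * Real.exp (3 * (1 / (8 * d)) - η * n)) := by
  classical
  have hd0 : (0 : ℝ) < d := by exact_mod_cast hd
  have hγ0 : 0 ≤ γ := by
    refine le_trans ?_ hγ
    unfold Gam
    have : 0 ≤ Real.log (16 * (d : ℝ) ^ 2 + 1) := Real.log_nonneg (by nlinarith [sq_nonneg (d : ℝ)])
    positivity
  set c : ℝ := 1 / (8 * d) with hc
  have hc0 : 0 < c := by positivity
  set δ : ℝ := β - γ with hδ
  have hδ0 : 0 < δ := by rw [hδ]; linarith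
  set κ : ℝ := Real.exp (-(2 * c)) with hκ
  set i₀ : Fin d := ⟨0, hd⟩
  set F : Finset (Site d →₀ ℕ) := (allw d n).image fld with hF
  -- the weight of one word
  have hEn : ∀ w : List (Step d), En β γ (loc w) = En β γ (fun x => (fld w x : ℝ)) := by
    intro w
    congr 1
    funext x
    rw [loc_eq, fld_apply]
  -- for one field and one end point
  have hone : ∀ f ∈ F, ∀ e ∈ f.support,
      ((((allw d n).filter fun w => fld w = f).filter fun w => endp w = e).card : ℝ) *
        Real.exp (c * (f.support.card : ℝ) - En β γ (fun x => (f x : ℝ))) ≤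
      (2 * d) ^ n * Real.exp (3 * c - η * n) * ∏ x ∈ f.support, wt κ (psi γ d) f x := by
    intro f _ e he
    rcases (((allw d n).filter fun w => fld w = f).filter fun w => endp w = e).eq_empty_or_nonempty
      with hW | ⟨w₀, hw₀⟩
    · rw [hW, Finset.card_empty, Nat.cast_zero, zero_mul]
      refine mul_nonneg (by positivity) (Finset.prod_nonneg fun x _ => ?_)
      exact mul_nonneg (Real.exp_pos _).le (Finset.prod_nonneg fun s _ => (Real.exp_pos _).le)
    have h1 := card_words i₀ (Qf_nonneg hd) (cnt_le_Qf hd (i₀, true)) (n := n) (fun x => f x) e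
      f.support (fun x => by rw [Finsupp.mem_support_iff])
      (((allw d n).filter fun w => fld w = f).filter fun w => endp w = e) (by
        intro w hw
        rw [Finset.mem_filter, Finset.mem_filter, mem_allw] at hw
        exact ⟨hw.1.1, fun x => by rw [← fld_apply, hw.1.2], hw.2⟩)
    have hsum : ∑ x ∈ f.support, (f x - if x = e then 1 else 0) = n := by
      rw [Finset.mem_filter, Finset.mem_filter, mem_allw] at hw₀
      obtain ⟨⟨a1, a2⟩, a3⟩ := hw₀
      rw [← a1, ← sum_length_stk w₀ 0 f.support (by rw [← a2, fld_support])]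
      refine Finset.sum_congr rfl fun x _ => ?_
      have := length_stk0 w₀ x
      rw [← fld_apply, a2, a3] at this
      omega
    have h2 := En_ge hd hγ0 (β := β) f
    rw [← hδ] at h2
    -- the product bound
    have h3 : (∏ x ∈ f.support, Qf d (f x - if x = e then 1 else 0)) *
        Real.exp (c * (f.support.card : ℝ) - δ * ∑ x ∈ f.support, (f x : ℝ) ^ 2) ≤
        Real.exp (3 * c - η * n) * κ ^ f.support.card := by
      have e1 : Real.exp (c * (f.support.card : ℝ) - δ * ∑ x ∈ f.support, (f x : ℝ) ^ 2) =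
          ∏ x ∈ f.support, Real.exp (c - δ * (f x : ℝ) ^ 2) := by
        rw [← Real.exp_sum, Finset.sum_sub_distrib, Finset.sum_const, nsmul_eq_mul,
          Finset.mul_sum, mul_comm c]
      have e2 : ∀ x ∈ f.support, Qf d (f x - if x = e then 1 else 0) *
          Real.exp (c - δ * (f x : ℝ) ^ 2) ≤
          Real.exp (if x = e then 3 * c else 0) *
            (κ * Real.exp (-(η * ((f x - if x = e then 1 else 0 : ℕ) : ℝ)))) := by
        intro x hx
        have hfx : f x ≠ 0 := Finsupp.mem_support_iff.mp hx
        by_cases hxe : x = e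
        · rw [if_pos hxe, if_pos hxe]
          set k := f x - 1 with hk
          have hkf : (k : ℝ) ≤ f x := by
            have : k ≤ f x := Nat.sub_le _ _
            exact_mod_cast this
          have q1 : Qf d k * Real.exp (-(δ * (k : ℝ) ^ 2)) ≤ Real.exp (-(η * k)) := by
            rcases Nat.eq_zero_or_pos k with hk0 | hk0
            · rw [hk0]
              simp only [Nat.cast_zero, mul_zero, neg_zero, Real.exp_zero]
              have := Qf_le_one hd 0
              simpa using this
            · refine (hs k hk0).trans (Real.exp_le_exp.mpr ?_)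
              linarith
          have q2 : Real.exp (c - δ * (f x : ℝ) ^ 2) ≤
              Real.exp (-(δ * (k : ℝ) ^ 2)) * Real.exp c := by
            rw [← Real.exp_add]
            refine Real.exp_le_exp.mpr ?_
            have : δ * (k : ℝ) ^ 2 ≤ δ * (f x : ℝ) ^ 2 := by gcongr
            linarith
          calc Qf d k * Real.exp (c - δ * (f x : ℝ) ^ 2) ≤
              Qf d k * (Real.exp (-(δ * (k : ℝ) ^ 2)) * Real.exp c) :=
                mul_le_mul_of_nonneg_left q2 (Qf_nonneg hd _)
            _ = (Qf d k * Real.exp (-(δ * (k : ℝ) ^ 2))) * Real.exp c := by ring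
            _ ≤ Real.exp (-(η * k)) * Real.exp c := by gcongr
            _ = _ := by
              rw [hκ, ← Real.exp_add, ← Real.exp_add, ← Real.exp_add]
              congr 1
              ring
        · rw [if_neg hxe, if_neg hxe, Nat.sub_zero, Real.exp_zero, one_mul]
          have q1 := hs (f x) (Nat.one_le_iff_ne_zero.mpr hfx)
          calc Qf d (f x) * Real.exp (c - δ * (f x : ℝ) ^ 2) =
              (Qf d (f x) * Real.exp (-(δ * (f x : ℝ) ^ 2))) * Real.exp c := by
                rw [mul_assoc, ← Real.exp_add]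
                congr 2
                ring
            _ ≤ Real.exp (-(3 * c) - η * f x) * Real.exp c := by gcongr
            _ = _ := by
              rw [hκ, ← Real.exp_add, ← Real.exp_add]
              congr 1
              ring
      rw [e1, ← Finset.prod_mul_distrib]
      refine (Finset.prod_le_prod (fun x _ => mul_nonneg (Qf_nonneg hd _) (Real.exp_pos _).le)
        e2).trans (le_of_eq ?_)
      rw [Finset.prod_mul_distrib, Finset.prod_mul_distrib, Finset.prod_const, ← Real.exp_sum,
        Finset.sum_ite_eq', if_pos he, ← Real.exp_sum, Finset.sum_neg_distrib, ← Finset.mul_sum,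
        ← Nat.cast_sum, hsum, sub_eq_add_neg, Real.exp_add]
      ring
    have h4 : Real.exp (c * (f.support.card : ℝ) - En β γ (fun x => (f x : ℝ))) ≤
        Real.exp (c * (f.support.card : ℝ) - δ * ∑ x ∈ f.support, (f x : ℝ) ^ 2) *
          ∏ x ∈ f.support, ∏ s : Step d, psi γ d ((f (x + vec s) : ℤ) - f x) := by
      have e1 : ∏ x ∈ f.support, ∏ s : Step d, psi γ d ((f (x + vec s) : ℤ) - f x) =
          Real.exp (-(γ / (4 * d) * ∑ x ∈ f.support, ∑ s : Step d,
            ((f (x + vec s) : ℝ) - f x) ^ 2)) := by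
        unfold psi
        rw [Finset.mul_sum, ← Finset.sum_neg_distrib, Real.exp_sum]
        refine Finset.prod_congr rfl fun x _ => ?_
        rw [Finset.mul_sum, ← Finset.sum_neg_distrib, Real.exp_sum]
        refine Finset.prod_congr rfl fun s _ => ?_
        push_cast
        rfl
      rw [e1, ← Real.exp_add]
      exact Real.exp_le_exp.mpr (by linarith)
    have h5 : ∏ x ∈ f.support, wt κ (psi γ d) f x = κ ^ f.support.card *
        ∏ x ∈ f.support, ∏ s : Step d, psi γ d ((f (x + vec s) : ℤ) - f x) := by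
      unfold wt
      rw [Finset.prod_mul_distrib, Finset.prod_const]
    have h6 : 0 ≤ ∏ x ∈ f.support, ∏ s : Step d, psi γ d ((f (x + vec s) : ℤ) - f x) :=
      Finset.prod_nonneg fun x _ => Finset.prod_nonneg fun s _ => (Real.exp_pos _).le
    have h7 : 0 ≤ ∏ x ∈ f.support, Qf d (f x - if x = e then 1 else 0) :=
      Finset.prod_nonneg fun x _ => Qf_nonneg hd _
    rw [h5]
    calc _ ≤ ((2 * d) ^ n * ∏ x ∈ f.support, Qf d (f x - if x = e then 1 else 0)) *
          (Real.exp (c * (f.support.card : ℝ) - δ * ∑ x ∈ f.support, (f x : ℝ) ^ 2) *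
          ∏ x ∈ f.support, ∏ s : Step d, psi γ d ((f (x + vec s) : ℤ) - f x)) :=
          mul_le_mul h1 h4 (Real.exp_pos _).le (by positivity)
      _ = (2 * d) ^ n * ((∏ x ∈ f.support, Qf d (f x - if x = e then 1 else 0)) *
          Real.exp (c * (f.support.card : ℝ) - δ * ∑ x ∈ f.support, (f x : ℝ) ^ 2)) *
          ∏ x ∈ f.support, ∏ s : Step d, psi γ d ((f (x + vec s) : ℤ) - f x) := by ring
      _ ≤ (2 * d) ^ n * (Real.exp (3 * c - η * n) * κ ^ f.support.card) *
          ∏ x ∈ f.support, ∏ s : Step d, psi γ d ((f (x + vec s) : ℤ) - f x) := by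
          gcongr
      _ = _ := by ring
  -- exploration
  have hexp : ∑ f ∈ F, ∏ x ∈ f.support, wt κ (psi γ d) f x ≤ ((n + 1 : ℕ) : ℝ) := by
    refine expl_all (G := 1 + 1 / (8 * d ^ 2)) (Real.exp_pos _).le (fun g => (Real.exp_pos _).le)
      (fun T a => psi_sum hd hγ T a) ?_ F (n + 1) ?_
    · have h1 : (1 + 1 / (8 * (d : ℝ) ^ 2)) ≤ Real.exp (1 / (8 * d ^ 2)) := by
        have := Real.add_one_le_exp (1 / (8 * (d : ℝ) ^ 2))
        linarith
      calc κ * (1 + 1 / (8 * (d : ℝ) ^ 2)) ^ (2 * d) ≤
          κ * (Real.exp (1 / (8 * (d : ℝ) ^ 2))) ^ (2 * d) := by gcongr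
        _ = 1 := by
          rw [hκ, ← Real.exp_nat_mul, ← Real.exp_add, Real.exp_eq_one_iff]
          push_cast
          rw [hc]
          field_simp
          ring
    · intro f hf
      obtain ⟨w, hw, rfl⟩ := Finset.mem_image.mp hf
      refine ⟨fld_zero w, ?_, conn_fld w⟩
      have := fld_le w 0
      rwa [mem_allw.mp hw] at this
  -- assembly
  have hA : ∀ w ∈ allw d n, Real.exp (c * ((vis 0 w).card : ℝ) - En β γ (loc w)) =
      Real.exp (c * ((fld w).support.card : ℝ) - En β γ (fun x => (fld w x : ℝ))) := by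
    intro w _
    rw [hEn, fld_support]
  rw [Finset.sum_congr rfl hA, ← Finset.sum_fiberwise_of_maps_to
    (g := fld) (t := F) fun w hw => Finset.mem_image_of_mem _ hw]
  calc ∑ f ∈ F, ∑ w ∈ (allw d n).filter (fun w => fld w = f),
        Real.exp (c * ((fld w).support.card : ℝ) - En β γ (fun x => (fld w x : ℝ))) ≤
      ∑ f ∈ F, (n + 1) * ((2 * d) ^ n * Real.exp (3 * c - η * n) *
        ∏ x ∈ f.support, wt κ (psi γ d) f x) := by
        refine Finset.sum_le_sum fun f hf => ?_
        have e1 : ∀ w ∈ (allw d n).filter (fun w => fld w = f), endp w ∈ f.support := by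
          intro w hw
          rw [← (Finset.mem_filter.mp hw).2, fld_support]
          have := endp_mem_vis w 0
          rwa [zero_add] at this
        rw [← Finset.sum_fiberwise_of_maps_to e1]
        have e2 : (f.support.card : ℝ) ≤ n + 1 := by
          obtain ⟨w, hw, rfl⟩ := Finset.mem_image.mp hf
          rw [fld_support]
          have := card_vis_le 0 w
          rw [mem_allw.mp hw] at this
          exact_mod_cast this
        have e3 : 0 ≤ (2 * (d : ℝ)) ^ n * Real.exp (3 * c - η * n) *
            ∏ x ∈ f.support, wt κ (psi γ d) f x := by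
          refine mul_nonneg (by positivity) (Finset.prod_nonneg fun x _ => ?_)
          exact mul_nonneg (Real.exp_pos _).le (Finset.prod_nonneg fun s _ => (Real.exp_pos _).le)
        calc _ ≤ ∑ _e ∈ f.support, (2 * (d : ℝ)) ^ n * Real.exp (3 * c - η * n) *
              ∏ x ∈ f.support, wt κ (psi γ d) f x := by
              refine Finset.sum_le_sum fun e he => ?_
              refine le_trans (le_of_eq ?_) (hone f hf e he)
              rw [Finset.sum_congr rfl (g := fun _ => Real.exp (c * (f.support.card : ℝ) -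
                En β γ (fun x => (f x : ℝ)))), Finset.sum_const, nsmul_eq_mul]
              intro w hw
              rw [Finset.mem_filter, Finset.mem_filter] at hw
              rw [hw.1.2]
          _ ≤ _ := by
              rw [Finset.sum_const, nsmul_eq_mul]
              exact mul_le_mul_of_nonneg_right e2 e3
    _ = (n + 1) * ((2 * d) ^ n * Real.exp (3 * c - η * n)) *
        ∑ f ∈ F, ∏ x ∈ f.support, wt κ (psi γ d) f x := by
        rw [← Finset.mul_sum, ← Finset.mul_sum]; ring
    _ ≤ (n + 1) * ((2 * d) ^ n * Real.exp (3 * c - η * n)) * ((n + 1 : ℕ) : ℝ) := by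
        gcongr
    _ = _ := by push_cast; ring

/-- **UBH.** -/
theorem ubh : SITB_stmt → UBH_stmt := by
  intro hS d hd
  obtain ⟨K₀, hK₀, h1⟩ := hS d hd
  refine ⟨K₀, hK₀, fun K hK => ?_⟩
  obtain ⟨δ₀, hδ₀, h2⟩ := h1 K hK
  refine ⟨δ₀, hδ₀, fun β γ hγ hβ hδ n => ?_⟩
  exact UBHAux.upper_gen hd hγ hβ (h2 (β - γ) (by linarith) hδ).2 n

end Pool.Agent.DFE
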