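import Pool.Agent.Lib.DFE.Defs8
import Pool.Agent.Lib.DFE.UPP

/-!
The upper bound with a small loss for the visited sites: the row UPH.
-/

set_option autoImplicit false

namespace Pool.Agent.DFE

open Finset Pool.Agent.DCOL UPPAux

/-- **UPH.** -/
theorem uph : SET_stmt → RUN_stmt → ENB_stmt → SITH_stmt → CLSH_stmt → UPH_stmt := by
  intro hSET hRUN hENB hSITH hCLS
  classical
  intro d hd b ε hb hε
  have hd0 : (0 : ℝ) < d := by exact_mod_cast hd
  set c : ℝ := b / (16 * d) with hc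
  have hc0 : 0 < c := by positivity
  have hcb : 16 * d * c = b := by rw [hc]; field_simp
  set Ξ : ℝ := ε / 4 with hΞ
  have hΞ0 : 0 < Ξ := by positivity
  set i₀ : Fin d := ⟨0, hd⟩ with hi₀
  obtain ⟨K₀, hK₀, hCL0⟩ := hCLS d hd i₀ c Ξ hc0 hΞ0
  obtain ⟨K₁, hK₁, hSI0⟩ := hSITH d hd 1 one_pos
  refine ⟨max K₀ K₁, lt_max_of_lt_left hK₀, fun K hK => ?_⟩
  obtain ⟨T₀, R, lam, hT₀, hR, hlam, hCL⟩ := hCL0 K ((le_max_left _ _).trans hK)
  obtain ⟨_, δ₂, _, hδ₂, hSI⟩ := hSI0 K ((le_max_right _ _).trans hK)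
  set K2 : ℕ := ⌈4 * lam / ε⌉₊ + 1 with hK2
  have hK2p : 0 < K2 := Nat.succ_pos _
  have hK2r : (0 : ℝ) < K2 := by exact_mod_cast hK2p
  have hK2l : lam / K2 ≤ ε / 4 := by
    rw [div_le_iff₀ hK2r]
    have h1 : 4 * lam / ε ≤ K2 := by
      rw [hK2]; push_cast
      have := Nat.le_ceil (4 * lam / ε)
      linarith
    rw [div_le_iff₀ hε] at h1
    linarith
  obtain ⟨δ₀', hδ₀', hCL2⟩ := hCL (T₀ + K2 * R) (by omega)
  set T₁ : ℕ := T₀ + K2 * R with hT₁
  have hT₁p : (0 : ℝ) < T₁ := by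
    have : 0 < T₁ := by omega
    exact_mod_cast this
  obtain ⟨δ₁, hδ₁, hSS⟩ := SS_small (x := ε / (8 * T₁)) (by positivity)
  refine ⟨K2, min δ₀' (min δ₁ δ₂), hK2r, lt_min hδ₀' (lt_min hδ₁ hδ₂),
    fun β γ hbγ hγβ hδ n => ?_⟩
  have hδ0 : 0 < β - γ := by linarith
  obtain ⟨-, hS1⟩ := hSS (β - γ) hδ0 (hδ.trans ((min_le_right _ _).trans (min_le_left _ _)))
  obtain ⟨hη0, hη1, -⟩ := hSI (β - γ) hδ0
    (hδ.trans ((min_le_right _ _).trans (min_le_right _ _)))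
  set η : ℝ := et K (β - γ) with hη
  have hηT : η * T₁ ≤ ε / 4 := by
    have h1 : η ≤ 2 * (ε / (8 * T₁)) := hη1.trans (by linarith)
    calc η * T₁ ≤ 2 * (ε / (8 * T₁)) * T₁ := mul_le_mul_of_nonneg_right h1 hT₁p.le
      _ = ε / 4 := by field_simp; ring
  have hn0 : (0 : ℝ) ≤ n := Nat.cast_nonneg _
  -- the words with a given number of visited sites
  have hpart : ∀ i ∈ (range (n + 2)) ×ˢ ((range K2) ×ˢ
      (Fintype.piFinset fun _ : Fin d => Finset.Icc (-(n : ℤ)) n)),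
      ∑ w ∈ (allw d n).filter (fun w => (vis 0 w).card = i.1 ∧ endp w = i.2.2 ∧
        K2 * soft (T₀ + i.2.1 * R) R i₀ w ≤ (vis 0 w).card),
          Real.exp (-(ε * ((vis 0 w).card : ℝ)) - En β γ (loc w)) ≤
      (2 * d) ^ n * Real.exp (-(η * n)) := by
    intro i hi
    have hj : i.2.1 < K2 :=
      Finset.mem_range.mp (Finset.mem_product.mp (Finset.mem_product.mp hi).2).1
    have hTj : T₀ + i.2.1 * R ≤ T₁ := by
      have : i.2.1 * R ≤ K2 * R := Nat.mul_le_mul_right R hj.le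
      omega
    have hTjr : ((T₀ + i.2.1 * R : ℕ) : ℝ) ≤ T₁ := by exact_mod_cast hTj
    have hv0 : (0 : ℝ) ≤ (i.1 : ℝ) := Nat.cast_nonneg _
    set A : ℝ := η * ((n : ℝ) - (T₀ + i.2.1 * R : ℕ) * i.1) - lam * i.1 / K2 with hA
    have h1 := part_bound hSET hRUN hENB hd (T := T₀ + i.2.1 * R) (R := R) (K := K2) (v := i.1)
      (n := n) (β := β) (γ := γ) (η := η) (lam := lam) (c := c) (Ξ := Ξ) (A := A) (by omega) hK2p i₀
      hη0.le hlam hc0.le (by rw [hcb]; exact hbγ) hγβ hΞ0.le i.2.2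
      (fun p S' h1 h2 => hCL2 (T₀ + i.2.1 * R) (β - γ) (by omega) hTj hδ0
        (hδ.trans (min_le_left _ _)) n i.2.2 p S' h1 h2) le_rfl
      ((allw d n).filter (fun w => (vis 0 w).card = i.1 ∧ endp w = i.2.2 ∧
        K2 * soft (T₀ + i.2.1 * R) R i₀ w ≤ (vis 0 w).card))
      (by
        intro w hw
        obtain ⟨h1, h2, h3, h4⟩ := Finset.mem_filter.mp hw
        exact ⟨mem_allw.mp h1, h3, h2.le, h4⟩)
    have h2 : ∀ w ∈ (allw d n).filter (fun w => (vis 0 w).card = i.1 ∧ endp w = i.2.2 ∧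
        K2 * soft (T₀ + i.2.1 * R) R i₀ w ≤ (vis 0 w).card),
        Real.exp (-(ε * ((vis 0 w).card : ℝ)) - En β γ (loc w)) =
          Real.exp (-(ε * i.1)) * Real.exp (-En β γ (loc w)) := by
      intro w hw
      obtain ⟨-, h2, -, -⟩ := Finset.mem_filter.mp hw
      rw [h2, ← Real.exp_add, sub_eq_add_neg]
    rw [Finset.sum_congr rfl h2, ← Finset.mul_sum]
    have h3 : (1 + Ξ) ^ i.1 ≤ Real.exp (ε / 4 * i.1) := by
      calc (1 + Ξ) ^ i.1 ≤ (Real.exp Ξ) ^ i.1 := by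
            refine pow_le_pow_left₀ (by positivity) ?_ _
            have := Real.add_one_le_exp Ξ
            linarith
        _ = Real.exp (i.1 * Ξ) := (Real.exp_nat_mul Ξ i.1).symm
        _ = Real.exp (ε / 4 * i.1) := by rw [hΞ, mul_comm]
    have h4 : -(ε * i.1) + (-A + ε / 4 * i.1) ≤ -(η * n) := by
      have a1 : lam * i.1 / K2 ≤ ε / 4 * i.1 := by
        calc lam * i.1 / K2 = lam / K2 * i.1 := by ring
          _ ≤ ε / 4 * i.1 := mul_le_mul_of_nonneg_right hK2l hv0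
      have a2 : η * (((T₀ + i.2.1 * R : ℕ) : ℝ) * i.1) ≤ ε / 4 * i.1 := by
        calc η * (((T₀ + i.2.1 * R : ℕ) : ℝ) * i.1) = η * ((T₀ + i.2.1 * R : ℕ) : ℝ) * i.1 := by
              ring
          _ ≤ ε / 4 * i.1 := by
              refine mul_le_mul_of_nonneg_right ?_ hv0
              exact (mul_le_mul_of_nonneg_left hTjr hη0.le).trans hηT
      rw [hA, mul_sub]
      have a3 : 0 ≤ ε * i.1 := by positivity
      linarith
    calc Real.exp (-(ε * i.1)) * ∑ w ∈ (allw d n).filter (fun w => (vis 0 w).card = i.1 ∧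
          endp w = i.2.2 ∧ K2 * soft (T₀ + i.2.1 * R) R i₀ w ≤ (vis 0 w).card),
          Real.exp (-En β γ (loc w))
        ≤ Real.exp (-(ε * i.1)) * ((2 * d) ^ n * (Real.exp (-A) * (1 + Ξ) ^ i.1)) :=
          mul_le_mul_of_nonneg_left h1 (Real.exp_pos _).le
      _ ≤ Real.exp (-(ε * i.1)) * ((2 * d) ^ n * (Real.exp (-A) * Real.exp (ε / 4 * i.1))) := by
          gcongr
      _ = (2 * d) ^ n * Real.exp (-(ε * i.1) + (-A + ε / 4 * i.1)) := by
          rw [Real.exp_add, Real.exp_add]; ring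
      _ ≤ (2 * d) ^ n * Real.exp (-(η * n)) :=
          mul_le_mul_of_nonneg_left (Real.exp_le_exp.mpr h4) (by positivity)
  have hcover := sum_cover ((range (n + 2)) ×ˢ ((range K2) ×ˢ
    (Fintype.piFinset fun _ : Fin d => Finset.Icc (-(n : ℤ)) n))) (allw d n)
    (fun i => (allw d n).filter (fun w => (vis 0 w).card = i.1 ∧ endp w = i.2.2 ∧
        K2 * soft (T₀ + i.2.1 * R) R i₀ w ≤ (vis 0 w).card))
    (fun w => Real.exp (-(ε * ((vis 0 w).card : ℝ)) - En β γ (loc w)))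
    (fun w => (Real.exp_pos _).le)
    (by
      intro w hw
      obtain ⟨j, hj, hj2⟩ := exists_soft T₀ R K2 hK2p i₀ w
      refine ⟨((vis 0 w).card, (j, endp w)), Finset.mem_product.mpr ⟨?_, Finset.mem_product.mpr
        ⟨hj, ?_⟩⟩, Finset.mem_filter.mpr ⟨hw, rfl, rfl, hj2⟩⟩
      · have h3 := card_vis_le 0 w
        rw [mem_allw.mp hw] at h3
        exact Finset.mem_range.mpr (by omega)
      · rw [Fintype.mem_piFinset]
        intro i
        have h3 := abs_endp w i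
        rw [mem_allw.mp hw, abs_le] at h3
        exact Finset.mem_Icc.mpr h3)
  have hcard : (((range (n + 2)) ×ˢ ((range K2) ×ˢ (Fintype.piFinset fun _ : Fin d =>
      Finset.Icc (-(n : ℤ)) n))).card : ℝ) = ((n : ℝ) + 2) * (K2 * (2 * (n : ℝ) + 1) ^ d) := by
    rw [Finset.card_product, Finset.card_product, Finset.card_range, Finset.card_range,
      Fintype.card_piFinset, Finset.prod_const, Finset.card_univ, Fintype.card_fin, Int.card_Icc]
    have h1 : ((n : ℤ) + 1 - -(n : ℤ)).toNat = 2 * n + 1 := by omega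
    rw [h1]
    push_cast
    ring
  have hcard2 : ((n : ℝ) + 2) * (K2 * (2 * (n : ℝ) + 1) ^ d) ≤
      K2 * (2 * (n : ℝ) + 2) ^ (d + 1) := by
    calc ((n : ℝ) + 2) * (K2 * (2 * (n : ℝ) + 1) ^ d)
        ≤ (2 * (n : ℝ) + 2) * (K2 * (2 * (n : ℝ) + 2) ^ d) := by
          gcongr <;> linarith
      _ = _ := by ring
  refine hcover.trans ((Finset.sum_le_sum hpart).trans ?_)
  rw [Finset.sum_const, nsmul_eq_mul, hcard]
  calc ((n : ℝ) + 2) * (K2 * (2 * (n : ℝ) + 1) ^ d) * ((2 * d) ^ n * Real.exp (-(η * n)))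
      ≤ K2 * (2 * (n : ℝ) + 2) ^ (d + 1) * ((2 * d) ^ n * Real.exp (-(η * n))) :=
        mul_le_mul_of_nonneg_right hcard2 (by positivity)
    _ = _ := by ring

end Pool.Agent.DFE
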