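import Pool.Agent.Lib.DFE.Fin7
import Pool.Agent.Lib.DFE.Fin1
import Pool.Agent.Lib.DFE.SITH
import Pool.Agent.Lib.DFE.SITB
import Pool.Agent.Lib.DFE.UBH
import Pool.Agent.Lib.DFE.PWH
import Pool.Agent.Lib.DFE.CLSH
import Pool.Agent.Lib.DFE.UPH
import Pool.Agent.Lib.DFE.HOL
import Pool.Agent.Lib.DFE.LOH

/-!
Two terms of the free energy and the exact order of the range.
-/

set_option autoImplicit false

namespace Pool.Agent.DFE

open Pool.Agent.DCOL

theorem clsh_all : CLSH_stmt := clsh set_thm (pwh set_thm sith) (cst set_thm) expl2 lev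

theorem uph_all : UPH_stmt := uph set_thm run_thm enb sith clsh_all

theorem rng_all : RNG_stmt := rng (hol uph_all (ubh (sitb sith))) (loh (box_thm list_thm))

/-- Two terms of the free energy and the exact order of the range. -/
theorem expansion_all {d : ℕ} (hd : 1 ≤ d) {b B : ℝ} (hb : 0 < b) :
    ∃ C δ₀ : ℝ, 0 < C ∧ 0 < δ₀ ∧ ∀ β γ δ L S a : ℝ, b ≤ β → β ≤ B → β - δ₀ ≤ γ → γ < β →
      δ = β - γ → L = Real.log (1 / δ) → S = Real.sqrt (δ * L) → a = S / (2 * δ) →
      ∃ n₀ : ℕ, ∀ n : ℕ, n₀ ≤ n →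
        ((2 * d) ^ n * Real.exp (-(S * (1 + Real.log L / (2 * L) + C / L) * n)) ≤
            partitionFunction d β γ n ∧
          partitionFunction d β γ n ≤
            (2 * d) ^ n * Real.exp (-(S * (1 + Real.log L / (2 * L) - C / L) * n))) ∧
        prob d β γ n (fun s => ((visited s).card : ℝ) ≤ n / (C * a)) ≤ Real.exp (-(n / a)) ∧
        prob d β γ n (fun s => C * (n / a) ≤ ((visited s).card : ℝ)) ≤ Real.exp (-(n / a)) ∧
        meanSquare d β γ n ≤ (C * (n / a)) ^ 2 :=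
  expansion rng_all hd hb

end Pool.Agent.DFE
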