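import Pool.Agent.Lib.DFE.Upper

/-!
The upper bound for the partition function for all `β`.
-/

set_option autoImplicit false

namespace Pool.Agent.DFE

open Finset Pool.Agent.DCOL

variable {d : ℕ}

/-- The scale `√(δ log (1 / δ))`. -/
noncomputable def SS (δ : ℝ) : ℝ := Real.sqrt (δ * Real.log (1 / δ))

theorem star {ε c : ℝ} (hε : 0 < ε) (hε1 : ε < 1) (hc : 0 < c) (K : ℝ) :
    ∃ δ₁ : ℝ, 0 < δ₁ ∧ ∀ δ, 0 < δ → δ ≤ δ₁ → 1 ≤ Real.log (1 / δ) ∧ 0 < (1 - ε) * SS δ ∧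
      ((1 - ε) * SS δ) ^ 2 / (4 * δ) + K ≤ 1 / 2 * Real.log (c / ((1 - ε) * SS δ)) := by
  set M : ℝ := K - 1 / 2 * Real.log c + 1 / 4 * Real.log (2 / ε) with hM
  refine ⟨Real.exp (-(max 1 (8 * M / ε))), Real.exp_pos _, fun δ hδ hδ1 => ?_⟩
  set L : ℝ := Real.log (1 / δ) with hL
  have hL1 : max 1 (8 * M / ε) ≤ L := by
    rw [hL, Real.log_div one_ne_zero hδ.ne', Real.log_one, zero_sub, le_neg]
    have := Real.log_le_log hδ hδ1
    rwa [Real.log_exp] at this
  have hL2 : 1 ≤ L := (le_max_left _ _).trans hL1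
  have hL3 : 8 * M / ε ≤ L := (le_max_right _ _).trans hL1
  have hL0 : 0 < L := by linarith
  have hS : 0 < SS δ := Real.sqrt_pos.mpr (mul_pos hδ hL0)
  have hSsq : SS δ ^ 2 = δ * L := Real.sq_sqrt (mul_pos hδ hL0).le
  have hη : 0 < (1 - ε) * SS δ := mul_pos (by linarith) hS
  refine ⟨hL2, hη, ?_⟩
  have h1 : ((1 - ε) * SS δ) ^ 2 / (4 * δ) = (1 - ε) ^ 2 * L / 4 := by
    rw [mul_pow, hSsq]; field_simp
  have h2 : Real.log (c / ((1 - ε) * SS δ)) = Real.log c - Real.log (1 - ε) - 1 / 2 * (-L + Real.log L) := by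
    rw [Real.log_div hc.ne' hη.ne', Real.log_mul (by linarith) hS.ne']
    have h3 : Real.log (SS δ) = 1 / 2 * (-L + Real.log L) := by
      have h4 : 2 * Real.log (SS δ) = Real.log δ + Real.log L := by
        rw [← Real.log_mul hδ.ne' hL0.ne', ← hSsq, Real.log_pow]; push_cast; ring
      have h5 : Real.log δ = -L := by
        rw [hL, Real.log_div one_ne_zero hδ.ne', Real.log_one]; ring
      rw [h5] at h4
      linarith
    rw [h3]; ring
  have h3 : Real.log (1 - ε) ≤ 0 := Real.log_nonpos (by linarith) (by linarith)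
  have h4 : Real.log L ≤ ε * L / 2 + Real.log (2 / ε) := by
    have h5 : L = (ε * L / 2) * (2 / ε) := by field_simp
    have h6 : Real.log L = Real.log (ε * L / 2) + Real.log (2 / ε) := by
      conv_lhs => rw [h5]
      exact Real.log_mul (by positivity) (by positivity)
    have h7 := Real.log_le_sub_one_of_pos (show 0 < ε * L / 2 by positivity)
    linarith
  have h5 : M ≤ ε * L / 8 := by
    rw [div_le_iff₀ hε] at hL3
    linarith
  have h6 : (1 - ε) ^ 2 * L ≤ (1 - ε) * L := by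
    refine mul_le_mul_of_nonneg_right ?_ hL0.le
    nlinarith
  rw [h1, h2]
  linarith

theorem En_scale {β γ θ : ℝ} (hθ : θ ≠ 0) (h : Site d → ℝ) :
    En β γ h = θ * En (β / θ) (γ / θ) h := by
  unfold En
  field_simp

theorem power_mean {ι : Type*} (s : Finset ι) (X : ι → ℝ) (hX : ∀ i ∈ s, 0 < X i) {θ B : ℝ}
    (hθ : 0 < θ) (hθ1 : θ ≤ 1) (hs : s.Nonempty) (hB : ∑ i ∈ s, X i ≤ s.card * B) :
    ∑ i ∈ s, X i ^ θ ≤ s.card * B ^ θ := by
  have hc : (0 : ℝ) < s.card := by exact_mod_cast hs.card_pos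
  have hp : 1 ≤ 1 / θ := by rw [le_div_iff₀ hθ]; linarith
  have h1 := Real.rpow_sum_le_const_mul_sum_rpow_of_nonneg s (f := fun i => X i ^ θ) hp
    fun i hi => (Real.rpow_pos_of_pos (hX i hi) _).le
  have h2 : ∑ i ∈ s, (X i ^ θ) ^ (1 / θ) = ∑ i ∈ s, X i := by
    refine Finset.sum_congr rfl fun i hi => ?_
    rw [← Real.rpow_mul (hX i hi).le, mul_one_div_cancel hθ.ne', Real.rpow_one]
  rw [h2] at h1
  have hXs : 0 < ∑ i ∈ s, X i := Finset.sum_pos hX hs
  have hB0 : 0 < B := by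
    by_contra h
    push Not at h
    nlinarith
  have hs0 : 0 ≤ ∑ i ∈ s, X i ^ θ :=
    Finset.sum_nonneg fun i hi => (Real.rpow_pos_of_pos (hX i hi) _).le
  have h3 : (∑ i ∈ s, X i ^ θ) ^ (1 / θ) ≤ (s.card : ℝ) ^ (1 / θ) * B := by
    refine h1.trans ?_
    calc (s.card : ℝ) ^ (1 / θ - 1) * ∑ i ∈ s, X i ≤ (s.card : ℝ) ^ (1 / θ - 1) * (s.card * B) := by
          gcongr
      _ = _ := by
          rw [← mul_assoc, ← Real.rpow_add_one hc.ne', sub_add_cancel]
  have h4 : ∑ i ∈ s, X i ^ θ = ((∑ i ∈ s, X i ^ θ) ^ (1 / θ)) ^ θ := by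
    rw [← Real.rpow_mul hs0, one_div_mul_cancel hθ.ne', Real.rpow_one]
  rw [h4]
  calc ((∑ i ∈ s, X i ^ θ) ^ (1 / θ)) ^ θ ≤ ((s.card : ℝ) ^ (1 / θ) * B) ^ θ :=
        Real.rpow_le_rpow (Real.rpow_nonneg hs0 _) h3 hθ.le
    _ = _ := by
        rw [Real.mul_rpow (Real.rpow_nonneg hc.le _) hB0.le, ← Real.rpow_mul hc.le,
          one_div_mul_cancel hθ.ne', Real.rpow_one]

/-- The constant of the upper bound. -/
noncomputable def cb (d : ℕ) (β : ℝ) : ℝ := min 1 (Real.sqrt (β / Gam d))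

theorem Gam_pos (hd : 0 < d) : 0 < Gam d := by
  have hd0 : (0 : ℝ) < d := by exact_mod_cast hd
  unfold Gam
  have : 0 < Real.log (16 * (d : ℝ) ^ 2 + 1) := Real.log_pos (by nlinarith [pow_pos hd0 2])
  positivity

/-- **The upper bound.** -/
theorem upper_all (hd : 0 < d) {β ε : ℝ} (hβ : 0 < β) (hε : 0 < ε) (hε1 : ε < 1) :
    ∃ (γ₀ c₂ : ℝ), 0 < γ₀ ∧ γ₀ < β ∧ 0 < c₂ ∧ c₂ ≤ 1 ∧ ∀ γ, γ₀ ≤ γ → γ < β →
      1 ≤ Real.log (1 / (β - γ)) ∧ ∀ n : ℕ,
      ∑ w ∈ allw d n, Real.exp (c₂ * ((vis 0 w).card : ℝ) - En β γ (loc w)) ≤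
        (2 * d) ^ n * ((n + 1) ^ 2 * Real.exp (1 - (1 - ε) * cb d β * SS (β - γ) * n)) := by
  have hd0 : (0 : ℝ) < d := by exact_mod_cast hd
  have hd1 : (1 : ℝ) ≤ d := by exact_mod_cast hd
  have hG := Gam_pos hd
  set e : ℝ := ε / 3 with he
  have he0 : 0 < e := by positivity
  have he1 : e < 1 := by linarith
  set c : ℝ := 1 / (8 * d) with hc
  have hc0 : 0 < c := by positivity
  have hc1 : 3 * c ≤ 1 := by
    rw [hc, mul_one_div, div_le_one (by positivity)]; linarith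
  set θ : ℝ := min 1 ((1 - e) ^ 2 * β / Gam d) with hθ
  have h1e : 0 < (1 - e) ^ 2 := by
    have : 0 < 1 - e := by linarith
    positivity
  have hθ0 : 0 < θ := lt_min one_pos (by positivity)
  have hθ1 : θ ≤ 1 := min_le_left _ _
  obtain ⟨δ₁, hδ₁, hstar⟩ := star he0 he1 hc0 (3 * c + 1 / 2 * Real.log d)
  set δ₂ : ℝ := min (θ * δ₁) (Real.exp (-(max 1 (-(Real.log θ) / e)))) with hδ₂
  have hδ₂0 : 0 < δ₂ := lt_min (by positivity) (Real.exp_pos _)
  refine ⟨max ((1 - e) ^ 2 * β) (β - min δ₂ (β / 2)), θ * c, lt_max_of_lt_left (by positivity), ?_,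
    by positivity, ?_, fun γ hγ hγβ => ?_⟩
  · refine max_lt ?_ ?_
    · have : (1 - e) ^ 2 < 1 := by nlinarith
      nlinarith
    · have : 0 < min δ₂ (β / 2) := lt_min hδ₂0 (by positivity)
      linarith
  · calc θ * c ≤ 1 * 1 := mul_le_mul hθ1 (by linarith) hc0.le one_pos.le
      _ = 1 := one_mul 1
  have hγ1 : (1 - e) ^ 2 * β ≤ γ := (le_max_left _ _).trans hγ
  have hγ2 : β - γ ≤ δ₂ := by
    have h1 := (le_max_right ((1 - e) ^ 2 * β) (β - min δ₂ (β / 2))).trans hγ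
    have h2 := min_le_left δ₂ (β / 2)
    linarith
  set δ : ℝ := β - γ with hδ
  have hδ0 : 0 < δ := by rw [hδ]; linarith
  set L : ℝ := Real.log (1 / δ) with hL
  have hL1 : max 1 (-(Real.log θ) / e) ≤ L := by
    rw [hL, Real.log_div one_ne_zero hδ0.ne', Real.log_one, zero_sub, le_neg]
    have := Real.log_le_log hδ0 (hγ2.trans (min_le_right _ _))
    rwa [Real.log_exp] at this
  have hL2 : 1 ≤ L := (le_max_left _ _).trans hL1
  have hL3 : -(Real.log θ) ≤ e * L := by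
    have := (le_max_right 1 (-(Real.log θ) / e)).trans hL1
    rw [div_le_iff₀ he0] at this
    linarith
  refine ⟨hL2, fun n => ?_⟩
  have hδ' : δ / θ ≤ δ₁ := by
    rw [div_le_iff₀ hθ0]
    have := hγ2.trans (min_le_left _ _)
    linarith
  have hδ'0 : 0 < δ / θ := by positivity
  obtain ⟨hs1, hs2, hs3⟩ := hstar (δ / θ) hδ'0 hδ'
  set η : ℝ := (1 - e) * SS (δ / θ) with hη
  have hγθ : Gam d ≤ γ / θ := by
    rw [le_div_iff₀ hθ0]
    have h1 : θ ≤ (1 - e) ^ 2 * β / Gam d := min_le_right _ _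
    rw [le_div_iff₀ hG] at h1
    linarith
  have hβθ : γ / θ < β / θ := by gcongr
  have hδθ : β / θ - γ / θ = δ / θ := by rw [hδ]; ring
  have hU := upper_big hd hγθ hβθ hs2 (by rw [hδθ]; linarith) n
  -- the power mean inequality
  have hne : (allw d n).Nonempty := by
    rw [← Finset.card_pos, card_allw]; positivity
  have hcard : ((allw d n).card : ℝ) = (2 * d) ^ n := by rw [card_allw]; push_cast; rfl
  have hPM := power_mean (allw d n)
    (fun w => Real.exp (c * ((vis 0 w).card : ℝ) - En (β / θ) (γ / θ) (loc w)))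
    (fun w _ => Real.exp_pos _) hθ0 hθ1 hne (B := (n + 1) ^ 2 * Real.exp (3 * c - η * n)) (by
      rw [hcard]; exact hU)
  rw [hcard] at hPM
  have hterm : ∀ w ∈ allw d n, Real.exp (c * ((vis 0 w).card : ℝ) - En (β / θ) (γ / θ) (loc w)) ^ θ =
      Real.exp (θ * c * ((vis 0 w).card : ℝ) - En β γ (loc w)) := by
    intro w _
    rw [← Real.exp_mul, En_scale hθ0.ne' (β := β) (γ := γ)]
    congr 1; ring
  rw [Finset.sum_congr rfl hterm] at hPM
  refine hPM.trans ?_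
  refine mul_le_mul_of_nonneg_left ?_ (by positivity)
  have hn1 : (1 : ℝ) ≤ (n : ℝ) + 1 := by
    have : (0 : ℝ) ≤ n := Nat.cast_nonneg _
    linarith
  rw [Real.mul_rpow (by positivity) (Real.exp_pos _).le, ← Real.exp_mul]
  have hq1 : (((n : ℝ) + 1) ^ 2) ^ θ ≤ ((n : ℝ) + 1) ^ 2 := by
    have h1 : (1 : ℝ) ≤ ((n : ℝ) + 1) ^ 2 := one_le_pow₀ hn1
    calc (((n : ℝ) + 1) ^ 2) ^ θ ≤ (((n : ℝ) + 1) ^ 2) ^ (1 : ℝ) :=
          Real.rpow_le_rpow_of_exponent_le h1 hθ1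
      _ = _ := Real.rpow_one _
  -- the rate
  have hrate : (1 - ε) * cb d β * SS δ ≤ θ * η := by
    have r1 : SS (δ / θ) = Real.sqrt (1 / θ) * Real.sqrt (δ * (L + Real.log θ)) := by
      unfold SS
      rw [← Real.sqrt_mul (by positivity)]
      congr 1
      have : Real.log (1 / (δ / θ)) = L + Real.log θ := by
        rw [hL, ← Real.log_mul (by positivity) hθ0.ne']
        congr 1; field_simp
      rw [this]; ring
    have r2 : θ * Real.sqrt (1 / θ) = Real.sqrt θ := by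
      rw [Real.sqrt_div zero_le_one, Real.sqrt_one, mul_one_div, Real.div_sqrt]
    have r3 : (1 - e) * SS δ ≤ Real.sqrt (δ * (L + Real.log θ)) := by
      unfold SS
      rw [← hL]
      refine Real.le_sqrt_of_sq_le ?_
      rw [mul_pow, Real.sq_sqrt (by positivity)]
      have : (1 - e) ^ 2 * L ≤ L + Real.log θ := by
        have h1 : (1 - e) ^ 2 * L ≤ (1 - e) * L := by
          refine mul_le_mul_of_nonneg_right ?_ (by linarith)
          nlinarith
        linarith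
      calc (1 - e) ^ 2 * (δ * L) = δ * ((1 - e) ^ 2 * L) := by ring
        _ ≤ _ := mul_le_mul_of_nonneg_left this hδ0.le
    have r4 : (1 - e) * cb d β ≤ Real.sqrt θ := by
      refine Real.le_sqrt_of_sq_le ?_
      rw [mul_pow, hθ]
      unfold cb
      have h1e1 : (1 - e) ^ 2 ≤ 1 := by nlinarith
      refine le_min ?_ ?_
      · have h1 : (min 1 (Real.sqrt (β / Gam d))) ^ 2 ≤ 1 :=
          pow_le_one₀ (le_min zero_le_one (Real.sqrt_nonneg _)) (min_le_left _ _)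
        calc (1 - e) ^ 2 * (min 1 (Real.sqrt (β / Gam d))) ^ 2 ≤ 1 * 1 :=
              mul_le_mul h1e1 h1 (by positivity) zero_le_one
          _ = 1 := one_mul 1
      · have h1 : (min 1 (Real.sqrt (β / Gam d))) ^ 2 ≤ β / Gam d := by
          calc (min 1 (Real.sqrt (β / Gam d))) ^ 2 ≤ (Real.sqrt (β / Gam d)) ^ 2 :=
                pow_le_pow_left₀ (le_min zero_le_one (Real.sqrt_nonneg _)) (min_le_right _ _) 2
            _ = _ := Real.sq_sqrt (by positivity)
        calc (1 - e) ^ 2 * (min 1 (Real.sqrt (β / Gam d))) ^ 2 ≤ (1 - e) ^ 2 * (β / Gam d) := by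
              gcongr
          _ = _ := by ring
    have hcb : 0 ≤ cb d β := le_min zero_le_one (Real.sqrt_nonneg _)
    have hSS : 0 ≤ SS δ := Real.sqrt_nonneg _
    have r5 : (1 - ε) ≤ (1 - e) ^ 3 := by
      have : (1 - e) ^ 3 = 1 - 3 * e + e ^ 2 * (3 - e) := by ring
      have h2 : 0 ≤ e ^ 2 * (3 - e) := mul_nonneg (by positivity) (by linarith)
      rw [this, he]
      rw [he] at h2
      linarith
    calc (1 - ε) * cb d β * SS δ ≤ (1 - e) ^ 3 * cb d β * SS δ := by gcongr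
      _ = (1 - e) * (((1 - e) * cb d β) * ((1 - e) * SS δ)) := by ring
      _ ≤ (1 - e) * (Real.sqrt θ * Real.sqrt (δ * (L + Real.log θ))) := by
          have h1e' : 0 ≤ 1 - e := by linarith
          gcongr
      _ = θ * η := by rw [hη, r1, ← r2]; ring
  have hn0 : (0 : ℝ) ≤ n := Nat.cast_nonneg _
  have hq2 : Real.exp ((3 * c - η * n) * θ) ≤
      Real.exp (1 - (1 - ε) * cb d β * SS δ * n) := by
    refine Real.exp_le_exp.mpr ?_
    have h1 : 3 * c * θ ≤ 1 * 1 := mul_le_mul hc1 hθ1 hθ0.le zero_le_one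
    have h2 := mul_le_mul_of_nonneg_right hrate hn0
    linarith
  exact mul_le_mul hq1 hq2 (Real.exp_pos _).le (by positivity)

end Pool.Agent.DFE
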