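import Pool.Agent.Lib.DFE.Defs7

/-!
Row LOWC: the lower bound for the partition function, from the words with the profile `prf`,
followed by a straight line.
-/

set_option autoImplicit false

namespace Pool.Agent.DFE

open Finset Pool.Agent.DCOL

theorem lowc : PYR_stmt → PEN_stmt → LEN_stmt → LOWC_stmt := by
  classical
  intro hPYR hPEN hLEN d hd β hβ
  obtain ⟨C₁, hC₁, hpyr⟩ := hPYR d hd
  obtain ⟨C₂, hC₂, hpen⟩ := hPEN d hd β hβ
  obtain ⟨C₃, c₃, hC₃, hc₃, hlen⟩ := hLEN d hd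
  have hd1 : (1 : ℝ) ≤ d := by exact_mod_cast hd
  set lg : ℝ := Real.log (2 * d) with hlg
  have hlg0 : 0 ≤ lg := Real.log_nonneg (by linarith)
  set C : ℝ := C₁ + C₂ + C₃ * (lg + C₂) + 2 * C₃ + C₃ * (2 * 2 ^ d) with hC
  have hC0 : 0 < C := by positivity
  have hCa : C₃ * (2 * 2 ^ d) ≤ C := by
    have : 0 ≤ C₁ + C₂ + C₃ * (lg + C₂) + 2 * C₃ := by positivity
    linarith
  have hCb : 2 * C₃ ≤ C := by
    have : 0 ≤ C₁ + C₂ + C₃ * (lg + C₂) + C₃ * (2 * 2 ^ d) := by positivity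
    linarith
  have hCc : C₁ + C₂ + C₃ * (lg + C₂) ≤ C := by
    have : 0 ≤ 2 * C₃ + C₃ * (2 * 2 ^ d) := by positivity
    linarith
  refine ⟨C, c₃, hC0, hc₃, fun γ hγ hγβ A h n hA hh hn => ?_⟩
  have hA1 : (1 : ℝ) ≤ A := by exact_mod_cast hA
  have hAh1 : (1 : ℝ) ≤ (A : ℝ) * h + 1 := by
    have : (0 : ℝ) ≤ (A : ℝ) * h := by positivity
    linarith
  have hlog0 : 0 ≤ Real.log ((A : ℝ) * h + 1) := Real.log_nonneg hAh1
  -- the length function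
  obtain ⟨L, hL⟩ : ∃ L : ℕ → ℕ, ∀ N, L N = ∑ x ∈ box d N, prf A h N x := ⟨_, fun _ => rfl⟩
  have hmin1 : ∀ N : ℕ, 2 ≤ N → (1 : ℝ) ≤ ((min h N : ℕ) : ℝ) := by
    intro N hN
    exact_mod_cast (le_min hh (by omega) : 1 ≤ min h N)
  have hlen1 : ∀ N : ℕ, 2 ≤ N → c₃ * ((A : ℝ) * ((min h N : ℕ) : ℝ) * (N : ℝ) ^ d) ≤ (L N : ℝ) := by
    intro N hN
    rw [hL]
    have := (hlen A h N hA hh hN).1
    push_cast at this ⊢
    exact this
  have hlen2 : ∀ N : ℕ, 2 ≤ N → (L N : ℝ) ≤ C₃ * ((A : ℝ) * ((min h N : ℕ) : ℝ) * (N : ℝ) ^ d) := by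
    intro N hN
    rw [hL]
    have := (hlen A h N hA hh hN).2.1
    push_cast at this ⊢
    exact this
  have hlen3 : ∀ N : ℕ, 2 ≤ N → (L (N + 1) : ℝ) ≤ (L N : ℝ) + C₃ * A * (N : ℝ) ^ d := by
    intro N hN
    rw [hL, hL]
    exact (hlen A h N hA hh hN).2.2
  -- `L 2 ≤ n`
  have h2n : L 2 ≤ n := by
    have h1 := hlen2 2 le_rfl
    have h2 : ((min h 2 : ℕ) : ℝ) ≤ 2 := by exact_mod_cast min_le_right h 2
    have h3 : (L 2 : ℝ) ≤ n := by
      calc (L 2 : ℝ) ≤ C₃ * ((A : ℝ) * ((min h 2 : ℕ) : ℝ) * ((2 : ℕ) : ℝ) ^ d) := h1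
        _ ≤ C₃ * ((A : ℝ) * 2 * 2 ^ d) := by
            push_cast
            have h4 : ((min (h : ℝ) 2)) ≤ 2 := min_le_right _ _
            gcongr
        _ = C₃ * (2 * 2 ^ d) * A := by ring
        _ ≤ C * A := mul_le_mul_of_nonneg_right hCa (by positivity)
        _ ≤ n := hn
    exact_mod_cast h3
  obtain ⟨K, hK⟩ := exists_nat_gt ((n : ℝ) / c₃ + 2)
  have hn0 : (0 : ℝ) ≤ n := Nat.cast_nonneg _
  have hK2 : 2 ≤ K := by
    have h1 : (2 : ℝ) ≤ K := by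
      have : 0 ≤ (n : ℝ) / c₃ := by positivity
      linarith
    exact_mod_cast h1
  have hLbig : ∀ N : ℕ, K ≤ N → n < L N := by
    intro N hN
    have hN2 : 2 ≤ N := hK2.trans hN
    have h1 := hlen1 N hN2
    have h2 : (n : ℝ) / c₃ < N := by
      have : (K : ℝ) ≤ N := by exact_mod_cast hN
      linarith
    rw [div_lt_iff₀ hc₃] at h2
    have hN1 : (1 : ℝ) ≤ N := by exact_mod_cast (by omega : 1 ≤ N)
    have h3 : (N : ℝ) ≤ (A : ℝ) * ((min h N : ℕ) : ℝ) * (N : ℝ) ^ d := by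
      have h4 : (N : ℝ) ^ 1 ≤ (N : ℝ) ^ d := pow_le_pow_right₀ hN1 hd
      rw [pow_one] at h4
      have h5 : 1 ≤ (A : ℝ) * ((min h N : ℕ) : ℝ) := one_le_mul_of_one_le_of_one_le hA1 (hmin1 N hN2)
      calc (N : ℝ) ≤ (N : ℝ) ^ d := h4
        _ = 1 * (N : ℝ) ^ d := (one_mul _).symm
        _ ≤ _ := mul_le_mul_of_nonneg_right h5 (by positivity)
    have h6 : (n : ℝ) < L N := by
      calc (n : ℝ) < N * c₃ := h2
        _ = c₃ * N := mul_comm _ _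
        _ ≤ c₃ * ((A : ℝ) * ((min h N : ℕ) : ℝ) * (N : ℝ) ^ d) :=
            mul_le_mul_of_nonneg_left h3 hc₃.le
        _ ≤ _ := h1
    exact_mod_cast h6
  -- the side
  obtain ⟨N, hN2, hNn, hNn'⟩ : ∃ N : ℕ, 2 ≤ N ∧ L N ≤ n ∧ n < L (N + 1) := by
    refine ⟨Nat.findGreatest (fun N => L N ≤ n) K,
      Nat.le_findGreatest (P := fun N => L N ≤ n) hK2 h2n,
      Nat.findGreatest_spec (P := fun N => L N ≤ n) hK2 h2n, ?_⟩
    by_contra hcon
    rw [not_lt] at hcon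
    by_cases hlt : Nat.findGreatest (fun N => L N ≤ n) K + 1 ≤ K
    · have := Nat.le_findGreatest (P := fun N => L N ≤ n) hlt hcon
      omega
    · have := hLbig (Nat.findGreatest (fun N => L N ≤ n) K + 1) (by omega)
      omega
  have hm1 := hmin1 N hN2
  have hNd : (0 : ℝ) ≤ (N : ℝ) ^ d := by positivity
  have hNnR : (L N : ℝ) ≤ n := by exact_mod_cast hNn
  obtain ⟨r, hr⟩ : ∃ r : ℕ, n = L N + r := ⟨n - L N, by omega⟩
  have hrR : (n : ℝ) = L N + r := by exact_mod_cast hr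
  have hrle : (r : ℝ) ≤ C₃ * A * (N : ℝ) ^ d := by
    have h1 : (n : ℝ) ≤ L (N + 1) := by exact_mod_cast hNn'.le
    have h2 := hlen3 N hN2
    linarith
  have hcastmin : ((min h N : ℕ) : ℝ) = min (h : ℝ) (N : ℝ) := by push_cast; rfl
  refine ⟨N, hN2, ?_, ?_, ?_⟩
  · have := (hlen1 N hN2).trans hNnR
    push_cast at this ⊢
    exact this
  · have h1 := hlen2 N hN2
    have h2 : C₃ * A * (N : ℝ) ^ d ≤ C₃ * ((A : ℝ) * ((min h N : ℕ) : ℝ) * (N : ℝ) ^ d) := by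
      have h3 : (A : ℝ) * 1 ≤ (A : ℝ) * ((min h N : ℕ) : ℝ) :=
        mul_le_mul_of_nonneg_left hm1 (by positivity)
      have h4 := mul_le_mul_of_nonneg_right h3 hNd
      have h5 := mul_le_mul_of_nonneg_left h4 hC₃.le
      linarith
    have h6 : (n : ℝ) ≤ 2 * C₃ * ((A : ℝ) * ((min h N : ℕ) : ℝ) * (N : ℝ) ^ d) := by
      linarith
    have h7 : 2 * C₃ * ((A : ℝ) * ((min h N : ℕ) : ℝ) * (N : ℝ) ^ d) ≤
        C * ((A : ℝ) * ((min h N : ℕ) : ℝ) * (N : ℝ) ^ d) :=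
      mul_le_mul_of_nonneg_right hCb (by positivity)
    have h8 := h6.trans h7
    push_cast at h8 ⊢
    exact h8
  -- the words
  obtain ⟨W, hWne, hW, hWc⟩ := hpyr A h N hA hh hN2
  set s : Step d := (⟨0, hd⟩, false) with hs
  set E : ℝ := C₂ * (((β - γ) * ((A : ℝ) * min h N) ^ 2 + (A : ℝ) ^ 2) * (N : ℝ) ^ d + r) with hE
  set W' := W.image fun w => w ++ List.replicate r s with hW'
  have hW'c : W'.card = W.card := Finset.card_image_of_injective _ (List.append_left_injective _)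
  have hsub : W' ⊆ allw d n := by
    intro w hw
    obtain ⟨w', hw', rfl⟩ := Finset.mem_image.mp hw
    rw [mem_allw, List.length_append, List.length_replicate, (hW w' hw').1, ← hL]
    omega
  have hZ : (W.card : ℝ) * Real.exp (-E) ≤ Zw d β γ n := by
    calc (W.card : ℝ) * Real.exp (-E) = ∑ _w ∈ W', Real.exp (-E) := by
          rw [Finset.sum_const, nsmul_eq_mul, hW'c]
      _ ≤ ∑ w ∈ W', Real.exp (-En β γ (loc w)) := by
        refine Finset.sum_le_sum fun w hw => ?_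
        obtain ⟨w', hw', rfl⟩ := Finset.mem_image.mp hw
        refine Real.exp_le_exp.mpr (neg_le_neg ?_)
        exact hpen γ hγ hγβ A h N r hA hh hN2 w' (hW w' hw').2.1 (hW w' hw').2.2
      _ ≤ _ := Finset.sum_le_sum_of_subset_of_nonneg hsub fun w _ _ => (Real.exp_pos _).le
  refine le_trans ?_ hZ
  have hWc0 : (0 : ℝ) < W.card := by exact_mod_cast Finset.card_pos.mpr hWne
  have hpow : ((2 : ℝ) * d) ^ n = Real.exp (n * lg) := by
    rw [hlg, Real.exp_nat_mul, Real.exp_log (by positivity)]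
  rw [hpow, ← Real.exp_add]
  rw [show (W.card : ℝ) * Real.exp (-E) = Real.exp (Real.log W.card + -E) by
    rw [Real.exp_add, Real.exp_log hWc0]]
  refine Real.exp_le_exp.mpr ?_
  -- the final count
  have hδ : 0 ≤ β - γ := by linarith
  set Q : ℝ := (β - γ) * ((A : ℝ) * min h N) ^ 2 with hQ
  have hQ0 : 0 ≤ Q := by positivity
  set lg' : ℝ := Real.log ((A : ℝ) * h + 1) with hlg'
  rw [← hL] at hWc
  have hAA : (A : ℝ) ≤ (A : ℝ) ^ 2 := by nlinarith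
  have g1 : (r : ℝ) * (lg + C₂) ≤ C₃ * A * (N : ℝ) ^ d * (lg + C₂) :=
    mul_le_mul_of_nonneg_right hrle (by positivity)
  have g2 : C₃ * A * (N : ℝ) ^ d * (lg + C₂) ≤ C₃ * (lg + C₂) * (A : ℝ) ^ 2 * (N : ℝ) ^ d := by
    calc C₃ * A * (N : ℝ) ^ d * (lg + C₂) = C₃ * (lg + C₂) * A * (N : ℝ) ^ d := by ring
      _ ≤ _ := by gcongr
  have g3 : C₁ * ((A : ℝ) + lg') * (N : ℝ) ^ d ≤ C₁ * ((A : ℝ) ^ 2 + lg') * (N : ℝ) ^ d := by
    gcongr
  have g4 : (C₁ * ((A : ℝ) ^ 2 + lg') + C₂ * (Q + (A : ℝ) ^ 2) + C₃ * (lg + C₂) * (A : ℝ) ^ 2) *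
      (N : ℝ) ^ d ≤ C * ((Q + (A : ℝ) ^ 2 + lg') * (N : ℝ) ^ d) := by
    have e1 : C₁ * ((A : ℝ) ^ 2 + lg') + C₂ * (Q + (A : ℝ) ^ 2) +
        C₃ * (lg + C₂) * (A : ℝ) ^ 2 ≤
        (C₁ + C₂ + C₃ * (lg + C₂)) * (Q + (A : ℝ) ^ 2 + lg') := by
      have e2 : 0 ≤ C₁ * Q := mul_nonneg hC₁ hQ0
      have e3 : 0 ≤ C₂ * lg' := mul_nonneg hC₂.le hlog0
      have e4 : 0 ≤ C₃ * (lg + C₂) * (Q + lg') :=
        mul_nonneg (mul_nonneg hC₃.le (by linarith)) (by linarith)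
      linarith
    have e5 : (C₁ + C₂ + C₃ * (lg + C₂)) * (Q + (A : ℝ) ^ 2 + lg') ≤
        C * (Q + (A : ℝ) ^ 2 + lg') := mul_le_mul_of_nonneg_right hCc (by positivity)
    calc _ ≤ C * (Q + (A : ℝ) ^ 2 + lg') * (N : ℝ) ^ d :=
          mul_le_mul_of_nonneg_right (e1.trans e5) hNd
      _ = _ := by ring
  have g5 : E = C₂ * (Q + (A : ℝ) ^ 2) * (N : ℝ) ^ d + C₂ * r := by
    rw [hE]
    ring
  have g6 : (n : ℝ) * lg = L N * lg + r * lg := by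
    rw [hrR]
    ring
  rw [g5, g6]
  linarith

end Pool.Agent.DFE
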