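import Pool.Agent.Lib.DFE.LOW
import Pool.Agent.Lib.DFE.Defs4

/-!
The lower bound for the partition function for fixed `β`.
-/

set_option autoImplicit false

namespace Pool.Agent.DFE

theorem lowf (h : ∀ d : ℕ, 0 < d → BoxStmt d) : LOWF_stmt := by
  intro d hd β ε hβ hε
  obtain ⟨δ₀, hδ₀, H⟩ := low h d hd β ε hβ hε
  exact ⟨δ₀, hδ₀, fun γ hγ hγβ hδ => H β γ hγ hγβ le_rfl hδ⟩

end Pool.Agent.DFE
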