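import Pool.Agent.Lib.DFE.Defs8
import Pool.Agent.Lib.DFE.UPP
import Pool.Agent.Lib.DFE.VIST

/-!
Row RNG: the partition function up to `O (n / a)` and the exact order of the range.
-/

set_option autoImplicit false

namespace Pool.Agent.DFE

open Finset Pool.Agent.DCOL VISTAux UPPAux

/-- **RNG.** -/
theorem rng (hH : HOL_stmt) (hL : LOH_stmt) : RNG_stmt := by
  intro d hd b B hb hbB
  have hB : 0 < B := by linarith
  obtain ⟨c, K, C₁, δ₁, hc, hK, hC₁, hδ₁, h1⟩ := hH d hd (b / 2) B (by positivity) (by linarith)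
  obtain ⟨K₂, δ₂, hK₂, hδ₂, h2⟩ := hL d hd B hB
  obtain ⟨δ₃, hδ₃, h3⟩ := SS_small (x := 1) one_pos
  have hd0 : (0 : ℝ) < d := by exact_mod_cast hd
  set C₃ : ℝ := (K + K₂ + 2) / c with hC₃
  have hC₃0 : 0 < C₃ := by positivity
  set C : ℝ := C₃ + K + K₂ + 1 with hC
  refine ⟨C, min (min δ₁ δ₂) (min δ₃ (b / 2)), by positivity, by positivity,
    fun β γ hbβ hβB hγβ hδ => ?_⟩
  have g1 : β - γ ≤ δ₁ := hδ.trans ((min_le_left _ _).trans (min_le_left _ _))
  have g2 : β - γ ≤ δ₂ := hδ.trans ((min_le_left _ _).trans (min_le_right _ _))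
  have g3 : β - γ ≤ δ₃ := hδ.trans ((min_le_right _ _).trans (min_le_left _ _))
  have g4 : β - γ ≤ b / 2 := hδ.trans ((min_le_right _ _).trans (min_le_right _ _))
  have hγb : b / 2 ≤ γ := by linarith
  have hδ0 : 0 < β - γ := by linarith
  set δ : ℝ := β - γ with hδd
  have hS0 : 0 < SS δ := (h3 δ hδ0 g3).1
  have ha : 0 < aa δ := by unfold aa; positivity
  set a : ℝ := aa δ with hadef
  obtain ⟨n₁, hn₁⟩ := h2 β γ (by linarith) hγβ hβB g2
  obtain ⟨n₂, hn₂⟩ := poly_exp (a := 1 / a) (A := C₁ * 2 ^ (d + 2)) (B := a ^ 2) (by positivity)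
    (by positivity) (by positivity) (d + 2)
  refine ⟨max (max n₁ n₂) 1, fun n hn => ?_⟩
  have k1 : n₁ ≤ n := (le_max_left _ _).trans ((le_max_left _ _).trans hn)
  have k2 : n₂ ≤ n := (le_max_right _ _).trans ((le_max_left _ _).trans hn)
  have k3 : 1 ≤ n := (le_max_right _ _).trans hn
  have hn1 : (1 : ℝ) ≤ n := by exact_mod_cast k3
  have hn0 : (0 : ℝ) < n := by linarith
  have hlow := hn₁ n k1
  have hupp := h1 β γ hγb hγβ hβB g1 n
  have hpoly := hn₂ n k2
  have hna : 0 < (n : ℝ) / a := by positivity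
  have hna' : 1 / a * (n : ℝ) = n / a := by ring
  rw [hna'] at hpoly
  have hp1 : C₁ * (2 * (n : ℝ) + 2) ^ (d + 2) ≤ Real.exp (n / a) := by
    refine le_trans ?_ hpoly
    have e1 : (2 * (n : ℝ) + 2) ^ (d + 2) ≤ (2 * (2 * (n : ℝ) + 1)) ^ (d + 2) :=
      pow_le_pow_left₀ (by positivity) (by linarith) _
    rw [mul_pow] at e1
    have e2 : 0 ≤ a ^ 2 * ((n : ℝ) + 1) ^ 2 := by positivity
    calc C₁ * (2 * (n : ℝ) + 2) ^ (d + 2) ≤ C₁ * (2 ^ (d + 2) * (2 * (n : ℝ) + 1) ^ (d + 2)) :=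
          mul_le_mul_of_nonneg_left e1 hC₁.le
      _ = C₁ * 2 ^ (d + 2) * (2 * (n : ℝ) + 1) ^ (d + 2) := by ring
      _ ≤ _ := le_add_of_nonneg_right e2
  have hp2 : a ^ 2 * ((n : ℝ) + 1) ^ 2 ≤ Real.exp (n / a) := by
    refine le_trans ?_ hpoly
    exact le_add_of_nonneg_left (by positivity)
  have het : ∀ x : ℝ, et x δ * n = (δ * a + Real.log a / (2 * a)) * n - x * (n / a) := by
    intro x
    unfold et
    rw [← hadef]
    ring
  have hd2 : (0 : ℝ) < (2 * d) ^ n := by positivity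
  -- the weight with the number of the visited sites
  set M : ℝ := (2 * d) ^ n * (C₁ * (2 * (n : ℝ) + 2) ^ (d + 2) * Real.exp (-(et K δ * n))) with hM
  have hM1 : M ≤ (2 * d) ^ n * (Real.exp (n / a) * Real.exp (-(et K δ * n))) := by
    rw [hM]
    refine mul_le_mul_of_nonneg_left ?_ hd2.le
    exact mul_le_mul_of_nonneg_right hp1 (Real.exp_pos _).le
  have hprob : ∀ K' : ℝ, (K + K₂ + 2) * (n / a) ≤ c * K' →
      prob d β γ n (fun s => K' ≤ ((visited s).card : ℝ)) ≤ Real.exp (-(n / a)) := by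
    intro K' hK'
    refine (markov (K := K') hd hc.le hupp).trans ?_
    rw [div_le_iff₀ (Z_pos β γ hd), partition_eq]
    calc Real.exp (-(c * K')) * M ≤ Real.exp (-((K + K₂ + 2) * (n / a))) *
          ((2 * d) ^ n * (Real.exp (n / a) * Real.exp (-(et K δ * n)))) := by
          refine mul_le_mul (Real.exp_le_exp.mpr (neg_le_neg hK')) hM1 (by positivity)
            (Real.exp_pos _).le
      _ = Real.exp (-(n / a)) * ((2 * d) ^ n * Real.exp (-(et (-K₂) δ * n))) := by
          rw [mul_left_comm, ← Real.exp_add, ← Real.exp_add, mul_left_comm (Real.exp (-(n / a))),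
            ← Real.exp_add]
          congr 2
          rw [het, het]
          ring
      _ ≤ _ := mul_le_mul_of_nonneg_left hlow (Real.exp_pos _).le
  refine ⟨?_, ?_, ?_, ?_⟩
  · refine le_trans (mul_le_mul_of_nonneg_left (Real.exp_le_exp.mpr (neg_le_neg ?_)) hd2.le) hlow
    rw [het, het]
    have : 0 ≤ (C - K₂) * (n / a) := mul_nonneg (by rw [hC]; linarith) hna.le
    linarith
  · have hZ : Zw d β γ n ≤ M := by
      refine le_trans ?_ hupp
      unfold Zw
      refine Finset.sum_le_sum fun w _ => Real.exp_le_exp.mpr ?_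
      have : 0 ≤ c * ((vis 0 w).card : ℝ) := by positivity
      linarith
    refine hZ.trans (hM1.trans ?_)
    refine mul_le_mul_of_nonneg_left ?_ hd2.le
    rw [← Real.exp_add]
    refine Real.exp_le_exp.mpr ?_
    rw [het, het]
    have : 0 ≤ (C - K - 1) * (n / a) := mul_nonneg (by rw [hC]; linarith) hna.le
    linarith
  · refine hprob _ ?_
    have e1 : c * (C₃ * (n / a)) = (K + K₂ + 2) * (n / a) := by rw [hC₃]; field_simp
    have e2 : 0 ≤ c * ((C - C₃) * (n / a)) :=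
      mul_nonneg hc.le (mul_nonneg (by rw [hC]; linarith) hna.le)
    linarith
  · have e1 : c * (C₃ * (n / a)) = (K + K₂ + 2) * (n / a) := by rw [hC₃]; field_simp
    have hP := hprob (C₃ * (n / a)) e1.ge
    refine (mean_le (K := C₃ * (n / a)) hd).trans ?_
    have e2 : ((n : ℝ) + 1) ^ 2 * prob d β γ n (fun s => C₃ * (n / a) ≤ ((visited s).card : ℝ)) ≤
        (n / a) ^ 2 := by
      calc _ ≤ ((n : ℝ) + 1) ^ 2 * Real.exp (-(n / a)) :=
            mul_le_mul_of_nonneg_left hP (by positivity)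
        _ ≤ 1 / a ^ 2 := by
            rw [Real.exp_neg, ← div_eq_mul_inv, div_le_div_iff₀ (Real.exp_pos _) (by positivity)]
            linarith
        _ ≤ (n / a) ^ 2 := by
            rw [div_pow]
            gcongr
            nlinarith
    have e3 : (C₃ * (n / a)) ^ 2 + (n / a) ^ 2 ≤ (C * (n / a)) ^ 2 := by
      have e4 : C₃ + 1 ≤ C := by rw [hC]; linarith
      have e5 : ((C₃ + 1) * (n / a)) ^ 2 ≤ (C * (n / a)) ^ 2 :=
        pow_le_pow_left₀ (by positivity) (mul_le_mul_of_nonneg_right e4 hna.le) 2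
      have e6 : 0 ≤ 2 * C₃ * (n / a) ^ 2 := by positivity
      nlinarith
    linarith

end Pool.Agent.DFE
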