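import Pool.Agent.Lib.DFE.Stack

/-!
Closed words with prescribed stacks: the run of the stacks.
-/

set_option autoImplicit false

namespace Pool.Agent.DFE

open Finset Pool.Agent.DCOL

variable {d : ℕ}

/-- Run the stacks from the site `p`, at most `T` steps. -/
def run : ℕ → (Site d → List (Step d)) → Site d → List (Step d)
  | 0, _, _ => []
  | T + 1, τ, p => match τ p with
    | [] => []
    | s :: l => s :: run T (Function.update τ p l) (p + vec s)

theorem run_succ {τ : Site d → List (Step d)} {p : Site d} {s : Step d} {l : List (Step d)}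
    (h : τ p = s :: l) (T : ℕ) :
    run (T + 1) τ p = s :: run T (Function.update τ p l) (p + vec s) := by
  rw [run]
  split
  · rename_i h'; rw [h] at h'; cases h'
  · rename_i h'; rw [h] at h'; cases h'; rfl

theorem inn_pop {τ : Site d → List (Step d)} {p : Site d} {s : Step d} {l : List (Step d)}
    (h : τ p = s :: l) (y : Site d) :
    inn τ y = inn (Function.update τ p l) y + if y = p + vec s then 1 else 0 := by
  unfold inn
  have h1 : ∀ t : Step d, (τ (y - vec t)).count t = (Function.update τ p l (y - vec t)).count t +
      (if t = s then (if y = p + vec s then 1 else 0) else 0) := by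
    intro t
    by_cases hy : y - vec t = p
    · rw [hy, Function.update_self, h, List.count_cons]
      by_cases ht : t = s
      · subst ht
        have : y = p + vec t := by rw [← hy]; abel
        rw [if_pos this, if_pos rfl]
        simp
      · have : (s == t) = false := by
          rw [beq_eq_false_iff_ne]; exact fun h => ht h.symm
        rw [this, if_neg ht]
        simp
    · rw [Function.update_of_ne hy]
      by_cases ht : t = s
      · subst ht
        have : y ≠ p + vec t := by
          intro h'; apply hy; rw [h']; abel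
        rw [if_neg this]; simp
      · rw [if_neg ht]; simp
  rw [Finset.sum_congr rfl fun t _ => h1 t, Finset.sum_add_distrib, Finset.sum_ite_eq']
  simp

/-- The run uses all stacks. -/
theorem run_spec (V : Finset (Site d)) (par : Site d → Step d) (rk : Site d → ℕ)
    (hrk : ∀ y ∈ V, y ≠ 0 → rk (y + vec (par y)) < rk y) (T : ℕ) :
    ∀ (τ : Site d → List (Step d)) (p : Site d), (∀ x, x ∉ V → τ x = []) →
      ∑ x ∈ V, (τ x).length = T →
      (∀ y, inn τ y + (if y = p then 1 else 0) = (τ y).length + (if y = 0 then 1 else 0)) →
      (∀ y, y ≠ 0 → τ y ≠ [] → (τ y).getLast? = some (par y)) →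
      stk p (run T τ p) = τ ∧ (run T τ p).length = T := by
  classical
  induction T with
  | zero =>
    intro τ p h1 h2 _ _
    refine ⟨?_, rfl⟩
    funext x
    by_cases hx : x ∈ V
    · have h3 := (Finset.sum_eq_zero_iff.mp h2) x hx
      rw [List.length_eq_zero_iff.mp h3]; rfl
    · rw [h1 x hx]; rfl
  | succ T ih =>
    intro τ p h1 h2 h3 h4
    have hp : τ p ≠ [] := by
      intro hp
      have e1 := h3 p
      rw [hp, if_pos rfl, List.length_nil, zero_add] at e1
      have hp0 : p = 0 := by
        by_contra h
        rw [if_neg h] at e1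
        omega
      have hne : (V.filter fun y => τ y ≠ []).Nonempty := by
        by_contra hcon
        rw [Finset.not_nonempty_iff_eq_empty, Finset.filter_eq_empty_iff] at hcon
        have : ∑ x ∈ V, (τ x).length = 0 := Finset.sum_eq_zero fun x hx => by
          have := hcon hx
          rw [not_not] at this
          rw [this]; rfl
        omega
      obtain ⟨y, hy, hmin⟩ := Finset.exists_min_image _ rk hne
      rw [Finset.mem_filter] at hy
      have hy0 : y ≠ 0 := by
        rintro rfl
        exact hy.2 (hp0 ▸ hp)
      have hlast := h4 y hy0 hy.2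
      have hmem : par y ∈ τ y := List.mem_of_getLast? hlast
      have hcount : 1 ≤ (τ y).count (par y) := List.count_pos_iff.mpr hmem
      have hinn : 1 ≤ inn τ (y + vec (par y)) := by
        unfold inn
        refine le_trans ?_ (Finset.single_le_sum (f := fun t : Step d =>
          (τ (y + vec (par y) - vec t)).count t) (fun _ _ => Nat.zero_le _)
          (Finset.mem_univ (par y)))
        simp only [add_sub_cancel_right]
        exact hcount
      have hz : τ (y + vec (par y)) = [] := by
        by_contra hcon
        by_cases hzV : y + vec (par y) ∈ V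
        · have := hmin _ (Finset.mem_filter.mpr ⟨hzV, hcon⟩)
          have := hrk y hy.1 hy0
          omega
        · exact hcon (h1 _ hzV)
      have e2 := h3 (y + vec (par y))
      rw [hz, hp0, List.length_nil, zero_add] at e2
      omega
    obtain ⟨s, l, hsl⟩ := List.exists_cons_of_ne_nil hp
    have hpV : p ∈ V := by
      by_contra h
      exact hp (h1 p h)
    rw [run_succ hsl]
    have hlen : ∀ x, (τ x).length = (Function.update τ p l x).length + if x = p then 1 else 0 := by
      intro x
      by_cases hx : x = p
      · subst hx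
        rw [Function.update_self, hsl, if_pos rfl, List.length_cons]
      · rw [Function.update_of_ne hx, if_neg hx, add_zero]
    obtain ⟨e1, e2⟩ := ih (Function.update τ p l) (p + vec s) (by
      intro x hx
      have : x ≠ p := fun h => hx (h ▸ hpV)
      rw [Function.update_of_ne this, h1 x hx]) (by
      rw [Finset.sum_congr rfl fun x _ => hlen x, Finset.sum_add_distrib, Finset.sum_ite_eq',
        if_pos hpV] at h2
      omega) (by
      intro y
      have f1 := inn_pop hsl y
      have f2 := h3 y
      have f3 := hlen y
      omega) (by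
      intro y hy0 hy
      by_cases hyp : y = p
      · subst hyp
        rw [Function.update_self] at hy ⊢
        have f1 := h4 y hy0 hp
        rw [hsl] at f1
        obtain ⟨s', l', rfl⟩ := List.exists_cons_of_ne_nil hy
        rwa [List.getLast?_cons_cons] at f1
      · rw [Function.update_of_ne hyp] at hy ⊢
        exact h4 y hy0 hy)
    refine ⟨?_, by rw [List.length_cons, e2]⟩
    funext x
    rw [stk_cons, e1]
    by_cases hx : x = p
    · subst hx
      rw [if_pos rfl, Function.update_self, hsl]
    · rw [if_neg hx, Function.update_of_ne hx]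

/-- Many closed words with given visit counts. -/
theorem card_run (V : Finset (Site d)) (par : Site d → Step d) (rk : Site d → ℕ)
    (hrk : ∀ y ∈ V, y ≠ 0 → rk (y + vec (par y)) < rk y) (F : Site d → ℕ)
    (LL : Site d → Finset (List (Step d)))
    (hL : ∀ x ∈ V, ∀ l ∈ LL x, l.length = F x ∧ (x ≠ 0 → l.getLast? = some (par x)))
    (hflow : ∀ σ : Site d → List (Step d), (∀ x ∈ V, σ x ∈ LL x) → (∀ x, x ∉ V → σ x = []) →
      ∀ y, inn σ y = (σ y).length) :
    ∃ W : Finset (List (Step d)), W.card = ∏ x ∈ V, (LL x).card ∧
      ∀ w ∈ W, w.length = ∑ x ∈ V, F x ∧ endp w = 0 ∧ (∀ x, lt w x = if x ∈ V then F x else 0) ∧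
        ∀ x ∈ V, stk 0 w x ∈ LL x := by
  classical
  set T := ∑ x ∈ V, F x with hT
  set Ψ : ({x // x ∈ V} → List (Step d)) → Site d → List (Step d) := fun g x =>
    if h : x ∈ V then g ⟨x, h⟩ else [] with hΨ
  set Γ : Finset ({x // x ∈ V} → List (Step d)) := Fintype.piFinset fun x => LL x.1 with hΓ
  have hmem : ∀ g ∈ Γ, ∀ x ∈ V, Ψ g x ∈ LL x := by
    intro g hg x hx
    rw [hΓ, Fintype.mem_piFinset] at hg
    rw [hΨ]
    simp only [dif_pos hx]
    exact hg ⟨x, hx⟩
  have hout : ∀ g x, x ∉ V → Ψ g x = [] := by
    intro g x hx
    rw [hΨ]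
    simp only [dif_neg hx]
  have hlen : ∀ g ∈ Γ, ∀ x, (Ψ g x).length = if x ∈ V then F x else 0 := by
    intro g hg x
    by_cases hx : x ∈ V
    · rw [if_pos hx, (hL x hx _ (hmem g hg x hx)).1]
    · rw [if_neg hx, hout g x hx, List.length_nil]
  have hspec : ∀ g ∈ Γ, stk 0 (run T (Ψ g) 0) = Ψ g ∧ (run T (Ψ g) 0).length = T := by
    intro g hg
    refine run_spec V par rk hrk T (Ψ g) 0 (hout g) ?_ ?_ ?_
    · rw [hT]
      refine Finset.sum_congr rfl fun x hx => ?_
      rw [hlen g hg, if_pos hx]
    · intro y
      rw [hflow (Ψ g) (hmem g hg) (hout g) y]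
    · intro y hy0 hy
      by_cases hyV : y ∈ V
      · exact (hL y hyV _ (hmem g hg y hyV)).2 hy0
      · exact absurd (hout g y hyV) hy
  have hinj : Set.InjOn (fun g => run T (Ψ g) 0) Γ := by
    intro g hg g' hg' he
    rw [Finset.mem_coe] at hg hg'
    have h1 : Ψ g = Ψ g' := by
      rw [← (hspec g hg).1, ← (hspec g' hg').1]
      simp only at he
      rw [he]
    funext x
    have h2 := congrFun h1 x.1
    rw [hΨ] at h2
    simp only [dif_pos x.2] at h2
    exact h2
  refine ⟨Γ.image fun g => run T (Ψ g) 0, ?_, ?_⟩
  · rw [Finset.card_image_of_injOn hinj, hΓ, Fintype.card_piFinset,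
      Finset.prod_coe_sort V fun x => (LL x).card]
  · intro w hw
    obtain ⟨g, hg, rfl⟩ := Finset.mem_image.mp hw
    obtain ⟨h1, h2⟩ := hspec g hg
    have h3 : ∀ x, lt (run T (Ψ g) 0) x = if x ∈ V then F x else 0 := by
      intro x
      have e1 := inn_stk (run T (Ψ g) 0) 0 x
      rw [sub_zero, h1, hflow (Ψ g) (hmem g hg) (hout g) x, hlen g hg] at e1
      exact e1.symm
    refine ⟨h2, ?_, h3, fun x hx => by rw [h1]; exact hmem g hg x hx⟩
    have e1 := length_stk0 (run T (Ψ g) 0) (endp (run T (Ψ g) 0))
    rw [h1, hlen g hg, if_pos rfl, locN, h3] at e1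
    by_contra hne
    rw [if_neg hne] at e1
    omega

end Pool.Agent.DFE
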