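import Pool.Agent.Lib.DCOL.Final

/-!
The exit stacks of a word: the lists of the steps made from the sites.
-/

set_option autoImplicit false

namespace Pool.Agent.DFE

open Finset Pool.Agent.DCOL

variable {d : ℕ}

/-- The steps that the word `w`, started at `p`, makes from the site `x`. -/
def stk : Site d → List (Step d) → Site d → List (Step d)
  | _, [], _ => []
  | p, s :: w, x => if x = p then s :: stk (p + vec s) w x else stk (p + vec s) w x

theorem stk_cons (p : Site d) (s : Step d) (w : List (Step d)) (x : Site d) :
    stk p (s :: w) x = if x = p then s :: stk (p + vec s) w x else stk (p + vec s) w x := rfl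

theorem stk_inj : ∀ (w w' : List (Step d)) (p : Site d), stk p w = stk p w' → w = w'
  | [], [], _, _ => rfl
  | [], s :: w', p, h => by
    have := congrFun h p
    rw [stk_cons, if_pos rfl] at this
    simp [stk] at this
  | s :: w, [], p, h => by
    have := congrFun h p
    rw [stk_cons, if_pos rfl] at this
    simp [stk] at this
  | s :: w, s' :: w', p, h => by
    have h1 := congrFun h p
    rw [stk_cons, stk_cons, if_pos rfl, if_pos rfl, List.cons.injEq] at h1
    obtain ⟨rfl, h2⟩ := h1
    rw [stk_inj w w' (p + vec s) ?_]
    funext x
    have h3 := congrFun h x
    rw [stk_cons, stk_cons] at h3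
    by_cases hx : x = p
    · subst hx; exact h2
    · rwa [if_neg hx, if_neg hx] at h3

/-- The number of stack entries that lead to `y`. -/
def inn (σ : Site d → List (Step d)) (y : Site d) : ℕ := ∑ s, (σ (y - vec s)).count s

theorem inn_stk (w : List (Step d)) : ∀ (p y : Site d), inn (stk p w) y = lt w (y - p) := by
  induction w with
  | nil => intro p y; simp [inn, stk]
  | cons s w ih =>
    intro p y
    rw [lt_cons, sub_sub, ← ih]
    unfold inn
    have h : ∀ t, (stk p (s :: w) (y - vec t)).count t =
        (if t = s then (if y - p = vec s then 1 else 0) else 0) +
          (stk (p + vec s) w (y - vec t)).count t := by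
      intro t
      rw [stk_cons]
      by_cases hy : y - vec t = p
      · rw [if_pos hy, List.count_cons]
        by_cases ht : t = s
        · subst ht
          have : y - p = vec t := by rw [← hy]; abel
          rw [if_pos this]
          simp [add_comm]
        · have : (s == t) = false := by
            rw [beq_eq_false_iff_ne]; exact fun h => ht h.symm
          rw [this, if_neg ht]
          simp
      · rw [if_neg hy]
        by_cases ht : t = s
        · subst ht
          have : y - p ≠ vec t := by
            intro h; apply hy; rw [← h]; abel
          rw [if_neg this]; simp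
        · rw [if_neg ht]; simp
    rw [Finset.sum_congr rfl fun t _ => h t, Finset.sum_add_distrib, Finset.sum_ite_eq']
    simp

theorem length_stk (w : List (Step d)) : ∀ (p x : Site d),
    (stk p w x).length + (if x = p + endp w then 1 else 0) =
      (if x = p then 1 else 0) + lt w (x - p) := by
  induction w with
  | nil => intro p x; simp [stk]
  | cons s w ih =>
    intro p x
    have h1 : (stk p (s :: w) x).length = (if x = p then 1 else 0) +
        (stk (p + vec s) w x).length := by
      rw [stk_cons]
      split_ifs
      · rw [List.length_cons]; ring
      · ring
    have h2 := ih (p + vec s) x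
    rw [h1, endp_cons, lt_cons, add_assoc, ← add_assoc p, h2, sub_sub]
    have h3 : (x = p + vec s) ↔ (x - p = vec s) := by
      rw [sub_eq_iff_eq_add, add_comm]
    simp only [h3]

theorem length_stk0 (w : List (Step d)) (x : Site d) :
    (stk 0 w x).length + (if x = endp w then 1 else 0) = locN w x := by
  have := length_stk w 0 x
  rw [zero_add, sub_zero] at this
  exact this

theorem stk_nil_of_notMem (w : List (Step d)) : ∀ (p x : Site d), x ∉ vis p w →
    stk p w x = [] := by
  induction w with
  | nil => intro p x _; rfl
  | cons s w ih =>
    intro p x hx
    rw [vis, Finset.mem_insert, not_or] at hx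
    rw [stk_cons, if_neg hx.1, ih _ _ hx.2]

theorem endp_mem_vis (w : List (Step d)) : ∀ p : Site d, p + endp w ∈ vis p w := by
  induction w with
  | nil => intro p; simp [vis]
  | cons s w ih =>
    intro p
    rw [vis, endp_cons, ← add_assoc]
    exact Finset.mem_insert_of_mem (ih _)

theorem sum_length_stk (w : List (Step d)) : ∀ (p : Site d) (E : Finset (Site d)), vis p w ⊆ E →
    ∑ x ∈ E, (stk p w x).length = w.length := by
  induction w with
  | nil => intro p E _; simp [stk]
  | cons s w ih =>
    intro p E hE
    have h1 : ∀ x, (stk p (s :: w) x).length = (if x = p then 1 else 0) +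
        (stk (p + vec s) w x).length := by
      intro x
      rw [stk_cons]
      split_ifs
      · rw [List.length_cons]; ring
      · ring
    rw [Finset.sum_congr rfl fun x _ => h1 x, Finset.sum_add_distrib, Finset.sum_ite_eq',
      if_pos (hE (mem_vis_self _ _)), ih _ _ fun x hx => hE ?_, List.length_cons, add_comm]
    rw [vis]
    exact Finset.mem_insert_of_mem hx

end Pool.Agent.DFE
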