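import Pool.Agent.Lib.DFE.Explore

/-!
The upper bound for the partition function for large `γ`.
-/

set_option autoImplicit false

namespace Pool.Agent.DFE

open Finset Pool.Agent.DCOL

variable {d : ℕ}

/-- The bound for the probability that a given step has a given number of occurrences. -/
noncomputable def Qf (d k : ℕ) : ℝ :=
  if k = 0 then 1 else min (1 - 1 / (2 * d)) (Real.sqrt (d / (k + 1)))

theorem Qf_nonneg (hd : 0 < d) (k : ℕ) : 0 ≤ Qf d k := by
  have hd1 : (1 : ℝ) ≤ d := by exact_mod_cast hd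
  unfold Qf
  split_ifs
  · exact zero_le_one
  · refine le_min ?_ (Real.sqrt_nonneg _)
    rw [sub_nonneg, div_le_one (by linarith)]
    linarith

theorem Qf_le_one (hd : 0 < d) (k : ℕ) : Qf d k ≤ 1 := by
  have hd1 : (1 : ℝ) ≤ d := by exact_mod_cast hd
  unfold Qf
  split_ifs
  · exact le_rfl
  · refine (min_le_left _ _).trans ?_
    have : (0 : ℝ) ≤ 1 / (2 * d) := by positivity
    linarith

theorem cnt_le_Qf (hd : 0 < d) (s₀ : Step d) (k j : ℕ) :
    (cnt s₀ k j : ℝ) ≤ (2 * d) ^ k * Qf d k := by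
  have hd1 : (1 : ℝ) ≤ d := by exact_mod_cast hd
  unfold Qf
  split_ifs with hk
  · rw [mul_one]; exact cnt_le_card _ _ _
  · rcases min_choice (1 - 1 / (2 * (d : ℝ))) (Real.sqrt (d / (k + 1))) with h | h
    · rw [h]
      obtain ⟨k', rfl⟩ := Nat.exists_eq_succ_of_ne_zero hk
      refine (cnt_succ_le hd s₀ k' j).trans (le_of_eq ?_)
      rw [Nat.succ_eq_add_one, pow_succ]
      field_simp
    · rw [h]
      have h1 := cnt_sq_le hd s₀ k j
      have hk0 : (0 : ℝ) < (k : ℝ) + 1 := by positivity
      have h2 : (cnt s₀ k j : ℝ) ^ 2 ≤ ((2 * d) ^ k * Real.sqrt (d / (k + 1))) ^ 2 := by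
        rw [mul_pow, Real.sq_sqrt (by positivity), mul_div_assoc', le_div_iff₀ hk0]
        linarith
      exact (pow_le_pow_iff_left₀ (by positivity) (by positivity) two_ne_zero).mp h2

/-- The bound for one site. -/
theorem site_bound (hd : 0 < d) {δ η : ℝ} (hδ : 0 < δ) (hη : 0 < η)
    (hs : η ^ 2 / (4 * δ) + 3 * (1 / (8 * d)) + 1 / 2 * Real.log d ≤
      1 / 2 * Real.log (1 / (8 * d) / η)) {k : ℕ} (hk : 1 ≤ k) :
    Qf d k * Real.exp (-(δ * k ^ 2)) ≤ Real.exp (-(3 * (1 / (8 * d))) - η * k) := by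
  have hd1 : (1 : ℝ) ≤ d := by exact_mod_cast hd
  have hd0 : (0 : ℝ) < d := by linarith
  have hk1 : (1 : ℝ) ≤ k := by exact_mod_cast hk
  set c : ℝ := 1 / (8 * d) with hc
  have hc0 : 0 < c := by positivity
  have h4 : 1 / (2 * (d : ℝ)) = 4 * c := by rw [hc]; field_simp; norm_num
  have hQ : Qf d k = min (1 - 1 / (2 * (d : ℝ))) (Real.sqrt ((d : ℝ) / ((k : ℝ) + 1))) := by
    unfold Qf; rw [if_neg (by omega)]
  by_cases h : η * k ≤ c
  · have h1 : Qf d k ≤ Real.exp (-(4 * c)) := by
      rw [hQ]
      refine (min_le_left _ _).trans ?_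
      rw [h4]
      have := Real.add_one_le_exp (-(4 * c))
      linarith
    have h2 : Real.exp (-(δ * (k : ℝ) ^ 2)) ≤ 1 := by
      rw [Real.exp_le_one_iff]
      have : 0 ≤ δ * (k : ℝ) ^ 2 := by positivity
      linarith
    calc Qf d k * Real.exp (-(δ * (k : ℝ) ^ 2)) ≤ Real.exp (-(4 * c)) * 1 :=
          mul_le_mul h1 h2 (Real.exp_pos _).le (Real.exp_pos _).le
      _ ≤ _ := by
          rw [mul_one]
          exact Real.exp_le_exp.mpr (by linarith)
  · push Not at h
    have hk0 : (0 : ℝ) < (k : ℝ) + 1 := by positivity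
    have h1 : Qf d k ≤ Real.exp (1 / 2 * Real.log d - 1 / 2 * Real.log (k + 1)) := by
      rw [hQ]
      refine (min_le_right _ _).trans (le_of_eq ?_)
      rw [← mul_sub, ← Real.log_div hd0.ne' hk0.ne', Real.sqrt_eq_rpow,
        Real.rpow_def_of_pos (by positivity), mul_comm]
    have h2 : Real.log (c / η) ≤ Real.log (k + 1) := by
      refine Real.log_le_log (by positivity) ?_
      rw [div_le_iff₀ hη]
      nlinarith
    have h3 : η * k ≤ δ * (k : ℝ) ^ 2 + η ^ 2 / (4 * δ) := by
      have h5 : η ^ 2 / (4 * δ) * (4 * δ) = η ^ 2 := by field_simp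
      have h6 := sq_nonneg (2 * δ * k - η)
      have h7 : 0 ≤ 4 * δ * (δ * (k : ℝ) ^ 2 + η ^ 2 / (4 * δ) - η * k) := by nlinarith
      have h8 := nonneg_of_mul_nonneg_right h7 (by positivity)
      linarith
    calc Qf d k * Real.exp (-(δ * (k : ℝ) ^ 2)) ≤
        Real.exp (1 / 2 * Real.log d - 1 / 2 * Real.log (k + 1)) *
          Real.exp (-(δ * (k : ℝ) ^ 2)) :=
          mul_le_mul_of_nonneg_right h1 (Real.exp_pos _).le
      _ ≤ _ := by
        rw [← Real.exp_add]
        refine Real.exp_le_exp.mpr ?_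
        linarith

/-! ### The field of a word -/

theorem lt_le_length (w : List (Step d)) : ∀ x : Site d, lt w x ≤ w.length := by
  induction w with
  | nil => intro x; simp
  | cons s w ih =>
    intro x
    rw [lt_cons, List.length_cons]
    have := ih (x - vec s)
    split_ifs <;> omega

/-- The local times as a function with finite support. -/
noncomputable def fld (w : List (Step d)) : Site d →₀ ℕ :=
  Finsupp.onFinset (vis 0 w) (locN w) fun y hy => (mem_vis0 w y).mpr hy

@[simp] theorem fld_apply (w : List (Step d)) (x : Site d) : fld w x = locN w x := rfl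

theorem fld_support (w : List (Step d)) : (fld w).support = vis 0 w := by
  ext x
  rw [Finsupp.mem_support_iff, fld_apply, mem_vis0]

theorem conn_fld (w : List (Step d)) : Conn (fld w) := by
  intro P h0 hP
  rw [fld_support]
  refine vis_subset (f := fld w) hP w 0 h0 fun y hy => ?_
  rw [fld_apply]
  exact (mem_vis0 w y).mp hy

theorem fld_zero (w : List (Step d)) : fld w 0 ≠ 0 := by
  rw [fld_apply, ← mem_vis0]; exact mem_vis_self _ _

theorem fld_le (w : List (Step d)) (x : Site d) : fld w x ≤ w.length + 1 := by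
  rw [fld_apply, locN]
  have := lt_le_length w x
  split_ifs <;> omega

/-- The energy bounds the sums over the sites of the support. -/
theorem En_ge (hd : 0 < d) {β γ : ℝ} (hγ : 0 ≤ γ) (f : Site d →₀ ℕ) :
    (β - γ) * ∑ x ∈ f.support, (f x : ℝ) ^ 2 +
      γ / (4 * d) * ∑ x ∈ f.support, ∑ s : Step d, ((f (x + vec s) : ℝ) - f x) ^ 2 ≤
      En β γ (fun x => (f x : ℝ)) := by
  have hf : (Function.support fun x => (f x : ℝ)).Finite := by
    refine f.support.finite_toSet.subset fun x hx => ?_
    rw [Finset.mem_coe, Finsupp.mem_support_iff]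
    intro h
    exact hx (by simp only [h, Nat.cast_zero])
  rw [En_eq hd hf]
  have h1 : ∑' x, (f x : ℝ) ^ 2 = ∑ x ∈ f.support, (f x : ℝ) ^ 2 := by
    refine tsum_eq_sum fun x hx => ?_
    rw [Finsupp.notMem_support_iff.mp hx]; norm_num
  rw [h1]
  have h2 : ∑ x ∈ f.support, ∑ s : Step d, ((f (x + vec s) : ℝ) - f x) ^ 2 ≤
      2 * ∑ i : Fin d, ∑' x, ((f (x + vec (i, true)) : ℝ) - f x) ^ 2 := by
    rw [Finset.sum_comm, Fintype.sum_prod_type, Finset.mul_sum]
    refine Finset.sum_le_sum fun i _ => ?_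
    rw [Fintype.sum_bool, two_mul]
    have e1 : Summable fun x => ((f (x + vec (i, true)) : ℝ) - f x) ^ 2 :=
      summable_fs (fs_sq (fs_sub (fs_shift hf _) hf))
    have e2 : Summable fun x => ((f (x + vec (i, false)) : ℝ) - f x) ^ 2 :=
      summable_fs (fs_sq (fs_sub (fs_shift hf _) hf))
    have e3 : ∑' x, ((f (x + vec (i, false)) : ℝ) - f x) ^ 2 =
        ∑' x, ((f (x + vec (i, true)) : ℝ) - f x) ^ 2 := by
      rw [← tsum_shift' (fun x => ((f (x + vec (i, false)) : ℝ) - f x) ^ 2) (vec (i, true))]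
      refine tsum_congr fun x => ?_
      have e4 : x + vec (i, true) + vec (i, false) = x := by
        have : (vec (i, false) : Site d) = -vec (i, true) := by simp [vec]
        rw [this]; abel
      rw [e4]; ring
    refine add_le_add (e1.sum_le_tsum _ fun x _ => sq_nonneg _) ?_
    rw [← e3]
    exact e2.sum_le_tsum _ fun x _ => sq_nonneg _
  have hd0 : (0 : ℝ) < d := by exact_mod_cast hd
  have h3 : γ / (4 * d) * ∑ x ∈ f.support, ∑ s : Step d, ((f (x + vec s) : ℝ) - f x) ^ 2 ≤
      γ / (2 * d) * ∑ i : Fin d, ∑' x, ((f (x + vec (i, true)) : ℝ) - f x) ^ 2 := by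
    calc _ ≤ γ / (4 * d) * (2 * ∑ i : Fin d, ∑' x, ((f (x + vec (i, true)) : ℝ) - f x) ^ 2) :=
          mul_le_mul_of_nonneg_left h2 (by positivity)
      _ = _ := by field_simp; ring
  linarith

/-- The weight function of the differences. -/
noncomputable def psi (γ : ℝ) (d : ℕ) (g : ℤ) : ℝ := Real.exp (-(γ / (4 * d) * (g : ℝ) ^ 2))

theorem sum_geo {r : ℝ} (hr0 : 0 ≤ r) (hr1 : r < 1) (T : Finset ℕ) (g : ℕ → ℕ)
    (hg : Set.InjOn g T) : ∑ b ∈ T, r ^ (g b + 1) ≤ r / (1 - r) := by
  classical
  calc ∑ b ∈ T, r ^ (g b + 1) = ∑ j ∈ T.image g, r ^ (j + 1) := by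
        rw [Finset.sum_image hg]
    _ = r * ∑ j ∈ T.image g, r ^ j := by
        rw [Finset.mul_sum]
        exact Finset.sum_congr rfl fun j _ => by rw [pow_succ]; ring
    _ ≤ r * ∑' j : ℕ, r ^ j := by
        refine mul_le_mul_of_nonneg_left ?_ hr0
        exact (summable_geometric_of_lt_one hr0 hr1).sum_le_tsum _ fun j _ => by positivity
    _ = _ := by rw [tsum_geometric_of_lt_one hr0 hr1]; ring

/-- The constant above which the exploration bound is exact. -/
noncomputable def Gam (d : ℕ) : ℝ := 4 * d * Real.log (16 * d ^ 2 + 1)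

theorem psi_sum (hd : 0 < d) {γ : ℝ} (hγ : Gam d ≤ γ) (T : Finset ℕ) (a : ℕ) :
    ∑ b ∈ T, psi γ d ((b : ℤ) - a) ≤ 1 + 1 / (8 * d ^ 2) := by
  classical
  have hd0 : (0 : ℝ) < d := by exact_mod_cast hd
  have hγ0 : 0 ≤ γ := by
    refine le_trans ?_ hγ
    unfold Gam
    have : 0 ≤ Real.log (16 * (d : ℝ) ^ 2 + 1) := Real.log_nonneg (by nlinarith [sq_nonneg (d : ℝ)])
    positivity
  set r : ℝ := Real.exp (-(γ / (4 * d))) with hr
  have hr0 : 0 < r := Real.exp_pos _
  have hr1 : r ≤ 1 / (16 * d ^ 2 + 1) := by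
    have h1 : Real.log (16 * (d : ℝ) ^ 2 + 1) ≤ γ / (4 * d) := by
      rw [le_div_iff₀ (by positivity)]
      unfold Gam at hγ
      linarith
    rw [hr, one_div, ← Real.exp_log (show (0 : ℝ) < 16 * d ^ 2 + 1 by positivity), ← Real.exp_neg]
    exact Real.exp_le_exp.mpr (neg_le_neg h1)
  have hr2 : r < 1 := by
    refine hr1.trans_lt ?_
    rw [div_lt_one (by positivity)]
    nlinarith [sq_nonneg (d : ℝ), pow_pos hd0 2]
  have hr3 : r / (1 - r) ≤ 1 / (16 * d ^ 2) := by
    rw [div_le_div_iff₀ (by linarith) (by positivity)]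
    rw [le_div_iff₀ (by positivity)] at hr1
    linarith
  have hpsi : ∀ g : ℤ, psi γ d g ≤ r ^ g.natAbs := by
    intro g
    unfold psi
    rw [hr, ← Real.exp_nat_mul]
    refine Real.exp_le_exp.mpr ?_
    have h1 : (g.natAbs : ℝ) ≤ (g : ℝ) ^ 2 := by
      have h2 : g.natAbs ≤ g.natAbs ^ 2 := Nat.le_self_pow two_ne_zero _
      have h3 : ((g.natAbs ^ 2 : ℕ) : ℝ) = (g : ℝ) ^ 2 := by
        push_cast
        rw [Nat.cast_natAbs, Int.cast_abs, sq_abs]
      rw [← h3]; exact_mod_cast h2
    have h4 : 0 ≤ γ / (4 * d) := by positivity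
    nlinarith
  have hT : ∑ b ∈ T, psi γ d ((b : ℤ) - a) = ∑ b ∈ T.filter (fun b => b = a), psi γ d ((b : ℤ) - a) +
      (∑ b ∈ (T.filter fun b => ¬ b = a).filter (fun b => a < b), psi γ d ((b : ℤ) - a) +
      ∑ b ∈ (T.filter fun b => ¬ b = a).filter (fun b => ¬ a < b), psi γ d ((b : ℤ) - a)) := by
    rw [Finset.sum_filter_add_sum_filter_not, Finset.sum_filter_add_sum_filter_not]
  rw [hT]
  have p1 : ∑ b ∈ T.filter (fun b => b = a), psi γ d ((b : ℤ) - a) ≤ 1 := by
    calc _ ≤ ∑ b ∈ ({a} : Finset ℕ), psi γ d ((b : ℤ) - a) := by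
          refine Finset.sum_le_sum_of_subset_of_nonneg (fun b hb => ?_) fun b _ _ =>
            (Real.exp_pos _).le
          rw [Finset.mem_singleton]; exact (Finset.mem_filter.mp hb).2
      _ = 1 := by simp [psi]
  have p2 : ∑ b ∈ (T.filter fun b => ¬ b = a).filter (fun b => a < b), psi γ d ((b : ℤ) - a) ≤
      1 / (16 * d ^ 2) := by
    refine le_trans ?_ hr3
    refine le_trans (Finset.sum_le_sum fun b hb => ?_) (sum_geo hr0.le hr2 _ (fun b => b - a - 1) ?_)
    · rw [Finset.mem_filter] at hb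
      have : ((b : ℤ) - a).natAbs = b - a - 1 + 1 := by omega
      rw [← this]; exact hpsi _
    · intro b hb b' hb' he
      rw [Finset.mem_coe, Finset.mem_filter] at hb hb'
      simp only at he
      omega
  have p3 : ∑ b ∈ (T.filter fun b => ¬ b = a).filter (fun b => ¬ a < b), psi γ d ((b : ℤ) - a) ≤
      1 / (16 * d ^ 2) := by
    refine le_trans ?_ hr3
    refine le_trans (Finset.sum_le_sum fun b hb => ?_) (sum_geo hr0.le hr2 _ (fun b => a - b - 1) ?_)
    · rw [Finset.mem_filter, Finset.mem_filter] at hb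
      have : ((b : ℤ) - a).natAbs = a - b - 1 + 1 := by omega
      rw [← this]; exact hpsi _
    · intro b hb b' hb' he
      rw [Finset.mem_coe, Finset.mem_filter, Finset.mem_filter] at hb hb'
      simp only at he
      omega
  have p4 : (1 : ℝ) / (16 * d ^ 2) + 1 / (16 * d ^ 2) = 1 / (8 * d ^ 2) := by
    field_simp; norm_num
  linarith

/-- **The upper bound for large `γ`.** -/
theorem upper_big (hd : 0 < d) {β γ η : ℝ} (hγ : Gam d ≤ γ) (hβ : γ < β) (hη : 0 < η)
    (hs : η ^ 2 / (4 * (β - γ)) + 3 * (1 / (8 * d)) + 1 / 2 * Real.log d ≤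
      1 / 2 * Real.log (1 / (8 * d) / η)) (n : ℕ) :
    ∑ w ∈ allw d n, Real.exp (1 / (8 * d) * ((vis 0 w).card : ℝ) - En β γ (loc w)) ≤
      (2 * d) ^ n * ((n + 1) ^ 2 * Real.exp (3 * (1 / (8 * d)) - η * n)) := by
  classical
  have hd0 : (0 : ℝ) < d := by exact_mod_cast hd
  have hγ0 : 0 ≤ γ := by
    refine le_trans ?_ hγ
    unfold Gam
    have : 0 ≤ Real.log (16 * (d : ℝ) ^ 2 + 1) := Real.log_nonneg (by nlinarith [sq_nonneg (d : ℝ)])
    positivity
  set c : ℝ := 1 / (8 * d) with hc
  have hc0 : 0 < c := by positivity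
  set δ : ℝ := β - γ with hδ
  have hδ0 : 0 < δ := by rw [hδ]; linarith
  set κ : ℝ := Real.exp (-(2 * c)) with hκ
  set i₀ : Fin d := ⟨0, hd⟩
  set F : Finset (Site d →₀ ℕ) := (allw d n).image fld with hF
  -- the weight of one word
  have hEn : ∀ w : List (Step d), En β γ (loc w) = En β γ (fun x => (fld w x : ℝ)) := by
    intro w
    congr 1
    funext x
    rw [loc_eq, fld_apply]
  -- for one field and one end point
  have hone : ∀ f ∈ F, ∀ e ∈ f.support,
      ((((allw d n).filter fun w => fld w = f).filter fun w => endp w = e).card : ℝ) *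
        Real.exp (c * (f.support.card : ℝ) - En β γ (fun x => (f x : ℝ))) ≤
      (2 * d) ^ n * Real.exp (3 * c - η * n) * ∏ x ∈ f.support, wt κ (psi γ d) f x := by
    intro f _ e he
    rcases (((allw d n).filter fun w => fld w = f).filter fun w => endp w = e).eq_empty_or_nonempty
      with hW | ⟨w₀, hw₀⟩
    · rw [hW, Finset.card_empty, Nat.cast_zero, zero_mul]
      refine mul_nonneg (by positivity) (Finset.prod_nonneg fun x _ => ?_)
      exact mul_nonneg (Real.exp_pos _).le (Finset.prod_nonneg fun s _ => (Real.exp_pos _).le)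
    have h1 := card_words i₀ (Qf_nonneg hd) (cnt_le_Qf hd (i₀, true)) (n := n) (fun x => f x) e
      f.support (fun x => by rw [Finsupp.mem_support_iff])
      (((allw d n).filter fun w => fld w = f).filter fun w => endp w = e) (by
        intro w hw
        rw [Finset.mem_filter, Finset.mem_filter, mem_allw] at hw
        exact ⟨hw.1.1, fun x => by rw [← fld_apply, hw.1.2], hw.2⟩)
    have hsum : ∑ x ∈ f.support, (f x - if x = e then 1 else 0) = n := by
      rw [Finset.mem_filter, Finset.mem_filter, mem_allw] at hw₀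
      obtain ⟨⟨a1, a2⟩, a3⟩ := hw₀
      rw [← a1, ← sum_length_stk w₀ 0 f.support (by rw [← a2, fld_support])]
      refine Finset.sum_congr rfl fun x _ => ?_
      have := length_stk0 w₀ x
      rw [← fld_apply, a2, a3] at this
      omega
    have h2 := En_ge hd hγ0 (β := β) f
    rw [← hδ] at h2
    -- the product bound
    have h3 : (∏ x ∈ f.support, Qf d (f x - if x = e then 1 else 0)) *
        Real.exp (c * (f.support.card : ℝ) - δ * ∑ x ∈ f.support, (f x : ℝ) ^ 2) ≤
        Real.exp (3 * c - η * n) * κ ^ f.support.card := by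
      have e1 : Real.exp (c * (f.support.card : ℝ) - δ * ∑ x ∈ f.support, (f x : ℝ) ^ 2) =
          ∏ x ∈ f.support, Real.exp (c - δ * (f x : ℝ) ^ 2) := by
        rw [← Real.exp_sum, Finset.sum_sub_distrib, Finset.sum_const, nsmul_eq_mul,
          Finset.mul_sum, mul_comm c]
      have e2 : ∀ x ∈ f.support, Qf d (f x - if x = e then 1 else 0) *
          Real.exp (c - δ * (f x : ℝ) ^ 2) ≤
          Real.exp (if x = e then 3 * c else 0) *
            (κ * Real.exp (-(η * ((f x - if x = e then 1 else 0 : ℕ) : ℝ)))) := by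
        intro x hx
        have hfx : f x ≠ 0 := Finsupp.mem_support_iff.mp hx
        by_cases hxe : x = e
        · rw [if_pos hxe, if_pos hxe]
          set k := f x - 1 with hk
          have hkf : (k : ℝ) ≤ f x := by
            have : k ≤ f x := Nat.sub_le _ _
            exact_mod_cast this
          have q1 : Qf d k * Real.exp (-(δ * (k : ℝ) ^ 2)) ≤ Real.exp (-(η * k)) := by
            rcases Nat.eq_zero_or_pos k with hk0 | hk0
            · rw [hk0]
              simp only [Nat.cast_zero, mul_zero, neg_zero, Real.exp_zero]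
              have := Qf_le_one hd 0
              simpa using this
            · refine (site_bound hd hδ0 hη hs hk0).trans (Real.exp_le_exp.mpr ?_)
              have : 0 ≤ 3 * (1 / (8 * (d : ℝ))) := by positivity
              linarith
          have q2 : Real.exp (c - δ * (f x : ℝ) ^ 2) ≤
              Real.exp (-(δ * (k : ℝ) ^ 2)) * Real.exp c := by
            rw [← Real.exp_add]
            refine Real.exp_le_exp.mpr ?_
            have : δ * (k : ℝ) ^ 2 ≤ δ * (f x : ℝ) ^ 2 := by gcongr
            linarith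
          calc Qf d k * Real.exp (c - δ * (f x : ℝ) ^ 2) ≤
              Qf d k * (Real.exp (-(δ * (k : ℝ) ^ 2)) * Real.exp c) :=
                mul_le_mul_of_nonneg_left q2 (Qf_nonneg hd _)
            _ = (Qf d k * Real.exp (-(δ * (k : ℝ) ^ 2))) * Real.exp c := by ring
            _ ≤ Real.exp (-(η * k)) * Real.exp c := by gcongr
            _ = _ := by
              rw [hκ, ← Real.exp_add, ← Real.exp_add, ← Real.exp_add]
              congr 1
              ring
        · rw [if_neg hxe, if_neg hxe, Nat.sub_zero, Real.exp_zero, one_mul]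
          have q1 := site_bound hd hδ0 hη hs (Nat.one_le_iff_ne_zero.mpr hfx)
          rw [← hc] at q1
          calc Qf d (f x) * Real.exp (c - δ * (f x : ℝ) ^ 2) =
              (Qf d (f x) * Real.exp (-(δ * (f x : ℝ) ^ 2))) * Real.exp c := by
                rw [mul_assoc, ← Real.exp_add]
                congr 2
                ring
            _ ≤ Real.exp (-(3 * c) - η * f x) * Real.exp c := by gcongr
            _ = _ := by
              rw [hκ, ← Real.exp_add, ← Real.exp_add]
              congr 1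
              ring
      rw [e1, ← Finset.prod_mul_distrib]
      refine (Finset.prod_le_prod (fun x _ => mul_nonneg (Qf_nonneg hd _) (Real.exp_pos _).le)
        e2).trans (le_of_eq ?_)
      rw [Finset.prod_mul_distrib, Finset.prod_mul_distrib, Finset.prod_const, ← Real.exp_sum,
        Finset.sum_ite_eq', if_pos he, ← Real.exp_sum, Finset.sum_neg_distrib, ← Finset.mul_sum,
        ← Nat.cast_sum, hsum, sub_eq_add_neg, Real.exp_add]
      ring
    have h4 : Real.exp (c * (f.support.card : ℝ) - En β γ (fun x => (f x : ℝ))) ≤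
        Real.exp (c * (f.support.card : ℝ) - δ * ∑ x ∈ f.support, (f x : ℝ) ^ 2) *
          ∏ x ∈ f.support, ∏ s : Step d, psi γ d ((f (x + vec s) : ℤ) - f x) := by
      have e1 : ∏ x ∈ f.support, ∏ s : Step d, psi γ d ((f (x + vec s) : ℤ) - f x) =
          Real.exp (-(γ / (4 * d) * ∑ x ∈ f.support, ∑ s : Step d,
            ((f (x + vec s) : ℝ) - f x) ^ 2)) := by
        unfold psi
        rw [Finset.mul_sum, ← Finset.sum_neg_distrib, Real.exp_sum]
        refine Finset.prod_congr rfl fun x _ => ?_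
        rw [Finset.mul_sum, ← Finset.sum_neg_distrib, Real.exp_sum]
        refine Finset.prod_congr rfl fun s _ => ?_
        push_cast
        rfl
      rw [e1, ← Real.exp_add]
      exact Real.exp_le_exp.mpr (by linarith)
    have h5 : ∏ x ∈ f.support, wt κ (psi γ d) f x = κ ^ f.support.card *
        ∏ x ∈ f.support, ∏ s : Step d, psi γ d ((f (x + vec s) : ℤ) - f x) := by
      unfold wt
      rw [Finset.prod_mul_distrib, Finset.prod_const]
    have h6 : 0 ≤ ∏ x ∈ f.support, ∏ s : Step d, psi γ d ((f (x + vec s) : ℤ) - f x) :=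
      Finset.prod_nonneg fun x _ => Finset.prod_nonneg fun s _ => (Real.exp_pos _).le
    have h7 : 0 ≤ ∏ x ∈ f.support, Qf d (f x - if x = e then 1 else 0) :=
      Finset.prod_nonneg fun x _ => Qf_nonneg hd _
    rw [h5]
    calc _ ≤ ((2 * d) ^ n * ∏ x ∈ f.support, Qf d (f x - if x = e then 1 else 0)) *
          (Real.exp (c * (f.support.card : ℝ) - δ * ∑ x ∈ f.support, (f x : ℝ) ^ 2) *
          ∏ x ∈ f.support, ∏ s : Step d, psi γ d ((f (x + vec s) : ℤ) - f x)) :=
          mul_le_mul h1 h4 (Real.exp_pos _).le (by positivity)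
      _ = (2 * d) ^ n * ((∏ x ∈ f.support, Qf d (f x - if x = e then 1 else 0)) *
          Real.exp (c * (f.support.card : ℝ) - δ * ∑ x ∈ f.support, (f x : ℝ) ^ 2)) *
          ∏ x ∈ f.support, ∏ s : Step d, psi γ d ((f (x + vec s) : ℤ) - f x) := by ring
      _ ≤ (2 * d) ^ n * (Real.exp (3 * c - η * n) * κ ^ f.support.card) *
          ∏ x ∈ f.support, ∏ s : Step d, psi γ d ((f (x + vec s) : ℤ) - f x) := by
          gcongr
      _ = _ := by ring
  -- exploration
  have hexp : ∑ f ∈ F, ∏ x ∈ f.support, wt κ (psi γ d) f x ≤ ((n + 1 : ℕ) : ℝ) := by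
    refine expl_all (G := 1 + 1 / (8 * d ^ 2)) (Real.exp_pos _).le (fun g => (Real.exp_pos _).le)
      (fun T a => psi_sum hd hγ T a) ?_ F (n + 1) ?_
    · have h1 : (1 + 1 / (8 * (d : ℝ) ^ 2)) ≤ Real.exp (1 / (8 * d ^ 2)) := by
        have := Real.add_one_le_exp (1 / (8 * (d : ℝ) ^ 2))
        linarith
      calc κ * (1 + 1 / (8 * (d : ℝ) ^ 2)) ^ (2 * d) ≤
          κ * (Real.exp (1 / (8 * (d : ℝ) ^ 2))) ^ (2 * d) := by gcongr
        _ = 1 := by
          rw [hκ, ← Real.exp_nat_mul, ← Real.exp_add, Real.exp_eq_one_iff]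
          push_cast
          rw [hc]
          field_simp
          ring
    · intro f hf
      obtain ⟨w, hw, rfl⟩ := Finset.mem_image.mp hf
      refine ⟨fld_zero w, ?_, conn_fld w⟩
      have := fld_le w 0
      rwa [mem_allw.mp hw] at this
  -- assembly
  have hA : ∀ w ∈ allw d n, Real.exp (c * ((vis 0 w).card : ℝ) - En β γ (loc w)) =
      Real.exp (c * ((fld w).support.card : ℝ) - En β γ (fun x => (fld w x : ℝ))) := by
    intro w _
    rw [hEn, fld_support]
  rw [Finset.sum_congr rfl hA, ← Finset.sum_fiberwise_of_maps_to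
    (g := fld) (t := F) fun w hw => Finset.mem_image_of_mem _ hw]
  calc ∑ f ∈ F, ∑ w ∈ (allw d n).filter (fun w => fld w = f),
        Real.exp (c * ((fld w).support.card : ℝ) - En β γ (fun x => (fld w x : ℝ))) ≤
      ∑ f ∈ F, (n + 1) * ((2 * d) ^ n * Real.exp (3 * c - η * n) *
        ∏ x ∈ f.support, wt κ (psi γ d) f x) := by
        refine Finset.sum_le_sum fun f hf => ?_
        have e1 : ∀ w ∈ (allw d n).filter (fun w => fld w = f), endp w ∈ f.support := by
          intro w hw
          rw [← (Finset.mem_filter.mp hw).2, fld_support]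
          have := endp_mem_vis w 0
          rwa [zero_add] at this
        rw [← Finset.sum_fiberwise_of_maps_to e1]
        have e2 : (f.support.card : ℝ) ≤ n + 1 := by
          obtain ⟨w, hw, rfl⟩ := Finset.mem_image.mp hf
          rw [fld_support]
          have := card_vis_le 0 w
          rw [mem_allw.mp hw] at this
          exact_mod_cast this
        have e3 : 0 ≤ (2 * (d : ℝ)) ^ n * Real.exp (3 * c - η * n) *
            ∏ x ∈ f.support, wt κ (psi γ d) f x := by
          refine mul_nonneg (by positivity) (Finset.prod_nonneg fun x _ => ?_)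
          exact mul_nonneg (Real.exp_pos _).le (Finset.prod_nonneg fun s _ => (Real.exp_pos _).le)
        calc _ ≤ ∑ _e ∈ f.support, (2 * (d : ℝ)) ^ n * Real.exp (3 * c - η * n) *
              ∏ x ∈ f.support, wt κ (psi γ d) f x := by
              refine Finset.sum_le_sum fun e he => ?_
              refine le_trans (le_of_eq ?_) (hone f hf e he)
              rw [Finset.sum_congr rfl (g := fun _ => Real.exp (c * (f.support.card : ℝ) -
                En β γ (fun x => (f x : ℝ)))), Finset.sum_const, nsmul_eq_mul]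
              intro w hw
              rw [Finset.mem_filter, Finset.mem_filter] at hw
              rw [hw.1.2]
          _ ≤ _ := by
              rw [Finset.sum_const, nsmul_eq_mul]
              exact mul_le_mul_of_nonneg_right e2 e3
    _ = (n + 1) * ((2 * d) ^ n * Real.exp (3 * c - η * n)) *
        ∑ f ∈ F, ∏ x ∈ f.support, wt κ (psi γ d) f x := by
        rw [← Finset.mul_sum, ← Finset.mul_sum]; ring
    _ ≤ (n + 1) * ((2 * d) ^ n * Real.exp (3 * c - η * n)) * ((n + 1 : ℕ) : ℝ) := by
        gcongr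
    _ = _ := by push_cast; ring

end Pool.Agent.DFE
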